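import Pool.Agent.Work.MP_b59478_pr.Defs

-- merged part: Pool.Agent.Work.MP_b59478_pr.W5
section
-- merged part: Pool.Agent.Work.MP_b59478_pr.Basic
section
/-! Working definitions for the proof on the Ising droplet. -/

set_option autoImplicit false

noncomputable section

namespace Pool.Agent.Work.MP_b59478_pr

open Classical Filter Topology MeasureTheory
open scoped symmDiff Pointwise

/-! ### Lattice topology -/

/-- Sup-distance at most `r`. -/
def Near (r : ℕ) (x y : Site) : Prop := ∀ i, |x i - y i| ≤ r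

def ball (x : Site) (r : ℕ) : Finset Site :=
  Fintype.piFinset fun i => Finset.Icc (x i - r) (x i + r)

/-- The translate of `cyl k L M` centred at `c`. -/
def tile (c : Site) (k : Fin 3) (L M : ℕ) : Finset Site :=
  Fintype.piFinset fun i =>
    if i = k then Finset.Icc (c i - M) (c i + M) else Finset.Icc (c i - L) (c i + L)

def IsBox (V : Finset Site) : Prop := ∃ lo hi : Site, ∀ x, x ∈ V ↔ ∀ i, lo i ≤ x i ∧ x i ≤ hi i

/-- Exactly one endpoint of `b` is in `H`. -/
def Cuts (H : Set Site) (b : Bond) : Prop := ¬ (b.1 ∈ H ↔ tip b ∈ H)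

def cut (S : Finset Site) : Finset Bond := (bonds S).filter fun b => Cuts (S : Set Site) b

/-- The four endpoints lie in a common unit cube. -/
def Adj (b b' : Bond) : Prop :=
  Near 1 b.1 b'.1 ∧ Near 1 b.1 (tip b') ∧ Near 1 (tip b) b'.1 ∧ Near 1 (tip b) (tip b')

def Conn (T : Finset Bond) : Bond → Bond → Prop :=
  Relation.ReflTransGen fun u v => u ∈ T ∧ v ∈ T ∧ Adj u v

/-- `T'` is a union of components of `T`. -/
def Clopen (T' T : Finset Bond) : Prop := T' ⊆ T ∧ ∀ b ∈ T', ∀ b' ∈ T, Adj b b' → b' ∈ T'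

def comp (T : Finset Bond) (b : Bond) : Finset Bond := T.filter (Conn T b)

def IsConn (c : Finset Bond) : Prop := ∀ b ∈ c, ∀ b' ∈ c, Conn c b b'

/-- The component of `b` in `T` has diameter more than `s`. -/
def Big (s : ℕ) (T : Finset Bond) (b : Bond) : Prop :=
  ∃ b1 b2, Conn T b b1 ∧ Conn T b b2 ∧ ¬ Near s b1.1 b2.1

def Small (s : ℕ) (T : Finset Bond) : Prop := ∀ b ∈ T, ¬ Big s T b

def AllBig (s : ℕ) (T : Finset Bond) : Prop := ∀ b ∈ T, Big s T b

def Lg (s : ℕ) (T : Finset Bond) : Finset Bond := T.filter (Big s T)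

/-- The finite set with boundary `T`, if there is one. -/
def intr (T : Finset Bond) : Finset Site := if h : ∃ I, cut I = T then h.choose else ∅

/-- The set bounded by the large contours of `S`. -/
def large (s : ℕ) (S : Finset Site) : Finset Site := intr (Lg s (cut S))

def adjF (b : Bond) : Finset Bond := (ball b.1 1 ×ˢ Finset.univ).filter (Adj b)

def nbhd (T : Finset Bond) : Finset Bond := T.biUnion adjF

/-- Star-connectedness inside `K`. -/
def SConn (K : Finset Site) : Site → Site → Prop :=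
  Relation.ReflTransGen fun a b => a ∈ K ∧ b ∈ K ∧ Near 1 a b

def Rooted (P T : Finset Bond) : Prop := ∀ b ∈ T, ∃ r ∈ P, r ∈ T ∧ Conn T r b

/-- Every component of `T` meets `P` or has at least `s` bonds. -/
def Anim (P : Finset Bond) (s : ℕ) (T : Finset Bond) : Prop :=
  ∀ b ∈ T, (∃ r ∈ P, r ∈ T ∧ Conn T r b) ∨ s ≤ (comp T b).card

def shiftB (u : Site) (b : Bond) : Bond := (b.1 + u, b.2)

/-- All star-components of `S` have diameter at most `r`. -/
def Typ (r : ℕ) (S : Finset Site) : Prop := ∀ x ∈ S, ∀ y, SConn S x y → Near r x y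

/-! ### The gas of small contours -/

def ph : ℝ := 1 / 1000

def w (β : ℝ) (S : Finset Site) : ℝ := Real.exp (-(2 * β * (cut S).card))

def Om (V : Finset Site) (X : Finset Bond) (s : ℕ) : Finset (Finset Site) :=
  V.powerset.filter fun D => Small s (cut D) ∧ Disjoint (cut D) X

def gw (β : ℝ) (a : Site → ℝ) (D : Finset Site) : ℝ := w β D * Real.exp (∑ x ∈ D, a x)

def gZ (β : ℝ) (V : Finset Site) (X : Finset Bond) (s : ℕ) (a : Site → ℝ) : ℝ :=
  ∑ D ∈ Om V X s, gw β a D

def gZ0 (β : ℝ) (V : Finset Site) (X : Finset Bond) (s : ℕ) : ℝ := ∑ D ∈ Om V X s, w β D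

def gP (β : ℝ) (V : Finset Site) (X : Finset Bond) (s : ℕ) (a : Site → ℝ)
    (Ev : Finset Site → Prop) : ℝ :=
  (∑ D ∈ (Om V X s).filter Ev, gw β a D) / gZ β V X s a

/-- Two independent samples of two gases. -/
def g2P (β : ℝ) (V : Finset Site) (X : Finset Bond) (s : ℕ) (a : Site → ℝ)
    (V' : Finset Site) (X' : Finset Bond) (s' : ℕ) (a' : Site → ℝ)
    (Ev : Finset Site → Finset Site → Prop) : ℝ :=
  (∑ D ∈ Om V X s, ∑ D' ∈ (Om V' X' s').filter (Ev D), gw β a D * gw β a' D') /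
    (gZ β V X s a * gZ β V' X' s' a')

structure Gas (β : ℝ) (V : Finset Site) (s : ℕ) (a : Site → ℝ) : Prop where
  hβ : 1000 ≤ β
  box : IsBox V
  fld : ∀ x, |a x| * (2 * (s : ℝ) + 1) ^ 3 ≤ 1

/-! ### Thermodynamics at fixed large contours -/

def Mg (V S : Finset Site) : ℝ := 2 * (S.card : ℝ) - V.card

def fld (A : Finset Site) (h : ℝ) (x : Site) : ℝ := if x ∈ A then -(2 * h) else 2 * h

def ZA (β : ℝ) (V : Finset Site) (X : Finset Bond) (s : ℕ) (A : Finset Site) (h : ℝ) : ℝ :=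
  ∑ D ∈ Om V X s, w β D * Real.exp (h * Mg V (A ∆ D))

def EA (β : ℝ) (V : Finset Site) (X : Finset Bond) (s : ℕ) (A : Finset Site) (h : ℝ) : ℝ :=
  (∑ D ∈ Om V X s, w β D * Real.exp (h * Mg V (A ∆ D)) * Mg V (A ∆ D)) / ZA β V X s A h

def VA (β : ℝ) (V : Finset Site) (X : Finset Bond) (s : ℕ) (A : Finset Site) (h : ℝ) : ℝ :=
  (∑ D ∈ Om V X s, w β D * Real.exp (h * Mg V (A ∆ D)) *
    (Mg V (A ∆ D) - EA β V X s A h) ^ 2) / ZA β V X s A h

def ZM (β : ℝ) (V : Finset Site) (X : Finset Bond) (s : ℕ) (A : Finset Site) (m : ℤ) : ℝ :=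
  ∑ D ∈ (Om V X s).filter fun D => Mg V (A ∆ D) = m, w β D

/-- The admissible range of the field. -/
def HOk (s : ℕ) (h : ℝ) : Prop := 2 * |h| * (2 * (s : ℝ) + 1) ^ 3 ≤ 1

/-- Isolated sites of `D` in `E`. -/
def Iso (E D : Finset Site) : Finset Site := (D ∩ E).filter fun x => ∀ y ∈ D, Near 1 y x → y = x

/-- Sites of `E` with no site of `D` nearby. -/
def Free (E D : Finset Site) : Finset Site := E.filter fun x => ∀ y ∈ D, ¬ Near 1 y x

/-- `E` is a set of sites where single-site contours can be added independently. -/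
structure Elig (V : Finset Site) (X : Finset Bond) (E : Finset Site) : Prop where
  sub : E ⊆ V
  sep : ∀ x ∈ E, ∀ y ∈ E, Near 1 x y → x = y
  avoid : ∀ x ∈ E, ∀ b ∈ X, b.1 ≠ x ∧ tip b ≠ x

def nu (β : ℝ) (N s : ℕ) (a : ℝ) : ℝ := gP β (cube N) ∅ s (fun _ => a) fun D => (0 : Site) ∈ D

structure MagFacts (β ms : ℝ) : Prop where
  lo : 0.99 ≤ ms
  hi : ms ≤ 1
  close : ∀ N s : ℕ, s ≤ 2 * N → |1 - 2 * nu β N s 0 - ms| ≤ 54 * ph ^ (s / 2)

/-- The cut-off between small and large contours, about `N ^ (1 / 8)`. -/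
def sN (N : ℕ) : ℕ := Nat.sqrt (Nat.sqrt (Nat.sqrt N))

def BigSets (N : ℕ) : Finset (Finset Site) :=
  (cube N).powerset.filter fun A => AllBig (sN N) (cut A)

def Z0 (β : ℝ) (Λ : Finset Site) : ℝ := ∑ S ∈ Λ.powerset, w β S

/-- Unnormalised weight of the configurations with large part `A`. -/
def PL (β : ℝ) (N : ℕ) (A : Finset Site) : ℝ :=
  w β A * gZ0 β (cube N) (nbhd (cut A)) (sN N)

/-- Unnormalised weight of the configurations with large part `A` and magnetization `m`. -/
def FM (β : ℝ) (N : ℕ) (m : ℤ) (A : Finset Site) : ℝ :=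
  w β A * ZM β (cube N) (nbhd (cut A)) (sN N) A m

/-! ### Boundary conditions and surface tension -/

def Zb (β : ℝ) (Λ : Finset Site) (H : Set Site) : ℝ :=
  ∑ S ∈ Λ.powerset, Real.exp (-(2 * β *
    ((bonds Λ).filter fun b => Cuts ((S : Set Site) ∪ (H \ (Λ : Set Site))) b).card))

def Zf (β : ℝ) (Λ O : Finset Site) : ℝ := ∑ S ∈ Λ.powerset, w β (S ∪ (O \ Λ))

def Rt (β : ℝ) (Λ : Finset Site) (H : Set Site) : ℝ := Zb β Λ H / Z0 β Λ

def dot (n : E3) (x : Site) : ℝ := ∑ i, n i * (x i : ℝ)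

def hs (n : E3) : Set Site := {x | 0 ≤ dot n x}

structure TauFacts (β : ℝ) (τ : E3 → ℝ) : Prop where
  low : ∀ n : E3, ‖n‖ = 1 → (2 * β - 6) * |n (axis n)| ≤ τ n
  upp : ∀ i : Fin 3, τ (EuclideanSpace.single i 1) ≤ 2 * β ∧
    τ (-EuclideanSpace.single i 1) ≤ 2 * β
  up3 : ∀ n : E3, ‖n‖ = 1 → ∀ δ : ℝ, 0 < δ → ∀ᶠ L : ℕ in atTop,
    Rt β (cyl (axis n) L (3 * L)) (hs n) ≤
      Real.exp (-((τ n - δ) * (2 * (L : ℝ) + 1) ^ 2 / |n (axis n)|))
  lowM : ∀ n : E3, ‖n‖ = 1 → ∀ δ : ℝ, 0 < δ → ∀ᶠ L : ℕ in atTop, ∀ᶠ M : ℕ in atTop,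
    Real.exp (-((τ n + δ) * (2 * (L : ℝ) + 1) ^ 2 / |n (axis n)|)) ≤
      Rt β (cyl (axis n) L M) (hs n)

/-! ### Continuum objects -/

def emb (x : Site) : E3 := WithLp.toLp 2 fun i => (x i : ℝ)

/-- The lattice point nearest to `N • c`. -/
def rnd (N : ℕ) (c : E3) : Site := fun i => round ((N : ℝ) * c i)

def boxE (r : ℝ) : Set E3 := {x | ∀ i, |x i| ≤ r}

def cubeO (z : E3) (r : ℝ) : Set E3 := {x | ∀ i, |x i - z i| < r}

def eA (N : ℕ) (A : Finset Site) : Set E3 := (N : ℝ)⁻¹ • cubes A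

/-- Divergence. -/
def dv (φ : E3 → E3) (x : E3) : ℝ := ∑ i, fderiv ℝ φ x (EuclideanSpace.single i 1) i

structure Fld (φ : E3 → E3) : Prop where
  cd : ContDiff ℝ 1 φ
  cs : HasCompactSupport φ

/-- Sets in a fixed box with a translation estimate (bounded perimeter). -/
structure InK (P : ℝ) (E : Set E3) : Prop where
  meas : MeasurableSet E
  sub : E ⊆ boxE 2
  trans : ∀ (i : Fin 3) (h : ℝ),
    volume (E ∆ (EuclideanSpace.single i h +ᵥ E)) ≤ ENNReal.ofReal (P * |h|)

def cylR (c : E3) (k : Fin 3) (l : ℝ) : Set E3 :=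
  {x | ∀ i, |x i - c i| < if i = k then 3 * l else l}

def hsR (c n : E3) : Set E3 := {x | inner ℝ (x - c) n ≤ 0}

/-- Moving in the cone around `n` inside `Q` one rarely enters `E`. -/
def Mono (E Q : Set E3) (n : E3) (θ d : ℝ) : Prop :=
  ∀ v : E3, θ * ‖v‖ ≤ inner ℝ v n →
    volume.real {x | x ∈ Q ∧ x + v ∈ Q ∧ x ∉ E ∧ x + v ∈ E} ≤ ‖v‖ * d

structure Body (W : Set E3) (r0 ω : ℝ) : Prop where
  cpt : IsCompact W
  cvx : Convex ℝ W
  r0_pos : 0 < r0
  ball : Metric.closedBall 0 r0 ⊆ W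
  ω_lt : ω < 1
  sub : W ⊆ boxE ω

def Shell (W : Set E3) (ρ : ℝ) (y z : E3) : Prop := z - y ∈ (1 + ρ) • W ∧ z - y ∉ (1 - ρ) • W

def poly {J : ℕ} (n : Fin J → E3) (t : Fin J → ℝ) : Set E3 := {x | ∀ j, inner ℝ x (n j) ≤ t j}

def latP {J : ℕ} (N : ℕ) (n : Fin J → E3) (t : Fin J → ℝ) (r : ℝ) : Finset Site :=
  (cube N).filter fun x => ∀ j, dot (n j) x ≤ r * t j

structure Poly {J : ℕ} (n : Fin J → E3) (t : Fin J → ℝ) (v ω : ℝ) : Prop where
  unit : ∀ j, ‖n j‖ = 1
  inj : Function.Injective n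
  pos : ∀ j, 0 < t j
  v_pos : 0 < v
  vol : volume (poly n t) = ENNReal.ofReal v
  ω_lt : ω < 1
  sub : poly n t ⊆ boxE ω

/-- Area of the slices. -/
def mar (S : Set (ℝ × ℝ × ℝ)) (x : ℝ) : ℝ := volume.real (Prod.mk x ⁻¹' S)

def Lam (a g T : ℝ → ℝ) (M : ℝ) : ℝ :=
  ∫ x, (2 * Real.sqrt (a x * g (T x)) + a x * min (deriv T x) M)

structure Prof (g : ℝ → ℝ) (α α' : ℝ) : Prop where
  lt : α < α'
  meas : Measurable g
  cont : ContinuousOn g (Set.Ioo α α')
  pos : ∀ y ∈ Set.Ioo α α', 0 < g y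
  zero : ∀ y, y ∉ Set.Icc α α' → g y = 0
  bdd : ∃ G, ∀ y, 0 ≤ g y ∧ g y ≤ G

/-! ### Surgery -/

structure Slab (N : ℕ) (p : ℤ → ℤ) (Sg : Finset ℤ) : Prop where
  mono : Monotone p
  step : ∀ t, t ∉ Sg → p (t + 1) = p t + 1
  box : ∀ t : ℤ, |t| ≤ (N : ℤ) ↔ |p t| ≤ (N : ℤ)

def pj (p : ℤ → ℤ) (x : Site) : Site := Function.update x 0 (p (x 0))

def pjB (p : ℤ → ℤ) (b : Bond) : Bond := (pj p b.1, b.2)

def pull (N : ℕ) (p : ℤ → ℤ) (A : Finset Site) : Finset Site :=
  (cube N).filter fun x => pj p x ∈ A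

def Kset (p : ℤ → ℤ) (Sg : Finset ℤ) (B : Finset Site) : Finset Bond :=
  ((cut B).filter fun b => b.1 0 ∉ Sg).image (pjB p)

def Pset (p : ℤ → ℤ) (Sg : Finset ℤ) (B : Finset Site) (c : Finset Bond) : Finset Bond :=
  nbhd c ∪ nbhd (((cut B).filter fun b => b.1 0 ∉ Sg ∧ ∃ σ ∈ Sg, |b.1 0 - σ| ≤ 2).image (pjB p))

def Psi (Sg : Finset ℤ) (B : Finset Site) : ℝ :=
  ∑ σ ∈ Sg, ∑ b ∈ cut B, ph ^ (b.1 0 - σ).natAbs

/-- Repeat one layer `k` times from `j0` on and skip `k` layers at `j1`. -/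
def pm (j0 j1 : ℤ) (k : ℕ) (t : ℤ) : ℤ :=
  t - max 0 (min (k : ℤ) (t - j0)) + if j1 ≤ t then (k : ℤ) else 0

def seam (j0 j1 : ℤ) (k : ℕ) : Finset ℤ := insert (j1 - 1) (Finset.Ico j0 (j0 + k))

def Params (N : ℕ) : Finset ((ℤ → ℤ) × Finset ℤ) :=
  insert (id, ∅) ((Finset.Icc (-(N : ℤ)) N ×ˢ Finset.Icc (-(N : ℤ)) (N + 1) ×ˢ
    Finset.range (2 * N + 1)).image fun q => (pm q.1 q.2.1 q.2.2, seam q.1 q.2.1 q.2.2))

/-- A boundary bond of `A` sits in a cube almost empty or almost full. -/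
def Hair (N R : ℕ) (η : ℝ) (A : Finset Site) : Prop :=
  ∃ b ∈ cut A, ((A ∩ ball b.1 R).card : ℝ) ≤ η ∨
    (ball b.1 R ⊆ cube N ∧ ((ball b.1 R \ A).card : ℝ) ≤ η)

/-- `A` almost fills a cube and almost misses a slab. -/
def RichPoor (N l : ℕ) (η : ℝ) (A : Finset Site) : Prop :=
  ∃ (z : Site) (j : ℤ), ball z l ⊆ cube N ∧ ((ball z l \ A).card : ℝ) ≤ η ∧
    -(N : ℤ) ≤ j ∧ j + l ≤ N ∧ ((A.filter fun x => j ≤ x 0 ∧ x 0 ≤ j + l).card : ℝ) ≤ η ∧
    (j + l < z 0 - l ∨ z 0 + l < j)

/-- `A` is obtained from a much heavier `B` by a cheap code. -/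
def Code (β : ℝ) (N : ℕ) (m : ℤ) (G : ℝ) (n0 : ℕ) (A : Finset Site) : Prop :=
  ∃ q ∈ Params N, ∃ (I B : Finset Site) (U : Finset Bond),
    IsConn (cut I) ∧ cut I ⊆ bonds (cube N) ∧ n0 ≤ (cut I).card ∧ B ∈ BigSets N ∧
    cut (A ∆ I) = Kset q.1 q.2 B ∪ U ∧ U ⊆ bonds (cube N) ∧
    Anim (Pset q.1 q.2 B (cut I)) (sN N) U ∧
    (Pset q.1 q.2 B (cut I)).card ≤ 82 * (cut I).card ∧
    FM β N m A ≤ G * Real.exp (-(β * (cut I).card) - 7 * U.card) * FM β N m B

/-- The standing data. -/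
structure Ctx (β ms v lam : ℝ) (τ : E3 → ℝ) (r0 ω : ℝ) (m : ℕ → ℤ) : Prop where
  hβ : 1000 ≤ β
  mag : MagFacts β ms
  tau : TauFacts β τ
  v_pos : 0 < v
  v_le : v ≤ 0.26
  lam_pos : 0 < lam
  vol : volume (wulff τ lam) = ENNReal.ofReal v
  body : Body (wulff τ lam) r0 ω
  par : ∀ N, Even (m N - (cube N).card)
  near : ∀ N : ℕ, |(m N : ℝ) - ms * (2 * v * (N : ℝ) ^ 3 - (2 * (N : ℝ) + 1) ^ 3)| ≤ 1

end Pool.Agent.Work.MP_b59478_pr
end
end

-- merged part: Pool.Agent.Work.MP_b59478_pr.Topo1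
section
/-! Elementary facts on boxes, bonds, cuts, adjacency and components.
hullPath: induct on the l1 distance of x and y (move one coordinate of x one step towards y).
ray_up, ray_down: the finite set I cannot contain the whole ray; take the first exit.
cut_inj: cut (S symmdiff T) is empty, then ray_up. sub_box: a point of I outside the box has an
outward ray none of whose bonds touches the box.
-/

set_option autoImplicit false

noncomputable section

namespace Pool.Agent.Work.MP_b59478_pr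

open Classical Filter Topology MeasureTheory
open scoped symmDiff Pointwise

theorem mem_cube {N : ℕ} {x : Site} : x ∈ cube N ↔ ∀ i, |x i| ≤ (N : ℤ) := by
  simp [cube, Fintype.mem_piFinset, abs_le]

theorem card_cube (N : ℕ) : (cube N).card = (2 * N + 1) ^ 3 := by
  simp only [cube, Fintype.card_piFinset, Int.card_Icc, Finset.prod_const, Finset.card_univ,
    Fintype.card_fin]
  congr 1
  omega

theorem mem_ball {x y : Site} {r : ℕ} : y ∈ ball x r ↔ Near r y x := by
  simp only [ball, Fintype.mem_piFinset, Finset.mem_Icc, Near, abs_le]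
  exact forall_congr' fun i => by omega

theorem card_ball (x : Site) (r : ℕ) : (ball x r).card = (2 * r + 1) ^ 3 := by
  have : ∀ i, (Finset.Icc (x i - r) (x i + r)).card = 2 * r + 1 := fun i => by
    rw [Int.card_Icc]
    omega
  simp [ball, Fintype.card_piFinset, this]

theorem mem_tile {c x : Site} {k : Fin 3} {L M : ℕ} :
    x ∈ tile c k L M ↔ ∀ i, |x i - c i| ≤ if i = k then (M : ℤ) else (L : ℤ) := by
  simp only [tile, Fintype.mem_piFinset]
  refine forall_congr' fun i => ?_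
  split_ifs <;> simp only [Finset.mem_Icc, abs_le] <;> omega

theorem card_tile (c : Site) (k : Fin 3) (L M : ℕ) :
    (tile c k L M).card = (2 * L + 1) ^ 2 * (2 * M + 1) := by
  have e : ∀ (i : Fin 3) (r : ℕ), (Finset.Icc (c i - r) (c i + r)).card = 2 * r + 1 :=
    fun i r => by
      rw [Int.card_Icc]
      omega
  simp only [tile, Fintype.card_piFinset, apply_ite Finset.card, e, Fin.prod_univ_three]
  fin_cases k <;> simp <;> ring

theorem cyl_eq_tile (k : Fin 3) (L M : ℕ) : cyl k L M = tile 0 k L M := by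
  simp [cyl, tile]

theorem cube_eq_ball (N : ℕ) : cube N = ball 0 N := by
  simp [cube, ball]

theorem isBox_cube (N : ℕ) : IsBox (cube N) :=
  ⟨fun _ => -(N : ℤ), fun _ => N, fun x => by simp [mem_cube, abs_le]⟩

theorem isBox_ball (x : Site) (r : ℕ) : IsBox (ball x r) :=
  ⟨fun i => x i - r, fun i => x i + r, fun y => by simp [ball, Fintype.mem_piFinset]⟩

theorem isBox_tile (c : Site) (k : Fin 3) (L M : ℕ) : IsBox (tile c k L M) := by
  refine ⟨fun i => c i - if i = k then M else L, fun i => c i + if i = k then M else L,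
    fun y => ?_⟩
  rw [mem_tile]
  refine forall_congr' fun i => ?_
  rw [abs_le]
  by_cases e : i = k <;> simp only [e, if_true, if_false] <;> omega

theorem Near.refl (r : ℕ) (x : Site) : Near r x x := fun i => by simp

theorem Near.symm {r : ℕ} {x y : Site} (h : Near r x y) : Near r y x := fun i => by
  rw [abs_sub_comm]
  exact h i

theorem Near.mono {r r' : ℕ} {x y : Site} (h : Near r x y) (hr : r ≤ r') : Near r' x y := fun i => (h i).trans (by exact_mod_cast hr)

theorem Near.trans {r r' : ℕ} {x y z : Site} (h : Near r x y) (h' : Near r' y z) :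
    Near (r + r') x z := fun i => by
  have a := abs_le.mp (h i)
  have b := abs_le.mp (h' i)
  push_cast
  exact abs_le.mpr ⟨by omega, by omega⟩

theorem near_tip (b : Bond) : Near 1 b.1 (tip b) := fun i => by
  simp only [tip, Pi.add_apply, Pi.single_apply]
  split_ifs <;> simp

theorem tip_apply (b : Bond) (i : Fin 3) : tip b i = b.1 i + if i = b.2 then 1 else 0 := by
  simp [tip, Pi.single_apply]

theorem tip_shiftB (u : Site) (b : Bond) : tip (shiftB u b) = tip b + u := by
  simp only [tip, shiftB]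
  abel

theorem NN_iff {x y : Site} :
    NN x y ↔ ∃ i : Fin 3, y = tip (x, i) ∨ x = tip (y, i) := by
  unfold NN
  rw [Fin.sum_univ_three]
  constructor
  · intro h
    have key : ∀ i : Fin 3, |x i - y i| = 1 → (∀ j, j ≠ i → x j = y j) →
        y = tip (x, i) ∨ x = tip (y, i) := by
      intro i h1 h2
      rcases abs_cases (x i - y i) with k | k
      · refine Or.inr (funext fun j => ?_)
        rw [tip_apply]
        by_cases e : j = i
        · subst e
          simp only [if_true]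
          omega
        · simp [e, h2 j e]
      · refine Or.inl (funext fun j => ?_)
        rw [tip_apply]
        by_cases e : j = i
        · subst e
          simp only [if_true]
          omega
        · simp [e, h2 j e]
    have a0 := abs_nonneg (x 0 - y 0)
    have a1 := abs_nonneg (x 1 - y 1)
    have a2 := abs_nonneg (x 2 - y 2)
    have z : ∀ i, |x i - y i| = 0 → x i = y i := fun i e => sub_eq_zero.mp (abs_eq_zero.mp e)
    by_cases h0 : |x 0 - y 0| = 1
    · refine ⟨0, key 0 h0 fun j hj => z j ?_⟩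
      fin_cases j
      · exact absurd rfl hj
      · show |x 1 - y 1| = 0
        omega
      · show |x 2 - y 2| = 0
        omega
    by_cases h1 : |x 1 - y 1| = 1
    · refine ⟨1, key 1 h1 fun j hj => z j ?_⟩
      fin_cases j
      · show |x 0 - y 0| = 0
        omega
      · exact absurd rfl hj
      · show |x 2 - y 2| = 0
        omega
    · refine ⟨2, key 2 (by omega) fun j hj => z j ?_⟩
      fin_cases j
      · show |x 0 - y 0| = 0
        omega
      · show |x 1 - y 1| = 0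
        omega
      · exact absurd rfl hj
  · rintro ⟨i, rfl | rfl⟩ <;> fin_cases i <;> simp [tip_apply]

theorem NN.symm {x y : Site} (h : NN x y) : NN y x := by
  obtain ⟨i, k⟩ := NN_iff.mp h
  exact NN_iff.mpr ⟨i, k.symm⟩

theorem NN.near {x y : Site} (h : NN x y) : Near 1 x y := by
  obtain ⟨i, rfl | rfl⟩ := NN_iff.mp h
  · exact near_tip (x, i)
  · exact (near_tip (y, i)).symm

theorem mem_bonds {Λ : Finset Site} {b : Bond} : b ∈ bonds Λ ↔ b.1 ∈ Λ ∨ tip b ∈ Λ := by
  simp only [bonds, Finset.mem_union, Finset.mem_product, Finset.mem_univ, and_true,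
    Finset.mem_image]
  refine or_congr Iff.rfl ⟨?_, fun h => ⟨(tip b, b.2), h, ?_⟩⟩
  · rintro ⟨p, hp, rfl⟩
    simpa [tip] using hp
  · simp [tip]

theorem bonds_mono {Λ Λ' : Finset Site} (h : Λ ⊆ Λ') : bonds Λ ⊆ bonds Λ' := fun _ hb =>
  mem_bonds.mpr ((mem_bonds.mp hb).imp (fun k => h k) fun k => h k)

theorem card_bonds_le (Λ : Finset Site) : (bonds Λ).card ≤ 6 * Λ.card := by
  refine (Finset.card_union_le _ _).trans ?_
  have := Finset.card_image_le (s := Λ ×ˢ (Finset.univ : Finset (Fin 3)))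
    (f := fun p : Bond => (p.1 - Pi.single p.2 1, p.2))
  simp only [Finset.card_product, Finset.card_univ, Fintype.card_fin] at this ⊢
  omega

theorem mem_cut {S : Finset Site} {b : Bond} : b ∈ cut S ↔ ¬ (b.1 ∈ S ↔ tip b ∈ S) := by
  simp only [cut, Finset.mem_filter, mem_bonds, Cuts, Finset.mem_coe]
  tauto

theorem cut_empty : cut ∅ = ∅ := by
  ext b
  simp [mem_cut]

theorem cut_symmDiff (S T : Finset Site) : cut (S ∆ T) = cut S ∆ cut T := by
  ext b
  simp only [mem_cut, Finset.mem_symmDiff]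
  by_cases h1 : b.1 ∈ S <;> by_cases h2 : tip b ∈ S <;> by_cases h3 : b.1 ∈ T <;>
    by_cases h4 : tip b ∈ T <;> simp only [h1, h2, h3, h4] <;> decide

theorem cut_subset_bonds {S V : Finset Site} (h : S ⊆ V) : cut S ⊆ bonds V := by
  intro b hb
  rw [mem_cut] at hb
  rw [mem_bonds]
  by_cases k : b.1 ∈ S
  · exact Or.inl (h k)
  · exact Or.inr (h (by tauto))

theorem Topo1_exit {I : Finset Site} (f : ℕ → Site) (hf : Function.Injective f) (h0 : f 0 ∈ I) :
    ∃ t, f t ∈ I ∧ f (t + 1) ∉ I := by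
  by_contra hc
  push Not at hc
  have all : ∀ t, f t ∈ I := fun t => Nat.rec h0 hc t
  exact Set.infinite_of_injective_forall_mem hf (s := (I : Set Site)) all I.finite_toSet

theorem ray_up {I : Finset Site} {y : Site} (hy : y ∈ I) (i : Fin 3) :
    ∃ t : ℕ, (y + Pi.single i (t : ℤ), i) ∈ cut I := by
  obtain ⟨t, h1, h2⟩ := Topo1_exit (I := I) (fun t : ℕ => y + Pi.single i (t : ℤ))
    (fun a b e => by simpa using congrFun e i) (by simpa using hy)
  refine ⟨t, mem_cut.mpr fun k => h2 ?_⟩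
  have := k.mp h1
  simpa [tip, Pi.single_add, add_assoc] using this

theorem ray_down {I : Finset Site} {y : Site} (hy : y ∈ I) (i : Fin 3) :
    ∃ t : ℕ, (y - Pi.single i ((t : ℤ) + 1), i) ∈ cut I := by
  obtain ⟨t, h1, h2⟩ := Topo1_exit (I := I) (fun t : ℕ => y - Pi.single i (t : ℤ))
    (fun a b e => by simpa using congrFun e i) (by simpa using hy)
  refine ⟨t, mem_cut.mpr fun k => h2 ?_⟩
  have e : tip (y - Pi.single i ((t : ℤ) + 1), i) = y - Pi.single i (t : ℤ) := by
    simp only [tip, Pi.single_add]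
    abel
  have := k.mpr (by rwa [e])
  simpa using this

theorem cut_inj {S T : Finset Site} (h : cut S = cut T) : S = T := by
  by_contra hc
  obtain ⟨y, hy⟩ := Finset.nonempty_iff_ne_empty.mpr
    (fun e : S ∆ T = ∅ => hc (symmDiff_eq_bot.mp e))
  obtain ⟨t, ht⟩ := ray_up hy 0
  rw [cut_symmDiff, h, symmDiff_self] at ht
  simp at ht

theorem sub_box {V I : Finset Site} (hV : IsBox V) (h : cut I ⊆ bonds V) : I ⊆ V := by
  obtain ⟨lo, hi, e⟩ := hV
  intro y hy
  rw [e]
  intro i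
  constructor
  · obtain ⟨t, ht⟩ := ray_down hy i
    rcases mem_bonds.mp (h ht) with k | k
    · have := (e _).mp k i
      simp only [Pi.sub_apply, Pi.single_eq_same] at this
      omega
    · have := (e _).mp k i
      simp only [tip_apply, Pi.sub_apply, Pi.single_eq_same, if_true] at this
      omega
  · obtain ⟨t, ht⟩ := ray_up hy i
    rcases mem_bonds.mp (h ht) with k | k
    · have := (e _).mp k i
      simp only [Pi.add_apply, Pi.single_eq_same] at this
      omega
    · have := (e _).mp k i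
      simp only [tip_apply, Pi.add_apply, Pi.single_eq_same, if_true] at this
      omega

theorem hullPath {H : Set Site} {x y : Site} (hx : x ∈ H) (hy : y ∉ H) :
    ∃ b : Bond, Cuts H b ∧ ∀ i, min (x i) (y i) ≤ b.1 i ∧ tip b i ≤ max (x i) (y i) := by
  induction hn : ∑ i, (x i - y i).natAbs using Nat.strong_induction_on generalizing x with
  | _ n ih =>
    have hne : x ≠ y := fun e => hy (e ▸ hx)
    obtain ⟨i, hi⟩ := Function.ne_iff.mp hne
    rcases lt_or_gt_of_ne hi with k | k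
    · by_cases h1 : tip (x, i) ∈ H
      · obtain ⟨b, hb, kb⟩ := ih _ (by
          rw [← hn]
          refine Finset.sum_lt_sum (fun j _ => ?_) ⟨i, Finset.mem_univ i, ?_⟩
          · simp only [tip_apply]
            split_ifs with e
            · subst e
              omega
            · omega
          · simp only [tip_apply, if_true]
            omega) h1 rfl
        refine ⟨b, hb, fun j => ?_⟩
        have := kb j
        simp only [tip_apply (x, i)] at this
        split_ifs at this with e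
        · subst e
          omega
        · omega
      · refine ⟨(x, i), fun e => h1 (e.mp hx), fun j => ?_⟩
        simp only [tip_apply]
        split_ifs with e
        · subst e
          omega
        · omega
    · have e0 : tip (x - Pi.single i 1, i) = x := by simp [tip]
      have e1 : ∀ j, (x - Pi.single i 1 : Site) j = x j - if j = i then 1 else 0 := fun j => by
        simp [Pi.single_apply]
      by_cases h1 : x - Pi.single i 1 ∈ H
      · obtain ⟨b, hb, kb⟩ := ih _ (by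
          rw [← hn]
          refine Finset.sum_lt_sum (fun j _ => ?_) ⟨i, Finset.mem_univ i, ?_⟩
          · simp only [e1]
            split_ifs with e
            · subst e
              omega
            · omega
          · simp only [e1, if_true]
            omega) h1 rfl
        refine ⟨b, hb, fun j => ?_⟩
        have := kb j
        simp only [e1] at this
        split_ifs at this with e
        · subst e
          omega
        · omega
      · refine ⟨(x - Pi.single i 1, i), fun e => h1 (e.mpr (by rwa [e0])), fun j => ?_⟩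
        simp only [e0, e1]
        split_ifs with e
        · subst e
          omega
        · omega

theorem Adj.refl (b : Bond) : Adj b b :=
  ⟨Near.refl _ _, near_tip b, (near_tip b).symm, Near.refl _ _⟩

theorem Adj.symm {b b' : Bond} (h : Adj b b') : Adj b' b :=
  ⟨h.1.symm, h.2.2.1.symm, h.2.1.symm, h.2.2.2.symm⟩

theorem adj_shiftB (u : Site) (b b' : Bond) : Adj (shiftB u b) (shiftB u b') ↔ Adj b b' := by
  simp only [Adj, tip_shiftB]
  simp [Near, shiftB]

/-- Two bonds with all endpoints in a common unit cube are adjacent. -/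
theorem adj_of_cube {z : Site} {b b' : Bond} (h : ∀ i, z i ≤ b.1 i ∧ tip b i ≤ z i + 1)
    (h' : ∀ i, z i ≤ b'.1 i ∧ tip b' i ≤ z i + 1) : Adj b b' := by
  refine ⟨fun i => ?_, fun i => ?_, fun i => ?_, fun i => ?_⟩ <;>
  · have a := h i
    have c := h' i
    have d := tip_apply b i
    have e := tip_apply b' i
    rw [abs_le]
    split_ifs at d e <;> (clear * - a c d e; omega)

/-- Adjacent bonds lie in a common unit cube. -/
theorem Adj.cube {b b' : Bond} (h : Adj b b') : ∃ z : Site,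
    (∀ i, z i ≤ b.1 i ∧ tip b i ≤ z i + 1) ∧ ∀ i, z i ≤ b'.1 i ∧ tip b' i ≤ z i + 1 := by
  refine ⟨fun i => min (b.1 i) (b'.1 i), fun i => ?_, fun i => ?_⟩ <;>
  · have a1 := abs_le.mp (h.1 i)
    have a2 := abs_le.mp (h.2.1 i)
    have a3 := abs_le.mp (h.2.2.1 i)
    have d := tip_apply b i
    have e := tip_apply b' i
    beta_reduce
    split_ifs at d e <;> (clear * - a1 a2 a3 d e; omega)

theorem mem_adjF {b b' : Bond} : b' ∈ adjF b ↔ Adj b b' := by
  simp only [adjF, Finset.mem_filter, Finset.mem_product, Finset.mem_univ, and_true, mem_ball]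
  exact ⟨fun k => k.2, fun k => ⟨k.1.symm, k⟩⟩

theorem card_adjF (b : Bond) : (adjF b).card ≤ 81 := by
  refine (Finset.card_filter_le _ _).trans ?_
  simp [card_ball]

theorem mem_nbhd {T : Finset Bond} {b' : Bond} : b' ∈ nbhd T ↔ ∃ b ∈ T, Adj b b' := by
  simp [nbhd, mem_adjF]

theorem card_nbhd (T : Finset Bond) : (nbhd T).card ≤ 81 * T.card := by
  rw [mul_comm]
  exact Finset.card_biUnion_le_card_mul _ _ _ fun b _ => card_adjF b

theorem subset_nbhd (T : Finset Bond) : T ⊆ nbhd T := fun b hb => mem_nbhd.mpr ⟨b, hb, Adj.refl b⟩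

theorem nbhd_mono {T T' : Finset Bond} (h : T ⊆ T') : nbhd T ⊆ nbhd T' := fun _ hb => by
  obtain ⟨c, hc, k⟩ := mem_nbhd.mp hb
  exact mem_nbhd.mpr ⟨c, h hc, k⟩

theorem nbhd_union (T T' : Finset Bond) : nbhd (T ∪ T') = nbhd T ∪ nbhd T' := by
  ext b
  simp only [mem_nbhd, Finset.mem_union, or_and_right, exists_or]

theorem Conn.symm {T : Finset Bond} {b b' : Bond} (h : Conn T b b') : Conn T b' b := by
  induction h with
  | refl => exact .refl
  | tail _ k ih => exact Relation.ReflTransGen.head ⟨k.2.1, k.1, k.2.2.symm⟩ ih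

theorem Conn.mono {T T' : Finset Bond} (hT : T ⊆ T') {b b' : Bond} (h : Conn T b b') :
    Conn T' b b' := by
  induction h with
  | refl => exact .refl
  | tail _ k ih => exact Relation.ReflTransGen.tail ih ⟨hT k.1, hT k.2.1, k.2.2⟩

theorem Conn.mem {T : Finset Bond} {b b' : Bond} (h : Conn T b b') (hb : b ∈ T) : b' ∈ T := by
  induction h with
  | refl => exact hb
  | tail _ k _ => exact k.2.1

theorem Clopen.conn {T T' : Finset Bond} (h : Clopen T' T) {b b' : Bond} (hb : b ∈ T')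
    (hc : Conn T b b') : Conn T' b b' := by
  induction hc with
  | refl => exact .refl
  | tail _ k ih =>
    have m := Conn.mem ih hb
    exact Relation.ReflTransGen.tail ih ⟨m, h.2 _ m _ k.2.1 k.2.2, k.2.2⟩

theorem Clopen.refl (T : Finset Bond) : Clopen T T :=
  ⟨subset_rfl, fun _ _ _ h _ => h⟩

theorem Clopen.sdiff {T T' : Finset Bond} (h : Clopen T' T) : Clopen (T \ T') T := by
  refine ⟨Finset.sdiff_subset, fun b hb b' hb' k => Finset.mem_sdiff.mpr ⟨hb', fun m => ?_⟩⟩
  rw [Finset.mem_sdiff] at hb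
  exact hb.2 (h.2 b' m b hb.1 k.symm)

theorem Clopen.trans {T T' T'' : Finset Bond} (h : Clopen T'' T') (h' : Clopen T' T) :
    Clopen T'' T :=
  ⟨h.1.trans h'.1, fun b hb b' hb' k => h.2 b hb b' (h'.2 b (h.1 hb) b' hb' k) k⟩

theorem mem_comp {T : Finset Bond} {b b' : Bond} : b' ∈ comp T b ↔ b' ∈ T ∧ Conn T b b' := by
  simp [comp]

theorem comp_clopen (T : Finset Bond) (b : Bond) : Clopen (comp T b) T := by
  refine ⟨Finset.filter_subset _ _, fun c hc c' hc' k => ?_⟩
  rw [mem_comp] at hc ⊢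
  exact ⟨hc', Relation.ReflTransGen.tail hc.2 ⟨hc.1, hc', k⟩⟩

theorem comp_isConn {T : Finset Bond} {b : Bond} (hb : b ∈ T) : IsConn (comp T b) := fun _ hc _ hc' =>
  (comp_clopen T b).conn hc
    (Relation.ReflTransGen.trans (mem_comp.mp hc).2.symm (mem_comp.mp hc').2)

theorem SConn.symm {K : Finset Site} {x y : Site} (h : SConn K x y) : SConn K y x := by
  induction h with
  | refl => exact .refl
  | tail _ k ih => exact Relation.ReflTransGen.head ⟨k.2.1, k.1, k.2.2.symm⟩ ih

theorem SConn.mono {K K' : Finset Site} (hK : K ⊆ K') {x y : Site} (h : SConn K x y) :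
    SConn K' x y := by
  induction h with
  | refl => exact .refl
  | tail _ k ih => exact Relation.ReflTransGen.tail ih ⟨hK k.1, hK k.2.1, k.2.2⟩

theorem SConn.mem {K : Finset Site} {x y : Site} (h : SConn K x y) (hx : x ∈ K) : y ∈ K := by
  induction h with
  | refl => exact hx
  | tail _ k _ => exact k.2.1

theorem Typ.mono {r : ℕ} {S T : Finset Site} (h : Typ r T) (hS : S ⊆ T) : Typ r S := fun x hx y k =>
  h x (hS hx) y (k.mono hS)

theorem w_pos (β : ℝ) (S : Finset Site) : 0 < w β S :=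
  Real.exp_pos _

theorem Z0_pos (β : ℝ) (Λ : Finset Site) : 0 < Z0 β Λ :=
  Finset.sum_pos (fun S _ => w_pos β S) ⟨∅, Finset.empty_mem_powerset Λ⟩

end Pool.Agent.Work.MP_b59478_pr
end
end

-- merged part: Pool.Agent.Work.MP_b59478_pr.LL3A
section
/-! Counting tools for the tiling of the faces of a lattice polytope. -/

set_option autoImplicit false

noncomputable section

namespace Pool.Agent.Work.MP_b59478_pr

open Classical Filter Topology MeasureTheory
open scoped symmDiff Pointwise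

theorem LL3_univ : ∀ i m k : Fin 3, i ≠ m → i ≠ k → m ≠ k →
    (Finset.univ : Finset (Fin 3)) = {i, m, k} := by decide

theorem LL3_third : ∀ i k : Fin 3, i ≠ k → ∃ m, i ≠ m ∧ m ≠ k := by decide

theorem LL3_two : ∀ k : Fin 3, ∃ i m, i ≠ m ∧ i ≠ k ∧ m ≠ k := by decide

theorem LL3_cases : ∀ i m k l : Fin 3, i ≠ m → i ≠ k → m ≠ k → l = i ∨ l = m ∨ l = k := by decide

theorem LL3_dot (n : E3) (x : Site) {i m k : Fin 3} (h1 : i ≠ m) (h2 : i ≠ k) (h3 : m ≠ k) :
    dot n x = n i * x i + n m * x m + n k * x k := by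
  unfold dot
  rw [LL3_univ i m k h1 h2 h3, Finset.sum_insert (by simp [h1, h2]),
    Finset.sum_insert (by simp [h3]), Finset.sum_singleton, add_assoc]

theorem LL3_le_one {n : E3} (hn : ‖n‖ = 1) (i : Fin 3) : |n i| ≤ 1 := by
  have := PiLp.norm_apply_le n i
  rwa [hn, Real.norm_eq_abs] at this

theorem LL3_axis (n : E3) (i : Fin 3) : |n i| ≤ |n (axis n)| := by
  have key : |n 0| ≤ |n (axis n)| ∧ |n 1| ≤ |n (axis n)| ∧ |n 2| ≤ |n (axis n)| := by
    by_cases h1 : |n 1| ≤ |n 0| ∧ |n 2| ≤ |n 0|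
    · have : axis n = 0 := by unfold axis; rw [if_pos h1]
      rw [this]; exact ⟨le_rfl, h1.1, h1.2⟩
    · by_cases h2 : |n 2| ≤ |n 1|
      · have : axis n = 1 := by unfold axis; rw [if_neg h1, if_pos h2]
        rw [this]
        refine ⟨?_, le_rfl, h2⟩
        by_contra h
        exact h1 ⟨by linarith, by linarith⟩
      · have : axis n = 2 := by unfold axis; rw [if_neg h1, if_neg h2]
        rw [this]
        refine ⟨?_, (not_le.mp h2).le, le_rfl⟩
        by_contra h
        exact h1 ⟨by linarith, by linarith⟩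
  fin_cases i
  · exact key.1
  · exact key.2.1
  · exact key.2.2

theorem LL3_half {n : E3} (hn : ‖n‖ = 1) : 1 / 2 ≤ |n (axis n)| := by
  have h : ∑ i, n i ^ 2 = 1 := by
    have := EuclideanSpace.real_norm_sq_eq n
    rw [hn] at this
    linarith
  rw [Fin.sum_univ_three] at h
  by_contra hc
  have a : ∀ i, n i ^ 2 ≤ 1 / 4 := by
    intro i
    have h1 := LL3_axis n i
    have h2 := abs_nonneg (n i)
    rw [← sq_abs]
    nlinarith only [hc, h1, h2]
  linarith only [h, a 0, a 1, a 2]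

theorem LL3_near {n : E3} (hn : ‖n‖ = 1) {r : ℕ} {x y : Site} (h : Near r x y) :
    |dot n x - dot n y| ≤ 3 * r := by
  have e : dot n x - dot n y = ∑ i, n i * ((x i : ℝ) - y i) := by
    unfold dot; rw [← Finset.sum_sub_distrib]; exact Finset.sum_congr rfl fun i _ => by ring
  rw [e]
  refine (Finset.abs_sum_le_sum_abs _ _).trans ?_
  have : ∀ i ∈ (Finset.univ : Finset (Fin 3)), |n i * ((x i : ℝ) - y i)| ≤ r := by
    intro i _
    rw [abs_mul]
    have h1 : |(x i : ℝ) - y i| ≤ r := by exact_mod_cast h i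
    have := LL3_le_one hn i
    nlinarith only [this, h1, abs_nonneg (n i), abs_nonneg ((x i : ℝ) - y i)]
  have := Finset.sum_le_card_nsmul _ _ _ this
  simpa using this

theorem LL3_tip {n : E3} (hn : ‖n‖ = 1) (b : Bond) : |dot n (tip b) - dot n b.1| ≤ 1 := by
  have e : dot n (tip b) - dot n b.1 = n b.2 := by
    unfold dot
    rw [← Finset.sum_sub_distrib, Finset.sum_eq_single b.2]
    · rw [tip_apply]; simp; ring
    · intro i _ hi; rw [tip_apply]; simp [hi]
    · simp
  rw [e]; exact LL3_le_one hn _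

theorem LL3_close {α : Type*} (S : Finset α) (f : α → ℤ) (hf : Set.InjOn f S) {D : ℝ}
    (hD : 0 ≤ D) (h : ∀ x ∈ S, ∀ y ∈ S, |(f x : ℝ) - f y| ≤ D) : (S.card : ℝ) ≤ 2 * D + 1 := by
  rcases S.eq_empty_or_nonempty with rfl | ⟨x₀, hx₀⟩
  · simp; linarith
  · have hsub : Set.MapsTo f S (Finset.Icc (f x₀ - ⌊D⌋) (f x₀ + ⌊D⌋) : Finset ℤ) := by
      intro x hx
      have h1 : |f x - f x₀| ≤ ⌊D⌋ := by
        rw [Int.le_floor]; push_cast; exact h x hx x₀ hx₀
      rw [abs_le] at h1
      simp only [Finset.coe_Icc, Set.mem_Icc]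
      constructor <;> linarith [h1.1, h1.2]
    have h2 := Finset.card_le_card_of_injOn f hsub hf
    rw [Int.card_Icc] at h2
    have h0 : 0 ≤ ⌊D⌋ := Int.floor_nonneg.mpr hD
    have h3 : (S.card : ℤ) ≤ 2 * ⌊D⌋ + 1 := by omega
    have h4 : (S.card : ℝ) ≤ 2 * (⌊D⌋ : ℝ) + 1 := by exact_mod_cast h3
    linarith [Int.floor_le D]

theorem LL3_fib {α β : Type*} [DecidableEq β] (S : Finset α) (f : α → β) {r : ℝ}
    (h : ∀ b, ((S.filter fun x => f x = b).card : ℝ) ≤ r) :
    (S.card : ℝ) ≤ (S.image f).card * r := by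
  rw [Finset.card_eq_sum_card_image f S]
  push_cast
  have := Finset.sum_le_card_nsmul (S.image f) _ r fun b _ => h b
  simpa using this

theorem LL3_count (S : Finset Site) {i m k : Fin 3} (h1 : i ≠ m) (h2 : i ≠ k) (h3 : m ≠ k)
    {A B C : ℝ} (hB0 : 0 ≤ B) (hC0 : 0 ≤ C) (hA : ((S.image fun x => x m).card : ℝ) ≤ A)
    (hB : ∀ x ∈ S, ∀ y ∈ S, x m = y m → |(x i : ℝ) - y i| ≤ B)
    (hC : ∀ x ∈ S, ∀ y ∈ S, x m = y m → x i = y i → |(x k : ℝ) - y k| ≤ C) :
    (S.card : ℝ) ≤ A * ((2 * B + 1) * (2 * C + 1)) := by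
  have key : ∀ b, ((S.filter fun x => x m = b).card : ℝ) ≤ (2 * B + 1) * (2 * C + 1) := by
    intro b
    have k2 : ∀ c, (((S.filter fun x => x m = b).filter fun x => x i = c).card : ℝ) ≤ 2 * C + 1 := by
      intro c
      refine LL3_close _ (fun x => x k) ?_ hC0 ?_
      · intro x hx y hy hxy
        simp only [Finset.coe_filter, Finset.mem_filter, Set.mem_ofPred_eq] at hx hy
        funext l
        rcases LL3_cases i m k l h1 h2 h3 with rfl | rfl | rfl
        · rw [hx.2, hy.2]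
        · rw [hx.1.2, hy.1.2]
        · exact hxy
      · intro x hx y hy
        simp only [Finset.mem_filter] at hx hy
        exact hC x hx.1.1 y hy.1.1 (by rw [hx.1.2, hy.1.2]) (by rw [hx.2, hy.2])
    have k3 := LL3_fib (α := Site) (β := ℤ) (S.filter fun x : Site => x m = b) (fun x : Site => x i) k2
    refine k3.trans ?_
    refine mul_le_mul_of_nonneg_right ?_ (by linarith)
    refine LL3_close _ id (Set.injOn_id _) hB0 ?_
    intro u hu w hw
    obtain ⟨x, hx, rfl⟩ := Finset.mem_image.mp hu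
    obtain ⟨y, hy, rfl⟩ := Finset.mem_image.mp hw
    simp only [Finset.mem_filter] at hx hy
    exact hB x hx.1 y hy.1 (by rw [hx.2, hy.2])
  have k4 := LL3_fib (α := Site) (β := ℤ) S (fun x : Site => x m) key
  exact k4.trans (mul_le_mul_of_nonneg_right hA (by positivity))

theorem LL3_cube_diff {N : ℕ} {x y : Site} (hx : x ∈ cube N) (hy : y ∈ cube N) (i : Fin 3) :
    |(x i : ℝ) - y i| ≤ 2 * N := by
  have h1 : |(x i : ℝ)| ≤ N := by exact_mod_cast mem_cube.mp hx i
  have h2 : |(y i : ℝ)| ≤ N := by exact_mod_cast mem_cube.mp hy i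
  linarith [abs_sub (x i : ℝ) (y i)]

theorem LL3_col {n : E3} (hn : ‖n‖ = 1) {i m : Fin 3} (h1 : i ≠ m) (h2 : i ≠ axis n)
    (h3 : m ≠ axis n) {t : ℝ} {x y : Site} (hx : |dot n x - t| ≤ 1) (hy : |dot n y - t| ≤ 1)
    (hm : x m = y m) (hi : x i = y i) : |(x (axis n) : ℝ) - y (axis n)| ≤ 4 := by
  have e : dot n x - dot n y = n (axis n) * ((x (axis n) : ℝ) - y (axis n)) := by
    rw [LL3_dot n x h1 h2 h3, LL3_dot n y h1 h2 h3, hm, hi]; ring
  have h4 : |dot n x - dot n y| ≤ 2 := by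
    rw [abs_le] at hx hy ⊢; constructor <;> linarith [hx.1, hx.2, hy.1, hy.2]
  rw [e, abs_mul] at h4
  nlinarith only [h4, hn, LL3_half hn, abs_nonneg ((x (axis n) : ℝ) - y (axis n))]

theorem LL3_gap {n : E3} (hn : ‖n‖ = 1) (N : ℕ) (t : ℝ) (m : Fin 3) {q : ℕ} (hq : 0 < q) (r : ℤ) :
    (((cube N).filter fun x => |dot n x - t| ≤ 1 ∧ m ≠ axis n ∧ x m % q = r).card : ℝ) ≤
      (4 * N / q + 1) * ((4 * N + 1) * 9) := by
  by_cases h3 : m ≠ axis n
  swap
  · rw [Finset.filter_false_of_mem (fun x _ h => h3 h.2.1)]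
    simp only [Finset.card_empty, Nat.cast_zero]; positivity
  obtain ⟨i, hi1, hi2⟩ := LL3_third m (axis n) h3
  have hq' : (0 : ℝ) < q := by exact_mod_cast hq
  have := LL3_count ((cube N).filter fun x => |dot n x - t| ≤ 1 ∧ m ≠ axis n ∧ x m % q = r)
    hi1.symm hi2 h3 (A := 4 * N / q + 1) (B := 2 * N) (C := 4) (by positivity) (by norm_num) ?_
    (fun x hx y hy _ => LL3_cube_diff (Finset.mem_filter.mp hx).1 (Finset.mem_filter.mp hy).1 i)
    (fun x hx y hy hm hi => LL3_col hn hi1.symm hi2 h3 (Finset.mem_filter.mp hx).2.1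
      (Finset.mem_filter.mp hy).2.1 hm hi)
  · refine this.trans (le_of_eq ?_); ring
  · refine (LL3_close _ (fun u : ℤ => u / q) ?_ (D := 2 * N / q) (by positivity) ?_).trans
      (le_of_eq (by ring))
    · intro u hu w hw huw
      obtain ⟨x, hx, rfl⟩ := Finset.mem_image.mp hu
      obtain ⟨y, hy, rfl⟩ := Finset.mem_image.mp hw
      have a1 := (Finset.mem_filter.mp hx).2.2.2
      have a2 := (Finset.mem_filter.mp hy).2.2.2
      have b1 := Int.emod_add_mul_ediv (x m) q
      have b2 := Int.emod_add_mul_ediv (y m) q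
      simp only at huw
      rw [← b1, ← b2, a1, a2, huw]
    · intro u hu w hw
      obtain ⟨x, hx, rfl⟩ := Finset.mem_image.mp hu
      obtain ⟨y, hy, rfl⟩ := Finset.mem_image.mp hw
      have a1 := (Finset.mem_filter.mp hx).2.2.2
      have a2 := (Finset.mem_filter.mp hy).2.2.2
      have b1 := Int.emod_add_mul_ediv (x m) q
      have b2 := Int.emod_add_mul_ediv (y m) q
      have c := LL3_cube_diff (Finset.mem_filter.mp hx).1 (Finset.mem_filter.mp hy).1 m
      have e : x m - y m = q * (x m / q - y m / q) := by rw [mul_sub]; linarith only [a1, a2, b1, b2]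
      have e' : (x m : ℝ) - y m = q * (((x m / q : ℤ) : ℝ) - ((y m / q : ℤ) : ℝ)) := by
        exact_mod_cast e
      rw [e', abs_mul, abs_of_pos hq'] at c
      rw [le_div_iff₀ hq']; linarith only [c]

theorem LL3_slab {n n' : E3} (hn : ‖n‖ = 1) (hn' : ‖n'‖ = 1) (h1 : n' ≠ n) (h2 : n' ≠ -n) :
    ∃ C : ℝ, 0 < C ∧ ∀ (N : ℕ) (t t' a : ℝ), 0 ≤ a →
      (((cube N).filter fun x => |dot n x - t| ≤ 1 ∧ |dot n' x - t'| ≤ a).card : ℝ) ≤
        C * (N + 1) * (a + 1) := by
  have hk : n (axis n) ≠ 0 := by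
    intro h; have := LL3_half hn; rw [h, abs_zero] at this; linarith
  have hex : ∃ i, n' i * n (axis n) - n' (axis n) * n i ≠ 0 := by
    by_contra hc
    push Not at hc
    have e : n' = (n' (axis n) / n (axis n)) • n := by
      ext i
      have := hc i
      simp only [PiLp.smul_apply, smul_eq_mul]
      field_simp
      linarith
    have e2 : |n' (axis n) / n (axis n)| = 1 := by
      have := congrArg norm e
      rw [norm_smul, hn, hn', Real.norm_eq_abs] at this
      linarith only [this]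
    rcases (abs_eq zero_le_one).mp e2 with h | h
    · rw [h, one_smul] at e; exact h1 e
    · rw [h, neg_smul, one_smul] at e; exact h2 e
  obtain ⟨i, hi⟩ := hex
  set g := n' i * n (axis n) - n' (axis n) * n i with hg
  have hik : i ≠ axis n := by
    intro h; apply hi; rw [hg, h]; ring
  obtain ⟨m, hm1, hm2⟩ := LL3_third i (axis n) hik
  have hg0 : 0 < |g| := abs_pos.mpr hi
  refine ⟨36 * (4 / |g| + 1), by positivity, fun N t t' a ha => ?_⟩
  have := LL3_count ((cube N).filter fun x => |dot n x - t| ≤ 1 ∧ |dot n' x - t'| ≤ a)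
    hm1 hik hm2 (A := 4 * N + 1) (B := (2 * a + 2) / |g|) (C := 4) (by positivity) (by norm_num)
    ?_ ?_ (fun x hx y hy hm hi => LL3_col hn hm1 hik hm2 (Finset.mem_filter.mp hx).2.1
      (Finset.mem_filter.mp hy).2.1 hm hi)
  · refine this.trans ?_
    have e : 2 * ((2 * a + 2) / |g|) + 1 ≤ (4 / |g| + 1) * (a + 1) := by
      have : 2 * ((2 * a + 2) / |g|) = 4 / |g| * (a + 1) := by ring
      rw [this]; nlinarith only [ha]
    have e2 : (4 * (N : ℝ) + 1) ≤ 4 * (N + 1) := by linarith only []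
    calc (4 * (N : ℝ) + 1) * ((2 * ((2 * a + 2) / |g|) + 1) * (2 * 4 + 1))
        ≤ (4 * (N + 1)) * (((4 / |g| + 1) * (a + 1)) * (2 * 4 + 1)) := by gcongr
      _ = _ := by ring
  · refine (LL3_close _ id (Set.injOn_id _) (D := 2 * N) (by positivity) ?_).trans
      (le_of_eq (by ring))
    intro u hu w hw
    obtain ⟨x, hx, rfl⟩ := Finset.mem_image.mp hu
    obtain ⟨y, hy, rfl⟩ := Finset.mem_image.mp hw
    exact LL3_cube_diff (Finset.mem_filter.mp hx).1 (Finset.mem_filter.mp hy).1 m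
  · intro x hx y hy hm
    obtain ⟨-, a1, a2⟩ := Finset.mem_filter.mp hx
    obtain ⟨-, b1, b2⟩ := Finset.mem_filter.mp hy
    have c1 : |dot n x - dot n y| ≤ 2 := by
      rw [abs_le] at a1 b1 ⊢; constructor <;> linarith [a1.1, a1.2, b1.1, b1.2]
    have c2 : |dot n' x - dot n' y| ≤ 2 * a := by
      rw [abs_le] at a2 b2 ⊢; constructor <;> linarith [a2.1, a2.2, b2.1, b2.2]
    have e : g * ((x i : ℝ) - y i) =
        n (axis n) * (dot n' x - dot n' y) - n' (axis n) * (dot n x - dot n y) := by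
      rw [LL3_dot n x hm1 hik hm2, LL3_dot n y hm1 hik hm2, LL3_dot n' x hm1 hik hm2,
        LL3_dot n' y hm1 hik hm2, hm, hg]; ring
    rw [le_div_iff₀ hg0, mul_comm, ← abs_mul, e]
    refine (abs_sub _ _).trans ?_
    rw [abs_mul, abs_mul]
    have d1 := LL3_le_one hn (axis n)
    have d2 := LL3_le_one hn' (axis n)
    nlinarith only [d2, ha, d1, c1, c2, abs_nonneg (n (axis n)), abs_nonneg (n' (axis n)), abs_nonneg (dot n x - dot n y),
      abs_nonneg (dot n' x - dot n' y)]

/-- The height of the lattice point of the column of `c` nearest to the plane. -/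
def LL3_lift (n : E3) (T : ℝ) (c : Site) : ℤ :=
  round ((T - dot n (Function.update c (axis n) 0)) / n (axis n))

theorem LL3_lift_congr (n : E3) (T : ℝ) {c c' : Site} (h : ∀ i, i ≠ axis n → c i = c' i) :
    LL3_lift n T c = LL3_lift n T c' := by
  have : Function.update c (axis n) 0 = Function.update c' (axis n) 0 := by
    funext i
    by_cases hi : i = axis n
    · subst hi; simp
    · simp [hi, h i hi]
  unfold LL3_lift; rw [this]

theorem LL3_lift_spec {n : E3} (hn : ‖n‖ = 1) (T : ℝ) {c : Site}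
    (h : c (axis n) = LL3_lift n T c) : |dot n c - T| ≤ 1 / 2 := by
  obtain ⟨i, m, h1, h2, h3⟩ := LL3_two (axis n)
  have hk : n (axis n) ≠ 0 := by
    intro h; have := LL3_half hn; rw [h, abs_zero] at this; linarith
  have e0 : dot n c = dot n (Function.update c (axis n) 0) + n (axis n) * c (axis n) := by
    rw [LL3_dot n c h1 h2 h3, LL3_dot n _ h1 h2 h3]; simp [h2, h3]
  set u := (T - dot n (Function.update c (axis n) 0)) / n (axis n) with hu
  have e1 : dot n c - T = -(n (axis n) * (u - round u)) := by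
    have : n (axis n) * u = T - dot n (Function.update c (axis n) 0) := by
      rw [hu]; field_simp
    rw [e0, h]; unfold LL3_lift; rw [← hu]; linarith only [this]
  rw [e1, abs_neg, abs_mul]
  have := abs_sub_round u
  have := LL3_le_one hn (axis n)
  nlinarith [abs_nonneg (n (axis n)), abs_nonneg (u - round u)]

/-- A point near the plane and off the gap columns lies in a tile. -/
theorem LL3_centre {n : E3} (hn : ‖n‖ = 1) (T : ℝ) (L : ℕ) {x : Site} (hx : |dot n x - T| ≤ 1)
    (hg : ∀ i, i ≠ axis n → x i % ((2 * L + 2 : ℕ) : ℤ) ≠ L + 1) :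
    ∃ c : Site, (∀ i, i ≠ axis n → ((2 * L + 2 : ℕ) : ℤ) ∣ c i) ∧ c (axis n) = LL3_lift n T c ∧
      x ∈ tile c (axis n) L (2 * L + 3) := by
  have h0 : ∀ i, ∃ u : ℤ, i ≠ axis n → ((2 * L + 2 : ℕ) : ℤ) ∣ u ∧ |x i - u| ≤ L := by
    intro i
    set q : ℤ := ((2 * L + 2 : ℕ) : ℤ) with hq
    have hq' : q = 2 * L + 2 := by rw [hq]; push_cast; ring
    have b := Int.emod_add_mul_ediv (x i) q
    have b1 := Int.emod_nonneg (x i) (b := q) (by omega)
    have b2 := Int.emod_lt_of_pos (x i) (b := q) (by omega)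
    by_cases hc : x i % q ≤ L
    · exact ⟨q * (x i / q), fun _ => ⟨dvd_mul_right _ _, by rw [abs_le]; constructor <;> linarith only [b, b1, hc]⟩⟩
    · refine ⟨q * (x i / q + 1), fun hi => ⟨dvd_mul_right _ _, ?_⟩⟩
      have := hg i hi
      have b3 : (L : ℤ) + 2 ≤ x i % q := by omega
      rw [abs_le, mul_add]; constructor <;> linarith only [hq', b, b3, b2]
  choose u hu using h0
  set c : Site := Function.update u (axis n) (LL3_lift n T u) with hc
  have hcu : ∀ i, i ≠ axis n → c i = u i := fun i hi => by simp [hc, hi]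
  have hl : c (axis n) = LL3_lift n T c := by
    rw [LL3_lift_congr n T hcu]; simp [hc]
  refine ⟨c, fun i hi => by rw [hcu i hi]; exact (hu i hi).1, hl, mem_tile.mpr fun l => ?_⟩
  split_ifs with hl'
  · subst hl'
    obtain ⟨i, m, h1, h2, h3⟩ := LL3_two (axis n)
    have a := LL3_lift_spec hn T hl
    have ai : |(x i : ℝ) - c i| ≤ L := by rw [hcu i h2]; exact_mod_cast (hu i h2).2
    have am : |(x m : ℝ) - c m| ≤ L := by rw [hcu m h3]; exact_mod_cast (hu m h3).2
    have e : n (axis n) * ((x (axis n) : ℝ) - c (axis n)) = (dot n x - T) - (dot n c - T)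
        - n i * ((x i : ℝ) - c i) - n m * ((x m : ℝ) - c m) := by
      rw [LL3_dot n x h1 h2 h3, LL3_dot n c h1 h2 h3]; ring
    have bi : |n i * ((x i : ℝ) - c i)| ≤ |n (axis n)| * L := by
      rw [abs_mul]; exact mul_le_mul (LL3_axis n i) ai (abs_nonneg _) (abs_nonneg _)
    have bm : |n m * ((x m : ℝ) - c m)| ≤ |n (axis n)| * L := by
      rw [abs_mul]; exact mul_le_mul (LL3_axis n m) am (abs_nonneg _) (abs_nonneg _)
    have f : |n (axis n)| * |(x (axis n) : ℝ) - c (axis n)| ≤ 3 / 2 + 2 * (|n (axis n)| * L) := by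
      rw [← abs_mul, e]
      rw [abs_le] at hx a bi bm ⊢
      constructor <;> linarith only [hx, a, bi, bm, hx.1, hx.2, a.1, a.2, bi.1, bi.2, bm.1, bm.2]
    have hh := LL3_half hn
    have f2 : |(x (axis n) : ℝ) - c (axis n)| ≤ 2 * L + 3 := by
      by_contra hcon
      rw [not_le] at hcon
      nlinarith only [f, hh, hcon]
    exact_mod_cast f2
  · rw [hcu l hl']; exact (hu l hl').2

end Pool.Agent.Work.MP_b59478_pr
end
end

-- merged part: Pool.Agent.Work.MP_b59478_pr.FF
section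
/-! Correlation inequalities and boundary conditions.
ff_union: four_functions_theorem (Mathlib) on the lattice of subsets of a finite window containing
all the sets, with card cut (S inter T) + card cut (S union T) <= card cut S + card cut T (bond by
bond). ff_sdiff: the same after replacing T by its complement in the window, using
card cut (S minus T) + card cut (T minus S) <= card cut S + card cut T.
Zf_mono: first pass from Lam to Lam1 = Lam union ((Lam' minus Lam) minus O) with ff_union (S union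
(O minus Lam) against T inside Lam1), then from Lam1 to Lam' with ff_sdiff.
Rt_mono: apply Zf_mono to O = H inter a finite window containing all endpoints of bonds Lam', and
use Zf_eq, Zb_congr.
-/

set_option autoImplicit false

noncomputable section

namespace Pool.Agent.Work.MP_b59478_pr

open Classical Filter Topology MeasureTheory
open scoped symmDiff Pointwise

theorem FF_w_le {β : ℝ} (hβ : 0 ≤ β) {S T S' T' : Finset Site}
    (h1 : cut S' ∪ cut T' ⊆ cut S ∪ cut T) (h2 : cut S' ∩ cut T' ⊆ cut S ∩ cut T) :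
    w β S * w β T ≤ w β S' * w β T' := by
  have e1 := Finset.card_union_add_card_inter (cut S) (cut T)
  have e2 := Finset.card_union_add_card_inter (cut S') (cut T')
  have h3 := Finset.card_le_card h1
  have h4 := Finset.card_le_card h2
  have h5 : (cut S').card + (cut T').card ≤ (cut S).card + (cut T).card := by omega
  have h6 : ((cut S').card : ℝ) + (cut T').card ≤ (cut S).card + (cut T).card := by
    exact_mod_cast h5
  unfold w
  rw [← Real.exp_add, ← Real.exp_add]
  refine Real.exp_le_exp.2 ?_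
  nlinarith only [hβ, h6]

theorem FF_flip (Λ : Finset Site) (f : Finset Site → ℝ) :
    ∑ S ∈ Λ.powerset, f (Λ \ S) = ∑ S ∈ Λ.powerset, f S :=
  Finset.sum_nbij' (fun S => Λ \ S) (fun S => Λ \ S)
    (fun _ _ => Finset.mem_powerset.2 Finset.sdiff_subset)
    (fun _ _ => Finset.mem_powerset.2 Finset.sdiff_subset)
    (fun _ h => Finset.sdiff_sdiff_eq_self (Finset.mem_powerset.1 h))
    (fun _ h => Finset.sdiff_sdiff_eq_self (Finset.mem_powerset.1 h)) fun _ _ => rfl

theorem ff_union {β : ℝ} (hβ : 0 ≤ β) (𝒜 ℬ 𝒞 𝒟 : Finset (Finset Site))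
    (h : ∀ S ∈ 𝒜, ∀ T ∈ ℬ, S ∩ T ∈ 𝒞 ∧ S ∪ T ∈ 𝒟) :
    (∑ S ∈ 𝒜, w β S) * ∑ S ∈ ℬ, w β S ≤ (∑ S ∈ 𝒞, w β S) * ∑ S ∈ 𝒟, w β S := by
  have h0 : (0 : Finset Site → ℝ) ≤ w β := fun S => (w_pos β S).le
  refine (four_functions_theorem (w β) (w β) (w β) (w β) h0 h0 h0 h0
    (fun S T => FF_w_le hβ ?_ ?_) 𝒜 ℬ).trans (mul_le_mul ?_ ?_
      (Finset.sum_nonneg fun S _ => h0 S) (Finset.sum_nonneg fun S _ => h0 S))
  · intro b
    simp only [Finset.mem_union, mem_cut, Finset.inf_eq_inter, Finset.sup_eq_union,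
      Finset.mem_inter]
    grind
  · intro b
    simp only [Finset.mem_union, mem_cut, Finset.inf_eq_inter, Finset.sup_eq_union,
      Finset.mem_inter]
    grind
  · refine Finset.sum_le_sum_of_subset_of_nonneg (fun X hX => ?_) fun S _ _ => h0 S
    obtain ⟨S, hS, T, hT, rfl⟩ := Finset.mem_infs.1 hX
    exact (h S hS T hT).1
  · refine Finset.sum_le_sum_of_subset_of_nonneg (fun X hX => ?_) fun S _ _ => h0 S
    obtain ⟨S, hS, T, hT, rfl⟩ := Finset.mem_sups.1 hX
    exact (h S hS T hT).2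

theorem ff_sdiff {β : ℝ} (hβ : 0 ≤ β) (𝒜 ℬ 𝒞 𝒟 : Finset (Finset Site))
    (h : ∀ S ∈ 𝒜, ∀ T ∈ ℬ, S \ T ∈ 𝒞 ∧ T \ S ∈ 𝒟) :
    (∑ S ∈ 𝒜, w β S) * ∑ S ∈ ℬ, w β S ≤ (∑ S ∈ 𝒞, w β S) * ∑ S ∈ 𝒟, w β S := by
  have h0 : ∀ S, 0 ≤ w β S := fun S => (w_pos β S).le
  set u : Finset Site := (𝒜 ∪ ℬ).sup id with hu
  have hA : ∀ S ∈ 𝒜, S ⊆ u := fun S hS =>
    Finset.le_sup (f := id) (Finset.mem_union_left ℬ hS)
  have hB : ∀ S ∈ ℬ, S ⊆ u := fun S hS =>
    Finset.le_sup (f := id) (Finset.mem_union_right 𝒜 hS)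
  have key := Finset.four_functions_theorem (f₁ := w β) (f₂ := fun T => w β (u \ T)) (f₃ := w β)
    (f₄ := fun T => w β (u \ T)) u h0 (fun _ => h0 _) h0 (fun _ => h0 _)
    (fun s hs t _ => FF_w_le hβ (by
      intro b
      have h1 := @hs b.1
      have h2 := @hs (tip b)
      simp only [Finset.mem_union, mem_cut, Finset.mem_inter, Finset.mem_sdiff]
      grind) (by
      intro b
      have h1 := @hs b.1
      have h2 := @hs (tip b)
      simp only [Finset.mem_union, mem_cut, Finset.mem_inter, Finset.mem_sdiff]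
      grind))
    (𝒜 := 𝒜) (ℬ := ℬ.image fun T => u \ T) (fun S hS => Finset.mem_powerset.2 (hA S hS))
    (fun X hX => by
      obtain ⟨T, -, rfl⟩ := Finset.mem_image.1 hX
      exact Finset.mem_powerset.2 Finset.sdiff_subset)
  have hinj : ∀ S ⊆ u, ∀ T ⊆ u, u \ S = u \ T → S = T := fun S hS T hT e => by
    rw [← Finset.sdiff_sdiff_eq_self hS, e, Finset.sdiff_sdiff_eq_self hT]
  rw [Finset.sum_image fun S hS T hT e => hinj S (hB S hS) T (hB T hT) e,
    Finset.sum_congr rfl fun T hT => congrArg (w β) (Finset.sdiff_sdiff_eq_self (hB T hT))] at key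
  refine key.trans (mul_le_mul ?_ ?_
    (Finset.sum_nonneg fun S _ => h0 _) (Finset.sum_nonneg fun S _ => h0 S))
  · refine Finset.sum_le_sum_of_subset_of_nonneg (fun X hX => ?_) fun S _ _ => h0 S
    obtain ⟨S, hS, T', hT', rfl⟩ := Finset.mem_infs.1 hX
    obtain ⟨T, hT, rfl⟩ := Finset.mem_image.1 hT'
    convert (h S hS T hT).1 using 1
    ext x
    have h1 := @hA S hS x
    simp only [Finset.inf_eq_inter, Finset.mem_inter, Finset.mem_sdiff]
    grind
  · rw [← Finset.sum_image (g := fun T => u \ T) (f := w β)]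
    · refine Finset.sum_le_sum_of_subset_of_nonneg (fun X hX => ?_) fun S _ _ => h0 S
      obtain ⟨Y, hY, rfl⟩ := Finset.mem_image.1 hX
      obtain ⟨S, hS, T', hT', rfl⟩ := Finset.mem_sups.1 hY
      obtain ⟨T, hT, rfl⟩ := Finset.mem_image.1 hT'
      convert (h S hS T hT).2 using 1
      ext x
      have h1 := @hB T hT x
      simp only [Finset.sup_eq_union, Finset.mem_union, Finset.mem_sdiff]
      grind
    · intro Y hY Y' hY' e
      obtain ⟨S, hS, X, hX, rfl⟩ := Finset.mem_sups.1 (Finset.mem_coe.1 hY)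
      obtain ⟨T, hT, rfl⟩ := Finset.mem_image.1 hX
      obtain ⟨S', hS', X', hX', rfl⟩ := Finset.mem_sups.1 (Finset.mem_coe.1 hY')
      obtain ⟨T', hT', rfl⟩ := Finset.mem_image.1 hX'
      exact hinj _ (Finset.union_subset (hA S hS) Finset.sdiff_subset) _
        (Finset.union_subset (hA S' hS') Finset.sdiff_subset) e

/-- Decreasing events are more likely in smaller volumes. -/
theorem ff_dec {β : ℝ} (hβ : 0 ≤ β) {Λ V : Finset Site} (h : Λ ⊆ V) (P : Finset Site → Prop)
    (hP : ∀ S T, S ⊆ T → P T → P S) :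
    (∑ S ∈ V.powerset.filter P, w β S) * Z0 β Λ ≤
      (∑ S ∈ Λ.powerset.filter P, w β S) * Z0 β V := by
  refine ff_union hβ _ _ _ _ fun S hS T hT => ?_
  rw [Finset.mem_filter, Finset.mem_powerset] at hS
  rw [Finset.mem_powerset] at hT
  rw [Finset.mem_filter, Finset.mem_powerset, Finset.mem_powerset]
  exact ⟨⟨Finset.inter_subset_right.trans hT, hP _ _ Finset.inter_subset_left hS.2⟩,
    Finset.union_subset hS.1 (hT.trans h)⟩

/-- The sets that agree with `O` outside `Λ`. -/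
def FF_fam (Λ O : Finset Site) : Finset (Finset Site) := Λ.powerset.image fun S => S ∪ (O \ Λ)

theorem FF_mem {Λ O X : Finset Site} : X ∈ FF_fam Λ O ↔ ∀ x, x ∉ Λ → (x ∈ X ↔ x ∈ O) := by
  unfold FF_fam
  rw [Finset.mem_image]
  constructor
  · rintro ⟨S, hS, rfl⟩ x hx
    have h1 := @Finset.mem_powerset.1 hS x
    rw [Finset.mem_union, Finset.mem_sdiff]
    grind
  · intro h
    refine ⟨X ∩ Λ, Finset.mem_powerset.2 Finset.inter_subset_right, ?_⟩
    ext x
    have h1 := h x
    rw [Finset.mem_union, Finset.mem_sdiff, Finset.mem_inter]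
    grind

theorem FF_Zf (β : ℝ) (Λ O : Finset Site) : Zf β Λ O = ∑ X ∈ FF_fam Λ O, w β X := by
  unfold Zf FF_fam
  rw [Finset.sum_image]
  intro S hS T hT e
  ext x
  have h1 := @Finset.mem_powerset.1 (Finset.mem_coe.1 hS) x
  have h2 := @Finset.mem_powerset.1 (Finset.mem_coe.1 hT) x
  have h3 : x ∈ S ∪ (O \ Λ) ↔ x ∈ T ∪ (O \ Λ) := by
    have e' : S ∪ (O \ Λ) = T ∪ (O \ Λ) := e
    rw [e']
  rw [Finset.mem_union, Finset.mem_union, Finset.mem_sdiff] at h3
  grind

theorem Zf_mono {β : ℝ} (hβ : 0 ≤ β) {Λ Λ' : Finset Site} (h : Λ ⊆ Λ') (O : Finset Site) :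
    Zf β Λ O * Z0 β Λ' ≤ Zf β Λ' O * Z0 β Λ := by
  set Λ1 : Finset Site := Λ ∪ ((Λ' \ Λ) \ O) with hΛ1
  have hm : ∀ x, x ∈ Λ1 ↔ x ∈ Λ ∨ ((x ∈ Λ' ∧ x ∉ Λ) ∧ x ∉ O) := fun x => by
    simp only [hΛ1, Finset.mem_union, Finset.mem_sdiff]
  have h1 : Zf β Λ O * Z0 β Λ1 ≤ Z0 β Λ * Zf β Λ1 O := by
    rw [FF_Zf, FF_Zf]
    refine ff_union hβ _ _ _ _ fun S hS T hT => ?_
    rw [FF_mem] at hS
    rw [Finset.mem_powerset] at hT
    rw [FF_mem, Finset.mem_powerset]
    constructor
    · intro x hx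
      have a1 := hS x
      have a2 := (hm x).1 (hT (Finset.mem_inter.1 hx).2)
      have a3 := (Finset.mem_inter.1 hx).1
      grind
    · intro x hx
      have a1 := hS x
      have a2 := hm x
      have a3 := @hT x
      rw [Finset.mem_union]
      grind
  have h2 : Zf β Λ1 O * Z0 β Λ' ≤ Zf β Λ' O * Z0 β Λ1 := by
    rw [FF_Zf, FF_Zf]
    refine ff_sdiff hβ _ _ _ _ fun S hS T hT => ?_
    rw [FF_mem] at hS
    rw [Finset.mem_powerset] at hT
    rw [FF_mem, Finset.mem_powerset]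
    constructor
    · intro x hx
      have a1 := hS x
      have a2 := hm x
      have a3 := @hT x
      have a4 := @h x
      rw [Finset.mem_sdiff]
      grind
    · intro x hx
      have a1 := hS x
      have a2 := hm x
      have a3 := hT (Finset.mem_sdiff.1 hx).1
      have a4 := (Finset.mem_sdiff.1 hx).2
      grind
  refine le_of_mul_le_mul_right ?_ (Z0_pos β Λ1)
  have h3 := mul_le_mul_of_nonneg_right h1 (Z0_pos β Λ').le
  have h4 := mul_le_mul_of_nonneg_left h2 (Z0_pos β Λ).le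
  nlinarith only [h3, h4]

theorem Zf_eq (β : ℝ) (Λ O : Finset Site) :
    Zf β Λ O = Real.exp (-(2 * β * (cut O \ bonds Λ).card)) * Zb β Λ (O : Set Site) := by
  unfold Zf Zb
  rw [Finset.mul_sum]
  refine Finset.sum_congr rfl fun S hS => ?_
  have hS' := Finset.mem_powerset.1 hS
  have e := Finset.card_sdiff_add_card_inter (cut (S ∪ (O \ Λ))) (bonds Λ)
  have e1 : cut (S ∪ (O \ Λ)) \ bonds Λ = cut O \ bonds Λ := by
    ext b
    have h1 := @hS' b.1
    have h2 := @hS' (tip b)
    simp only [Finset.mem_sdiff, mem_cut, mem_bonds, Finset.mem_union]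
    grind
  have e2 : cut (S ∪ (O \ Λ)) ∩ bonds Λ = (bonds Λ).filter fun b =>
      Cuts ((S : Set Site) ∪ ((O : Set Site) \ (Λ : Set Site))) b := by
    ext b
    simp only [Finset.mem_inter, mem_cut, Finset.mem_filter, Cuts, Finset.mem_union,
      Finset.mem_sdiff, Set.mem_union, Set.mem_sdiff, Finset.mem_coe]
    exact and_comm
  rw [e1, e2] at e
  unfold w
  rw [← e, ← Real.exp_add]
  congr 1
  push_cast
  ring

theorem Zb_pos (β : ℝ) (Λ : Finset Site) (H : Set Site) : 0 < Zb β Λ H :=   Finset.sum_pos (fun _ _ => Real.exp_pos _) (Finset.powerset_nonempty Λ)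

theorem Rt_pos (β : ℝ) (Λ : Finset Site) (H : Set Site) : 0 < Rt β Λ H := div_pos (Zb_pos β Λ H) (Z0_pos β Λ)

theorem FF_congr {T : Finset Bond} {K K' : Set Site} (h : ∀ b ∈ T, Cuts K b ↔ Cuts K' b) :
    (T.filter fun b => Cuts K b) = T.filter fun b => Cuts K' b := Finset.filter_congr h

theorem FF_end {Λ : Finset Site} {b : Bond} (hb : b ∈ bonds Λ) :
    (b.1 ∉ Λ → ∃ y ∈ Λ, Near 1 b.1 y) ∧ (tip b ∉ Λ → ∃ y ∈ Λ, Near 1 (tip b) y) := by
  rcases mem_bonds.1 hb with h | h
  · exact ⟨fun h' => absurd h h', fun _ => ⟨_, h, (near_tip b).symm⟩⟩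
  · exact ⟨fun _ => ⟨_, h, near_tip b⟩, fun h' => absurd h h'⟩

theorem Zb_congr (β : ℝ) (Λ : Finset Site) {H H' : Set Site}
    (h : ∀ x, x ∉ Λ → (∃ y ∈ Λ, Near 1 x y) → (x ∈ H ↔ x ∈ H')) : Zb β Λ H = Zb β Λ H' := by
  unfold Zb
  refine Finset.sum_congr rfl fun S _ => ?_
  rw [FF_congr]
  intro b hb
  obtain ⟨h1, h2⟩ := FF_end hb
  have h3 := fun hx => h b.1 hx (h1 hx)
  have h4 := fun hx => h (tip b) hx (h2 hx)
  simp only [Cuts, Set.mem_union, Set.mem_sdiff, Finset.mem_coe]
  grind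

theorem Zb_change {β : ℝ} (hβ : 0 ≤ β) (Λ Mi : Finset Site) {H H' : Set Site}
    (h : ∀ x, x ∉ Λ → (∃ y ∈ Λ, Near 1 x y) → ¬ (x ∈ H ↔ x ∈ H') → x ∈ Mi) :
    Zb β Λ H ≤ Real.exp (12 * β * Mi.card) * Zb β Λ H' := by
  unfold Zb
  rw [Finset.mul_sum]
  refine Finset.sum_le_sum fun S _ => ?_
  have h1 : ((bonds Λ).filter fun b => Cuts ((S : Set Site) ∪ (H' \ (Λ : Set Site))) b) ⊆
      ((bonds Λ).filter fun b => Cuts ((S : Set Site) ∪ (H \ (Λ : Set Site))) b) ∪ bonds Mi := by
    intro b hb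
    rw [Finset.mem_filter] at hb
    obtain ⟨h1, h2⟩ := FF_end hb.1
    have h3 := fun hx => h b.1 hx (h1 hx)
    have h4 := fun hx => h (tip b) hx (h2 hx)
    rw [Finset.mem_union, Finset.mem_filter, mem_bonds (Λ := Mi)]
    by_contra hc
    rw [not_or, not_or] at hc
    obtain ⟨c1, c2, c3⟩ := hc
    refine c1 ⟨hb.1, ?_⟩
    have h5 := hb.2
    have h6 : b.1 ∉ Λ → (b.1 ∈ H ↔ b.1 ∈ H') := fun hx => by_contra fun e => c2 (h3 hx e)
    have h7 : tip b ∉ Λ → (tip b ∈ H ↔ tip b ∈ H') := fun hx => by_contra fun e => c3 (h4 hx e)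
    simp only [Cuts, Set.mem_union, Set.mem_sdiff, Finset.mem_coe] at h5 ⊢
    clear h3 h4 h1 h2 hb c1 c2 c3 h
    grind
  have h2 := ((Finset.card_le_card h1).trans (Finset.card_union_le _ _)).trans
    (Nat.add_le_add_left (card_bonds_le Mi) _)
  have h3 : ((((bonds Λ).filter fun b =>
      Cuts ((S : Set Site) ∪ (H' \ (Λ : Set Site))) b).card : ℕ) : ℝ) ≤
      (((bonds Λ).filter fun b => Cuts ((S : Set Site) ∪ (H \ (Λ : Set Site))) b).card : ℕ) +
        6 * (Mi.card : ℝ) := by exact_mod_cast h2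
  rw [← Real.exp_add]
  refine Real.exp_le_exp.2 ?_
  nlinarith only [hβ, h3]

theorem Zb_compl (β : ℝ) (Λ : Finset Site) (H : Set Site) : Zb β Λ Hᶜ = Zb β Λ H := by
  unfold Zb
  rw [← FF_flip]
  refine Finset.sum_congr rfl fun S hS => ?_
  have hS' := Finset.mem_powerset.1 hS
  rw [FF_congr]
  intro b _
  have h1 := @hS' b.1
  have h2 := @hS' (tip b)
  simp only [Cuts, Set.mem_union, Set.mem_sdiff, Finset.mem_coe, Finset.mem_sdiff,
    Set.mem_compl_iff]
  grind

theorem FF_filter {Λ S : Finset Site} (h : S ⊆ Λ) :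
    ((bonds Λ).filter fun b => Cuts (S : Set Site) b) = cut S := by
  ext b
  rw [Finset.mem_filter, mem_cut]
  exact ⟨fun h' => h'.2, fun h' => ⟨cut_subset_bonds h (mem_cut.2 h'), h'⟩⟩

theorem Zb_empty (β : ℝ) (Λ : Finset Site) : Zb β Λ ∅ = Z0 β Λ := by
  unfold Zb Z0 w
  refine Finset.sum_congr rfl fun S hS => ?_
  rw [Set.empty_sdiff, Set.union_empty, FF_filter (Finset.mem_powerset.1 hS)]

theorem Rt_mono {β : ℝ} (hβ : 0 ≤ β) {Λ Λ' : Finset Site} (h : Λ ⊆ Λ') (H : Set Site) :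
    Rt β Λ H * Real.exp (-(2 * β * ((bonds Λ' \ bonds Λ).filter (Cuts H)).card)) ≤ Rt β Λ' H := by
  set O : Finset Site := (Λ'.biUnion fun y => ball y 1).filter fun x => x ∈ H with hO
  have hm : ∀ x, (∃ y ∈ Λ', Near 1 x y) → (x ∈ O ↔ x ∈ H) := by
    rintro x ⟨y, hy, hxy⟩
    rw [hO, Finset.mem_filter, Finset.mem_biUnion]
    exact ⟨fun h' => h'.2, fun h' => ⟨⟨y, hy, mem_ball.2 hxy⟩, h'⟩⟩
  have e1 : Zb β Λ (O : Set Site) = Zb β Λ H :=
    Zb_congr β Λ fun x _ ⟨y, hy, hxy⟩ => hm x ⟨y, h hy, hxy⟩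
  have e2 : Zb β Λ' (O : Set Site) = Zb β Λ' H := Zb_congr β Λ' fun x _ hx => hm x hx
  have key := Zf_mono hβ h O
  rw [Zf_eq, Zf_eq, e1, e2] at key
  have e := Finset.card_sdiff_add_card_inter (cut O \ bonds Λ) (bonds Λ')
  have e3 : (cut O \ bonds Λ) \ bonds Λ' = cut O \ bonds Λ' := by
    ext b
    have h1 := @bonds_mono _ _ h b
    simp only [Finset.mem_sdiff]
    grind
  have e4 : (cut O \ bonds Λ) ∩ bonds Λ' = (bonds Λ' \ bonds Λ).filter (Cuts H) := by
    ext b
    simp only [Finset.mem_inter, Finset.mem_sdiff, Finset.mem_filter, mem_cut, Cuts]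
    by_cases hb : b ∈ bonds Λ'
    · obtain ⟨h1, h2⟩ := FF_end hb
      have h3 : b.1 ∈ O ↔ b.1 ∈ H := hm _ (by
        by_cases hx : b.1 ∈ Λ'
        · exact ⟨_, hx, Near.refl 1 _⟩
        · exact h1 hx)
      have h4 : tip b ∈ O ↔ tip b ∈ H := hm _ (by
        by_cases hx : tip b ∈ Λ'
        · exact ⟨_, hx, Near.refl 1 _⟩
        · exact h2 hx)
      rw [h3, h4]
      grind
    · grind
  rw [e3, e4] at e
  rw [← e, Nat.cast_add, mul_add, neg_add, Real.exp_add] at key
  unfold Rt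
  rw [div_mul_eq_mul_div, div_le_div_iff₀ (Z0_pos β Λ) (Z0_pos β Λ')]
  refine le_of_mul_le_mul_left ?_ (Real.exp_pos (-(2 * β * (cut O \ bonds Λ').card)))
  linarith only [key]

theorem FF_weight (β : ℝ) (Λ : Finset Site) (η : Site → ℝ) (S : Finset Site) (K : Set Site)
    (h : ∀ x, spin Λ η S x = if x ∈ K then 1 else -1) :
    weight β Λ η S = Real.exp (β * (bonds Λ).card) *
      Real.exp (-(2 * β * ((bonds Λ).filter fun b => Cuts K b).card)) := by
  unfold weight
  rw [← Real.exp_add]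
  congr 1
  have e : ∀ b : Bond, spin Λ η S b.1 * spin Λ η S (tip b) =
      1 - 2 * if Cuts K b then 1 else 0 := by
    intro b
    rw [h, h]
    unfold Cuts
    by_cases h1 : b.1 ∈ K <;> by_cases h2 : tip b ∈ K <;> simp [h1, h2] <;> norm_num
  simp only [e, Finset.sum_sub_distrib, ← Finset.mul_sum, Finset.sum_boole, Finset.sum_const,
    nsmul_eq_mul]
  ring

theorem weight_minus (β : ℝ) {Λ S : Finset Site} (h : S ⊆ Λ) :
    weight β Λ (fun _ => -1) S = Real.exp (β * (bonds Λ).card) * w β S := by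
  rw [FF_weight β Λ _ S (S : Set Site), FF_filter h]
  · rfl
  · intro x
    have h1 := @h x
    unfold spin
    by_cases hx : x ∈ S <;> by_cases hy : x ∈ Λ <;> simp_all

theorem weight_plus (β : ℝ) {Λ S : Finset Site} (h : S ⊆ Λ) :
    weight β Λ (fun _ => 1) S = Real.exp (β * (bonds Λ).card) * w β (Λ \ S) := by
  rw [FF_weight β Λ _ S ((Λ \ S : Finset Site) : Set Site)ᶜ]
  · unfold w
    rw [← FF_filter (Finset.sdiff_subset : Λ \ S ⊆ Λ), FF_congr]
    intro b _
    simp only [Cuts, Set.mem_compl_iff]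
    grind
  · intro x
    have h1 := @h x
    unfold spin
    by_cases hx : x ∈ S <;> by_cases hy : x ∈ Λ <;> simp_all

theorem partition_plus (β : ℝ) (Λ : Finset Site) :
    partition β Λ (fun _ => 1) = Real.exp (β * (bonds Λ).card) * Z0 β Λ := by
  unfold partition Z0
  rw [← FF_flip Λ (w β), Finset.mul_sum]
  exact Finset.sum_congr rfl fun S hS => weight_plus β (Finset.mem_powerset.1 hS)

theorem partition_mixed (β : ℝ) (Λ : Finset Site) (n : E3) :
    partition β Λ (mixed n) = Real.exp (β * (bonds Λ).card) * Zb β Λ (hs n) := by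
  unfold partition Zb
  rw [Finset.mul_sum]
  refine Finset.sum_congr rfl fun S hS => FF_weight β Λ _ S _ fun x => ?_
  have h1 := @Finset.mem_powerset.1 hS x
  unfold spin mixed
  have e : x ∈ hs n ↔ 0 ≤ ∑ i, n i * (x i : ℝ) := Iff.rfl
  by_cases hx : x ∈ S <;> by_cases hy : x ∈ Λ <;> by_cases hz : 0 ≤ ∑ i, n i * (x i : ℝ) <;>
    simp_all

theorem mag_eq {N : ℕ} {S : Finset Site} (h : S ⊆ cube N) : (mag N S : ℝ) = Mg (cube N) S := by
  unfold mag Mg
  have e : ∀ x : Site, ((if x ∈ S then 1 else -1 : ℤ) : ℝ) = 2 * (if x ∈ S then 1 else 0) - 1 := by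
    intro x
    by_cases hx : x ∈ S
    · simp only [if_pos hx]
      norm_num
    · simp only [if_neg hx]
      norm_num
  rw [Int.cast_sum]
  simp only [e, Finset.sum_sub_distrib, ← Finset.mul_sum, Finset.sum_boole, Finset.sum_const,
    nsmul_eq_mul, mul_one]
  rw [Finset.filter_mem_eq_inter, Finset.inter_eq_right.2 h]

end Pool.Agent.Work.MP_b59478_pr
end
end

-- merged part: Pool.Agent.Work.MP_b59478_pr.W5a
section
/-! The one-dimensional problem. quant: G y = integral of g over (alpha, y) is continuous, strictly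
increasing on [alpha, alpha'] with derivative g inside; Gi is its inverse, clamped.
Let A x be the integral of a over Iic x; almost everywhere A has derivative a x (Lebesgue
differentiation), and a = 0 almost everywhere where A is 0 or v. For c > 0 and T = Gi (c A - c0) on
an interval, T' = c a / g (T) almost everywhere where a > 0; with u = sqrt (g (T) / a) the integrand
of Lam is a (2 u + min (c / u ^ 2) M) >= a min (3 gamma) M whenever gamma ^ 3 <= c.
Part one: T = Gi A, K = 0, M = 4 gives Lam >= 3 v, and if Lam <= 3 v then a = g (T) almost everywhere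
on a > 0. No gap: if a vanished on a set of positive measure of J = (0 < A < v), take x0 in J where A
has derivative 0; let T be Gi (v A / A (x0 - h)) left of x0 - h, Gi (v (A - A (x0 + h)) / (v - A (x0 + h)))
right of x0 + h, affine from alpha' to alpha in between, K = (alpha' - alpha) / (2 h); both factors c are
at least c0 > 1, so Lam >= 3 gamma (v - o(1)) - o(1) > 3 v with gamma > 1. Hence a = g (Gi A) almost
everywhere on the open interval J, A is C1 there with derivative g (Gi A), so Gi A has derivative 1: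
T x = x + c on J = (x1, x2); at the ends A tends to 0 and v, so x1 + c = alpha, x2 + c = alpha'.
-/

set_option autoImplicit false

noncomputable section

namespace Pool.Agent.Work.MP_b59478_pr

open Classical Filter Topology MeasureTheory
open scoped symmDiff Pointwise

theorem W5a_integrable {g : ℝ → ℝ} {α α' : ℝ} (hg : Prof g α α') : Integrable g := by
  obtain ⟨G, hG⟩ := hg.bdd
  have h1 : IntegrableOn g (Set.Icc α α') := by
    refine Measure.integrableOn_of_bounded (M := G) (by simp) hg.meas.aestronglyMeasurable ?_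
    refine Filter.Eventually.of_forall fun y => ?_
    rw [Real.norm_eq_abs, abs_of_nonneg (hG y).1]
    exact (hG y).2
  refine (integrableOn_iff_integrable_of_support_subset ?_).1 h1
  intro y hy
  by_contra h
  exact hy (hg.zero y h)

theorem quant {g : ℝ → ℝ} {α α' v : ℝ} (hg : Prof g α α') (hv : ∫ y, g y = v) :
    0 < v ∧ ∃ Gi : ℝ → ℝ, Monotone Gi ∧ Continuous Gi ∧ (∀ u, Gi u ∈ Set.Icc α α') ∧
      (∀ u, u ≤ 0 → Gi u = α) ∧ (∀ u, v ≤ u → Gi u = α') ∧
      ∀ u ∈ Set.Ioo 0 v, Gi u ∈ Set.Ioo α α' ∧ HasDerivAt Gi (g (Gi u))⁻¹ u := by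
  have hint := W5a_integrable hg
  have hii : ∀ a b : ℝ, IntervalIntegrable g volume a b := fun a b => hint.intervalIntegrable
  have hlt := hg.lt
  obtain ⟨M, hM⟩ := hg.bdd
  obtain ⟨G, hG⟩ : ∃ G : ℝ → ℝ, G = fun y => ∫ t in α..y, g t := ⟨_, rfl⟩
  have hsub : ∀ y y', G y' - G y = ∫ t in y..y', g t := by
    intro y y'
    rw [hG]
    exact intervalIntegral.integral_interval_sub_left (hii _ _) (hii _ _)
  have hmono : ∀ y y', y ≤ y' → G y ≤ G y' := by
    intro y y' h
    have := hsub y y'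
    have h2 : 0 ≤ ∫ t in y..y', g t := intervalIntegral.integral_nonneg h fun t _ => (hM t).1
    linarith
  have hstrict : ∀ y y', α ≤ y → y < y' → y' ≤ α' → G y < G y' := by
    intro y y' h1 h2 h3
    have := hsub y y'
    have h4 : 0 < ∫ t in y..y', g t :=
      intervalIntegral.intervalIntegral_pos_of_pos_on (hii _ _)
        (fun t ht => hg.pos t ⟨lt_of_le_of_lt h1 ht.1, lt_of_lt_of_le ht.2 h3⟩) h2
    linarith
  have hG0 : G α = 0 := by rw [hG]; simp
  have hG1 : G α' = v := by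
    rw [hG]
    show ∫ t in α..α', g t = v
    rw [intervalIntegral.integral_of_le hlt.le, ← integral_Icc_eq_integral_Ioc,
      setIntegral_eq_integral_of_forall_compl_eq_zero hg.zero, hv]
  have hGc : Continuous G := by
    rw [hG]
    exact intervalIntegral.continuous_primitive hii α
  have hv0 : 0 < v := by
    have := hstrict α α' le_rfl hlt le_rfl
    linarith
  obtain ⟨F, hF⟩ : ∃ F : ℝ → ℝ, F = fun y => G y + max (y - α') 0 + min (y - α) 0 := ⟨_, rfl⟩
  have hFa : ∀ y, F y = G y + max (y - α') 0 + min (y - α) 0 := fun y => by rw [hF]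
  have hFs : StrictMono F := by
    intro y y' h
    rw [hFa, hFa]
    have a1 := hmono y y' h.le
    have a2 : max (y - α') 0 ≤ max (y' - α') 0 := max_le_max (by linarith) le_rfl
    have a3 : min (y - α) 0 ≤ min (y' - α) 0 := min_le_min (by linarith) le_rfl
    by_cases c1 : α' < y'
    · have : max (y - α') 0 < max (y' - α') 0 :=
        max_lt (lt_max_of_lt_left (by linarith)) (lt_max_of_lt_left (by linarith))
      linarith
    · by_cases c2 : y < α
      · have : min (y - α) 0 < min (y' - α) 0 :=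
          lt_min (min_lt_of_left_lt (by linarith)) (min_lt_of_left_lt (by linarith))
        linarith
      · have := hstrict y y' (not_lt.1 c2) h (not_lt.1 c1)
        linarith
  have hFc : Continuous F := by
    rw [hF]
    fun_prop
  have hFsurj : Function.Surjective F := by
    refine hFc.surjective ?_ ?_
    · refine tendsto_atTop_mono' atTop ?_ (tendsto_atTop_add_const_right atTop (-α') tendsto_id)
      filter_upwards [eventually_ge_atTop α] with y hy
      rw [hFa]
      have a1 := hmono α y hy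
      have a2 : y - α' ≤ max (y - α') 0 := le_max_left _ _
      have a3 : min (y - α) 0 = 0 := min_eq_right (by linarith)
      simp only [id]
      linarith
    · refine tendsto_atBot_mono' atBot ?_ (tendsto_atBot_add_const_right atBot (-α) tendsto_id)
      filter_upwards [eventually_le_atBot α] with y hy
      rw [hFa]
      have a1 := hmono y α hy
      have a2 : min (y - α) 0 ≤ y - α := min_le_left _ _
      have a3 : max (y - α') 0 = 0 := max_eq_right (by linarith)
      simp only [id]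
      linarith
  obtain ⟨e, he⟩ : ∃ e : ℝ ≃o ℝ, ∀ y, e y = F y :=
    ⟨StrictMono.orderIsoOfSurjective F hFs hFsurj, fun _ => rfl⟩
  have e0 : e α = 0 := by
    rw [he, hFa, hG0, max_eq_right (by linarith), min_eq_right (by linarith)]
    simp
  have e1 : e α' = v := by
    rw [he, hFa, hG1, max_eq_right (by linarith), min_eq_right (by linarith)]
    simp
  have hin : ∀ u ∈ Set.Ioo 0 v, e.symm u ∈ Set.Ioo α α' := by
    intro u hu
    constructor
    · rw [e.lt_symm_apply, e0]
      exact hu.1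
    · rw [e.symm_apply_lt, e1]
      exact hu.2
  have hcl : ∀ u ∈ Set.Ioo 0 v, max α (min α' (e.symm u)) = e.symm u := by
    intro u hu
    have := hin u hu
    rw [min_eq_right this.2.le, max_eq_right this.1.le]
  refine ⟨hv0, fun u => max α (min α' (e.symm u)), ?_, ?_, ?_, ?_, ?_, ?_⟩
  · intro u u' h
    exact max_le_max le_rfl (min_le_min le_rfl (e.symm.monotone h))
  · have := e.symm.continuous
    fun_prop
  · intro u
    exact ⟨le_max_left _ _, max_le hlt.le (min_le_left _ _)⟩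
  · intro u hu
    refine max_eq_left ((min_le_right _ _).trans ?_)
    rw [e.symm_apply_le, e0]
    exact hu
  · intro u hu
    have : α' ≤ e.symm u := by
      rw [e.le_symm_apply, e1]
      exact hu
    show max α (min α' (e.symm u)) = α'
    rw [min_eq_left this, max_eq_right hlt.le]
  · intro u hu
    have hy := hin u hu
    simp only [hcl u hu]
    refine ⟨hy, ?_⟩
    have hnb : Set.Ioo α α' ∈ 𝓝 (e.symm u) := isOpen_Ioo.mem_nhds hy
    have hd : HasDerivAt G (g (e.symm u)) (e.symm u) := by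
      rw [hG]
      exact intervalIntegral.integral_hasDerivAt_right (hii _ _)
        hg.meas.stronglyMeasurable.stronglyMeasurableAtFilter (hg.cont.continuousAt hnb)
    have hd2 : HasDerivAt F (g (e.symm u)) (e.symm u) := by
      refine hd.congr_of_eventuallyEq ?_
      filter_upwards [hnb] with y hy
      rw [hFa, max_eq_right (by linarith [hy.2]), min_eq_right (by linarith [hy.1])]
      simp
    have hd3 : HasDerivAt (fun u => e.symm u) (g (e.symm u))⁻¹ u := by
      refine HasDerivAt.of_local_left_inverse e.symm.continuous.continuousAt hd2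
        (hg.pos _ hy).ne' (Filter.Eventually.of_forall fun y => ?_)
      rw [← he, e.apply_symm_apply]
    refine hd3.congr_of_eventuallyEq ?_
    filter_upwards [isOpen_Ioo.mem_nhds hu] with y hy
    exact hcl y hy

end Pool.Agent.Work.MP_b59478_pr
end
end

-- merged part: Pool.Agent.Work.MP_b59478_pr.W5
section
/-! The one-dimensional problem. quant: G y = integral of g over (alpha, y) is continuous, strictly
increasing on [alpha, alpha'] with derivative g inside; Gi is its inverse, clamped.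
Let A x be the integral of a over Iic x; almost everywhere A has derivative a x (Lebesgue
differentiation), and a = 0 almost everywhere where A is 0 or v. For c > 0 and T = Gi (c A - c0) on
an interval, T' = c a / g (T) almost everywhere where a > 0; with u = sqrt (g (T) / a) the integrand
of Lam is a (2 u + min (c / u ^ 2) M) >= a min (3 gamma) M whenever gamma ^ 3 <= c.
Part one: T = Gi A, K = 0, M = 4 gives Lam >= 3 v, and if Lam <= 3 v then a = g (T) almost everywhere
on a > 0. No gap: if a vanished on a set of positive measure of J = (0 < A < v), take x0 in J where A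
has derivative 0; let T be Gi (v A / A (x0 - h)) left of x0 - h, Gi (v (A - A (x0 + h)) / (v - A (x0 + h)))
right of x0 + h, affine from alpha' to alpha in between, K = (alpha' - alpha) / (2 h); both factors c are
at least c0 > 1, so Lam >= 3 gamma (v - o(1)) - o(1) > 3 v with gamma > 1. Hence a = g (Gi A) almost
everywhere on the open interval J, A is C1 there with derivative g (Gi A), so Gi A has derivative 1:
T x = x + c on J = (x1, x2); at the ends A tends to 0 and v, so x1 + c = alpha, x2 + c = alpha'.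
-/

set_option autoImplicit false

noncomputable section

namespace Pool.Agent.Work.MP_b59478_pr

open Classical Filter Topology MeasureTheory
open scoped symmDiff Pointwise

theorem W5_bdd {f : ℝ → ℝ} {B C : ℝ} (hf : Measurable f) (h1 : ∀ x, |f x| ≤ C)
    (h2 : ∀ x, B < |x| → f x = 0) : Integrable f := by
  have h3 : IntegrableOn f (Set.Icc (-B) B) :=
    Measure.integrableOn_of_bounded (M := C) measure_Icc_lt_top.ne hf.aestronglyMeasurable
      (Eventually.of_forall h1)
  exact h3.integrable_of_forall_notMem_eq_zero fun x hx =>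
    h2 x (not_le.1 fun h => hx (abs_le.1 h))

theorem W5_alg {p q c γ M : ℝ} (hp : 0 < p) (hq : 0 < q) (hγ : 0 < γ) (hc : γ ^ 3 ≤ c)
    (hM : 3 * γ ≤ M) : 3 * γ * p ≤ 2 * Real.sqrt (p * q) + p * min (q⁻¹ * (c * p)) M := by
  have hs : 0 < Real.sqrt (p * q) := Real.sqrt_pos.2 (mul_pos hp hq)
  have h2 : Real.sqrt (p * q) ^ 2 = p * q := Real.sq_sqrt (mul_pos hp hq).le
  generalize Real.sqrt (p * q) = s at hs h2
  rcases le_total M (q⁻¹ * (c * p)) with h | h
  · rw [min_eq_right h]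
    nlinarith only [hs, hM, hp, mul_le_mul_of_nonneg_left hM hp.le]
  · rw [min_eq_left h]
    refine le_of_mul_le_mul_right ?_ (mul_pos hp hq)
    have e : (2 * s + p * (q⁻¹ * (c * p))) * (p * q) = 2 * s * (p * q) + c * p ^ 3 := by
      field_simp
    rw [e, ← h2]
    have h3 : 0 ≤ (s - γ * p) ^ 2 * (2 * s + γ * p) := by positivity
    have h4 : γ ^ 3 * p ^ 3 ≤ c * p ^ 3 := mul_le_mul_of_nonneg_right hc (by positivity)
    nlinarith only [h3, h4]

theorem W5_alg_eq {p q : ℝ} (hp : 0 < p) (hq : 0 < q)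
    (h : 2 * Real.sqrt (p * q) + p * min (q⁻¹ * (1 * p)) 4 ≤ 3 * p) : p = q := by
  have hs : 0 < Real.sqrt (p * q) := Real.sqrt_pos.2 (mul_pos hp hq)
  have h2 : Real.sqrt (p * q) ^ 2 = p * q := Real.sq_sqrt (mul_pos hp hq).le
  generalize Real.sqrt (p * q) = s at hs h2 h
  rcases le_total 4 (q⁻¹ * (1 * p)) with h1 | h1
  · rw [min_eq_right h1] at h
    linarith
  · rw [min_eq_left h1] at h
    have h3 := mul_le_mul_of_nonneg_right h (mul_pos hp hq).le
    have e : (2 * s + p * (q⁻¹ * (1 * p))) * (p * q) = 2 * s * (p * q) + p ^ 3 := by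
      field_simp
    rw [e, ← h2] at h3
    have h4 : (s - p) ^ 2 * (2 * s + p) ≤ 0 := by nlinarith only [h3]
    have h5 : (s - p) ^ 2 ≤ 0 := le_of_mul_le_mul_right (by rwa [zero_mul]) (by linarith)
    have h6 : s = p := sub_eq_zero.1 (pow_eq_zero_iff two_ne_zero |>.1 (le_antisymm h5 (sq_nonneg _)))
    rw [h6, sq] at h2
    exact mul_left_cancel₀ hp.ne' h2

/-- The data of the one-dimensional problem. -/
structure W5_D (a g A Gi : ℝ → ℝ) (α α' v B : ℝ) : Prop where
  hg : Prof g α α'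
  ha : Measurable a
  hB : ∀ x, 0 ≤ a x ∧ a x ≤ B ∧ (B < |x| → a x = 0)
  int : Integrable a
  hav : ∫ x, a x = v
  v_pos : 0 < v
  Gm : Monotone Gi
  Gc : Continuous Gi
  Gmem : ∀ u, Gi u ∈ Set.Icc α α'
  G0 : ∀ u, u ≤ 0 → Gi u = α
  Gv : ∀ u, v ≤ u → Gi u = α'
  Gd : ∀ u ∈ Set.Ioo 0 v, Gi u ∈ Set.Ioo α α' ∧ HasDerivAt Gi (g (Gi u))⁻¹ u
  Am : Monotone A
  Ac : Continuous A
  Amem : ∀ x, A x ∈ Set.Icc 0 v
  lo : A (-B - 1) = 0
  hi : A (B + 1) = v
  sub : ∀ x y, A y - A x = ∫ t in x..y, a t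
  Ad : ∀ᵐ x, HasDerivAt A (a x) x

theorem W5_ex {a g : ℝ → ℝ} {α α' v B : ℝ} (hg : Prof g α α') (ha : Measurable a)
    (hB : ∀ x, 0 ≤ a x ∧ a x ≤ B ∧ (B < |x| → a x = 0)) (hav : ∫ x, a x = v)
    (hgv : ∫ y, g y = v) : ∃ A Gi, W5_D a g A Gi α α' v B := by
  obtain ⟨hv, Gi, g1, g2, g3, g4, g5, g6⟩ := quant hg hgv
  have hi : Integrable a := W5_bdd ha (fun x => by rw [abs_of_nonneg (hB x).1]; exact (hB x).2.1)
    fun x => (hB x).2.2
  have hB0 : 0 ≤ B := (hB 0).1.trans (hB 0).2.1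
  have hs : ∀ x y, (∫ t in (-B - 1)..y, a t) - ∫ t in (-B - 1)..x, a t = ∫ t in x..y, a t :=
    fun x y => intervalIntegral.integral_interval_sub_left hi.intervalIntegrable
      hi.intervalIntegrable
  have hm : Monotone fun x => ∫ t in (-B - 1)..x, a t := fun x y h => by
    have := intervalIntegral.integral_nonneg (μ := volume) h fun u _ => (hB u).1
    rw [← hs] at this
    exact sub_nonneg.1 this
  have hz : ∀ x y, (∀ t ∈ Set.uIcc x y, B < |t|) → ∫ t in x..y, a t = 0 := fun x y h => by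
    rw [intervalIntegral.integral_congr (g := fun _ => 0) fun t ht => (hB t).2.2 (h t ht),
      intervalIntegral.integral_zero]
  have hh : ∫ t in (-B - 1)..(B + 1), a t = v := by
    rw [intervalIntegral.integral_eq_integral_of_support_subset, hav]
    intro x hx
    have h1 := abs_le.1 (not_lt.1 fun h => hx ((hB x).2.2 h))
    exact ⟨by linarith [h1.1], by linarith [h1.2]⟩
  refine ⟨fun x => ∫ t in (-B - 1)..x, a t, Gi, hg, ha, hB, hi, hav, hv, g1, g2, g3, g4, g5, g6, hm,
    intervalIntegral.continuous_primitive (fun _ _ => hi.intervalIntegrable) _,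
    fun x => ⟨?_, ?_⟩, intervalIntegral.integral_same, hh, hs, ?_⟩
  · rcases le_total (-B - 1) x with h | h
    · exact intervalIntegral.integral_nonneg h fun u _ => (hB u).1
    · refine (hz _ _ fun t ht => ?_).ge
      rw [Set.uIcc_of_ge h] at ht
      exact lt_abs.2 (Or.inr (by linarith [ht.2]))
  · rcases le_total x (B + 1) with h | h
    · exact hh ▸ hm h
    · have h1 := hs (B + 1) x
      rw [hz (B + 1) x fun t ht => ?_, hh] at h1
      · exact (sub_eq_zero.1 h1).le
      · rw [Set.uIcc_of_le h] at ht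
        exact lt_abs.2 (Or.inl (by linarith [ht.1]))
  · filter_upwards [LocallyIntegrable.ae_hasDerivAt_integral hi.locallyIntegrable] with x hx
      using hx _

/-- The integrand of `Lam`. -/
def W5_I (a g T : ℝ → ℝ) (M x : ℝ) : ℝ :=
  2 * Real.sqrt (a x * g (T x)) + a x * min (deriv T x) M

theorem W5_deriv {T : ℝ → ℝ} {K : ℝ} (hK : 0 ≤ K) (h : Monotone fun x => T x + K * x) (x : ℝ) :
    -K ≤ deriv T x := by
  by_cases hd : DifferentiableAt ℝ T x
  · have h1 := h.deriv_nonneg (x := x)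
    have h2 : HasDerivAt (fun x => T x + K * x) (deriv T x + K * 1) x :=
      hd.hasDerivAt.add ((hasDerivAt_id x).const_mul K)
    rw [h2.deriv] at h1
    linarith
  · rw [deriv_zero_of_not_differentiableAt hd]
    linarith

namespace W5_D

variable {a g A Gi : ℝ → ℝ} {α α' v B : ℝ} (D : W5_D a g A Gi α α' v B)
include D

theorem low {T : ℝ → ℝ} {K M : ℝ} (hK : 0 ≤ K) (hM : 0 ≤ M)
    (h : Monotone fun x => T x + K * x) (x : ℝ) : -K * a x ≤ W5_I a g T M x := by
  have h1 : -K ≤ min (deriv T x) M := le_min (W5_deriv hK h x) (by linarith)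
  have h2 := mul_le_mul_of_nonneg_left h1 (D.hB x).1
  have h3 := Real.sqrt_nonneg (a x * g (T x))
  unfold W5_I
  linarith

theorem intI {T : ℝ → ℝ} {K M : ℝ} (hK : 0 ≤ K) (hM : 0 ≤ M)
    (h : Monotone fun x => T x + K * x) : Integrable (W5_I a g T M) := by
  obtain ⟨G, hG⟩ := D.hg.bdd
  have hT : Measurable T := by
    have h1 := h.measurable.sub (measurable_id.const_mul K)
    have e : T = (fun x => T x + K * x) - fun x => K * id x := by
      funext x
      simp
    rwa [e]
  refine W5_bdd (B := B) (C := 2 * Real.sqrt (B * G) + B * (K + M)) ?_ (fun x => ?_) fun x hx => ?_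
  · exact ((D.ha.mul (D.hg.meas.comp hT)).sqrt.const_mul 2).add
      (D.ha.mul ((measurable_deriv T).min measurable_const))
  · obtain ⟨b1, b2, -⟩ := D.hB x
    have h1 : Real.sqrt (a x * g (T x)) ≤ Real.sqrt (B * G) :=
      Real.sqrt_le_sqrt (mul_le_mul b2 (hG _).2 (hG _).1 (b1.trans b2))
    have h2 := D.low hK hM h x
    have h3 : a x * min (deriv T x) M ≤ a x * M := mul_le_mul_of_nonneg_left (min_le_right _ _) b1
    have h4 := Real.sqrt_nonneg (B * G)
    have h5 := mul_le_mul_of_nonneg_right b2 hK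
    have h6 := mul_le_mul_of_nonneg_right b2 hM
    have h7 := mul_nonneg b1 hK
    have h8 := mul_nonneg b1 hM
    refine abs_le.2 ⟨by nlinarith only [h2, h4, h5, h6, h8], ?_⟩
    unfold W5_I
    nlinarith only [h1, h3, h5, h6, h7]
  · rw [W5_I, (D.hB x).2.2 hx]
    simp

theorem pt {T : ℝ → ℝ} {c c0 x : ℝ} (hc : 0 < c) (hx : HasDerivAt A (a x) x)
    (hT : T =ᶠ[𝓝 x] fun y => Gi (c * A y - c0)) (hU : ∀ᶠ y in 𝓝 x, c * A y - c0 ∈ Set.Icc 0 v) :
    a x = 0 ∨ (0 < a x ∧ c * A x - c0 ∈ Set.Ioo 0 v ∧ 0 < g (T x) ∧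
      deriv T x = (g (T x))⁻¹ * (c * a x)) := by
  have hd : HasDerivAt (fun y => c * A y - c0) (c * a x) x := (hx.const_mul c).sub_const c0
  by_cases h0 : a x = 0
  · exact Or.inl h0
  have h1 : c * a x ≠ 0 := mul_ne_zero hc.ne' h0
  have h2 : c * A x - c0 ∈ Set.Ioo 0 v := by
    refine ⟨lt_of_le_of_ne hU.self_of_nhds.1 fun e => h1 ?_,
      lt_of_le_of_ne hU.self_of_nhds.2 fun e => h1 ?_⟩
    · exact IsLocalMin.hasDerivAt_eq_zero (hU.mono fun y hy => e ▸ hy.1) hd
    · exact IsLocalMax.hasDerivAt_eq_zero (hU.mono fun y hy => e ▸ hy.2) hd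
  obtain ⟨g1, g2⟩ := D.Gd _ h2
  refine Or.inr ⟨lt_of_le_of_ne (D.hB x).1 (Ne.symm h0), h2, ?_, ?_⟩
  · rw [hT.self_of_nhds]
    exact D.hg.pos _ g1
  · rw [hT.deriv_eq, hT.self_of_nhds]
    exact (HasDerivAt.comp x (h₂ := Gi) (h := fun y => c * A y - c0) g2 hd).deriv

theorem pt' {T : ℝ → ℝ} {c c0 x γ M : ℝ} (hγ : 0 < γ) (hc : γ ^ 3 ≤ c) (hM : 3 * γ ≤ M)
    (hx : HasDerivAt A (a x) x) (hT : T =ᶠ[𝓝 x] fun y => Gi (c * A y - c0))
    (hU : ∀ᶠ y in 𝓝 x, c * A y - c0 ∈ Set.Icc 0 v) : 3 * γ * a x ≤ W5_I a g T M x := by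
  rcases D.pt ((pow_pos hγ 3).trans_le hc) hx hT hU with h | ⟨h1, -, h2, h3⟩
  · rw [W5_I, h]
    simp
  · rw [W5_I, h3]
    exact W5_alg h1 h2 hγ hc hM

theorem mono : Monotone fun x => Gi (A x) + 0 * x := by
  simp only [zero_mul, add_zero]
  exact D.Gm.comp D.Am

theorem one : ∀ᵐ x, 3 * a x ≤ W5_I a g (fun x => Gi (A x)) 4 x := by
  filter_upwards [D.Ad] with x hx
  have := D.pt' (T := fun x => Gi (A x)) (c := 1) (c0 := 0) (M := 4) one_pos (by norm_num)
    (by norm_num) hx (by simp) (Eventually.of_forall fun y => by simpa using D.Amem y)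
  simpa using this

theorem part1 : 3 * v ≤ Lam a g (fun x => Gi (A x)) 4 := by
  have h := integral_mono_ae (D.int.const_mul 3) (D.intI le_rfl (by norm_num) D.mono) D.one
  rwa [integral_const_mul, D.hav] at h

theorem part2 (h : Lam a g (fun x => Gi (A x)) 4 ≤ 3 * v) :
    ∀ᵐ x, a x = 0 ∨ (A x ∈ Set.Ioo 0 v ∧ a x = g (Gi (A x))) := by
  have i1 := D.intI (M := 4) le_rfl (by norm_num) D.mono
  have i2 := D.int.const_mul 3
  have h1 : 0 ≤ᵐ[volume] fun x => W5_I a g (fun x => Gi (A x)) 4 x - 3 * a x :=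
    D.one.mono fun x hx => sub_nonneg.2 hx
  have h2 : ∫ x, (W5_I a g (fun x => Gi (A x)) 4 x - 3 * a x) = 0 := by
    refine le_antisymm ?_ (integral_nonneg_of_ae h1)
    rw [integral_sub i1 i2, integral_const_mul, D.hav]
    exact sub_nonpos.2 h
  filter_upwards [(integral_eq_zero_iff_of_nonneg_ae h1 (i1.sub i2)).1 h2, D.Ad] with x h3 hx
  rcases D.pt (T := fun x => Gi (A x)) (c := 1) (c0 := 0) one_pos hx (by simp)
    (Eventually.of_forall fun y => by simpa using D.Amem y) with h | ⟨h4, h5, h6, h7⟩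
  · exact Or.inl h
  · refine Or.inr ⟨by simpa using h5, W5_alg_eq h4 h6 ?_⟩
    have h8 : W5_I a g (fun x => Gi (A x)) 4 x - 3 * a x = 0 := h3
    rw [W5_I, h7] at h8
    linarith only [h8]

theorem fold {l r γ : ℝ} (hlr : l < r) (h0 : 0 < A l) (h1 : A r < v) (hγ : 0 < γ)
    (c1 : γ ^ 3 ≤ v / A l) (c2 : γ ^ 3 ≤ v / (v - A r)) : ∃ T : ℝ → ℝ,
      (∀ x, T x ∈ Set.Icc α α') ∧ (Monotone fun x => T x + (α' - α) / (r - l) * x) ∧
      3 * γ * v - (3 * γ + (α' - α) / (r - l)) * (A r - A l) ≤ Lam a g T (3 * γ) := by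
  have hα := D.hg.lt
  have hv := D.v_pos
  obtain ⟨K, hK⟩ : ∃ K, K = (α' - α) / (r - l) := ⟨_, rfl⟩
  obtain ⟨p, hp⟩ : ∃ p, p = v / A l := ⟨_, rfl⟩
  obtain ⟨q, hq⟩ : ∃ q, q = v / (v - A r) := ⟨_, rfl⟩
  rw [← hK]
  rw [← hp] at c1
  rw [← hq] at c2
  have K0 : 0 ≤ K := hK ▸ div_nonneg (by linarith) (by linarith)
  have K1 : K * (r - l) = α' - α := by rw [hK, div_mul_cancel₀ _ (by linarith)]
  have p0 : 0 < p := hp ▸ div_pos hv h0
  have p1 : p * A l = v := by rw [hp, div_mul_cancel₀ _ h0.ne']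
  have q0 : 0 < q := hq ▸ div_pos hv (by linarith)
  have q1 : q * (v - A r) = v := by rw [hq, div_mul_cancel₀ _ (by linarith)]
  let T : ℝ → ℝ := fun x =>
    Gi (p * A x - 0) + Gi (q * A x - q * A r) - α - K * (max l (min x r) - l)
  have e1 : ∀ x, l ≤ x → Gi (p * A x - 0) = α' := fun x hx =>
    D.Gv _ (by nlinarith only [p1, hx, p0, mul_le_mul_of_nonneg_left (D.Am hx) p0.le])
  have e2 : ∀ x, x ≤ r → Gi (q * A x - q * A r) = α := fun x hx =>
    D.G0 _ (sub_nonpos.2 (mul_le_mul_of_nonneg_left (D.Am hx) q0.le))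
  have t1 : ∀ x, x ≤ l → T x = Gi (p * A x - 0) := fun x hx => by
    simp only [T]
    rw [e2 x (hx.trans hlr.le), min_eq_left (hx.trans hlr.le), max_eq_left hx]
    ring
  have t2 : ∀ x, r ≤ x → T x = Gi (q * A x - q * A r) := fun x hx => by
    simp only [T]
    rw [e1 x (hlr.le.trans hx), min_eq_right hx, max_eq_right hlr.le, K1]
    ring
  have hm : Monotone fun x => T x + K * x := fun x y h => by
    have m1 : Gi (p * A x - 0) ≤ Gi (p * A y - 0) :=
      D.Gm (sub_le_sub_right (mul_le_mul_of_nonneg_left (D.Am h) p0.le) _)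
    have m2 : Gi (q * A x - q * A r) ≤ Gi (q * A y - q * A r) :=
      D.Gm (sub_le_sub_right (mul_le_mul_of_nonneg_left (D.Am h) q0.le) _)
    have m3 : x - max l (min x r) ≤ y - max l (min y r) := by
      simp only [max_def, min_def]
      split_ifs <;> linarith
    have m4 := mul_le_mul_of_nonneg_left m3 K0
    simp only [T]
    nlinarith only [m1, m2, m4]
  refine ⟨T, fun x => ?_, hm, ?_⟩
  · rcases le_total x l with h | h
    · exact t1 x h ▸ D.Gmem _
    rcases le_total r x with h' | h'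
    · exact t2 x h' ▸ D.Gmem _
    simp only [T]
    rw [e1 x h, e2 x h', min_eq_left h', max_eq_right h]
    constructor
    · nlinarith only [K1, h', K0, mul_le_mul_of_nonneg_left h' K0]
    · nlinarith only [h, K0, mul_le_mul_of_nonneg_left h K0]
  have i1 : Integrable fun x => (3 * γ + K) * (Set.Ioc l r).indicator a x :=
    (D.int.indicator measurableSet_Ioc).const_mul _
  have h2 : ∀ᵐ x, 3 * γ * a x - (3 * γ + K) * (Set.Ioc l r).indicator a x ≤
      W5_I a g T (3 * γ) x := by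
    filter_upwards [D.Ad, Measure.ae_ne volume l] with x hx hl
    by_cases hm' : x ∈ Set.Ioc l r
    · rw [Set.indicator_of_mem hm']
      have := D.low (M := 3 * γ) K0 (by linarith only [hγ]) hm x
      linarith
    rw [Set.indicator_of_notMem hm', mul_zero, sub_zero]
    rcases lt_or_gt_of_ne hl with h | h
    · refine D.pt' hγ c1 le_rfl hx (c0 := 0) ?_ ?_
      · filter_upwards [Iio_mem_nhds h] with y hy using t1 y (le_of_lt hy)
      · filter_upwards [Iio_mem_nhds h] with y hy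
        exact ⟨by nlinarith only [p0, mul_nonneg p0.le (D.Amem y).1],
          by nlinarith only [p1, p0, mul_le_mul_of_nonneg_left (D.Am (le_of_lt hy)) p0.le]⟩
    · have h' : r < x := not_le.1 fun h' => hm' ⟨h, h'⟩
      refine D.pt' hγ c2 le_rfl hx (c0 := q * A r) ?_ ?_
      · filter_upwards [Ioi_mem_nhds h'] with y hy using t2 y (le_of_lt hy)
      · filter_upwards [Ioi_mem_nhds h'] with y hy
        exact ⟨sub_nonneg.2 (mul_le_mul_of_nonneg_left (D.Am (le_of_lt hy)) q0.le),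
          by nlinarith only [q1, q0, mul_le_mul_of_nonneg_left (D.Amem y).2 q0.le]⟩
  have h3 := integral_mono_ae ((D.int.const_mul _).sub i1) (D.intI K0 (by linarith) hm) h2
  simp only [Pi.sub_apply] at h3
  rwa [integral_sub (D.int.const_mul _) i1, integral_const_mul, integral_const_mul, D.hav,
    integral_indicator measurableSet_Ioc, ← intervalIntegral.integral_of_le hlr.le,
    ← D.sub] at h3

theorem nogap {F0 : ℝ} (hF : ∀ (T : ℝ → ℝ) (K M : ℝ), 0 ≤ K → 0 ≤ M →
      (∀ x, T x ∈ Set.Icc α α') → (Monotone fun x => T x + K * x) → Lam a g T M ≤ F0)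
    (h : F0 ≤ 3 * v) {x : ℝ} (hx : A x ∈ Set.Ioo 0 v) (hd : HasDerivAt A 0 x) : False := by
  have hα := D.hg.lt
  have hv := D.v_pos
  obtain ⟨x1, x2⟩ := hx
  have hc : 1 < min (v / A x) (v / (v - A x)) :=
    lt_min ((one_lt_div x1).2 x2) ((one_lt_div (by linarith)).2 (by linarith))
  obtain ⟨γ, γ1, γ2⟩ : ∃ γ : ℝ, 1 < γ ∧ γ ^ 3 ≤ min (v / A x) (v / (v - A x)) := by
    have h1 : ∀ᶠ t in 𝓝 (1 : ℝ), t ^ 3 < min (v / A x) (v / (v - A x)) :=
      (continuous_pow 3).continuousAt.eventually_lt continuousAt_const (by simpa using hc)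
    obtain ⟨t, t1, t2⟩ := ((h1.filter_mono nhdsWithin_le_nhds).and
      (self_mem_nhdsWithin (s := Set.Ioi (1 : ℝ)))).exists
    exact ⟨t, t2, t1.le⟩
  obtain ⟨ε, ε0, ε1, ε2, ε3⟩ : ∃ ε : ℝ, 0 < ε ∧ ε < A x ∧ ε < v - A x ∧
      ε * (6 * γ + (α' - α)) < 3 * (γ - 1) * v := by
    have h1 : ∀ᶠ t in 𝓝 (0 : ℝ), t * (6 * γ + (α' - α)) < 3 * (γ - 1) * v :=
      (continuous_id.mul continuous_const).continuousAt.eventually_lt continuousAt_const
        (by change (0 : ℝ) * _ < _; rw [zero_mul]; nlinarith only [hv, γ1])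
    obtain ⟨t, ⟨⟨t1, t2⟩, t3⟩, t4⟩ :=
      ((((h1.and (gt_mem_nhds x1)).and (gt_mem_nhds (sub_pos.2 x2))).filter_mono
        nhdsWithin_le_nhds).and (self_mem_nhdsWithin (s := Set.Ioi (0 : ℝ)))).exists
    exact ⟨t, t4, t2, t3, t1⟩
  obtain ⟨δ, δ0, hδ⟩ := Metric.eventually_nhds_iff.1
    ((hasDerivAt_iff_isLittleO_nhds_zero.1 hd).def ε0)
  obtain ⟨t, t0, t1, t2⟩ : ∃ t : ℝ, 0 < t ∧ t ≤ 1 ∧ t < δ :=
    ⟨min 1 (δ / 2), lt_min one_pos (by linarith), min_le_left _ _,
      (min_le_right _ _).trans_lt (by linarith)⟩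
  have a1 := hδ (y := t) (by rwa [dist_zero_right, Real.norm_eq_abs, abs_of_pos t0])
  have a2 := hδ (y := -t) (by rwa [dist_zero_right, Real.norm_eq_abs, abs_neg, abs_of_pos t0])
  simp only [smul_zero, sub_zero, Real.norm_eq_abs, abs_neg, abs_of_pos t0] at a1 a2
  have a3 := (abs_le.1 a1).2
  have a4 := (abs_le.1 a2).1
  have a5 : ε * t ≤ ε := mul_le_of_le_one_right ε0.le t1
  have b1 : A (x + -t) ≤ A x := D.Am (by linarith)
  have b2 : A x ≤ A (x + t) := D.Am (by linarith)
  obtain ⟨T, T1, T2, T3⟩ := D.fold (l := x + -t) (r := x + t) (γ := γ) (by linarith) (by linarith)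
    (by linarith) (by linarith)
    (γ2.trans ((min_le_left _ _).trans (div_le_div_of_nonneg_left hv.le (by linarith) b1)))
    (γ2.trans ((min_le_right _ _).trans
      (div_le_div_of_nonneg_left hv.le (by linarith) (by linarith))))
  have e : x + t - (x + -t) = 2 * t := by ring
  rw [e] at T2 T3
  have K0 : 0 ≤ (α' - α) / (2 * t) := div_nonneg (by linarith only [hα]) (by linarith only [t0])
  have h1 := (T3.trans (hF T _ _ K0 (by linarith only [γ1]) T1 T2)).trans h
  have h2 : (3 * γ + (α' - α) / (2 * t)) * (A (x + t) - A (x + -t)) ≤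
      (3 * γ + (α' - α) / (2 * t)) * (2 * (ε * t)) :=
    mul_le_mul_of_nonneg_left (by linarith only [a3, a4]) (by linarith only [γ1, K0])
  have h3 : (3 * γ + (α' - α) / (2 * t)) * (2 * (ε * t)) = 6 * γ * (ε * t) + ε * (α' - α) := by
    field_simp
    ring
  have h4 : 6 * γ * (ε * t) ≤ 6 * γ * ε := mul_le_mul_of_nonneg_left a5 (by linarith only [γ1])
  nlinarith only [ε3, h1, h2, h3, h4]

theorem shift (h : ∀ᵐ x, A x ∈ Set.Ioo 0 v → a x = g (Gi (A x))) :
    ∃ c, ∀ x, A x ∈ Set.Ioo 0 v → Gi (A x) = x + c := by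
  have ho : IsOpen (A ⁻¹' Set.Ioo 0 v) := isOpen_Ioo.preimage D.Ac
  have hc : (A ⁻¹' Set.Ioo 0 v).OrdConnected := Set.ordConnected_Ioo.preimage_mono D.Am
  have hφ : ∀ x, A x ∈ Set.Ioo 0 v → ContinuousAt (fun t => g (Gi (A t))) x := fun x hx =>
    ContinuousAt.comp (f := fun t => Gi (A t)) (D.hg.cont.continuousAt
      (isOpen_Ioo.mem_nhds (D.Gd _ hx).1)) (D.Gc.comp D.Ac).continuousAt
  have hd : ∀ x, A x ∈ Set.Ioo 0 v → HasDerivAt (fun t => Gi (A t) - t) 0 x := fun x hx => by
    have h1 := intervalIntegral.integral_hasDerivAt_right (IntervalIntegrable.refl (a := x))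
      (D.hg.meas.comp (D.Gc.comp D.Ac).measurable).stronglyMeasurable.stronglyMeasurableAtFilter
      (hφ x hx)
    have h2 : HasDerivAt A (g (Gi (A x))) x := by
      refine (h1.const_add (A x)).congr_of_eventuallyEq ?_
      filter_upwards [ho.mem_nhds hx] with y hy
      rw [← sub_eq_iff_eq_add', D.sub]
      refine intervalIntegral.integral_congr_ae (h.mono fun t ht ht' => ht ?_)
      exact hc.uIcc_subset hx hy (Set.uIoc_subset_uIcc ht')
    have h3 := (HasDerivAt.comp x (h₂ := Gi) (h := A) (D.Gd _ hx).2 h2).sub (hasDerivAt_id x)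
    rwa [inv_mul_cancel₀ (D.hg.pos _ (D.Gd _ hx).1).ne', sub_self] at h3
  obtain ⟨c, hc'⟩ := ho.exists_is_const_of_deriv_eq_zero hc.isPreconnected
    (fun x hx => (hd x hx).differentiableAt.differentiableWithinAt) fun x hx => (hd x hx).deriv
  exact ⟨c, fun x hx => by linarith [hc' x hx]⟩

theorem out {c : ℝ} (h : ∀ x, A x ∈ Set.Ioo 0 v → Gi (A x) = x + c) {x : ℝ}
    (hx : x + c ∈ Set.Ioo α α') : A x ∈ Set.Ioo 0 v := by
  have iv : ∀ t ∈ Set.Ioo α α', ∃ y, A y ∈ Set.Ioo 0 v ∧ y + c = t := fun t ht => by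
    obtain ⟨y, hy⟩ := intermediate_value_univ (-B - 1) (B + 1) (D.Gc.comp D.Ac)
      (show t ∈ Set.Icc (Gi (A (-B - 1))) (Gi (A (B + 1))) by
        rw [D.lo, D.G0 0 le_rfl, D.hi, D.Gv v le_rfl]
        exact ⟨ht.1.le, ht.2.le⟩)
    have hy' : Gi (A y) = t := hy
    have h1 : A y ∈ Set.Ioo 0 v :=
      ⟨not_le.1 fun e => ht.1.ne ((D.G0 _ e).symm.trans hy'),
        not_le.1 fun e => ht.2.ne' ((D.Gv _ e).symm.trans hy')⟩
    exact ⟨y, h1, (h y h1).symm.trans hy'⟩
  obtain ⟨y, hy, e⟩ := iv _ hx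
  rwa [add_right_cancel e] at hy

end W5_D

theorem one_dim {a g : ℝ → ℝ} {α α' v B F0 : ℝ} (hg : Prof g α α') (ha : Measurable a)
    (hB : ∀ x, 0 ≤ a x ∧ a x ≤ B ∧ (B < |x| → a x = 0)) (hav : ∫ x, a x = v)
    (hgv : ∫ y, g y = v)
    (hF : ∀ (T : ℝ → ℝ) (K M : ℝ), 0 ≤ K → 0 ≤ M → (∀ x, T x ∈ Set.Icc α α') →
      (Monotone fun x => T x + K * x) → Lam a g T M ≤ F0) :
    3 * v ≤ F0 ∧ (F0 ≤ 3 * v → ∃ c, ∀ᵐ x, a x = g (x + c)) := by
  obtain ⟨A, Gi, D⟩ := W5_ex hg ha hB hav hgv
  have h1 := hF (fun x => Gi (A x)) 0 4 le_rfl (by norm_num) (fun x => D.Gmem _) D.mono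
  refine ⟨D.part1.trans h1, fun h => ?_⟩
  have h2 := D.part2 (h1.trans h)
  have h3 : ∀ᵐ x, A x ∈ Set.Ioo 0 v → a x = g (Gi (A x)) := by
    filter_upwards [h2, D.Ad] with x hx hd hm
    rcases hx with hx | hx
    · exact (D.nogap hF h hm (hx ▸ hd)).elim
    · exact hx.2
  obtain ⟨c, hc⟩ := D.shift h3
  refine ⟨c, ?_⟩
  filter_upwards [h2, h3, Measure.ae_ne volume (α - c), Measure.ae_ne volume (α' - c)]
    with x x2 x3 n1 n2
  by_cases hm : A x ∈ Set.Ioo 0 v
  · rw [x3 hm, hc x hm]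
  · rw [x2.resolve_right fun h => hm h.1, hg.zero _ fun h' => hm (D.out hc ⟨?_, ?_⟩)]
    · exact lt_of_le_of_ne h'.1 fun e => n1 (by linarith)
    · exact lt_of_le_of_ne h'.2 fun e => n2 (by linarith)

end Pool.Agent.Work.MP_b59478_pr
end
end
end

-- merged part: Pool.Agent.Work.MP_b59478_pr.Gas4
section
-- merged part: Pool.Agent.Work.MP_b59478_pr.Topo2
section
/-! Contours.
exists_cut_of_clopen: the four bonds of a unit square are pairwise adjacent, so T meets every
square in an even number of bonds. Let I be the set of x such that an odd number of bonds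
(x + t e_0, 0), t >= 0, lie in T; it is finite (below T it is empty: compare with a far column
using the square rule, or show that the indicator of I changes exactly along T and is zero far
away). The square rule summed along the ray gives cut I = T.
exists_comp_intr: induction on the number of bonds of cut I, removing one component.
lemK: for T clopen in cut K, intr T is constant on K (for star-neighbours x, y of K all bonds in
the hull of x, y are mutually adjacent: use hullPath for intr T, then for intr T symmdiff K);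
then take the component given by exists_comp_intr.
card_comp_ge: along a chain the coordinate i of the base point moves by at most 1, so every
intermediate value is taken. extent_le: every layer between x and y contains a point of I; shoot a
ray in another direction. near_of_small and sconn_near_of_small: a point of intr c lies between
base points of c in every coordinate (ray_up, ray_down).
-/

set_option autoImplicit false

noncomputable section

namespace Pool.Agent.Work.MP_b59478_pr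

open Classical Filter Topology MeasureTheory
open scoped symmDiff Pointwise

/-- The indicator of `T` modulo two. -/
def Topo2_t (T : Finset Bond) (b : Bond) : ZMod 2 := if b ∈ T then 1 else 0

/-- The parity of the number of bonds of `T` on the ray from `x` in direction `e_0`. -/
def Topo2_g (T : Finset Bond) (x : Site) : ZMod 2 :=
  ∑ b ∈ T, if b.2 = 0 ∧ x 0 ≤ b.1 0 ∧ b.1 1 = x 1 ∧ b.1 2 = x 2 then 1 else 0

theorem Topo2_tip_comm (x : Site) (i j : Fin 3) : tip (tip (x, i), j) = tip (tip (x, j), i) := by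
  simp only [tip]
  abel

theorem Topo2_t_cut (S : Finset Site) (b : Bond) :
    Topo2_t (cut S) b = (if b.1 ∈ S then 1 else 0) + (if tip b ∈ S then 1 else 0) := by
  unfold Topo2_t
  by_cases h1 : b.1 ∈ S <;> by_cases h2 : tip b ∈ S <;> simp [mem_cut, h1, h2]
  decide

theorem Topo2_square {S : Finset Site} {T : Finset Bond} (h : Clopen T (cut S)) (x : Site)
    {i j : Fin 3} (hij : i ≠ j) :
    Topo2_t T (x, i) + Topo2_t T (tip (x, i), j) + Topo2_t T (tip (x, j), i) +
      Topo2_t T (x, j) = 0 := by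
  have c : ∀ b ∈ ({(x, i), (tip (x, i), j), (tip (x, j), i), (x, j)} : Set Bond),
      ∀ k, x k ≤ b.1 k ∧ tip b k ≤ x k + 1 := by
    intro b hb k
    rcases hb with rfl | rfl | rfl | rfl <;> simp only [tip_apply] <;> split_ifs <;> omega
  by_cases e : ∃ b ∈ ({(x, i), (tip (x, i), j), (tip (x, j), i), (x, j)} : Set Bond), b ∈ T
  · obtain ⟨b, hb, hT⟩ := e
    have k : ∀ b' ∈ ({(x, i), (tip (x, i), j), (tip (x, j), i), (x, j)} : Set Bond),
        Topo2_t T b' = Topo2_t (cut S) b' := by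
      intro b' hb'
      unfold Topo2_t
      refine if_congr ⟨fun h' => h.1 h', fun h' => h.2 b hT b' h' ?_⟩ rfl rfl
      exact adj_of_cube (c b hb) (c b' hb')
    rw [k _ (by simp), k _ (by simp), k (tip (x, j), i) (by simp), k (x, j) (by simp)]
    simp only [Topo2_t_cut, Topo2_tip_comm x j i]
    generalize (if x ∈ S then (1 : ZMod 2) else 0) = a
    generalize (if tip (x, i) ∈ S then (1 : ZMod 2) else 0) = b
    generalize (if tip (x, j) ∈ S then (1 : ZMod 2) else 0) = c
    generalize (if tip (tip (x, i), j) ∈ S then (1 : ZMod 2) else 0) = d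
    revert a b c d
    decide
  · push Not at e
    unfold Topo2_t
    rw [if_neg (e _ (by simp)), if_neg (e _ (by simp)), if_neg (e (tip (x, j), i) (by simp)),
      if_neg (e (x, j) (by simp))]
    simp

theorem Topo2_g_zero (T : Finset Bond) (x : Site) :
    Topo2_g T x + Topo2_g T (tip (x, 0)) = Topo2_t T (x, 0) := by
  unfold Topo2_g Topo2_t
  rw [← Finset.sum_add_distrib, ← Finset.sum_ite_eq T (x, 0) fun _ => (1 : ZMod 2)]
  refine Finset.sum_congr rfl fun b _ => ?_
  have e0 : tip (x, 0) 0 = x 0 + 1 := by simp [tip_apply]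
  have e1 : tip (x, 0) 1 = x 1 := by simp [tip_apply]
  have e2 : tip (x, 0) 2 = x 2 := by simp [tip_apply]
  rw [e0, e1, e2]
  by_cases hb : (x, (0 : Fin 3)) = b
  · subst hb
    simp
  · rw [if_neg hb]
    have : (b.2 = 0 ∧ x 0 ≤ b.1 0 ∧ b.1 1 = x 1 ∧ b.1 2 = x 2) ↔
        (b.2 = 0 ∧ x 0 + 1 ≤ b.1 0 ∧ b.1 1 = x 1 ∧ b.1 2 = x 2) := by
      constructor
      · rintro ⟨h1, h2, h3, h4⟩
        refine ⟨h1, ?_, h3, h4⟩
        by_contra hc
        refine hb (Prod.ext (funext fun k => ?_) h1.symm)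
        fin_cases k
        · show x 0 = b.1 0
          omega
        · exact h3.symm
        · exact h4.symm
      · rintro ⟨h1, h2, h3, h4⟩
        exact ⟨h1, by omega, h3, h4⟩
    rw [if_congr this rfl rfl]
    exact CharTwo.add_self_eq_zero _

/-- A function invariant under the steps `e_j` inside a set of lines and zero far away is zero. -/
theorem Topo2_line {f : Site → ZMod 2} {P : Site → Prop} {j : Fin 3} {R : ℤ}
    (hP : ∀ x, P x → P (tip (x, j))) (h : ∀ x, P x → f x = f (tip (x, j)))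
    (hR : ∀ x, P x → R < x j → f x = 0) (x : Site) (hx : P x) : f x = 0 := by
  obtain ⟨n, hn⟩ : ∃ n : ℕ, R < x j + n := ⟨(R - x j + 1).toNat, by omega⟩
  induction n generalizing x with
  | zero => exact hR x hx (by simpa using hn)
  | succ n ih =>
    rw [h x hx]
    refine ih _ (hP x hx) ?_
    simp only [tip_apply, if_true]
    push_cast at hn
    omega

theorem exists_cut_of_clopen {S : Finset Site} {T : Finset Bond} (h : Clopen T (cut S)) :
    ∃ I, cut I = T := by
  obtain ⟨R, hR⟩ : ∃ R : ℕ, ∀ b ∈ T, ∀ i, |b.1 i| ≤ (R : ℤ) := by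
    refine ⟨T.sup fun b => Finset.univ.sup fun i => (b.1 i).natAbs, fun b hb i => ?_⟩
    rw [← Int.natCast_natAbs]
    exact_mod_cast (Finset.le_sup (f := fun i => (b.1 i).natAbs) (Finset.mem_univ i)).trans
      (Finset.le_sup (f := fun b : Bond => Finset.univ.sup fun i => (b.1 i).natAbs) hb)
  have t0 : ∀ b : Bond, ∀ i, (R : ℤ) < |b.1 i| → Topo2_t T b = 0 := fun b i hi =>
    if_neg fun hb => absurd (hR b hb i) (not_le.mpr hi)
  have g0 : ∀ x : Site, (R : ℤ) < x 0 ∨ (R : ℤ) < |x 1| ∨ (R : ℤ) < |x 2| → Topo2_g T x = 0 := by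
    intro x hx
    refine Finset.sum_eq_zero fun b hb => if_neg ?_
    rintro ⟨-, h2, h3, h4⟩
    have a0 := hR b hb 0
    have a1 := hR b hb 1
    have a2 := hR b hb 2
    rw [h3] at a1
    rw [h4] at a2
    have := le_abs_self (b.1 0)
    omega
  have step : ∀ b : Bond, Topo2_g T b.1 + Topo2_g T (tip b) = Topo2_t T b := by
    rintro ⟨x, j⟩
    by_cases hj : j = 0
    · subst hj
      exact Topo2_g_zero T x
    · have := Topo2_line (f := fun x => Topo2_g T x + Topo2_g T (tip (x, j)) + Topo2_t T (x, j))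
        (P := fun _ => True) (j := 0) (R := R) (fun _ _ => trivial) (fun x _ => ?_)
        (fun x _ hx => ?_) x trivial
      · revert this
        generalize Topo2_g T x + Topo2_g T (tip (x, j)) = a
        generalize Topo2_t T (x, j) = b
        revert a b
        decide
      · have e1 := Topo2_g_zero T x
        have e2 := Topo2_g_zero T (tip (x, j))
        have e3 := Topo2_square h x hj
        rw [← e1, ← e2, Topo2_tip_comm x j 0] at e3
        revert e3
        generalize Topo2_g T x = a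
        generalize Topo2_g T (tip (x, j)) = b
        generalize Topo2_g T (tip (x, 0)) = c
        generalize Topo2_g T (tip (tip (x, 0), j)) = d
        generalize Topo2_t T (x, j) = e
        generalize Topo2_t T (tip (x, 0), j) = f
        revert a b c d e f
        decide
      · have e : tip (x, j) 0 = x 0 := by simp [tip_apply, Ne.symm hj]
        rw [g0 x (Or.inl hx), g0 _ (Or.inl (by rwa [e])), t0 _ 0 (hx.trans_le (le_abs_self _))]
        simp
  have far : ∀ x : Site, x ∉ cube R → Topo2_g T x = 0 := by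
    intro x hx
    by_cases h0 : x 0 < -(R : ℤ)
    · refine Topo2_line (f := Topo2_g T) (P := fun x => x 0 < -(R : ℤ)) (j := 1) (R := R)
        (fun x hx => by simpa [tip_apply] using hx) (fun x hx => ?_)
        (fun x _ hx => g0 x (Or.inr (Or.inl (hx.trans_le (le_abs_self _))))) x h0
      have e := step (x, 1)
      rw [t0 (x, 1) 0 (by have := neg_le_abs (x 0); show (R : ℤ) < |x 0|; omega)] at e
      revert e
      generalize Topo2_g T (x, 1).1 = a
      generalize Topo2_g T (tip (x, 1)) = b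
      revert a b
      decide
    · refine g0 x ?_
      by_contra hc
      push Not at hc
      refine hx (mem_cube.mpr fun i => ?_)
      fin_cases i
      · exact abs_le.mpr ⟨by simpa using h0, hc.1⟩
      · exact hc.2.1
      · exact hc.2.2
  have mem : ∀ x, x ∈ (cube R).filter (fun x => Topo2_g T x = 1) ↔ Topo2_g T x = 1 := by
    intro x
    rw [Finset.mem_filter]
    refine ⟨fun h => h.2, fun h => ⟨?_, h⟩⟩
    by_contra hc
    rw [far x hc] at h
    exact zero_ne_one h
  refine ⟨(cube R).filter fun x => Topo2_g T x = 1, Finset.ext fun b => ?_⟩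
  rw [mem_cut, mem, mem]
  have e := step b
  have e2 : b ∈ T ↔ Topo2_t T b = 1 := by
    unfold Topo2_t
    by_cases hb : b ∈ T <;> simp [hb]
  rw [e2, ← e]
  generalize Topo2_g T b.1 = a
  generalize Topo2_g T (tip b) = c
  revert a c
  decide

theorem cut_intr {S : Finset Site} {T : Finset Bond} (h : Clopen T (cut S)) :
    cut (intr T) = T := by
  have e := exists_cut_of_clopen h
  unfold intr
  rw [dif_pos e]
  exact e.choose_spec

theorem intr_cut (I : Finset Site) : intr (cut I) = I :=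
  cut_inj (cut_intr (Clopen.refl (cut I)))

theorem Topo2_comp_clopen {T T' : Finset Bond} (h : Clopen T' T) {b : Bond} (hb : b ∈ T') :
    comp T' b = comp T b := by
  ext b'
  rw [mem_comp, mem_comp]
  exact ⟨fun k => ⟨h.1 k.1, k.2.mono h.1⟩, fun k => ⟨(h.conn hb k.2).mem hb, h.conn hb k.2⟩⟩

theorem Topo2_cut_symmDiff {S : Finset Site} {T : Finset Bond} (h : Clopen T (cut S)) :
    cut (S ∆ intr T) = cut S \ T := by
  rw [cut_symmDiff, cut_intr h, symmDiff_of_ge h.1]

theorem exists_comp_intr {I : Finset Site} {x : Site} (hx : x ∈ I) :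
    ∃ b ∈ cut I, x ∈ intr (comp (cut I) b) := by
  induction hn : (cut I).card using Nat.strong_induction_on generalizing I with
  | _ n ih =>
    obtain ⟨t, ht⟩ := ray_up hx 0
    generalize (x + Pi.single 0 (t : ℤ), (0 : Fin 3)) = b at ht
    by_cases hJ : x ∈ intr (comp (cut I) b)
    · exact ⟨b, ht, hJ⟩
    · have hc := comp_clopen (cut I) b
      have e := Topo2_cut_symmDiff hc
      have lt : (cut (I ∆ intr (comp (cut I) b))).card < n := by
        rw [e, ← hn]
        refine Finset.card_lt_card ⟨Finset.sdiff_subset, fun k => ?_⟩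
        exact (Finset.mem_sdiff.mp (k ht)).2 (mem_comp.mpr ⟨ht, Relation.ReflTransGen.refl⟩)
      obtain ⟨b', hb', k⟩ := ih _ lt (I := I ∆ intr (comp (cut I) b))
        (Finset.mem_symmDiff.mpr (Or.inl ⟨hx, hJ⟩)) rfl
      rw [e] at hb' k
      rw [Topo2_comp_clopen hc.sdiff hb'] at k
      exact ⟨b', (Finset.mem_sdiff.mp hb').1, k⟩

theorem Topo2_step {K : Finset Site} {T : Finset Bond} (h : Clopen T (cut K)) {x y : Site}
    (hx : x ∈ K) (hy : y ∈ K) (hn : Near 1 x y) (hI : x ∈ intr T) : y ∈ intr T := by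
  by_contra hc
  obtain ⟨b1, c1, k1⟩ := hullPath (H := (intr T : Set Site)) (x := x) (y := y) hI hc
  obtain ⟨b2, c2, k2⟩ := hullPath (H := ((K ∆ intr T : Finset Site) : Set Site)) (x := y) (y := x)
    (by simp [Set.mem_symmDiff, hy, hc]) (by simp [Set.mem_symmDiff, hx, hI])
  have m1 : b1 ∈ T := by
    rw [← cut_intr h]
    exact mem_cut.mpr c1
  have m2 : b2 ∈ cut K \ T := by
    rw [← Topo2_cut_symmDiff h]
    exact mem_cut.mpr c2
  rw [Finset.mem_sdiff] at m2
  refine m2.2 (h.2 b1 m1 b2 m2.1 (adj_of_cube (z := fun i => min (x i) (y i)) ?_ ?_))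
  · intro i
    have := k1 i
    have := abs_le.mp (hn i)
    push_cast at this
    omega
  · intro i
    have := k2 i
    have := abs_le.mp (hn i)
    push_cast at this
    omega

theorem Topo2_sconn {K : Finset Site} {T : Finset Bond} (h : Clopen T (cut K)) {x y : Site}
    (hc : SConn K x y) (hI : x ∈ intr T) : y ∈ intr T := by
  induction hc with
  | refl => exact hI
  | tail _ k ih => exact Topo2_step h k.1 k.2.1 k.2.2 ih

theorem lemK {K : Finset Site} (hne : K.Nonempty) (hK : ∀ x ∈ K, ∀ y ∈ K, SConn K x y) :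
    ∃ I : Finset Site, Clopen (cut I) (cut K) ∧ IsConn (cut I) ∧ K ⊆ I := by
  obtain ⟨x, hx⟩ := hne
  obtain ⟨b, hb, k⟩ := exists_comp_intr hx
  have hc := comp_clopen (cut K) b
  refine ⟨intr (comp (cut K) b), ?_, ?_, fun y hy => Topo2_sconn hc (hK x hx y hy) k⟩
  · rwa [cut_intr hc]
  · rw [cut_intr hc]
    exact comp_isConn hb

theorem Topo2_ivt {α : Type} {r : α → α → Prop} (f : α → ℤ) (hf : ∀ a b, r a b → |f a - f b| ≤ 1)
    {a b : α} (h : Relation.ReflTransGen r a b) {m : ℤ}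
    (hm : m ∈ Finset.Icc (min (f a) (f b)) (max (f a) (f b))) :
    ∃ c, Relation.ReflTransGen r a c ∧ f c = m := by
  rw [Finset.mem_Icc] at hm
  induction h with
  | refl => exact ⟨a, .refl, by omega⟩
  | @tail b c h1 h2 ih =>
    by_cases e : f c = m
    · exact ⟨c, h1.tail h2, e⟩
    · have := abs_le.mp (hf b c h2)
      exact ih (by omega)

theorem Topo2_card {T : Finset Bond} {u v : ℤ} (i : Fin 3)
    (h : ∀ m ∈ Finset.Icc (min u v) (max u v), ∃ b ∈ T, b.1 i = m) :
    |u - v| + 1 ≤ (T.card : ℤ) := by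
  have s : Finset.Icc (min u v) (max u v) ⊆ T.image fun b => b.1 i := fun m hm =>
    Finset.mem_image.mpr (h m hm)
  have c := (Finset.card_le_card s).trans Finset.card_image_le
  rw [Int.card_Icc] at c
  rcases abs_cases (u - v) with k | k <;> omega

theorem card_comp_ge {T : Finset Bond} {b b1 b2 : Bond} (hb : b ∈ T) (h1 : Conn T b b1)
    (h2 : Conn T b b2) (i : Fin 3) : |b1.1 i - b2.1 i| + 1 ≤ ((comp T b).card : ℤ) := by
  refine Topo2_card i fun m hm => ?_
  obtain ⟨c, hc, e⟩ := Topo2_ivt (fun b : Bond => b.1 i) (fun a b k => by simpa using k.2.2.1 i)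
    (Relation.ReflTransGen.trans h1.symm h2) hm
  have k : Conn T b c := Relation.ReflTransGen.trans h1 hc
  exact ⟨c, mem_comp.mpr ⟨k.mem hb, k⟩, e⟩

theorem Big.card {s : ℕ} {T : Finset Bond} {b : Bond} (hb : b ∈ T) (h : Big s T b) :
    s ≤ (comp T b).card := by
  obtain ⟨b1, b2, h1, h2, k⟩ := h
  unfold Near at k
  push Not at k
  obtain ⟨i, hi⟩ := k
  have := card_comp_ge hb h1 h2 i
  omega

theorem extent_le {I : Finset Site} {x y : Site} (hx : x ∈ I) (h : SConn I x y) (i : Fin 3) :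
    |x i - y i| + 1 ≤ ((cut I).card : ℤ) := by
  refine Topo2_card i fun m hm => ?_
  obtain ⟨c, hc, e⟩ := Topo2_ivt (fun z : Site => z i) (fun a b k => by simpa using k.2.2 i) h hm
  obtain ⟨j, hj⟩ := exists_ne i
  obtain ⟨t, ht⟩ := ray_up (SConn.mem hc hx) j
  exact ⟨_, ht, by simpa [Pi.single_eq_of_ne hj.symm] using e⟩

theorem Topo2_big_mono {s : ℕ} {T T' : Finset Bond} (hT : T' ⊆ T) {b : Bond} (h : Big s T' b) :
    Big s T b := by
  obtain ⟨b1, b2, h1, h2, k⟩ := h
  exact ⟨b1, b2, h1.mono hT, h2.mono hT, k⟩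

theorem Small.mono {s : ℕ} {T T' : Finset Bond} (h : Small s T) (hT : T' ⊆ T) :
    Small s T' := fun b hb k => h b (hT hb) (Topo2_big_mono hT k)

theorem Lg_clopen (s : ℕ) (T : Finset Bond) : Clopen (Lg s T) T := by
  refine ⟨Finset.filter_subset _ _, fun b hb b' hb' ha => ?_⟩
  obtain ⟨hb, b1, b2, h1, h2, k⟩ := Finset.mem_filter.mp hb
  have c : Conn T b' b := Relation.ReflTransGen.single ⟨hb', hb, ha.symm⟩
  exact Finset.mem_filter.mpr ⟨hb', b1, b2, Relation.ReflTransGen.trans c h1,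
    Relation.ReflTransGen.trans c h2, k⟩

theorem allBig_Lg (s : ℕ) (T : Finset Bond) : AllBig s (Lg s T) := by
  intro b hb
  obtain ⟨-, b1, b2, h1, h2, k⟩ := Finset.mem_filter.mp hb
  exact ⟨b1, b2, (Lg_clopen s T).conn hb h1, (Lg_clopen s T).conn hb h2, k⟩

theorem small_sdiff_Lg (s : ℕ) (T : Finset Bond) : Small s (T \ Lg s T) := by
  intro b hb k
  rw [Finset.mem_sdiff] at hb
  exact hb.2 (Finset.mem_filter.mpr ⟨hb.1, Topo2_big_mono Finset.sdiff_subset k⟩)

/-- Points of a set whose boundary is connected and of diameter at most `s`. -/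
theorem near_of_isConn {s : ℕ} {I : Finset Site} (h : ∀ b ∈ cut I, ∀ b' ∈ cut I, Near s b.1 b'.1)
    {x y : Site} (hx : x ∈ I) (hy : y ∈ I) (i : Fin 3) : |x i - y i| + 1 ≤ (s : ℤ) := by
  obtain ⟨t1, h1⟩ := ray_up hx i
  obtain ⟨t2, h2⟩ := ray_up hy i
  obtain ⟨t3, h3⟩ := ray_down hx i
  obtain ⟨t4, h4⟩ := ray_down hy i
  have a := abs_le.mp (h _ h1 _ h4 i)
  have b := abs_le.mp (h _ h2 _ h3 i)
  simp only [Pi.add_apply, Pi.sub_apply, Pi.single_eq_same] at a b
  rcases abs_cases (x i - y i) with k | k <;> omega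

theorem Topo2_near_comp {s : ℕ} {T : Finset Bond} (h : Small s T) {b : Bond} (hb : b ∈ T) :
    ∀ b1 ∈ comp T b, ∀ b2 ∈ comp T b, Near s b1.1 b2.1 := by
  intro b1 h1 b2 h2
  by_contra k
  exact h b hb ⟨b1, b2, (mem_comp.mp h1).2, (mem_comp.mp h2).2, k⟩

theorem near_of_small {s : ℕ} {I : Finset Site} (h : Small s (cut I)) {y : Site} (hy : y ∈ I) :
    ∃ b ∈ cut I, Near s y b.1 := by
  obtain ⟨b, hb, k⟩ := exists_comp_intr hy
  refine ⟨b, hb, fun i => ?_⟩
  obtain ⟨t1, h1⟩ := ray_up k i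
  obtain ⟨t2, h2⟩ := ray_down k i
  rw [cut_intr (comp_clopen (cut I) b)] at h1 h2
  have m : b ∈ comp (cut I) b := mem_comp.mpr ⟨hb, Relation.ReflTransGen.refl⟩
  have a := abs_le.mp (Topo2_near_comp h hb _ h1 _ m i)
  have c := abs_le.mp (Topo2_near_comp h hb _ h2 _ m i)
  simp only [Pi.add_apply, Pi.sub_apply, Pi.single_eq_same] at a c
  exact abs_le.mpr ⟨by omega, by omega⟩

theorem card_le_of_small {s : ℕ} {I : Finset Site} (h : Small s (cut I)) :
    I.card ≤ (2 * s + 1) ^ 3 * (cut I).card := by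
  have sub : I ⊆ (cut I).biUnion fun b => ball b.1 s := by
    intro y hy
    obtain ⟨b, hb, k⟩ := near_of_small h hy
    exact Finset.mem_biUnion.mpr ⟨b, hb, mem_ball.mpr k⟩
  refine (Finset.card_le_card sub).trans (Finset.card_biUnion_le.trans ?_)
  simp [card_ball, mul_comm]

theorem sconn_near_of_small {s : ℕ} {D : Finset Site} (h : Small s (cut D)) {x y : Site}
    (hx : x ∈ D) (hc : SConn D x y) : Near s x y := by
  obtain ⟨b, hb, k⟩ := exists_comp_intr hx
  have c := comp_clopen (cut D) b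
  intro i
  have := near_of_isConn (s := s) (by rw [cut_intr c]; exact Topo2_near_comp h hb) k
    (Topo2_sconn c hc k) i
  omega

end Pool.Agent.Work.MP_b59478_pr
end
end

-- merged part: Pool.Agent.Work.MP_b59478_pr.Anim
section
/-! Counting lattice animals.
animals: prove by induction on a finite universe U that the sum of q ^ card T over the subsets T
of U rooted in P is at most lam ^ card (P inter U), q = 1/243, lam = 1 + 1/81: pick r in P inter U;
if r is not in T then T is rooted in P minus r; otherwise T minus r is rooted in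
(P minus r) union adjF r; and 1 + q * lam ^ 81 <= lam since lam ^ 81 <= e < 3.
exists_roots: one root in each component of size at least s (induction, or image of a choice of
representative). animals_big: T is rooted in P union rho with s * card rho <= card T; sum over the
subsets rho of U of 2 ^ (-s * card rho) * 2 ^ (card P + card rho), and (1 + 2 / 2 ^ s) ^ card U is
at most exp (1/2) <= 2.
-/

set_option autoImplicit false

noncomputable section

namespace Pool.Agent.Work.MP_b59478_pr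

open Classical Filter Topology MeasureTheory
open scoped symmDiff Pointwise

theorem Anim_erase {P T : Finset Bond} (h : Rooted P T) (r : Bond) :
    Rooted (P ∪ adjF r) (T.erase r) := by
  intro b hb
  obtain ⟨hbr, hbT⟩ := Finset.mem_erase.1 hb
  obtain ⟨r0, h0, h1, hc⟩ := h b hbT
  clear hb hbT
  induction hc with
  | refl =>
    exact ⟨r0, Finset.mem_union_left _ h0, Finset.mem_erase.2 ⟨hbr, h1⟩,
      Relation.ReflTransGen.refl⟩
  | @tail c b _ hcb ih =>
    by_cases hc : c = r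
    · subst hc
      exact ⟨b, Finset.mem_union_right _ (mem_adjF.2 hcb.2.2), Finset.mem_erase.2 ⟨hbr, hcb.2.1⟩,
        Relation.ReflTransGen.refl⟩
    · obtain ⟨r1, e1, e2, e3⟩ := ih hc
      exact ⟨r1, e1, e2, e3.tail ⟨Finset.mem_erase.2 ⟨hc, hcb.1⟩,
        Finset.mem_erase.2 ⟨hbr, hcb.2.1⟩, hcb.2.2⟩⟩

theorem Anim_core (U : Finset Bond) : ∀ P : Finset Bond,
    ∑ T ∈ U.powerset.filter (Rooted P), (1 / 243 : ℝ) ^ T.card ≤ (82 / 81 : ℝ) ^ (P ∩ U).card := by
  induction U using Finset.strongInduction with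
  | H U ih =>
  intro P
  rcases (P ∩ U).eq_empty_or_nonempty with he | ⟨r, hr⟩
  · have : U.powerset.filter (Rooted P) ⊆ {∅} := by
      intro T hT
      obtain ⟨h1, h2⟩ := Finset.mem_filter.1 hT
      rw [Finset.mem_singleton, Finset.eq_empty_iff_forall_notMem]
      intro b hb
      obtain ⟨r, e1, e2, -⟩ := h2 b hb
      have : r ∈ P ∩ U := Finset.mem_inter.2 ⟨e1, Finset.mem_powerset.1 h1 e2⟩
      rw [he] at this
      exact Finset.notMem_empty _ this
    refine (Finset.sum_le_sum_of_subset_of_nonneg this fun _ _ _ => by positivity).trans ?_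
    rw [he]
    simp
  obtain ⟨hrP, hrU⟩ := Finset.mem_inter.1 hr
  have hss : U.erase r ⊂ U := Finset.erase_ssubset hrU
  have hk : (P ∩ U).card = (P ∩ U.erase r).card + 1 := by
    rw [Finset.inter_erase, Finset.card_erase_add_one hr]
  rw [← Finset.sum_filter_add_sum_filter_not _ (fun T => r ∈ T)]
  have h1 : ∑ T ∈ (U.powerset.filter (Rooted P)).filter (fun T => ¬ r ∈ T),
      (1 / 243 : ℝ) ^ T.card ≤ (82 / 81 : ℝ) ^ (P ∩ U.erase r).card := by
    refine le_trans (Finset.sum_le_sum_of_subset_of_nonneg ?_ fun _ _ _ => by positivity)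
      (ih _ hss P)
    intro T hT
    simp only [Finset.mem_filter, Finset.mem_powerset] at hT ⊢
    exact ⟨Finset.subset_erase.2 ⟨hT.1.1, hT.2⟩, hT.1.2⟩
  have h2 : ∑ T ∈ (U.powerset.filter (Rooted P)).filter (fun T => r ∈ T),
      (1 / 243 : ℝ) ^ T.card ≤
      (1 / 243 : ℝ) * (82 / 81 : ℝ) ^ ((P ∪ adjF r) ∩ U.erase r).card := by
    have e : ∑ T ∈ (U.powerset.filter (Rooted P)).filter (fun T => r ∈ T),
        (1 / 243 : ℝ) ^ T.card = (1 / 243 : ℝ) *
        ∑ T ∈ ((U.powerset.filter (Rooted P)).filter (fun T => r ∈ T)).image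
          (fun T => T.erase r), (1 / 243 : ℝ) ^ T.card := by
      rw [Finset.sum_image, Finset.mul_sum]
      · refine Finset.sum_congr rfl fun T hT => ?_
        rw [← Finset.card_erase_add_one (Finset.mem_filter.1 hT).2, pow_succ, mul_comm]
      · intro T hT T' hT' e
        have a1 := (Finset.mem_filter.1 hT).2
        have a2 := (Finset.mem_filter.1 hT').2
        rw [← Finset.insert_erase a1, ← Finset.insert_erase a2]
        exact congrArg (insert r) e
    rw [e]
    refine mul_le_mul_of_nonneg_left ?_ (by norm_num)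
    refine le_trans (Finset.sum_le_sum_of_subset_of_nonneg ?_ fun _ _ _ => by positivity)
      (ih _ hss (P ∪ adjF r))
    intro T hT
    obtain ⟨T', hT', rfl⟩ := Finset.mem_image.1 hT
    simp only [Finset.mem_filter, Finset.mem_powerset] at hT' ⊢
    exact ⟨Finset.erase_subset_erase r hT'.1.1, Anim_erase hT'.1.2 r⟩
  have h3 : ((P ∪ adjF r) ∩ U.erase r).card ≤ (P ∩ U.erase r).card + 81 := by
    rw [Finset.union_inter_distrib_right]
    refine (Finset.card_union_le _ _).trans (Nat.add_le_add_left ?_ _)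
    exact (Finset.card_le_card Finset.inter_subset_left).trans (card_adjF r)
  have h4 : (82 / 81 : ℝ) ^ ((P ∪ adjF r) ∩ U.erase r).card ≤
      (82 / 81 : ℝ) ^ (P ∩ U.erase r).card * 3 := by
    refine (pow_le_pow_right₀ (by norm_num) h3).trans ?_
    rw [pow_add]
    exact mul_le_mul_of_nonneg_left (by norm_num) (by positivity)
  rw [hk, pow_succ]
  linarith only [h1, h2, h4]

theorem animals (P : Finset Bond) (𝒯 : Finset (Finset Bond)) (h : ∀ T ∈ 𝒯, Rooted P T) :
    ∑ T ∈ 𝒯, (1 / 243 : ℝ) ^ T.card ≤ 2 ^ P.card := by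
  have hsub : 𝒯 ⊆ (𝒯.biUnion id).powerset.filter (Rooted P) := by
    intro T hT
    exact Finset.mem_filter.2 ⟨Finset.mem_powerset.2 (Finset.subset_biUnion_of_mem id hT), h T hT⟩
  refine (Finset.sum_le_sum_of_subset_of_nonneg hsub fun _ _ _ => by positivity).trans ?_
  refine (Anim_core _ P).trans ?_
  refine (pow_le_pow_left₀ (by norm_num) (by norm_num : (82 / 81 : ℝ) ≤ 2) _).trans ?_
  exact pow_le_pow_right₀ (by norm_num) (Finset.card_le_card Finset.inter_subset_left)

/-- Connected sets through a given bond. -/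
theorem animals_conn (r : Bond) (n : ℕ) {θ : ℝ} (h0 : 0 ≤ θ) (h1 : 243 * θ ≤ 1)
    (𝒯 : Finset (Finset Bond)) (h : ∀ T ∈ 𝒯, r ∈ T ∧ IsConn T ∧ n ≤ T.card) :
    ∑ T ∈ 𝒯, θ ^ T.card ≤ 2 * (243 * θ) ^ n := by
  have ha := animals {r} 𝒯 fun T hT b hb =>
    ⟨r, Finset.mem_singleton_self r, (h T hT).1, (h T hT).2.1 r (h T hT).1 b hb⟩
  rw [Finset.card_singleton, pow_one] at ha
  calc ∑ T ∈ 𝒯, θ ^ T.card ≤ ∑ T ∈ 𝒯, (1 / 243 : ℝ) ^ T.card * (243 * θ) ^ n := by
        refine Finset.sum_le_sum fun T hT => ?_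
        have e : θ ^ T.card = (1 / 243 : ℝ) ^ T.card * (243 * θ) ^ T.card := by
          rw [← mul_pow]
          congr 1
          ring
        rw [e]
        exact mul_le_mul_of_nonneg_left
          (pow_le_pow_of_le_one (by positivity) h1 (h T hT).2.2) (by positivity)
    _ = (∑ T ∈ 𝒯, (1 / 243 : ℝ) ^ T.card) * (243 * θ) ^ n := by rw [Finset.sum_mul]
    _ ≤ 2 * (243 * θ) ^ n := mul_le_mul_of_nonneg_right ha (by positivity)

theorem exists_roots (T : Finset Bond) (s : ℕ) : ∃ ρ ⊆ T, s * ρ.card ≤ T.card ∧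
    ∀ b ∈ T, s ≤ (comp T b).card → ∃ r ∈ ρ, Conn T r b := by
  induction T using Finset.strongInduction with
  | H T ih =>
  by_cases hb : ∃ b ∈ T, s ≤ (comp T b).card
  swap
  · exact ⟨∅, Finset.empty_subset _, by simp, fun b h1 h2 => absurd ⟨b, h1, h2⟩ hb⟩
  obtain ⟨b, hbT, hbs⟩ := hb
  have hbc : b ∈ comp T b := mem_comp.2 ⟨hbT, Relation.ReflTransGen.refl⟩
  have hcl := comp_clopen T b
  have hss : T \ comp T b ⊂ T := Finset.sdiff_ssubset hcl.1 ⟨b, hbc⟩
  obtain ⟨ρ, h1, h2, h3⟩ := ih _ hss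
  refine ⟨insert b ρ, Finset.insert_subset hbT (h1.trans Finset.sdiff_subset), ?_, ?_⟩
  · have e1 := Finset.card_insert_le b ρ
    have e2 := Finset.card_sdiff_add_card_eq_card hcl.1
    have e3 : s * (insert b ρ).card ≤ s * (ρ.card + 1) := Nat.mul_le_mul_left _ e1
    rw [mul_add, mul_one] at e3
    omega
  · intro b' hb' hs
    by_cases hc : b' ∈ comp T b
    · exact ⟨b, Finset.mem_insert_self _ _, (mem_comp.1 hc).2⟩
    · have e1 : b' ∈ T \ comp T b := Finset.mem_sdiff.2 ⟨hb', hc⟩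
      have e2 : comp T b' ⊆ comp (T \ comp T b) b' := by
        intro x hx
        have := hcl.sdiff.conn e1 (mem_comp.1 hx).2
        exact mem_comp.2 ⟨this.mem e1, this⟩
      obtain ⟨r, e3, e4⟩ := h3 b' e1 (hs.trans (Finset.card_le_card e2))
      exact ⟨r, Finset.mem_insert_of_mem e3, e4.mono Finset.sdiff_subset⟩

theorem Anim_sum_pow {α : Type} (U : Finset α) (q : ℝ) :
    ∑ M ∈ U.powerset, q ^ M.card = (1 + q) ^ U.card := by
  have := Finset.sum_pow_mul_eq_add_pow q 1 U
  simp only [one_pow, mul_one] at this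
  rw [this, add_comm]

theorem animals_big (P U : Finset Bond) (s : ℕ) (hs : 4 * U.card ≤ 2 ^ s)
    (𝒯 : Finset (Finset Bond)) (h : ∀ T ∈ 𝒯, T ⊆ U ∧ Anim P s T) :
    ∑ T ∈ 𝒯, (1 / 486 : ℝ) ^ T.card ≤ 2 * 2 ^ P.card := by
  have h1 : ∀ T ∈ 𝒯, (1 / 486 : ℝ) ^ T.card ≤ ∑ ρ ∈ U.powerset,
      if Rooted (P ∪ ρ) T then ((1 / 2 : ℝ) ^ s) ^ ρ.card * (1 / 243 : ℝ) ^ T.card else 0 := by
    intro T hT
    obtain ⟨ρ, e1, e2, e3⟩ := exists_roots T s
    have hr : Rooted (P ∪ ρ) T := by
      intro b hb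
      rcases (h T hT).2 b hb with ⟨r, a1, a2, a3⟩ | a
      · exact ⟨r, Finset.mem_union_left _ a1, a2, a3⟩
      · obtain ⟨r, a1, a2⟩ := e3 b hb a
        exact ⟨r, Finset.mem_union_right _ a1, e1 a1, a2⟩
    refine le_trans ?_ (Finset.single_le_sum (f := fun ρ : Finset Bond =>
      if Rooted (P ∪ ρ) T then ((1 / 2 : ℝ) ^ s) ^ ρ.card * (1 / 243 : ℝ) ^ T.card else 0)
      (fun ρ _ => by split_ifs <;> positivity) (Finset.mem_powerset.2 (e1.trans (h T hT).1)))
    rw [if_pos hr, ← pow_mul, show (1 / 486 : ℝ) = 1 / 2 * (1 / 243) by norm_num, mul_pow]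
    exact mul_le_mul_of_nonneg_right (pow_le_pow_of_le_one (by norm_num) (by norm_num) e2)
      (by positivity)
  refine (Finset.sum_le_sum h1).trans ?_
  rw [Finset.sum_comm]
  have h2 : ∀ ρ ∈ U.powerset, (∑ T ∈ 𝒯,
      if Rooted (P ∪ ρ) T then ((1 / 2 : ℝ) ^ s) ^ ρ.card * (1 / 243 : ℝ) ^ T.card else 0) ≤
      2 ^ P.card * (2 * (1 / 2 : ℝ) ^ s) ^ ρ.card := by
    intro ρ _
    rw [← Finset.sum_filter, ← Finset.mul_sum]
    have a1 := animals (P ∪ ρ) (𝒯.filter fun T => Rooted (P ∪ ρ) T)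
      fun T hT => (Finset.mem_filter.1 hT).2
    have a2 : (2 : ℝ) ^ (P ∪ ρ).card ≤ 2 ^ P.card * 2 ^ ρ.card := by
      rw [← pow_add]
      exact pow_le_pow_right₀ (by norm_num) (Finset.card_union_le _ _)
    refine (mul_le_mul_of_nonneg_left (a1.trans a2) (by positivity)).trans (le_of_eq ?_)
    rw [mul_pow]
    ring
  refine (Finset.sum_le_sum h2).trans ?_
  rw [← Finset.mul_sum, Anim_sum_pow, mul_comm]
  refine mul_le_mul_of_nonneg_right ?_ (by positivity)
  have a1 : (1 + 2 * (1 / 2 : ℝ) ^ s) ^ U.card ≤ Real.exp (2 * (1 / 2 : ℝ) ^ s) ^ U.card := by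
    refine pow_le_pow_left₀ (by positivity) ?_ _
    rw [add_comm]
    exact Real.add_one_le_exp _
  have a2 : (U.card : ℝ) * (2 * (1 / 2 : ℝ) ^ s) ≤ 1 / 2 := by
    have b1 : (4 : ℝ) * U.card ≤ 2 ^ s := by exact_mod_cast hs
    have b2 : (2 : ℝ) ^ s * (1 / 2 : ℝ) ^ s = 1 := by rw [← mul_pow]; norm_num
    have b3 : (0 : ℝ) < (1 / 2 : ℝ) ^ s := by positivity
    nlinarith only [b2, b1, b3]
  refine a1.trans ?_
  rw [← Real.exp_nat_mul]
  refine (Real.exp_le_exp.2 a2).trans ?_
  have b1 : Real.exp (1 / 2) * Real.exp (1 / 2) = Real.exp 1 := by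
    rw [← Real.exp_add]
    norm_num
  have b2 := Real.exp_one_lt_d9
  have b3 := Real.exp_pos (1 / 2)
  nlinarith only [b1, b2, b3]

theorem card_small_subsets {α : Type} (U : Finset α) (j : ℕ) :
    (U.powerset.filter fun ρ => ρ.card ≤ j).card ≤ (U.card + 1) ^ j := by
  induction j with
  | zero =>
    rw [pow_zero]
    refine Finset.card_le_one.2 fun a ha b hb => ?_
    have a1 := (Finset.mem_filter.1 ha).2
    have a2 := (Finset.mem_filter.1 hb).2
    rw [Nat.le_zero, Finset.card_eq_zero] at a1 a2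
    rw [a1, a2]
  | succ j ih =>
    have hsub : (U.powerset.filter fun ρ => ρ.card ≤ j + 1) ⊆
        (U.powerset.filter fun ρ => ρ.card ≤ j) ∪
          U.biUnion fun a => (U.powerset.filter fun ρ => ρ.card ≤ j).image (insert a) := by
      intro ρ hρ
      obtain ⟨a1, a2⟩ := Finset.mem_filter.1 hρ
      by_cases hj : ρ.card ≤ j
      · exact Finset.mem_union_left _ (Finset.mem_filter.2 ⟨a1, hj⟩)
      · obtain ⟨a, ha⟩ : ρ.Nonempty := Finset.card_pos.1 (by omega)
        have a3 := Finset.mem_powerset.1 a1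
        refine Finset.mem_union_right _ (Finset.mem_biUnion.2 ⟨a, a3 ha, ?_⟩)
        refine Finset.mem_image.2 ⟨ρ.erase a, Finset.mem_filter.2 ⟨?_, ?_⟩, Finset.insert_erase ha⟩
        · exact Finset.mem_powerset.2 ((Finset.erase_subset _ _).trans a3)
        · have := Finset.card_erase_add_one ha
          omega
    refine (Finset.card_le_card hsub).trans ((Finset.card_union_le _ _).trans ?_)
    have a1 : (U.biUnion fun a => (U.powerset.filter fun ρ => ρ.card ≤ j).image (insert a)).card ≤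
        U.card * (U.card + 1) ^ j :=
      Finset.card_biUnion_le_card_mul _ _ _ fun a _ => Finset.card_image_le.trans ih
    rw [pow_succ, mul_add, mul_one, mul_comm]
    omega

theorem card_subsets_le {α : Type} (U : Finset α) {μ q : ℝ} (hq : 0 < q) (hq1 : q ≤ 1) :
    ((U.powerset.filter fun M => (M.card : ℝ) ≤ μ).card : ℝ) ≤
      (1 + q) ^ U.card * Real.exp (-(μ * Real.log q)) := by
  rw [← Anim_sum_pow, Finset.sum_mul]
  have hl : Real.log q ≤ 0 := Real.log_nonpos hq.le hq1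
  calc ((U.powerset.filter fun M => (M.card : ℝ) ≤ μ).card : ℝ)
      = ∑ _M ∈ U.powerset.filter fun M => (M.card : ℝ) ≤ μ, (1 : ℝ) := by simp
    _ ≤ ∑ M ∈ U.powerset.filter fun M => (M.card : ℝ) ≤ μ,
          q ^ M.card * Real.exp (-(μ * Real.log q)) := by
        refine Finset.sum_le_sum fun M hM => ?_
        have a1 := (Finset.mem_filter.1 hM).2
        have e : q ^ M.card = Real.exp (M.card * Real.log q) := by
          rw [Real.exp_nat_mul, Real.exp_log hq]
        rw [e, ← Real.exp_add]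
        refine Real.one_le_exp ?_
        nlinarith only [hl, a1]
    _ ≤ ∑ M ∈ U.powerset, q ^ M.card * Real.exp (-(μ * Real.log q)) :=
        Finset.sum_le_sum_of_subset_of_nonneg (Finset.filter_subset _ _)
          fun _ _ _ => by positivity

end Pool.Agent.Work.MP_b59478_pr
end
end

-- merged part: Pool.Agent.Work.MP_b59478_pr.Gas0
section
/-! Peierls estimates for the gas of small contours.
Om_flip, gw_flip: cut (D symmdiff intr T) = cut D minus T; intr T is inside V (sub_box) and has at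
most (2 s + 1) ^ 3 * card T points (card_le_of_small), so the field changes the weight by at most
exp (card T).
peierls: if T is inside cut D let T' be the union of the components of cut D meeting T; it is
clopen, rooted in T, card T' >= card T. For fixed T' the map D to D symmdiff intr T' is injective,
so the weight of these D is at most rho ^ card T' * gZ, rho = exp (1 - 2 beta). Sum over T' with
animals: (243 rho) ^ card T * 2 ^ card T.
tail: let K be the star-component of y in D union D'. lemK gives I with c = cut I connected,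
inside cut K, which is inside cut D union cut D'; card c >= d + 1 (extent_le), and c contains a
bond (y + t e_0, 0) (ray_up) with t + 1 <= card c (ray_down and card_comp_ge). For fixed c the
probability that c is inside cut D union cut D' is at most (2 * 486 rho) ^ card c (choose the part
inside cut D; product of two peierls bounds). Sum over t and over c with animals_conn; with
theta = 243 * 972 * rho <= ph / 4 the total is at most sum over t of 2 theta ^ max (d+1) (t+1).
tail1: take the second gas with s' = 0 or the same gas and use monotonicity.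
-/

set_option autoImplicit false

noncomputable section

namespace Pool.Agent.Work.MP_b59478_pr

open Classical Filter Topology MeasureTheory
open scoped symmDiff Pointwise

theorem Gas0_mem {V D : Finset Site} {X : Finset Bond} {s : ℕ} :
    D ∈ Om V X s ↔ D ⊆ V ∧ Small s (cut D) ∧ Disjoint (cut D) X := by
  simp [Om]

theorem empty_mem_Om (V : Finset Site) (X : Finset Bond) (s : ℕ) : ∅ ∈ Om V X s := by
  rw [Gas0_mem, cut_empty]
  exact ⟨Finset.empty_subset _, fun b hb => absurd hb (Finset.notMem_empty _),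
    Finset.disjoint_empty_left _⟩

theorem gw_pos (β : ℝ) (a : Site → ℝ) (D : Finset Site) : 0 < gw β a D :=
  mul_pos (w_pos β D) (Real.exp_pos _)

theorem gZ_pos (β : ℝ) (V : Finset Site) (X : Finset Bond) (s : ℕ) (a : Site → ℝ) :
    0 < gZ β V X s a :=
  Finset.sum_pos (fun D _ => gw_pos β a D) ⟨∅, empty_mem_Om V X s⟩

theorem gZ_zero (β : ℝ) (V : Finset Site) (X : Finset Bond) (s : ℕ) :
    gZ β V X s (fun _ => 0) = gZ0 β V X s := by
  simp [gZ, gZ0, gw]

theorem gZ0_pos (β : ℝ) (V : Finset Site) (X : Finset Bond) (s : ℕ) : 0 < gZ0 β V X s := by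
  rw [← gZ_zero]
  exact gZ_pos _ _ _ _ _

theorem gZ0_le_Z0 (β : ℝ) (V : Finset Site) (X : Finset Bond) (s : ℕ) :
    gZ0 β V X s ≤ Z0 β V :=
  Finset.sum_le_sum_of_subset_of_nonneg (Finset.filter_subset _ _)
    fun D _ _ => (w_pos β D).le

theorem Om_full {N s : ℕ} (hs : 2 * N + 1 ≤ s) : Om (cube N) ∅ s = (cube N).powerset := by
  ext D
  rw [Gas0_mem, Finset.mem_powerset]
  refine ⟨fun h => h.1, fun h => ⟨h, ?_, Finset.disjoint_empty_right _⟩⟩
  have key : ∀ c ∈ cut D, ∀ i, -(N : ℤ) - 1 ≤ c.1 i ∧ c.1 i ≤ N := by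
    intro c hc i
    rcases mem_bonds.1 (cut_subset_bonds h hc) with k | k
    · have := abs_le.1 (mem_cube.1 k i)
      omega
    · have := abs_le.1 (mem_cube.1 k i)
      rw [tip_apply] at this
      split_ifs at this <;> omega
  rintro b hb ⟨b1, b2, h1, h2, k⟩
  refine k fun i => ?_
  have e1 := key b1 (h1.mem hb) i
  have e2 := key b2 (h2.mem hb) i
  rw [abs_le]
  omega

theorem Gas0_gP (β : ℝ) (V : Finset Site) (X : Finset Bond) (s : ℕ) (a : Site → ℝ)
    (Ev : Finset Site → Prop) : gP β V X s a Ev =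
      (∑ D ∈ Om V X s, if Ev D then gw β a D else 0) / gZ β V X s a := by
  rw [gP, Finset.sum_filter]

theorem gP_nonneg (β : ℝ) (V : Finset Site) (X : Finset Bond) (s : ℕ) (a : Site → ℝ)
    (Ev : Finset Site → Prop) : 0 ≤ gP β V X s a Ev :=
  div_nonneg (Finset.sum_nonneg fun D _ => (gw_pos β a D).le) (gZ_pos _ _ _ _ _).le

theorem gP_le_one (β : ℝ) (V : Finset Site) (X : Finset Bond) (s : ℕ) (a : Site → ℝ)
    (Ev : Finset Site → Prop) : gP β V X s a Ev ≤ 1 :=
  (div_le_one (gZ_pos _ _ _ _ _)).2 (Finset.sum_le_sum_of_subset_of_nonneg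
    (Finset.filter_subset _ _) fun D _ _ => (gw_pos β a D).le)

theorem gP_mono (β : ℝ) (V : Finset Site) (X : Finset Bond) (s : ℕ) (a : Site → ℝ)
    {Ev Ev' : Finset Site → Prop} (h : ∀ D ∈ Om V X s, Ev D → Ev' D) :
    gP β V X s a Ev ≤ gP β V X s a Ev' := by
  refine div_le_div_of_nonneg_right (Finset.sum_le_sum_of_subset_of_nonneg (fun D hD => ?_)
    fun D _ _ => (gw_pos β a D).le) (gZ_pos _ _ _ _ _).le
  rw [Finset.mem_filter] at hD ⊢
  exact ⟨hD.1, h D hD.1 hD.2⟩

/-- Union bound. -/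
theorem gP_exists_le {ι : Type} (β : ℝ) (V : Finset Site) (X : Finset Bond) (s : ℕ)
    (a : Site → ℝ) (t : Finset ι) (Ev : ι → Finset Site → Prop) :
    gP β V X s a (fun D => ∃ i ∈ t, Ev i D) ≤ ∑ i ∈ t, gP β V X s a (Ev i) := by
  simp_rw [Gas0_gP]
  rw [← Finset.sum_div, Finset.sum_comm]
  refine div_le_div_of_nonneg_right (Finset.sum_le_sum fun D _ => ?_) (gZ_pos _ _ _ _ _).le
  have h0 : ∀ i ∈ t, 0 ≤ if Ev i D then gw β a D else 0 := fun i _ => by
    split_ifs
    · exact (gw_pos β a D).le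
    · exact le_rfl
  by_cases h : ∃ i ∈ t, Ev i D
  · obtain ⟨i, hi, he⟩ := h
    rw [if_pos ⟨i, hi, he⟩]
    have := Finset.single_le_sum h0 hi
    rwa [if_pos he] at this
  · rw [if_neg h]
    exact Finset.sum_nonneg h0

theorem Om_flip {V D : Finset Site} {X T : Finset Bond} {s : ℕ} (hV : IsBox V)
    (hD : D ∈ Om V X s) (hT : Clopen T (cut D)) : D ∆ intr T ∈ Om V X s := by
  obtain ⟨h1, h2, h3⟩ := Gas0_mem.1 hD
  have hI : intr T ⊆ V := sub_box hV (by
    rw [cut_intr hT]
    exact hT.1.trans (cut_subset_bonds h1))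
  rw [Gas0_mem, Topo2_cut_symmDiff hT]
  refine ⟨fun x hx => ?_, h2.mono Finset.sdiff_subset,
    Finset.disjoint_of_subset_left Finset.sdiff_subset h3⟩
  rcases Finset.mem_symmDiff.1 hx with k | k
  · exact h1 k.1
  · exact hI k.1

theorem Gas0_sum (a : Site → ℝ) (D I : Finset Site) :
    ∑ x ∈ D, a x ≤ ∑ x ∈ D ∆ I, a x + ∑ x ∈ I, |a x| := by
  have e1 := Finset.sum_inter_add_sum_sdiff D I a
  have e2 := Finset.sum_inter_add_sum_sdiff I D fun x => |a x|
  have e3 : ∑ x ∈ D ∆ I, a x = ∑ x ∈ D \ I, a x + ∑ x ∈ I \ D, a x := by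
    rw [Finset.symmDiff_def, Finset.sum_union disjoint_sdiff_sdiff]
  have e4 : ∑ x ∈ D ∩ I, a x ≤ ∑ x ∈ I ∩ D, |a x| := by
    rw [Finset.inter_comm]
    exact Finset.sum_le_sum fun x _ => le_abs_self _
  have e5 : ∑ x ∈ I \ D, -a x ≤ ∑ x ∈ I \ D, |a x| :=
    Finset.sum_le_sum fun x _ => neg_le_abs _
  rw [Finset.sum_neg_distrib] at e5
  linarith

theorem gw_flip {β : ℝ} {V D : Finset Site} {X T : Finset Bond} {s : ℕ} {a : Site → ℝ}
    (hG : Gas β V s a) (hD : D ∈ Om V X s) (hT : Clopen T (cut D)) :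
    gw β a D ≤ Real.exp (1 - 2 * β) ^ T.card * gw β a (D ∆ intr T) := by
  obtain ⟨-, h2, -⟩ := Gas0_mem.1 hD
  have hc : ((cut D).card : ℝ) = (cut D \ T).card + T.card := by
    exact_mod_cast (Finset.card_sdiff_add_card_eq_card hT.1).symm
  have hI : ((intr T).card : ℝ) ≤ (2 * s + 1) ^ 3 * T.card := by
    have := card_le_of_small (s := s) (I := intr T) (by
      rw [cut_intr hT]
      exact h2.mono hT.1)
    rw [cut_intr hT] at this
    exact_mod_cast this
  have hp : (0 : ℝ) < (2 * s + 1) ^ 3 := by positivity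
  have hs : ∑ x ∈ intr T, |a x| ≤ T.card := by
    have h1 : ∑ x ∈ intr T, |a x| * (2 * (s : ℝ) + 1) ^ 3 ≤ ((intr T).card : ℝ) := by
      simpa using Finset.sum_le_card_nsmul _ _ 1 fun x (_ : x ∈ intr T) => hG.fld x
    rw [← Finset.sum_mul] at h1
    exact le_of_mul_le_mul_right (by linarith) hp
  have := Gas0_sum a D (intr T)
  simp only [gw, w]
  rw [Topo2_cut_symmDiff hT, ← Real.exp_nat_mul, ← Real.exp_add, ← Real.exp_add, ← Real.exp_add,
    hc]
  exact Real.exp_le_exp.2 (by linarith)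

theorem Gas0_rho {β : ℝ} (h : 1000 ≤ β) : Real.exp (1 - 2 * β) ≤ 1 / 2000 := by
  have h1 := Real.add_one_le_exp (2 * β - 1)
  have h2 : Real.exp (1 - 2 * β) * Real.exp (2 * β - 1) = 1 := by
    rw [← Real.exp_add]; simp
  have h3 := Real.exp_pos (1 - 2 * β)
  rw [le_div_iff₀ (by norm_num)]
  nlinarith only [h2, h, h3, h1]

/-- The union of the components of `C` that meet `T`. -/
def Gas0_cl (T C : Finset Bond) : Finset Bond := C.filter fun b => ∃ r ∈ T, r ∈ C ∧ Conn C r b

theorem Gas0_cl_clopen (T C : Finset Bond) : Clopen (Gas0_cl T C) C := by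
  refine ⟨Finset.filter_subset _ _, fun b hb b' hb' ha => ?_⟩
  obtain ⟨h1, r, h2, h3, h4⟩ := Finset.mem_filter.1 hb
  exact Finset.mem_filter.2 ⟨hb', r, h2, h3, Relation.ReflTransGen.tail h4 ⟨h1, hb', ha⟩⟩

theorem Gas0_cl_rooted (T C : Finset Bond) : Rooted T (Gas0_cl T C) := by
  intro b hb
  obtain ⟨-, r, h2, h3, h4⟩ := Finset.mem_filter.1 hb
  have hr : r ∈ Gas0_cl T C :=
    Finset.mem_filter.2 ⟨h3, r, h2, h3, Relation.ReflTransGen.refl⟩
  exact ⟨r, h2, hr, (Gas0_cl_clopen T C).conn hr h4⟩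

theorem Gas0_sub_cl {T C : Finset Bond} (h : T ⊆ C) : T ⊆ Gas0_cl T C := fun r hr =>
  Finset.mem_filter.2 ⟨h hr, r, hr, h hr, Relation.ReflTransGen.refl⟩

theorem Gas0_fibre {β : ℝ} {V : Finset Site} {s : ℕ} {a : Site → ℝ} (hG : Gas β V s a)
    (X T : Finset Bond) (A : Finset (Finset Site))
    (hA : ∀ D ∈ A, D ∈ Om V X s ∧ Clopen T (cut D)) :
    ∑ D ∈ A, gw β a D ≤ Real.exp (1 - 2 * β) ^ T.card * gZ β V X s a := by
  refine (Finset.sum_le_sum fun D hD => gw_flip hG (hA D hD).1 (hA D hD).2).trans ?_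
  rw [← Finset.mul_sum]
  refine mul_le_mul_of_nonneg_left ?_ (by positivity)
  rw [← Finset.sum_image (s := A) (g := fun D => D ∆ intr T) (f := gw β a)
    fun D _ D' _ e => symmDiff_left_injective _ e]
  refine Finset.sum_le_sum_of_subset_of_nonneg (fun E hE => ?_) fun D _ _ => (gw_pos β a D).le
  obtain ⟨D, hD, rfl⟩ := Finset.mem_image.1 hE
  exact Om_flip hG.box (hA D hD).1 (hA D hD).2

theorem peierls {β : ℝ} {V : Finset Site} {s : ℕ} {a : Site → ℝ} (hG : Gas β V s a)
    (X T : Finset Bond) :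
    gP β V X s a (fun D => T ⊆ cut D) ≤ (486 * Real.exp (1 - 2 * β)) ^ T.card := by
  have hρ := Gas0_rho hG.hβ
  have hρ0 := Real.exp_pos (1 - 2 * β)
  have hZ := gZ_pos β V X s a
  rw [gP, div_le_iff₀ hZ]
  suffices H : ∀ A : Finset (Finset Site), (∀ D ∈ A, D ∈ Om V X s ∧ T ⊆ cut D) →
      ∑ D ∈ A, gw β a D ≤ (486 * Real.exp (1 - 2 * β)) ^ T.card * gZ β V X s a from
    H _ fun D hD => by simpa only [Finset.mem_filter] using hD
  intro A hA'
  set ρ := Real.exp (1 - 2 * β) with hρd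
  rw [← Finset.sum_fiberwise_of_maps_to (g := fun D => Gas0_cl T (cut D))
    (t := A.image fun D => Gas0_cl T (cut D)) fun D hD => Finset.mem_image_of_mem _ hD]
  have h1 : ∀ T' ∈ A.image fun D => Gas0_cl T (cut D),
      ∑ D ∈ A with Gas0_cl T (cut D) = T', gw β a D ≤
        (243 * ρ) ^ T.card * gZ β V X s a * (1 / 243 : ℝ) ^ T'.card := by
    intro T' hT'
    refine (Gas0_fibre hG X T' _ fun D hD => ?_).trans ?_
    · obtain ⟨k1, k2⟩ := Finset.mem_filter.1 hD
      exact ⟨(hA' D k1).1, k2 ▸ Gas0_cl_clopen T (cut D)⟩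
    · obtain ⟨D, hD, rfl⟩ := Finset.mem_image.1 hT'
      have hc := Finset.card_le_card (Gas0_sub_cl (hA' D hD).2)
      have h2 : (243 * ρ) ^ (Gas0_cl T (cut D)).card ≤ (243 * ρ) ^ T.card :=
        pow_le_pow_of_le_one (by positivity) (by linarith only [hρ, hρ0]) hc
      have h3 : ρ ^ (Gas0_cl T (cut D)).card =
          (243 * ρ) ^ (Gas0_cl T (cut D)).card * (1 / 243 : ℝ) ^ (Gas0_cl T (cut D)).card := by
        rw [← mul_pow]; congr 1; ring
      rw [← hρd, h3, mul_right_comm]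
      gcongr
  refine (Finset.sum_le_sum h1).trans ?_
  rw [← Finset.mul_sum]
  have h2 := animals T (A.image fun D => Gas0_cl T (cut D)) fun T' hT' => by
    obtain ⟨D, -, rfl⟩ := Finset.mem_image.1 hT'
    exact Gas0_cl_rooted _ _
  refine (mul_le_mul_of_nonneg_left h2 (by positivity)).trans (le_of_eq ?_)
  rw [mul_right_comm, ← mul_pow]
  congr 2
  ring

theorem gP_cut {β : ℝ} {V : Finset Site} {s : ℕ} {a : Site → ℝ} (hG : Gas β V s a)
    (X : Finset Bond) (b : Bond) : gP β V X s a (fun D => b ∈ cut D) ≤ 1 / 2 := by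
  have h1 := peierls hG X {b}
  have h2 := Gas0_rho hG.hβ
  simp only [Finset.singleton_subset_iff, Finset.card_singleton, pow_one] at h1
  linarith only [h2, h1]

theorem gZ_insert (β : ℝ) (V : Finset Site) (X : Finset Bond) (s : ℕ) (a : Site → ℝ) (b : Bond) :
    gZ β V (insert b X) s a = gZ β V X s a * (1 - gP β V X s a fun D => b ∈ cut D) := by
  have hZ := gZ_pos β V X s a
  rw [Gas0_gP, mul_sub, mul_one, mul_div_cancel₀ _ hZ.ne']
  have e : Om V (insert b X) s = (Om V X s).filter fun D => b ∉ cut D := by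
    ext D
    rw [Finset.mem_filter, Gas0_mem, Gas0_mem, Finset.disjoint_insert_right]
    tauto
  rw [gZ, gZ, e, Finset.sum_filter, ← Finset.sum_sub_distrib]
  refine Finset.sum_congr rfl fun D _ => ?_
  by_cases h : b ∈ cut D <;> simp [h]

theorem gZ_anti (β : ℝ) (V : Finset Site) {X X' : Finset Bond} (h : X ⊆ X') (s : ℕ)
    (a : Site → ℝ) : gZ β V X' s a ≤ gZ β V X s a := by
  refine Finset.sum_le_sum_of_subset_of_nonneg (fun D hD => ?_) fun D _ _ => (gw_pos β a D).le
  rw [Gas0_mem] at hD ⊢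
  exact ⟨hD.1, hD.2.1, Finset.disjoint_of_subset_right h hD.2.2⟩

theorem gZ_le {β : ℝ} {V : Finset Site} {s : ℕ} {a : Site → ℝ} (hG : Gas β V s a)
    (X X' : Finset Bond) : gZ β V X s a ≤ 2 ^ (X' \ X).card * gZ β V X' s a := by
  have key : ∀ Y : Finset Bond, gZ β V X s a ≤ 2 ^ Y.card * gZ β V (Y ∪ X) s a := by
    intro Y
    induction Y using Finset.induction_on with
    | empty => simp
    | insert b Y hb ih =>
      rw [Finset.card_insert_of_notMem hb, Finset.insert_union, gZ_insert, pow_succ]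
      have h1 := gP_cut hG (Y ∪ X) b
      have h2 : 0 < 2 ^ Y.card * gZ β V (Y ∪ X) s a := mul_pos (by positivity) (gZ_pos _ _ _ _ _)
      nlinarith only [ih, h1, h2]
  refine (key (X' \ X)).trans (mul_le_mul_of_nonneg_left (gZ_anti β V ?_ s a) (by positivity))
  intro b hb
  rw [Finset.mem_union, Finset.mem_sdiff]
  tauto

end Pool.Agent.Work.MP_b59478_pr
end
end

-- merged part: Pool.Agent.Work.MP_b59478_pr.Gas1
section
/-! Peierls estimates for the gas of small contours.
Om_flip, gw_flip: cut (D symmdiff intr T) = cut D minus T; intr T is inside V (sub_box) and has at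
most (2 s + 1) ^ 3 * card T points (card_le_of_small), so the field changes the weight by at most
exp (card T).
peierls: if T is inside cut D let T' be the union of the components of cut D meeting T; it is
clopen, rooted in T, card T' >= card T. For fixed T' the map D to D symmdiff intr T' is injective,
so the weight of these D is at most rho ^ card T' * gZ, rho = exp (1 - 2 beta). Sum over T' with
animals: (243 rho) ^ card T * 2 ^ card T.
tail: let K be the star-component of y in D union D'. lemK gives I with c = cut I connected,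
inside cut K, which is inside cut D union cut D'; card c >= d + 1 (extent_le), and c contains a
bond (y + t e_0, 0) (ray_up) with t + 1 <= card c (ray_down and card_comp_ge). For fixed c the
probability that c is inside cut D union cut D' is at most (2 * 486 rho) ^ card c (choose the part
inside cut D; product of two peierls bounds). Sum over t and over c with animals_conn; with
theta = 243 * 972 * rho <= ph / 4 the total is at most sum over t of 2 theta ^ max (d+1) (t+1).
tail1: take the second gas with s' = 0 or the same gas and use monotonicity.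
-/

set_option autoImplicit false

noncomputable section

namespace Pool.Agent.Work.MP_b59478_pr

open Classical Filter Topology MeasureTheory
open scoped symmDiff Pointwise

/-- Union bound for two independent gases with product events. -/
theorem Gas1_union {ι : Type} (β : ℝ) (V V' : Finset Site) (X X' : Finset Bond) (s s' : ℕ)
    (a a' : Site → ℝ) (t : Finset ι) (P Q : ι → Finset Site → Prop)
    (Ev : Finset Site → Finset Site → Prop)
    (h : ∀ D ∈ Om V X s, ∀ D' ∈ Om V' X' s', Ev D D' → ∃ i ∈ t, P i D ∧ Q i D') :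
    g2P β V X s a V' X' s' a' Ev ≤ ∑ i ∈ t, gP β V X s a (P i) * gP β V' X' s' a' (Q i) := by
  have hZ := gZ_pos β V X s a
  have hZ' := gZ_pos β V' X' s' a'
  unfold g2P gP
  simp only [div_mul_div_comm]
  rw [← Finset.sum_div]
  refine div_le_div_of_nonneg_right ?_ (mul_pos hZ hZ').le
  simp only [Finset.sum_filter, Finset.sum_mul_sum]
  rw [Finset.sum_comm (s := t)]
  refine Finset.sum_le_sum fun D hD => ?_
  rw [Finset.sum_comm (s := t)]
  refine Finset.sum_le_sum fun D' hD' => ?_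
  have p1 := gw_pos β a D
  have p2 := gw_pos β a' D'
  have nn : ∀ i ∈ t, 0 ≤ (if P i D then gw β a D else 0) * (if Q i D' then gw β a' D' else 0) := by
    intro i _
    refine mul_nonneg ?_ ?_ <;> split_ifs <;> positivity
  split_ifs with hE
  · obtain ⟨i, hi, h1, h2⟩ := h D hD D' hD' hE
    refine le_trans ?_ (Finset.single_le_sum nn hi)
    rw [if_pos h1, if_pos h2]
  · exact Finset.sum_nonneg nn

theorem Gas1_le_two (β : ℝ) (V : Finset Site) (X : Finset Bond) (s : ℕ) (a : Site → ℝ)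
    (Ev : Finset Site → Prop) (Ev2 : Finset Site → Finset Site → Prop)
    (h : ∀ D D', Ev D → Ev2 D D') :
    gP β V X s a Ev ≤ g2P β V X s a V X s a Ev2 := by
  have hZ := gZ_pos β V X s a
  unfold g2P gP
  rw [div_le_div_iff₀ hZ (mul_pos hZ hZ), ← mul_assoc]
  refine mul_le_mul_of_nonneg_right ?_ hZ.le
  rw [Finset.sum_filter, Finset.sum_mul]
  refine Finset.sum_le_sum fun D _ => ?_
  split_ifs with hE
  · rw [Finset.filter_true_of_mem fun D' _ => h D D' hE, ← Finset.mul_sum]
    exact le_rfl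
  · rw [zero_mul]
    exact Finset.sum_nonneg fun D' _ => (mul_pos (gw_pos β a D) (gw_pos β a D')).le

theorem Gas1_sconn_filter {S : Finset Site} {y x : Site} (h : SConn S y x) :
    SConn (S.filter (SConn S y)) y x := by
  induction h with
  | refl => exact Relation.ReflTransGen.refl
  | tail h1 h2 ih =>
    refine Relation.ReflTransGen.tail ih ⟨Finset.mem_filter.2 ⟨h2.1, h1⟩,
      Finset.mem_filter.2 ⟨h2.2.1, Relation.ReflTransGen.tail h1 h2⟩, h2.2.2⟩

theorem Gas1_cut_filter (D D' : Finset Site) (y : Site) :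
    cut ((D ∪ D').filter (SConn (D ∪ D') y)) ⊆ cut D ∪ cut D' := by
  intro b hb
  rw [mem_cut] at hb
  simp only [Finset.mem_filter] at hb
  have k : ¬ (b.1 ∈ D ∪ D' ↔ tip b ∈ D ∪ D') := by
    intro e
    refine hb ⟨fun h => ⟨e.1 h.1, ?_⟩, fun h => ⟨e.2 h.1, ?_⟩⟩
    · exact Relation.ReflTransGen.tail h.2 ⟨h.1, e.1 h.1, near_tip b⟩
    · exact Relation.ReflTransGen.tail h.2 ⟨h.1, e.2 h.1, (near_tip b).symm⟩
  simp only [Finset.mem_union, mem_cut] at k ⊢
  by_contra hc
  obtain ⟨c1, c2⟩ := not_or.1 hc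
  exact k (or_congr (not_not.1 c1) (not_not.1 c2))

/-- A long star-component is surrounded by a long connected contour near its base point. -/
theorem Gas1_geo {D D' : Finset Site} {y z : Site} {d : ℕ} {i : Fin 3} (hy : y ∈ D ∪ D')
    (hz : SConn (D ∪ D') y z) (hd : (d : ℤ) ≤ |z i - y i|) :
    ∃ (t : ℕ) (c : Finset Bond), c ⊆ cut D ∪ cut D' ∧
      (y + Pi.single 0 (t : ℤ), (0 : Fin 3)) ∈ c ∧ IsConn c ∧ d + 1 ≤ c.card ∧
      t + 1 ≤ c.card := by
  have hyK : y ∈ (D ∪ D').filter (SConn (D ∪ D') y) :=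
    Finset.mem_filter.2 ⟨hy, Relation.ReflTransGen.refl⟩
  obtain ⟨I, hI, hc, hK⟩ := lemK ⟨y, hyK⟩ fun x hx x' hx' =>
    Relation.ReflTransGen.trans (Gas1_sconn_filter (Finset.mem_filter.1 hx).2).symm
      (Gas1_sconn_filter (Finset.mem_filter.1 hx').2)
  have hyI := hK hyK
  obtain ⟨t, ht⟩ := ray_up hyI 0
  obtain ⟨t', ht'⟩ := ray_down hyI 0
  refine ⟨t, cut I, hI.1.trans (Gas1_cut_filter D D' y), ht, hc, ?_, ?_⟩
  · have := extent_le hyI ((Gas1_sconn_filter hz).mono hK) i
    rw [abs_sub_comm] at this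
    omega
  · have h1 := card_comp_ge ht Relation.ReflTransGen.refl (hc _ ht _ ht') 0
    have h2 : (comp (cut I) (y + Pi.single 0 (t : ℤ), (0 : Fin 3))).card ≤ (cut I).card :=
      Finset.card_le_card (comp_clopen _ _).1
    simp only [Pi.add_apply, Pi.sub_apply, Pi.single_eq_same] at h1
    have h3 := le_abs_self (y 0 + (t : ℤ) - (y 0 - ((t' : ℤ) + 1)))
    omega

theorem Gas1_small {β : ℝ} (hβ : 1000 ≤ β) :
    243 * (2 * (486 * Real.exp (1 - 2 * β))) ≤ ph ^ 2 := by
  have h1 : Real.exp (1 - 2 * β) ≤ Real.exp (-((40 : ℕ) * 1)) :=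
    Real.exp_le_exp.2 (by push_cast; linarith)
  have h2 : (2 : ℝ) ^ 40 ≤ Real.exp ((40 : ℕ) * 1) := by
    rw [Real.exp_nat_mul]
    refine pow_le_pow_left₀ (by norm_num) ?_ _
    have := Real.add_one_le_exp 1
    linarith
  have h3 : Real.exp (-((40 : ℕ) * 1)) ≤ ((2 : ℝ) ^ 40)⁻¹ := by
    rw [Real.exp_neg]
    exact inv_anti₀ (by positivity) h2
  have h4 : Real.exp (1 - 2 * β) ≤ ((2 : ℝ) ^ 40)⁻¹ := h1.trans h3
  unfold ph
  norm_num at h4 ⊢
  linarith only [h4]

theorem Gas1_geom (M : ℕ) : ∑ t ∈ Finset.range M, 2 * ph ^ (t + 1) ≤ 1 - ph ^ M := by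
  induction M with
  | zero => simp
  | succ M ih =>
    rw [Finset.sum_range_succ, pow_succ]
    have : 0 < ph ^ M := by
      unfold ph
      positivity
    have e : ph = 1 / 1000 := rfl
    generalize ph ^ M = u at *
    rw [e] at *
    linarith only [ih, this]

theorem tail {β : ℝ} {V V' : Finset Site} {s s' : ℕ} {a a' : Site → ℝ} (hG : Gas β V s a)
    (hG' : Gas β V' s' a') (X X' : Finset Bond) (y : Site) (d : ℕ) :
    g2P β V X s a V' X' s' a' (fun D D' => y ∈ D ∪ D' ∧
      ∃ z, SConn (D ∪ D') y z ∧ ∃ i, (d : ℤ) ≤ |z i - y i|) ≤ ph ^ (d + 1) := by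
  set ρ : ℝ := 486 * Real.exp (1 - 2 * β) with hρ
  have ρ0 : 0 ≤ ρ := by positivity
  have hph : 0 < ph := by
    unfold ph
    norm_num
  have hph1 : ph ≤ 1 := by
    unfold ph
    norm_num
  have hθ : 243 * (2 * ρ) ≤ ph ^ 2 := Gas1_small hG.hβ
  let U : Finset Bond := bonds V ∪ bonds V'
  let 𝒯 : ℕ → Finset (Finset Bond) := fun t => U.powerset.filter fun c =>
    (y + Pi.single 0 (t : ℤ), (0 : Fin 3)) ∈ c ∧ IsConn c ∧ max (d + 1) (t + 1) ≤ c.card
  refine (Gas1_union β V V' X X' s s' a a'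
    ((Finset.range U.card).sigma fun t => (𝒯 t).sigma fun c => c.powerset)
    (fun q D => q.2.2 ⊆ cut D) (fun q D' => q.2.1 \ q.2.2 ⊆ cut D') _ ?_).trans ?_
  · rintro D hD D' hD' ⟨hy, z, hz, i, hd⟩
    obtain ⟨t, c, h1, h2, h3, h4, h5⟩ := Gas1_geo hy hz hd
    have hU : c ⊆ U := h1.trans (Finset.union_subset_union
      (cut_subset_bonds (Finset.mem_powerset.1 (Finset.mem_filter.1 hD).1))
      (cut_subset_bonds (Finset.mem_powerset.1 (Finset.mem_filter.1 hD').1)))
    have hc := Finset.card_le_card hU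
    refine ⟨⟨t, c, c ∩ cut D⟩, ?_, Finset.inter_subset_right, ?_⟩
    · simp only [Finset.mem_sigma, Finset.mem_range, Finset.mem_powerset, 𝒯, Finset.mem_filter]
      exact ⟨by omega, ⟨hU, h2, h3, max_le h4 h5⟩, Finset.inter_subset_left⟩
    · intro b hb
      simp only [Finset.mem_sdiff, Finset.mem_inter, not_and] at hb
      exact (Finset.mem_union.1 (h1 hb.1)).resolve_left (hb.2 hb.1)
  · rw [Finset.sum_sigma]
    have step : ∀ t ∈ Finset.range U.card,
        ∑ q ∈ (𝒯 t).sigma (fun c => c.powerset),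
          gP β V X s a (fun D => q.2 ⊆ cut D) * gP β V' X' s' a' (fun D' => q.1 \ q.2 ⊆ cut D') ≤
        ph ^ (d + 1) * (2 * ph ^ (t + 1)) := by
      intro t _
      rw [Finset.sum_sigma]
      have h1 : ∀ c ∈ 𝒯 t, ∑ T ∈ c.powerset,
          gP β V X s a (fun D => T ⊆ cut D) * gP β V' X' s' a' (fun D' => c \ T ⊆ cut D') ≤
          (2 * ρ) ^ c.card := by
        intro c _
        calc _ ≤ ∑ T ∈ c.powerset, ρ ^ c.card := by
              refine Finset.sum_le_sum fun T hT => ?_
              refine (mul_le_mul (peierls hG X T) (peierls hG' X' (c \ T))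
                (gP_nonneg _ _ _ _ _ _) (by positivity)).trans_eq ?_
              rw [← pow_add, add_comm, Finset.card_sdiff_add_card_eq_card
                (Finset.mem_powerset.1 hT)]
          _ = (2 * ρ) ^ c.card := by
              rw [Finset.sum_const, Finset.card_powerset, nsmul_eq_mul, mul_pow 2 ρ]
              push_cast
              rfl
      refine (Finset.sum_le_sum h1).trans ?_
      have h2 : ph ^ 2 ≤ 1 := pow_le_one₀ hph.le hph1
      refine (animals_conn (y + Pi.single 0 (t : ℤ), (0 : Fin 3)) (max (d + 1) (t + 1))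
        (by positivity) (hθ.trans h2) (𝒯 t) fun c hc => (Finset.mem_filter.1 hc).2).trans ?_
      have h3 : (243 * (2 * ρ)) ^ max (d + 1) (t + 1) ≤ ph ^ (d + 1) * ph ^ (t + 1) := by
        refine (pow_le_pow_left₀ (by positivity) hθ _).trans ?_
        rw [← pow_mul, ← pow_add]
        exact pow_le_pow_of_le_one hph.le hph1 (by omega)
      linarith
    refine (Finset.sum_le_sum step).trans ?_
    rw [← Finset.mul_sum]
    have h4 := Gas1_geom U.card
    have h5 : 0 < ph ^ U.card := by positivity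
    have h6 : 0 < ph ^ (d + 1) := by positivity
    nlinarith only [h4, h6, h5]

theorem tail1 {β : ℝ} {V : Finset Site} {s : ℕ} {a : Site → ℝ} (hG : Gas β V s a)
    (X : Finset Bond) (y : Site) (d : ℕ) :
    gP β V X s a (fun D => y ∈ D ∧ ∃ z, SConn D y z ∧ ∃ i, (d : ℤ) ≤ |z i - y i|) ≤
      ph ^ (d + 1) := by
  refine le_trans (Gas1_le_two β V X s a _ _ ?_) (tail hG hG X X y d)
  rintro D D' ⟨hy, z, hz, hi⟩
  exact ⟨Finset.mem_union_left _ hy, z, hz.mono Finset.subset_union_left, hi⟩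

theorem gP_mem {β : ℝ} {V : Finset Site} {s : ℕ} {a : Site → ℝ} (hG : Gas β V s a)
    (X : Finset Bond) (x : Site) : gP β V X s a (fun D => x ∈ D) ≤ ph := by
  have h := tail1 hG X x 0
  rw [zero_add, pow_one] at h
  refine le_trans (gP_mono β V X s a fun D _ hx => ?_) h
  exact ⟨hx, x, Relation.ReflTransGen.refl, 0, by simp⟩

end Pool.Agent.Work.MP_b59478_pr
end
end

-- merged part: Pool.Agent.Work.MP_b59478_pr.Asym
section
/-! Asymptotics of the cut-off sN.
-/

set_option autoImplicit false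

noncomputable section

namespace Pool.Agent.Work.MP_b59478_pr

open Classical Filter Topology MeasureTheory
open scoped symmDiff Pointwise

theorem sN_pow_le (N : ℕ) : sN N ^ 8 ≤ N := by
  unfold sN
  have h1 := Nat.sqrt_le' N
  have h2 := Nat.sqrt_le' (Nat.sqrt N)
  have h3 := Nat.sqrt_le' (Nat.sqrt (Nat.sqrt N))
  calc Nat.sqrt (Nat.sqrt (Nat.sqrt N)) ^ 8 = ((Nat.sqrt (Nat.sqrt (Nat.sqrt N)) ^ 2) ^ 2) ^ 2 := by
        ring
    _ ≤ (Nat.sqrt (Nat.sqrt N) ^ 2) ^ 2 := by gcongr
    _ ≤ Nat.sqrt N ^ 2 := by gcongr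
    _ ≤ N := h1

theorem lt_sN (N : ℕ) : N < (sN N + 1) ^ 8 := by
  unfold sN
  have h1 := Nat.lt_succ_sqrt' N
  have h2 : Nat.sqrt N + 1 ≤ (Nat.sqrt (Nat.sqrt N) + 1) ^ 2 := Nat.lt_succ_sqrt' (Nat.sqrt N)
  have h3 : Nat.sqrt (Nat.sqrt N) + 1 ≤ (Nat.sqrt (Nat.sqrt (Nat.sqrt N)) + 1) ^ 2 :=
    Nat.lt_succ_sqrt' (Nat.sqrt (Nat.sqrt N))
  calc N < (Nat.sqrt N + 1) ^ 2 := h1
    _ ≤ ((Nat.sqrt (Nat.sqrt N) + 1) ^ 2) ^ 2 := by gcongr
    _ ≤ (((Nat.sqrt (Nat.sqrt (Nat.sqrt N)) + 1) ^ 2) ^ 2) ^ 2 := by gcongr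
    _ = _ := by ring

theorem tendsto_sN : Tendsto sN atTop atTop := by
  refine tendsto_atTop.2 fun b => ?_
  filter_upwards [eventually_ge_atTop ((b + 1) ^ 8)] with N hN
  have h1 := lt_of_le_of_lt hN (lt_sN N)
  have := lt_of_pow_lt_pow_left₀ 8 (Nat.zero_le _) h1
  omega

theorem Asym_real : Tendsto (fun N => (sN N : ℝ)) atTop atTop :=
  tendsto_natCast_atTop_atTop.comp tendsto_sN

theorem Asym_poly (C : ℝ) (k : ℕ) {c : ℝ} (hc : 0 < c) :
    ∀ᶠ x : ℝ in atTop, C * (x + 1) ^ k ≤ Real.exp (c * x) := by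
  have h1 := (isLittleO_pow_exp_pos_mul_atTop k hc).bound
    (c := 1 / ((|C| + 1) * 2 ^ k)) (by positivity)
  filter_upwards [h1, eventually_ge_atTop 1] with x hx hx1
  rw [Real.norm_of_nonneg (by positivity), Real.norm_of_nonneg (Real.exp_pos _).le,
    one_div_mul_eq_div, le_div_iff₀ (by positivity)] at hx
  calc C * (x + 1) ^ k ≤ (|C| + 1) * (2 * x) ^ k := by
        refine mul_le_mul ((le_abs_self C).trans (by linarith)) ?_ (by positivity) (by positivity)
        gcongr; linarith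
    _ = x ^ k * ((|C| + 1) * 2 ^ k) := by rw [mul_pow]; ring
    _ ≤ _ := hx

theorem Asym_le (N : ℕ) : (N : ℝ) ≤ ((sN N : ℝ) + 1) ^ 8 := by exact_mod_cast (lt_sN N).le

theorem ev_poly_exp (C : ℝ) (k : ℕ) {c : ℝ} (hc : 0 < c) :
    ∀ᶠ N : ℕ in atTop, C * (N : ℝ) ^ k ≤ Real.exp (c * sN N) := by
  filter_upwards [Asym_real.eventually (Asym_poly |C| (8 * k) hc)] with N hN
  refine le_trans ?_ hN
  rw [pow_mul]
  exact mul_le_mul (le_abs_self C) (pow_le_pow_left₀ (Nat.cast_nonneg _) (Asym_le N) k)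
    (by positivity) (abs_nonneg _)

theorem ev_bonds : ∀ᶠ N in atTop, 4 * (bonds (cube N)).card ≤ 2 ^ sN N := by
  filter_upwards [ev_poly_exp 648 3 (Real.log_pos one_lt_two), eventually_ge_atTop 1] with N hN h1
  rw [mul_comm (Real.log 2), Real.exp_nat_mul, Real.exp_log two_pos] at hN
  have h2 : 648 * N ^ 3 ≤ 2 ^ sN N := by exact_mod_cast hN
  have h3 := card_bonds_le (cube N)
  rw [card_cube] at h3
  have h4 : (2 * N + 1) ^ 3 ≤ (3 * N) ^ 3 := Nat.pow_le_pow_left (by omega) 3
  have h5 : (3 * N) ^ 3 = 27 * N ^ 3 := by ring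
  omega

theorem ev_cube_sqrt (C : ℝ) :
    ∀ᶠ N : ℕ in atTop, C * ((sN N : ℝ) + 1) ^ 3 ≤ Real.sqrt N := by
  filter_upwards [Asym_real.eventually (eventually_ge_atTop (8 * |C| + 1))] with N hN
  have h0 := abs_nonneg C
  have h1 : (sN N : ℝ) ^ 4 ≤ Real.sqrt N := by
    refine Real.le_sqrt_of_sq_le ?_
    rw [← pow_mul]
    exact_mod_cast sN_pow_le N
  refine le_trans ?_ h1
  calc C * ((sN N : ℝ) + 1) ^ 3 ≤ |C| * (2 * (sN N : ℝ)) ^ 3 := by
        refine mul_le_mul (le_abs_self C) ?_ (by positivity) h0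
        gcongr; linarith
    _ = (8 * |C|) * (sN N : ℝ) ^ 3 := by ring
    _ ≤ (sN N : ℝ) * (sN N : ℝ) ^ 3 := by gcongr; linarith
    _ = _ := by ring

theorem ev_log (C : ℝ) : ∀ᶠ N : ℕ in atTop, C * Real.log N ≤ sN N := by
  filter_upwards [ev_poly_exp 1 1 (c := 1 / (|C| + 1)) (by positivity), eventually_ge_atTop 1]
    with N hN h1
  have h2 : (1 : ℝ) ≤ N := by exact_mod_cast h1
  rw [one_mul, pow_one, ← Real.log_le_iff_le_exp (by linarith), one_div_mul_eq_div,
    le_div_iff₀ (by positivity)] at hN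
  have h3 := Real.log_nonneg h2
  have h4 := le_abs_self C
  nlinarith only [hN, h3, h4]

theorem ev_sqrt (C : ℝ) : ∀ᶠ N : ℕ in atTop, C ≤ Real.sqrt N :=
  (Real.tendsto_sqrt_atTop.comp tendsto_natCast_atTop_atTop).eventually (eventually_ge_atTop C)

theorem ev_sqrt_le {c : ℝ} (hc : 0 < c) : ∀ᶠ N : ℕ in atTop, Real.sqrt N ≤ c * N := by
  filter_upwards [ev_sqrt (1 / c)] with N hN
  rw [div_le_iff₀ hc] at hN
  have h1 := Real.mul_self_sqrt (Nat.cast_nonneg (α := ℝ) N)
  have h2 := Real.sqrt_nonneg (N : ℝ)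
  nlinarith only [hc, h1, hN, h2]

theorem ev_poly_exp_sq (C : ℝ) (k : ℕ) {c : ℝ} (hc : 0 < c) :
    ∀ᶠ N : ℕ in atTop, C * (N : ℝ) ^ k ≤ Real.exp (c * (N : ℝ) ^ 2) := by
  filter_upwards [ev_poly_exp C k hc] with N hN
  refine hN.trans (Real.exp_le_exp.2 (mul_le_mul_of_nonneg_left ?_ hc.le))
  have h1 : sN N ≤ N ^ 2 :=
    (Nat.le_self_pow (by norm_num) _).trans ((sN_pow_le N).trans (Nat.le_self_pow (by norm_num) _))
  exact_mod_cast h1

end Pool.Agent.Work.MP_b59478_pr
end
end

-- merged part: Pool.Agent.Work.MP_b59478_pr.LL4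
section
/-! From a frozen configuration to typical ones.
typ_half: by Om_full the measure on subsets of the cube is a gas with s = 2 N + 1, a = 0; union
bound and tail1 with d = r + 1; (2 N + 1) ^ 3 ph ^ (r + 2) <= 1/2 for large N.
typ_family: step 1, ff_union with the sets S union (A0 minus Lam), S inside Lam, against the
typical subsets of V: intersections lie in Lam union A0, unions contain A0 minus Lam and are typical
off A0 union Lam. Step 2, ff_sdiff of these against the typical subsets T of Lam union A0: T minus S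
lies in Lam and S minus T is in the final family (Typ.mono). ff_dec and the hypothesis give that
the typical subsets of Lam union A0 have at least half of the weight.
typ_close: A = large s S, D = S symmdiff A (Topo3), Z = Lam union endpoints of cut A0.
(1) If b is in cut A then ball b.1 (s + 2) meets Z. Otherwise A0 is constant on the ball; follow a
chain in cut A from b until its base point first leaves distance s / 2; D avoids the endpoints
(avoid), so these bonds are cut by S, and the endpoints in S (if the ball is outside A0) or not in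
S (inside) form a star-path in the typical set, longer than r. (2) If ball x (4 s + 10) misses Z
then A and A0 are constant on ball x (2 s + 5); if they differ, the complement of D in that ball
is inside a typical set, contradicting sea (stop the path when it first leaves distance r of y).
-/

set_option autoImplicit false

noncomputable section

namespace Pool.Agent.Work.MP_b59478_pr

open Classical Filter Topology MeasureTheory
open scoped symmDiff Pointwise

theorem typ_half {β : ℝ} (hβ : 1000 ≤ β) : ∀ᶠ N : ℕ in atTop,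
    Z0 β (cube N) / 2 ≤ ∑ S ∈ (cube N).powerset.filter (Typ (sN N / 2 - 1)), w β S := by
  filter_upwards [ev_poly_exp 54 3 (c := 1 / 2) (by norm_num), eventually_ge_atTop 1]
    with N hN h1
  set r := sN N / 2 - 1 with hr
  have hG : Gas β (cube N) (2 * N + 1) fun _ => 0 := ⟨hβ, isBox_cube N, fun _ => by simp⟩
  have hO := Om_full (N := N) (s := 2 * N + 1) le_rfl
  have hgw : ∀ D, gw β (fun _ => 0) D = w β D := fun D => by simp [gw]
  have hZ : gZ β (cube N) ∅ (2 * N + 1) (fun _ => 0) = Z0 β (cube N) := by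
    simp only [gZ, Z0, hO, hgw]
  have a1 : gP β (cube N) ∅ (2 * N + 1) (fun _ => 0) (fun D => ¬ Typ r D) ≤
      ∑ y ∈ cube N, gP β (cube N) ∅ (2 * N + 1) (fun _ => 0) fun D =>
        y ∈ D ∧ ∃ z, SConn D y z ∧ ∃ i, ((r + 1 : ℕ) : ℤ) ≤ |z i - y i| := by
    refine le_trans (gP_mono _ _ _ _ _ fun D hD hT => ?_) (gP_exists_le β _ _ _ _ (cube N) _)
    rw [hO, Finset.mem_powerset] at hD
    simp only [Typ, Near, not_forall, not_le] at hT
    obtain ⟨y, hy, z, hc, i, hi⟩ := hT
    refine ⟨y, hD hy, hy, z, hc, i, ?_⟩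
    rw [abs_sub_comm]
    push_cast
    omega
  have a2 := a1.trans (Finset.sum_le_card_nsmul _ _ _ fun y _ => tail1 hG ∅ y (r + 1))
  have a3 : ph ^ (r + 1 + 1) ≤ Real.exp (-(1 / 2 * sN N)) := by
    have b1 : ph ≤ Real.exp (-1) := by
      rw [Real.exp_neg, ph, one_div]
      exact inv_anti₀ (Real.exp_pos 1) (Real.exp_one_lt_d9.le.trans (by norm_num))
    have b2 : (sN N : ℝ) ≤ 2 * ((r + 1 + 1 : ℕ) : ℝ) := by
      have : sN N ≤ 2 * (r + 1 + 1) := by omega
      exact_mod_cast this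
    refine (pow_le_pow_left₀ (by norm_num [ph]) b1 _).trans ?_
    rw [← Real.exp_nat_mul, Real.exp_le_exp]
    linarith only [b2]
  have a4 : (((cube N).card : ℕ) : ℝ) ≤ 27 * (N : ℝ) ^ 3 := by
    have : (cube N).card ≤ 27 * N ^ 3 := by
      rw [card_cube]
      calc (2 * N + 1) ^ 3 ≤ (3 * N) ^ 3 := Nat.pow_le_pow_left (by omega) 3
        _ = 27 * N ^ 3 := by ring
    exact_mod_cast this
  have a5 : gP β (cube N) ∅ (2 * N + 1) (fun _ => 0) (fun D => ¬ Typ r D) ≤ 1 / 2 := by
    refine a2.trans ?_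
    rw [nsmul_eq_mul]
    have b1 : (((cube N).card : ℕ) : ℝ) ≤ 1 / 2 * Real.exp (1 / 2 * sN N) := by linarith only [hN, a4]
    refine (mul_le_mul b1 a3 (pow_nonneg (by norm_num [ph]) _) (by positivity)).trans ?_
    rw [mul_assoc, ← Real.exp_add]
    simp
  rw [gP, hZ, div_le_iff₀ (Z0_pos _ _), hO] at a5
  simp only [hgw] at a5
  have a6 := Finset.sum_filter_add_sum_filter_not (cube N).powerset (Typ r) (w β)
  have a7 : Z0 β (cube N) = ∑ S ∈ (cube N).powerset, w β S := rfl
  have a8 : ∑ S ∈ (cube N).powerset.filter (fun D => ¬ Typ r D), w β S ≤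
      1 / 2 * Z0 β (cube N) := le_of_eq_of_le (by congr!) a5
  linarith only [a6, a7, a8]

theorem typ_family {β : ℝ} (hβ : 0 ≤ β) {V Λ A0 : Finset Site} (hΛ : Λ ⊆ V) (hA : A0 ⊆ V) (r : ℕ)
    (hh : Z0 β V / 2 ≤ ∑ S ∈ V.powerset.filter (Typ r), w β S) :
    Z0 β V * Zf β Λ A0 ≤ 4 * Z0 β Λ * ∑ S ∈ V.powerset.filter fun S =>
      Typ r (S \ (A0 ∪ Λ)) ∧ Typ r ((A0 \ Λ) \ S), w β S := by
  have hW : Λ ∪ A0 ⊆ V := Finset.union_subset hΛ hA
  have e : ∑ S ∈ Λ.powerset.image (fun S => S ∪ (A0 \ Λ)), w β S = Zf β Λ A0 := by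
    rw [Zf, Finset.sum_image]
    intro S hS T hT h
    rw [Finset.mem_coe, Finset.mem_powerset] at hS hT
    ext y
    have h1 := Finset.ext_iff.1 h y
    have h2 := @hS y
    have h3 := @hT y
    simp only [Finset.mem_union, Finset.mem_sdiff] at h1
    (clear * - h2 h3 h1; tauto)
  have s1 := ff_union hβ (Λ.powerset.image fun S => S ∪ (A0 \ Λ)) (V.powerset.filter (Typ r))
    (Λ ∪ A0).powerset (V.powerset.filter fun S => A0 \ Λ ⊆ S ∧ Typ r (S \ (A0 ∪ Λ))) (by
      intro S hS T hT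
      obtain ⟨S', hS', rfl⟩ := Finset.mem_image.1 hS
      obtain ⟨hT1, hT2⟩ := Finset.mem_filter.1 hT
      rw [Finset.mem_powerset] at hS' hT1
      have h1 : S' ∪ (A0 \ Λ) ⊆ Λ ∪ A0 := Finset.union_subset_union hS' Finset.sdiff_subset
      refine ⟨Finset.mem_powerset.2 (Finset.inter_subset_left.trans h1),
        Finset.mem_filter.2 ⟨Finset.mem_powerset.2 (Finset.union_subset (h1.trans hW) hT1),
          Finset.subset_union_right.trans Finset.subset_union_left, hT2.mono fun y hy => ?_⟩⟩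
      obtain ⟨h2, h3⟩ := Finset.mem_sdiff.1 hy
      rcases Finset.mem_union.1 h2 with h4 | h4
      · exact absurd (by rw [Finset.union_comm]; exact h1 h4) h3
      · exact h4)
  have s2 := ff_sdiff hβ (V.powerset.filter fun S => A0 \ Λ ⊆ S ∧ Typ r (S \ (A0 ∪ Λ)))
    ((Λ ∪ A0).powerset.filter (Typ r))
    (V.powerset.filter fun S => Typ r (S \ (A0 ∪ Λ)) ∧ Typ r ((A0 \ Λ) \ S)) Λ.powerset (by
      intro S hS T hT
      obtain ⟨hS1, hS2, hS3⟩ := Finset.mem_filter.1 hS
      obtain ⟨hT1, hT2⟩ := Finset.mem_filter.1 hT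
      rw [Finset.mem_powerset] at hS1 hT1
      refine ⟨Finset.mem_filter.2 ⟨Finset.mem_powerset.2 (Finset.sdiff_subset.trans hS1),
        hS3.mono (Finset.sdiff_subset_sdiff Finset.sdiff_subset le_rfl), hT2.mono fun y hy => ?_⟩,
        Finset.mem_powerset.2 fun y hy => ?_⟩
      · obtain ⟨h1, h2⟩ := Finset.mem_sdiff.1 hy
        by_contra h3
        exact h2 (Finset.mem_sdiff.2 ⟨hS2 h1, h3⟩)
      · obtain ⟨h1, h2⟩ := Finset.mem_sdiff.1 hy
        by_contra h3
        rcases Finset.mem_union.1 (hT1 h1) with h4 | h4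
        · exact h3 h4
        · exact h2 (hS2 (Finset.mem_sdiff.2 ⟨h4, h3⟩)))
  have s3 := ff_dec hβ hW (Typ r) fun S T h hT => hT.mono h
  rw [e] at s1
  change _ ≤ Z0 β (Λ ∪ A0) * _ at s1
  change _ ≤ _ * Z0 β Λ at s2
  have p1 := Z0_pos β V
  have p2 := Z0_pos β (Λ ∪ A0)
  have p3 : 0 ≤ Zf β Λ A0 := Finset.sum_nonneg fun _ _ => (w_pos _ _).le
  have p4 : 0 ≤ ∑ S ∈ V.powerset.filter fun S => A0 \ Λ ⊆ S ∧ Typ r (S \ (A0 ∪ Λ)), w β S :=
    Finset.sum_nonneg fun _ _ => (w_pos _ _).le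
  have s4 : Z0 β (Λ ∪ A0) ≤ 2 * ∑ S ∈ (Λ ∪ A0).powerset.filter (Typ r), w β S := by
    have := (mul_le_mul_of_nonneg_right hh p2.le).trans s3
    refine le_of_mul_le_mul_right ?_ p1
    linarith only [this]
  have s5 := mul_le_mul_of_nonneg_left hh p3
  have s6 := mul_le_mul_of_nonneg_right s4 p4
  linarith only [s1, s2, s5, s6]

end Pool.Agent.Work.MP_b59478_pr
end
end

-- merged part: Pool.Agent.Work.MP_b59478_pr.Topo3
section
/-! Splitting a configuration into its large part A and a compatible set D with small contours.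
sum_decomp: S maps to (large s S, S symmdiff large s S), inverse (A, D) to A symmdiff D.
avoid: D is constant on the endpoints of a component of cut A (adjacent bonds lie in a unit cube
all of whose edges are in nbhd; hullPath), which contradicts sconn_near_of_small; the same unit
cube argument passes to the endpoints of the bonds of nbhd.
sea: take a box V containing D and ball x s, and F the sites of V not joined to the outside of V
by a nearest-neighbour path avoiding D. Then cut F is inside cut D. If the ball were inside F,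
apply lemK to its star-component K in F (cut K inside cut F) and near_of_isConn to two opposite
corners. So some y of the ball is joined to a site outside V; continue along an outward ray.
-/

set_option autoImplicit false

noncomputable section

namespace Pool.Agent.Work.MP_b59478_pr

open Classical Filter Topology MeasureTheory
open scoped symmDiff Pointwise

theorem cut_large (s : ℕ) (S : Finset Site) : cut (large s S) = Lg s (cut S) :=
  cut_intr (Lg_clopen s (cut S))

theorem large_subset {V S : Finset Site} (hV : IsBox V) (hS : S ⊆ V) (s : ℕ) :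
    large s S ⊆ V := by
  refine sub_box hV ?_
  rw [cut_large]
  exact (Lg_clopen s (cut S)).1.trans (cut_subset_bonds hS)

theorem allBig_large (s : ℕ) (S : Finset Site) : AllBig s (cut (large s S)) := by
  rw [cut_large]
  exact allBig_Lg s _

theorem cut_symmDiff_large (s : ℕ) (S : Finset Site) :
    cut (S ∆ large s S) = cut S \ cut (large s S) := by
  rw [cut_large]
  exact Topo2_cut_symmDiff (Lg_clopen s (cut S))

theorem symmDiff_large_mem {V S : Finset Site} (hV : IsBox V) (hS : S ⊆ V) (s : ℕ) :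
    S ∆ large s S ∈ Om V (nbhd (cut (large s S))) s := by
  refine Finset.mem_filter.mpr ⟨Finset.mem_powerset.mpr fun x hx => ?_, ?_, ?_⟩
  · rcases Finset.mem_symmDiff.mp hx with k | k
    · exact hS k.1
    · exact large_subset hV hS s k.1
  · rw [cut_symmDiff_large, cut_large]
    exact small_sdiff_Lg s _
  · rw [cut_symmDiff_large, cut_large, Finset.disjoint_left]
    intro b hb k
    obtain ⟨c, hc, ha⟩ := mem_nbhd.mp k
    rw [Finset.mem_sdiff] at hb
    exact hb.2 ((Lg_clopen s (cut S)).2 c hc b hb.1 ha)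

theorem Topo3_cut_union {A D : Finset Site} (h : Disjoint (cut D) (cut A)) :
    cut (A ∆ D) = cut A ∪ cut D := by
  rw [cut_symmDiff, h.symm.symmDiff_eq_sup]
  rfl

theorem large_symmDiff {V A D : Finset Site} {s : ℕ} (hA : AllBig s (cut A))
    (hD : D ∈ Om V (nbhd (cut A)) s) : large s (A ∆ D) = A := by
  obtain ⟨-, hs, hd⟩ := Finset.mem_filter.mp hD
  have hd' : Disjoint (cut D) (cut A) := hd.mono_right (subset_nbhd _)
  have c : Clopen (cut D) (cut A ∪ cut D) := by
    refine ⟨Finset.subset_union_right, fun b hb b' hb' k => ?_⟩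
    rcases Finset.mem_union.mp hb' with m | m
    · exact absurd (mem_nbhd.mpr ⟨b', m, k.symm⟩) (Finset.disjoint_left.mp hd hb)
    · exact m
  have e : Lg s (cut A ∪ cut D) = cut A := by
    ext b
    rw [Lg, Finset.mem_filter, Finset.mem_union]
    refine ⟨?_, fun k => ⟨Or.inl k, Topo2_big_mono Finset.subset_union_left (hA b k)⟩⟩
    rintro ⟨k | k, b1, b2, h1, h2, hn⟩
    · exact k
    · exact absurd ⟨b1, b2, c.conn k h1, c.conn k h2, hn⟩ (hs b k)
  rw [large, Topo3_cut_union hd', e, intr_cut]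

theorem w_symmDiff (β : ℝ) {A D : Finset Site} (h : Disjoint (cut D) (cut A)) :
    w β (A ∆ D) = w β A * w β D := by
  rw [w, w, w, Topo3_cut_union h, Finset.card_union_of_disjoint h.symm, ← Real.exp_add]
  congr 1
  push_cast
  ring

theorem sum_decomp (β : ℝ) {V : Finset Site} (hV : IsBox V) (s : ℕ)
    (G : Finset Site → Finset Site → ℝ) :
    ∑ S ∈ V.powerset, w β S * G (large s S) S =
      ∑ A ∈ V.powerset.filter fun A => AllBig s (cut A),
        w β A * ∑ D ∈ Om V (nbhd (cut A)) s, w β D * G A (A ∆ D) := by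
  simp only [Finset.mul_sum]
  rw [Finset.sum_sigma']
  have can : ∀ S : Finset Site, large s S ∆ (S ∆ large s S) = S := fun S => by
    rw [symmDiff_comm S, symmDiff_symmDiff_cancel_left]
  refine Finset.sum_bij' (fun S _ => ⟨large s S, S ∆ large s S⟩) (fun p _ => p.1 ∆ p.2)
    ?_ ?_ ?_ ?_ ?_
  · intro S hS
    have hS' := Finset.mem_powerset.mp hS
    exact Finset.mem_sigma.mpr ⟨Finset.mem_filter.mpr
      ⟨Finset.mem_powerset.mpr (large_subset hV hS' s), allBig_large s S⟩,
      symmDiff_large_mem hV hS' s⟩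
  · rintro ⟨A, D⟩ hp
    obtain ⟨h1, h2⟩ := Finset.mem_sigma.mp hp
    refine Finset.mem_powerset.mpr fun x hx => ?_
    rcases Finset.mem_symmDiff.mp hx with k | k
    · exact Finset.mem_powerset.mp (Finset.mem_filter.mp h1).1 k.1
    · exact Finset.mem_powerset.mp (Finset.mem_filter.mp h2).1 k.1
  · intro S _
    exact can S
  · rintro ⟨A, D⟩ hp
    obtain ⟨h1, h2⟩ := Finset.mem_sigma.mp hp
    have e := large_symmDiff (Finset.mem_filter.mp h1).2 h2
    dsimp only at e ⊢
    rw [e, symmDiff_comm A D, symmDiff_symmDiff_cancel_right]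
  · intro S hS
    have m := symmDiff_large_mem hV (Finset.mem_powerset.mp hS) s
    have e := w_symmDiff β ((Finset.mem_filter.mp m).2.2.mono_right (subset_nbhd _))
    dsimp only
    rw [can] at e ⊢
    rw [e, mul_assoc]

theorem Topo3_const {A D : Finset Site} (hd : Disjoint (cut D) (nbhd (cut A))) {c : Bond}
    (hc : c ∈ cut A) {z p q : Site} (hz : ∀ i, z i ≤ c.1 i ∧ tip c i ≤ z i + 1)
    (hp : ∀ i, z i ≤ p i ∧ p i ≤ z i + 1) (hq : ∀ i, z i ≤ q i ∧ q i ≤ z i + 1) (h : p ∈ D) :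
    q ∈ D := by
  by_contra k
  obtain ⟨e, he, ke⟩ := hullPath (H := (D : Set Site)) (x := p) (y := q) h k
  refine Finset.disjoint_left.mp hd (mem_cut.mpr he) (mem_nbhd.mpr ⟨c, hc, adj_of_cube hz ?_⟩)
  intro i
  have := ke i
  have := hp i
  have := hq i
  omega

theorem Topo3_ends {z : Site} {b : Bond} (h : ∀ i, z i ≤ b.1 i ∧ tip b i ≤ z i + 1) :
    (∀ i, z i ≤ b.1 i ∧ b.1 i ≤ z i + 1) ∧ ∀ i, z i ≤ tip b i ∧ tip b i ≤ z i + 1 := by
  refine ⟨fun i => ?_, fun i => ?_⟩ <;>
  · have := h i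
    have e := tip_apply b i
    split_ifs at e <;> omega

theorem avoid {A D : Finset Site} {s : ℕ} (hA : AllBig s (cut A)) (hD : Small s (cut D))
    (hd : Disjoint (cut D) (nbhd (cut A))) :
    ∀ b ∈ nbhd (cut A), b.1 ∉ D ∧ tip b ∉ D := by
  have base : ∀ c ∈ cut A, c.1 ∉ D := by
    intro c hc hcD
    have ch : ∀ c', Conn (cut A) c c' → SConn D c.1 c'.1 := by
      intro c' h
      induction h with
      | refl => exact .refl
      | tail _ k ih =>
        obtain ⟨z, z1, z2⟩ := k.2.2.cube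
        have m := SConn.mem ih hcD
        exact Relation.ReflTransGen.tail ih
          ⟨m, Topo3_const hd k.1 z1 (Topo3_ends z1).1 (Topo3_ends z2).1 m, k.2.2.1⟩
    obtain ⟨b1, b2, h1, h2, hn⟩ := hA c hc
    exact hn (sconn_near_of_small hD ((ch b1 h1).mem hcD)
      (Relation.ReflTransGen.trans (ch b1 h1).symm (ch b2 h2)))
  intro b hb
  obtain ⟨c, hc, ha⟩ := mem_nbhd.mp hb
  obtain ⟨z, z1, z2⟩ := ha.cube
  exact ⟨fun k => base c hc (Topo3_const hd hc z1 (Topo3_ends z2).1 (Topo3_ends z1).1 k),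
    fun k => base c hc (Topo3_const hd hc z1 (Topo3_ends z2).2 (Topo3_ends z1).1 k)⟩

theorem sea {D : Finset Site} {s : ℕ} (hD : Small s (cut D)) (hs : 1 ≤ s) (x : Site) (ρ : ℕ) :
    ∃ y z, Near s y x ∧ y ∉ D ∧
      Relation.ReflTransGen (fun a b => a ∉ D ∧ b ∉ D ∧ NN a b) y z ∧ ¬ Near ρ y z := by
  obtain ⟨R, hR, hDR⟩ : ∃ R : ℕ, ρ + s ≤ R ∧ D ⊆ ball x R := by
    refine ⟨ρ + s + D.sup fun y => Finset.univ.sup fun i => (y i - x i).natAbs, by omega,
      fun y hy => mem_ball.mpr fun i => ?_⟩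
    have := (Finset.le_sup (f := fun i => (y i - x i).natAbs) (Finset.mem_univ i)).trans
      (Finset.le_sup (f := fun y : Site => Finset.univ.sup fun i => (y i - x i).natAbs) hy)
    rw [← Int.natCast_natAbs]
    exact_mod_cast this.trans (Nat.le_add_left _ _)
  set r : Site → Site → Prop := fun a b => a ∉ D ∧ b ∉ D ∧ NN a b with hr
  have notD : ∀ q z, Relation.ReflTransGen r q z → z ∉ ball x R → q ∉ D := by
    intro q z h hz hq
    rcases h.cases_head with e | ⟨c, k, -⟩
    · exact hz (e ▸ hDR hq)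
    · exact k.1 hq
  obtain ⟨F, hF⟩ : ∃ F : Finset Site,
      ∀ y, y ∈ F ↔ ∀ z, Relation.ReflTransGen r y z → z ∈ ball x R :=
    ⟨(ball x R).filter fun y => ∀ z, Relation.ReflTransGen r y z → z ∈ ball x R, fun y => by
      rw [Finset.mem_filter]
      exact ⟨fun k => k.2, fun k => ⟨k y .refl, k⟩⟩⟩
  have key : ∀ p q, NN p q → p ∈ F → q ∉ F → p ∈ D ∧ q ∉ D := by
    intro p q hn hp hq
    rw [hF] at hp hq
    push Not at hq
    obtain ⟨z, h1, h2⟩ := hq
    have k := notD q z h1 h2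
    refine ⟨?_, k⟩
    by_contra hc
    exact h2 (hp z (Relation.ReflTransGen.head ⟨hc, k, hn⟩ h1))
  have sub : cut F ⊆ cut D := by
    intro b hb
    rw [mem_cut] at hb ⊢
    have hn : NN b.1 (tip b) := NN_iff.mpr ⟨b.2, Or.inl rfl⟩
    by_cases k : b.1 ∈ F
    · have := key _ _ hn k (by tauto)
      tauto
    · have := key _ _ hn.symm (by tauto) k
      tauto
  by_cases hb : ball x s ⊆ F
  · exfalso
    have mem : ∀ t : ℕ, t ≤ 2 * s → x + Pi.single 0 ((t : ℤ) - s) ∈ F := by
      intro t ht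
      refine hb (mem_ball.mpr fun i => ?_)
      simp only [Pi.add_apply, Pi.single_apply, abs_le]
      split_ifs <;> omega
    have ch : ∀ t : ℕ, t ≤ 2 * s →
        SConn F (x + Pi.single 0 (((0 : ℕ) : ℤ) - s)) (x + Pi.single 0 ((t : ℤ) - s)) := by
      intro t ht
      induction t with
      | zero => exact .refl
      | succ t ih =>
        refine Relation.ReflTransGen.tail (ih (by omega))
          ⟨mem t (by omega), mem _ ht, fun i => ?_⟩
        simp only [Pi.add_apply, Pi.single_apply, abs_le]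
        split_ifs <;> omega
    have := sconn_near_of_small (hD.mono sub) (mem 0 (by omega)) (ch (2 * s) le_rfl) 0
    simp only [Pi.add_apply, Pi.single_eq_same, abs_le] at this
    omega
  · obtain ⟨y, hy, hyF⟩ := Finset.not_subset.mp hb
    rw [hF] at hyF
    push Not at hyF
    obtain ⟨z, h1, h2⟩ := hyF
    rw [mem_ball] at hy
    exact ⟨y, z, hy, notD y z h1 h2, h1,
      fun k => h2 (mem_ball.mpr ((k.symm.trans hy).mono hR))⟩

end Pool.Agent.Work.MP_b59478_pr
end
end

-- merged part: Pool.Agent.Work.MP_b59478_pr.Gas2A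
section
/-! Swapping two samples of the gas on a star-closed set, and translation covariance. -/

set_option autoImplicit false

noncomputable section

namespace Pool.Agent.Work.MP_b59478_pr

open Classical Filter Topology MeasureTheory
open scoped symmDiff Pointwise

/-! ### The swap -/

/-- `D` outside `K` and `D'` inside `K`. -/
def Gas2_sw (K D D' : Finset Site) : Finset Site := (D \ K) ∪ (D' ∩ K)

/-- `K` is closed under star-steps inside `U`. -/
def Gas2_Cl (K U : Finset Site) : Prop := ∀ p ∈ K, ∀ q ∈ U, Near 1 p q → q ∈ K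

/-- The bond has an endpoint in `K`. -/
def Gas2_Touch (K : Finset Site) (b : Bond) : Prop := b.1 ∈ K ∨ tip b ∈ K

/-- The points of `U` star-connected inside `U` to a point of `P`. -/
def Gas2_K (P U : Finset Site) : Finset Site :=
  U.filter fun z => ∃ y ∈ P, y ∈ U ∧ SConn U y z

theorem Gas2_mem_sw {K D D' : Finset Site} {y : Site} :
    y ∈ Gas2_sw K D D' ↔ (y ∈ D ∧ y ∉ K) ∨ (y ∈ D' ∧ y ∈ K) := by
  simp [Gas2_sw]

theorem Gas2_sw_union (K D D' : Finset Site) :
    Gas2_sw K D D' ∪ Gas2_sw K D' D = D ∪ D' := by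
  ext y
  simp only [Finset.mem_union, Gas2_mem_sw]
  tauto

theorem Gas2_sw_sw (K D D' : Finset Site) :
    Gas2_sw K (Gas2_sw K D D') (Gas2_sw K D' D) = D := by
  ext y
  simp only [Gas2_mem_sw]
  tauto

theorem Gas2_cl_K (P U : Finset Site) : Gas2_Cl (Gas2_K P U) U := by
  intro p hp q hq hn
  simp only [Gas2_K, Finset.mem_filter] at hp ⊢
  obtain ⟨hpU, y, hyP, hyU, hc⟩ := hp
  exact ⟨hq, y, hyP, hyU, Relation.ReflTransGen.tail hc ⟨hpU, hq, hn⟩⟩

theorem Gas2_mem_K_of {P U : Finset Site} {y : Site} (hP : y ∈ P) (hU : y ∈ U) :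
    y ∈ Gas2_K P U := by
  simp only [Gas2_K, Finset.mem_filter]
  exact ⟨hU, y, hP, hU, Relation.ReflTransGen.refl⟩

theorem Gas2_cut_sw {K D D' : Finset Site} (hK : Gas2_Cl K (D ∪ D')) :
    cut (Gas2_sw K D D') =
      (cut D).filter (fun b => ¬ Gas2_Touch K b) ∪ (cut D').filter (Gas2_Touch K) := by
  ext b
  have h1 := hK b.1
  have h2 := hK (tip b)
  have n1 := near_tip b
  have n2 := n1.symm
  simp only [Finset.mem_union] at h1 h2
  have h3 : b.1 ∈ K → (tip b ∈ D ∨ tip b ∈ D') → tip b ∈ K := fun h h' => h1 h _ h' n1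
  have h4 : tip b ∈ K → (b.1 ∈ D ∨ b.1 ∈ D') → b.1 ∈ K := fun h h' => h2 h _ h' n2
  simp only [Finset.mem_union, Finset.mem_filter, mem_cut, Gas2_mem_sw, Gas2_Touch]
  clear h1 h2 n1 n2
  by_cases k1 : b.1 ∈ K <;> by_cases k2 : tip b ∈ K <;> by_cases k3 : b.1 ∈ D <;>
    by_cases k4 : tip b ∈ D <;> by_cases k5 : b.1 ∈ D' <;> by_cases k6 : tip b ∈ D' <;>
    simp [k1, k2, k3, k4, k5, k6] at h3 h4 ⊢

theorem Gas2_card_sw {K D D' : Finset Site} (hK : Gas2_Cl K (D ∪ D')) :
    (cut (Gas2_sw K D D')).card + (cut (Gas2_sw K D' D)).card =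
      (cut D).card + (cut D').card := by
  have hK' : Gas2_Cl K (D' ∪ D) := by rwa [Finset.union_comm]
  have hd : ∀ T T' : Finset Bond, Disjoint (T.filter fun b => ¬ Gas2_Touch K b)
      (T'.filter (Gas2_Touch K)) := by
    intro T T'
    rw [Finset.disjoint_left]
    intro b hb hb'
    exact (Finset.mem_filter.1 hb).2 (Finset.mem_filter.1 hb').2
  rw [Gas2_cut_sw hK, Gas2_cut_sw hK', Finset.card_union_of_disjoint (hd _ _),
    Finset.card_union_of_disjoint (hd _ _)]
  have e1 := Finset.card_filter_add_card_filter_not (s := cut D) (Gas2_Touch K)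
  have e2 := Finset.card_filter_add_card_filter_not (s := cut D') (Gas2_Touch K)
  omega

theorem Gas2_small_union {s : ℕ} {T1 T2 : Finset Bond} (h1 : Small s T1) (h2 : Small s T2)
    (hadj : ∀ b ∈ T1, ∀ b' ∈ T2, ¬ Adj b b') : Small s (T1 ∪ T2) := by
  have c1 : Clopen T1 (T1 ∪ T2) := by
    refine ⟨Finset.subset_union_left, fun b hb b' hb' ha => ?_⟩
    rcases Finset.mem_union.1 hb' with h | h
    · exact h
    · exact absurd ha (hadj b hb b' h)
  have c2 : Clopen T2 (T1 ∪ T2) := by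
    refine ⟨Finset.subset_union_right, fun b hb b' hb' ha => ?_⟩
    rcases Finset.mem_union.1 hb' with h | h
    · exact absurd ha.symm (hadj b' h b hb)
    · exact h
  rintro b hb ⟨b1, b2, k1, k2, hn⟩
  rcases Finset.mem_union.1 hb with h | h
  · exact h1 b h ⟨b1, b2, c1.conn h k1, c1.conn h k2, hn⟩
  · exact h2 b h ⟨b1, b2, c2.conn h k1, c2.conn h k2, hn⟩

theorem Gas2_sw_mem {K V D D' : Finset Site} {X : Finset Bond} {s : ℕ}
    (hK : Gas2_Cl K (D ∪ D')) (hD : D ∈ Om V X s) (hV : D' ∩ K ⊆ V)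
    (hs : Small s ((cut D').filter (Gas2_Touch K)))
    (hX : ∀ b ∈ cut D', Gas2_Touch K b → b ∉ X) : Gas2_sw K D D' ∈ Om V X s := by
  simp only [Om, Finset.mem_filter, Finset.mem_powerset] at hD ⊢
  obtain ⟨hDV, hDs, hDX⟩ := hD
  refine ⟨?_, ?_, ?_⟩
  · exact Finset.union_subset (Finset.sdiff_subset.trans hDV) hV
  · rw [Gas2_cut_sw hK]
    refine Gas2_small_union (hDs.mono (Finset.filter_subset _ _)) hs ?_
    intro b hb b' hb' ha
    obtain ⟨hb1, hb2⟩ := Finset.mem_filter.1 hb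
    obtain ⟨-, hb3⟩ := Finset.mem_filter.1 hb'
    obtain ⟨a1, a2, a3, a4⟩ := ha
    rw [mem_cut] at hb1
    apply hb2
    by_cases h : b.1 ∈ D
    · left
      rcases hb3 with h3 | h3
      · exact hK _ h3 _ (Finset.mem_union_left _ h) a1.symm
      · exact hK _ h3 _ (Finset.mem_union_left _ h) a2.symm
    · have h' : tip b ∈ D := by tauto
      right
      rcases hb3 with h3 | h3
      · exact hK _ h3 _ (Finset.mem_union_left _ h') a3.symm
      · exact hK _ h3 _ (Finset.mem_union_left _ h') a4.symm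
  · rw [Gas2_cut_sw hK, Finset.disjoint_left]
    intro b hb hbX
    rcases Finset.mem_union.1 hb with h | h
    · exact Finset.disjoint_left.1 hDX (Finset.mem_filter.1 h).1 hbX
    · exact hX b (Finset.mem_filter.1 h).1 (Finset.mem_filter.1 h).2 hbX

theorem Gas2_sum_sw (K D D' : Finset Site) (a : Site → ℝ) :
    ∑ x ∈ Gas2_sw K D D', a x = ∑ x ∈ D \ K, a x + ∑ x ∈ D' ∩ K, a x := by
  rw [Gas2_sw, Finset.sum_union]
  rw [Finset.disjoint_left]
  intro y h h'
  exact (Finset.mem_sdiff.1 h).2 (Finset.mem_inter.1 h').2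

theorem Gas2_gw_sw (β : ℝ) {K D D' : Finset Site} {a a' : Site → ℝ}
    (hK : Gas2_Cl K (D ∪ D')) (ha : ∀ y ∈ K, a y = a' y) :
    gw β a (Gas2_sw K D D') * gw β a' (Gas2_sw K D' D) = gw β a D * gw β a' D' := by
  have hc : ((cut (Gas2_sw K D D')).card : ℝ) + (cut (Gas2_sw K D' D)).card =
      (cut D).card + (cut D').card := by exact_mod_cast Gas2_card_sw hK
  have e1 := Finset.sum_inter_add_sum_sdiff D K a
  have e2 := Finset.sum_inter_add_sum_sdiff D' K a'
  have e3 : ∑ x ∈ D' ∩ K, a x = ∑ x ∈ D' ∩ K, a' x :=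
    Finset.sum_congr rfl fun y hy => ha y (Finset.mem_inter.1 hy).2
  have e4 : ∑ x ∈ D ∩ K, a x = ∑ x ∈ D ∩ K, a' x :=
    Finset.sum_congr rfl fun y hy => ha y (Finset.mem_inter.1 hy).2
  simp only [gw, w, ← Real.exp_add, Gas2_sum_sw]
  congr 1
  linear_combination (-(2 * β)) * hc + e1 + e2 + e3 - e4

/-- A function that changes sign under the swap has mean zero on the pairs that can be swapped. -/
theorem Gas2_swap (β : ℝ) (V V' : Finset Site) (X X' : Finset Bond) (s s' : ℕ)
    (a a' : Site → ℝ) (Kf : Finset Site → Finset Site) (Bad : Finset Site → Prop)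
    (f : Finset Site → Finset Site → ℝ) (hf : ∀ D D', |f D D'| ≤ 1)
    (h : ∀ D ∈ Om V X s, ∀ D' ∈ Om V' X' s', ¬ Bad (D ∪ D') →
      Gas2_sw (Kf (D ∪ D')) D D' ∈ Om V X s ∧ Gas2_sw (Kf (D ∪ D')) D' D ∈ Om V' X' s' ∧
      gw β a (Gas2_sw (Kf (D ∪ D')) D D') * gw β a' (Gas2_sw (Kf (D ∪ D')) D' D) =
        gw β a D * gw β a' D' ∧
      f (Gas2_sw (Kf (D ∪ D')) D D') (Gas2_sw (Kf (D ∪ D')) D' D) = - f D D') :
    |(∑ D ∈ Om V X s, ∑ D' ∈ Om V' X' s', gw β a D * gw β a' D' * f D D') /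
        (gZ β V X s a * gZ β V' X' s' a')| ≤
      g2P β V X s a V' X' s' a' fun D D' => Bad (D ∪ D') := by
  have hZ : 0 < gZ β V X s a * gZ β V' X' s' a' := mul_pos (gZ_pos ..) (gZ_pos ..)
  rw [g2P, abs_div, abs_of_pos hZ]
  refine div_le_div_of_nonneg_right ?_ hZ.le
  set S := Om V X s ×ˢ Om V' X' s' with hS
  set F : Finset Site × Finset Site → ℝ := fun p => gw β a p.1 * gw β a' p.2 * f p.1 p.2 with hF
  set σ : Finset Site × Finset Site → Finset Site × Finset Site := fun p =>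
    (Gas2_sw (Kf (p.1 ∪ p.2)) p.1 p.2, Gas2_sw (Kf (p.1 ∪ p.2)) p.2 p.1) with hσ
  have hU : ∀ p, (σ p).1 ∪ (σ p).2 = p.1 ∪ p.2 := fun p => Gas2_sw_union ..
  have hinv : ∀ p, σ (σ p) = p := by
    intro p
    have e := hU p
    refine Prod.ext ?_ ?_
    · show Gas2_sw (Kf ((σ p).1 ∪ (σ p).2)) (σ p).1 (σ p).2 = p.1
      rw [e]
      exact Gas2_sw_sw ..
    · show Gas2_sw (Kf ((σ p).1 ∪ (σ p).2)) (σ p).2 (σ p).1 = p.2
      rw [e]
      exact Gas2_sw_sw ..
  set G := S.filter fun p => ¬ Bad (p.1 ∪ p.2) with hG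
  have hmem : ∀ p ∈ G, σ p ∈ G := by
    intro p hp
    obtain ⟨hp1, hp2⟩ := Finset.mem_filter.1 hp
    obtain ⟨h1, h2⟩ := Finset.mem_product.1 hp1
    obtain ⟨k1, k2, -, -⟩ := h _ h1 _ h2 hp2
    refine Finset.mem_filter.2 ⟨Finset.mem_product.2 ⟨k1, k2⟩, ?_⟩
    rw [hU]
    exact hp2
  have hneg : ∀ p ∈ G, F (σ p) = - F p := by
    intro p hp
    obtain ⟨hp1, hp2⟩ := Finset.mem_filter.1 hp
    obtain ⟨h1, h2⟩ := Finset.mem_product.1 hp1
    obtain ⟨-, -, k3, k4⟩ := h _ h1 _ h2 hp2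
    show gw β a (Gas2_sw (Kf (p.1 ∪ p.2)) p.1 p.2) * gw β a' (Gas2_sw (Kf (p.1 ∪ p.2)) p.2 p.1) *
      f (Gas2_sw (Kf (p.1 ∪ p.2)) p.1 p.2) (Gas2_sw (Kf (p.1 ∪ p.2)) p.2 p.1) =
      - (gw β a p.1 * gw β a' p.2 * f p.1 p.2)
    rw [k3, k4]
    ring
  have h0 : ∑ p ∈ G, F p = 0 := by
    have e1 : ∑ p ∈ G, F (σ p) = ∑ p ∈ G, F p :=
      Finset.sum_nbij' σ σ hmem hmem (fun p _ => hinv p) (fun p _ => hinv p) fun _ _ => rfl
    have e2 : ∑ p ∈ G, F (σ p) = - ∑ p ∈ G, F p := by
      rw [← Finset.sum_neg_distrib]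
      exact Finset.sum_congr rfl hneg
    linarith only [e1, e2]
  have e1 : ∑ D ∈ Om V X s, ∑ D' ∈ Om V' X' s', gw β a D * gw β a' D' * f D D' =
      ∑ p ∈ S.filter fun p => Bad (p.1 ∪ p.2), F p := by
    have e := Finset.sum_filter_add_sum_filter_not S (fun p => Bad (p.1 ∪ p.2)) F
    rw [← hG, h0, add_zero] at e
    rw [e, hS, Finset.sum_product]
  have e2 : ∑ D ∈ Om V X s, ∑ D' ∈ (Om V' X' s').filter (fun D' => Bad (D ∪ D')),
      gw β a D * gw β a' D' =
      ∑ p ∈ S.filter fun p => Bad (p.1 ∪ p.2), gw β a p.1 * gw β a' p.2 := by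
    rw [Finset.sum_filter, hS, Finset.sum_product]
    exact Finset.sum_congr rfl fun D _ => by rw [Finset.sum_filter]
  rw [e1]
  refine le_trans ?_ e2.ge
  refine (Finset.abs_sum_le_sum_abs _ _).trans (Finset.sum_le_sum fun p _ => ?_)
  have hp : 0 < gw β a p.1 * gw β a' p.2 := mul_pos (gw_pos ..) (gw_pos ..)
  show |gw β a p.1 * gw β a' p.2 * f p.1 p.2| ≤ _
  rw [abs_mul, abs_of_pos hp]
  exact mul_le_of_le_one_right hp.le (hf _ _)

theorem Gas2_g2P_le {ι : Type} (β : ℝ) (V V' : Finset Site) (X X' : Finset Bond) (s s' : ℕ)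
    (a a' : Site → ℝ) (t : Finset ι) (Ev : Finset Site → Finset Site → Prop)
    (Ev' : ι → Finset Site → Finset Site → Prop) (h : ∀ D D', Ev D D' → ∃ i ∈ t, Ev' i D D') :
    g2P β V X s a V' X' s' a' Ev ≤ ∑ i ∈ t, g2P β V X s a V' X' s' a' (Ev' i) := by
  have hZ : 0 < gZ β V X s a * gZ β V' X' s' a' := mul_pos (gZ_pos ..) (gZ_pos ..)
  simp only [g2P]
  rw [← Finset.sum_div]
  refine div_le_div_of_nonneg_right ?_ hZ.le
  rw [Finset.sum_comm]
  refine Finset.sum_le_sum fun D _ => ?_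
  simp only [Finset.sum_filter]
  rw [Finset.sum_comm]
  refine Finset.sum_le_sum fun D' _ => ?_
  have hp : 0 < gw β a D * gw β a' D' := mul_pos (gw_pos ..) (gw_pos ..)
  have hnn : ∀ i ∈ t, 0 ≤ if Ev' i D D' then gw β a D * gw β a' D' else 0 := by
    intro i _
    split_ifs
    · exact hp.le
    · exact le_rfl
  split_ifs with hE
  · obtain ⟨i, hi, hE'⟩ := h D D' hE
    have := Finset.single_le_sum hnn hi
    rwa [if_pos hE'] at this
  · exact Finset.sum_nonneg hnn

/-! ### Translations -/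

def Gas2_sh (u : Site) (S : Finset Site) : Finset Site := S.image fun y => y + u

def Gas2_shB (u : Site) (T : Finset Bond) : Finset Bond := T.image (shiftB u)

theorem Gas2_mem_sh {u y : Site} {S : Finset Site} : y ∈ Gas2_sh u S ↔ y - u ∈ S := by
  simp only [Gas2_sh, Finset.mem_image]
  constructor
  · rintro ⟨z, hz, rfl⟩
    simpa using hz
  · intro h
    exact ⟨y - u, h, by simp⟩

theorem Gas2_shiftB_neg (u : Site) (b : Bond) : shiftB (-u) (shiftB u b) = b := by
  simp [shiftB]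

theorem Gas2_shiftB_neg' (u : Site) (b : Bond) : shiftB u (shiftB (-u) b) = b := by
  simp [shiftB]

theorem Gas2_mem_shB {u : Site} {b : Bond} {T : Finset Bond} :
    b ∈ Gas2_shB u T ↔ shiftB (-u) b ∈ T := by
  simp only [Gas2_shB, Finset.mem_image]
  constructor
  · rintro ⟨z, hz, rfl⟩
    rwa [Gas2_shiftB_neg]
  · intro h
    exact ⟨_, h, Gas2_shiftB_neg' u b⟩

theorem Gas2_sh_neg (u : Site) (S : Finset Site) : Gas2_sh (-u) (Gas2_sh u S) = S := by
  ext y
  simp [Gas2_mem_sh]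

theorem Gas2_sh_neg' (u : Site) (S : Finset Site) : Gas2_sh u (Gas2_sh (-u) S) = S := by
  ext y
  simp [Gas2_mem_sh]

theorem Gas2_shB_neg (u : Site) (T : Finset Bond) : Gas2_shB (-u) (Gas2_shB u T) = T := by
  ext b
  rw [Gas2_mem_shB, Gas2_mem_shB, neg_neg, Gas2_shiftB_neg]

theorem Gas2_shB_neg' (u : Site) (T : Finset Bond) : Gas2_shB u (Gas2_shB (-u) T) = T := by
  ext b
  rw [Gas2_mem_shB, Gas2_mem_shB, neg_neg, Gas2_shiftB_neg']

theorem Gas2_cut_sh (u : Site) (S : Finset Site) :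
    cut (Gas2_sh u S) = Gas2_shB u (cut S) := by
  ext b
  rw [Gas2_mem_shB, mem_cut, mem_cut, Gas2_mem_sh, Gas2_mem_sh, tip_shiftB]
  simp [shiftB, sub_eq_add_neg]

theorem Gas2_conn_sh {u : Site} {T : Finset Bond} {b b' : Bond}
    (h : Conn (Gas2_shB u T) b b') : Conn T (shiftB (-u) b) (shiftB (-u) b') := by
  induction h with
  | refl => exact Relation.ReflTransGen.refl
  | tail _ h2 ih =>
    exact Relation.ReflTransGen.tail ih
      ⟨Gas2_mem_shB.1 h2.1, Gas2_mem_shB.1 h2.2.1, (adj_shiftB _ _ _).2 h2.2.2⟩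

theorem Gas2_small_sh {u : Site} {s : ℕ} {T : Finset Bond} (h : Small s T) :
    Small s (Gas2_shB u T) := by
  rintro b hb ⟨b1, b2, k1, k2, hn⟩
  refine h _ (Gas2_mem_shB.1 hb) ⟨_, _, Gas2_conn_sh k1, Gas2_conn_sh k2, fun h' => hn ?_⟩
  intro i
  have := h' i
  simpa [shiftB] using this

theorem Gas2_sh_mem {u : Site} {V D : Finset Site} {X : Finset Bond} {s : ℕ}
    (hD : D ∈ Om V X s) : Gas2_sh u D ∈ Om (Gas2_sh u V) (Gas2_shB u X) s := by
  simp only [Om, Finset.mem_filter, Finset.mem_powerset] at hD ⊢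
  obtain ⟨hDV, hDs, hDX⟩ := hD
  refine ⟨fun y hy => Gas2_mem_sh.2 (hDV (Gas2_mem_sh.1 hy)), ?_, ?_⟩
  · rw [Gas2_cut_sh]
    exact Gas2_small_sh hDs
  · rw [Gas2_cut_sh, Finset.disjoint_left]
    intro b hb hb'
    exact Finset.disjoint_left.1 hDX (Gas2_mem_shB.1 hb) (Gas2_mem_shB.1 hb')

theorem Gas2_gw_sh (β : ℝ) (a : Site → ℝ) (u : Site) (D : Finset Site) :
    gw β a (Gas2_sh u D) = gw β (fun y => a (y + u)) D := by
  have hi : Function.Injective (shiftB u) := fun b b' h => by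
    rw [← Gas2_shiftB_neg u b, h, Gas2_shiftB_neg]
  simp only [gw, w]
  rw [Gas2_cut_sh, Gas2_shB, Finset.card_image_of_injective _ hi, Gas2_sh,
    Finset.sum_image fun y _ z _ h => add_right_cancel h]

theorem Gas2_sum_sh (β : ℝ) (V : Finset Site) (X : Finset Bond) (s : ℕ) (a : Site → ℝ)
    (u : Site) (g : Finset Site → ℝ) :
    ∑ D ∈ Om V X s, gw β a D * g D =
      ∑ D ∈ Om (Gas2_sh (-u) V) (Gas2_shB (-u) X) s,
        gw β (fun y => a (y + u)) D * g (Gas2_sh u D) := by
  refine Finset.sum_nbij' (Gas2_sh (-u)) (Gas2_sh u) (fun D hD => Gas2_sh_mem hD)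
    (fun D hD => ?_) (fun D _ => Gas2_sh_neg' u D) (fun D _ => Gas2_sh_neg u D) fun D _ => ?_
  · have := Gas2_sh_mem (u := u) hD
    rwa [Gas2_sh_neg', Gas2_shB_neg'] at this
  · rw [← Gas2_gw_sh, Gas2_sh_neg']

theorem Gas2_gP_eq (β : ℝ) (V : Finset Site) (X : Finset Bond) (s : ℕ) (a : Site → ℝ)
    (Ev : Finset Site → Prop) :
    gP β V X s a Ev = (∑ D ∈ Om V X s, gw β a D * if Ev D then 1 else 0) / gZ β V X s a := by
  rw [gP, Finset.sum_filter]
  congr 1
  exact Finset.sum_congr rfl fun D _ => by split_ifs <;> simp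

theorem Gas2_gP_sh (β : ℝ) (V : Finset Site) (X : Finset Bond) (s : ℕ) (a : Site → ℝ)
    (u : Site) (Ev : Finset Site → Prop) :
    gP β V X s a Ev = gP β (Gas2_sh (-u) V) (Gas2_shB (-u) X) s (fun y => a (y + u))
      fun D => Ev (Gas2_sh u D) := by
  have e := Gas2_sum_sh β V X s a u fun _ => 1
  simp only [mul_one] at e
  rw [Gas2_gP_eq, Gas2_gP_eq, Gas2_sum_sh β V X s a u, gZ, gZ, e]

theorem Gas2_gas_sh {β : ℝ} {V : Finset Site} {s : ℕ} {a : Site → ℝ} (hG : Gas β V s a)
    (u : Site) : Gas β (Gas2_sh (-u) V) s fun y => a (y + u) := by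
  obtain ⟨lo, hi, h⟩ := hG.box
  refine ⟨hG.hβ, ⟨lo - u, hi - u, fun x => ?_⟩, fun x => hG.fld _⟩
  rw [Gas2_mem_sh, h]
  refine forall_congr' fun i => ?_
  simp only [Pi.sub_apply, Pi.neg_apply]
  omega

end Pool.Agent.Work.MP_b59478_pr
end
end

-- merged part: Pool.Agent.Work.MP_b59478_pr.Gas2
section
/-! Locality of the gas by swapping.
First translate the second gas by -u (cut, Small, Om, gw are translation covariant), so u = 0.
For a pair (D, D') let K be the set of points of D union D' star-connected inside D union D' to a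
point of ball x 1. If K is inside ball x (R - 1), swap: (D minus K union D' inter K,
D' minus K union D inter K). The union, hence K, is unchanged, so this is an involution; pieces
inside and outside K are not star-adjacent, so cut of the new set is the disjoint union of
cut (D minus K) and cut (D' inter K), no bond of one adjacent to a bond of the other; hence the new
sets are in Om and the product of the weights is unchanged. On ball x 1 the two sets are
exchanged. So the difference of the probabilities is at most the g2P-probability that K leaves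
ball x (R - 1), which is at most 27 * ph ^ R by tail with d = R - 1 (R = 0 is trivial).
cov: two copies of the same gas, K the star-component of x in D union D' (empty if x is in
neither); swapping K changes the sign of (1_x D - 1_x D') (1_y D - 1_y D') when y is not in K.
-/

set_option autoImplicit false

noncomputable section

namespace Pool.Agent.Work.MP_b59478_pr

open Classical Filter Topology MeasureTheory
open scoped symmDiff Pointwise

theorem Gas2_diff (β : ℝ) (V V' : Finset Site) (X X' : Finset Bond) (s s' : ℕ)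
    (a a' : Site → ℝ) (g g' h h' : Finset Site → ℝ) :
    (∑ D ∈ Om V X s, gw β a D * g D) / gZ β V X s a *
        ((∑ D ∈ Om V' X' s', gw β a' D * g' D) / gZ β V' X' s' a') -
      (∑ D ∈ Om V X s, gw β a D * h D) / gZ β V X s a *
        ((∑ D ∈ Om V' X' s', gw β a' D * h' D) / gZ β V' X' s' a') =
    (∑ D ∈ Om V X s, ∑ D' ∈ Om V' X' s', gw β a D * gw β a' D' * (g D * g' D' - h D * h' D')) /
      (gZ β V X s a * gZ β V' X' s' a') := by
  rw [div_mul_div_comm, div_mul_div_comm, ← sub_div, Finset.sum_mul_sum, Finset.sum_mul_sum,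
    ← Finset.sum_sub_distrib]
  congr 1
  refine Finset.sum_congr rfl fun D _ => ?_
  rw [← Finset.sum_sub_distrib]
  exact Finset.sum_congr rfl fun D' _ => by ring

theorem Gas2_one (β : ℝ) (V : Finset Site) (X : Finset Bond) (s : ℕ) (a : Site → ℝ) :
    (∑ D ∈ Om V X s, gw β a D * 1) / gZ β V X s a = 1 := by
  simp only [mul_one]
  exact div_self (gZ_pos β V X s a).ne'

theorem Gas2_touch_near {K : Finset Site} {x : Site} {r : ℕ} (hK : ∀ z ∈ K, Near r z x)
    {b : Bond} (hb : Gas2_Touch K b) : Near (r + 1) b.1 x := by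
  rcases hb with h | h
  · exact (hK _ h).mono (by omega)
  · have := (near_tip b).trans (hK _ h)
    rwa [add_comm] at this

theorem Gas2_sw_loc {K V V' D D' : Finset Site} {X X' : Finset Bond} {s s' : ℕ} {x : Site}
    {r : ℕ} (hK : Gas2_Cl K (D ∪ D')) (hKx : ∀ z ∈ K, Near r z x)
    (hs : s = s' ∨ 2 * (r + 1) ≤ s)
    (hV : ∀ y, Near (r + 1) y x → y ∈ V' → y ∈ V)
    (hX : ∀ b : Bond, Near (r + 1) b.1 x → b ∈ X → b ∈ X')
    (hD : D ∈ Om V X s) (hD' : D' ∈ Om V' X' s') : Gas2_sw K D D' ∈ Om V X s := by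
  simp only [Om, Finset.mem_filter, Finset.mem_powerset] at hD'
  obtain ⟨hDV, hDs, hDX⟩ := hD'
  refine Gas2_sw_mem hK hD (fun y hy => ?_) ?_ fun b hb ht hbX => ?_
  · obtain ⟨h1, h2⟩ := Finset.mem_inter.1 hy
    exact hV y ((hKx y h2).mono (by omega)) (hDV h1)
  · rcases hs with rfl | hs
    · exact hDs.mono (Finset.filter_subset _ _)
    · rintro b hb ⟨b1, b2, k1, k2, hn⟩
      have t1 := Gas2_touch_near hKx (Finset.mem_filter.1 (k1.mem hb)).2
      have t2 := Gas2_touch_near hKx (Finset.mem_filter.1 (k2.mem hb)).2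
      exact hn ((t1.trans t2.symm).mono (by omega))
  · exact Finset.disjoint_left.1 hDX hb (hX b (Gas2_touch_near hKx ht) hbX)

theorem Gas2_loc0 {β : ℝ} {V V' : Finset Site} {s s' : ℕ} {a a' : Site → ℝ} (hG : Gas β V s a)
    (hG' : Gas β V' s' a') (X X' : Finset Bond) (x : Site) (r : ℕ)
    (hs : s = s' ∨ (2 * (r + 1) ≤ s ∧ 2 * (r + 1) ≤ s'))
    (hV : ∀ y, Near (r + 1) y x → (y ∈ V ↔ y ∈ V'))
    (ha : ∀ y, Near (r + 1) y x → a y = a' y)
    (hX : ∀ b : Bond, Near (r + 1) b.1 x → (b ∈ X ↔ b ∈ X'))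
    (Ev Ev' : Finset Site → Prop)
    (hE : ∀ D D' : Finset Site, (∀ y, Near 1 y x → (y ∈ D ↔ y ∈ D')) → (Ev D ↔ Ev' D')) :
    |gP β V X s a Ev - gP β V' X' s' a' Ev'| ≤ 27 * ph ^ (r + 1) := by
  have e := Gas2_diff β V V' X X' s s' a a' (fun D => if Ev D then 1 else 0) (fun _ => 1)
    (fun _ => 1) fun D => if Ev' D then 1 else 0
  rw [Gas2_one, Gas2_one, ← Gas2_gP_eq, ← Gas2_gP_eq, mul_one, one_mul] at e
  rw [e]
  refine (Gas2_swap β V V' X X' s s' a a' (Gas2_K (ball x 1))
    (fun U => ∃ z ∈ Gas2_K (ball x 1) U, ¬ Near r z x)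
    (fun D D' => (if Ev D then 1 else 0) * 1 - 1 * if Ev' D' then 1 else 0) ?_ ?_).trans ?_
  · intro D D'
    split_ifs <;> simp
  · intro D hD D' hD' hB
    have hKx : ∀ z ∈ Gas2_K (ball x 1) (D ∪ D'), Near r z x := fun z hz => by
      by_contra hn
      exact hB ⟨z, hz, hn⟩
    have hK := Gas2_cl_K (ball x 1) (D ∪ D')
    have hK' : Gas2_Cl (Gas2_K (ball x 1) (D ∪ D')) (D' ∪ D) := by
      rw [Finset.union_comm D' D]
      exact hK
    have hin : ∀ y, Near 1 y x → y ∈ D ∨ y ∈ D' → y ∈ Gas2_K (ball x 1) (D ∪ D') :=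
      fun y hy h => Gas2_mem_K_of (mem_ball.2 hy) (Finset.mem_union.2 h)
    refine ⟨Gas2_sw_loc hK hKx (hs.imp id And.left) (fun y hy => (hV y hy).2)
        (fun b hb => (hX b hb).1) hD hD',
      Gas2_sw_loc hK' hKx (hs.imp Eq.symm And.right) (fun y hy => (hV y hy).1)
        (fun b hb => (hX b hb).2) hD' hD,
      Gas2_gw_sw β hK fun y hy => ha y ((hKx y hy).mono (by omega)), ?_⟩
    have e1 : Ev (Gas2_sw (Gas2_K (ball x 1) (D ∪ D')) D D') ↔ Ev' D' := by
      refine hE _ _ fun y hy => ?_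
      have := hin y hy
      rw [Gas2_mem_sw]
      (clear * - hs this; tauto)
    have e2 : Ev D ↔ Ev' (Gas2_sw (Gas2_K (ball x 1) (D ∪ D')) D' D) := by
      refine hE _ _ fun y hy => ?_
      have := hin y hy
      rw [Gas2_mem_sw]
      (clear * - hs e1 this; tauto)
    simp only [e1, ← e2]
    ring
  · refine (Gas2_g2P_le β V V' X X' s s' a a' (ball x 1) _
      (fun y D D' => y ∈ D ∪ D' ∧ ∃ z, SConn (D ∪ D') y z ∧ ∃ i, (r : ℤ) ≤ |z i - y i|)
      ?_).trans ?_
    · rintro D D' ⟨z, hz, hn⟩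
      obtain ⟨-, y, hy1, hy2, hc⟩ := Finset.mem_filter.1 hz
      refine ⟨y, hy1, hy2, z, hc, ?_⟩
      simp only [Near, not_forall, not_le] at hn
      obtain ⟨i, hi⟩ := hn
      refine ⟨i, ?_⟩
      have h1 := mem_ball.1 hy1 i
      have h2 := abs_sub_le (z i) (y i) (x i)
      push_cast at h1
      omega
    · refine (Finset.sum_le_card_nsmul _ _ _ fun y _ => tail hG hG' X X' y r).trans ?_
      rw [card_ball]
      simp

theorem locality {β : ℝ} {V V' : Finset Site} {s s' : ℕ} {a a' : Site → ℝ} (hG : Gas β V s a)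
    (hG' : Gas β V' s' a') (X X' : Finset Bond) (x u : Site) (R : ℕ)
    (hs : s = s' ∨ (2 * R ≤ s ∧ 2 * R ≤ s'))
    (hV : ∀ y, Near R y x → (y ∈ V ↔ y + u ∈ V'))
    (ha : ∀ y, Near R y x → a y = a' (y + u))
    (hX : ∀ b : Bond, Near R b.1 x → (b ∈ X ↔ shiftB u b ∈ X'))
    (Ev Ev' : Finset Site → Prop)
    (hE : ∀ D D' : Finset Site, (∀ y, Near 1 y x → (y ∈ D ↔ y + u ∈ D')) → (Ev D ↔ Ev' D')) :
    |gP β V X s a Ev - gP β V' X' s' a' Ev'| ≤ 27 * ph ^ R := by
  rcases R with _ | r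
  · have h1 := gP_nonneg β V X s a Ev
    have h2 := gP_le_one β V X s a Ev
    have h3 := gP_nonneg β V' X' s' a' Ev'
    have h4 := gP_le_one β V' X' s' a' Ev'
    rw [abs_le, pow_zero]
    constructor <;> linarith only [h1, h4, h2, h3]
  · rw [Gas2_gP_sh β V' X' s' a' u]
    refine Gas2_loc0 hG (Gas2_gas_sh hG' u) X _ x r hs (fun y hy => ?_) ha (fun b hb => ?_) _ _
      fun D D' h => hE _ _ fun y hy => ?_
    · rw [Gas2_mem_sh, sub_neg_eq_add]
      exact hV y hy
    · rw [Gas2_mem_shB, neg_neg]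
      exact hX b hb
    · rw [Gas2_mem_sh, add_sub_cancel_right]
      exact h y hy

theorem cov {β : ℝ} {V : Finset Site} {s : ℕ} {a : Site → ℝ} (hG : Gas β V s a)
    (X : Finset Bond) (x y : Site) (i : Fin 3) :
    |gP β V X s a (fun D => x ∈ D ∧ y ∈ D) -
      gP β V X s a (fun D => x ∈ D) * gP β V X s a (fun D => y ∈ D)| ≤
      ph ^ ((x i - y i).natAbs + 1) := by
  have e := Gas2_diff β V V X X s s a a (fun D => if x ∈ D ∧ y ∈ D then 1 else 0) (fun _ => 1)
    (fun D => if y ∈ D then 1 else 0) fun D => if x ∈ D then 1 else 0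
  have g1 := Gas2_gP_eq β V X s a fun D => x ∈ D ∧ y ∈ D
  have g2 := Gas2_gP_eq β V X s a fun D => x ∈ D
  have g3 := Gas2_gP_eq β V X s a fun D => y ∈ D
  have e' : gP β V X s a (fun D => x ∈ D ∧ y ∈ D) -
      gP β V X s a (fun D => x ∈ D) * gP β V X s a (fun D => y ∈ D) =
      (∑ D ∈ Om V X s, ∑ D' ∈ Om V X s, gw β a D * gw β a D' *
        ((if x ∈ D ∧ y ∈ D then 1 else 0) * 1 -
          (if y ∈ D then 1 else 0) * if x ∈ D' then 1 else 0)) /
        (gZ β V X s a * gZ β V X s a) := by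
    rw [← e, Gas2_one, mul_one, mul_comm, g1, g2, g3]
    congr!
  rw [e']
  refine (Gas2_swap β V V X X s s a a (Gas2_K {x}) (fun U => y ∈ Gas2_K {x} U)
    (fun D D' => (if x ∈ D ∧ y ∈ D then 1 else 0) * 1 -
      (if y ∈ D then 1 else 0) * if x ∈ D' then 1 else 0) ?_ ?_).trans ?_
  · intro D D'
    split_ifs <;> simp
  · intro D hD D' hD' hB
    have hK := Gas2_cl_K {x} (D ∪ D')
    have hK' : Gas2_Cl (Gas2_K {x} (D ∪ D')) (D' ∪ D) := by
      rw [Finset.union_comm D' D]
      exact hK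
    have hin : x ∈ D ∨ x ∈ D' → x ∈ Gas2_K {x} (D ∪ D') :=
      fun h => Gas2_mem_K_of (Finset.mem_singleton_self x) (Finset.mem_union.2 h)
    have hsw : ∀ {K E E' : Finset Site}, Gas2_Cl K (E ∪ E') → E ∈ Om V X s → E' ∈ Om V X s →
        Gas2_sw K E E' ∈ Om V X s := by
      intro K E E' h1 h2 h3
      simp only [Om, Finset.mem_filter, Finset.mem_powerset] at h3
      exact Gas2_sw_mem h1 h2 (Finset.inter_subset_left.trans h3.1)
        (h3.2.1.mono (Finset.filter_subset _ _)) fun b hb _ => Finset.disjoint_left.1 h3.2.2 hb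
    refine ⟨hsw hK hD hD', hsw hK' hD' hD, Gas2_gw_sw β hK fun _ _ => rfl, ?_⟩
    have e1 : x ∈ Gas2_sw (Gas2_K {x} (D ∪ D')) D D' ↔ x ∈ D' := by
      rw [Gas2_mem_sw]
      (clear * - hin; tauto)
    have e2 : x ∈ Gas2_sw (Gas2_K {x} (D ∪ D')) D' D ↔ x ∈ D := by
      rw [Gas2_mem_sw]
      (clear * - hin e1; tauto)
    have e3 : y ∈ Gas2_sw (Gas2_K {x} (D ∪ D')) D D' ↔ y ∈ D := by
      rw [Gas2_mem_sw]
      (clear * - hin e1 e2 hB; tauto)
    simp only [e1, e2, e3]
    by_cases k1 : x ∈ D <;> by_cases k2 : x ∈ D' <;> by_cases k3 : y ∈ D <;> simp [k1, k2, k3]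
  · refine (Gas2_g2P_le β V V X X s s a a {x} _
      (fun x' D D' => x' ∈ D ∪ D' ∧ ∃ z, SConn (D ∪ D') x' z ∧
        ∃ j, (((x i - y i).natAbs : ℕ) : ℤ) ≤ |z j - x' j|) ?_).trans ?_
    · intro D D' hz
      obtain ⟨-, x', hy1, hy2, hc⟩ := Finset.mem_filter.1 hz
      refine ⟨x', hy1, hy2, y, hc, i, ?_⟩
      rw [Finset.mem_singleton.1 hy1, Int.natCast_natAbs, abs_sub_comm]
    · rw [Finset.sum_singleton]
      exact tail hG hG X X x _

end Pool.Agent.Work.MP_b59478_pr
end
end

-- merged part: Pool.Agent.Work.MP_b59478_pr.SumPh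
section
/-! telescope: order the bonds lexicographically by (b.1 0, b.1 1, b.1 2, b.2); the order is
translation invariant. By gZ_insert, log gZ0 X - log gZ0 empty is the sum over b in X of
log (1 - P (b in cut D)), P the gas with forbidden set the bonds of X before b. Every term is in
[-log 2, 0] (gP_cut). For b in G compare the term of b in X' with the term of shiftB (u b) b in X
by locality, |log (1 - p) - log (1 - p')| <= 2 |p - p'|.
sum_ph: group the points by their sup-distance d to x (at most (2 d + 1) ^ 3 points), or bound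
ph ^ max by the product over the coordinates of (1/10) ^ |x i - y i|.
slab_compare: apply telescope with X = nbhd (Kset p Sg B), X' = nbhd (cut B), G the bonds of X'
whose base layer t is at distance d >= 3 from Sg, u = (p t - t) e_0, R = d - 3: p is a translation
on the layers within d - 1 of t, p is injective off Sg. Bound ph ^ (d - 3) and the number of the
remaining bonds by the sum over Sg, and pass from nbhd (cut B) to cut B (factor 81 / ph).
-/

set_option autoImplicit false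

noncomputable section

namespace Pool.Agent.Work.MP_b59478_pr

open Classical Filter Topology MeasureTheory
open scoped symmDiff Pointwise

theorem SumPh_nat (T : Finset ℕ) : ∑ n ∈ T, (1 / 10 : ℝ) ^ n ≤ 10 / 9 := by
  have h := (summable_geometric_of_lt_one (r := (1 / 10 : ℝ)) (by norm_num) (by norm_num)).sum_le_tsum
    T fun _ _ => by positivity
  rw [tsum_geometric_of_lt_one (by norm_num) (by norm_num)] at h
  linarith only [h]

theorem SumPh_int (c : ℤ) (T : Finset ℤ) : ∑ t ∈ T, (1 / 10 : ℝ) ^ (c - t).natAbs ≤ 11 / 9 := by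
  rw [← Finset.sum_filter_add_sum_filter_not T fun t => t ≤ c]
  have h1 : ∑ t ∈ T.filter fun t => t ≤ c, (1 / 10 : ℝ) ^ (c - t).natAbs ≤ 10 / 9 := by
    rw [← Finset.sum_image (s := T.filter fun t => t ≤ c) (g := fun t => (c - t).natAbs)
      (f := fun n => (1 / 10 : ℝ) ^ n)]
    · exact SumPh_nat _
    · intro a ha b hb hab
      simp only [Finset.coe_filter, Set.mem_setOf_eq] at ha hb hab
      omega
  have h2 : ∑ t ∈ T.filter fun t => ¬ t ≤ c, (1 / 10 : ℝ) ^ (c - t).natAbs ≤ 1 / 9 := by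
    have e : ∀ t ∈ T.filter fun t => ¬ t ≤ c, (1 / 10 : ℝ) ^ (c - t).natAbs =
        1 / 10 * (1 / 10 : ℝ) ^ ((c - t).natAbs - 1) := by
      intro t ht
      have := (Finset.mem_filter.1 ht).2
      rw [← pow_succ']
      congr 1
      omega
    rw [Finset.sum_congr rfl e, ← Finset.mul_sum,
      ← Finset.sum_image (s := T.filter fun t => ¬ t ≤ c) (g := fun t => (c - t).natAbs - 1)
      (f := fun n => (1 / 10 : ℝ) ^ n)]
    · have := SumPh_nat ((T.filter fun t => ¬ t ≤ c).image fun t => (c - t).natAbs - 1)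
      linarith only [this]
    · intro a ha b hb hab
      simp only [Finset.coe_filter, Set.mem_setOf_eq] at ha hb hab
      omega
  linarith only [h1, h2]

theorem sum_ph (x : Site) (V : Finset Site) (d : Site → ℕ)
    (hd : ∀ y ∈ V, ∀ i, |x i - y i| ≤ (d y : ℤ)) : ∑ y ∈ V, ph ^ d y ≤ 2 := by
  calc ∑ y ∈ V, ph ^ d y ≤ ∑ y ∈ V, ∏ i, (1 / 10 : ℝ) ^ (x i - y i).natAbs := by
        refine Finset.sum_le_sum fun y hy => ?_
        rw [Finset.prod_pow_eq_pow_sum, show ph = (1 / 10 : ℝ) ^ 3 by unfold ph; norm_num,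
          ← pow_mul]
        refine pow_le_pow_of_le_one (by norm_num) (by norm_num) ?_
        have h0 := hd y hy 0
        have h1 := hd y hy 1
        have h2 := hd y hy 2
        rw [Int.abs_eq_natAbs] at h0 h1 h2
        rw [Fin.sum_univ_three]
        omega
    _ ≤ ∑ y ∈ Fintype.piFinset fun i => V.image fun y => y i,
          ∏ i, (1 / 10 : ℝ) ^ (x i - y i).natAbs := by
        refine Finset.sum_le_sum_of_subset_of_nonneg (fun y hy => ?_) fun _ _ _ => by positivity
        exact Fintype.mem_piFinset.2 fun i => Finset.mem_image_of_mem _ hy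
    _ = ∏ i, ∑ t ∈ V.image fun y => y i, (1 / 10 : ℝ) ^ (x i - t).natAbs :=
        (Finset.prod_univ_sum _ fun i t => (1 / 10 : ℝ) ^ (x i - t).natAbs).symm
    _ ≤ ∏ _i : Fin 3, (11 / 9 : ℝ) :=
        Finset.prod_le_prod (fun i _ => by positivity) fun i _ => SumPh_int _ _
    _ ≤ 2 := by norm_num

end Pool.Agent.Work.MP_b59478_pr
end
end

-- merged part: Pool.Agent.Work.MP_b59478_pr.Th1
section
/-! The exponential family in the field h.
card (A symmdiff D) = card A + card (D minus A) - card (D inter A) gives ZA_eq. EA is the derivative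
of log ZA and VA the derivative of EA (finite sums of exponentials). VA_le: Mg (A symmdiff D) is a
constant plus the sum over x in V of plus or minus 2 * 1_{x in D}; expand the variance into
covariances, use cov (choose i maximising the distance) and sum_ph.
-/

set_option autoImplicit false

noncomputable section

namespace Pool.Agent.Work.MP_b59478_pr

open Classical Filter Topology MeasureTheory
open scoped symmDiff Pointwise

theorem gas_fld {β : ℝ} (hβ : 1000 ≤ β) {V : Finset Site} (hV : IsBox V) {s : ℕ} {h : ℝ}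
    (hh : HOk s h) (A : Finset Site) : Gas β V s (fld A h) := by
  refine ⟨hβ, hV, fun x => ?_⟩
  have e : |fld A h x| = 2 * |h| := by
    unfold fld
    split_ifs
    · rw [abs_neg, abs_mul, abs_two]
    · rw [abs_mul, abs_two]
  rw [e]
  exact hh

theorem HOk.mono {s : ℕ} {h t : ℝ} (hh : HOk s h) (ht : |t| ≤ |h|) : HOk s t := by
  unfold HOk at *
  refine le_trans ?_ hh
  gcongr

/-- The sign of a site times two. -/
def Th1_sg (A : Finset Site) (x : Site) : ℝ := if x ∈ A then -2 else 2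

/-- Indicator of a proposition. -/
def Th1_ind (P : Prop) : ℝ := if P then 1 else 0

/-- Expectation in the gas. -/
def Th1_Ex (β : ℝ) (V : Finset Site) (X : Finset Bond) (s : ℕ) (a : Site → ℝ)
    (f : Finset Site → ℝ) : ℝ := (∑ D ∈ Om V X s, gw β a D * f D) / gZ β V X s a

theorem Th1_Mg (V A D : Finset Site) : Mg V (A ∆ D) = Mg V A + ∑ x ∈ D, Th1_sg A x := by
  have h1 : (A ∆ D).card = (A \ D).card + (D \ A).card := by
    rw [Finset.symmDiff_def, Finset.card_union_of_disjoint]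
    exact disjoint_sdiff_sdiff
  have h2 : (A \ D).card + (D ∩ A).card = A.card := by
    rw [Finset.inter_comm]; exact Finset.card_sdiff_add_card_inter A D
  have h3 : ∑ x ∈ D, Th1_sg A x = -2 * ((D ∩ A).card : ℝ) + 2 * ((D \ A).card : ℝ) := by
    rw [← Finset.sum_inter_add_sum_sdiff D A]
    congr 1
    · rw [Finset.sum_congr rfl (g := fun _ => (-2 : ℝ))]
      · simp [mul_comm]
      · intro x hx
        simp [Th1_sg, (Finset.mem_inter.1 hx).2]
    · rw [Finset.sum_congr rfl (g := fun _ => (2 : ℝ))]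
      · simp [mul_comm]
      · intro x hx
        simp [Th1_sg, (Finset.mem_sdiff.1 hx).2]
  have h2' : ((A \ D).card : ℝ) + (D ∩ A).card = A.card := by exact_mod_cast h2
  rw [h3, Mg, Mg, h1]
  push_cast
  linarith only [h2']

theorem Th1_wt (β : ℝ) (V A D : Finset Site) (h : ℝ) :
    w β D * Real.exp (h * Mg V (A ∆ D)) = Real.exp (h * Mg V A) * gw β (fld A h) D := by
  have e : ∑ x ∈ D, fld A h x = h * ∑ x ∈ D, Th1_sg A x := by
    rw [Finset.mul_sum]
    refine Finset.sum_congr rfl fun x _ => ?_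
    unfold fld Th1_sg
    split_ifs <;> ring
  rw [Th1_Mg, gw, e, mul_add, Real.exp_add]
  ring

theorem ZA_eq (β : ℝ) (V : Finset Site) (X : Finset Bond) (s : ℕ) (A : Finset Site) (h : ℝ) :
    ZA β V X s A h = Real.exp (h * Mg V A) * gZ β V X s (fld A h) := by
  rw [ZA, gZ, Finset.mul_sum]
  exact Finset.sum_congr rfl fun D _ => Th1_wt β V A D h

theorem ZA_pos (β : ℝ) (V : Finset Site) (X : Finset Bond) (s : ℕ) (A : Finset Site) (h : ℝ) :
    0 < ZA β V X s A h := by
  rw [ZA_eq]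
  exact mul_pos (Real.exp_pos _) (gZ_pos _ _ _ _ _)

theorem ZA_zero (β : ℝ) (V : Finset Site) (X : Finset Bond) (s : ℕ) (A : Finset Site) :
    ZA β V X s A 0 = gZ0 β V X s := by
  simp [ZA, gZ0]

theorem Th1_Ex_eq (β : ℝ) (V : Finset Site) (X : Finset Bond) (s : ℕ) (A : Finset Site) (h : ℝ)
    (f : Finset Site → ℝ) :
    (∑ D ∈ Om V X s, w β D * Real.exp (h * Mg V (A ∆ D)) * f D) / ZA β V X s A h =
      Th1_Ex β V X s (fld A h) f := by
  rw [ZA_eq, Th1_Ex]
  simp only [Th1_wt, mul_assoc]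
  rw [← Finset.mul_sum, mul_div_mul_left _ _ (Real.exp_pos _).ne']

theorem Th1_gP (β : ℝ) (V : Finset Site) (X : Finset Bond) (s : ℕ) (a : Site → ℝ)
    (Ev : Finset Site → Prop) :
    gP β V X s a Ev = Th1_Ex β V X s a fun D => Th1_ind (Ev D) := by
  rw [gP, Th1_Ex, Finset.sum_filter]
  congr 1
  refine Finset.sum_congr rfl fun D _ => ?_
  unfold Th1_ind
  split_ifs <;> simp

theorem Th1_Ex_congr (β : ℝ) (V : Finset Site) (X : Finset Bond) (s : ℕ) (a : Site → ℝ)
    {f g : Finset Site → ℝ} (h : ∀ D ∈ Om V X s, f D = g D) :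
    Th1_Ex β V X s a f = Th1_Ex β V X s a g := by
  rw [Th1_Ex, Th1_Ex, Finset.sum_congr rfl fun D hD => by rw [h D hD]]

theorem Th1_Ex_const (β : ℝ) (V : Finset Site) (X : Finset Bond) (s : ℕ) (a : Site → ℝ) (c : ℝ) :
    Th1_Ex β V X s a (fun _ => c) = c := by
  rw [Th1_Ex, ← Finset.sum_mul]
  exact mul_div_cancel_left₀ c (gZ_pos β V X s a).ne'

theorem Th1_Ex_add (β : ℝ) (V : Finset Site) (X : Finset Bond) (s : ℕ) (a : Site → ℝ)
    (f g : Finset Site → ℝ) :
    Th1_Ex β V X s a (fun D => f D + g D) = Th1_Ex β V X s a f + Th1_Ex β V X s a g := by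
  simp only [Th1_Ex, mul_add, Finset.sum_add_distrib, add_div]

theorem Th1_Ex_mul (β : ℝ) (V : Finset Site) (X : Finset Bond) (s : ℕ) (a : Site → ℝ) (c : ℝ)
    (f : Finset Site → ℝ) :
    Th1_Ex β V X s a (fun D => c * f D) = c * Th1_Ex β V X s a f := by
  rw [Th1_Ex, Th1_Ex, ← mul_div_assoc, Finset.mul_sum]
  congr 1
  exact Finset.sum_congr rfl fun D _ => by ring

theorem Th1_Ex_sum (β : ℝ) (V : Finset Site) (X : Finset Bond) (s : ℕ) (a : Site → ℝ)
    (t : Finset Site) (f : Site → Finset Site → ℝ) :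
    Th1_Ex β V X s a (fun D => ∑ x ∈ t, f x D) = ∑ x ∈ t, Th1_Ex β V X s a (f x) := by
  simp only [Th1_Ex, Finset.mul_sum]
  rw [Finset.sum_comm, Finset.sum_div]

theorem Th1_sub {V D : Finset Site} {X : Finset Bond} {s : ℕ} (hD : D ∈ Om V X s) : D ⊆ V :=
  Finset.mem_powerset.1 (Finset.mem_filter.1 hD).1

theorem Th1_Mg' {V D : Finset Site} (hD : D ⊆ V) (A : Finset Site) :
    Mg V (A ∆ D) = Mg V A + ∑ x ∈ V, Th1_sg A x * Th1_ind (x ∈ D) := by
  rw [Th1_Mg]
  congr 1
  rw [← Finset.sum_subset hD (f := fun x => Th1_sg A x * Th1_ind (x ∈ D))]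
  · exact Finset.sum_congr rfl fun x hx => by simp [Th1_ind, hx]
  · intro x _ hx
    simp [Th1_ind, hx]

theorem Th1_EA (β : ℝ) (V : Finset Site) (X : Finset Bond) (s : ℕ) (A : Finset Site) (h : ℝ) :
    EA β V X s A h = Mg V A + ∑ x ∈ V, Th1_sg A x * gP β V X s (fld A h) fun D => x ∈ D := by
  rw [EA, Th1_Ex_eq, Th1_Ex_congr _ _ _ _ _ fun D hD => Th1_Mg' (Th1_sub hD) A, Th1_Ex_add,
    Th1_Ex_const, Th1_Ex_sum]
  congr 1
  refine Finset.sum_congr rfl fun x _ => ?_
  rw [Th1_Ex_mul, Th1_gP]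

theorem EA_eq (β : ℝ) (V : Finset Site) (X : Finset Bond) (s : ℕ) {A : Finset Site} (hA : A ⊆ V)
    (h : ℝ) : EA β V X s A h = ∑ x ∈ V, (if x ∈ A then 1 else -1) *
      (1 - 2 * gP β V X s (fld A h) fun D => x ∈ D) := by
  have e : Mg V A = ∑ x ∈ V, (if x ∈ A then (1 : ℝ) else -1) := by
    have e1 : ∀ x ∈ V, (if x ∈ A then (1 : ℝ) else -1) = 2 * (if x ∈ A then 1 else 0) - 1 := by
      intro x _
      split_ifs <;> norm_num
    rw [Finset.sum_congr rfl e1, Finset.sum_sub_distrib, ← Finset.mul_sum, Finset.sum_ite_mem,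
      Finset.inter_eq_right.2 hA, Mg]
    simp
  rw [Th1_EA, e, ← Finset.sum_add_distrib]
  refine Finset.sum_congr rfl fun x _ => ?_
  unfold Th1_sg
  split_ifs <;> ring

theorem Th1_deriv (β : ℝ) (V : Finset Site) (X : Finset Bond) (s : ℕ) (A : Finset Site)
    (f : Finset Site → ℝ) (h : ℝ) :
    HasDerivAt (fun t => ∑ D ∈ Om V X s, w β D * Real.exp (t * Mg V (A ∆ D)) * f D)
      (∑ D ∈ Om V X s, w β D * Real.exp (h * Mg V (A ∆ D)) * Mg V (A ∆ D) * f D) h := by
  refine HasDerivAt.fun_sum fun D _ => ?_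
  have h1 : HasDerivAt (fun t : ℝ => t * Mg V (A ∆ D)) (Mg V (A ∆ D)) h := by
    simpa using (hasDerivAt_id h).mul_const (Mg V (A ∆ D))
  have h2 := (h1.exp.const_mul (w β D)).mul_const (f D)
  simpa only [mul_assoc] using h2

theorem Th1_deriv_ZA (β : ℝ) (V : Finset Site) (X : Finset Bond) (s : ℕ) (A : Finset Site)
    (h : ℝ) : HasDerivAt (fun t => ZA β V X s A t)
      (∑ D ∈ Om V X s, w β D * Real.exp (h * Mg V (A ∆ D)) * Mg V (A ∆ D)) h := by
  have := Th1_deriv β V X s A (fun _ => 1) h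
  simpa only [mul_one, ZA] using this

theorem hasDerivAt_logZA (β : ℝ) (V : Finset Site) (X : Finset Bond) (s : ℕ) (A : Finset Site)
    (h : ℝ) : HasDerivAt (fun t => Real.log (ZA β V X s A t)) (EA β V X s A h) h :=
  (Th1_deriv_ZA β V X s A h).log (ZA_pos β V X s A h).ne'

theorem hasDerivAt_EA (β : ℝ) (V : Finset Site) (X : Finset Bond) (s : ℕ) (A : Finset Site)
    (h : ℝ) : HasDerivAt (EA β V X s A) (VA β V X s A h) h := by
  have hZ := ZA_pos β V X s A h
  have h1 := (Th1_deriv β V X s A (fun D => Mg V (A ∆ D)) h).fun_div (Th1_deriv_ZA β V X s A h)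
    hZ.ne'
  have e : ∑ D ∈ Om V X s, w β D * Real.exp (h * Mg V (A ∆ D)) *
      (Mg V (A ∆ D) - EA β V X s A h) ^ 2 =
      (∑ D ∈ Om V X s, w β D * Real.exp (h * Mg V (A ∆ D)) * Mg V (A ∆ D) * Mg V (A ∆ D)) -
        2 * EA β V X s A h *
          (∑ D ∈ Om V X s, w β D * Real.exp (h * Mg V (A ∆ D)) * Mg V (A ∆ D)) +
        EA β V X s A h ^ 2 * ZA β V X s A h := by
    rw [ZA, Finset.mul_sum, Finset.mul_sum, ← Finset.sum_sub_distrib, ← Finset.sum_add_distrib]
    exact Finset.sum_congr rfl fun D _ => by ring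
  have e2 : VA β V X s A h =
      ((∑ D ∈ Om V X s, w β D * Real.exp (h * Mg V (A ∆ D)) * Mg V (A ∆ D) * Mg V (A ∆ D)) *
          ZA β V X s A h -
        (∑ D ∈ Om V X s, w β D * Real.exp (h * Mg V (A ∆ D)) * Mg V (A ∆ D)) *
          (∑ D ∈ Om V X s, w β D * Real.exp (h * Mg V (A ∆ D)) * Mg V (A ∆ D))) /
        ZA β V X s A h ^ 2 := by
    rw [VA, e, EA]
    field_simp
    ring
  rw [e2]
  exact h1

theorem VA_nonneg (β : ℝ) (V : Finset Site) (X : Finset Bond) (s : ℕ) (A : Finset Site) (h : ℝ) :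
    0 ≤ VA β V X s A h :=
  div_nonneg (Finset.sum_nonneg fun D _ =>
    mul_nonneg (mul_nonneg (w_pos β D).le (Real.exp_pos _).le) (sq_nonneg _))
    (ZA_pos β V X s A h).le

theorem Th1_VA (β : ℝ) (V : Finset Site) (X : Finset Bond) (s : ℕ) (A : Finset Site) (h : ℝ) :
    VA β V X s A h = ∑ x ∈ V, ∑ y ∈ V, Th1_sg A x * Th1_sg A y *
      (gP β V X s (fld A h) (fun D => x ∈ D ∧ y ∈ D) -
        gP β V X s (fld A h) (fun D => x ∈ D) * gP β V X s (fld A h) (fun D => y ∈ D)) := by
  have e : ∀ D ∈ Om V X s, (Mg V (A ∆ D) - EA β V X s A h) ^ 2 =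
      ∑ x ∈ V, ∑ y ∈ V, Th1_sg A x * Th1_sg A y *
        (Th1_ind (x ∈ D ∧ y ∈ D) + (-(gP β V X s (fld A h) fun D => y ∈ D) * Th1_ind (x ∈ D) +
          (-(gP β V X s (fld A h) fun D => x ∈ D) * Th1_ind (y ∈ D) +
            gP β V X s (fld A h) (fun D => x ∈ D) * gP β V X s (fld A h) fun D => y ∈ D))) := by
    intro D hD
    rw [Th1_Mg' (Th1_sub hD), Th1_EA, add_sub_add_left_eq_sub, ← Finset.sum_sub_distrib, sq,
      Finset.sum_mul_sum]
    refine Finset.sum_congr rfl fun x _ => Finset.sum_congr rfl fun y _ => ?_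
    have e1 : Th1_ind (x ∈ D ∧ y ∈ D) = Th1_ind (x ∈ D) * Th1_ind (y ∈ D) := by
      by_cases hx : x ∈ D <;> by_cases hy : y ∈ D <;> simp [Th1_ind, hx, hy]
    rw [e1]
    ring
  rw [VA, Th1_Ex_eq, Th1_Ex_congr _ _ _ _ _ e, Th1_Ex_sum]
  refine Finset.sum_congr rfl fun x _ => ?_
  rw [Th1_Ex_sum]
  refine Finset.sum_congr rfl fun y _ => ?_
  rw [Th1_Ex_mul, Th1_Ex_add, Th1_Ex_add, Th1_Ex_add, Th1_Ex_mul, Th1_Ex_mul, Th1_Ex_const,
    ← Th1_gP, ← Th1_gP, ← Th1_gP]
  ring

theorem VA_le {β : ℝ} (hβ : 1000 ≤ β) {V : Finset Site} (hV : IsBox V) (X : Finset Bond) {s : ℕ}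
    (A : Finset Site) {h : ℝ} (hh : HOk s h) : VA β V X s A h ≤ V.card := by
  have hG := gas_fld hβ hV hh A
  have hs : ∀ x, |Th1_sg A x| = 2 := by
    intro x
    unfold Th1_sg
    split_ifs <;> simp
  rw [Th1_VA]
  have key : ∀ x ∈ V, ∑ y ∈ V, Th1_sg A x * Th1_sg A y *
      (gP β V X s (fld A h) (fun D => x ∈ D ∧ y ∈ D) -
        gP β V X s (fld A h) (fun D => x ∈ D) * gP β V X s (fld A h) (fun D => y ∈ D)) ≤ 1 := by
    intro x _
    have h1 := sum_ph x V (fun y => Finset.univ.sup fun i => (x i - y i).natAbs) (by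
      intro y _ i
      rw [← Int.natCast_natAbs]
      exact_mod_cast Finset.le_sup (f := fun i => (x i - y i).natAbs) (Finset.mem_univ i))
    have h2 : ∀ y ∈ V, Th1_sg A x * Th1_sg A y *
        (gP β V X s (fld A h) (fun D => x ∈ D ∧ y ∈ D) -
          gP β V X s (fld A h) (fun D => x ∈ D) * gP β V X s (fld A h) (fun D => y ∈ D)) ≤
        4 * ph * ph ^ (Finset.univ.sup fun i => (x i - y i).natAbs) := by
      intro y _
      obtain ⟨i, _, hi⟩ := Finset.exists_mem_eq_sup (Finset.univ : Finset (Fin 3))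
        Finset.univ_nonempty fun i => (x i - y i).natAbs
      have h3 := cov hG X x y i
      rw [hi]
      refine (le_abs_self _).trans ?_
      rw [abs_mul, abs_mul, hs, hs]
      rw [pow_succ] at h3
      linarith only [h3]
    refine (Finset.sum_le_sum h2).trans ?_
    rw [← Finset.mul_sum]
    have h4 : ph = 1 / 1000 := rfl
    have h5 : (0 : ℝ) ≤ 4 * ph := by rw [h4]; norm_num
    refine (mul_le_mul_of_nonneg_left h1 h5).trans ?_
    rw [h4]; norm_num
  simpa using Finset.sum_le_sum key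

theorem ZM_nonneg (β : ℝ) (V : Finset Site) (X : Finset Bond) (s : ℕ) (A : Finset Site) (m : ℤ) :
    0 ≤ ZM β V X s A m :=
  Finset.sum_nonneg fun D _ => (w_pos β D).le

theorem ZM_le_gZ0 (β : ℝ) (V : Finset Site) (X : Finset Bond) (s : ℕ) (A : Finset Site) (m : ℤ) :
    ZM β V X s A m ≤ gZ0 β V X s :=
  Finset.sum_le_sum_of_subset_of_nonneg (Finset.filter_subset _ _) fun D _ _ => (w_pos β D).le

theorem chernoff (β : ℝ) (V : Finset Site) (X : Finset Bond) (s : ℕ) (A : Finset Site) (m : ℤ)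
    (h : ℝ) : ZM β V X s A m ≤ Real.exp (-(h * m)) * ZA β V X s A h := by
  rw [ZM, ZA, Finset.mul_sum]
  refine le_trans (le_of_eq ?_) (Finset.sum_le_sum_of_subset_of_nonneg
    (Finset.filter_subset (fun D => Mg V (A ∆ D) = m) _) fun D _ _ =>
      mul_nonneg (Real.exp_pos _).le (mul_nonneg (w_pos β D).le (Real.exp_pos _).le))
  refine Finset.sum_congr rfl fun D hD => ?_
  rw [(Finset.mem_filter.1 hD).2, Real.exp_neg]
  have := Real.exp_pos (h * m)
  field_simp

theorem Th1_mvt {f f' : ℝ → ℝ} (hf : ∀ t, HasDerivAt f (f' t) t) (h : ℝ) :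
    ∃ t ∈ Set.uIcc 0 h, f h - f 0 = h * f' t := by
  have hc : Continuous f := continuous_iff_continuousAt.2 fun t => (hf t).continuousAt
  rcases lt_trichotomy h 0 with h0 | h0 | h0
  · obtain ⟨t, ht, e⟩ := exists_hasDerivAt_eq_slope f f' h0 hc.continuousOn fun t _ => hf t
    refine ⟨t, by rw [Set.uIcc_of_ge h0.le]; exact Set.Ioo_subset_Icc_self ht, ?_⟩
    have : (0 : ℝ) - h ≠ 0 := by linarith
    rw [e]
    field_simp
    ring
  · exact ⟨0, Set.left_mem_uIcc, by simp [h0]⟩
  · obtain ⟨t, ht, e⟩ := exists_hasDerivAt_eq_slope f f' h0 hc.continuousOn fun t _ => hf t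
    refine ⟨t, by rw [Set.uIcc_of_le h0.le]; exact Set.Ioo_subset_Icc_self ht, ?_⟩
    rw [e, sub_zero]
    field_simp

theorem Th1_uIcc {h t : ℝ} (ht : t ∈ Set.uIcc 0 h) : |t| ≤ |h| ∧ 0 ≤ h * t ∧ h * t ≤ h ^ 2 := by
  rcases le_total 0 h with h0 | h0
  · rw [Set.uIcc_of_le h0] at ht
    refine ⟨by rw [abs_of_nonneg ht.1, abs_of_nonneg h0]; exact ht.2, mul_nonneg h0 ht.1, ?_⟩
    nlinarith only [h0, ht.2]
  · rw [Set.uIcc_of_ge h0] at ht
    refine ⟨by rw [abs_of_nonpos ht.2, abs_of_nonpos h0]; linarith [ht.1],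
      mul_nonneg_of_nonpos_of_nonpos h0 ht.2, ?_⟩
    nlinarith [ht.1]

theorem Th1_taylor (β : ℝ) (V : Finset Site) (X : Finset Bond) (s : ℕ) (A : Finset Site) (h : ℝ) :
    ∃ c t, 0 ≤ c ∧ c ≤ h ^ 2 ∧ |t| ≤ |h| ∧ Real.log (ZA β V X s A h) =
      Real.log (gZ0 β V X s) + h * EA β V X s A 0 + c * VA β V X s A t := by
  obtain ⟨t, ht, e⟩ := Th1_mvt (hasDerivAt_logZA β V X s A) h
  obtain ⟨u, hu, e'⟩ := Th1_mvt (hasDerivAt_EA β V X s A) t
  obtain ⟨a1, a2, a3⟩ := Th1_uIcc ht
  refine ⟨h * t, u, a2, a3, (Th1_uIcc hu).1.trans a1, ?_⟩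
  rw [ZA_zero] at e
  have e2 : EA β V X s A t = EA β V X s A 0 + t * VA β V X s A u := by linarith
  rw [e2] at e
  linarith

theorem logZ_upper {β : ℝ} (hβ : 1000 ≤ β) {V : Finset Site} (hV : IsBox V) (X : Finset Bond)
    {s : ℕ} (A : Finset Site) {h : ℝ} (hh : HOk s h) :
    Real.log (ZA β V X s A h) ≤
      Real.log (gZ0 β V X s) + h * EA β V X s A 0 + V.card * h ^ 2 := by
  obtain ⟨c, t, c0, c1, ht, e⟩ := Th1_taylor β V X s A h
  have h1 := VA_le hβ hV X A (hh.mono ht)
  have h2 : c * VA β V X s A t ≤ h ^ 2 * V.card :=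
    mul_le_mul c1 h1 (VA_nonneg _ _ _ _ _ _) (sq_nonneg _)
  rw [e]
  linarith

theorem logZ_lower (β : ℝ) (V : Finset Site) (X : Finset Bond) (s : ℕ) (A : Finset Site) (h : ℝ) :
    Real.log (gZ0 β V X s) + h * EA β V X s A 0 ≤ Real.log (ZA β V X s A h) := by
  obtain ⟨c, t, c0, _, _, e⟩ := Th1_taylor β V X s A h
  have h2 := mul_nonneg c0 (VA_nonneg β V X s A t)
  rw [e]
  linarith

theorem logZ_mvt (β : ℝ) (V : Finset Site) (X X' : Finset Bond) (s : ℕ) (A B : Finset Site)
    (h : ℝ) : ∃ t ∈ Set.uIcc 0 h, Real.log (ZA β V X s A h) - Real.log (ZA β V X' s B h) =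
      Real.log (gZ0 β V X s) - Real.log (gZ0 β V X' s) +
        h * (EA β V X s A t - EA β V X' s B t) := by
  obtain ⟨t, ht, e⟩ := Th1_mvt
    (f := fun t => Real.log (ZA β V X s A t) - Real.log (ZA β V X' s B t))
    (f' := fun t => EA β V X s A t - EA β V X' s B t)
    (fun t => (hasDerivAt_logZA β V X s A t).sub (hasDerivAt_logZA β V X' s B t)) h
  refine ⟨t, ht, ?_⟩
  simp only [ZA_zero] at e
  linarith

theorem Th1_card (A B : Finset Site) : A.card ≤ B.card + (A ∆ B).card := by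
  refine le_trans (Finset.card_le_card ?_) (Finset.card_union_le B (A ∆ B))
  intro x hx
  by_cases hb : x ∈ B
  · exact Finset.mem_union_left _ hb
  · exact Finset.mem_union_right _ (Finset.mem_symmDiff.2 (Or.inl ⟨hx, hb⟩))

theorem Th1_Mg_diff (V A B D : Finset Site) :
    |Mg V (A ∆ D) - Mg V (B ∆ D)| ≤ 2 * (A ∆ B).card := by
  have e : (A ∆ D) ∆ (B ∆ D) = A ∆ B := by
    rw [symmDiff_comm B D, symmDiff_assoc, symmDiff_symmDiff_cancel_left]
  have h1 := Th1_card (A ∆ D) (B ∆ D)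
  have h2 := Th1_card (B ∆ D) (A ∆ D)
  rw [e] at h1
  rw [symmDiff_comm (B ∆ D), e] at h2
  have h1' : ((A ∆ D).card : ℝ) ≤ (B ∆ D).card + (A ∆ B).card := by exact_mod_cast h1
  have h2' : ((B ∆ D).card : ℝ) ≤ (A ∆ D).card + (A ∆ B).card := by exact_mod_cast h2
  rw [Mg, Mg, abs_le]
  constructor <;> linarith only [h2', h1']

theorem ZA_field (β : ℝ) (V : Finset Site) (X : Finset Bond) (s : ℕ) (A B : Finset Site) (h : ℝ) :
    ZA β V X s A h ≤ Real.exp (2 * |h| * (A ∆ B).card) * ZA β V X s B h := by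
  rw [ZA, ZA, Finset.mul_sum]
  refine Finset.sum_le_sum fun D _ => ?_
  rw [mul_left_comm, ← Real.exp_add]
  refine mul_le_mul_of_nonneg_left (Real.exp_le_exp.2 ?_) (w_pos β D).le
  have h1 := Th1_Mg_diff V A B D
  have h2 : h * (Mg V (A ∆ D) - Mg V (B ∆ D)) ≤ |h| * (2 * (A ∆ B).card) := by
    refine (le_abs_self _).trans ?_
    rw [abs_mul]
    exact mul_le_mul_of_nonneg_left h1 (abs_nonneg h)
  linarith

theorem EA_zero_diff (β : ℝ) (V : Finset Site) (X : Finset Bond) (s : ℕ) (A B : Finset Site) :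
    |EA β V X s A 0 - EA β V X s B 0| ≤ 2 * (A ∆ B).card := by
  have hZ := gZ0_pos β V X s
  rw [EA, EA, ZA_zero, ZA_zero, ← sub_div, ← Finset.sum_sub_distrib, abs_div, abs_of_pos hZ,
    div_le_iff₀ hZ, gZ0, Finset.mul_sum]
  refine (Finset.abs_sum_le_sum_abs _ _).trans (Finset.sum_le_sum fun D _ => ?_)
  simp only [zero_mul, Real.exp_zero, mul_one]
  rw [← mul_sub, abs_mul, abs_of_pos (w_pos β D), mul_comm]
  exact mul_le_mul_of_nonneg_right (Th1_Mg_diff V A B D) (w_pos β D).le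

theorem ZA_le {β : ℝ} (hβ : 1000 ≤ β) {V : Finset Site} (hV : IsBox V) (X X' : Finset Bond)
    {s : ℕ} (A : Finset Site) {h : ℝ} (hh : HOk s h) :
    ZA β V X s A h ≤ 2 ^ (X' \ X).card * ZA β V X' s A h := by
  rw [ZA_eq, ZA_eq, mul_left_comm]
  exact mul_le_mul_of_nonneg_left (gZ_le (gas_fld hβ hV hh A) X X') (Real.exp_pos _).le

end Pool.Agent.Work.MP_b59478_pr
end
end

-- merged part: Pool.Agent.Work.MP_b59478_pr.Fibre
section
/-! Single-site contours. D corresponds to (D minus Iso E D, Iso E D). A site of Free E D0 has no site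
of D0 within sup-distance 1 and the sites of E are at mutual sup-distance at least 2, so the six
bonds at such a site form a whole component of the cut (base points within distance 1, small as
1 <= s), not adjacent to the other bonds.
exists_elig: take the sites of the cube with even coordinates (at least N ^ 3 of them) outside A
that are not endpoints of bonds of X.
-/

set_option autoImplicit false

noncomputable section

namespace Pool.Agent.Work.MP_b59478_pr

open Classical Filter Topology MeasureTheory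
open scoped symmDiff Pointwise

theorem Fibre_tip_ne (b : Bond) : tip b ≠ b.1 := fun h => by
  simpa [tip_apply] using congrFun h b.2

theorem Fibre_free {E D0 : Finset Site} {x : Site} :
    x ∈ Free E D0 ↔ x ∈ E ∧ ∀ y ∈ D0, ¬ Near 1 y x := Finset.mem_filter

theorem Fibre_iso {E D : Finset Site} {x : Site} :
    x ∈ Iso E D ↔ (x ∈ D ∧ x ∈ E) ∧ ∀ y ∈ D, Near 1 y x → y = x := by
  rw [Iso, Finset.mem_filter, Finset.mem_inter]

theorem Fibre_disj {E D0 I : Finset Site} (hI : I ⊆ Free E D0) : Disjoint D0 I :=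
  Finset.disjoint_left.2 fun x hx hx' => (Fibre_free.1 (hI hx')).2 x hx (Near.refl _ _)

theorem Fibre_cut {V E D0 I : Finset Site} {X : Finset Bond} (hE : Elig V X E)
    (hI : I ⊆ Free E D0) : cut (D0 ∪ I) = cut D0 ∪ bonds I := by
  ext b
  have h1 : b.1 ∈ I → tip b ∉ D0 ∧ tip b ∉ I := fun h =>
    ⟨fun h' => (Fibre_free.1 (hI h)).2 _ h' (near_tip b).symm, fun h' => Fibre_tip_ne b
      (hE.sep _ (Fibre_free.1 (hI h')).1 _ (Fibre_free.1 (hI h)).1 (near_tip b).symm)⟩
  have h2 : tip b ∈ I → b.1 ∉ D0 := fun h h' => (Fibre_free.1 (hI h)).2 _ h' (near_tip b)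
  simp only [Finset.mem_union, mem_cut, mem_bonds]
  (clear * - h1 h2; tauto)

theorem Fibre_near {D : Finset Site} {b b' : Bond} {x : Site} (hb : b.1 = x ∨ tip b = x)
    (h : Adj b b') (hb' : b' ∈ cut D) : ∃ y ∈ D, Near 1 y x ∧ (b'.1 = y ∨ tip b' = y) := by
  rw [mem_cut] at hb'
  by_cases h1 : b'.1 ∈ D
  · exact ⟨_, h1, by rcases hb with rfl | rfl; exacts [h.1.symm, h.2.2.1.symm], Or.inl rfl⟩
  · exact ⟨tip b', by tauto, by rcases hb with rfl | rfl; exacts [h.2.1.symm, h.2.2.2.symm],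
      Or.inr rfl⟩

theorem Fibre_disj_cut {E D0 I : Finset Site} (hI : I ⊆ Free E D0) {b b' : Bond}
    (hb : b ∈ bonds I) (h : Adj b b') : b' ∉ cut D0 := fun hb' => by
  rcases mem_bonds.1 hb with h1 | h1
  · obtain ⟨y, hy, h2, -⟩ := Fibre_near (Or.inl rfl) h hb'
    exact (Fibre_free.1 (hI h1)).2 y hy h2
  · obtain ⟨y, hy, h2, -⟩ := Fibre_near (Or.inr rfl) h hb'
    exact (Fibre_free.1 (hI h1)).2 y hy h2

theorem Fibre_card {V E I : Finset Site} {X : Finset Bond} (hE : Elig V X E) (hI : I ⊆ E) :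
    (bonds I).card = 6 * I.card := by
  rw [bonds, Finset.card_union_of_disjoint, Finset.card_image_of_injective, Finset.card_product,
    Finset.card_univ, Fintype.card_fin]
  · ring
  · rintro ⟨x, i⟩ ⟨y, j⟩ h
    simp only [Prod.mk.injEq] at h
    obtain ⟨h, rfl⟩ := h
    rw [sub_left_inj.1 h]
  · rw [Finset.disjoint_left]
    intro b hb hb'
    obtain ⟨p, hp, rfl⟩ := Finset.mem_image.1 hb'
    have e : tip (p.1 - Pi.single p.2 1, p.2) = p.1 := by simp [tip]
    refine Fibre_tip_ne (p.1 - Pi.single p.2 1, p.2) (hE.sep _ ?_ _ ?_ (near_tip _).symm)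
    · rw [e]; exact hI (Finset.mem_product.1 hp).1
    · exact hI (Finset.mem_product.1 hb).1

theorem Fibre_small {V E D0 I : Finset Site} {X : Finset Bond} {s : ℕ} (hs : 1 ≤ s)
    (hE : Elig V X E) (hI : I ⊆ Free E D0) (h0 : Small s (cut D0)) : Small s (cut (D0 ∪ I)) := by
  rintro b hb ⟨b1, b2, h1, h2, h3⟩
  by_cases hb0 : b ∈ cut D0
  · have hc : Clopen (cut D0) (cut (D0 ∪ I)) := by
      rw [Fibre_cut hE hI]
      exact ⟨Finset.subset_union_left, fun c hc c' hc' h => (Finset.mem_union.1 hc').elim id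
        fun h' => absurd hc (Fibre_disj_cut hI h' h.symm)⟩
    exact h0 b hb0 ⟨b1, b2, hc.conn hb0 h1, hc.conn hb0 h2, h3⟩
  obtain ⟨x, hx, hbx⟩ : ∃ x ∈ I, b.1 = x ∨ tip b = x := by
    rw [Fibre_cut hE hI, Finset.mem_union, mem_bonds] at hb
    rcases hb.resolve_left hb0 with h | h
    exacts [⟨_, h, Or.inl rfl⟩, ⟨_, h, Or.inr rfl⟩]
  have key : ∀ c, Conn (cut (D0 ∪ I)) b c → ∀ i, x i - 1 ≤ c.1 i ∧ c.1 i ≤ x i := by
    intro c hc
    have : c.1 = x ∨ tip c = x := by
      induction hc with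
      | refl => exact hbx
      | tail _ h ih =>
        obtain ⟨y, hy, h4, h5⟩ := Fibre_near ih h.2.2 h.2.1
        rcases Finset.mem_union.1 hy with hy | hy
        · exact absurd h4 ((Fibre_free.1 (hI hx)).2 y hy)
        · rwa [hE.sep _ (Fibre_free.1 (hI hy)).1 _ (Fibre_free.1 (hI hx)).1 h4] at h5
    intro i
    rcases this with rfl | rfl
    · omega
    · rw [tip_apply]; split_ifs <;> omega
  refine h3 fun i => abs_le.2 ?_
  have := key b1 h1 i
  have := key b2 h2 i
  omega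

theorem Fibre_iso_free {E D : Finset Site} : Iso E D ⊆ Free E (D \ Iso E D) := fun x hx =>
  Fibre_free.2 ⟨(Fibre_iso.1 hx).1.2, fun y hy h => (Finset.mem_sdiff.1 hy).2
    ((Fibre_iso.1 hx).2 y (Finset.mem_sdiff.1 hy).1 h ▸ hx)⟩

theorem Fibre_union {E D : Finset Site} : D \ Iso E D ∪ Iso E D = D :=
  Finset.sdiff_union_of_subset fun _ hx => (Fibre_iso.1 hx).1.1

theorem Fibre_iso_union {V E D0 I : Finset Site} {X : Finset Bond} (hE : Elig V X E)
    (hI : I ⊆ Free E D0) (h0 : Iso E D0 = ∅) : Iso E (D0 ∪ I) = I := by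
  ext x
  refine ⟨fun hx => by_contra fun h => ?_, fun hx => ?_⟩
  · obtain ⟨⟨h1, h2⟩, h3⟩ := Fibre_iso.1 hx
    exact Finset.notMem_empty x (h0 ▸ Fibre_iso.2 ⟨⟨(Finset.mem_union.1 h1).resolve_right h, h2⟩,
      fun y hy => h3 y (Finset.mem_union_left _ hy)⟩)
  · have h1 := Fibre_free.1 (hI hx)
    refine Fibre_iso.2 ⟨⟨Finset.mem_union_right _ hx, h1.1⟩, fun y hy h => ?_⟩
    rcases Finset.mem_union.1 hy with hy | hy
    · exact absurd h (h1.2 y hy)
    · exact hE.sep _ (Fibre_free.1 (hI hy)).1 _ h1.1 h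

theorem fibre_sum {V E : Finset Site} {X : Finset Bond} {s : ℕ} (hs : 1 ≤ s) (hE : Elig V X E)
    (F : Finset Site → ℝ) :
    ∑ D ∈ Om V X s, F D = ∑ D0 ∈ (Om V X s).filter fun D => Iso E D = ∅,
      ∑ I ∈ (Free E D0).powerset, F (D0 ∪ I) := by
  rw [Finset.sum_sigma']
  refine Finset.sum_nbij' (fun D => ⟨D \ Iso E D, Iso E D⟩) (fun p => p.1 ∪ p.2) ?_ ?_ ?_ ?_ ?_
  · intro D hD
    simp only [Om, Finset.mem_filter, Finset.mem_powerset, Finset.mem_sigma] at hD ⊢
    have h1 : cut (D \ Iso E D) ⊆ cut D := by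
      conv_rhs => rw [← Fibre_union (E := E) (D := D), Fibre_cut hE Fibre_iso_free]
      exact Finset.subset_union_left
    refine ⟨⟨⟨Finset.sdiff_subset.trans hD.1, hD.2.1.mono h1, hD.2.2.mono_left h1⟩, ?_⟩,
      Fibre_iso_free⟩
    refine Finset.eq_empty_of_forall_notMem fun x hx => ?_
    obtain ⟨⟨h2, h3⟩, h4⟩ := Fibre_iso.1 hx
    rw [Finset.mem_sdiff] at h2
    refine h2.2 (Fibre_iso.2 ⟨⟨h2.1, h3⟩, fun y hy h => ?_⟩)
    by_cases hy' : y ∈ Iso E D
    · exact hE.sep _ (Fibre_iso.1 hy').1.2 _ h3 h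
    · exact h4 y (Finset.mem_sdiff.2 ⟨hy, hy'⟩) h
  · rintro ⟨D0, I⟩ h
    simp only [Om, Finset.mem_filter, Finset.mem_powerset, Finset.mem_sigma] at h ⊢
    obtain ⟨⟨⟨h1, h2, h3⟩, -⟩, hI⟩ := h
    refine ⟨Finset.union_subset h1 fun x hx => hE.sub (Fibre_free.1 (hI hx)).1,
      Fibre_small hs hE hI h2, ?_⟩
    rw [Fibre_cut hE hI, Finset.disjoint_union_left]
    refine ⟨h3, Finset.disjoint_left.2 fun b hb hb' => ?_⟩
    rcases mem_bonds.1 hb with h | h
    · exact (hE.avoid _ (Fibre_free.1 (hI h)).1 b hb').1 rfl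
    · exact (hE.avoid _ (Fibre_free.1 (hI h)).1 b hb').2 rfl
  · exact fun D _ => Fibre_union
  · rintro ⟨D0, I⟩ h
    simp only [Finset.mem_filter, Finset.mem_powerset, Finset.mem_sigma] at h
    simp only [Fibre_iso_union hE h.2 h.1.2, Finset.union_sdiff_cancel_right (Fibre_disj h.2)]
  · intro D _
    simp only [Fibre_union]

theorem fibre_w (β : ℝ) {V E D0 I : Finset Site} {X : Finset Bond} (hE : Elig V X E)
    (hI : I ⊆ Free E D0) :
    Disjoint D0 I ∧ w β (D0 ∪ I) = w β D0 * Real.exp (-(12 * β)) ^ I.card := by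
  refine ⟨Fibre_disj hI, ?_⟩
  rw [w, w, Fibre_cut hE hI, Finset.card_union_of_disjoint (Finset.disjoint_right.2 fun b hb =>
    Fibre_disj_cut hI hb (Adj.refl b)), Fibre_card hE fun x hx => (Fibre_free.1 (hI hx)).1,
    ← Real.exp_nat_mul, ← Real.exp_add]
  congr 1
  push_cast
  ring

theorem exists_elig (N : ℕ) (X : Finset Bond) (A : Finset Site) :
    ∃ E, Elig (cube N) X E ∧ Disjoint E A ∧ N ^ 3 ≤ E.card + A.card + 2 * X.card := by
  set P : Finset Site :=
    Fintype.piFinset fun _ => (Finset.range N).image fun k : ℕ => 2 * (k : ℤ) - N with hP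
  have hm : ∀ x ∈ P, ∀ i, ∃ k < N, 2 * (k : ℤ) - N = x i := fun x hx i => by
    simpa using Fintype.mem_piFinset.1 hx i
  have hc : P.card = N ^ 3 := by
    rw [hP, Fintype.card_piFinset, Finset.card_image_of_injective _ fun a b h => by
      simpa using h]
    simp
  refine ⟨P \ (A ∪ (X.image Prod.fst ∪ X.image tip)), ⟨fun x hx => mem_cube.2 fun i => ?_,
    fun x hx y hy h => funext fun i => ?_, fun x hx b hb => ?_⟩,
    Finset.sdiff_disjoint.mono_right Finset.subset_union_left, ?_⟩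
  · obtain ⟨k, hk, e⟩ := hm x (Finset.mem_sdiff.1 hx).1 i
    rw [abs_le]; omega
  · obtain ⟨k, hk, e⟩ := hm x (Finset.mem_sdiff.1 hx).1 i
    obtain ⟨l, hl, e'⟩ := hm y (Finset.mem_sdiff.1 hy).1 i
    have := abs_le.1 (h i)
    omega
  · have := (Finset.mem_sdiff.1 hx).2
    simp only [Finset.mem_union, Finset.mem_image, not_or, not_exists, not_and] at this
    exact ⟨this.2.1 b hb, this.2.2 b hb⟩
  · have h1 := Finset.le_card_sdiff (A ∪ (X.image Prod.fst ∪ X.image tip)) P
    have h2 := Finset.card_union_le A (X.image Prod.fst ∪ X.image tip)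
    have h3 := Finset.card_union_le (X.image Prod.fst) (X.image tip)
    have h4 := Finset.card_image_le (s := X) (f := Prod.fst)
    have h5 := Finset.card_image_le (s := X) (f := tip)
    omega

end Pool.Agent.Work.MP_b59478_pr
end
end

-- merged part: Pool.Agent.Work.MP_b59478_pr.SG2b
section
/-! Encoding after a slab map. A bond b with b.1 0 outside Sg is in cut (pull N p A) iff pjB p b is in
cut A; pjB p is injective on these bonds (p is monotone with unit steps off Sg); the bonds with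
b.1 0 in Sg number at most Psi, those within 2 of Sg at most ph ^ (-2) Psi.
encode, the Anim property: let U0 be the component of b in U. If no bond of Kset is adjacent to U0,
then either a bond of U0 is in nbhd (cut I), or U0 is clopen in cut A and so has at least s bonds.
If b0 in U0 is adjacent to pjB b', b' in cut B' with base off Sg, then the base of b' is within 2
of Sg: otherwise p is a translation near b', the preimage of b0 is in cut B, adjacent to b', hence
in cut B' (clopen in cut B), and b0 would be in Kset.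
count: A is determined by (q, cut I, B, U) through cut_inj. Sum over U with animals_big
(exp (-7) <= 1/486), over c = cut I with animals_conn for each root in bonds (cube N)
(243 * 2 ^ 82 * exp (-beta) <= exp (-beta / 2)), then over B and q.
-/

set_option autoImplicit false

noncomputable section

namespace Pool.Agent.Work.MP_b59478_pr

open Classical Filter Topology MeasureTheory
open scoped symmDiff Pointwise

theorem SG2b_FM_nonneg (β : ℝ) (N : ℕ) (m : ℤ) (A : Finset Site) : 0 ≤ FM β N m A :=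
  mul_nonneg (w_pos β A).le (ZM_nonneg _ _ _ _ _ _)

theorem SG2b_exp7 : Real.exp (-7) ≤ 1 / 486 := by
  have h1 : (2.7 : ℝ) ≤ Real.exp 1 := by
    have := Real.exp_one_gt_d9
    linarith only [this]
  have h2 : Real.exp 7 = Real.exp 1 ^ 7 := by
    rw [← Real.exp_nat_mul]
    norm_num
  have h3 : (486 : ℝ) ≤ Real.exp 7 := by
    rw [h2]
    calc (486 : ℝ) ≤ 2.7 ^ 7 := by norm_num
      _ ≤ Real.exp 1 ^ 7 := pow_le_pow_left₀ (by norm_num) h1 7
  rw [Real.exp_neg, one_div]
  exact inv_anti₀ (by norm_num) h3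

theorem SG2b_theta {β : ℝ} (hβ : 1000 ≤ β) :
    243 * (2 ^ 82 * Real.exp (-β)) ≤ Real.exp (-(β / 2)) := by
  have h1 : (2 : ℝ) ≤ Real.exp 1 := by
    have := Real.exp_one_gt_d9
    linarith only [this]
  have h2 : Real.exp 90 = Real.exp 1 ^ 90 := by
    rw [← Real.exp_nat_mul]
    norm_num
  have h3 : (243 * 2 ^ 82 : ℝ) ≤ Real.exp 90 := by
    rw [h2]
    calc (243 * 2 ^ 82 : ℝ) ≤ 2 ^ 90 := by norm_num
      _ ≤ Real.exp 1 ^ 90 := pow_le_pow_left₀ (by norm_num) h1 90
  calc 243 * (2 ^ 82 * Real.exp (-β)) = (243 * 2 ^ 82) * Real.exp (-β) := by ring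
    _ ≤ Real.exp 90 * Real.exp (-β) := mul_le_mul_of_nonneg_right h3 (Real.exp_pos _).le
    _ = Real.exp (90 + -β) := (Real.exp_add _ _).symm
    _ ≤ Real.exp (-(β / 2)) := Real.exp_le_exp.2 (by linarith)

/-- The sum over the leftover animal. -/
theorem SG2b_sumU (V P : Finset Bond) (s k : ℕ) (hb : 4 * V.card ≤ 2 ^ s) :
    ∑ U ∈ V.powerset, (if Anim P s U ∧ P.card ≤ 82 * k then Real.exp (-(7 * U.card)) else 0) ≤
      2 * (2 ^ 82) ^ k := by
  by_cases hP : P.card ≤ 82 * k
  · rw [← Finset.sum_filter]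
    have h1 := animals_big P V s hb (V.powerset.filter fun U => Anim P s U ∧ P.card ≤ 82 * k)
      (fun T hT => ⟨Finset.mem_powerset.1 (Finset.mem_filter.1 hT).1,
        (Finset.mem_filter.1 hT).2.1⟩)
    have h2 : (2 : ℝ) ^ P.card ≤ (2 ^ 82) ^ k := by
      rw [← pow_mul]
      exact pow_le_pow_right₀ (by norm_num) hP
    refine le_trans (Finset.sum_le_sum fun U _ => ?_) (h1.trans (by linarith only [h2]))
    have e : Real.exp (-(7 * U.card)) = Real.exp (-7) ^ U.card := by
      rw [← Real.exp_nat_mul]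
      congr 1
      ring
    rw [e]
    exact pow_le_pow_left₀ (Real.exp_pos _).le SG2b_exp7 _
  · simp only [hP, and_false, if_false, Finset.sum_const_zero]
    positivity

/-- The sum over the connected contour. -/
theorem SG2b_sumC {β : ℝ} (hβ : 1000 ≤ β) (V : Finset Bond) {n0 : ℕ} (hn : 1 ≤ n0) :
    ∑ c ∈ V.powerset.filter (fun c => IsConn c ∧ n0 ≤ c.card),
      (2 ^ 82 * Real.exp (-β)) ^ c.card ≤ V.card * (2 * Real.exp (-(β / 2 * n0))) := by
  obtain ⟨θ, hθ⟩ : ∃ θ : ℝ, θ = 2 ^ 82 * Real.exp (-β) := ⟨_, rfl⟩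
  obtain ⟨C, hC⟩ : ∃ C, C = V.powerset.filter (fun c => IsConn c ∧ n0 ≤ c.card) := ⟨_, rfl⟩
  have h0 : 0 ≤ θ := by
    rw [hθ]
    positivity
  have ht : 243 * θ ≤ Real.exp (-(β / 2)) := by
    rw [hθ]
    exact SG2b_theta hβ
  have h1 : 243 * θ ≤ 1 := ht.trans (Real.exp_le_one_iff.2 (by linarith only [hβ]))
  rw [← hθ, ← hC]
  have hm : ∀ c ∈ C, c ⊆ V ∧ IsConn c ∧ n0 ≤ c.card := by
    intro c hc
    rw [hC] at hc
    exact ⟨Finset.mem_powerset.1 (Finset.mem_filter.1 hc).1, (Finset.mem_filter.1 hc).2⟩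
  calc ∑ c ∈ C, θ ^ c.card ≤ ∑ c ∈ C, ∑ r ∈ V, (if r ∈ c then θ ^ c.card else 0) := by
        refine Finset.sum_le_sum fun c hc => ?_
        obtain ⟨h2, _, h4⟩ := hm c hc
        obtain ⟨r, hr⟩ : c.Nonempty := Finset.card_pos.1 (by omega)
        have := Finset.single_le_sum (s := V) (f := fun r => if r ∈ c then θ ^ c.card else 0)
          (fun i _ => by split_ifs <;> positivity) (h2 hr)
        simpa [hr] using this
    _ = ∑ r ∈ V, ∑ c ∈ C.filter (fun c => r ∈ c), θ ^ c.card := by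
        rw [Finset.sum_comm]
        exact Finset.sum_congr rfl fun r _ => (Finset.sum_filter _ _).symm
    _ ≤ ∑ _r ∈ V, 2 * Real.exp (-(β / 2 * n0)) := by
        refine Finset.sum_le_sum fun r _ => ?_
        have h5 := animals_conn r n0 h0 h1 (C.filter fun c => r ∈ c) (fun T hT =>
          ⟨(Finset.mem_filter.1 hT).2, (hm T (Finset.mem_filter.1 hT).1).2⟩)
        have h6 : (243 * θ) ^ n0 ≤ Real.exp (-(β / 2 * n0)) := by
          have e : Real.exp (-(β / 2 * n0)) = Real.exp (-(β / 2)) ^ n0 := by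
            rw [← Real.exp_nat_mul]
            congr 1
            ring
          rw [e]
          exact pow_le_pow_left₀ (by positivity) ht _
        linarith only [h5, h6]
    _ = V.card * (2 * Real.exp (-(β / 2 * n0))) := by simp

theorem count {β G : ℝ} (hβ : 1000 ≤ β) (hG : 0 ≤ G) {N n0 : ℕ} (m : ℤ) (hn : 1 ≤ n0)
    (hb : 4 * (bonds (cube N)).card ≤ 2 ^ sN N) (𝒜 : Finset (Finset Site))
    (h : ∀ A ∈ 𝒜, Code β N m G n0 A) :
    ∑ A ∈ 𝒜, FM β N m A ≤ G * (Params N).card * (bonds (cube N)).card * 4 *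
      Real.exp (-(β / 2 * n0)) * ∑ B ∈ BigSets N, FM β N m B := by
  obtain ⟨V, hV⟩ : ∃ V, V = bonds (cube N) := ⟨_, rfl⟩
  obtain ⟨C, hC⟩ : ∃ C, C = V.powerset.filter (fun c => IsConn c ∧ n0 ≤ c.card) := ⟨_, rfl⟩
  unfold Code at h
  rw [← hV] at h hb ⊢
  choose! q hq I B U h1 h2 h3 h4 h5 h6 h7 h8 h9 using h
  obtain ⟨F, hF⟩ : ∃ F : ((ℤ → ℤ) × Finset ℤ) × Finset Site × Finset Bond × Finset Bond → ℝ,
      ∀ x, F x = G * FM β N m x.2.1 * Real.exp (-β) ^ x.2.2.1.card *
        (if Anim (Pset x.1.1 x.1.2 x.2.1 x.2.2.1) (sN N) x.2.2.2 ∧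
          (Pset x.1.1 x.1.2 x.2.1 x.2.2.1).card ≤ 82 * x.2.2.1.card then
          Real.exp (-(7 * x.2.2.2.card)) else 0) := ⟨_, fun _ => rfl⟩
  have hF0 : ∀ x, 0 ≤ F x := by
    intro x
    rw [hF]
    have := SG2b_FM_nonneg β N m x.2.1
    split_ifs <;> positivity
  obtain ⟨κ, hκ⟩ : ∃ κ : Finset Site →
      ((ℤ → ℤ) × Finset ℤ) × Finset Site × Finset Bond × Finset Bond,
      ∀ A, κ A = (q A, B A, cut (I A), U A) := ⟨_, fun _ => rfl⟩
  have hinj : Set.InjOn κ 𝒜 := by
    intro A hA A' hA' e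
    rw [hκ, hκ] at e
    simp only [Prod.mk.injEq] at e
    obtain ⟨e1, e2, e3, e4⟩ := e
    have e5 : I A = I A' := cut_inj e3
    have e6 : A ∆ I A = A' ∆ I A' := by
      apply cut_inj
      rw [h5 A hA, h5 A' hA', e1, e2, e4]
    rw [e5] at e6
    exact symmDiff_left_injective _ e6
  have hsub : 𝒜.image κ ⊆ Params N ×ˢ BigSets N ×ˢ C ×ˢ V.powerset := by
    intro x hx
    obtain ⟨A, hA, rfl⟩ := Finset.mem_image.1 hx
    rw [hκ, hC]
    simp only [Finset.mem_product, Finset.mem_filter, Finset.mem_powerset]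
    exact ⟨hq A hA, h4 A hA, ⟨h2 A hA, h1 A hA, h3 A hA⟩, h6 A hA⟩
  calc ∑ A ∈ 𝒜, FM β N m A ≤ ∑ A ∈ 𝒜, F (κ A) := by
        refine Finset.sum_le_sum fun A hA => (h9 A hA).trans (le_of_eq ?_)
        rw [hF, hκ]
        simp only
        rw [if_pos ⟨h7 A hA, h8 A hA⟩, ← Real.exp_nat_mul, sub_eq_add_neg, Real.exp_add]
        have e : -(β * ((cut (I A)).card : ℝ)) = ((cut (I A)).card : ℝ) * -β := by ring
        rw [e]
        ring
    _ = ∑ x ∈ 𝒜.image κ, F x := (Finset.sum_image hinj).symm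
    _ ≤ ∑ x ∈ Params N ×ˢ BigSets N ×ˢ C ×ˢ V.powerset, F x :=
        Finset.sum_le_sum_of_subset_of_nonneg hsub fun x _ _ => hF0 x
    _ = ∑ p ∈ Params N, ∑ b ∈ BigSets N, ∑ c ∈ C, ∑ u ∈ V.powerset, F (p, b, c, u) := by
        rw [Finset.sum_product]
        refine Finset.sum_congr rfl fun p _ => ?_
        rw [Finset.sum_product]
        refine Finset.sum_congr rfl fun b _ => ?_
        rw [Finset.sum_product]
    _ ≤ ∑ _p ∈ Params N, ∑ b ∈ BigSets N,
          G * V.card * 4 * Real.exp (-(β / 2 * n0)) * FM β N m b := by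
        refine Finset.sum_le_sum fun p _ => Finset.sum_le_sum fun b _ => ?_
        have hb0 := SG2b_FM_nonneg β N m b
        have hc := SG2b_sumC hβ V hn
        rw [← hC] at hc
        calc ∑ c ∈ C, ∑ u ∈ V.powerset, F (p, b, c, u)
            ≤ ∑ c ∈ C, G * FM β N m b * 2 * (2 ^ 82 * Real.exp (-β)) ^ c.card := by
              refine Finset.sum_le_sum fun c _ => ?_
              simp only [hF]
              rw [← Finset.mul_sum]
              have hu := SG2b_sumU V (Pset p.1 p.2 b c) (sN N) c.card hb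
              have h0 : 0 ≤ G * FM β N m b * Real.exp (-β) ^ c.card := by positivity
              refine (mul_le_mul_of_nonneg_left hu h0).trans (le_of_eq ?_)
              rw [mul_pow]
              ring
          _ = G * FM β N m b * 2 * ∑ c ∈ C, (2 ^ 82 * Real.exp (-β)) ^ c.card := by
              rw [Finset.mul_sum]
          _ ≤ G * FM β N m b * 2 * (V.card * (2 * Real.exp (-(β / 2 * n0)))) :=
              mul_le_mul_of_nonneg_left hc (by positivity)
          _ = G * V.card * 4 * Real.exp (-(β / 2 * n0)) * FM β N m b := by ring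
    _ = _ := by
        rw [Finset.sum_const, ← Finset.mul_sum, nsmul_eq_mul]
        ring

end Pool.Agent.Work.MP_b59478_pr
end
end

-- merged part: Pool.Agent.Work.MP_b59478_pr.Gas3
section
/-! telescope: order the bonds lexicographically by (b.1 0, b.1 1, b.1 2, b.2); the order is
translation invariant. By gZ_insert, log gZ0 X - log gZ0 empty is the sum over b in X of
log (1 - P (b in cut D)), P the gas with forbidden set the bonds of X before b. Every term is in
[-log 2, 0] (gP_cut). For b in G compare the term of b in X' with the term of shiftB (u b) b in X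
by locality, |log (1 - p) - log (1 - p')| <= 2 |p - p'|.
sum_ph: group the points by their sup-distance d to x (at most (2 d + 1) ^ 3 points), or bound
ph ^ max by the product over the coordinates of (1/10) ^ |x i - y i|.
slab_compare: apply telescope with X = nbhd (Kset p Sg B), X' = nbhd (cut B), G the bonds of X'
whose base layer t is at distance d >= 3 from Sg, u = (p t - t) e_0, R = d - 3: p is a translation
on the layers within d - 1 of t, p is injective off Sg. Bound ph ^ (d - 3) and the number of the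
remaining bonds by the sum over Sg, and pass from nbhd (cut B) to cut B (factor 81 / ph).
-/

set_option autoImplicit false

noncomputable section

namespace Pool.Agent.Work.MP_b59478_pr

open Classical Filter Topology MeasureTheory
open scoped symmDiff Pointwise

/-- A translation invariant linear order on bonds. -/
def Gas3_key (b : Bond) : ℤ ×ₗ ℤ ×ₗ ℤ ×ₗ Fin 3 := toLex (b.1 0, toLex (b.1 1, toLex (b.1 2, b.2)))

theorem Gas3_key_inj : Function.Injective Gas3_key := by
  intro b b' h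
  simp only [Gas3_key, EmbeddingLike.apply_eq_iff_eq, Prod.mk.injEq] at h
  refine Prod.ext (funext fun i => ?_) h.2.2.2
  fin_cases i
  · exact h.1
  · exact h.2.1
  · exact h.2.2.1

theorem Gas3_key_shift (u : Site) (b b' : Bond) :
    Gas3_key (shiftB u b') < Gas3_key (shiftB u b) ↔ Gas3_key b' < Gas3_key b := by
  simp only [Gas3_key, shiftB, Prod.Lex.toLex_lt_toLex, Pi.add_apply, add_lt_add_iff_right,
    add_left_inj]

/-- The probability that `b` is cut when the bonds of `X` before `b` are forbidden. -/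
def Gas3_p (β : ℝ) (V : Finset Site) (s : ℕ) (X : Finset Bond) (b : Bond) : ℝ :=
  gP β V (X.filter fun c => Gas3_key c < Gas3_key b) s (fun _ => 0) fun D => b ∈ cut D

theorem Gas3_gas {β : ℝ} (hβ : 1000 ≤ β) {V : Finset Site} (hV : IsBox V) (s : ℕ) :
    Gas β V s (fun _ => 0) := ⟨hβ, hV, fun _ => by simp⟩

theorem Gas3_sum {β : ℝ} (hβ : 1000 ≤ β) {V : Finset Site} (hV : IsBox V) (s : ℕ)
    (X : Finset Bond) : Real.log (gZ0 β V X s) =
      Real.log (gZ0 β V ∅ s) + ∑ b ∈ X, Real.log (1 - Gas3_p β V s X b) := by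
  induction X using Finset.induction_on_max_value Gas3_key with
  | empty => simp
  | insert a X ha hmax ih =>
    have e1 : (insert a X).filter (fun c => Gas3_key c < Gas3_key a) = X := by
      ext c
      simp only [Finset.mem_filter, Finset.mem_insert]
      constructor
      · rintro ⟨rfl | h, h'⟩
        · exact absurd h' (lt_irrefl _)
        · exact h
      · intro h
        exact ⟨Or.inr h, lt_of_le_of_ne (hmax c h) (fun e => ha (Gas3_key_inj e ▸ h))⟩
    have e2 : ∀ b ∈ X, Gas3_p β V s (insert a X) b = Gas3_p β V s X b := by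
      intro b hb
      unfold Gas3_p
      rw [Finset.filter_insert, if_neg (not_lt.2 (hmax b hb))]
    have e3 : Gas3_p β V s (insert a X) a = gP β V X s (fun _ => 0) fun D => a ∈ cut D := by
      unfold Gas3_p
      rw [e1]
    have h1 := gP_cut (Gas3_gas hβ hV s) X a
    rw [Finset.sum_insert ha, Finset.sum_congr rfl (fun b hb => by rw [e2 b hb]), e3, ← gZ_zero,
      gZ_insert, Real.log_mul (gZ_pos _ _ _ _ _).ne' (by linarith), gZ_zero, ih]
    ring

theorem Gas3_log {p p' : ℝ} (hp : p ≤ 1 / 2) (hp' : p' ≤ 1 / 2) :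
    Real.log (1 - p') ≤ Real.log (1 - p) + 2 * |p - p'| := by
  have h1 : 0 < 1 - p := by linarith
  have h2 : 0 < 1 - p' := by linarith
  have h3 := Real.log_le_sub_one_of_pos (div_pos h2 h1)
  rw [Real.log_div h2.ne' h1.ne'] at h3
  have h4 : (1 - p') / (1 - p) ≤ 1 + 2 * |p - p'| := by
    rw [div_le_iff₀ h1]
    nlinarith only [hp, le_abs_self (p - p'), abs_nonneg (p - p')]
  linarith only [h3, h4]

theorem telescope {β : ℝ} (hβ : 1000 ≤ β) {V : Finset Site} (hV : IsBox V) (s : ℕ)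
    (X X' G : Finset Bond) (hG : G ⊆ X') (u : Bond → Site) (R : Bond → ℕ)
    (hinj : Set.InjOn (fun b => shiftB (u b) b) (G : Set Bond))
    (hX : ∀ b ∈ G, shiftB (u b) b ∈ X)
    (hVu : ∀ b ∈ G, ∀ y, Near (R b) y b.1 → (y ∈ V ↔ y + u b ∈ V))
    (hXu : ∀ b ∈ G, ∀ b' : Bond, Near (R b) b'.1 b.1 → (b' ∈ X' ↔ shiftB (u b) b' ∈ X)) :
    Real.log (gZ0 β V X s) ≤
      Real.log (gZ0 β V X' s) + (X' \ G).card + 54 * ∑ b ∈ G, ph ^ R b := by
  have hg := Gas3_gas hβ hV s
  have p0 : ∀ (Y : Finset Bond) (b : Bond), 0 ≤ Gas3_p β V s Y b :=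
    fun Y b => gP_nonneg _ _ _ _ _ _
  have p1 : ∀ (Y : Finset Bond) (b : Bond), Gas3_p β V s Y b ≤ 1 / 2 := fun Y b => gP_cut hg _ b
  have h1 : ∑ b ∈ X, Real.log (1 - Gas3_p β V s X b) ≤
      ∑ b ∈ G, Real.log (1 - Gas3_p β V s X (shiftB (u b) b)) := by
    rw [← Finset.sum_image (f := fun b => Real.log (1 - Gas3_p β V s X b)) hinj]
    refine Finset.sum_le_sum_of_subset_of_nonpos' ?_ (fun b _ _ => ?_)
    · intro c hc
      obtain ⟨b, hb, rfl⟩ := Finset.mem_image.1 hc
      exact hX b hb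
    · exact Real.log_nonpos (by linarith only [p1 X b]) (by linarith [p0 X b])
  have h2 : ∀ b ∈ G, Real.log (1 - Gas3_p β V s X (shiftB (u b) b)) ≤
      Real.log (1 - Gas3_p β V s X' b) + 54 * ph ^ R b := by
    intro b hb
    have l := locality hg hg (X'.filter fun c => Gas3_key c < Gas3_key b)
      (X.filter fun c => Gas3_key c < Gas3_key (shiftB (u b) b)) b.1 (u b) (R b) (Or.inl rfl)
      (hVu b hb) (fun _ _ => rfl)
      (fun b' hb' => by
        rw [Finset.mem_filter, Finset.mem_filter, Gas3_key_shift, hXu b hb b' hb'])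
      (fun D => b ∈ cut D) (fun D => shiftB (u b) b ∈ cut D)
      (fun D D' h => by
        rw [mem_cut, mem_cut, tip_shiftB, h b.1 (Near.refl _ _), h (tip b) (near_tip b).symm]
        rfl)
    have l2 := Gas3_log (p1 X' b) (p1 X (shiftB (u b) b))
    unfold Gas3_p at l2 ⊢
    linarith
  have h3 : ∀ b ∈ X' \ G, -1 ≤ Real.log (1 - Gas3_p β V s X' b) := by
    intro b _
    have l := Gas3_log (p1 X' b) (show (0 : ℝ) ≤ 1 / 2 by norm_num)
    rw [sub_zero, sub_zero, Real.log_one, abs_of_nonneg (p0 X' b)] at l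
    linarith [p1 X' b]
  have h4 := Finset.sum_le_sum h2
  have h5 := Finset.sum_le_sum h3
  rw [Finset.sum_add_distrib, ← Finset.mul_sum] at h4
  rw [Finset.sum_const, nsmul_eq_mul] at h5
  have h6 := Finset.sum_sdiff (f := fun b => Real.log (1 - Gas3_p β V s X' b)) hG
  rw [Gas3_sum hβ hV s X, Gas3_sum hβ hV s X']
  linarith

end Pool.Agent.Work.MP_b59478_pr
end
end

-- merged part: Pool.Agent.Work.MP_b59478_pr.Gas4
section
/-! telescope: order the bonds lexicographically by (b.1 0, b.1 1, b.1 2, b.2); the order is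
translation invariant. By gZ_insert, log gZ0 X - log gZ0 empty is the sum over b in X of
log (1 - P (b in cut D)), P the gas with forbidden set the bonds of X before b. Every term is in
[-log 2, 0] (gP_cut). For b in G compare the term of b in X' with the term of shiftB (u b) b in X
by locality, |log (1 - p) - log (1 - p')| <= 2 |p - p'|.
sum_ph: group the points by their sup-distance d to x (at most (2 d + 1) ^ 3 points), or bound
ph ^ max by the product over the coordinates of (1/10) ^ |x i - y i|.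
slab_compare: apply telescope with X = nbhd (Kset p Sg B), X' = nbhd (cut B), G the bonds of X'
whose base layer t is at distance d >= 3 from Sg, u = (p t - t) e_0, R = d - 3: p is a translation
on the layers within d - 1 of t, p is injective off Sg. Bound ph ^ (d - 3) and the number of the
remaining bonds by the sum over Sg, and pass from nbhd (cut B) to cut B (factor 81 / ph).
-/

set_option autoImplicit false

noncomputable section

namespace Pool.Agent.Work.MP_b59478_pr

open Classical Filter Topology MeasureTheory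
open scoped symmDiff Pointwise

theorem Gas4_sum_nbhd (T : Finset Bond) {f : Bond → ℝ} (hf : ∀ b, 0 ≤ f b) :
    ∑ b ∈ nbhd T, f b ≤ ∑ c ∈ T, ∑ b ∈ adjF c, f b := by
  unfold nbhd
  induction T using Finset.induction_on with
  | empty => simp
  | insert c T hc ih =>
    rw [Finset.biUnion_insert, Finset.sum_insert hc]
    have h1 := Finset.sum_union_inter (s₁ := adjF c) (s₂ := T.biUnion adjF) (f := f)
    have h2 : 0 ≤ ∑ b ∈ adjF c ∩ T.biUnion adjF, f b := Finset.sum_nonneg fun b _ => hf b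
    linarith

theorem Gas4_ph : 0 < ph ∧ ph ≤ 1 := by
  unfold ph
  norm_num

theorem Gas4_layer (T : Finset Bond) (σ : ℤ) :
    ph * ∑ b ∈ nbhd T, ph ^ (b.1 0 - σ).natAbs ≤ 81 * ∑ c ∈ T, ph ^ (c.1 0 - σ).natAbs := by
  obtain ⟨p0, p1⟩ := Gas4_ph
  refine (mul_le_mul_of_nonneg_left (Gas4_sum_nbhd T fun b => (pow_pos p0 _).le) p0.le).trans ?_
  rw [Finset.mul_sum, Finset.mul_sum]
  refine Finset.sum_le_sum fun c _ => ?_
  rw [Finset.mul_sum]
  refine (Finset.sum_le_card_nsmul _ _ (ph ^ (c.1 0 - σ).natAbs) fun b hb => ?_).trans ?_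
  · rw [← pow_succ']
    refine pow_le_pow_of_le_one p0.le p1 ?_
    have h := abs_le.1 ((mem_adjF.1 hb).1 0)
    omega
  · rw [nsmul_eq_mul]
    exact mul_le_mul_of_nonneg_right (by exact_mod_cast card_adjF c) (pow_pos p0 _).le

theorem Gas4_up {N : ℕ} {p : ℤ → ℤ} {Sg : Finset ℤ} (h : Slab N p Sg) (t : ℤ) (k : ℕ)
    (hk : ∀ τ, t ≤ τ → τ < t + k → τ ∉ Sg) : p (t + k) = p t + k := by
  induction k with
  | zero => simp
  | succ k ih =>
    rw [Nat.cast_succ, ← add_assoc, h.step _ (hk _ (by omega) (by omega)),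
      ih fun τ h1 h2 => hk τ h1 (by omega), add_assoc]

theorem Gas4_tr {N : ℕ} {p : ℤ → ℤ} {Sg : Finset ℤ} (h : Slab N p Sg) {t τ : ℤ} {d : ℕ}
    (hd : ∀ σ ∈ Sg, d ≤ (t - σ).natAbs) (hτ : (τ - t).natAbs < d) : p τ = τ + (p t - t) := by
  rcases le_total t τ with h1 | h1
  · have h2 := Gas4_up h t (τ - t).natAbs fun x x1 x2 hx => by have := hd x hx; omega
    rw [show t + ((τ - t).natAbs : ℤ) = τ by omega] at h2
    omega
  · have h2 := Gas4_up h τ (τ - t).natAbs fun x x1 x2 hx => by have := hd x hx; omega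
    rw [show τ + ((τ - t).natAbs : ℤ) = t by omega] at h2
    omega

theorem Gas4_inj {N : ℕ} {p : ℤ → ℤ} {Sg : Finset ℤ} (h : Slab N p Sg) {t τ : ℤ} (ht : t ∉ Sg)
    (hτ : τ ∉ Sg) (e : p t = p τ) : t = τ := by
  rcases lt_trichotomy t τ with h1 | h1 | h1
  · have := h.mono (show t + 1 ≤ τ from h1)
    rw [h.step t ht] at this
    omega
  · exact h1
  · have := h.mono (show τ + 1 ≤ t from h1)
    rw [h.step τ hτ] at this
    omega

theorem Gas4_pj {p : ℤ → ℤ} {x : Site} {a : ℤ} (h : p (x 0) = x 0 + a) :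
    pj p x = x + Pi.single 0 a := by
  funext i
  by_cases hi : i = 0
  · subst hi
    simp [pj, h]
  · simp [pj, hi]

theorem Gas4_pjB {p : ℤ → ℤ} {b : Bond} {a : ℤ} (h : p (b.1 0) = b.1 0 + a) :
    pjB p b = shiftB (Pi.single 0 a) b := by
  rw [pjB, shiftB, Gas4_pj h]

theorem slab_compare : ∃ C : ℝ, 0 < C ∧ ∀ (β : ℝ) (N s : ℕ) (p : ℤ → ℤ) (Sg : Finset ℤ)
    (B : Finset Site), 1000 ≤ β → Slab N p Sg → Sg.Nonempty →
    Real.log (gZ0 β (cube N) (nbhd (Kset p Sg B)) s) ≤
      Real.log (gZ0 β (cube N) (nbhd (cut B)) s) + C * Psi Sg B := by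
  obtain ⟨p0, p1⟩ := Gas4_ph
  refine ⟨54 * 81 / ph ^ 4, by positivity, fun β N s p Sg B hβ hS hne => ?_⟩
  obtain ⟨d, d1, d2⟩ : ∃ d : ℤ → ℕ, (∀ t, ∀ σ ∈ Sg, d t ≤ (t - σ).natAbs) ∧
      ∀ t, ∃ σ ∈ Sg, d t = (t - σ).natAbs :=
    ⟨fun t => Sg.inf' hne fun σ => (t - σ).natAbs, fun t σ hσ => Finset.inf'_le _ hσ,
      fun t => Finset.exists_mem_eq_inf' hne _⟩
  have off : ∀ t τ, (τ - t).natAbs < d t → τ ∉ Sg := fun t τ h hτ => by
    have := d1 t τ hτ
    omega
  have hXu : ∀ b : Bond, 3 ≤ d (b.1 0) → ∀ b' : Bond, Near (d (b.1 0) - 3) b'.1 b.1 →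
      (b' ∈ nbhd (cut B) ↔ shiftB (Pi.single 0 (p (b.1 0) - b.1 0)) b' ∈ nbhd (Kset p Sg B)) := by
    intro b h3 b' hn
    have n0 := abs_le.1 (hn 0)
    rw [mem_nbhd, mem_nbhd]
    constructor
    · rintro ⟨c, hc, ha⟩
      have a0 := abs_le.1 (ha.1 0)
      have h1 : (c.1 0 - b.1 0).natAbs < d (b.1 0) := by omega
      refine ⟨_, Finset.mem_image_of_mem _ (Finset.mem_filter.2 ⟨hc, off _ _ h1⟩), ?_⟩
      rw [Gas4_pjB (Gas4_tr hS (d1 _) h1)]
      exact (adj_shiftB _ _ _).2 ha
    · rintro ⟨_, hc0, ha⟩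
      obtain ⟨c, hc1, rfl⟩ := Finset.mem_image.1 hc0
      obtain ⟨hc, hc'⟩ := Finset.mem_filter.1 hc1
      have a0 := abs_le.1 (ha.1 0)
      simp only [pjB, pj, shiftB, Function.update_self, Pi.add_apply, Pi.single_eq_same] at a0
      have h1 : (p (c.1 0) - (p (b.1 0) - b.1 0) - b.1 0).natAbs < d (b.1 0) := by omega
      have h2 := Gas4_tr hS (d1 _) h1
      have h4 := Gas4_inj hS (off _ _ h1) hc' (by omega)
      rw [Gas4_pjB (a := p (b.1 0) - b.1 0) (by omega)] at ha
      exact ⟨c, hc, (adj_shiftB _ _ _).1 ha⟩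
  have h := telescope hβ (isBox_cube N) s (nbhd (Kset p Sg B)) (nbhd (cut B))
    ((nbhd (cut B)).filter fun b => 3 ≤ d (b.1 0)) (Finset.filter_subset _ _)
    (fun b => Pi.single 0 (p (b.1 0) - b.1 0)) (fun b => d (b.1 0) - 3) ?_
    (fun b hb => (hXu b (Finset.mem_filter.1 hb).2 b (Near.refl _ _)).1 (Finset.mem_filter.1 hb).1)
    ?_ fun b hb => hXu b (Finset.mem_filter.1 hb).2
  · refine h.trans ?_
    rw [add_assoc]
    refine add_le_add_right ?_ _
    have h1 : (((nbhd (cut B) \ (nbhd (cut B)).filter fun b => 3 ≤ d (b.1 0)).card : ℝ) +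
        54 * ∑ b ∈ (nbhd (cut B)).filter fun b => 3 ≤ d (b.1 0), ph ^ (d (b.1 0) - 3)) * ph ^ 3 ≤
        54 * ∑ b ∈ nbhd (cut B), ph ^ d (b.1 0) := by
      rw [← Finset.sum_sdiff (Finset.filter_subset (fun b : Bond => 3 ≤ d (b.1 0)) (nbhd (cut B))),
        mul_add, add_mul, mul_assoc, Finset.sum_mul]
      refine add_le_add ?_ (le_of_eq ?_)
      · rw [← nsmul_eq_mul, Finset.mul_sum]
        refine Finset.card_nsmul_le_sum _ _ _ fun b hb => ?_
        obtain ⟨b1, b2⟩ := Finset.mem_sdiff.1 hb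
        have b3 : d (b.1 0) ≤ 3 := le_of_not_ge fun e => b2 (Finset.mem_filter.2 ⟨b1, e⟩)
        have b4 := pow_le_pow_of_le_one p0.le p1 b3
        have b5 := pow_pos p0 3
        linarith
      · congr 1
        refine Finset.sum_congr rfl fun b hb => ?_
        rw [← pow_add, Nat.sub_add_cancel (Finset.mem_filter.1 hb).2]
    have h2 : ∑ b ∈ nbhd (cut B), ph ^ d (b.1 0) ≤
        ∑ σ ∈ Sg, ∑ b ∈ nbhd (cut B), ph ^ (b.1 0 - σ).natAbs := by
      rw [Finset.sum_comm]
      refine Finset.sum_le_sum fun b _ => ?_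
      obtain ⟨σ, hσ, e⟩ := d2 (b.1 0)
      rw [e]
      exact Finset.single_le_sum (f := fun σ => ph ^ (b.1 0 - σ).natAbs)
        (fun _ _ => (pow_pos p0 _).le) hσ
    have h3 : ph * ∑ σ ∈ Sg, ∑ b ∈ nbhd (cut B), ph ^ (b.1 0 - σ).natAbs ≤ 81 * Psi Sg B := by
      rw [Psi, Finset.mul_sum, Finset.mul_sum]
      exact Finset.sum_le_sum fun σ _ => Gas4_layer _ σ
    rw [div_mul_eq_mul_div, le_div_iff₀ (pow_pos p0 4), pow_succ, ← mul_assoc]
    have h4 := mul_le_mul_of_nonneg_right h1 p0.le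
    have h5 := mul_le_mul_of_nonneg_left h2 p0.le
    linarith only [h3, h4, h5]
  · intro b hb b' hb' e
    have b3 := (Finset.mem_filter.1 hb).2
    have b4 := (Finset.mem_filter.1 hb').2
    have e1 : pjB p b = pjB p b' := by
      rw [Gas4_pjB (a := p (b.1 0) - b.1 0) (by omega),
        Gas4_pjB (a := p (b'.1 0) - b'.1 0) (by omega)]
      exact e
    have e2 := congrFun (congrArg Prod.fst e1) 0
    simp only [pjB, pj, Function.update_self] at e2
    have e3 := Gas4_inj hS (off (b.1 0) _ (by omega)) (off (b'.1 0) _ (by omega)) e2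
    simp only [shiftB, e3, Prod.mk.injEq, add_left_inj] at e
    exact Prod.ext e.1 e.2
  · intro b hb y hy
    have b3 := (Finset.mem_filter.1 hb).2
    have y0 := abs_le.1 (hy 0)
    rw [← Gas4_pj (Gas4_tr hS (d1 _) (by omega)), mem_cube, mem_cube]
    refine forall_congr' fun i => ?_
    by_cases hi : i = 0
    · subst hi
      simpa [pj] using hS.box (y 0)
    · simp [pj, hi]

end Pool.Agent.Work.MP_b59478_pr
end
end
end
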