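import Pool.Agent.Work.MP_b59478_pr.Tau3
import Pool.Agent.Work.MP_b59478_pr.Gas4

-- merged part: Pool.Agent.Work.MP_b59478_pr.DG1
section
-- merged part: Pool.Agent.Work.MP_b59478_pr.Cont
section
/-! Lattice sets as subsets of space.
volume_cubes: the open cubes are disjoint, the closed ones have the same volume.
inK_eA: for 0 <= h <= 1 the set (h e_i + cubes A) minus cubes A is covered by one slab of volume h
for each cut bond in direction i leaving A, and the reverse difference by one for each bond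
entering; general h by the triangle inequality for symmetric differences (h = m * (h / m)), and
negative h by translation invariance; rescale.
frontier_cubes: if all lattice points whose closed cube contains z are in F then z is interior;
otherwise use hullPath between two lattice points whose cubes contain z.
-/

set_option autoImplicit false

noncomputable section

namespace Pool.Agent.Work.MP_b59478_pr

open Classical Filter Topology MeasureTheory
open scoped symmDiff Pointwise

theorem emb_apply (x : Site) (i : Fin 3) : emb x i = (x i : ℝ) := rfl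

theorem volume_box (a b : Fin 3 → ℝ) :
    volume {x : E3 | ∀ i, a i ≤ x i ∧ x i ≤ b i} = ∏ i, ENNReal.ofReal (b i - a i) := by
  rw [← Real.volume_Icc_pi, ← (PiLp.volume_preserving_ofLp (Fin 3)).measure_preimage
    measurableSet_Icc.nullMeasurableSet]
  congr 1
  ext x
  simp [Pi.le_def, forall_and]

theorem volume_boxO (a b : Fin 3 → ℝ) :
    volume {x : E3 | ∀ i, a i < x i ∧ x i < b i} = ∏ i, ENNReal.ofReal (b i - a i) := by
  rw [← Real.volume_pi_Ioo, ← (PiLp.volume_preserving_ofLp (Fin 3)).measure_preimage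
    (MeasurableSet.univ_pi fun _ => measurableSet_Ioo).nullMeasurableSet]
  congr 1
  ext x
  simp

theorem volume_cubeO (z : E3) {r : ℝ} (hr : 0 ≤ r) :
    volume (cubeO z r) = ENNReal.ofReal ((2 * r) ^ 3) := by
  have h : cubeO z r = {x : E3 | ∀ i, z i - r < x i ∧ x i < z i + r} := by
    ext x
    refine forall_congr' fun i => ?_
    rw [abs_lt]
    constructor <;> rintro ⟨h1, h2⟩ <;> constructor <;> linarith only [h1, h2]
  rw [h, volume_boxO (fun i => z i - r) fun i => z i + r, ENNReal.ofReal_pow (by positivity)]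
  simp [two_mul]

theorem Cont_cube (z : E3) {r : ℝ} (hr : 0 ≤ r) :
    volume {x : E3 | ∀ i, |x i - z i| ≤ r} = ENNReal.ofReal ((2 * r) ^ 3) := by
  have h : {x : E3 | ∀ i, |x i - z i| ≤ r} = {x : E3 | ∀ i, z i - r ≤ x i ∧ x i ≤ z i + r} := by
    ext x
    refine forall_congr' fun i => ?_
    rw [abs_le]
    constructor <;> rintro ⟨h1, h2⟩ <;> constructor <;> linarith
  rw [h, volume_box (fun i => z i - r) fun i => z i + r, ENNReal.ofReal_pow (by positivity)]
  simp [two_mul]

theorem volume_boxE {r : ℝ} (hr : 0 ≤ r) : volume (boxE r) = ENNReal.ofReal ((2 * r) ^ 3) := by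
  simpa [boxE] using Cont_cube 0 hr

theorem isOpen_cubeO (z : E3) (r : ℝ) : IsOpen (cubeO z r) := by
  simp only [cubeO, Set.ofPred_forall]
  exact isOpen_iInter_of_finite fun i => isOpen_lt (by fun_prop) continuous_const

theorem convex_cubeO (z : E3) (r : ℝ) : Convex ℝ (cubeO z r) := by
  intro x hx y hy a b ha hb hab i
  have h := convex_Ioo (-r) r (abs_lt.1 (hx i)) (abs_lt.1 (hy i)) ha hb hab
  have e : (a • x + b • y) i - z i = a • (x i - z i) + b • (y i - z i) := by
    simp only [PiLp.add_apply, PiLp.smul_apply, smul_eq_mul]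
    linear_combination z i * hab
  rw [e]
  exact abs_lt.2 h

theorem norm_le_of_coord {x : E3} {r : ℝ} (h : ∀ i, |x i| ≤ r) : ‖x‖ ≤ 2 * r := by
  have hr : 0 ≤ r := (abs_nonneg _).trans (h 0)
  have h1 : ∀ i, x i ^ 2 ≤ r ^ 2 := fun i => sq_le_sq' (abs_le.1 (h i)).1 (abs_le.1 (h i)).2
  rw [EuclideanSpace.norm_eq]
  refine Real.sqrt_le_iff.2 ⟨by positivity, ?_⟩
  simp only [Fin.sum_univ_three, Real.norm_eq_abs, sq_abs]
  nlinarith only [h1 0, h1 1, h1 2, sq_nonneg r]

theorem Cont_cpt (z : E3) (r : ℝ) : IsCompact {x : E3 | ∀ i, |x i - z i| ≤ r} := by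
  refine Metric.isCompact_of_isClosed_isBounded ?_
    ((Metric.isBounded_closedBall (x := z) (r := 2 * r)).subset fun x hx => ?_)
  · simp only [Set.ofPred_forall]
    exact isClosed_iInter fun i => isClosed_le (by fun_prop) continuous_const
  · exact mem_closedBall_iff_norm.2 (norm_le_of_coord hx)

theorem isCompact_boxE (r : ℝ) : IsCompact (boxE r) := by
  simpa [boxE] using Cont_cpt 0 r

theorem isOpen_cylR (c : E3) (k : Fin 3) (l : ℝ) : IsOpen (cylR c k l) := by
  simp only [cylR, Set.ofPred_forall]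
  exact isOpen_iInter_of_finite fun i => isOpen_lt (by fun_prop) continuous_const

theorem abs_coord_le (x : E3) (i : Fin 3) : |x i| ≤ ‖x‖ := PiLp.norm_apply_le x i

theorem volume_smul_set (a : ℝ) (ha : 0 ≤ a) (S : Set E3) :
    volume (a • S) = ENNReal.ofReal (a ^ 3) * volume S := by
  rw [Measure.addHaar_smul, finrank_euclideanSpace_fin, abs_of_nonneg (pow_nonneg ha 3)]

theorem Cont_eq (C : Finset Site) :
    cubes C = ⋃ x ∈ C, {z : E3 | ∀ i, |z i - emb x i| ≤ 1 / 2} := by
  ext z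
  simp only [cubes, Set.mem_iUnion, Set.mem_ofPred_eq, exists_prop, emb_apply]

theorem isCompact_cubes (C : Finset Site) : IsCompact (cubes C) := by
  rw [Cont_eq]
  exact C.isCompact_biUnion fun x _ => Cont_cpt _ _

theorem Cont_int {x y : Site} {z : E3} (hx : ∀ i, |z i - x i| < 1 / 2)
    (hy : ∀ i, |z i - y i| ≤ 1 / 2) : x = y := by
  funext i
  have h1 := abs_lt.1 (hx i)
  have h2 := abs_le.1 (hy i)
  have h3 : (x i : ℝ) < y i + 1 := by linarith only [h1, h2]
  have h4 : (y i : ℝ) < x i + 1 := by linarith only [h1, h2]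
  norm_cast at h3 h4
  omega

theorem emb_mem_cubes {C : Finset Site} {x : Site} : emb x ∈ cubes C ↔ x ∈ C :=
  ⟨fun ⟨_, hy, h⟩ => Cont_int (x := x) (fun i => by simp [emb_apply]) h ▸ hy,
    fun h => ⟨x, h, fun i => by simp [emb_apply]⟩⟩

theorem Cont_card {C : Finset Site} {U : Set E3}
    (h : ∀ x ∈ C, cubeO (emb x) (1 / 2) ⊆ U) : (C.card : ENNReal) ≤ volume U := by
  refine le_trans (le_of_eq ?_) (measure_mono (Set.iUnion₂_subset h))
  rw [measure_biUnion_finset (f := fun x => cubeO (emb x) (1 / 2))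
    (fun x _ y _ hxy => Set.disjoint_left.2 fun z hx hy => hxy (Cont_int hx fun i => (hy i).le))
    fun x _ => (isOpen_cubeO _ _).measurableSet]
  simp [volume_cubeO]

theorem volume_cubes (C : Finset Site) : volume (cubes C) = C.card := by
  refine le_antisymm ?_ (Cont_card fun x hx z hz => ⟨x, hx, fun i => (hz i).le⟩)
  rw [Cont_eq]
  refine (measure_biUnion_finset_le _ _).trans (le_of_eq ?_)
  simp only [Cont_cube _ (show (0 : ℝ) ≤ 1 / 2 by norm_num)]
  simp

/-- Counting lattice points by volume: if the open unit cube at each point of `C` is in `U`. -/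
theorem card_le_volume {C : Finset Site} {U : Set E3}
    (h : ∀ x ∈ C, cubeO (emb x) (1 / 2) ⊆ U) : (C.card : ENNReal) ≤ volume U := Cont_card h

theorem not_mem_cubes {C : Finset Site} {x : Site} (hx : x ∉ C) {z : E3}
    (hz : z ∈ cubeO (emb x) (1 / 2)) : z ∉ cubes C :=
  fun ⟨_, hy, h⟩ => hx (Cont_int (x := x) hz h ▸ hy)

theorem mem_eA {N : ℕ} (hN : 1 ≤ N) {A : Finset Site} {z : E3} :
    z ∈ eA N A ↔ (N : ℝ) • z ∈ cubes A :=
  Set.mem_inv_smul_set_iff₀ (Nat.cast_ne_zero.2 (by omega)) _ _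

theorem volume_eA {N : ℕ} (hN : 1 ≤ N) (A : Finset Site) :
    volume (eA N A) = ENNReal.ofReal (A.card / (N : ℝ) ^ 3) := by
  rw [eA, volume_smul_set _ (by positivity), volume_cubes, div_eq_inv_mul, ← inv_pow,
    ENNReal.ofReal_mul (by positivity), ENNReal.ofReal_natCast]

theorem frontier_cubes {F : Finset Site} {z : E3} (hz : z ∈ frontier (cubes F)) :
    ∃ b ∈ cut F, ∀ i, |z i - (b.1 i : ℝ)| ≤ 3 / 2 := by
  obtain ⟨x, hx, h1⟩ := (isCompact_cubes F).isClosed.frontier_subset hz
  rw [frontier_eq_closure_inter_closure] at hz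
  have h2 : z ∈ cubes (ball x 2 \ F) := by
    refine (isCompact_cubes _).isClosed.closure_subset_iff.2 ?_
      ((isOpen_cubeO z (1 / 2)).inter_closure ⟨fun i => by simp, hz.2⟩)
    rintro y ⟨h3, h4⟩
    have h5 : ∀ i, |y i - round (y i)| ≤ 1 / 2 := fun i => abs_sub_round _
    refine ⟨fun i => round (y i), Finset.mem_sdiff.2 ⟨mem_ball.2 fun i => ?_,
      fun h => h4 ⟨_, h, h5⟩⟩, h5⟩
    have h6 := abs_le.1 (h1 i)
    have h7 := abs_lt.1 (h3 i)
    have h8 := abs_le.1 (h5 i)
    have h9 : |(round (y i) : ℝ) - x i| ≤ 2 := abs_le.2 ⟨by linarith only [h6, h7, h8], by linarith only [h6, h7, h8]⟩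
    exact_mod_cast h9
  obtain ⟨y, hy, h3⟩ := h2
  obtain ⟨b, h4, h5⟩ := hullPath (H := (F : Set Site)) hx (Finset.mem_sdiff.1 hy).2
  refine ⟨b, mem_cut.2 h4, fun i => ?_⟩
  have h6 := abs_le.1 (h1 i)
  have h7 := abs_le.1 (h3 i)
  have h8 : ((min (x i) (y i) : ℤ) : ℝ) ≤ b.1 i := by exact_mod_cast (h5 i).1
  have h9 : (b.1 i : ℝ) ≤ (max (x i) (y i) : ℤ) := by
    have := (h5 i).2
    rw [tip_apply] at this
    exact_mod_cast le_trans (by split_ifs <;> omega) this
  push_cast at h8 h9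
  rw [min_le_iff] at h8
  rw [le_max_iff] at h9
  rcases h8 with h8 | h8 <;> rcases h9 with h9 | h9 <;> exact abs_le.2 ⟨by linarith only [h6, h9, h7], by linarith only [h6, h8, h7]⟩

end Pool.Agent.Work.MP_b59478_pr
end
end

-- merged part: Pool.Agent.Work.MP_b59478_pr.Compact
section
/-! Compactness in volume of the sets with a translation estimate.
trans_le: triangle inequality over the three coordinates.
Total boundedness: for a grid of half-open cubes Q of side r covering boxE 2, let E_r be the union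
of the cubes where E has more than half of the volume. vol (Q inter (E symmdiff E_r)) * r ^ 3 / 2 is
at most vol (E inter Q) * vol (Q minus E); summing over Q and using pair_count this is at most
C P r ^ 4, so vol (E symmdiff E_r) <= C P r; there are finitely many such unions.
Completeness: a sequence with summable volume distances converges to its liminf set (intersected
with boxE 2), and the translation estimate passes to the limit. Then finite_cover is the usual
argument (work in the pseudo-emetric space MeasuredSets volume, or in the subtype of InK P with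
edist E F = volume (E symmdiff F): complete and totally bounded, hence compact).
pair_count: vol (E inter Q) * vol (Q minus E) is the measure of the pairs (x, h) with x in E inter Q,
x + h in Q minus E; sum over the disjoint Q, integrate first in x, h in boxE (2 r), norm h <= 4 r.
-/

set_option autoImplicit false

noncomputable section

namespace Pool.Agent.Work.MP_b59478_pr

open Classical Filter Topology MeasureTheory
open scoped symmDiff Pointwise

theorem Compact_add (E : Set E3) (a b : E3) :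
    volume (E ∆ ((a + b) +ᵥ E)) ≤ volume (E ∆ (a +ᵥ E)) + volume (E ∆ (b +ᵥ E)) := by
  have h1 := measure_symmDiff_le (μ := volume) E (a +ᵥ E) ((a + b) +ᵥ E)
  rw [add_vadd, ← Set.vadd_set_symmDiff, measure_vadd] at h1
  rw [add_vadd]
  exact h1

theorem trans_le {P : ℝ} (hP : 0 ≤ P) {E : Set E3} (h : InK P E) (u : E3) :
    volume (E ∆ (u +ᵥ E)) ≤ ENNReal.ofReal (3 * P * ‖u‖) := by
  have hu : u = EuclideanSpace.single 0 (u 0) +
      (EuclideanSpace.single 1 (u 1) + EuclideanSpace.single 2 (u 2)) := by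
    ext i
    fin_cases i <;> simp
  have h0 : ∀ i : Fin 3, volume (E ∆ (EuclideanSpace.single i (u i) +ᵥ E)) ≤
      ENNReal.ofReal (P * ‖u‖) := fun i =>
    (h.trans i (u i)).trans (ENNReal.ofReal_le_ofReal
      (mul_le_mul_of_nonneg_left (abs_coord_le u i) hP))
  have hn : 0 ≤ P * ‖u‖ := mul_nonneg hP (norm_nonneg _)
  calc volume (E ∆ (u +ᵥ E)) = volume (E ∆ ((EuclideanSpace.single 0 (u 0) +
        (EuclideanSpace.single 1 (u 1) + EuclideanSpace.single 2 (u 2)) : E3) +ᵥ E)) := by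
        rw [← hu]
    _ ≤ ENNReal.ofReal (P * ‖u‖) + (ENNReal.ofReal (P * ‖u‖) + ENNReal.ofReal (P * ‖u‖)) :=
        (Compact_add E _ _).trans (add_le_add (h0 0)
          ((Compact_add E _ _).trans (add_le_add (h0 1) (h0 2))))
    _ = ENNReal.ofReal (3 * P * ‖u‖) := by
        rw [← ENNReal.ofReal_add hn hn, ← ENNReal.ofReal_add hn (add_nonneg hn hn)]
        congr 1; ring

theorem InK.finite {P : ℝ} {E : Set E3} (h : InK P E) : volume E ≠ ⊤ :=
  ne_top_of_le_ne_top (isCompact_boxE 2).measure_lt_top.ne (measure_mono h.sub)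

theorem Compact_prod {A B : Set E3} (hA : MeasurableSet A) (hB : MeasurableSet B) :
    MeasurableSet {p : E3 × E3 | p.1 ∈ A ∧ p.1 + p.2 ∈ B} ∧
    (volume.prod volume) {p : E3 × E3 | p.1 ∈ A ∧ p.1 + p.2 ∈ B} = volume A * volume B := by
  have hm : MeasurableSet {p : E3 × E3 | p.1 ∈ A ∧ p.1 + p.2 ∈ B} :=
    (measurable_fst hA).inter ((measurable_fst.add measurable_snd) hB)
  refine ⟨hm, ?_⟩
  rw [Measure.prod_apply hm]
  have : (fun x : E3 => volume (Prod.mk x ⁻¹' {p : E3 × E3 | p.1 ∈ A ∧ p.1 + p.2 ∈ B})) =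
      A.indicator fun _ => volume B := by
    funext x
    by_cases hx : x ∈ A
    · rw [Set.indicator_of_mem hx, ← measure_preimage_add volume x B]
      congr 1
      ext y
      simp [hx]
    · rw [Set.indicator_of_notMem hx]
      convert measure_empty (μ := (volume : Measure E3))
      ext y
      simp [hx]
  rw [this, lintegral_indicator_const hA, mul_comm]

theorem pair_count {ι : Type} {P : ℝ} (hP : 0 ≤ P) {E : Set E3} (h : InK P E) (t : Finset ι)
    (Q : ι → Set E3) {r : ℝ} (hr : 0 < r) (hm : ∀ j ∈ t, MeasurableSet (Q j))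
    (hd : ∀ j ∈ t, ∀ x ∈ Q j, ∀ y ∈ Q j, ∀ i, |x i - y i| ≤ 2 * r)
    (hdis : ∀ i ∈ t, ∀ j ∈ t, i ≠ j → Disjoint (Q i) (Q j)) :
    ∑ j ∈ t, volume.real (E ∩ Q j) * volume.real (Q j \ E) ≤ 768 * P * r ^ 4 := by
  set S : ι → Set (E3 × E3) := fun j => {p | p.1 ∈ E ∩ Q j ∧ p.1 + p.2 ∈ Q j \ E} with hS
  have hS1 : ∀ j ∈ t, MeasurableSet (S j) ∧
      (volume.prod volume) (S j) = volume (E ∩ Q j) * volume (Q j \ E) := fun j hj =>
    Compact_prod (h.meas.inter (hm j hj)) ((hm j hj).diff h.meas)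
  have hB : MeasurableSet (boxE (2 * r)) := (isCompact_boxE _).measurableSet
  set T : Set (E3 × E3) := {p | p.2 ∈ boxE (2 * r) ∧ p.1 ∈ E ∧ p.1 + p.2 ∈ Eᶜ} with hT
  have hTm : MeasurableSet T :=
    (measurable_snd hB).inter ((measurable_fst h.meas).inter
      ((measurable_fst.add measurable_snd) h.meas.compl))
  have hsub : (⋃ j ∈ t, S j) ⊆ T := by
    intro p hp
    obtain ⟨j, hj, hp⟩ := Set.mem_iUnion₂.1 hp
    refine ⟨fun i => ?_, hp.1.1, hp.2.2⟩
    have := hd j hj _ hp.2.1 _ hp.1.2 i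
    simpa using this
  have hTv : (volume.prod volume) T ≤ ENNReal.ofReal (768 * P * r ^ 4) := by
    rw [Measure.prod_apply_symm hTm]
    have : ∀ y : E3, volume ((fun x : E3 => (x, y)) ⁻¹' T) ≤
        (boxE (2 * r)).indicator (fun _ => ENNReal.ofReal (12 * P * r)) y := by
      intro y
      by_cases hy : y ∈ boxE (2 * r)
      · rw [Set.indicator_of_mem hy]
        have h1 : (fun x : E3 => (x, y)) ⁻¹' T ⊆ E ∆ ((-y) +ᵥ E) := by
          intro x hx
          refine Or.inl ⟨hx.2.1, fun hx' => hx.2.2 ?_⟩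
          rw [Set.mem_neg_vadd_set_iff] at hx'
          simpa [add_comm] using hx'
        refine (measure_mono h1).trans ((trans_le hP h _).trans (ENNReal.ofReal_le_ofReal ?_))
        have h2 := norm_le_of_coord hy
        rw [norm_neg]
        nlinarith only [hP, h2]
      · rw [Set.indicator_of_notMem hy]
        have : (fun x : E3 => (x, y)) ⁻¹' T = ∅ := by
          ext x
          simp [hT, hy]
        rw [this, measure_empty]
    refine (lintegral_mono this).trans ?_
    rw [lintegral_indicator_const hB, volume_boxE (by positivity),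
      ← ENNReal.ofReal_mul (by positivity)]
    exact le_of_eq (by congr 1; ring)
  have hsum : ∑ j ∈ t, volume (E ∩ Q j) * volume (Q j \ E) ≤
      ENNReal.ofReal (768 * P * r ^ 4) := by
    rw [← Finset.sum_congr rfl fun j hj => (hS1 j hj).2,
      ← measure_biUnion_finset _ fun j hj => (hS1 j hj).1]
    · exact (measure_mono hsub).trans hTv
    · intro i hi j hj hij
      refine Set.disjoint_left.2 fun p hp hp' => ?_
      exact Set.disjoint_left.1 (hdis i hi j hj hij) hp.1.2 hp'.1.2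
  have hfin : ∀ j ∈ t, volume (E ∩ Q j) * volume (Q j \ E) ≠ ⊤ := fun j hj =>
    ne_top_of_le_ne_top ENNReal.ofReal_ne_top
      ((Finset.single_le_sum (f := fun j => volume (E ∩ Q j) * volume (Q j \ E))
        (fun _ _ => zero_le) hj).trans hsum)
  have := ENNReal.toReal_le_of_le_ofReal (by positivity) hsum
  rw [ENNReal.toReal_sum hfin] at this
  simpa [Measure.real, ENNReal.toReal_mul] using this

/-- The half-open cell of side `r` with index `j`. -/
def Compact_cell (r : ℝ) (j : Site) : Set E3 := {x | ∀ i, ⌊x i / r⌋ = j i}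

theorem Compact_cell_iff {r : ℝ} (hr : 0 < r) (j : Site) (x : E3) :
    x ∈ Compact_cell r j ↔ ∀ i, (j i : ℝ) * r ≤ x i ∧ x i < (j i + 1) * r := by
  refine forall_congr' fun i => ?_
  rw [Int.floor_eq_iff, le_div_iff₀ hr, div_lt_iff₀ hr]

theorem Compact_cell_meas (r : ℝ) (j : Site) : MeasurableSet (Compact_cell r j) := by
  have : Compact_cell r j = ⋂ i, (fun x : E3 => ⌊x i / r⌋) ⁻¹' {j i} := by
    ext x; simp [Compact_cell]
  rw [this]
  refine MeasurableSet.iInter fun i => ?_
  have h1 : Measurable fun x : E3 => x i / r := by fun_prop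
  exact (Int.measurable_floor.comp h1) (measurableSet_singleton _)

theorem Compact_cell_vol {r : ℝ} (hr : 0 < r) (j : Site) :
    volume (Compact_cell r j) = ENNReal.ofReal (r ^ 3) := by
  have e : ∏ i : Fin 3, ENNReal.ofReal (((j i : ℝ) + 1) * r - (j i : ℝ) * r) =
      ENNReal.ofReal (r ^ 3) := by
    rw [Finset.prod_congr rfl fun i _ =>
      (by congr 1; ring : ENNReal.ofReal (((j i : ℝ) + 1) * r - (j i : ℝ) * r) =
        ENNReal.ofReal r)]
    simp [ENNReal.ofReal_pow hr.le]
  apply le_antisymm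
  · rw [← e, ← volume_box (fun i => (j i : ℝ) * r) fun i => ((j i : ℝ) + 1) * r]
    refine measure_mono fun x hx i => ?_
    have := (Compact_cell_iff hr j x).1 hx i
    exact ⟨this.1, this.2.le⟩
  · rw [← e, ← volume_boxO (fun i => (j i : ℝ) * r) fun i => ((j i : ℝ) + 1) * r]
    refine measure_mono fun x hx => (Compact_cell_iff hr j x).2 fun i => ?_
    exact ⟨(hx i).1.le, (hx i).2⟩

theorem Compact_approx {P : ℝ} (hP : 0 ≤ P) {r : ℝ} (hr : 0 < r) :
    ∃ t : Finset Site, ∀ E, InK P E → ∃ s ⊆ t,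
      volume (E ∆ ⋃ j ∈ s, Compact_cell r j) ≤ ENNReal.ofReal (1536 * P * r) := by
  set t : Finset Site := Fintype.piFinset fun _ => Finset.Icc ⌊-2 / r⌋ ⌊2 / r⌋ with ht
  refine ⟨t, fun E h => ?_⟩
  set Q := Compact_cell r with hQ
  have hdis : ∀ i j : Site, i ≠ j → Disjoint (Q i) (Q j) := fun i j hij =>
    Set.disjoint_left.2 fun x hx hx' => hij (funext fun k => (hx k).symm.trans (hx' k))
  have hcov : ∀ x ∈ E, ∃ j ∈ t, x ∈ Q j := by
    intro x hx
    refine ⟨fun i => ⌊x i / r⌋, Fintype.mem_piFinset.2 fun i => ?_, fun i => rfl⟩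
    have := abs_le.1 (h.sub hx i)
    exact Finset.mem_Icc.2 ⟨Int.floor_mono (div_le_div_of_nonneg_right this.1 hr.le),
      Int.floor_mono (div_le_div_of_nonneg_right this.2 hr.le)⟩
  have hpc := pair_count hP h t Q hr (fun j _ => Compact_cell_meas r j)
    (fun j _ x hx y hy i => by
      have h1 := (Compact_cell_iff hr j x).1 hx i
      have h2 := (Compact_cell_iff hr j y).1 hy i
      rw [abs_le]
      constructor <;> nlinarith only [hr, h1, h2, h1.1, h1.2, h2.1, h2.2])
    (fun i _ j _ hij => hdis i j hij)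
  set a : Site → ℝ := fun j => volume.real (E ∩ Q j) with ha
  set b : Site → ℝ := fun j => volume.real (Q j \ E) with hb
  have hQf : ∀ j, volume (Q j) ≠ ⊤ := fun j => by
    rw [hQ, Compact_cell_vol hr]; exact ENNReal.ofReal_ne_top
  have hab : ∀ j, a j + b j = r ^ 3 := fun j => by
    have h1 := measureReal_inter_add_sdiff (μ := volume) (s := Q j) h.meas (hQf j)
    have h2 : volume.real (Q j) = r ^ 3 := by
      rw [Measure.real, hQ, Compact_cell_vol hr, ENNReal.toReal_ofReal (by positivity)]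
    rw [Set.inter_comm] at h1
    rw [← h2, ← h1]
  set s := t.filter fun j => b j ≤ a j with hs
  refine ⟨s, Finset.filter_subset _ _, ?_⟩
  set D : Site → Set E3 := fun j => if b j ≤ a j then Q j \ E else E ∩ Q j with hD
  have hsub : E ∆ (⋃ j ∈ s, Q j) ⊆ ⋃ j ∈ t, D j := by
    intro x hx
    rcases hx with ⟨h1, h2⟩ | ⟨h1, h2⟩
    · obtain ⟨j, hj, hxj⟩ := hcov x h1
      refine Set.mem_iUnion₂.2 ⟨j, hj, ?_⟩
      have : ¬ b j ≤ a j := fun hc =>
        h2 (Set.mem_iUnion₂.2 ⟨j, Finset.mem_filter.2 ⟨hj, hc⟩, hxj⟩)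
      simp only [hD, if_neg this]
      exact ⟨h1, hxj⟩
    · obtain ⟨j, hj, hxj⟩ := Set.mem_iUnion₂.1 h1
      obtain ⟨hj1, hj2⟩ := Finset.mem_filter.1 hj
      refine Set.mem_iUnion₂.2 ⟨j, hj1, ?_⟩
      simp only [hD, if_pos hj2]
      exact ⟨hxj, h2⟩
  have hr3 : 0 < r ^ 3 := by positivity
  have ha0 : ∀ j, 0 ≤ a j := fun j => measureReal_nonneg
  have hb0 : ∀ j, 0 ≤ b j := fun j => measureReal_nonneg
  have hDv : ∀ j, volume (D j) ≤ ENNReal.ofReal (2 / r ^ 3 * (a j * b j)) := by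
    intro j
    have h1 := hab j
    have h2 := ha0 j
    have h3 := hb0 j
    by_cases hc : b j ≤ a j
    · simp only [hD, if_pos hc]
      rw [← ENNReal.ofReal_toReal (ne_top_of_le_ne_top (hQf j) (measure_mono Set.sdiff_subset))]
      refine ENNReal.ofReal_le_ofReal ?_
      change b j ≤ _
      rw [div_mul_eq_mul_div, le_div_iff₀ hr3]
      nlinarith only [hr3, h1, h2, h3, hc]
    · simp only [hD, if_neg hc]
      rw [← ENNReal.ofReal_toReal
        (ne_top_of_le_ne_top (hQf j) (measure_mono Set.inter_subset_right))]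
      refine ENNReal.ofReal_le_ofReal ?_
      change a j ≤ _
      rw [div_mul_eq_mul_div, le_div_iff₀ hr3]
      nlinarith only [h1, h2, hc]
  refine (measure_mono hsub).trans ((measure_biUnion_finset_le _ _).trans
    ((Finset.sum_le_sum fun j _ => hDv j).trans ?_))
  rw [← ENNReal.ofReal_sum_of_nonneg fun j _ =>
    mul_nonneg (by positivity) (mul_nonneg (ha0 j) (hb0 j)), ← Finset.mul_sum]
  refine ENNReal.ofReal_le_ofReal ?_
  calc 2 / r ^ 3 * ∑ j ∈ t, a j * b j ≤ 2 / r ^ 3 * (768 * P * r ^ 4) :=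
        mul_le_mul_of_nonneg_left hpc (by positivity)
    _ = 1536 * P * r := by field_simp; ring

theorem Compact_tb {P : ℝ} (hP : 0 ≤ P) :
    TotallyBounded {s : MeasuredSets (volume : Measure E3) | InK P (s : Set E3)} := by
  rw [EMetric.totallyBounded_iff]
  intro ε hε
  obtain ⟨δ, -, hδ0, hδ⟩ := ENNReal.lt_iff_exists_real_btwn.1 hε
  have hδ1 : 0 < δ := ENNReal.ofReal_pos.1 hδ0
  have hr : 0 < δ / (1536 * P + 1) := by positivity
  obtain ⟨t, ht⟩ := Compact_approx hP hr
  let U : Finset Site → MeasuredSets (volume : Measure E3) := fun s =>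
    ⟨⋃ j ∈ s, Compact_cell (δ / (1536 * P + 1)) j,
      Finset.measurableSet_biUnion _ fun j _ => Compact_cell_meas _ j⟩
  refine ⟨U '' (t.powerset : Set (Finset Site)), (Finset.finite_toSet _).image _, fun E hE => ?_⟩
  obtain ⟨s, hs, hv⟩ := ht E hE
  refine Set.mem_iUnion₂.2 ⟨U s, ⟨s, Finset.mem_coe.2 (Finset.mem_powerset.2 hs), rfl⟩, ?_⟩
  refine lt_of_le_of_lt (hv.trans (ENNReal.ofReal_le_ofReal ?_)) hδ
  rw [← mul_div_assoc, div_le_iff₀ (by positivity)]
  nlinarith only [hδ1]

theorem Compact_lim {P : ℝ} (u : ℕ → Set E3) (hu : ∀ n, InK P (u n))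
    (hc : ∀ n, volume (u n ∆ u (n + 1)) ≤ 2⁻¹ ^ n) :
    ∃ E, InK P E ∧ Tendsto (fun n => volume (u n ∆ E)) atTop (𝓝 0) := by
  set E : Set E3 := ⋃ N, ⋂ k, u (N + k) with hE
  have h1 : ∀ N, volume (u N ∆ E) ≤ 2⁻¹ ^ N * 2 := by
    intro N
    have hsub : u N ∆ E ⊆ ⋃ k, u (N + k) ∆ u (N + k + 1) := by
      intro x hx
      by_contra hn
      have h2 : ∀ k, x ∈ u (N + k) ↔ x ∈ u N := by
        intro k
        induction k with
        | zero => rfl
        | succ k ih =>
          have h3 : x ∉ u (N + k) ∆ u (N + k + 1) := fun h => hn (Set.mem_iUnion.2 ⟨k, h⟩)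
          rw [Set.mem_symmDiff] at h3
          rw [← ih, ← add_assoc]
          tauto
      rcases hx with ⟨h3, h4⟩ | ⟨h3, h4⟩
      · exact h4 (Set.mem_iUnion.2 ⟨N, Set.mem_iInter.2 fun k => (h2 k).2 h3⟩)
      · obtain ⟨M, hM⟩ := Set.mem_iUnion.1 h3
        have h5 := Set.mem_iInter.1 hM N
        rw [add_comm] at h5
        exact h4 ((h2 M).1 h5)
    refine (measure_mono hsub).trans ((measure_iUnion_le _).trans
      ((ENNReal.tsum_le_tsum fun k => hc (N + k)).trans (le_of_eq ?_)))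
    simp_rw [pow_add]
    rw [ENNReal.tsum_mul_left, ENNReal.tsum_geometric]
    simp
  have h2 : Tendsto (fun n => volume (u n ∆ E)) atTop (𝓝 0) := by
    have h3 : Tendsto (fun n : ℕ => (2⁻¹ : ENNReal) ^ n * 2) atTop (𝓝 0) := by
      have := ENNReal.Tendsto.mul_const (b := 2)
        (ENNReal.tendsto_pow_atTop_nhds_zero_of_lt_one (r := 2⁻¹) (by simp)) (Or.inr (by simp))
      simpa using this
    exact tendsto_of_tendsto_of_tendsto_of_le_of_le tendsto_const_nhds h3 (fun _ => zero_le) h1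
  refine ⟨E, ⟨MeasurableSet.iUnion fun N => MeasurableSet.iInter fun k => (hu _).meas, ?_,
    fun i h => ?_⟩, h2⟩
  · intro x hx
    obtain ⟨M, hM⟩ := Set.mem_iUnion.1 hx
    exact (hu _).sub (Set.mem_iInter.1 hM 0)
  · have h3 : Tendsto (fun n => volume (u n ∆ E) + (ENNReal.ofReal (P * |h|) + volume (u n ∆ E)))
        atTop (𝓝 (0 + (ENNReal.ofReal (P * |h|) + 0))) :=
      h2.add (tendsto_const_nhds.add h2)
    rw [zero_add, add_zero] at h3
    refine ge_of_tendsto' h3 fun n => ?_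
    refine (measure_symmDiff_le _ (u n) _).trans (add_le_add (by rw [symmDiff_comm]) ?_)
    refine (measure_symmDiff_le _ (EuclideanSpace.single i h +ᵥ u n) _).trans
      (add_le_add ((hu n).trans i h) ?_)
    rw [← Set.vadd_set_symmDiff, measure_vadd]

theorem Compact_complete (P : ℝ) :
    IsComplete {s : MeasuredSets (volume : Measure E3) | InK P (s : Set E3)} := by
  rw [← completeSpace_coe_iff_isComplete]
  refine EMetric.complete_of_convergent_controlled_sequences (fun n => 2⁻¹ ^ n)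
    (fun n => ENNReal.pow_pos (by simp) n) fun u hu => ?_
  obtain ⟨E, hE, hlim⟩ := Compact_lim (fun n => ((u n).1 : Set E3)) (fun n => (u n).2)
    fun n => (hu n n (n + 1) le_rfl (Nat.le_succ n)).le
  refine ⟨⟨⟨E, hE.meas⟩, hE⟩, ?_⟩
  exact tendsto_iff_edist_tendsto_0.2 hlim

theorem finite_cover {P : ℝ} (hP : 0 ≤ P) (η : Set E3 → ℝ) (hη : ∀ E, InK P E → 0 < η E) :
    ∃ 𝓕 : Finset (Set E3), (∀ E ∈ 𝓕, InK P E) ∧
      ∀ E', InK P E' → ∃ E ∈ 𝓕, volume (E' ∆ E) < ENNReal.ofReal (η E) := by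
  have hc : IsCompact {s : MeasuredSets (volume : Measure E3) | InK P (s : Set E3)} :=
    isCompact_iff_totallyBounded_isComplete.2 ⟨Compact_tb hP, Compact_complete P⟩
  obtain ⟨t, ht1, ht2⟩ := hc.elim_nhds_subcover
    (fun s => Metric.eball s (ENNReal.ofReal (η s)))
    fun s hs => Metric.eball_mem_nhds s (ENNReal.ofReal_pos.2 (hη _ hs))
  refine ⟨t.image fun s : MeasuredSets (volume : Measure E3) => s.1, fun E hE => ?_, fun E' hE' => ?_⟩
  · obtain ⟨s, hs, rfl⟩ := Finset.mem_image.1 hE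
    exact ht1 s hs
  · obtain ⟨s, hs, h⟩ := Set.mem_iUnion₂.1 (ht2 (a := ⟨E', hE'.meas⟩) hE')
    exact ⟨s.1, Finset.mem_image_of_mem _ hs, h⟩

end Pool.Agent.Work.MP_b59478_pr
end
end

-- merged part: Pool.Agent.Work.MP_b59478_pr.DG1
section
/-! Calculus of test fields.
int_dv_le: for each i, the integral over E of (Psi i (x + h e_i) - Psi i x) is the integral over
h e_i + E minus the integral over E, at most a * P * |h|; divide by h and let h tend to 0.
exists_line: F x = integral over t in [0, 1] of f (x - t v); differentiate under the integral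
(hasFDerivAt_integral_of_dominated_of_fderiv_le), the derivative is continuous; along v use the
fundamental theorem of calculus.
approx_ind: inner and outer regularity give a compact K inside S and an open U between S and O
with vol (U minus K) <= eta; take a smooth function equal to 1 on K with support in U
(exists_contDiff_tsupport_subset or exists_smooth_zero_one_of_isClosed type lemmas).
-/

set_option autoImplicit false

noncomputable section

namespace Pool.Agent.Work.MP_b59478_pr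

open Classical Filter Topology MeasureTheory
open scoped symmDiff Pointwise

theorem Fld.add {φ ψ : E3 → E3} (h : Fld φ) (h' : Fld ψ) : Fld (fun x => φ x + ψ x) :=
  ⟨h.cd.add h'.cd, h.cs.add h'.cs⟩

theorem Fld.sub {φ ψ : E3 → E3} (h : Fld φ) (h' : Fld ψ) : Fld (fun x => φ x - ψ x) :=
  ⟨h.cd.sub h'.cd, h.cs.sub h'.cs⟩

theorem Fld.const_smul {φ : E3 → E3} (h : Fld φ) (a : ℝ) : Fld (fun x => a • φ x) :=
  ⟨h.cd.const_smul a, h.cs.smul_left (f := fun _ => a)⟩

theorem Fld.sum {ι : Type} (t : Finset ι) {φ : ι → E3 → E3} (h : ∀ j ∈ t, Fld (φ j)) :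
    Fld (fun x => ∑ j ∈ t, φ j x) := by
  induction t using Finset.induction_on with
  | empty =>
    simp only [Finset.sum_empty]
    exact ⟨contDiff_const, HasCompactSupport.zero⟩
  | insert a t ha ih =>
    simp only [Finset.sum_insert ha]
    exact (h a (Finset.mem_insert_self _ _)).add
      (ih fun j hj => h j (Finset.mem_insert_of_mem hj))

theorem Fld.smul {φ : E3 → E3} (h : Fld φ) {χ : E3 → ℝ} (hχ : ContDiff ℝ 1 χ) :
    Fld (fun x => χ x • φ x) :=
  ⟨hχ.smul h.cd, h.cs.smul_left (f := χ)⟩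

theorem fld_smul_const {χ : E3 → ℝ} (hχ : ContDiff ℝ 1 χ) (hc : HasCompactSupport χ) (p : E3) :
    Fld (fun x => χ x • p) :=
  ⟨hχ.smul contDiff_const, hc.smul_right (f' := fun _ => p)⟩

theorem DG1_diff {φ : E3 → E3} (h : Fld φ) (x : E3) : DifferentiableAt ℝ φ x :=
  (h.cd.differentiable one_ne_zero) x

theorem DG1_term_cont {φ : E3 → E3} (h : Fld φ) (i : Fin 3) :
    Continuous fun x => fderiv ℝ φ x (EuclideanSpace.single i 1) i := by
  have h1 : Continuous fun x => fderiv ℝ φ x (EuclideanSpace.single i 1) :=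
    (h.cd.continuous_fderiv one_ne_zero).clm_apply continuous_const
  exact (EuclideanSpace.proj i : E3 →L[ℝ] ℝ).continuous.comp h1

theorem DG1_term_cs {φ : E3 → E3} (h : Fld φ) (i : Fin 3) :
    HasCompactSupport fun x => fderiv ℝ φ x (EuclideanSpace.single i 1) i := by
  have h1 : HasCompactSupport fun x => fderiv ℝ φ x (EuclideanSpace.single i 1) :=
    h.cs.fderiv_apply (𝕜 := ℝ) _
  exact h1.comp_left (g := fun v : E3 => v i) rfl

theorem DG1_term_int {φ : E3 → E3} (h : Fld φ) (i : Fin 3) :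
    Integrable fun x => fderiv ℝ φ x (EuclideanSpace.single i 1) i :=
  (DG1_term_cont h i).integrable_of_hasCompactSupport (DG1_term_cs h i)

theorem Fld.integrable {φ : E3 → E3} (h : Fld φ) : Integrable (dv φ) :=
  integrable_finsetSum _ fun i _ => DG1_term_int h i

theorem dv_add {φ ψ : E3 → E3} (h : Fld φ) (h' : Fld ψ) (x : E3) :
    dv (fun x => φ x + ψ x) x = dv φ x + dv ψ x := by
  unfold dv
  rw [fderiv_fun_add (DG1_diff h x) (DG1_diff h' x), ← Finset.sum_add_distrib]
  simp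

theorem dv_sub {φ ψ : E3 → E3} (h : Fld φ) (h' : Fld ψ) (x : E3) :
    dv (fun x => φ x - ψ x) x = dv φ x - dv ψ x := by
  unfold dv
  rw [fderiv_fun_sub (DG1_diff h x) (DG1_diff h' x), ← Finset.sum_sub_distrib]
  simp

theorem dv_const_smul {φ : E3 → E3} (h : Fld φ) (a : ℝ) (x : E3) :
    dv (fun x => a • φ x) x = a * dv φ x := by
  unfold dv
  rw [fderiv_fun_const_smul (DG1_diff h x), Finset.mul_sum]
  simp

theorem dv_sum {ι : Type} (t : Finset ι) {φ : ι → E3 → E3} (h : ∀ j ∈ t, Fld (φ j)) (x : E3) :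
    dv (fun x => ∑ j ∈ t, φ j x) x = ∑ j ∈ t, dv (φ j) x := by
  induction t using Finset.induction_on with
  | empty => simp [dv]
  | insert a t ha ih =>
    simp only [Finset.sum_insert ha]
    rw [dv_add (h a (Finset.mem_insert_self _ _))
      (Fld.sum t fun j hj => h j (Finset.mem_insert_of_mem hj)),
      ih fun j hj => h j (Finset.mem_insert_of_mem hj)]

theorem dv_smul_const {χ : E3 → ℝ} (hχ : ContDiff ℝ 1 χ) (p x : E3) :
    dv (fun x => χ x • p) x = fderiv ℝ χ x p := by
  unfold dv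
  rw [fderiv_smul_const ((hχ.differentiable one_ne_zero) x)]
  have hp : p = ∑ i, p i • (EuclideanSpace.single i (1 : ℝ) : E3) := by
    ext j
    simp [Finset.sum_apply, Pi.single_apply]
  conv_rhs => rw [hp, map_sum]
  simp [mul_comm]

theorem integral_fderiv_zero {χ : E3 → ℝ} (hχ : ContDiff ℝ 1 χ) (hc : HasCompactSupport χ)
    (p : E3) : ∫ x, fderiv ℝ χ x p = 0 := by
  have h1 : Integrable fun x => fderiv ℝ χ x p :=
    ((hχ.continuous_fderiv one_ne_zero).clm_apply continuous_const).integrable_of_hasCompactSupport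
      (hc.fderiv_apply (𝕜 := ℝ) p)
  have h2 : Integrable χ := hχ.continuous.integrable_of_hasCompactSupport hc
  have := integral_mul_fderiv_eq_neg_fderiv_mul_of_integrable (μ := (volume : Measure E3))
    (f := fun _ : E3 => (1 : ℝ)) (g := χ) (v := p) (by simp) (by simpa using h1)
    (by simpa using h2) (fun x _ => differentiableAt_const _)
    (fun x _ => (hχ.differentiable one_ne_zero) x)
  simpa using this

theorem DG1_setint {S T : Set E3} (hS : MeasurableSet S) (hT : MeasurableSet T) {g : E3 → ℝ}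
    (hg : Integrable g) {a : ℝ} (ha : ∀ x, |g x| ≤ a) (hfin : volume (S ∆ T) ≠ ⊤) :
    |(∫ x in S, g x) - ∫ x in T, g x| ≤ a * volume.real (S ∆ T) := by
  rw [← integral_indicator hS, ← integral_indicator hT,
    ← integral_sub (hg.indicator hS) (hg.indicator hT)]
  have hm : MeasurableSet (S ∆ T) := hS.symmDiff hT
  have hi : Integrable ((S ∆ T).indicator fun _ => a) :=
    (integrable_indicator_iff hm).2 (integrableOn_const hfin)
  have h1 := norm_integral_le_of_norm_le (μ := (volume : Measure E3))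
    (f := fun x => S.indicator g x - T.indicator g x) hi (Eventually.of_forall fun x => ?_)
  · rw [integral_indicator hm, setIntegral_const, smul_eq_mul, mul_comm] at h1
    exact h1
  · have h0 : 0 ≤ a := (abs_nonneg _).trans (ha x)
    by_cases hxS : x ∈ S <;> by_cases hxT : x ∈ T <;>
      simp [Set.indicator, hxS, hxT, Set.mem_symmDiff, ha x]

theorem DG1_dir {P a : ℝ} (hP : 0 ≤ P) {E : Set E3} (h : InK P E) {g : E3 → ℝ}
    (hg : ContDiff ℝ 1 g) (hc : HasCompactSupport g) (ha : ∀ x, |g x| ≤ a) (i : Fin 3) :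
    ∫ x in E, fderiv ℝ g x (EuclideanSpace.single i 1) ≤ P * a := by
  set e : E3 := EuclideanSpace.single i 1 with he
  have h0 : 0 ≤ a := (abs_nonneg _).trans (ha 0)
  have hgi : Integrable g := hg.continuous.integrable_of_hasCompactSupport hc
  have hdc : Continuous fun x => fderiv ℝ g x e :=
    (hg.continuous_fderiv one_ne_zero).clm_apply continuous_const
  obtain ⟨C, hC⟩ := hdc.bounded_above_of_compact_support (hc.fderiv_apply (𝕜 := ℝ) e)
  have : IsFiniteMeasure (volume.restrict E) := ⟨by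
    rw [Measure.restrict_apply_univ]; exact h.finite.lt_top⟩
  have key := hasDerivAt_integral_of_dominated_loc_of_deriv_le (μ := volume.restrict E)
    (F := fun (t : ℝ) (x : E3) => g (x + t • e)) (x₀ := (0 : ℝ)) (s := Set.univ)
    (F' := fun (t : ℝ) (x : E3) => fderiv ℝ g (x + t • e) e) (bound := fun _ => C) univ_mem
    (Eventually.of_forall fun t =>
      (hg.continuous.comp (continuous_id.add continuous_const)).aestronglyMeasurable)
    (by simp only [zero_smul, add_zero]; exact hgi.integrableOn)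
    (hdc.comp (continuous_id.add continuous_const)).aestronglyMeasurable
    (Eventually.of_forall fun x t _ => hC _) (integrable_const C)
    (Eventually.of_forall fun x t _ => by
      have h1 : HasDerivAt (fun t : ℝ => x + t • e) e t := by
        simpa using ((hasDerivAt_id t).smul_const e).const_add x
      exact ((hg.differentiable one_ne_zero) _).hasFDerivAt.comp_hasDerivAt t h1)
  have hl := key.2.le_of_lip' (C := P * a) (mul_nonneg hP h0) (Eventually.of_forall fun t => ?_)
  · simp only [zero_smul, add_zero] at hl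
    exact (le_abs_self _).trans hl
  · simp only [zero_smul, add_zero, sub_zero, Real.norm_eq_abs]
    have hte : t • e = EuclideanSpace.single i t := by
      ext j
      simp [he]
    have hshift : ∫ x in E, g (x + t • e) = ∫ x in (t • e) +ᵥ E, g x := by
      have hmp := measurePreserving_add_left (volume : Measure E3) (t • e)
      have := hmp.setIntegral_image_emb (measurableEmbedding_addLeft (t • e)) g E
      rw [show (t • e) +ᵥ E = (fun x => t • e + x) '' E from rfl, this]
      simp only [add_comm]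
    have hle := h.trans i t
    rw [← hte] at hle
    have hfin : volume (((t • e) +ᵥ E) ∆ E) ≠ ⊤ := by
      rw [symmDiff_comm]
      exact ne_top_of_le_ne_top ENNReal.ofReal_ne_top hle
    rw [hshift]
    refine (DG1_setint (h.meas.const_vadd _) h.meas hgi ha hfin).trans ?_
    have : volume.real (((t • e) +ᵥ E) ∆ E) ≤ P * |t| := by
      rw [symmDiff_comm]
      exact ENNReal.toReal_le_of_le_ofReal (mul_nonneg hP (abs_nonneg _)) hle
    calc a * volume.real (((t • e) +ᵥ E) ∆ E) ≤ a * (P * |t|) :=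
          mul_le_mul_of_nonneg_left this h0
      _ = P * a * |t| := by ring

theorem int_dv_le {P a : ℝ} (hP : 0 ≤ P) {E : Set E3} (h : InK P E) {Ψ : E3 → E3} (hΨ : Fld Ψ)
    (ha : ∀ x, ‖Ψ x‖ ≤ a) : ∫ x in E, dv Ψ x ≤ 3 * P * a := by
  unfold dv
  rw [integral_finsetSum _ fun i _ => (DG1_term_int hΨ i).integrableOn]
  have h1 : ∀ i : Fin 3,
      ∫ x in E, fderiv ℝ Ψ x (EuclideanSpace.single i 1) i ≤ P * a := fun i => by
    have hg : ContDiff ℝ 1 fun x => Ψ x i :=
      (EuclideanSpace.proj i : E3 →L[ℝ] ℝ).contDiff.comp hΨ.cd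
    have hc : HasCompactSupport fun x => Ψ x i := hΨ.cs.comp_left (g := fun v : E3 => v i) rfl
    have := DG1_dir hP h hg hc (fun x => (abs_coord_le _ i).trans (ha x)) i
    refine le_of_eq_of_le ?_ this
    congr 1
    funext x
    have h2 := ((EuclideanSpace.proj i : E3 →L[ℝ] ℝ).hasFDerivAt.comp x
      (DG1_diff hΨ x).hasFDerivAt).fderiv
    have h3 : (fun x => Ψ x i) = (EuclideanSpace.proj i : E3 →L[ℝ] ℝ) ∘ Ψ := rfl
    rw [h3, h2]
    rfl
  calc ∑ i : Fin 3, ∫ x in E, fderiv ℝ Ψ x (EuclideanSpace.single i 1) i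
      ≤ ∑ _i : Fin 3, P * a := Finset.sum_le_sum fun i _ => h1 i
    _ = 3 * P * a := by simp; ring

theorem exists_line {f : E3 → ℝ} (hf : ContDiff ℝ 1 f) (hc : HasCompactSupport f)
    (h01 : ∀ x, 0 ≤ f x ∧ f x ≤ 1) (u : E3) : ∃ F : E3 → ℝ, ContDiff ℝ 1 F ∧
    HasCompactSupport F ∧ (∀ x, fderiv ℝ F x u = f x - f (x - u)) ∧ (∀ x, 0 ≤ F x ∧ F x ≤ 1) ∧
    ∀ x, F x ≠ 0 → ∃ t ∈ Set.Icc (0 : ℝ) 1, f (x - t • u) ≠ 0 := by
  have hdc : Continuous (fderiv ℝ f) := hf.continuous_fderiv one_ne_zero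
  obtain ⟨C, hC⟩ := hdc.bounded_above_of_compact_support (hc.fderiv (𝕜 := ℝ))
  have hl : ∀ x : E3, Continuous fun t : ℝ => x - t • u := fun x =>
    continuous_const.sub (continuous_id.smul continuous_const)
  have hd : ∀ x : E3, HasFDerivAt (fun x => ∫ t in (0 : ℝ)..1, f (x - t • u))
      (∫ t in (0 : ℝ)..1, fderiv ℝ f (x - t • u)) x := fun x =>
    intervalIntegral.hasFDerivAt_integral_of_dominated_of_fderiv_le (𝕜 := ℝ) (μ := volume)
      (F := fun (x : E3) (t : ℝ) => f (x - t • u))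
      (F' := fun (x : E3) (t : ℝ) => fderiv ℝ f (x - t • u)) (s := Set.univ)
      (bound := fun _ => C) univ_mem
      (Eventually.of_forall fun y => (hf.continuous.comp (hl y)).aestronglyMeasurable)
      ((hf.continuous.comp (hl x)).intervalIntegrable _ _)
      (hdc.comp (hl x)).aestronglyMeasurable
      (Eventually.of_forall fun t _ y _ => hC _) intervalIntegrable_const
      (Eventually.of_forall fun t _ y _ => by
        have h1 : HasFDerivAt (fun y : E3 => y - t • u) (ContinuousLinearMap.id ℝ E3) y :=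
          (hasFDerivAt_id y).sub_const _
        have h2 := ((hf.differentiable one_ne_zero) _).hasFDerivAt.comp y h1
        rw [ContinuousLinearMap.comp_id] at h2
        exact h2)
  have hne : ∀ x, (∫ t in (0 : ℝ)..1, f (x - t • u)) ≠ 0 →
      ∃ t ∈ Set.Icc (0 : ℝ) 1, f (x - t • u) ≠ 0 := fun x hx => by
    by_contra hcon
    push Not at hcon
    apply hx
    rw [intervalIntegral.integral_congr (g := fun _ => (0 : ℝ))]
    · simp
    · intro t ht
      rw [Set.uIcc_of_le zero_le_one] at ht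
      exact hcon t ht
  refine ⟨fun x => ∫ t in (0 : ℝ)..1, f (x - t • u), ?_, ?_, fun x => ?_, fun x => ⟨?_, ?_⟩, hne⟩
  · refine contDiff_one_iff_hasFDerivAt.2 ⟨_, ?_, hd⟩
    refine intervalIntegral.continuous_parametric_intervalIntegral_of_continuous' ?_ 0 1
    exact hdc.comp (continuous_fst.sub (continuous_snd.smul continuous_const))
  · have hK : IsCompact ((fun q : E3 × ℝ => q.1 + q.2 • u) '' (tsupport f ×ˢ Set.Icc 0 1)) :=
      (hc.isCompact.prod isCompact_Icc).image
        (continuous_fst.add (continuous_snd.smul continuous_const))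
    refine HasCompactSupport.intro hK fun x hx => ?_
    by_contra hx0
    obtain ⟨t, ht, hft⟩ := hne x hx0
    exact hx ⟨(x - t • u, t), ⟨subset_tsupport _ hft, ht⟩, by simp⟩
  · have hii : IntervalIntegrable (fun t : ℝ => fderiv ℝ f (x - t • u)) volume 0 1 :=
      (hdc.comp (hl x)).intervalIntegrable _ _
    rw [(hd x).fderiv, ContinuousLinearMap.intervalIntegral_apply hii]
    have h1 : ∀ t ∈ Set.uIcc (0 : ℝ) 1, HasDerivAt (fun t : ℝ => -f (x - t • u))
        (fderiv ℝ f (x - t • u) u) t := fun t _ => by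
      have h2 : HasDerivAt (fun t : ℝ => x - t • u) (-u) t := by
        simpa using ((hasDerivAt_id t).smul_const u).const_sub x
      have h3 := (((hf.differentiable one_ne_zero) _).hasFDerivAt.comp_hasDerivAt t h2).neg
      rw [map_neg, neg_neg] at h3
      exact h3
    have h4 := intervalIntegral.integral_eq_sub_of_hasDerivAt h1
      (((hdc.comp (hl x)).clm_apply continuous_const).intervalIntegrable _ _)
    refine h4.trans ?_
    simp only [one_smul, zero_smul, sub_zero]
    ring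
  · exact intervalIntegral.integral_nonneg zero_le_one fun t _ => (h01 _).1
  · have := intervalIntegral.integral_mono_on (μ := volume) (a := (0 : ℝ)) (b := 1)
      (f := fun t => f (x - t • u)) (g := fun _ => (1 : ℝ)) zero_le_one
      ((hf.continuous.comp (hl x)).intervalIntegrable _ _) intervalIntegrable_const
      fun t _ => (h01 _).2
    simpa using this

theorem approx_ind {S O : Set E3} (hS : MeasurableSet S) (hO : IsOpen O) (hSO : S ⊆ O)
    (hfin : volume S ≠ ⊤) {η : ℝ} (hη : 0 < η) : ∃ f : E3 → ℝ, ContDiff ℝ 1 f ∧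
    HasCompactSupport f ∧ (∀ x, 0 ≤ f x ∧ f x ≤ 1) ∧ (∀ x, f x ≠ 0 → x ∈ O) ∧
    ∫ x, |f x - S.indicator 1 x| ≤ η := by
  have hε : ENNReal.ofReal (η / 2) ≠ 0 := by simpa using half_pos hη
  obtain ⟨K, hKS, hK, hK2⟩ := hS.exists_isCompact_sdiff_lt hfin hε
  obtain ⟨U, hSU, hU, -, hU2⟩ := hS.exists_isOpen_sdiff_lt hfin hε
  obtain ⟨L, hL, hKL, hLU⟩ := exists_compact_between hK (hU.inter hO)
    (hKS.trans (Set.subset_inter hSU hSO))
  obtain ⟨f, hf, hr, hsup, hone⟩ := exists_contMDiff_support_eq_eq_one_iff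
    (modelWithCornersSelf ℝ E3) (n := 1) isOpen_interior hK.isClosed hKL
  have h01 : ∀ x, 0 ≤ f x ∧ f x ≤ 1 := fun x => hr ⟨x, rfl⟩
  have hL0 : ∀ x, f x ≠ 0 → x ∈ L := fun x hx =>
    interior_subset (hsup ▸ Function.mem_support.2 hx)
  refine ⟨f, hf.contDiff, HasCompactSupport.intro hL fun x hx => ?_, h01,
    fun x hx => (hLU (hL0 x hx)).2, ?_⟩
  · by_contra h0
    exact hx (hL0 x h0)
  · have hm : MeasurableSet (S \ K ∪ U \ S) :=
      (hS.diff hK.measurableSet).union (hU.measurableSet.diff hS)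
    have hv : volume (S \ K ∪ U \ S) ≤ ENNReal.ofReal η := by
      refine (measure_union_le _ _).trans ((add_le_add hK2.le hU2.le).trans ?_)
      rw [← ENNReal.ofReal_add (half_pos hη).le (half_pos hη).le, add_halves]
    have hi : Integrable ((S \ K ∪ U \ S).indicator fun _ => (1 : ℝ)) :=
      (integrable_indicator_iff hm).2
        (integrableOn_const (ne_top_of_le_ne_top ENNReal.ofReal_ne_top hv))
    have h1 := integral_mono_of_nonneg (μ := (volume : Measure E3))
      (f := fun x => |f x - S.indicator 1 x|) (Eventually.of_forall fun x => abs_nonneg _) hi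
      (Eventually.of_forall fun x => ?_)
    · rw [integral_indicator hm, setIntegral_const, smul_eq_mul, mul_one] at h1
      exact h1.trans (ENNReal.toReal_le_of_le_ofReal hη.le hv)
    · have h2 := h01 x
      by_cases hxS : x ∈ S
      · by_cases hxK : x ∈ K
        · have : f x = 1 := (hone x).1 hxK
          simp only [Set.indicator_of_mem hxS, Pi.one_apply, this, sub_self, abs_zero]
          exact Set.indicator_nonneg (fun _ _ => zero_le_one) x
        · simp only [Set.indicator_of_mem hxS, Pi.one_apply]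
          rw [Set.indicator_of_mem (show x ∈ S \ K ∪ U \ S from Or.inl ⟨hxS, hxK⟩), abs_le]
          constructor <;> linarith [h2.1, h2.2]
      · simp only [Set.indicator_of_notMem hxS, sub_zero]
        by_cases hxU : x ∈ U
        · rw [Set.indicator_of_mem (show x ∈ S \ K ∪ U \ S from Or.inr ⟨hxU, hxS⟩), abs_le]
          constructor <;> linarith [h2.1, h2.2]
        · have : f x = 0 := by
            by_contra h0
            exact hxU (hLU (hL0 x h0)).1
          rw [this, abs_zero]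
          exact Set.indicator_nonneg (fun _ _ => zero_le_one) x

end Pool.Agent.Work.MP_b59478_pr
end
end

-- merged part: Pool.Agent.Work.MP_b59478_pr.DG4
section
/-! grid: with st = Real.smoothTransition let b t = st (t - 1) - st (t - (K - 2)); it is in [0, 1],
vanishes off (1, K - 1), has bounded derivative, and the sum over the integers l of b (t - l) is
K - 3. For l in Z ^ 3 let chi_l x be the product of b (x i / g - l i), centre z i = g (l i + K / 2).
For B large the sum of chi_l over l in [-B, B] ^ 3 is (K - 3) ^ 3 on the support of phi. Group the l by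
their class modulo K; the cubes of one class are disjoint; one of the K ^ 3 classes has at least the
average.
flux: k = axis n. For p orthogonal to n the half-space is invariant under translation by multiples
of p, so the integral of fderiv chi x p vanishes; so it is alpha * inner p n. For p = e_k, Fubini
along the lines in direction k gives alpha * |n k| = integral over y in the plane of the two other
coordinates of chi (y, h y), h y the height of the plane inner x n = t. This is at most the area of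
the set of y with (y, h y) in cubeO z rho, covered by the closed squares of the grid of side 2 l that
meet it; the centres are lifted to the plane; |h y - h y'| <= 2 l in a square.
-/

set_option autoImplicit false

noncomputable section

namespace Pool.Agent.Work.MP_b59478_pr

open Classical Filter Topology MeasureTheory
open scoped symmDiff Pointwise

theorem DG4_lip : ∃ C : ℝ, 0 < C ∧ ∀ s t : ℝ,
    |Real.smoothTransition s - Real.smoothTransition t| ≤ C * |s - t| := by
  have hcd : ContDiff ℝ 1 Real.smoothTransition := Real.smoothTransition.contDiff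
  have hc : Continuous (deriv Real.smoothTransition) := hcd.continuous_deriv le_rfl
  obtain ⟨C, hC⟩ := (isCompact_Icc (a := (0 : ℝ)) (b := 1)).exists_bound_of_continuousOn
    hc.continuousOn
  have hb : ∀ t, ‖deriv Real.smoothTransition t‖ ≤ |C| + 1 := by
    intro t
    have h0 : 0 ≤ |C| + 1 := by positivity
    by_cases h1 : t < 0
    · have e : Real.smoothTransition =ᶠ[𝓝 t] fun _ => 0 :=
        (eventually_lt_nhds h1).mono fun u hu => Real.smoothTransition.zero_of_nonpos hu.le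
      rw [e.deriv_eq]
      simpa using h0
    · by_cases h2 : 1 < t
      · have e : Real.smoothTransition =ᶠ[𝓝 t] fun _ => 1 :=
          (eventually_gt_nhds h2).mono fun u hu => Real.smoothTransition.one_of_one_le hu.le
        rw [e.deriv_eq]
        simpa using h0
      · linarith [hC t ⟨not_lt.1 h1, not_lt.1 h2⟩, le_abs_self C]
  refine ⟨|C| + 1, by positivity, fun s t => ?_⟩
  exact Convex.norm_image_sub_le_of_norm_deriv_le (s := Set.univ)
    (fun x _ => (hcd.differentiable one_ne_zero) x) (fun x _ => hb x) convex_univ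
    (Set.mem_univ t) (Set.mem_univ s)

/-- The one-dimensional plateau function. -/
def DG4_b (K : ℕ) (t : ℝ) : ℝ :=
  Real.smoothTransition (t - 1) - Real.smoothTransition (t - (K - 2))

theorem DG4_b_cd (K : ℕ) : ContDiff ℝ 1 (DG4_b K) :=
  (Real.smoothTransition.contDiff.comp (contDiff_id.sub contDiff_const)).sub
    (Real.smoothTransition.contDiff.comp (contDiff_id.sub contDiff_const))

theorem DG4_b_mem {K : ℕ} (hK : 4 ≤ K) (t : ℝ) : 0 ≤ DG4_b K t ∧ DG4_b K t ≤ 1 := by
  have hK' : (4 : ℝ) ≤ K := by exact_mod_cast hK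
  have h1 := Real.smoothTransition.monotone (show t - (K - 2) ≤ t - 1 by linarith)
  have h2 := Real.smoothTransition.nonneg (t - (K - 2))
  have h3 := Real.smoothTransition.le_one (t - 1)
  unfold DG4_b
  constructor <;> linarith

theorem DG4_b_supp {K : ℕ} (hK : 4 ≤ K) {t : ℝ} (h : DG4_b K t ≠ 0) : 1 < t ∧ t < K - 1 := by
  have hK' : (4 : ℝ) ≤ K := by exact_mod_cast hK
  unfold DG4_b at h
  constructor
  · by_contra h1
    rw [Real.smoothTransition.zero_of_nonpos (by linarith [not_lt.1 h1]),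
      Real.smoothTransition.zero_of_nonpos (by linarith [not_lt.1 h1])] at h
    exact h (sub_self _)
  · by_contra h1
    rw [Real.smoothTransition.one_of_one_le (by linarith [not_lt.1 h1]),
      Real.smoothTransition.one_of_one_le (by linarith [not_lt.1 h1])] at h
    exact h (sub_self _)

theorem DG4_blocks (f : ℕ → ℝ) (K M : ℕ) :
    ∑ q ∈ Finset.range M, ∑ r ∈ Finset.range K, f (K * q + r) =
      ∑ i ∈ Finset.range (K * M), f i := by
  induction M with
  | zero => simp
  | succ M ih => rw [Finset.sum_range_succ, ih, mul_add, mul_one, Finset.sum_range_add]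

theorem DG4_b_sum {K : ℕ} (hK : 4 ≤ K) (N : ℕ) {t : ℝ} (h1 : (K : ℝ) ≤ t) (h2 : t ≤ N) :
    ∑ i ∈ Finset.range N, DG4_b K (t - i) = (K : ℝ) - 3 := by
  obtain ⟨m, rfl⟩ : ∃ m, K = m + 3 := ⟨K - 3, by omega⟩
  set s : ℕ → ℝ := fun i => Real.smoothTransition (t - 1 - i) with hs
  have e : ∀ i : ℕ, DG4_b (m + 3) (t - i) = s i - s (m + i) := by
    intro i
    simp only [DG4_b, hs]
    congr 2
    · ring
    · push_cast
      ring
  have e1 := Finset.sum_range_add s N m
  have e2 := Finset.sum_range_add s m N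
  have e3 : ∑ i ∈ Finset.range m, s i = m := by
    rw [Finset.sum_congr rfl (g := fun _ => (1 : ℝ))]
    · simp
    · intro i hi
      have hi' : (i : ℝ) + 1 ≤ m := by exact_mod_cast Finset.mem_range.1 hi
      refine Real.smoothTransition.one_of_one_le ?_
      push_cast at h1
      linarith
  have e4 : ∑ i ∈ Finset.range m, s (N + i) = 0 := by
    refine Finset.sum_eq_zero fun i _ => Real.smoothTransition.zero_of_nonpos ?_
    have : (0 : ℝ) ≤ i := Nat.cast_nonneg i
    push_cast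
    linarith
  rw [add_comm m N] at e2
  simp only [e, Finset.sum_sub_distrib]
  push_cast
  linarith only [e1, e2, e3, e4]

/-- The plateau function of the cube with centre `z`. -/
def DG4_chi (K : ℕ) (g : ℝ) (z x : E3) : ℝ := ∏ a, DG4_b K ((x a - z a) / g + K / 2)

theorem DG4_chi_cd (K : ℕ) (g : ℝ) (z : E3) : ContDiff ℝ 1 (DG4_chi K g z) := by
  unfold DG4_chi
  refine contDiff_prod fun a _ => (DG4_b_cd K).comp ?_
  have h : ContDiff ℝ 1 fun x : E3 => x a := (EuclideanSpace.proj a : E3 →L[ℝ] ℝ).contDiff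
  exact ((h.sub contDiff_const).div_const g).add contDiff_const

theorem DG4_chi_mem {K : ℕ} (hK : 4 ≤ K) (g : ℝ) (z x : E3) :
    0 ≤ DG4_chi K g z x ∧ DG4_chi K g z x ≤ 1 :=
  ⟨Finset.prod_nonneg fun _ _ => (DG4_b_mem hK _).1,
    Finset.prod_le_one (fun _ _ => (DG4_b_mem hK _).1) fun _ _ => (DG4_b_mem hK _).2⟩

theorem DG4_chi_supp {K : ℕ} (hK : 4 ≤ K) {g : ℝ} (hg : 0 < g) {z x : E3}
    (h : DG4_chi K g z x ≠ 0) : x ∈ cubeO z (K * g / 2 - g) := by
  intro a
  obtain ⟨h1, h2⟩ := DG4_b_supp hK (Finset.prod_ne_zero_iff.1 h a (Finset.mem_univ a))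
  have e : x a - z a = (x a - z a) / g * g := by field_simp
  rw [e, abs_lt]
  constructor <;> nlinarith only [hg, h1, h2]

theorem DG4_chi_cs {K : ℕ} (hK : 4 ≤ K) {g : ℝ} (hg : 0 < g) (z : E3) :
    HasCompactSupport (DG4_chi K g z) := by
  refine HasCompactSupport.intro (isCompact_closedBall z (2 * (K * g / 2 - g))) fun x hx => ?_
  by_contra h
  refine hx ?_
  rw [Metric.mem_closedBall, dist_eq_norm]
  exact norm_le_of_coord fun a => (DG4_chi_supp hK hg h a).le

theorem DG4_chi_der {C : ℝ} (hC : 0 < C) (hl : ∀ s t : ℝ,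
    |Real.smoothTransition s - Real.smoothTransition t| ≤ C * |s - t|) {K : ℕ} (hK : 4 ≤ K)
    {g : ℝ} (hg : 0 < g) (z x : E3) : ‖fderiv ℝ (DG4_chi K g z) x‖ ≤ 6 * C / g := by
  refine norm_fderiv_le_of_lip' ℝ (by positivity) (Eventually.of_forall fun y => ?_)
  have hb : ∀ a, |DG4_b K ((y a - z a) / g + K / 2) - DG4_b K ((x a - z a) / g + K / 2)| ≤
      2 * C / g * ‖y - x‖ := by
    intro a
    have h1 := hl ((y a - z a) / g + K / 2 - 1) ((x a - z a) / g + K / 2 - 1)
    have h2 := hl ((y a - z a) / g + K / 2 - (K - 2)) ((x a - z a) / g + K / 2 - (K - 2))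
    have e1 : (y a - z a) / g + K / 2 - 1 - ((x a - z a) / g + K / 2 - 1) = (y - x) a / g := by
      simp only [PiLp.sub_apply]
      ring
    have e2 : (y a - z a) / g + K / 2 - (K - 2) - ((x a - z a) / g + K / 2 - (K - 2)) =
        (y - x) a / g := by
      simp only [PiLp.sub_apply]
      ring
    rw [e1] at h1
    rw [e2] at h2
    have h3 : C * |(y - x) a / g| ≤ C / g * ‖y - x‖ := by
      rw [abs_div, abs_of_pos hg, div_mul_eq_mul_div, mul_div_assoc]
      gcongr
      exact abs_coord_le _ _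
    have e3 : 2 * C / g * ‖y - x‖ = C / g * ‖y - x‖ + C / g * ‖y - x‖ := by ring
    unfold DG4_b
    rw [e3, abs_le]
    rw [abs_le] at h1 h2
    constructor <;> linarith only [h1, h2, h3, h1.1, h1.2, h2.1, h2.2]
  have key : ∀ a0 a1 a2 b0 b1 b2 D : ℝ, (0 ≤ a1 ∧ a1 ≤ 1) → (0 ≤ a2 ∧ a2 ≤ 1) →
      (0 ≤ b0 ∧ b0 ≤ 1) → (0 ≤ b1 ∧ b1 ≤ 1) → |a0 - b0| ≤ D → |a1 - b1| ≤ D → |a2 - b2| ≤ D →
      |a0 * a1 * a2 - b0 * b1 * b2| ≤ 3 * D := by
    intro a0 a1 a2 b0 b1 b2 D p1 p2 q0 q1 d0 d1 d2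
    have e : a0 * a1 * a2 - b0 * b1 * b2 =
        (a0 - b0) * (a1 * a2) + (a1 - b1) * (b0 * a2) + (a2 - b2) * (b0 * b1) := by ring
    have t : ∀ u c : ℝ, |u| ≤ D → 0 ≤ c → c ≤ 1 → |u * c| ≤ D := by
      intro u c hu h0 h1
      rw [abs_mul, abs_of_nonneg h0]
      exact (mul_le_of_le_one_right (abs_nonneg u) h1).trans hu
    have t0 := t _ _ d0 (mul_nonneg p1.1 p2.1) (mul_le_one₀ p1.2 p2.1 p2.2)
    have t1 := t _ _ d1 (mul_nonneg q0.1 p2.1) (mul_le_one₀ q0.2 p2.1 p2.2)
    have t2 := t _ _ d2 (mul_nonneg q0.1 q1.1) (mul_le_one₀ q0.2 q1.1 q1.2)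
    rw [e]
    linarith [abs_add_three ((a0 - b0) * (a1 * a2)) ((a1 - b1) * (b0 * a2)) ((a2 - b2) * (b0 * b1))]
  have h := key _ _ _ _ _ _ _ (DG4_b_mem hK _) (DG4_b_mem hK _) (DG4_b_mem hK _) (DG4_b_mem hK _)
    (hb 0) (hb 1) (hb 2)
  simp only [DG4_chi, Fin.prod_univ_three, Real.norm_eq_abs]
  refine h.trans_eq ?_
  ring

/-- The centre of the cube with class `r` and block `q`. -/
def DG4_z (K B : ℕ) (g : ℝ) (r q : Fin 3 → ℕ) : E3 :=
  WithLp.toLp 2 fun a => g * (((K * q a + r a : ℕ) : ℝ) - B + K / 2)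

theorem DG4_chi_sum {K : ℕ} (hK : 4 ≤ K) {g : ℝ} (hg : 0 < g) (B : ℕ) {x : E3}
    (hx : ∀ a, |x a| / g + K ≤ B) :
    ∑ r ∈ Fintype.piFinset fun _ : Fin 3 => Finset.range K,
      ∑ q ∈ Fintype.piFinset fun _ : Fin 3 => Finset.range (2 * B),
        DG4_chi K g (DG4_z K B g r q) x = ((K : ℝ) - 3) ^ 3 := by
  have hK' : (4 : ℝ) ≤ K := by exact_mod_cast hK
  have e : ∀ r q : Fin 3 → ℕ, DG4_chi K g (DG4_z K B g r q) x =
      ∏ a, DG4_b K (x a / g + B - ((K * q a + r a : ℕ) : ℝ)) := by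
    intro r q
    refine Finset.prod_congr rfl fun a _ => ?_
    congr 1
    simp only [DG4_z]
    field_simp
    ring
  have e1 : ∀ a : Fin 3, ∑ r ∈ Finset.range K, ∑ q ∈ Finset.range (2 * B),
      DG4_b K (x a / g + B - ((K * q + r : ℕ) : ℝ)) = (K : ℝ) - 3 := by
    intro a
    rw [Finset.sum_comm, DG4_blocks (fun i => DG4_b K (x a / g + B - (i : ℝ))) K (2 * B)]
    have h1 : -(|x a| / g) ≤ x a / g := by
      rw [← neg_div]
      exact div_le_div_of_nonneg_right (neg_abs_le _) hg.le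
    have h2 : x a / g ≤ |x a| / g := div_le_div_of_nonneg_right (le_abs_self _) hg.le
    have h3 := hx a
    have h4 : (0 : ℝ) ≤ B := Nat.cast_nonneg B
    refine DG4_b_sum hK _ (by linarith only [h1, h3]) ?_
    push_cast
    nlinarith only [hK', h2, h3, h1]
  simp only [e]
  rw [Finset.sum_congr rfl fun r _ => (Finset.prod_univ_sum (fun _ : Fin 3 => Finset.range (2 * B))
    fun a q => DG4_b K (x a / g + B - ((K * q + r a : ℕ) : ℝ))).symm,
    ← Finset.prod_univ_sum (fun _ : Fin 3 => Finset.range K) fun a r =>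
      ∑ q ∈ Finset.range (2 * B), DG4_b K (x a / g + B - ((K * q + r : ℕ) : ℝ))]
  simp only [e1]
  simp

theorem DG4_disj {K : ℕ} (B : ℕ) {g : ℝ} (hg : 0 < g) (r : Fin 3 → ℕ) {q q' : Fin 3 → ℕ}
    (h : q ≠ q') :
    Disjoint (cubeO (DG4_z K B g r q) (K * g / 2)) (cubeO (DG4_z K B g r q') (K * g / 2)) := by
  obtain ⟨a, ha⟩ := Function.ne_iff.1 h
  refine Set.disjoint_left.2 fun x h1 h2 => ?_
  have h3 := abs_lt.1 (h1 a)
  have h4 := abs_lt.1 (h2 a)
  simp only [DG4_z] at h3 h4
  push_cast at h3 h4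
  have hK : (0 : ℝ) ≤ K * g := by positivity
  rcases lt_or_gt_of_ne ha with h5 | h5
  · have h6 : (q a : ℝ) + 1 ≤ q' a := by exact_mod_cast h5
    nlinarith only [h3, h4, h6, hK, mul_le_mul_of_nonneg_left h6 hK]
  · have h6 : (q' a : ℝ) + 1 ≤ q a := by exact_mod_cast h5
    nlinarith only [h3, h4, h6, hK, mul_le_mul_of_nonneg_left h6 hK]

theorem grid : ∃ Cg : ℝ, 0 < Cg ∧ ∀ (K : ℕ) (E : Set E3) (φ : E3 → E3) (g : ℝ), 4 ≤ K →
    MeasurableSet E → Fld φ → 0 < g → ∃ (t : Finset E3) (χ : E3 → E3 → ℝ),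
    (∀ i ∈ t, ∀ j ∈ t, i ≠ j → Disjoint (cubeO i (K * g / 2)) (cubeO j (K * g / 2))) ∧
    (∀ z, ContDiff ℝ 1 (χ z) ∧ HasCompactSupport (χ z) ∧ (∀ x, 0 ≤ χ z x ∧ χ z x ≤ 1) ∧
      (∀ x, χ z x ≠ 0 → x ∈ cubeO z (K * g / 2 - g)) ∧ ∀ x, ‖fderiv ℝ (χ z) x‖ ≤ Cg / g) ∧
    (((K : ℝ) - 3) / K) ^ 3 * ∫ x in E, dv φ x ≤
      ∑ z ∈ t, ∫ x in E, dv (fun x => χ z x • φ x) x := by
  obtain ⟨C, hC, hl⟩ := DG4_lip
  refine ⟨6 * C, by positivity, fun K E φ g hK _ hφ hg => ?_⟩
  have hK' : (4 : ℝ) ≤ K := by exact_mod_cast hK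
  obtain ⟨R, hR⟩ := hφ.cs.isCompact.isBounded.exists_norm_le
  obtain ⟨B, hB⟩ := exists_nat_ge (R / g + K)
  set sR := Fintype.piFinset fun _ : Fin 3 => Finset.range K with hsR
  set sQ := Fintype.piFinset fun _ : Fin 3 => Finset.range (2 * B) with hsQ
  have hfl : ∀ r q, Fld fun x => DG4_chi K g (DG4_z K B g r q) x • φ x :=
    fun r q => hφ.smul (DG4_chi_cd K g _)
  have hfr : ∀ r, Fld fun x => ∑ q ∈ sQ, DG4_chi K g (DG4_z K B g r q) x • φ x :=
    fun r => Fld.sum sQ fun q _ => hfl r q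
  have e : (fun x => ∑ r ∈ sR, ∑ q ∈ sQ, DG4_chi K g (DG4_z K B g r q) x • φ x) =
      fun x => ((K : ℝ) - 3) ^ 3 • φ x := by
    funext x
    by_cases hx : φ x = 0
    · simp [hx]
    · simp only [← Finset.sum_smul]
      rw [DG4_chi_sum hK hg B fun a => ?_]
      have h1 : |x a| ≤ R := (abs_coord_le x a).trans (hR x (subset_tsupport _ hx))
      linarith only [hB, h1, hg, div_le_div_of_nonneg_right h1 hg.le]
  have e1 : ∑ r ∈ sR, ∑ q ∈ sQ, ∫ x in E, dv (fun x => DG4_chi K g (DG4_z K B g r q) x • φ x) x =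
      ((K : ℝ) - 3) ^ 3 * ∫ x in E, dv φ x := by
    rw [← integral_const_mul]
    simp only [← dv_const_smul hφ]
    rw [← e]
    simp only [dv_sum sR fun r _ => hfr r, dv_sum sQ fun q _ => hfl _ q]
    rw [integral_finsetSum sR fun r _ =>
      (integrable_finsetSum sQ fun q _ => (hfl r q).integrable).integrableOn]
    exact Finset.sum_congr rfl fun r _ =>
      (integral_finsetSum sQ fun q _ => (hfl r q).integrable.integrableOn).symm
  have hne : sR.Nonempty :=
    Fintype.piFinset_nonempty.2 fun _ => ⟨0, Finset.mem_range.2 (by omega)⟩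
  have hcard : (sR.card : ℝ) = (K : ℝ) ^ 3 := by simp [hsR]
  obtain ⟨r, -, hr⟩ := Finset.exists_le_of_sum_le
    (f := fun _ => (((K : ℝ) - 3) / K) ^ 3 * ∫ x in E, dv φ x)
    (g := fun r => ∑ q ∈ sQ, ∫ x in E, dv (fun x => DG4_chi K g (DG4_z K B g r q) x • φ x) x)
    hne (by
      rw [e1, Finset.sum_const, nsmul_eq_mul, hcard]
      refine le_of_eq ?_
      field_simp)
  have hinj : Function.Injective (DG4_z K B g r) := by
    intro q q' hq
    by_contra h
    have h1 := DG4_disj (K := K) B hg r h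
    rw [hq, disjoint_self] at h1
    have h2 : DG4_z K B g r q' ∈ cubeO (DG4_z K B g r q') (K * g / 2) := fun a => by
      rw [sub_self, abs_zero]
      positivity
    rw [h1] at h2
    exact h2
  refine ⟨sQ.image (DG4_z K B g r), DG4_chi K g, ?_, fun z => ⟨DG4_chi_cd K g z,
    DG4_chi_cs hK hg z, DG4_chi_mem hK g z, fun x hx => DG4_chi_supp hK hg hx,
    DG4_chi_der hC hl hK hg z⟩, ?_⟩
  · intro i hi j hj hij
    obtain ⟨q, -, rfl⟩ := Finset.mem_image.1 hi
    obtain ⟨q', -, rfl⟩ := Finset.mem_image.1 hj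
    exact DG4_disj B hg r fun h => hij (by rw [h])
  · rw [Finset.sum_image fun q _ q' _ h => hinj h]
    exact hr

end Pool.Agent.Work.MP_b59478_pr
end
end

-- merged part: Pool.Agent.Work.MP_b59478_pr.W3b
section
/-! Smoothing.
mollify: f = rho * 1_E with rho a normed ContDiffBump of radius eps <= 1 (convolution); the L1
distance to 1_E tends to 0 (dominated convergence with
ContDiffBump.ae_convolution_tendsto_right_of_locallyIntegrable). Take a finite net of W and a
measurable function wx with values in the net (0 off boxE 3) maximising - fderiv f x; put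
H x = - fderiv f x (wx x) + eps' * norm (fderiv f x). The field phi y = integral of rho (x - y) wx x
is smooth with compact support and has values in W (Convex.integral_mem, W closed, 0 in W), and by
Fubini the integral of - fderiv f x (wx x) equals the integral over E of dv phi.
minkowski: by uniform continuity of fderiv f, for small t and w in W,
f (x - t w) <= f x + t H x + t eps 1_box x =: G x, and G >= 0 (w = 0); so (s < f) + t W is inside
(s < G), and the layer-cake formula gives the bound by the integral of G. The integrand is antitone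
in s, hence measurable.
-/

set_option autoImplicit false

noncomputable section

namespace Pool.Agent.Work.MP_b59478_pr

open Classical Filter Topology MeasureTheory
open scoped symmDiff Pointwise

theorem W3b_layer {G : E3 → ℝ} (hG : Integrable G) (h0 : ∀ x, 0 ≤ G x) {A : ℝ → Set E3}
    (hA : ∀ s, A s ⊆ {x | s < G x}) :
    ∫ s in Set.Ioo (0 : ℝ) 1, volume.real (A s) ≤ ∫ x, G x := by
  have hn : 0 ≤ᵐ[volume] G := Eventually.of_forall h0
  have hm : Measurable fun s : ℝ => volume {x | s < G x} :=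
    Antitone.measurable fun s s' h => measure_mono fun x hx => lt_of_le_of_lt h hx
  have hi : IntegrableOn (fun s : ℝ => volume.real {x | s < G x}) (Set.Ioi 0) := by
    refine integrable_toReal_of_lintegral_ne_top hm.aemeasurable ?_
    rw [← lintegral_eq_lintegral_meas_lt volume hn hG.aemeasurable]
    exact hG.lintegral_lt_top.ne
  rw [hG.integral_eq_integral_meas_lt hn]
  calc ∫ s in Set.Ioo (0 : ℝ) 1, volume.real (A s)
      ≤ ∫ s in Set.Ioo (0 : ℝ) 1, volume.real {x | s < G x} := by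
        refine integral_mono_of_nonneg (Eventually.of_forall fun s => measureReal_nonneg)
          (hi.mono_set Set.Ioo_subset_Ioi_self) ?_
        filter_upwards [ae_restrict_mem measurableSet_Ioo] with s hs
        exact measureReal_mono (hA s) (hG.measure_gt_lt_top hs.1).ne
    _ ≤ _ := setIntegral_mono_set hi (Eventually.of_forall fun s => measureReal_nonneg)
        Set.Ioo_subset_Ioi_self.eventuallyLE

theorem minkowski {W : Set E3} (hc : IsCompact W) (h0 : (0 : E3) ∈ W) {f H : E3 → ℝ}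
    (hf : ContDiff ℝ 1 f) (h01 : ∀ x, 0 ≤ f x ∧ f x ≤ 1) (hs : ∀ x, f x ≠ 0 → x ∈ boxE 3)
    (hH : Integrable H) (hfH : ∀ x, ∀ u ∈ W, -fderiv ℝ f x u ≤ H x) {η : ℝ} (hη : 0 < η) :
    ∀ᶠ t in 𝓝[>] (0 : ℝ), ∫ s in Set.Ioo (0 : ℝ) 1, volume.real ({x | s < f x} + t • W) ≤
      (∫ x, f x) + t * ((∫ x, H x) + η) := by
  obtain ⟨R, hR0, hR⟩ := hc.isBounded.exists_pos_norm_le
  have hcs : HasCompactSupport f :=
    HasCompactSupport.intro (isCompact_boxE 3) fun x hx => by
      by_contra h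
      exact hx (hs x h)
  have hfi : Integrable f := hf.continuous.integrable_of_hasCompactSupport hcs
  have hH0 : ∀ x, 0 ≤ H x := fun x => by simpa using hfH x 0 h0
  have huc : UniformContinuous (fderiv ℝ f) :=
    (hcs.fderiv (𝕜 := ℝ)).uniformContinuous_of_continuous (hf.continuous_fderiv one_ne_zero)
  have hQ : IsCompact (boxE 4) := isCompact_boxE 4
  set V := volume.real (boxE 4) with hV
  have hV0 : 0 ≤ V := measureReal_nonneg
  set ε := η / (V + 1) with hε
  have hε0 : 0 < ε := by positivity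
  obtain ⟨δ, hδ0, hδ⟩ := Metric.uniformContinuous_iff.1 huc (ε / R) (by positivity)
  have hm : 0 < min δ 1 / R := by positivity
  filter_upwards [Ioo_mem_nhdsGT hm] with t ht
  have ht0 := ht.1
  have htR : t * R < min δ 1 := (lt_div_iff₀ hR0).1 ht.2
  let G : E3 → ℝ := fun x => f x + t * (H x + (boxE 4).indicator (fun _ => ε) x)
  have hi : Integrable ((boxE 4).indicator fun _ : E3 => ε) :=
    (integrable_indicator_iff hQ.isClosed.measurableSet).2
      (integrableOn_const hQ.measure_lt_top.ne)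
  have hi' : Integrable fun x => H x + (boxE 4).indicator (fun _ => ε) x := hH.add hi
  have hGi : Integrable G := hfi.add (hi'.const_mul t)
  have hind : ∀ x, 0 ≤ (boxE 4).indicator (fun _ : E3 => ε) x := fun x =>
    Set.indicator_nonneg (fun _ _ => hε0.le) x
  have hG0 : ∀ x, 0 ≤ G x := fun x =>
    add_nonneg (h01 x).1 (mul_nonneg ht0.le (add_nonneg (hH0 x) (hind x)))
  have hkey : ∀ x, ∀ u ∈ W, f x ≤ G (x + t • u) := by
    intro x u hu
    have hn : ‖t • u‖ ≤ t * R := by
      rw [norm_smul, Real.norm_of_nonneg ht0.le]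
      exact mul_le_mul_of_nonneg_left (hR u hu) ht0.le
    by_cases hx : f x = 0
    · rw [hx]; exact hG0 _
    have hb : x + t • u ∈ boxE 4 := fun i => by
      have h1 := hs x hx i
      have h2 := abs_coord_le (t • u) i
      have h3 : (x + t • u) i = x i + (t • u) i := rfl
      rw [h3]
      have h4 := abs_add_le (x i) ((t • u) i)
      have h5 := min_le_right δ 1
      linarith only [htR, hn, h1, h2, h4, h5]
    have h1 := (convex_ball (x + t • u) δ).norm_image_sub_le_of_norm_fderiv_le'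
      (𝕜 := ℝ) (f := f) (φ := fderiv ℝ f (x + t • u)) (C := ε / R) (x := x + t • u) (y := x)
      (fun y _ => hf.differentiable one_ne_zero y)
      (fun y hy => by
        have := hδ (Metric.mem_ball.1 hy)
        rw [dist_eq_norm] at this
        exact this.le)
      (Metric.mem_ball_self hδ0)
      (by
        rw [Metric.mem_ball, dist_eq_norm]
        have : x - (x + t • u) = -(t • u) := by abel
        rw [this, norm_neg]
        exact lt_of_le_of_lt hn (htR.trans_le (min_le_left _ _)))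
    have e : x - (x + t • u) = -(t • u) := by abel
    rw [e, norm_neg, map_neg, map_smul, smul_eq_mul, Real.norm_eq_abs] at h1
    have h2 : ε / R * ‖t • u‖ ≤ t * ε := by
      calc ε / R * ‖t • u‖ ≤ ε / R * (t * R) := mul_le_mul_of_nonneg_left hn (by positivity)
        _ = t * ε := by field_simp
    have h3 := mul_le_mul_of_nonneg_left (hfH (x + t • u) u hu) ht0.le
    have h4 := (le_abs_self _).trans (h1.trans h2)
    simp only [G, Set.indicator_of_mem hb]
    nlinarith only [h3, h4]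
  refine (W3b_layer hGi hG0 fun s => ?_).trans ?_
  · rintro _ ⟨x, hx, _, ⟨u, hu, rfl⟩, rfl⟩
    exact lt_of_lt_of_le hx (hkey x u hu)
  · simp only [G]
    rw [integral_add hfi (hi'.const_mul t), integral_const_mul, integral_add hH hi,
      integral_indicator hQ.isClosed.measurableSet, setIntegral_const, smul_eq_mul, ← hV]
    have h1 : V * ε ≤ η := by
      rw [hε, mul_div_assoc', div_le_iff₀ (by positivity)]
      nlinarith only [hη]
    have h2 := mul_le_mul_of_nonneg_left h1 ht0.le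
    nlinarith only [h2]

end Pool.Agent.Work.MP_b59478_pr
end
end

-- merged part: Pool.Agent.Work.MP_b59478_pr.WF
section
/-! Existence of the surface tension. For a unit n let F L M = -log Rt (cyl k L M) (hs n). It is
antitone in M for M >= 2 L + 6 and bounded below (Rt_upper), so it converges to F L and
F L <= F L M. Passing to the limit in Rt_subadd (M' then M), dividing by (2 L' + 1) ^ 2 and letting
L' tend to infinity (q / (2 L' + 1) tends to 1 / (2 L + 2)) gives
limsup of g <= g L + o(1), g L = F L / (2 L + 1) ^ 2; g is bounded below by Rt_upper, so g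
converges. Put tau n = |n k| * lim g (by choice on unit vectors). partition_mixed and
partition_plus identify the quotient in IsTension with Rt.
wulff_facts: wulff tau lam = lam smul wulff tau 1; wulff tau 1 contains the closed cube of
half-side (2 beta - 6) / 3 (inner x n <= l1 norm of x times |n (axis n)|) and lies in boxE (2 beta);
choose lam with lam ^ 3 * vol = v; then (2 beta lam) ^ 3 <= (27/8) v (2 beta / (2 beta - 6)) ^ 3 < 1.
-/

set_option autoImplicit false

noncomputable section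

namespace Pool.Agent.Work.MP_b59478_pr

open Classical Filter Topology MeasureTheory
open scoped symmDiff Pointwise

lemma WF_axis (n : E3) (i : Fin 3) : |n i| ≤ |n (axis n)| := by
  have key : |n 0| ≤ |n (axis n)| ∧ |n 1| ≤ |n (axis n)| ∧ |n 2| ≤ |n (axis n)| := by
    unfold axis
    by_cases h1 : |n 1| ≤ |n 0| ∧ |n 2| ≤ |n 0|
    · rw [if_pos h1]; exact ⟨le_rfl, h1⟩
    · rw [if_neg h1]
      rw [not_and_or, not_le, not_le] at h1
      by_cases h2 : |n 2| ≤ |n 1|
      · rw [if_pos h2]; exact ⟨by rcases h1 with h | h <;> linarith, le_rfl, h2⟩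
      · rw [if_neg h2]
        exact ⟨by rcases h1 with h | h <;> linarith, by linarith, le_rfl⟩
  fin_cases i
  exacts [key.1, key.2.1, key.2.2]

lemma WF_smul (τ : E3 → ℝ) {lam : ℝ} (h : 0 < lam) : wulff τ lam = lam • wulff τ 1 := by
  ext x
  rw [Set.mem_smul_set_iff_inv_smul_mem₀ h.ne']
  simp only [wulff, Set.mem_ofPred_eq, inner_smul_left, one_mul, conj_trivial]
  exact forall₂_congr fun n _ => (inv_mul_le_iff₀ h).symm

lemma WF_low {β lam : ℝ} {τ : E3 → ℝ} (hτ : TauFacts β τ) (h : 0 < lam) :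
    boxE (lam * ((2 * β - 6) / 3)) ⊆ wulff τ lam := by
  intro x hx n hn
  have h1 : ∀ i, n i * x i ≤ lam * ((2 * β - 6) / 3) * |n (axis n)| := fun i => by
    refine (le_abs_self _).trans ?_
    rw [abs_mul, mul_comm]
    exact mul_le_mul (hx i) (WF_axis n i) (abs_nonneg _) ((abs_nonneg _).trans (hx i))
  have h2 := mul_le_mul_of_nonneg_left (hτ.low n hn) h.le
  rw [PiLp.inner_apply, Fin.sum_univ_three]
  simp only [RCLike.inner_apply, conj_trivial]
  linarith only [h2, h1 0, h1 1, h1 2]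

lemma WF_upp {β lam : ℝ} {τ : E3 → ℝ} (hτ : TauFacts β τ) (h : 0 < lam) :
    wulff τ lam ⊆ boxE (lam * (2 * β)) := by
  intro x hx i
  have h1 := hx (EuclideanSpace.single i 1) (by simp)
  have h2 := hx (-EuclideanSpace.single i 1) (by simp)
  rw [inner_neg_right] at h2
  rw [EuclideanSpace.inner_single_right] at h1 h2
  simp only [conj_trivial, one_mul] at h1 h2
  have h3 := mul_le_mul_of_nonneg_left (hτ.upp i).1 h.le
  have h4 := mul_le_mul_of_nonneg_left (hτ.upp i).2 h.le
  rw [abs_le]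
  constructor <;> linarith

lemma WF_closed (τ : E3 → ℝ) (lam : ℝ) : IsClosed (wulff τ lam) := by
  simp only [wulff, Set.ofPred_forall]
  exact isClosed_iInter fun n => isClosed_iInter fun _ =>
    isClosed_le (continuous_id.inner continuous_const) continuous_const

lemma WF_convex (τ : E3 → ℝ) (lam : ℝ) : Convex ℝ (wulff τ lam) := by
  intro x hx y hy a b ha hb hab n hn
  rw [inner_add_left, inner_smul_left, inner_smul_left]
  simp only [conj_trivial]
  have h1 := mul_le_mul_of_nonneg_left (hx n hn) ha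
  have h2 := mul_le_mul_of_nonneg_left (hy n hn) hb
  have : a * (lam * τ n) + b * (lam * τ n) = lam * τ n := by rw [← add_mul, hab, one_mul]
  linarith

theorem wulff_facts {β v : ℝ} {τ : E3 → ℝ} (hβ : 1000 ≤ β) (hτ : TauFacts β τ) (hv : 0 < v)
    (hv' : v ≤ 0.26) : ∃ lam : ℝ, 0 < lam ∧ volume (wulff τ lam) = ENNReal.ofReal v ∧
      ∃ r0 ω, Body (wulff τ lam) r0 ω := by
  have hρ : 0 < (2 * β - 6) / 3 := by linarith only [hβ, hv, hv']
  have hfin : volume (wulff τ 1) ≠ ⊤ :=
    ((measure_mono (WF_upp hτ one_pos)).trans_lt (isCompact_boxE _).measure_lt_top).ne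
  have hpos : volume (wulff τ 1) ≠ 0 := by
    refine (lt_of_lt_of_le ?_ (measure_mono (WF_low hτ one_pos))).ne'
    rw [volume_boxE (by positivity), ENNReal.ofReal_pos]
    positivity
  have hV := ENNReal.toReal_pos hpos hfin
  obtain ⟨lam, h0, h3⟩ : ∃ lam : ℝ, 0 < lam ∧ lam ^ 3 = v / (volume (wulff τ 1)).toReal :=
    ⟨(v / (volume (wulff τ 1)).toReal) ^ ((3 : ℕ) : ℝ)⁻¹, by positivity,
      Real.rpow_inv_natCast_pow (by positivity) (by norm_num)⟩
  have hvol : volume (wulff τ lam) = ENNReal.ofReal v := by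
    rw [WF_smul τ h0, volume_smul_set lam h0.le, h3, ← ENNReal.ofReal_toReal hfin,
      ← ENNReal.ofReal_mul (by positivity), ENNReal.toReal_ofReal hV.le, div_mul_cancel₀ _ hV.ne']
  refine ⟨lam, h0, hvol, lam * ((2 * β - 6) / 3), lam * (2 * β),
    (isCompact_boxE _).of_isClosed_subset (WF_closed τ lam) (WF_upp hτ h0), WF_convex τ lam,
    by positivity, fun x hx => WF_low hτ h0 fun i => (abs_coord_le x i).trans (by simpa using hx),
    ?_, WF_upp hτ h0⟩
  have h4 := measure_mono (μ := volume) (WF_low hτ h0)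
  rw [hvol, volume_boxE (by positivity), ENNReal.ofReal_le_ofReal_iff hv.le] at h4
  by_contra h
  have h5 : 0.65 ≤ 2 * (lam * ((2 * β - 6) / 3)) := by nlinarith only [h0, h, hβ]
  have h6 := pow_le_pow_left₀ (by norm_num) h5 3
  norm_num at h6 hv'
  linarith only [h4, h6, hv']

end Pool.Agent.Work.MP_b59478_pr
end
end
end

-- merged part: Pool.Agent.Work.MP_b59478_pr.LL3
section
-- merged part: Pool.Agent.Work.MP_b59478_pr.LL1
section
/-! Polytopes. exists_poly: W = wulff tau lam is the intersection of the half-spaces; the compact set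
boxE 3 minus the interior of (1 + d) W is covered by the open sets lam * tau n < inner x n, so
finitely many normals (a Finset, enumerated injectively) give a polytope P0 with W inside P0 and
P0 inter boxE 3 inside (1 + d) W; by convexity (star-shaped from 0) P0 is inside (1 + d) W. Take d
with (1 + d) omega < 1 and d <= delta; rescale by a in [1 / (1 + d), 1] to volume v.
lam * tau n >= r0 since r0 n is in W.
card_latP: with a = 1 / min t, the closed unit cube at a lattice point of r P lies in (r + a) P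
and (r - a) P is covered by these cubes when r >= a; poly (r t) = r smul poly t; |(r + a) ^ 3 - r ^ 3|
is at most C N ^ 2.
-/

set_option autoImplicit false

noncomputable section

namespace Pool.Agent.Work.MP_b59478_pr

open Classical Filter Topology MeasureTheory
open scoped symmDiff Pointwise

theorem LL1_smul {J : ℕ} (n : Fin J → E3) (t : Fin J → ℝ) {s : ℝ} (hs : 0 < s) (z : E3) :
    z ∈ s • poly n t ↔ ∀ j, inner ℝ z (n j) ≤ s * t j := by
  rw [Set.mem_smul_set_iff_inv_smul_mem₀ hs.ne']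
  unfold poly
  simp only [Set.mem_ofPred_eq, inner_smul_left, conj_trivial]
  exact forall_congr' fun j => by rw [inv_mul_le_iff₀ hs]

theorem LL1_box {S : Set E3} {ω s : ℝ} (hs : 0 ≤ s) (h : S ⊆ boxE ω) : s • S ⊆ boxE (s * ω) := by
  rintro _ ⟨z, hz, rfl⟩ i
  simp only [PiLp.smul_apply, smul_eq_mul, abs_mul, abs_of_nonneg hs]
  exact mul_le_mul_of_nonneg_left (h hz i) hs

theorem LL1_int {W : Set E3} {r0 ω d : ℝ} (hb : Body W r0 ω) (hd : 0 < d) :
    W ⊆ interior ((1 + d) • W) := by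
  intro x hx
  rw [mem_interior_iff_mem_nhds]
  refine Filter.mem_of_superset (Metric.closedBall_mem_nhds x (mul_pos hd hb.r0_pos)) ?_
  intro z hz
  have h1 : d⁻¹ • (z - x) ∈ W := by
    apply hb.ball
    rw [mem_closedBall_zero_iff, norm_smul, Real.norm_eq_abs, abs_of_pos (inv_pos.mpr hd),
      inv_mul_le_iff₀ hd, ← dist_eq_norm]
    exact hz
  have h2 := hb.cvx hx h1 (a := 1 / (1 + d)) (b := d / (1 + d)) (by positivity) (by positivity)
    (by field_simp)
  refine ⟨_, h2, ?_⟩
  simp only [smul_add, smul_smul]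
  have e1 : (1 + d) * (1 / (1 + d)) = 1 := by field_simp
  have e2 : (1 + d) * (d / (1 + d) * d⁻¹) = 1 := by field_simp
  rw [e1, e2, one_smul, one_smul]; abel

theorem exists_poly {τ : E3 → ℝ} {lam v r0 ω δ : ℝ} (hb : Body (wulff τ lam) r0 ω) (hv : 0 < v)
    (hvol : volume (wulff τ lam) = ENNReal.ofReal v) (hδ : 0 < δ) :
    ∃ (J : ℕ) (n : Fin J → E3) (t : Fin J → ℝ) (ω' : ℝ), Poly n t v ω' ∧
      ∀ j, lam * τ (n j) ≤ (1 + δ) * t j := by
  have hω0 : 0 ≤ ω := by
    have := hb.sub (hb.ball (Metric.mem_closedBall_self hb.r0_pos.le)) 0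
    exact (abs_nonneg _).trans this
  have hω := hb.ω_lt
  set d := min δ ((1 - ω) / 2) with hd
  have hd0 : 0 < d := lt_min hδ (by linarith only [hω])
  have hdδ : d ≤ δ := min_le_left _ _
  have hdω : (1 + d) * ω < 1 := by
    have : d ≤ (1 - ω) / 2 := min_le_right _ _
    nlinarith only [hd0, this, hω0, hω]
  have hK : IsCompact (boxE 3 \ interior ((1 + d) • wulff τ lam)) :=
    (isCompact_boxE 3).diff isOpen_interior
  obtain ⟨T, hT⟩ := hK.elim_finite_subcover
    (fun m : {m : E3 // ‖m‖ = 1} => {x : E3 | lam * τ m < inner ℝ x (m : E3)})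
    (fun m => isOpen_lt continuous_const (continuous_id.inner continuous_const))
    (by
      intro x hx
      have : x ∉ wulff τ lam := fun h => hx.2 (LL1_int hb hd0 h)
      unfold wulff at this
      simp only [Set.mem_ofPred_eq, not_forall, not_le] at this
      obtain ⟨m, hm, hlt⟩ := this
      exact Set.mem_iUnion.mpr ⟨⟨m, hm⟩, hlt⟩)
  set n : Fin T.card → E3 := fun j => (T.equivFin.symm j).1.1 with hn
  have hunit : ∀ j, ‖n j‖ = 1 := fun j => (T.equivFin.symm j).1.2
  have hinj : Function.Injective n := fun j j' h =>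
    T.equivFin.symm.injective (Subtype.ext (Subtype.ext h))
  set t0 : Fin T.card → ℝ := fun j => lam * τ (n j) with ht0
  have hpos : ∀ j, 0 < t0 j := by
    intro j
    have h1 : r0 • n j ∈ wulff τ lam := by
      apply hb.ball
      rw [mem_closedBall_zero_iff, norm_smul, hunit, Real.norm_eq_abs, abs_of_pos hb.r0_pos,
        mul_one]
    have h2 := h1 (n j) (hunit j)
    rw [inner_smul_left, real_inner_self_eq_norm_sq, hunit] at h2
    simp only [conj_trivial, one_pow, mul_one] at h2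
    exact hb.r0_pos.trans_le h2
  have hW : wulff τ lam ⊆ poly n t0 := fun x hx j => hx (n j) (hunit j)
  have hin : ∀ x ∈ poly n t0, ‖x‖ ≤ 3 → x ∈ (1 + d) • wulff τ lam := by
    intro x hx h3
    by_contra hc
    have := hT ⟨fun i => (abs_coord_le x i).trans h3, fun h => hc (interior_subset h)⟩
    obtain ⟨m, hm, hlt⟩ := Set.mem_iUnion₂.mp this
    have h1 := hx (T.equivFin ⟨m, hm⟩)
    simp only [ht0, hn, Equiv.symm_apply_apply] at h1
    exact absurd hlt (not_lt.mpr h1)
  have hbox : (1 + d) • wulff τ lam ⊆ boxE ((1 + d) * ω) := LL1_box (by linarith) hb.sub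
  have hP : poly n t0 ⊆ (1 + d) • wulff τ lam := by
    intro x hx
    by_cases h3 : ‖x‖ ≤ 3
    · exact hin x hx h3
    · exfalso
      rw [not_le] at h3
      have hx0 : 0 < ‖x‖ := by linarith only [h3]
      have hy : ‖(3 / ‖x‖) • x‖ = 3 := by
        rw [norm_smul, Real.norm_eq_abs, abs_of_pos (by positivity)]; field_simp
      have h1 : (3 / ‖x‖) • x ∈ poly n t0 := by
        intro j
        rw [inner_smul_left]
        simp only [conj_trivial]
        have a1 : 3 / ‖x‖ ≤ 1 := by rw [div_le_one hx0]; exact h3.le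
        have a2 : 0 < 3 / ‖x‖ := by positivity
        nlinarith only [a1, a2, hx j, hpos j]
      have h2 := norm_le_of_coord (hbox (hin _ h1 hy.le))
      linarith
  have hup : volume (poly n t0) ≤ ENNReal.ofReal ((1 + d) ^ 3 * v) := by
    refine (measure_mono hP).trans (le_of_eq ?_)
    rw [volume_smul_set _ (by linarith), hvol, ENNReal.ofReal_mul (by positivity)]
  have hfin : volume (poly n t0) ≠ ⊤ := ne_top_of_le_ne_top ENNReal.ofReal_ne_top hup
  set v0 := (volume (poly n t0)).toReal with hv0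
  have e0 : volume (poly n t0) = ENNReal.ofReal v0 := (ENNReal.ofReal_toReal hfin).symm
  have l1 : v ≤ v0 := by
    have := measure_mono (μ := volume) hW
    rw [hvol, e0] at this
    exact (ENNReal.ofReal_le_ofReal_iff ENNReal.toReal_nonneg).mp this
  have l2 : v0 ≤ (1 + d) ^ 3 * v := by
    rw [e0] at hup
    exact (ENNReal.ofReal_le_ofReal_iff (by positivity)).mp hup
  have hv00 : 0 < v0 := hv.trans_le l1
  set a := (v / v0) ^ ((3 : ℕ) : ℝ)⁻¹ with ha
  have ha0 : 0 < a := Real.rpow_pos_of_pos (by positivity) _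
  have ha3 : a ^ 3 = v / v0 := Real.rpow_inv_natCast_pow (by positivity) (by norm_num)
  have ha1 : a ≤ 1 := by
    rw [← pow_le_one_iff_of_nonneg ha0.le (n := 3) (by norm_num), ha3, div_le_one hv00]; exact l1
  have ha2 : 1 ≤ (1 + d) * a := by
    rw [← one_le_pow_iff_of_nonneg (by positivity) (n := 3) (by norm_num), mul_pow, ha3,
      ← mul_div_assoc, one_le_div hv00]
    exact l2
  have eP : poly n (fun j => a * t0 j) = a • poly n t0 := by
    ext z; rw [LL1_smul n t0 ha0]; rfl
  refine ⟨T.card, n, fun j => a * t0 j, (1 + d) * ω,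
    ⟨hunit, hinj, fun j => mul_pos ha0 (hpos j), hv, ?_, hdω, ?_⟩, fun j => ?_⟩
  · rw [eP, volume_smul_set _ ha0.le, e0, ← ENNReal.ofReal_mul (by positivity), ha3]
    congr 1; field_simp
  · rw [eP]
    intro z hz i
    refine (LL1_box ha0.le (hP.trans hbox) hz i).trans ?_
    have : 0 ≤ (1 + d) * ω := by positivity
    nlinarith only [ha1, this]
  · have := hpos j
    have h2 : 1 ≤ (1 + δ) * a := by nlinarith only [hdδ, ha2, hδ, hd0]
    change t0 j ≤ (1 + δ) * (a * t0 j)
    nlinarith only [this, h2]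

theorem LL1_b {J : ℕ} {t : Fin J → ℝ} (h : ∀ j, 0 < t j) : ∃ b : ℝ, 0 < b ∧ ∀ j, 1 ≤ b * t j := by
  refine ⟨1 + ∑ j, 1 / t j, ?_, fun j => ?_⟩
  · have := Finset.sum_nonneg fun j (_ : j ∈ Finset.univ) => (one_div_pos.mpr (h j)).le
    linarith
  · have := Finset.single_le_sum (f := fun j => 1 / t j)
      (fun j _ => (one_div_pos.mpr (h j)).le) (Finset.mem_univ j)
    have e : 1 / t j * t j = 1 := by field_simp [(h j).ne']
    nlinarith only [e, this, h j]

theorem LL1_cube {n z : E3} (hn : ‖n‖ = 1) {x : Site} (h : ∀ i, |z i - (x i : ℝ)| ≤ 1 / 2) :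
    |inner ℝ z n - dot n x| ≤ 1 := by
  rw [dot_eq_inner, ← inner_sub_left]
  refine (abs_real_inner_le_norm _ _).trans ?_
  have := norm_le_of_coord (x := z - emb x) (r := 1 / 2) fun i => by
    rw [PiLp.sub_apply, emb_apply]; exact h i
  rw [hn]; linarith

theorem card_latP {J : ℕ} {n : Fin J → E3} {t : Fin J → ℝ} {v ω : ℝ} (h : Poly n t v ω) :
    ∃ C : ℝ, 0 < C ∧ ∀ N : ℕ, 1 ≤ N → ∀ r : ℝ, 0 ≤ r → r ≤ N →
      |((latP N n t r).card : ℝ) - v * r ^ 3| ≤ C * (N : ℝ) ^ 2 := by
  obtain ⟨b, hb, hbt⟩ := LL1_b h.pos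
  have hv := h.v_pos
  refine ⟨v * (3 * b + 3 * b ^ 2 + b ^ 3), by positivity, fun N hN r hr hrN => ?_⟩
  have hN1 : (1 : ℝ) ≤ N := by exact_mod_cast hN
  have hvol : ∀ s : ℝ, 0 ≤ s → volume (s • poly n t) = ENNReal.ofReal (s ^ 3 * v) := by
    intro s hs
    rw [volume_smul_set _ hs, h.vol, ENNReal.ofReal_mul (by positivity)]
  have up : ((latP N n t r).card : ℝ) ≤ (r + b) ^ 3 * v := by
    have : cubes (latP N n t r) ⊆ (r + b) • poly n t := by
      rintro z ⟨x, hx, hz⟩
      rw [LL1_smul n t (by positivity)]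
      intro j
      have a1 := (Finset.mem_filter.mp hx).2 j
      have a2 := (abs_le.mp (LL1_cube (h.unit j) hz)).2
      nlinarith only [a1, a2, hbt j]
    have h2 := measure_mono (μ := volume) this
    rw [volume_cubes, hvol _ (by positivity), ← ENNReal.ofReal_natCast] at h2
    exact (ENNReal.ofReal_le_ofReal_iff (by positivity)).mp h2
  have r2 : r ^ 2 ≤ (N : ℝ) ^ 2 := by gcongr
  have r1 : r ≤ (N : ℝ) ^ 2 := by nlinarith only [hrN, hN1]
  have r0 : 1 ≤ (N : ℝ) ^ 2 := by nlinarith only [hN1]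
  have k2 : 3 * b * r ^ 2 ≤ 3 * b * (N : ℝ) ^ 2 := by gcongr
  have k1 : 3 * b ^ 2 * r ≤ 3 * b ^ 2 * (N : ℝ) ^ 2 := by gcongr
  have k0 : b ^ 3 * 1 ≤ b ^ 3 * (N : ℝ) ^ 2 := by gcongr
  have k3 : 0 ≤ 3 * b ^ 2 * r := by positivity
  have low : (r ^ 3 - (3 * b + 3 * b ^ 2 + b ^ 3) * (N : ℝ) ^ 2) * v ≤ (latP N n t r).card := by
    by_cases hrb : b < r
    · have : (r - b) • poly n t ⊆ cubes (latP N n t r) := by
        intro z hz
        have hz' := (LL1_smul n t (by linarith) z).mp hz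
        have hc : ∀ i, |z i - ((round (z i) : ℤ) : ℝ)| ≤ 1 / 2 := fun i => abs_sub_round _
        refine ⟨fun i => round (z i), Finset.mem_filter.mpr ⟨mem_cube.mpr fun i => ?_, fun j => ?_⟩,
          hc⟩
        · have a1 := LL1_box (s := r - b) (by linarith) h.sub hz i
          have a2 : (r - b) * ω ≤ N := by nlinarith only [hb, hrN, hrb, h.ω_lt]
          have a3 : |((round (z i) : ℤ) : ℝ)| < N + 1 := by
            have := abs_sub_abs_le_abs_sub ((round (z i) : ℤ) : ℝ) (z i)
            rw [abs_sub_comm] at this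
            linarith only [a1, a2, this, hc i]
          have a4 : |round (z i)| < (N : ℤ) + 1 := by exact_mod_cast a3
          omega
        · have a2 := (abs_le.mp (LL1_cube (h.unit j) (x := fun i => round (z i)) hc)).1
          nlinarith only [a2, hbt j, hz' j]
      have h2 := measure_mono (μ := volume) this
      rw [volume_cubes, hvol _ (by linarith), ← ENNReal.ofReal_natCast] at h2
      refine le_trans ?_ ((ENNReal.ofReal_le_ofReal_iff (by positivity)).mp h2)
      refine mul_le_mul_of_nonneg_right ?_ hv.le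
      nlinarith only [k2, k1, k0, k3]
    · refine le_trans ?_ (Nat.cast_nonneg _)
      refine mul_nonpos_of_nonpos_of_nonneg ?_ hv.le
      have : r ^ 3 ≤ b ^ 3 := by gcongr; exact not_lt.mp hrb
      have : 0 ≤ 3 * b * r ^ 2 := by positivity
      nlinarith
  have up' : (r + b) ^ 3 * v ≤ (r ^ 3 + (3 * b + 3 * b ^ 2 + b ^ 3) * (N : ℝ) ^ 2) * v := by
    refine mul_le_mul_of_nonneg_right ?_ hv.le
    nlinarith only [k2, k1, k0]
  rw [abs_le]
  constructor <;> nlinarith only [low, up, up']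

/-- Points nearly satisfying the constraints are well inside the cube. -/
theorem near_poly {J : ℕ} {n : Fin J → E3} {t : Fin J → ℝ} {v ω : ℝ} (h : Poly n t v ω) (a : ℕ) :
    ∀ᶠ N : ℕ in atTop, ∀ x : Site, (∀ j, dot (n j) x ≤ N * t j + a) → ball x a ⊆ cube N := by
  obtain ⟨b, hb, hbt⟩ := LL1_b h.pos
  have hω : 0 < 1 - ω := by linarith [h.ω_lt]
  filter_upwards [tendsto_natCast_atTop_atTop.eventually_ge_atTop ((a * b + a) / (1 - ω)),
    eventually_ge_atTop 1] with N hN hN1 x hx y hy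
  rw [div_le_iff₀ hω] at hN
  have hN1' : (1 : ℝ) ≤ N := by exact_mod_cast hN1
  have ha : (0 : ℝ) ≤ a := Nat.cast_nonneg a
  have hab : 0 ≤ (a : ℝ) * b := by positivity
  have h1 : emb x ∈ ((N : ℝ) + a * b) • poly n t := by
    rw [LL1_smul n t (by positivity)]
    intro j
    rw [← dot_eq_inner]
    nlinarith only [hx j, hbt j]
  refine mem_cube.mpr fun i => ?_
  have a1 := LL1_box (by positivity) h.sub h1 i
  rw [emb_apply] at a1
  have a2 : |(y i : ℝ) - x i| ≤ a := by exact_mod_cast mem_ball.mp hy i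
  have a3 : |(y i : ℝ)| ≤ N := by
    have := abs_sub_abs_le_abs_sub (y i : ℝ) (x i)
    nlinarith only [hN, a1, a2, this, hω, hab]
  exact_mod_cast a3

end Pool.Agent.Work.MP_b59478_pr
end
end

-- merged part: Pool.Agent.Work.MP_b59478_pr.LL2
section
/-! Total area of tiles on the faces of a polytope. Fix k1 small (k1 * t j * 10 <= kappa for all j).
For p = (j, c) the prism is the set of x with |x i - c i| <= L for i other than k = axis (n j) and
(1 - k1) N t j < dot (n j) x <= N t j. Each of its (2 L + 1) ^ 2 columns has at least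
k1 N t j / |n k| - 1 points. Its points have |x k - c k| <= 2 k1 N t j + 2 L + 2, hence
dot (n j') x <= N t j' - kappa N / 2 <= (1 - k1) N t j' for the other j'; so the prisms are pairwise
disjoint and inside latP N n t N minus latP N n t ((1 - k1) N) (near_poly), which has at most
3 k1 v N ^ 3 + 2 C N ^ 2 points by card_latP.
-/

set_option autoImplicit false

noncomputable section

namespace Pool.Agent.Work.MP_b59478_pr

open Classical Filter Topology MeasureTheory
open scoped symmDiff Pointwise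

theorem LL2_pos {α lo hi : ℝ} (hα : 0 < α) : ∃ Z : Finset ℤ, (hi - lo) / α - 1 ≤ Z.card ∧
    ∀ z ∈ Z, lo < α * z ∧ α * z ≤ hi := by
  refine ⟨Finset.Ioc ⌊lo / α⌋ ⌊hi / α⌋, ?_, fun z hz => ?_⟩
  · have h1 : ⌊hi / α⌋ - ⌊lo / α⌋ ≤ ((Finset.Ioc ⌊lo / α⌋ ⌊hi / α⌋).card : ℤ) := by
      rw [Int.card_Ioc]; exact Int.self_le_toNat _
    have h2 : (⌊hi / α⌋ : ℝ) - ⌊lo / α⌋ ≤ ((Finset.Ioc ⌊lo / α⌋ ⌊hi / α⌋).card : ℝ) := by
      exact_mod_cast h1
    rw [sub_div]
    linarith only [h2, Int.floor_le (lo / α), Int.lt_floor_add_one (hi / α)]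
  · obtain ⟨h1, h2⟩ := Finset.mem_Ioc.mp hz
    rw [Int.floor_lt, div_lt_iff₀' hα] at h1
    rw [Int.le_floor, le_div_iff₀' hα] at h2
    exact ⟨h1, h2⟩

theorem LL2_line {α : ℝ} (hα : α ≠ 0) (lo hi : ℝ) : ∃ Z : Finset ℤ,
    (hi - lo) / |α| - 1 ≤ Z.card ∧ ∀ z ∈ Z, lo < α * z ∧ α * z ≤ hi := by
  rcases hα.lt_or_gt with h | h
  · obtain ⟨Z, h1, h2⟩ := LL2_pos (lo := lo) (hi := hi) (neg_pos.mpr h)
    refine ⟨Z.image fun z => -z, ?_, fun z hz => ?_⟩
    · rwa [Finset.card_image_of_injective _ neg_injective, abs_of_neg h]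
    · obtain ⟨y, hy, rfl⟩ := Finset.mem_image.mp hz
      have := h2 y hy
      push_cast
      constructor <;> linarith only [this, this.1, this.2]
  · rw [abs_of_pos h]; exact LL2_pos h

/-- A set containing all points of a prism is large. -/
theorem LL2_prism {n : E3} (hn : ‖n‖ = 1) (c : Site) (L : ℕ) (lo hi : ℝ) (S : Finset Site)
    (hS : ∀ x : Site, (∀ l, l ≠ axis n → |x l - c l| ≤ L) → lo < dot n x → dot n x ≤ hi → x ∈ S) :
    (2 * (L : ℝ) + 1) ^ 2 * ((hi - lo) / |n (axis n)| - 1) ≤ S.card := by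
  obtain ⟨i, m, h1, h2, h3⟩ := LL3_two (axis n)
  have hk : n (axis n) ≠ 0 := by
    intro h; have := LL3_half hn; rw [h, abs_zero] at this; linarith
  set Q : Finset (ℤ × ℤ) := Finset.Icc (c i - L) (c i + L) ×ˢ Finset.Icc (c m - L) (c m + L) with hQ
  have hcard : (Q.card : ℝ) = (2 * (L : ℝ) + 1) ^ 2 := by
    have e : ∀ u : ℤ, (Finset.Icc (u - L) (u + L)).card = 2 * L + 1 := by
      intro u; rw [Int.card_Icc]; omega
    rw [hQ, Finset.card_product, e, e]; push_cast; ring
  have hfib : ∀ q ∈ Q, (hi - lo) / |n (axis n)| - 1 ≤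
      ((S.filter fun x => (x i, x m) = q).card : ℝ) := by
    rintro ⟨u, w⟩ hq
    obtain ⟨hu, hw⟩ := Finset.mem_product.mp hq
    rw [Finset.mem_Icc] at hu hw
    simp only at hu hw
    obtain ⟨Z, z1, z2⟩ := LL2_line hk (lo - (n i * u + n m * w)) (hi - (n i * u + n m * w))
    have e : hi - (n i * u + n m * w) - (lo - (n i * u + n m * w)) = hi - lo := by ring
    rw [e] at z1
    refine z1.trans (Nat.cast_le.mpr (Finset.card_le_card_of_injOn
      (fun z l => if l = i then u else if l = m then w else z) ?_ ?_))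
    · intro z hz
      have hd : dot n (fun l => if l = i then u else if l = m then w else z)
          = n i * u + n m * w + n (axis n) * z := by
        rw [LL3_dot n _ h1 h2 h3]; simp [h1.symm, h2.symm, h3.symm]
      have := z2 z hz
      simp only [Finset.coe_filter, Set.mem_ofPred_eq]
      refine ⟨hS _ (fun l hl => ?_) (by rw [hd]; linarith only [this, this.1]) (by rw [hd]; linarith [this.2]),
        by simp [h1.symm]⟩
      rcases LL3_cases i m (axis n) l h1 h2 h3 with rfl | rfl | rfl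
      · simp only [if_true]; rw [abs_le]; constructor <;> linarith only [hu, hu.1, hu.2]
      · simp only [if_neg h1.symm, if_true]; rw [abs_le]; constructor <;> linarith only [hw, hw.1, hw.2]
      · exact absurd rfl hl
    · intro z _ z' _ h
      have := congrFun h (axis n)
      simpa [h2.symm, h3.symm] using this
  have s1 := Finset.card_nsmul_le_sum Q _ _ hfib
  rw [nsmul_eq_mul, hcard] at s1
  refine s1.trans ?_
  rw [← Nat.cast_sum, Finset.sum_card_fiberwise_eq_card_filter]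
  exact Nat.cast_le.mpr (Finset.card_filter_le _ _)

theorem LL2_near {n : E3} (hn : ‖n‖ = 1) {c x : Site} {L : ℕ} {a : ℝ}
    (hx : ∀ l, l ≠ axis n → |x l - c l| ≤ L) (ha : |dot n x - dot n c| ≤ a) {n' : E3}
    (hn' : ‖n'‖ = 1) : dot n' x ≤ dot n' c + 2 * a + 4 * L := by
  obtain ⟨i, m, h1, h2, h3⟩ := LL3_two (axis n)
  have ai : |(x i : ℝ) - c i| ≤ L := by exact_mod_cast hx i h2
  have am : |(x m : ℝ) - c m| ≤ L := by exact_mod_cast hx m h3
  have e : n (axis n) * ((x (axis n) : ℝ) - c (axis n)) = (dot n x - dot n c)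
      - n i * ((x i : ℝ) - c i) - n m * ((x m : ℝ) - c m) := by
    rw [LL3_dot n x h1 h2 h3, LL3_dot n c h1 h2 h3]; ring
  have bi : |n i * ((x i : ℝ) - c i)| ≤ |n (axis n)| * L := by
    rw [abs_mul]; exact mul_le_mul (LL3_axis n i) ai (abs_nonneg _) (abs_nonneg _)
  have bm : |n m * ((x m : ℝ) - c m)| ≤ |n (axis n)| * L := by
    rw [abs_mul]; exact mul_le_mul (LL3_axis n m) am (abs_nonneg _) (abs_nonneg _)
  have ha0 : 0 ≤ a := (abs_nonneg _).trans ha
  have f : |n (axis n)| * |(x (axis n) : ℝ) - c (axis n)| ≤ a + 2 * (|n (axis n)| * L) := by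
    rw [← abs_mul, e]
    rw [abs_le] at ha bi bm ⊢
    constructor <;> linarith only [ha, bi, bm, ha.1, ha.2, bi.1, bi.2, bm.1, bm.2]
  have hh := LL3_half hn
  have f2 : |(x (axis n) : ℝ) - c (axis n)| ≤ 2 * L + 2 * a := by
    by_contra hcon
    rw [not_le] at hcon
    nlinarith only [f, hcon, ha0, hh]
  have g : ∀ (l : Fin 3) (r : ℝ), |(x l : ℝ) - c l| ≤ r → n' l * ((x l : ℝ) - c l) ≤ r := by
    intro l r hr
    refine (le_abs_self _).trans ?_
    rw [abs_mul]
    nlinarith only [hr, hn', LL3_le_one hn' l, abs_nonneg (n' l), abs_nonneg ((x l : ℝ) - c l)]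
  rw [LL3_dot n' x h1 h2 h3, LL3_dot n' c h1 h2 h3]
  linarith only [ai, am, f2, g i _ ai, g m _ am, g _ _ f2]

theorem LL2_ev {a : ℝ} (ha : 0 < a) (b : ℝ) : ∀ᶠ N : ℕ in atTop, b ≤ a * N := by
  filter_upwards [tendsto_natCast_atTop_atTop.eventually_ge_atTop (b / a)] with N hN
  rwa [div_le_iff₀' ha] at hN

theorem tiles_area {J : ℕ} {n : Fin J → E3} {t : Fin J → ℝ} {v ω : ℝ} (h : Poly n t v ω)
    {κ δ : ℝ} (hκ : 0 < κ) (hδ : 0 < δ) (L : ℕ) : ∀ᶠ N : ℕ in atTop,
    ∀ 𝒯 : Finset (Fin J × Site), (∀ p ∈ 𝒯, |dot (n p.1) p.2 - N * t p.1| ≤ 1) →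
      (∀ p ∈ 𝒯, ∀ j, j ≠ p.1 → dot (n j) p.2 ≤ N * t j - κ * N) →
      (∀ p ∈ 𝒯, ∀ p' ∈ 𝒯, p ≠ p' → p.1 = p'.1 →
        ∃ i, i ≠ axis (n p.1) ∧ 2 * (L : ℤ) + 1 ≤ |p.2 i - p'.2 i|) →
      ∑ p ∈ 𝒯, t p.1 * (2 * (L : ℝ) + 1) ^ 2 / |n p.1 (axis (n p.1))| ≤
        (3 * v + δ) * (N : ℝ) ^ 2 := by
  obtain ⟨C, hC, hcard⟩ := card_latP h
  have hv := h.v_pos
  have hk : ∃ k : ℝ, 0 < k ∧ k ≤ 1 ∧ ∀ j, 10 * (k * t j) ≤ κ := by
    have a1 : ∀ᶠ k in 𝓝 (0 : ℝ), ∀ j, 10 * (k * t j) ≤ κ := by
      rw [eventually_all]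
      intro j
      have := h.pos j
      filter_upwards [eventually_le_nhds (show (0 : ℝ) < κ / (10 * t j) by positivity)] with k hk
      rw [le_div_iff₀ (by positivity)] at hk
      linarith
    have a2 : ∀ᶠ k in 𝓝 (0 : ℝ), k ≤ 1 := eventually_le_nhds one_pos
    obtain ⟨k, ⟨b1, b2⟩, b3⟩ :=
      ((((a1.and a2).filter_mono nhdsWithin_le_nhds) : ∀ᶠ k in 𝓝[>] (0 : ℝ), _).and
        self_mem_nhdsWithin).exists
    exact ⟨k, b3, b2, b1⟩
  obtain ⟨k, hk0, hk1, hkt⟩ := hk
  set ε := δ / (2 * (3 * v + δ)) with hε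
  have hε0 : 0 < ε := by positivity
  have hε1 : (1 - ε) * (3 * v + δ) = 3 * v + δ / 2 := by rw [hε]; field_simp; ring
  have hε2 : 0 < 1 - ε := by
    by_contra hc
    have := mul_nonpos_of_nonpos_of_nonneg (not_lt.mp hc) (show 0 ≤ 3 * v + δ by positivity)
    linarith only [hδ, hv, hε1, this]
  have e1 : ∀ᶠ N : ℕ in atTop, ∀ j, 1 ≤ ε * k * t j * N :=
    eventually_all.mpr fun j => LL2_ev (by have := h.pos j; positivity) 1
  filter_upwards [near_poly h 0, e1, LL2_ev (half_pos hκ) (4 * L + 2),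
    LL2_ev (show 0 < k * δ by positivity) (4 * C), eventually_ge_atTop 1]
    with N n1 n2 n3 n4 n5 𝒯 t1 t2 t3
  have hN1 : (1 : ℝ) ≤ N := by exact_mod_cast n5
  have hN0 : (0 : ℝ) < N := by linarith only [hε0, hε2, hN1]
  set P : Fin J × Site → Finset Site := fun p => (cube N).filter fun x =>
    (∀ l, l ≠ axis (n p.1) → |x l - p.2 l| ≤ L) ∧ (1 - k) * N * t p.1 < dot (n p.1) x ∧
      dot (n p.1) x ≤ N * t p.1 with hP
  have hkt' : ∀ j, 10 * (k * N * t j) ≤ κ * N := fun j => by nlinarith only [hkt j]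
  have hkt0 : ∀ j, 0 ≤ k * N * t j := fun j => by have := h.pos j; positivity
  have oth : ∀ p ∈ 𝒯, ∀ x : Site, (∀ l, l ≠ axis (n p.1) → |x l - p.2 l| ≤ L) →
      (1 - k) * N * t p.1 < dot (n p.1) x → dot (n p.1) x ≤ N * t p.1 →
      ∀ j, j ≠ p.1 → dot (n j) x ≤ (1 - k) * N * t j := by
    intro p hp x x1 x2 x3 j hj
    have a1 := abs_le.mp (t1 p hp)
    have a2 := LL2_near (h.unit p.1) x1 (a := k * N * t p.1 + 1)
      (abs_le.mpr ⟨by linarith only [x2, a1, a1.2], by linarith only [x2, x3, a1, a1.1, hkt0 p.1]⟩) (h.unit j)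
    linarith only [hε0, hε2, n3, a2, hj, t2 p hp j hj, hkt' j, hkt' p.1]
  have all : ∀ p ∈ 𝒯, ∀ x : Site, (∀ l, l ≠ axis (n p.1) → |x l - p.2 l| ≤ L) →
      (1 - k) * N * t p.1 < dot (n p.1) x → dot (n p.1) x ≤ N * t p.1 →
      ∀ j, dot (n j) x ≤ N * t j := by
    intro p hp x x1 x2 x3 j
    by_cases hj : j = p.1
    · rw [hj]; exact x3
    · linarith only [x2, x3, hj, oth p hp x x1 x2 x3 j hj, hkt0 j]
  have low : ∀ p ∈ 𝒯, (1 - ε) * k * N * (t p.1 * (2 * (L : ℝ) + 1) ^ 2 / |n p.1 (axis (n p.1))|)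
      ≤ (P p).card := by
    intro p hp
    refine le_trans ?_ (LL2_prism (h.unit p.1) p.2 L ((1 - k) * N * t p.1) (N * t p.1) (P p)
      fun x x1 x2 x3 => Finset.mem_filter.mpr ⟨n1 x (fun j => by
        simpa using all p hp x x1 x2 x3 j) (mem_ball.mpr (Near.refl _ _)), x1, x2, x3⟩)
    have b1 := LL3_half (h.unit p.1)
    have b2 := LL3_le_one (h.unit p.1) (axis (n p.1))
    set g := |n p.1 (axis (n p.1))| with hg
    have g0 : 0 < g := by linarith only [hε0, hε2, b1]
    have b3 : 1 ≤ ε * k * t p.1 * N / g := by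
      rw [le_div_iff₀ g0]; linarith only [b2, n2 p.1]
    have e : (1 - ε) * k * N * (t p.1 * (2 * (L : ℝ) + 1) ^ 2 / g) = (2 * (L : ℝ) + 1) ^ 2 *
        ((N * t p.1 - (1 - k) * N * t p.1) / g - ε * k * t p.1 * N / g) := by ring
    rw [e]
    gcongr
  have dis : (𝒯 : Set (Fin J × Site)).PairwiseDisjoint P := by
    intro p hp p' hp' hne
    rw [Function.onFun, Finset.disjoint_left]
    intro x hx hx'
    obtain ⟨-, x1, x2, x3⟩ := Finset.mem_filter.mp hx
    obtain ⟨-, y1, y2, y3⟩ := Finset.mem_filter.mp hx'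
    by_cases hj : p.1 = p'.1
    · obtain ⟨i, hi, hd⟩ := t3 p hp p' hp' hne hj
      have a1 := x1 i hi
      have a2 := y1 i (by rw [← hj]; exact hi)
      rw [abs_le] at a1 a2
      rw [le_abs] at hd
      omega
    · linarith only [y2, x2, x3, hj, oth p hp x x1 x2 x3 p'.1 (Ne.symm hj)]
  have sub : 𝒯.biUnion P ⊆ latP N n t N \ latP N n t ((1 - k) * N) := by
    intro x hx
    obtain ⟨p, hp, hx⟩ := Finset.mem_biUnion.mp hx
    obtain ⟨x0, x1, x2, x3⟩ := Finset.mem_filter.mp hx
    refine Finset.mem_sdiff.mpr ⟨Finset.mem_filter.mpr ⟨x0, all p hp x x1 x2 x3⟩, fun hc => ?_⟩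
    linarith only [x2, (Finset.mem_filter.mp hc).2 p.1]
  have sub2 : latP N n t ((1 - k) * N) ⊆ latP N n t N := by
    intro x hx
    obtain ⟨x0, x1⟩ := Finset.mem_filter.mp hx
    exact Finset.mem_filter.mpr ⟨x0, fun j => by linarith only [x1 j, hkt0 j]⟩
  have c1 := Finset.card_le_card sub
  rw [Finset.card_biUnion dis] at c1
  have c2 := Finset.card_sdiff_add_card_eq_card sub2
  have c3 : (∑ p ∈ 𝒯, ((P p).card : ℝ)) + (latP N n t ((1 - k) * N)).card ≤ (latP N n t N).card := by
    rw [← Nat.cast_sum, ← Nat.cast_add, Nat.cast_le]; omega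
  have d1 := (abs_le.mp (hcard N n5 N hN0.le le_rfl)).2
  have d2 := (abs_le.mp (hcard N n5 ((1 - k) * N) (by nlinarith only [hk1]) (by nlinarith only [hk0]))).1
  have d3 := Finset.sum_le_sum low
  rw [← Finset.mul_sum] at d3
  set S := ∑ p ∈ 𝒯, t p.1 * (2 * (L : ℝ) + 1) ^ 2 / |n p.1 (axis (n p.1))| with hS
  have d4 : v * (N : ℝ) ^ 3 - v * ((1 - k) * N) ^ 3 ≤ 3 * k * v * (N : ℝ) ^ 3 := by
    have : 1 - (1 - k) ^ 3 ≤ 3 * k := by nlinarith only [hk1, mul_nonneg hk0.le hk0.le]
    have e : v * (N : ℝ) ^ 3 - v * ((1 - k) * N) ^ 3 = (1 - (1 - k) ^ 3) * (v * (N : ℝ) ^ 3) := by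
      ring
    rw [e, mul_assoc (3 * k)]
    gcongr
  have d5 : 2 * C * (N : ℝ) ^ 2 ≤ k * δ / 2 * (N : ℝ) ^ 3 := by
    have : k * δ / 2 * (N : ℝ) ^ 3 = (k * δ * N / 2) * (N : ℝ) ^ 2 := by ring
    rw [this]
    gcongr
    linarith only [n4]
  have d6 : (1 - ε) * k * N * S ≤ (1 - ε) * k * N * ((3 * v + δ) * (N : ℝ) ^ 2) := by
    have : (1 - ε) * k * N * ((3 * v + δ) * (N : ℝ) ^ 2)
        = ((1 - ε) * (3 * v + δ)) * k * (N : ℝ) ^ 3 := by ring
    rw [this, hε1]
    linarith only [c3, d1, d2, d3, d4, d5]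
  exact le_of_mul_le_mul_left d6 (by positivity)

end Pool.Agent.Work.MP_b59478_pr
end
end

-- merged part: Pool.Agent.Work.MP_b59478_pr.LL3
section
/-! Tiling the faces of the lattice polytope A0 = latP N n t N.
double_slab: if n' is not parallel to n, with k = axis n, on the slab dot n' x = g . y + const + O(2)
where y are the two other coordinates and g = n' - (n' k / n k) n is not zero; for a fixed value of
one of them the other ranges over at most (2 a + 4) / |g|_max + 1 values; 5 points per column.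
exists_tiles: the family of (j, c) with c in the cube, c i divisible by 2 L + 2 for i other than
k = axis (n j), c k the rounding making |dot (n j) c - N t j| <= 1, and dot (n j') c <= N t j' - kappa N
for the other j'. A bond of cut A0 has |dot (n j) b.1 - N t j| <= 1 and all constraints up to 1
for some j (near_poly). It touches a tile unless its column is a gap column (one of the two other
coordinates is L + 1 modulo 2 L + 2; at most 2 (2 N + 1) ((2 N + 1) / (2 L + 2) + 1) columns) or it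
lies in a double slab of width 2 kappa N (impossible when n j' = - n j and kappa is small). Tiles
on different faces are at distance of order kappa N. Choose kappa then L; tiles_area for the sum.
-/

set_option autoImplicit false

noncomputable section

namespace Pool.Agent.Work.MP_b59478_pr

open Classical Filter Topology MeasureTheory
open scoped symmDiff Pointwise

theorem double_slab {n n' : E3} (hn : ‖n‖ = 1) (hn' : ‖n'‖ = 1) (h1 : n' ≠ n) (h2 : n' ≠ -n) :
    ∃ C : ℝ, 0 < C ∧ ∀ (N : ℕ) (t t' a : ℝ), 0 ≤ a →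
      (((cube N).filter fun x => |dot n x - t| ≤ 1 ∧ |dot n' x - t'| ≤ a).card : ℝ) ≤
        C * (N + 1) * (a + 1) := LL3_slab hn hn' h1 h2

/-- The family of tiles. -/
def LL3_fam {J : ℕ} (n : Fin J → E3) (t : Fin J → ℝ) (κ : ℝ) (L N : ℕ) : Finset (Fin J × Site) :=
  (Finset.univ ×ˢ cube N).filter fun p =>
    (∀ i, i ≠ axis (n p.1) → ((2 * L + 2 : ℕ) : ℤ) ∣ p.2 i) ∧
      p.2 (axis (n p.1)) = LL3_lift (n p.1) (N * t p.1) p.2 ∧
      ∀ j, j ≠ p.1 → dot (n j) p.2 ≤ N * t j - κ * N

theorem LL3_sep {J : ℕ} {n : Fin J → E3} {t : Fin J → ℝ} {κ : ℝ} {L N : ℕ} {p p' : Fin J × Site}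
    (hp : p ∈ LL3_fam n t κ L N) (hp' : p' ∈ LL3_fam n t κ L N) (hne : p ≠ p') (hj : p.1 = p'.1) :
    ∃ i, i ≠ axis (n p.1) ∧ 2 * (L : ℤ) + 2 ≤ |p.2 i - p'.2 i| := by
  obtain ⟨j, c⟩ := p
  obtain ⟨j', c'⟩ := p'
  simp only at hj
  subst hj
  obtain ⟨-, a1, a2, -⟩ := Finset.mem_filter.mp hp
  obtain ⟨-, b1, b2, -⟩ := Finset.mem_filter.mp hp'
  simp only at a1 a2 b1 b2 ⊢
  have : ∃ i, i ≠ axis (n j) ∧ c i ≠ c' i := by
    by_contra hc
    push Not at hc
    apply hne
    congr 1
    funext i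
    by_cases hi : i = axis (n j)
    · rw [hi, a2, b2, LL3_lift_congr _ _ hc]
    · exact hc i hi
  obtain ⟨i, hi, hc⟩ := this
  refine ⟨i, hi, ?_⟩
  have hd := dvd_sub (a1 i hi) (b1 i hi)
  have := Int.le_of_dvd (abs_pos.mpr (sub_ne_zero.mpr hc)) ((dvd_abs _ _).mpr hd)
  push_cast at this
  exact this

theorem LL3_tile_near {c x : Site} {k : Fin 3} {L M R : ℕ} (h : x ∈ tile c k L M) (h1 : L ≤ R)
    (h2 : M ≤ R) : Near R x c := by
  intro i
  have := mem_tile.mp h i
  split_ifs at this <;> omega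

theorem LL3_face {J : ℕ} {n : Fin J → E3} {t : Fin J → ℝ} (hn : ∀ j, ‖n j‖ = 1) {N : ℕ}
    (hN : ∀ x : Site, (∀ j, dot (n j) x ≤ N * t j + (1 : ℕ)) → ball x 1 ⊆ cube N) {b : Bond}
    (hb : b ∈ cut (latP N n t N)) : (∀ j, dot (n j) b.1 ≤ N * t j + 1) ∧
      ∃ j, |dot (n j) b.1 - N * t j| ≤ 1 := by
  have hb' := mem_cut.mp hb
  have ht := fun j => abs_le.mp (LL3_tip (hn j) b)
  by_cases h1 : b.1 ∈ latP N n t N
  · have h2 : tip b ∉ latP N n t N := fun h => hb' ⟨fun _ => h, fun _ => h1⟩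
    have a := (Finset.mem_filter.mp h1).2
    have hc : tip b ∈ cube N := hN b.1 (fun j => by push_cast; linarith [a j])
      (mem_ball.mpr (near_tip b).symm)
    have : ∃ j, N * t j < dot (n j) (tip b) := by
      by_contra hcon
      push Not at hcon
      exact h2 (Finset.mem_filter.mpr ⟨hc, hcon⟩)
    obtain ⟨j, hj⟩ := this
    exact ⟨fun j => by linarith [a j], j, abs_le.mpr ⟨by linarith [(ht j).2], by linarith [a j]⟩⟩
  · have h2 : tip b ∈ latP N n t N := by
      by_contra h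
      exact hb' ⟨fun h' => absurd h' h1, fun h' => absurd h' h⟩
    have a := (Finset.mem_filter.mp h2).2
    have hc : b.1 ∈ cube N := hN (tip b) (fun j => by push_cast; linarith [a j])
      (mem_ball.mpr (near_tip b))
    have : ∃ j, N * t j < dot (n j) b.1 := by
      by_contra hcon
      push Not at hcon
      exact h1 (Finset.mem_filter.mpr ⟨hc, hcon⟩)
    obtain ⟨j, hj⟩ := this
    exact ⟨fun j => by linarith [a j, (ht j).1], j,
      abs_le.mpr ⟨by linarith, by linarith [a j, (ht j).1]⟩⟩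

theorem LL3_cover {J : ℕ} {n : Fin J → E3} {t : Fin J → ℝ} (hn : ∀ j, ‖n j‖ = 1) {N L M : ℕ}
    {κ : ℝ} (hM : 2 * L + 6 ≤ M)
    (hN : ∀ x : Site, (∀ j, dot (n j) x ≤ N * t j + (1 : ℕ)) → ball x 1 ⊆ cube N)
    (hN' : ∀ x : Site, (∀ j, dot (n j) x ≤ N * t j + (M + 1 : ℕ)) → ball x (M + 1) ⊆ cube N)
    (hκ : ∀ j, 2 * κ ≤ t j) (h1 : ∀ j, 1 ≤ N * t j) (h2 : 3 * (M : ℝ) ≤ κ * N) :
    cut (latP N n t N) \ bonds ((LL3_fam n t κ L N).biUnion fun p => tile p.2 (axis (n p.1)) L M)
      ⊆ (((Finset.univ : Finset (Fin J × Fin 3)).biUnion fun p => (cube N).filter fun x =>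
          |dot (n p.1) x - N * t p.1| ≤ 1 ∧ p.2 ≠ axis (n p.1) ∧
            x p.2 % ((2 * L + 2 : ℕ) : ℤ) = L + 1) ∪
        (Finset.univ : Finset (Fin J × Fin J)).biUnion fun p => (cube N).filter fun x =>
          (p.2 ≠ p.1 ∧ n p.2 ≠ -n p.1) ∧ |dot (n p.1) x - N * t p.1| ≤ 1 ∧
            |dot (n p.2) x - N * t p.2| ≤ 2 * κ * N + 1) ×ˢ (Finset.univ : Finset (Fin 3)) := by
  intro b hb
  obtain ⟨hb1, hb2⟩ := Finset.mem_sdiff.mp hb
  obtain ⟨a, j, hj⟩ := LL3_face hn hN hb1
  have hM0 : (0 : ℝ) ≤ M := Nat.cast_nonneg M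
  have hball : ball b.1 (M + 1) ⊆ cube N := hN' b.1 fun j => by push_cast; linarith only [a j]
  have hc : b.1 ∈ cube N := hball (mem_ball.mpr (Near.refl _ _))
  refine Finset.mem_product.mpr ⟨Finset.mem_union.mpr ?_, Finset.mem_univ _⟩
  by_cases g1 : ∃ i, i ≠ axis (n j) ∧ b.1 i % ((2 * L + 2 : ℕ) : ℤ) = L + 1
  · obtain ⟨i, hi, hi'⟩ := g1
    exact Or.inl (Finset.mem_biUnion.mpr ⟨(j, i), Finset.mem_univ _,
      Finset.mem_filter.mpr ⟨hc, hj, hi, hi'⟩⟩)
  push Not at g1
  by_cases g2 : ∃ j', j' ≠ j ∧ N * t j' - 2 * κ * N < dot (n j') b.1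
  · obtain ⟨j', hj', hlt⟩ := g2
    refine Or.inr (Finset.mem_biUnion.mpr ⟨(j, j'), Finset.mem_univ _,
      Finset.mem_filter.mpr ⟨hc, ⟨hj', fun hneg => ?_⟩, hj, abs_le.mpr ⟨by linarith only [hlt], ?_⟩⟩⟩)
    · simp only at hneg
      have e : dot (n j') b.1 = -dot (n j) b.1 := by
        rw [hneg]; unfold dot; simp
      have := (abs_le.mp hj).1
      have h3 := mul_le_mul_of_nonneg_left (hκ j) (Nat.cast_nonneg (α := ℝ) N)
      linarith [h1 j']
    · linarith [a j']
  push Not at g2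
  exfalso
  obtain ⟨c, c1, c2, c3⟩ := LL3_centre (hn j) (N * t j) L hj g1
  have hnear : Near M b.1 c := LL3_tile_near c3 (by omega) (by omega)
  have hp : (j, c) ∈ LL3_fam n t κ L N := by
    refine Finset.mem_filter.mpr ⟨Finset.mem_product.mpr ⟨Finset.mem_univ _,
      hball (mem_ball.mpr (hnear.symm.mono (by omega)))⟩, c1, c2, fun j' hj' => ?_⟩
    have := (abs_le.mp (LL3_near (hn j') hnear)).1
    have := g2 j' hj'
    simp only
    linarith
  refine hb2 (mem_bonds.mpr (Or.inl (Finset.mem_biUnion.mpr ⟨(j, c), hp, mem_tile.mpr fun i => ?_⟩)))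
  have := mem_tile.mp c3 i
  simp only
  split_ifs at this ⊢
  · push_cast at this; omega
  · exact this

theorem LL3_ev {a : ℝ} (ha : 0 < a) (b : ℝ) : ∀ᶠ N : ℕ in atTop, b ≤ a * N := by
  filter_upwards [tendsto_natCast_atTop_atTop.eventually_ge_atTop (b / a)] with N hN
  rwa [div_le_iff₀' ha] at hN

theorem exists_tiles {J : ℕ} {n : Fin J → E3} {t : Fin J → ℝ} {v ω : ℝ} (h : Poly n t v ω)
    {δ : ℝ} (hδ : 0 < δ) : ∀ᶠ L : ℕ in atTop, ∀ M : ℕ, 2 * L + 6 ≤ M → ∀ᶠ N : ℕ in atTop,
    ∃ 𝒯 : Finset (Fin J × Site),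
      (∀ p ∈ 𝒯, tile p.2 (axis (n p.1)) L M ⊆ cube N ∧ |dot (n p.1) p.2 - N * t p.1| ≤ 1 ∧
        ∀ x ∈ tile p.2 (axis (n p.1)) (L + 1) (M + 1),
          (x ∈ latP N n t N ↔ dot (n p.1) x ≤ N * t p.1)) ∧
      (∀ p ∈ 𝒯, ∀ p' ∈ 𝒯, p ≠ p' → ∀ x ∈ tile p.2 (axis (n p.1)) L M,
        ∀ y ∈ tile p'.2 (axis (n p'.1)) L M, ¬ Near 1 x y) ∧
      ∑ p ∈ 𝒯, t p.1 * (2 * (L : ℝ) + 1) ^ 2 / |n p.1 (axis (n p.1))| ≤
        (3 * v + δ) * (N : ℝ) ^ 2 ∧
      ((cut (latP N n t N) \ bonds (𝒯.biUnion fun p => tile p.2 (axis (n p.1)) L M)).card : ℝ) ≤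
        δ * (N : ℝ) ^ 2 := by
  have hC : ∀ p : Fin J × Fin J, ∃ C : ℝ, 0 < C ∧ ∀ (N : ℕ) (s s' a : ℝ), 0 ≤ a →
      (((cube N).filter fun x => (p.2 ≠ p.1 ∧ n p.2 ≠ -n p.1) ∧ |dot (n p.1) x - s| ≤ 1 ∧
        |dot (n p.2) x - s'| ≤ a).card : ℝ) ≤ C * (N + 1) * (a + 1) := by
    intro p
    by_cases hp : p.2 ≠ p.1 ∧ n p.2 ≠ -n p.1
    · obtain ⟨C, hC, hb⟩ := double_slab (h.unit p.1) (h.unit p.2) (fun e => hp.1 (h.inj e)) hp.2
      refine ⟨C, hC, fun N s s' a ha => le_trans ?_ (hb N s s' a ha)⟩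
      refine Nat.cast_le.mpr (Finset.card_le_card fun x hx => ?_)
      rw [Finset.mem_filter] at hx ⊢
      exact ⟨hx.1, hx.2.2⟩
    · refine ⟨1, one_pos, fun N s s' a ha => ?_⟩
      rw [Finset.filter_false_of_mem fun x _ hx => hp hx.1]
      simp only [Finset.card_empty, Nat.cast_zero]; positivity
  choose C hC0 hC using hC
  set Cs := ∑ p, C p with hCs
  have hCs0 : 0 ≤ Cs := Finset.sum_nonneg fun p _ => (hC0 p).le
  have hκ : ∃ κ : ℝ, 0 < κ ∧ (∀ j, 2 * κ ≤ t j) ∧ 12 * Cs * κ ≤ δ / 3 := by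
    have a1 : ∀ᶠ κ in 𝓝 (0 : ℝ), ∀ j, 2 * κ ≤ t j := by
      rw [eventually_all]
      intro j
      filter_upwards [eventually_le_nhds (half_pos (h.pos j))] with κ hκ using by linarith
    have a2 : ∀ᶠ κ in 𝓝 (0 : ℝ), κ ≤ δ / (36 * Cs + 1) := eventually_le_nhds (by positivity)
    obtain ⟨κ, ⟨b1, b2⟩, b3⟩ :=
      ((((a1.and a2).filter_mono nhdsWithin_le_nhds) : ∀ᶠ κ in 𝓝[>] (0 : ℝ), _).and
        self_mem_nhdsWithin).exists
    refine ⟨κ, b3, b1, ?_⟩
    rw [le_div_iff₀ (by positivity)] at b2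
    have : 0 < κ := b3
    nlinarith only [b3, b2]
  obtain ⟨κ, hκ0, hκt, hκC⟩ := hκ
  filter_upwards [LL3_ev hδ (3 * (1620 * J))] with L hL M hM
  have e1 : ∀ᶠ N : ℕ in atTop, ∀ j, 1 ≤ t j * N := eventually_all.mpr fun j => LL3_ev (h.pos j) 1
  filter_upwards [near_poly h 1, near_poly h (M + 1), tiles_area h hκ0 hδ L, e1,
    LL3_ev hκ0 (3 * (2 * M + 1) + 2), LL3_ev hδ (3 * (405 * J + 12 * Cs)), eventually_ge_atTop 1]
    with N n1 n2 n3 n4 n5 n6 n7
  have hM0 : (0 : ℝ) ≤ M := Nat.cast_nonneg M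
  have hpl : ∀ p ∈ LL3_fam n t κ L N, |dot (n p.1) p.2 - N * t p.1| ≤ 1 := fun p hp =>
    (LL3_lift_spec (h.unit p.1) _ (Finset.mem_filter.mp hp).2.2.1).trans (by norm_num)
  have hoth : ∀ p ∈ LL3_fam n t κ L N, ∀ j, j ≠ p.1 → dot (n j) p.2 ≤ N * t j - κ * N :=
    fun p hp => (Finset.mem_filter.mp hp).2.2.2
  refine ⟨LL3_fam n t κ L N, fun p hp => ?_, fun p hp p' hp' hne x hx y hy hxy => ?_,
    n3 _ hpl hoth fun p hp p' hp' hne hj => ?_, ?_⟩
  · have hball : ball p.2 (M + 1) ⊆ cube N := by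
      refine n2 p.2 fun j => ?_
      push_cast
      by_cases hj : j = p.1
      · rw [hj]; linarith only [(abs_le.mp (hpl p hp)).2]
      · linarith only [n5, hj, hoth p hp j hj]
    refine ⟨fun x hx => hball (mem_ball.mpr (LL3_tile_near hx (by omega) (by omega))), hpl p hp,
      fun x hx => ⟨fun hx' => (Finset.mem_filter.mp hx').2 p.1, fun hx' => ?_⟩⟩
    have hnear : Near (M + 1) x p.2 := LL3_tile_near hx (by omega) le_rfl
    refine Finset.mem_filter.mpr ⟨hball (mem_ball.mpr hnear), fun j => ?_⟩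
    by_cases hj : j = p.1
    · rw [hj]; exact hx'
    · have := (abs_le.mp (LL3_near (h.unit j) hnear)).2
      push_cast at this
      linarith only [n5, this, hj, hoth p hp j hj]
  · by_cases hj : p.1 = p'.1
    · obtain ⟨i, hi, hd⟩ := LL3_sep hp hp' hne hj
      have a1 := mem_tile.mp hx i
      have a2 := mem_tile.mp hy i
      rw [← hj] at a2
      rw [if_neg hi] at a1 a2
      have a3 := hxy i
      push_cast at a3
      rw [abs_le] at a1 a2 a3
      rw [le_abs] at hd
      omega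
    · have a1 : Near M x p.2 := LL3_tile_near hx (by omega) le_rfl
      have a2 : Near M y p'.2 := LL3_tile_near hy (by omega) le_rfl
      have a3 := (abs_le.mp (LL3_near (h.unit p.1) ((a1.symm.trans hxy).trans a2))).2
      push_cast at a3
      linarith only [n5, a3, hj, hoth p' hp' p.1 hj, (abs_le.mp (hpl p hp)).1]
  · obtain ⟨i, hi, hd⟩ := LL3_sep hp hp' hne hj
    exact ⟨i, hi, by omega⟩
  · have hsub := LL3_cover (L := L) h.unit hM n1 n2 hκt (fun j => by linarith only [n4 j])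
      (by linarith only [n5])
    have hN1 : (1 : ℝ) ≤ N := by exact_mod_cast n7
    refine (Nat.cast_le.mpr (Finset.card_le_card hsub)).trans ?_
    rw [Finset.card_product, Finset.card_univ, Fintype.card_fin]
    push_cast
    have q0 : (0 : ℝ) < ((2 * L + 2 : ℕ) : ℝ) := by positivity
    have g1 : (((Finset.univ : Finset (Fin J × Fin 3)).biUnion fun p => (cube N).filter fun x =>
          |dot (n p.1) x - N * t p.1| ≤ 1 ∧ p.2 ≠ axis (n p.1) ∧
            x p.2 % ((2 * L + 2 : ℕ) : ℤ) = L + 1).card : ℝ) ≤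
        J * 3 * ((4 * N / ((2 * L + 2 : ℕ) : ℝ) + 1) * ((4 * N + 1) * 9)) := by
      refine (Nat.cast_le.mpr Finset.card_biUnion_le).trans ?_
      rw [Nat.cast_sum]
      have := Finset.sum_le_card_nsmul (Finset.univ : Finset (Fin J × Fin 3)) _ _ fun p _ =>
        LL3_gap (h.unit p.1) N (N * t p.1) p.2 (q := 2 * L + 2) (by omega) (L + 1)
      rw [Finset.card_univ, Fintype.card_prod, Fintype.card_fin, Fintype.card_fin,
        nsmul_eq_mul, Nat.cast_mul] at this
      exact this
    have g2 : (((Finset.univ : Finset (Fin J × Fin J)).biUnion fun p => (cube N).filter fun x =>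
          (p.2 ≠ p.1 ∧ n p.2 ≠ -n p.1) ∧ |dot (n p.1) x - N * t p.1| ≤ 1 ∧
            |dot (n p.2) x - N * t p.2| ≤ 2 * κ * N + 1).card : ℝ) ≤
        Cs * ((N + 1) * (2 * κ * N + 1 + 1)) := by
      refine (Nat.cast_le.mpr Finset.card_biUnion_le).trans ?_
      rw [Nat.cast_sum, hCs, Finset.sum_mul]
      refine Finset.sum_le_sum fun p _ => ?_
      rw [← mul_assoc]
      exact hC p N _ _ _ (by positivity)
    have g3 := Nat.cast_le (α := ℝ).mpr (Finset.card_union_le
      ((Finset.univ : Finset (Fin J × Fin 3)).biUnion fun p => (cube N).filter fun x =>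
          |dot (n p.1) x - N * t p.1| ≤ 1 ∧ p.2 ≠ axis (n p.1) ∧
            x p.2 % ((2 * L + 2 : ℕ) : ℤ) = L + 1)
      ((Finset.univ : Finset (Fin J × Fin J)).biUnion fun p => (cube N).filter fun x =>
          (p.2 ≠ p.1 ∧ n p.2 ≠ -n p.1) ∧ |dot (n p.1) x - N * t p.1| ≤ 1 ∧
            |dot (n p.2) x - N * t p.2| ≤ 2 * κ * N + 1))
    rw [Nat.cast_add] at g3
    have hJ : (0 : ℝ) ≤ J := Nat.cast_nonneg J
    have u1 : 1620 * (J : ℝ) / ((2 * L + 2 : ℕ) : ℝ) ≤ δ / 3 := by
      rw [div_le_iff₀ q0]; push_cast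
      have : (0 : ℝ) ≤ L := Nat.cast_nonneg L
      nlinarith only [hδ, hL]
    have v1 : (J : ℝ) * 3 * ((4 * N / ((2 * L + 2 : ℕ) : ℝ) + 1) * ((4 * N + 1) * 9)) * 3 ≤
        δ / 3 * (N : ℝ) ^ 2 + 405 * J * N := by
      calc (J : ℝ) * 3 * ((4 * N / ((2 * L + 2 : ℕ) : ℝ) + 1) * ((4 * N + 1) * 9)) * 3
          ≤ (J : ℝ) * 3 * ((4 * N / ((2 * L + 2 : ℕ) : ℝ) + 1) * ((5 * N) * 9)) * 3 := by
            gcongr; linarith only [hN1]
        _ = 1620 * (J : ℝ) / ((2 * L + 2 : ℕ) : ℝ) * (N : ℝ) ^ 2 + 405 * J * N := by ring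
        _ ≤ _ := by gcongr
    have v2 : Cs * ((N + 1) * (2 * κ * N + 1 + 1)) * 3 ≤ δ / 3 * (N : ℝ) ^ 2 + 12 * Cs * N := by
      calc Cs * ((N + 1) * (2 * κ * N + 1 + 1)) * 3
          ≤ Cs * ((2 * N) * (2 * κ * N + 1 + 1)) * 3 := by gcongr; linarith only [hN1]
        _ = 12 * Cs * κ * (N : ℝ) ^ 2 + 12 * Cs * N := by ring
        _ ≤ _ := by gcongr
    have v3 : (405 * J + 12 * Cs) * (N : ℝ) ≤ δ / 3 * (N : ℝ) ^ 2 := by nlinarith only [n6]
    push_cast at g1 g2 g3 v1
    nlinarith only [g2, v2, v3, g1, g3, v1]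

end Pool.Agent.Work.MP_b59478_pr
end
end
end

-- merged part: Pool.Agent.Work.MP_b59478_pr.DG2
section
/-! Almost monotonicity. Let e be the supremum of the integrals over E of dv Psi over the fields with
norm at most 1 (finite by int_dv_le). Take Psi0 within eta1 of the supremum, r0 such that Psi0
oscillates by at most eta1 on sets of diameter r0. For j with Q j nonempty pick x j in Q j,
Psi0 (x j) = a n with a in [0, 1], n a unit vector. For any admissible nonzero vectors v j let S j be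
the set in Mono, O j the open set of x in Q j with x + v j in Q j, f j = approx_ind, F j =
exists_line (its support is in Q j by convexity). The field Psi0 - sum of (theta / norm (v j)) F j v j
has norm at most 1 + eta1: |a n - z u| <= 1 for a unit u with theta <= inner u n and z in [0, theta].
The integral over E of dv (F v) is the integral of f x (1_E x - 1_E (x + v)), at most
- vol S + eps. Hence theta * sum of vol (S j) / norm (v j) <= eta1 (1 + e) for every choice; let d j
be the supremum over v of vol S / norm v.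
-/

set_option autoImplicit false

noncomputable section

namespace Pool.Agent.Work.MP_b59478_pr

open Classical Filter Topology MeasureTheory
open scoped symmDiff Pointwise

/-- The set measured in `Mono`. -/
def DG2_S (E Q : Set E3) (v : E3) : Set E3 := {x | x ∈ Q ∧ x + v ∈ Q ∧ x ∉ E ∧ x + v ∈ E}

theorem DG2_flux {E Q : Set E3} (hE : MeasurableSet E) (hfin : volume E ≠ ⊤) (hQ : IsOpen Q)
    (hc : Convex ℝ Q) (v : E3) {ε : ℝ} (hε : 0 < ε) :
    ∃ F : E3 → ℝ, ContDiff ℝ 1 F ∧ HasCompactSupport F ∧ (∀ x, 0 ≤ F x ∧ F x ≤ 1) ∧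
      (∀ x, F x ≠ 0 → x ∈ Q) ∧
      ∫ x in E, dv (fun x => F x • v) x ≤ -volume.real (DG2_S E Q v) + ε := by
  have hadd : Continuous fun x : E3 => x + v := by fun_prop
  set E' : Set E3 := (fun x => x + v) ⁻¹' E with hE'
  have hE'm : MeasurableSet E' := hadd.measurable hE
  have hO : IsOpen {x : E3 | x ∈ Q ∧ x + v ∈ Q} := hQ.inter (hQ.preimage hadd)
  have hS : MeasurableSet (DG2_S E Q v) :=
    hQ.measurableSet.inter ((hQ.preimage hadd).measurableSet.inter (hE.compl.inter hE'm))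
  have hSfin : volume (DG2_S E Q v) ≠ ⊤ := by
    refine ne_top_of_le_ne_top hfin ?_
    rw [← measure_preimage_add_right volume v E]
    exact measure_mono fun x hx => hx.2.2.2
  obtain ⟨f, hf, hfc, h01, hfO, hfi⟩ :=
    approx_ind hS hO (fun x hx => ⟨hx.1, hx.2.1⟩) hSfin hε
  obtain ⟨F, hF, hFc, hFd, hF01, hFs⟩ := exists_line hf hfc h01 v
  refine ⟨F, hF, hFc, hF01, fun x hx => ?_, ?_⟩
  · obtain ⟨t, ht, hx⟩ := hFs x hx
    obtain ⟨h1, h2⟩ := hfO _ hx
    have := hc h1 h2 (sub_nonneg.2 ht.2) ht.1 (by ring)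
    convert this using 1
    module
  · have hfI : Integrable f := hf.continuous.integrable_of_hasCompactSupport hfc
    have hfI' : Integrable fun x => f (x - v) := hfI.comp_sub_right v
    have hSI : Integrable ((DG2_S E Q v).indicator (1 : E3 → ℝ)) :=
      (integrable_indicator_iff hS).2 (integrableOn_const hSfin)
    have e1 : ∫ x in E, dv (fun x => F x • v) x = (∫ x in E, f x) - ∫ x in E, f (x - v) := by
      rw [← integral_sub hfI.integrableOn hfI'.integrableOn]
      refine integral_congr_ae (Eventually.of_forall fun x => ?_)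
      simp only [dv_smul_const hF, hFd]
    have e2 : ∫ x in E, f (x - v) = ∫ x in E', f x := by
      rw [← integral_indicator hE, ← integral_indicator hE'm,
        ← integral_add_right_eq_self (fun x => E.indicator (fun x => f (x - v)) x) v]
      refine integral_congr_ae (Eventually.of_forall fun x => ?_)
      by_cases hx : x + v ∈ E
      · have hx' : x ∈ E' := hx
        simp [Set.indicator_of_mem hx, Set.indicator_of_mem hx']
      · have hx' : x ∉ E' := hx
        simp [Set.indicator_of_notMem hx, Set.indicator_of_notMem hx']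
    rw [e1, e2, ← integral_indicator hE, ← integral_indicator hE'm,
      ← integral_sub (hfI.indicator hE) (hfI.indicator hE'm)]
    have hA : Integrable fun x => |f x - (DG2_S E Q v).indicator 1 x| := (hfI.sub hSI).abs
    have e3 : ∫ x, (E.indicator f x - E'.indicator f x) ≤
        ∫ x, (|f x - (DG2_S E Q v).indicator 1 x| - (DG2_S E Q v).indicator 1 x) := by
      refine integral_mono ((hfI.indicator hE).sub (hfI.indicator hE'm)) (hA.sub hSI) fun x => ?_
      by_cases hx : x ∈ DG2_S E Q v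
      · have h1 : x ∉ E := hx.2.2.1
        have h2 : x ∈ E' := hx.2.2.2
        simp only [Set.indicator_of_mem hx, Set.indicator_of_notMem h1, Set.indicator_of_mem h2,
          Pi.one_apply]
        linarith [neg_le_abs (f x - 1)]
      · simp only [Set.indicator_of_notMem hx, sub_zero]
        have h1 : E.indicator f x ≤ f x := Set.indicator_le_self' (fun y _ => (h01 y).1) x
        have h2 : 0 ≤ E'.indicator f x := Set.indicator_nonneg (fun y _ => (h01 y).1) x
        linarith [le_abs_self (f x)]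
    rw [integral_sub hA hSI, integral_indicator_one hS] at e3
    linarith

theorem DG2_norm {n u : E3} (hn : ‖n‖ = 1) (hu : ‖u‖ = 1) {a z θ : ℝ} (ha : 0 ≤ a) (ha1 : a ≤ 1)
    (hz : 0 ≤ z) (hzθ : z ≤ θ) (hθ1 : θ ≤ 1) (h : θ ≤ inner ℝ u n) : ‖a • n - z • u‖ ≤ 1 := by
  have e : ‖a • n - z • u‖ ^ 2 = a ^ 2 - 2 * (a * z * inner ℝ u n) + z ^ 2 := by
    rw [norm_sub_sq_real, norm_smul, norm_smul, hn, hu, inner_smul_left, inner_smul_right,
      real_inner_comm]
    simp only [Real.norm_eq_abs, mul_one, sq_abs, conj_trivial]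
    ring
  have h1 : a * z * z ≤ a * z * inner ℝ u n :=
    mul_le_mul_of_nonneg_left (hzθ.trans h) (mul_nonneg ha hz)
  have hz1 : z ^ 2 ≤ 1 := by nlinarith only [hzθ, hθ1, hz]
  have h2 : ‖a • n - z • u‖ ^ 2 ≤ 1 := by
    rw [e]
    by_cases h3 : 1 / 2 ≤ a
    · nlinarith only [ha1, h1, h3, ha, sq_nonneg z]
    · nlinarith only [h1, hz1, ha, ha1, h3, sq_nonneg z]
  exact (sq_le_one_iff₀ (norm_nonneg _)).1 h2

theorem DG2_unit (w : E3) : ∃ n : E3, ‖n‖ = 1 ∧ w = ‖w‖ • n := by
  by_cases hw : w = 0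
  · exact ⟨EuclideanSpace.single 0 1, by simp, by simp [hw]⟩
  · have h : ‖w‖ ≠ 0 := norm_ne_zero_iff.2 hw
    refine ⟨‖w‖⁻¹ • w, by simp [norm_smul, h], ?_⟩
    rw [smul_smul, mul_inv_cancel₀ h, one_smul]

/-- From a bound for every choice to a bound for the suprema. -/
theorem DG2_sup {ι α : Type} (t : Finset ι) (A : ι → Set α) (hA : ∀ j, (A j).Nonempty)
    (g : ι → α → ℝ) (hg : ∀ j v, 0 ≤ g j v) {M δ : ℝ} (hδ : 0 < δ)
    (h : ∀ v : ι → α, (∀ j, v j ∈ A j) → ∑ j ∈ t, g j (v j) ≤ M) :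
    ∃ d : ι → ℝ, (∀ j, 0 ≤ d j) ∧ ∑ j ∈ t, d j ≤ M + δ ∧ ∀ j ∈ t, ∀ v ∈ A j, g j v ≤ d j := by
  choose v0 hv0 using hA
  have hb : ∀ j ∈ t, BddAbove (g j '' A j) := by
    intro j hj
    refine ⟨M, ?_⟩
    rintro _ ⟨v, hv, rfl⟩
    have h1 := h (Function.update v0 j v) fun i => by
      by_cases hi : i = j
      · subst hi
        simpa using hv
      · simpa [Function.update_of_ne hi] using hv0 i
    have h2 := Finset.single_le_sum (f := fun i => g i (Function.update v0 j v i))
      (fun i _ => hg _ _) hj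
    simp only [Function.update_self] at h2
    exact h2.trans h1
  have hε : 0 < δ / (t.card + 1) := by positivity
  have hx : ∀ j, ∃ v ∈ A j, sSup (g j '' A j) - δ / (t.card + 1) < g j v := by
    intro j
    obtain ⟨_, ⟨v, hv, rfl⟩, h1⟩ := exists_lt_of_lt_csSup ((Set.nonempty_of_mem (hv0 j)).image (g j))
      (sub_lt_self (sSup (g j '' A j)) hε)
    exact ⟨v, hv, h1⟩
  choose v hv hv' using hx
  refine ⟨fun j => sSup (g j '' A j), fun j => ?_, ?_, fun j hj w hw => le_csSup (hb j hj) ⟨w, hw, rfl⟩⟩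
  · refine Real.sSup_nonneg ?_
    rintro _ ⟨w, -, rfl⟩
    exact hg _ _
  · have h1 : ∑ j ∈ t, sSup (g j '' A j) ≤ ∑ j ∈ t, (g j (v j) + δ / (t.card + 1)) :=
      Finset.sum_le_sum fun j _ => by linarith [hv' j]
    rw [Finset.sum_add_distrib, Finset.sum_const, nsmul_eq_mul] at h1
    have h2 : (t.card : ℝ) * (δ / (t.card + 1)) ≤ δ := by
      rw [mul_div_assoc', div_le_iff₀ (by positivity)]
      nlinarith only [hδ]
    linarith only [h1, h2, h v hv]

/-- A nearly optimal field. -/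
theorem DG2_opt {P : ℝ} (hP : 0 ≤ P) {E : Set E3} (h : InK P E) {η : ℝ} (hη : 0 < η) :
    ∃ Ψ0 : E3 → E3, Fld Ψ0 ∧ (∀ x, ‖Ψ0 x‖ ≤ 1) ∧ ∀ Ψ : E3 → E3, Fld Ψ → (∀ x, ‖Ψ x‖ ≤ 1 + η) →
      ∫ x in E, dv Ψ x ≤ (∫ x in E, dv Ψ0 x) + η * (1 + 3 * P) := by
  set T : Set ℝ := {y | ∃ Ψ : E3 → E3, Fld Ψ ∧ (∀ x, ‖Ψ x‖ ≤ 1) ∧ y = ∫ x in E, dv Ψ x} with hT
  have hz : Fld (fun _ => (0 : E3)) := ⟨contDiff_const, HasCompactSupport.zero⟩
  have hne : T.Nonempty := ⟨_, fun _ => 0, hz, fun x => by simp, rfl⟩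
  have hub : ∀ y ∈ T, y ≤ 3 * P := by
    rintro _ ⟨Ψ, h1, h2, rfl⟩
    simpa using int_dv_le hP h h1 h2
  have he : sSup T ≤ 3 * P := csSup_le hne hub
  obtain ⟨_, ⟨Ψ0, h1, h2, rfl⟩, h3⟩ := exists_lt_of_lt_csSup hne (sub_lt_self (sSup T) hη)
  refine ⟨Ψ0, h1, h2, fun Ψ hΨ hn => ?_⟩
  have hp : 0 < 1 + η := by linarith
  have h4 : (∫ x in E, dv (fun x => (1 + η)⁻¹ • Ψ x) x) ≤ sSup T := by
    refine le_csSup ⟨_, hub⟩ ⟨_, hΨ.const_smul _, fun x => ?_, rfl⟩
    rw [norm_smul, Real.norm_eq_abs, abs_of_pos (inv_pos.2 hp), inv_mul_le_iff₀ hp, mul_one]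
    exact hn x
  simp only [dv_const_smul hΨ, integral_const_mul] at h4
  rw [inv_mul_le_iff₀ hp] at h4
  nlinarith only [h3, h4, hη, he]

theorem defect {P θ η : ℝ} (hP : 0 ≤ P) {E : Set E3} (h : InK P E) (hθ : 0 < θ) (hθ1 : θ ≤ 1)
    (hη : 0 < η) : ∃ r0 : ℝ, 0 < r0 ∧ ∀ (t : Finset E3) (Q : E3 → Set E3),
    (∀ j ∈ t, IsOpen (Q j) ∧ Convex ℝ (Q j) ∧ ∀ x ∈ Q j, ∀ y ∈ Q j, ‖x - y‖ ≤ r0) →
    (∀ i ∈ t, ∀ j ∈ t, i ≠ j → Disjoint (Q i) (Q j)) →
    ∃ (n : E3 → E3) (d : E3 → ℝ), (∀ j, ‖n j‖ = 1 ∧ 0 ≤ d j) ∧ ∑ j ∈ t, d j ≤ η ∧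
      ∀ j ∈ t, Mono E (Q j) (n j) θ (d j) := by
  set η1 : ℝ := θ * η / (4 * (1 + 3 * P)) with hη1
  have hP1 : 0 < 1 + 3 * P := by linarith
  have hη1p : 0 < η1 := by positivity
  have hη1e : η1 * (1 + 3 * P) = θ * η / 4 := by
    rw [hη1]
    field_simp
  obtain ⟨Ψ0, hΨ0, hn0, hopt⟩ := DG2_opt hP h hη1p
  obtain ⟨δ, hδ, huc⟩ := Metric.uniformContinuous_iff.1
    (hΨ0.cs.uniformContinuous_of_continuous hΨ0.cd.continuous) η1 hη1p
  refine ⟨δ / 2, by positivity, fun t Q hQ hdis => ?_⟩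
  have hx : ∀ j, ∃ x : E3, (Q j).Nonempty → x ∈ Q j := by
    intro j
    by_cases hj : (Q j).Nonempty
    · exact ⟨hj.some, fun _ => hj.some_mem⟩
    · exact ⟨0, fun h' => absurd h' hj⟩
  choose x hx using hx
  choose n hn hn' using fun j => DG2_unit (Ψ0 (x j))
  have key : ∀ v : E3 → E3, (∀ j, v j ∈ {v : E3 | v ≠ 0 ∧ θ * ‖v‖ ≤ inner ℝ v (n j)}) →
      ∑ j ∈ t, volume.real (DG2_S E (Q j) (v j)) / ‖v j‖ ≤ η / 2 := by
    intro v hv
    have hvp : ∀ j, 0 < ‖v j‖ := fun j => norm_pos_iff.2 (hv j).1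
    set ε : ℝ := η / (4 * (t.card + 1)) with hε
    have hεp : 0 < ε := by positivity
    have hF : ∀ j, ∃ F : E3 → ℝ, j ∈ t → ContDiff ℝ 1 F ∧ HasCompactSupport F ∧
        (∀ x, 0 ≤ F x ∧ F x ≤ 1) ∧ (∀ x, F x ≠ 0 → x ∈ Q j) ∧
        ∫ x in E, dv (fun x => F x • v j) x ≤
          -volume.real (DG2_S E (Q j) (v j)) + ε * ‖v j‖ := by
      intro j
      by_cases hj : j ∈ t
      · obtain ⟨F, hF⟩ := DG2_flux h.meas h.finite (hQ j hj).1 (hQ j hj).2.1 (v j)
          (mul_pos hεp (hvp j))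
        exact ⟨F, fun _ => hF⟩
      · exact ⟨0, fun h' => absurd h' hj⟩
    choose F hF using hF
    have hfl : ∀ j ∈ t, Fld fun y => F j y • v j :=
      fun j hj => fld_smul_const (hF j hj).1 (hF j hj).2.1 _
    have hfl' : ∀ j ∈ t, Fld fun y => (θ / ‖v j‖) • (F j y • v j) :=
      fun j hj => (hfl j hj).const_smul _
    have hsum : Fld fun y => ∑ j ∈ t, (θ / ‖v j‖) • (F j y • v j) := Fld.sum t hfl'
    have hnorm : ∀ y, ‖Ψ0 y - ∑ j ∈ t, (θ / ‖v j‖) • (F j y • v j)‖ ≤ 1 + η1 := by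
      intro y
      by_cases hy : ∃ j ∈ t, y ∈ Q j
      · obtain ⟨j, hj, hy⟩ := hy
        rw [Finset.sum_eq_single_of_mem j hj]
        · have hxj : x j ∈ Q j := hx j ⟨y, hy⟩
          have h1 : dist (Ψ0 y) (Ψ0 (x j)) < η1 := by
            refine huc ?_
            rw [dist_eq_norm]
            linarith only [hδ, (hQ j hj).2.2 y hy _ hxj]
          rw [dist_eq_norm] at h1
          have h01 := (hF j hj).2.2.1 y
          have hu : ‖‖v j‖⁻¹ • v j‖ = 1 := by simp [norm_smul, (hvp j).ne']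
          have h2 := DG2_norm (hn j) hu (norm_nonneg (Ψ0 (x j))) (hn0 _)
            (mul_nonneg hθ.le h01.1) (mul_le_of_le_one_right hθ.le h01.2) hθ1 (by
              rw [inner_smul_left, conj_trivial, le_inv_mul_iff₀ (hvp j), mul_comm]
              exact (hv j).2)
          rw [← hn' j] at h2
          have e : Ψ0 y - (θ / ‖v j‖) • (F j y • v j) =
              (Ψ0 y - Ψ0 (x j)) + (Ψ0 (x j) - (θ * F j y) • (‖v j‖⁻¹ • v j)) := by
            rw [div_eq_mul_inv]
            module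
          rw [e]
          linarith only [h1, h2, norm_add_le (Ψ0 y - Ψ0 (x j)) (Ψ0 (x j) - (θ * F j y) • (‖v j‖⁻¹ • v j))]
        · intro i hi hij
          have h0 : F i y = 0 := by
            by_contra h0
            exact Set.disjoint_left.1 (hdis i hi j hj hij) ((hF i hi).2.2.2.1 y h0) hy
          simp [h0]
      · have h0 : ∑ j ∈ t, (θ / ‖v j‖) • (F j y • v j) = 0 := by
          refine Finset.sum_eq_zero fun j hj => ?_
          have h0 : F j y = 0 := by
            by_contra h0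
            exact hy ⟨j, hj, (hF j hj).2.2.2.1 y h0⟩
          simp [h0]
        rw [h0, sub_zero]
        linarith only [hη1p, hn0 y]
    have h1 := hopt _ (hΨ0.sub hsum) hnorm
    simp only [dv_sub hΨ0 hsum, dv_sum t hfl'] at h1
    rw [integral_sub hΨ0.integrable.integrableOn
        (integrable_finsetSum t fun j hj => (hfl' j hj).integrable).integrableOn,
      integral_finsetSum t fun j hj => (hfl' j hj).integrable.integrableOn] at h1
    have h2 : ∑ j ∈ t, ∫ y in E, dv (fun y => (θ / ‖v j‖) • (F j y • v j)) y ≤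
        ∑ j ∈ t, θ * (ε - volume.real (DG2_S E (Q j) (v j)) / ‖v j‖) := by
      refine Finset.sum_le_sum fun j hj => ?_
      simp only [dv_const_smul (hfl j hj), integral_const_mul]
      refine (mul_le_mul_of_nonneg_left (hF j hj).2.2.2.2 (div_pos hθ (hvp j)).le).trans_eq ?_
      have := (hvp j).ne'
      field_simp
      ring
    rw [← Finset.mul_sum, Finset.sum_sub_distrib, Finset.sum_const, nsmul_eq_mul] at h2
    have h3 : (t.card : ℝ) * ε ≤ η / 4 := by
      rw [hε, mul_div_assoc', div_le_iff₀ (by positivity)]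
      nlinarith only [hη]
    refine le_of_mul_le_mul_left ?_ hθ
    nlinarith only [hη1e, h1, h2, hθ, h3]
  obtain ⟨d, hd0, hds, hd⟩ := DG2_sup t (fun j => {v : E3 | v ≠ 0 ∧ θ * ‖v‖ ≤ inner ℝ v (n j)})
    (fun j => ⟨n j, fun h0 => by simpa [h0] using hn j, by
      rw [real_inner_self_eq_norm_sq, hn j]
      linarith⟩)
    (fun j v => volume.real (DG2_S E (Q j) v) / ‖v‖) (fun j v => by positivity)
    (half_pos hη) key
  refine ⟨n, d, fun j => ⟨hn j, hd0 j⟩, by linarith only [hds], fun j hj v hv => ?_⟩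
  by_cases h0 : v = 0
  · subst h0
    have e : {x : E3 | x ∈ Q j ∧ x + 0 ∈ Q j ∧ x ∉ E ∧ x + 0 ∈ E} = ∅ := by
      ext y
      simp only [add_zero, Set.mem_ofPred_eq, Set.mem_empty_iff_false, iff_false]
      exact fun hy => hy.2.2.1 hy.2.2.2
    rw [e]
    simp
  · have h1 := hd j hj v ⟨h0, hv⟩
    rw [div_le_iff₀ (norm_pos_iff.2 h0), mul_comm] at h1
    exact h1

end Pool.Agent.Work.MP_b59478_pr
end
end
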