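import Mathlib

/-! Definitions used in the statement on the three-dimensional Ising droplet. -/

set_option autoImplicit false

noncomputable section

namespace Pool.Agent.Work.MP_b59478_pr

open Classical Filter Topology MeasureTheory

/-- Sites of the cubic lattice. -/
abbrev Site := Fin 3 → ℤ

/-- The pair `(x, i)` is the nearest-neighbour bond between `x` and `x + e_i`. -/
abbrev Bond := Site × Fin 3

/-- Euclidean three-space. -/
abbrev E3 := EuclideanSpace ℝ (Fin 3)

/-- The second endpoint `x + e_i` of the bond `(x, i)`. -/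
def tip (b : Bond) : Site := b.1 + Pi.single b.2 1

/-- The box `[-N, N]^3` of the lattice. -/
def cube (N : ℕ) : Finset Site := Fintype.piFinset fun _ => Finset.Icc (-(N : ℤ)) N

/-- The bonds with at least one endpoint in `Λ`. -/
def bonds (Λ : Finset Site) : Finset Bond :=
  Λ ×ˢ Finset.univ ∪ (Λ ×ˢ Finset.univ).image fun p : Bond => (p.1 - Pi.single p.2 1, p.2)

/-- The spin at `x` of the configuration that is `+1` on `S`, `-1` on `Λ \ S` and equal to the
boundary condition `η` off `Λ`. -/
def spin (Λ : Finset Site) (η : Site → ℝ) (S : Finset Site) (x : Site) : ℝ :=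
  if x ∈ Λ then (if x ∈ S then 1 else -1) else η x

/-- The Boltzmann weight of the ferromagnetic nearest-neighbour Ising model in `Λ`. -/
def weight (β : ℝ) (Λ : Finset Site) (η : Site → ℝ) (S : Finset Site) : ℝ :=
  Real.exp (β * ∑ b ∈ bonds Λ, spin Λ η S b.1 * spin Λ η S (tip b))

/-- The partition function in `Λ` with boundary condition `η`. -/
def partition (β : ℝ) (Λ : Finset Site) (η : Site → ℝ) : ℝ :=
  ∑ S ∈ Λ.powerset, weight β Λ η S

/-- `m` is the spontaneous magnetization: the limit of the mean spin at the origin in the boxes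
`[-N, N]^3` with plus boundary condition. -/
def IsMag (β m : ℝ) : Prop :=
  Tendsto (fun N : ℕ => (∑ S ∈ (cube N).powerset,
      spin (cube N) (fun _ => 1) S 0 * weight β (cube N) (fun _ => 1) S) /
    partition β (cube N) (fun _ => 1)) atTop (𝓝 m)

/-- A coordinate in which `n` has the largest absolute value. -/
def axis (n : E3) : Fin 3 :=
  if |n 1| ≤ |n 0| ∧ |n 2| ≤ |n 0| then 0 else if |n 2| ≤ |n 1| then 1 else 2

/-- The lattice box of half-height `M` in direction `k` and half-width `L` in the other two. -/
def cyl (k : Fin 3) (L M : ℕ) : Finset Site :=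
  Fintype.piFinset fun i => if i = k then Finset.Icc (-(M : ℤ)) M else Finset.Icc (-(L : ℤ)) L

/-- The mixed boundary condition: `+1` where `n · x ≥ 0`, `-1` elsewhere. -/
def mixed (n : E3) (x : Site) : ℝ := if 0 ≤ ∑ i, n i * (x i : ℝ) then 1 else -1

/-- `τ` is the surface tension on unit vectors: the limit, first in the height and then in the
width of the box, of the interface free energy per unit area of the plane orthogonal to `n`. -/
def IsTension (β : ℝ) (τ : E3 → ℝ) : Prop :=
  ∀ n : E3, ‖n‖ = 1 → ∃ f : ℕ → ℝ,
    (∀ L : ℕ, Tendsto (fun M : ℕ => -(|n (axis n)| / (2 * (L : ℝ) + 1) ^ 2) *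
      Real.log (partition β (cyl (axis n) L M) (mixed n) /
        partition β (cyl (axis n) L M) (fun _ => 1))) atTop (𝓝 (f L))) ∧
    Tendsto f atTop (𝓝 (τ n))

/-- The Wulff body `{x : x · n ≤ lam * τ n for all unit n}`. -/
def wulff (τ : E3 → ℝ) (lam : ℝ) : Set E3 :=
  {x | ∀ n : E3, ‖n‖ = 1 → inner ℝ x n ≤ lam * τ n}

/-- The union of the closed unit cubes centred at the sites of `C`. -/
def cubes (C : Finset Site) : Set E3 := {z | ∃ x ∈ C, ∀ i, |z i - (x i : ℝ)| ≤ 1 / 2}

/-- `U` together with the bounded connected components of its complement. -/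
def fill (U : Set E3) : Set E3 :=
  U ∪ {z | z ∉ U ∧ Bornology.IsBounded (connectedComponentIn Uᶜ z)}

/-- Nearest neighbours. -/
def NN (x y : Site) : Prop := ∑ i, |x i - y i| = 1

/-- `C` is a nearest-neighbour connected cluster of `S`. -/
def IsCluster (S C : Finset Site) : Prop :=
  ∃ x ∈ S, ∀ y, y ∈ C ↔ Relation.ReflTransGen (fun a b => a ∈ S ∧ b ∈ S ∧ NN a b) x y

/-- The total magnetization in `[-N, N]^3` of the configuration with plus set `S`. -/
def mag (N : ℕ) (S : Finset Site) : ℤ := ∑ x ∈ cube N, if x ∈ S then 1 else -1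

/-- `m` is a value of the magnetization in `[-N, N]^3` nearest to the real number `t`. -/
def IsNearest (N : ℕ) (t : ℝ) (m : ℤ) : Prop :=
  (∃ S ⊆ cube N, mag N S = m) ∧ ∀ S ⊆ cube N, |(m : ℝ) - t| ≤ |(mag N S : ℝ) - t|

/-- The probability of the event `P` for the Ising measure in `[-N, N]^3` with minus boundary
condition, conditioned on the magnetization being `m`. -/
def condProb (β : ℝ) (N : ℕ) (m : ℤ) (P : Finset Site → Prop) : ℝ :=
  (∑ S ∈ (cube N).powerset.filter fun S => mag N S = m ∧ P S,
      weight β (cube N) (fun _ => -1) S) /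
    ∑ S ∈ (cube N).powerset.filter fun S => mag N S = m, weight β (cube N) (fun _ => -1) S

open Pointwise in
/-- Some cluster `C` of `S` maximising the volume of its filled body has a rescaled interface at
Hausdorff distance more than `ε` from every translate of the boundary of `W`. -/
def Far (N : ℕ) (W : Set E3) (ε : ℝ) (S : Finset Site) : Prop :=
  ∃ C, IsCluster S C ∧
    (∀ C', IsCluster S C' → volume (fill (cubes C')) ≤ volume (fill (cubes C))) ∧
    ENNReal.ofReal ε < ⨅ y : E3,
      Metric.hausdorffEDist ((N : ℝ)⁻¹ • frontier (fill (cubes C))) (y +ᵥ frontier W)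

end Pool.Agent.Work.MP_b59478_pr
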