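import Pool.Agent.Work.MP_b59478_pr.Gas4

-- merged part: Pool.Agent.Work.MP_b59478_pr.Isop
section
/-! Isoperimetry (Loomis-Whitney): card I ^ 2 <= product of the cardinalities of the three coordinate
projections (two Cauchy-Schwarz steps), and each projection injects into cut I (ray_up).
Also geometry of slabs: the points of a column in direction axis n have dot n equally spaced by
|n (axis n)| >= 1/2.
shell_slab: a point of the outer tile outside the inner tile either lies in one of the 8 L + 8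
outer columns, or has |x k - c k| > M with the other coordinates within L, and then
|dot n (x - c)| >= |n k| (M + 1 - 2 L) > 3.
-/

set_option autoImplicit false

noncomputable section

namespace Pool.Agent.Work.MP_b59478_pr

open Classical Filter Topology MeasureTheory
open scoped symmDiff Pointwise

theorem Isop_proj_le (I : Finset Site) (i : Fin 3) :
    (I.image fun x => Function.update x i 0).card ≤ (cut I).card := by
  refine le_trans (Finset.card_le_card ?_)
    (Finset.card_image_le (s := cut I) (f := fun b : Bond => Function.update b.1 i 0))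
  intro u hu
  obtain ⟨y, hy, rfl⟩ := Finset.mem_image.1 hu
  obtain ⟨t, ht⟩ := ray_up hy i
  refine Finset.mem_image.2 ⟨_, ht, ?_⟩
  funext j
  by_cases hj : j = i
  · subst hj; simp
  · simp [Function.update_of_ne hj, Pi.single_eq_of_ne hj]

theorem Isop_pairs (I : Finset Site) :
    ∑ u ∈ I.image (fun x => Function.update x 2 0),
        (I.filter fun x => Function.update x 2 0 = u).card ^ 2 =
      ((I ×ˢ I).filter fun p => Function.update p.1 2 0 = Function.update p.2 2 0).card := by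
  rw [Finset.card_eq_sum_card_fiberwise (f := fun p : Site × Site => Function.update p.1 2 0)
    (t := I.image fun x => Function.update x 2 0)]
  · refine Finset.sum_congr rfl fun u _ => ?_
    rw [sq, ← Finset.card_product]
    congr 1
    ext p
    simp only [Finset.mem_product, Finset.mem_filter]
    constructor
    · rintro ⟨⟨h1, h2⟩, h3, h4⟩
      exact ⟨⟨⟨h1, h3⟩, h2.trans h4.symm⟩, h2⟩
    · rintro ⟨⟨⟨h1, h3⟩, h2⟩, h4⟩
      exact ⟨⟨h1, h4⟩, h3, h2.symm.trans h4⟩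
  · intro p hp
    have hp' := Finset.mem_filter.1 (Finset.mem_coe.1 hp)
    exact Finset.mem_coe.2 (Finset.mem_image.2 ⟨p.1, (Finset.mem_product.1 hp'.1).1, rfl⟩)

theorem Isop_pairs_le (I : Finset Site) :
    ((I ×ˢ I).filter fun p => Function.update p.1 2 0 = Function.update p.2 2 0).card ≤
      (I.image fun x => Function.update x 1 0).card *
        (I.image fun x => Function.update x 0 0).card := by
  rw [← Finset.card_product]
  refine Finset.card_le_card_of_injOn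
    (fun p : Site × Site => (Function.update p.1 1 0, Function.update p.2 0 0)) ?_ ?_
  · intro p hp
    have hp' := Finset.mem_product.1 (Finset.mem_filter.1 (Finset.mem_coe.1 hp)).1
    exact Finset.mem_coe.2 (Finset.mem_product.2
      ⟨Finset.mem_image.2 ⟨p.1, hp'.1, rfl⟩, Finset.mem_image.2 ⟨p.2, hp'.2, rfl⟩⟩)
  · intro p hp q hq hpq
    have hp' := (Finset.mem_filter.1 (Finset.mem_coe.1 hp)).2
    have hq' := (Finset.mem_filter.1 (Finset.mem_coe.1 hq)).2
    have h1 := congrArg Prod.fst hpq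
    have h2 := congrArg Prod.snd hpq
    have a0 := congrFun hp' 0
    have a1 := congrFun hp' 1
    have b0 := congrFun hq' 0
    have b1 := congrFun hq' 1
    have c0 := congrFun h1 0
    have c2 := congrFun h1 2
    have d1 := congrFun h2 1
    have d2 := congrFun h2 2
    simp at a0 a1 b0 b1 c0 c2 d1 d2
    refine Prod.ext ?_ ?_
    · funext j
      fin_cases j
      · exact c0
      · exact a1.trans (d1.trans b1.symm)
      · exact c2
    · funext j
      fin_cases j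
      · exact a0.symm.trans (c0.trans b0)
      · exact d1
      · exact d2

theorem iso (I : Finset Site) : I.card ^ 2 ≤ (cut I).card ^ 3 := by
  have h1 : I.card = ∑ u ∈ I.image (fun x => Function.update x 2 0),
      (I.filter fun x => Function.update x 2 0 = u).card :=
    Finset.card_eq_sum_card_fiberwise (f := fun x : Site => Function.update x 2 0)
      (fun x hx => Finset.mem_coe.2 (Finset.mem_image.2 ⟨x, Finset.mem_coe.1 hx, rfl⟩))
  have h2 := sq_sum_le_card_mul_sum_sq (s := I.image (fun x => Function.update x 2 0))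
    (f := fun u => (I.filter fun x => Function.update x 2 0 = u).card)
  rw [← h1, Isop_pairs] at h2
  have h3 := Isop_pairs_le I
  have p0 := Isop_proj_le I 0
  have p1 := Isop_proj_le I 1
  have p2 := Isop_proj_le I 2
  calc I.card ^ 2 ≤ _ := h2
    _ ≤ (cut I).card * ((cut I).card * (cut I).card) :=
        Nat.mul_le_mul p2 (h3.trans (Nat.mul_le_mul p1 p0))
    _ = _ := by ring

theorem Isop_update_inj {k : Fin 3} {x y : Site}
    (h : Function.update x k 0 = Function.update y k 0) (hk : x k = y k) : x = y := by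
  funext j
  by_cases hj : j = k
  · subst hj; exact hk
  · have := congrFun h j
    simpa [Function.update_of_ne hj] using this

theorem card_le_col {I : Finset Site} {x : Site} {r : ℕ} (h : I ⊆ ball x r) :
    I.card ≤ (2 * r + 1) * (cut I).card := by
  refine le_trans (Finset.card_le_mul_card_image (f := fun x : Site => Function.update x 0 0) I
    (2 * r + 1) ?_) (Nat.mul_le_mul_left _ (Isop_proj_le I 0))
  intro u _
  have hc : (Finset.Icc (x 0 - r) (x 0 + r)).card = 2 * r + 1 := by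
    rw [Int.card_Icc]
    omega
  rw [← hc]
  refine Finset.card_le_card_of_injOn (fun y : Site => y 0) ?_ ?_
  · intro y hy
    have hy' := (Finset.mem_filter.1 (Finset.mem_coe.1 hy)).1
    have := abs_le.1 (mem_ball.1 (h hy') 0)
    refine Finset.mem_coe.2 (Finset.mem_Icc.2 ⟨?_, ?_⟩) <;> simp only <;> omega
  · intro y hy z hz hyz
    have hy' := (Finset.mem_filter.1 (Finset.mem_coe.1 hy)).2
    have hz' := (Finset.mem_filter.1 (Finset.mem_coe.1 hz)).2
    exact Isop_update_inj (hy'.trans hz'.symm) hyz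

theorem axis_ge (n : E3) (i : Fin 3) : |n i| ≤ |n (axis n)| := by
  by_cases h1 : |n 1| ≤ |n 0| ∧ |n 2| ≤ |n 0|
  · have e : axis n = 0 := if_pos h1
    rw [e]
    fin_cases i
    · exact le_rfl
    · exact h1.1
    · exact h1.2
  by_cases h2 : |n 2| ≤ |n 1|
  · have e : axis n = 1 := (if_neg h1).trans (if_pos h2)
    rw [e]
    have h3 : |n 0| ≤ |n 1| := by
      by_contra h
      push Not at h
      exact h1 ⟨h.le, h2.trans h.le⟩
    fin_cases i
    · exact h3
    · exact le_rfl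
    · exact h2
  · have e : axis n = 2 := (if_neg h1).trans (if_neg h2)
    rw [e]
    push Not at h2
    have h3 : |n 0| ≤ |n 2| := by
      by_contra h
      push Not at h
      exact h1 ⟨(h2.trans h).le, h.le⟩
    fin_cases i
    · exact h3
    · exact h2.le
    · exact le_rfl

theorem Isop_sum_sq {n : E3} (hn : ‖n‖ = 1) : n 0 ^ 2 + n 1 ^ 2 + n 2 ^ 2 = 1 := by
  have h := EuclideanSpace.norm_sq_eq n
  rw [hn, Fin.sum_univ_three] at h
  simp only [Real.norm_eq_abs, sq_abs] at h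
  linarith

theorem axis_half {n : E3} (hn : ‖n‖ = 1) : 1 / 2 ≤ |n (axis n)| := by
  have h := Isop_sum_sq hn
  have h0 := axis_ge n 0
  have h1 := axis_ge n 1
  have h2 := axis_ge n 2
  have a0 := abs_nonneg (n 0)
  have a1 := abs_nonneg (n 1)
  have a2 := abs_nonneg (n 2)
  rw [← sq_abs (n 0), ← sq_abs (n 1), ← sq_abs (n 2)] at h
  by_contra hh
  push Not at hh
  nlinarith only [h, h0, hh, a0, h1, a1, h2, a2]

theorem coord_le_one {n : E3} (hn : ‖n‖ = 1) (i : Fin 3) : |n i| ≤ 1 := by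
  have h := PiLp.norm_apply_le n i
  rwa [hn, Real.norm_eq_abs] at h

theorem dot_add (n : E3) (x y : Site) : dot n (x + y) = dot n x + dot n y := by
  simp only [dot, Pi.add_apply, Int.cast_add, mul_add, Finset.sum_add_distrib]

theorem dot_sub (n : E3) (x y : Site) : dot n (x - y) = dot n x - dot n y := by
  simp only [dot, Pi.sub_apply, Int.cast_sub, mul_sub, Finset.sum_sub_distrib]

theorem Isop_dot_single (n : E3) (k : Fin 3) (j : ℤ) : dot n (Pi.single k j) = n k * j := by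
  unfold dot
  rw [Finset.sum_eq_single k]
  · simp
  · intro i _ hi
    simp [Pi.single_eq_of_ne hi]
  · simp

theorem dot_tip (n : E3) (b : Bond) : dot n (tip b) = dot n b.1 + n b.2 := by
  unfold tip
  rw [dot_add, Isop_dot_single]
  simp

theorem dot_eq_inner (n : E3) (x : Site) : dot n x = inner ℝ (emb x) n := by
  simp [dot, emb, PiLp.inner_apply]

theorem Isop_int_card (S : Finset ℤ) (D : ℝ) (hD : 0 ≤ D)
    (h : ∀ i ∈ S, ∀ j ∈ S, (i : ℝ) - j ≤ D) : (S.card : ℝ) ≤ D + 1 := by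
  rcases S.eq_empty_or_nonempty with rfl | hS
  · simp only [Finset.card_empty, Nat.cast_zero]
    linarith
  have hsub : S ⊆ Finset.Icc (S.min' hS) (S.min' hS + ⌊D⌋) := by
    intro i hi
    refine Finset.mem_Icc.2 ⟨S.min'_le i hi, ?_⟩
    have := h i hi _ (S.min'_mem hS)
    have h2 : i - S.min' hS ≤ ⌊D⌋ := Int.le_floor.2 (by push_cast; exact this)
    omega
  have h1 := Finset.card_le_card hsub
  rw [Int.card_Icc] at h1
  have h0 : 0 ≤ ⌊D⌋ := Int.floor_nonneg.2 hD
  have h2 : (S.card : ℤ) ≤ ⌊D⌋ + 1 := by omega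
  have h3 : (S.card : ℝ) ≤ (⌊D⌋ : ℝ) + 1 := by exact_mod_cast h2
  linarith [Int.floor_le D]

theorem Isop_dot_update (n : E3) (k : Fin 3) (x : Site) :
    dot n x = dot n (Function.update x k 0) + n k * x k := by
  rw [← Isop_dot_single, ← dot_add]
  congr 1
  funext j
  by_cases hj : j = k
  · subst hj; simp
  · simp [Function.update_of_ne hj, Pi.single_eq_of_ne hj]

theorem slab_card {n : E3} (hn : ‖n‖ = 1) (Λ : Finset Site) (t a : ℝ) (ha : 0 ≤ a) :
    ((Λ.filter fun x => |dot n x - t| ≤ a).card : ℝ) ≤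
      (4 * a + 1) * (Λ.image fun x => Function.update x (axis n) 0).card := by
  set k := axis n with hk
  set S := Λ.filter fun x => |dot n x - t| ≤ a with hS
  have h1 : S.card = ∑ u ∈ Λ.image (fun x => Function.update x k 0),
      (S.filter fun x => Function.update x k 0 = u).card :=
    Finset.card_eq_sum_card_fiberwise (f := fun x : Site => Function.update x k 0)
      (fun x hx => Finset.mem_coe.2 (Finset.mem_image.2
        ⟨x, (Finset.mem_filter.1 (Finset.mem_coe.1 hx)).1, rfl⟩))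
  rw [h1]
  push_cast
  have h2 : ∀ u ∈ Λ.image (fun x => Function.update x k 0),
      ((S.filter fun x => Function.update x k 0 = u).card : ℝ) ≤ 4 * a + 1 := by
    intro u _
    have hc : (S.filter fun x => Function.update x k 0 = u).card =
        ((S.filter fun x => Function.update x k 0 = u).image fun x => x k).card := by
      refine (Finset.card_image_of_injOn ?_).symm
      intro y hy z hz hyz
      have hy' := (Finset.mem_filter.1 (Finset.mem_coe.1 hy)).2
      have hz' := (Finset.mem_filter.1 (Finset.mem_coe.1 hz)).2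
      exact Isop_update_inj (hy'.trans hz'.symm) hyz
    rw [hc]
    refine Isop_int_card _ _ (by linarith only [ha]) ?_
    intro i hi j hj
    obtain ⟨y, hy, rfl⟩ := Finset.mem_image.1 hi
    obtain ⟨z, hz, rfl⟩ := Finset.mem_image.1 hj
    have hy' := Finset.mem_filter.1 hy
    have hz' := Finset.mem_filter.1 hz
    have hy2 := abs_le.1 (Finset.mem_filter.1 hy'.1).2
    have hz2 := abs_le.1 (Finset.mem_filter.1 hz'.1).2
    have ey := Isop_dot_update n k y
    have ez := Isop_dot_update n k z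
    rw [hy'.2] at ey
    rw [hz'.2] at ez
    have hh := axis_half hn
    rw [← hk] at hh
    have e : |n k * ((y k : ℝ) - z k)| ≤ 2 * a := by
      rw [abs_le]
      constructor <;> nlinarith only [hy2, hz2, ey, ez]
    rw [abs_mul] at e
    have e2 := le_abs_self ((y k : ℝ) - z k)
    have e3 := abs_nonneg ((y k : ℝ) - z k)
    nlinarith only [e, e2, hh, e3]
  refine le_trans (Finset.sum_le_card_nsmul _ _ _ h2) ?_
  rw [nsmul_eq_mul, mul_comm]

theorem Isop_image_tile (c : Site) (k : Fin 3) (L M : ℕ) :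
    ((tile c k L M).image fun x => Function.update x k 0) =
      tile (Function.update c k 0) k L 0 := by
  ext u
  rw [Finset.mem_image, mem_tile]
  constructor
  · rintro ⟨x, hx, rfl⟩ i
    have := mem_tile.1 hx i
    by_cases hi : i = k
    · subst hi; simp
    · simpa [hi, Function.update_of_ne hi] using this
  · intro h
    refine ⟨Function.update u k (c k), mem_tile.2 fun i => ?_, ?_⟩
    · by_cases hi : i = k
      · subst hi; simp
      · simpa [hi, Function.update_of_ne hi] using h i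
    · funext j
      by_cases hj : j = k
      · subst hj
        have := h j
        simp at this
        simp [this]
      · simp [Function.update_of_ne hj]

theorem cols_tile (c : Site) (k : Fin 3) (L M : ℕ) :
    ((tile c k L M).image fun x => Function.update x k 0).card = (2 * L + 1) ^ 2 := by
  rw [Isop_image_tile, card_tile]
  simp

theorem Isop_far {n : E3} (hn : ‖n‖ = 1) (d : Site) (L M : ℕ) (hM : 2 * L + 6 ≤ M)
    (h1 : ∀ i, i ≠ axis n → |d i| ≤ (L : ℤ)) (h2 : (M : ℤ) < |d (axis n)|) :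
    3 < |dot n d| := by
  set k := axis n with hk
  have hh := axis_half hn
  have hg := axis_ge n
  rw [← hk] at hh hg
  have e1 := Isop_dot_update n k d
  have e2 : |dot n (Function.update d k 0)| ≤ 2 * L * |n k| := by
    unfold dot
    refine le_trans (Finset.abs_sum_le_sum_abs _ _) ?_
    have hb : ∀ i : Fin 3, |n i * ((Function.update d k 0 i : ℤ) : ℝ)| ≤
        if i = k then 0 else L * |n k| := by
      intro i
      by_cases hi : i = k
      · subst hi; simp
      · rw [if_neg hi, Function.update_of_ne hi, abs_mul, mul_comm]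
        have h3 : |((d i : ℤ) : ℝ)| ≤ L := by exact_mod_cast h1 i hi
        exact mul_le_mul h3 (hg i) (abs_nonneg _) (Nat.cast_nonneg _)
    refine le_trans (Finset.sum_le_sum fun i _ => hb i) (le_of_eq ?_)
    clear_value k
    fin_cases k <;> simp [Fin.sum_univ_three] <;> ring
  have e3 : (M : ℝ) + 1 ≤ |((d k : ℤ) : ℝ)| := by exact_mod_cast h2
  have e4 : (2 * L + 6 : ℝ) ≤ M := by exact_mod_cast hM
  have e5 : |n k * (d k : ℝ)| ≤ |dot n d| + |dot n (Function.update d k 0)| := by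
    have : n k * (d k : ℝ) = dot n d - dot n (Function.update d k 0) := by linarith only [e1]
    rw [this]
    exact abs_sub _ _
  rw [abs_mul] at e5
  nlinarith only [hh, e2, e3, e4, e5]

theorem shell_slab {n : E3} (hn : ‖n‖ = 1) (c : Site) (L M M' : ℕ) (hM : 2 * L + 6 ≤ M) (t : ℝ)
    (hc : |dot n c - t| ≤ 1) :
    ((tile c (axis n) (L + 1) M' \ tile c (axis n) L M).filter
      fun x => |dot n x - t| ≤ 2).card ≤ 72 * (L + 1) := by
  set k := axis n with hk
  set Λ := (tile c k (L + 1) M').filter fun x => ¬ ∀ i, i ≠ k → |x i - c i| ≤ (L : ℤ) with hΛ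
  have hsub : ((tile c k (L + 1) M' \ tile c k L M).filter fun x => |dot n x - t| ≤ 2) ⊆
      Λ.filter fun x => |dot n x - t| ≤ 2 := by
    intro x hx
    obtain ⟨hx1, hx2⟩ := Finset.mem_filter.1 hx
    obtain ⟨hx3, hx4⟩ := Finset.mem_sdiff.1 hx1
    refine Finset.mem_filter.2 ⟨Finset.mem_filter.2 ⟨hx3, fun hall => ?_⟩, hx2⟩
    have hkM : (M : ℤ) < |x k - c k| := by
      by_contra hle
      push Not at hle
      refine hx4 (mem_tile.2 fun i => ?_)
      by_cases hi : i = k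
      · subst hi; simpa using hle
      · simpa [hi] using hall i hi
    have h3 := Isop_far hn (x - c) L M hM (fun i hi => hall i hi) hkM
    rw [dot_sub] at h3
    have h4 := abs_le.1 hx2
    have h5 := abs_le.1 hc
    have h6 : |dot n x - dot n c| ≤ 3 := abs_le.2 ⟨by linarith only [h4, h5], by linarith⟩
    linarith
  have h1 := slab_card hn Λ t 2 (by norm_num)
  rw [← hk] at h1
  have himg : (Λ.image fun x => Function.update x k 0) ⊆
      tile (Function.update c k 0) k (L + 1) 0 \ tile (Function.update c k 0) k L 0 := by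
    intro u hu
    obtain ⟨x, hx, rfl⟩ := Finset.mem_image.1 hu
    obtain ⟨hx1, hx2⟩ := Finset.mem_filter.1 hx
    refine Finset.mem_sdiff.2 ⟨?_, fun h => hx2 fun i hi => ?_⟩
    · rw [← Isop_image_tile c k (L + 1) M']
      exact Finset.mem_image.2 ⟨x, hx1, rfl⟩
    · simpa [hi, Function.update_of_ne hi] using mem_tile.1 h i
  have hss : tile (Function.update c k 0) k L 0 ⊆ tile (Function.update c k 0) k (L + 1) 0 := by
    intro u hu
    refine mem_tile.2 fun i => le_trans (mem_tile.1 hu i) ?_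
    split_ifs
    · exact le_rfl
    · push_cast; omega
  have h2 := Finset.card_le_card himg
  rw [Finset.card_sdiff_of_subset hss, card_tile, card_tile] at h2
  have h3 : (Λ.image fun x => Function.update x k 0).card ≤ 8 * (L + 1) := by
    refine le_trans h2 ?_
    have : (2 * (L + 1) + 1) ^ 2 * (2 * 0 + 1) = (2 * L + 1) ^ 2 * (2 * 0 + 1) + 8 * (L + 1) := by
      ring
    omega
  have h4 : ((Λ.image fun x => Function.update x k 0).card : ℝ) ≤ 8 * (L + 1) := by
    exact_mod_cast h3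
  have h5 : ((Λ.filter fun x => |dot n x - t| ≤ 2).card : ℝ) ≤ 72 * (L + 1) := by nlinarith only [h1, h4]
  have h6 : (Λ.filter fun x => |dot n x - t| ≤ 2).card ≤ 72 * (L + 1) := by exact_mod_cast h5
  exact le_trans (Finset.card_le_card hsub) h6

end Pool.Agent.Work.MP_b59478_pr
end
end

-- merged part: Pool.Agent.Work.MP_b59478_pr.FF2
section
/-! Products and translations. Rt_prod: induction on the index set; for two pieces that are not
star-adjacent the bond sets are disjoint, subsets of the union are pairs of subsets, and a bond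
touching one piece does not see the other. Rt_shift: translate everything by c.
Rt_tile_ge: Rt_shift, then Zb_change with the mismatch set given by shell_slab: off the slab
|dot n x - t| <= 2 the conditions t <= dot n x and dot n c <= dot n x agree.
-/

set_option autoImplicit false

noncomputable section

namespace Pool.Agent.Work.MP_b59478_pr

open Classical Filter Topology MeasureTheory
open scoped symmDiff Pointwise

theorem FF2_Rt_empty (β : ℝ) (H : Set Site) : Rt β ∅ H = 1 := by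
  have hb : bonds ∅ = ∅ := by
    ext b
    simp [mem_bonds]
  unfold Rt Zb Z0 w
  simp [hb, cut_empty]

/-- A bond touching one piece does not touch the other. -/
theorem FF2_far {Λ₁ Λ₂ : Finset Site} (h : ∀ x ∈ Λ₁, ∀ y ∈ Λ₂, ¬ Near 1 x y) {b : Bond}
    (hb : b ∈ bonds Λ₁) : b.1 ∉ Λ₂ ∧ tip b ∉ Λ₂ := by
  rcases mem_bonds.1 hb with h1 | h1
  · exact ⟨fun h2 => h _ h1 _ h2 (Near.refl _ _), fun h2 => h _ h1 _ h2 (near_tip b)⟩
  · exact ⟨fun h2 => h _ h1 _ h2 (near_tip b).symm, fun h2 => h _ h1 _ h2 (Near.refl _ _)⟩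

theorem FF2_cuts {Λ Λ₁ Λ₂ S : Finset Site} (hΛ : ∀ x, x ∈ Λ ↔ x ∈ Λ₁ ∨ x ∈ Λ₂) (hS : S ⊆ Λ)
    (H : Set Site) {b : Bond} (hb : b.1 ∉ Λ₂ ∧ tip b ∉ Λ₂) :
    Cuts ((S : Set Site) ∪ (H \ (Λ : Set Site))) b ↔
      Cuts (((S ∩ Λ₁ : Finset Site) : Set Site) ∪ (H \ (Λ₁ : Set Site))) b := by
  have key : ∀ x, x ∉ Λ₂ → (x ∈ (S : Set Site) ∪ (H \ (Λ : Set Site)) ↔
      x ∈ ((S ∩ Λ₁ : Finset Site) : Set Site) ∪ (H \ (Λ₁ : Set Site))) := by
    intro x hx
    have h1 := hΛ x
    have h2 : x ∈ S → x ∈ Λ := fun h => hS h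
    simp only [Set.mem_union, Set.mem_sdiff, Finset.mem_coe, Finset.mem_inter]
    tauto
  unfold Cuts
  rw [key _ hb.1, key _ hb.2]

theorem FF2_Zb_union (β : ℝ) {Λ₁ Λ₂ : Finset Site} (h : ∀ x ∈ Λ₁, ∀ y ∈ Λ₂, ¬ Near 1 x y)
    (H : Set Site) : Zb β (Λ₁ ∪ Λ₂) H = Zb β Λ₁ H * Zb β Λ₂ H := by
  have h' : ∀ x ∈ Λ₂, ∀ y ∈ Λ₁, ¬ Near 1 x y := fun x hx y hy hn => h y hy x hx hn.symm
  have hd : ∀ x ∈ Λ₁, x ∉ Λ₂ := fun x hx hx' => h x hx x hx' (Near.refl _ _)
  unfold Zb
  rw [Finset.sum_mul_sum, ← Finset.sum_product']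
  refine Finset.sum_nbij' (fun S => (S ∩ Λ₁, S ∩ Λ₂)) (fun p => p.1 ∪ p.2) ?_ ?_ ?_ ?_ ?_
  · intro S _
    exact Finset.mem_product.2 ⟨Finset.mem_powerset.2 Finset.inter_subset_right,
      Finset.mem_powerset.2 Finset.inter_subset_right⟩
  · intro p hp
    obtain ⟨h1, h2⟩ := Finset.mem_product.1 hp
    exact Finset.mem_powerset.2
      (Finset.union_subset_union (Finset.mem_powerset.1 h1) (Finset.mem_powerset.1 h2))
  · intro S hS
    rw [← Finset.inter_union_distrib_left]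
    exact Finset.inter_eq_left.2 (Finset.mem_powerset.1 hS)
  · intro p hp
    obtain ⟨h1, h2⟩ := Finset.mem_product.1 hp
    have h1' := Finset.mem_powerset.1 h1
    have h2' := Finset.mem_powerset.1 h2
    refine Prod.ext (Finset.ext fun x => ?_) (Finset.ext fun x => ?_)
    · simp only [Finset.mem_inter, Finset.mem_union]
      exact ⟨fun hx => hx.1.elim id fun h3 => absurd (h2' h3) (hd x hx.2),
        fun hx => ⟨Or.inl hx, h1' hx⟩⟩
    · simp only [Finset.mem_inter, Finset.mem_union]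
      exact ⟨fun hx => hx.1.elim (fun h3 => absurd hx.2 (hd x (h1' h3))) id,
        fun hx => ⟨Or.inr hx, h2' hx⟩⟩
  · intro S hS
    have hS' := Finset.mem_powerset.1 hS
    have hdj : Disjoint
        ((bonds Λ₁).filter fun b =>
          Cuts (((S ∩ Λ₁ : Finset Site) : Set Site) ∪ (H \ (Λ₁ : Set Site))) b)
        ((bonds Λ₂).filter fun b =>
          Cuts (((S ∩ Λ₂ : Finset Site) : Set Site) ∪ (H \ (Λ₂ : Set Site))) b) := by
      refine Finset.disjoint_left.2 fun b hb hb' => ?_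
      have h1 := FF2_far h (Finset.mem_filter.1 hb).1
      rcases mem_bonds.1 (Finset.mem_filter.1 hb').1 with h2 | h2
      · exact h1.1 h2
      · exact h1.2 h2
    have e : ((bonds (Λ₁ ∪ Λ₂)).filter fun b =>
        Cuts ((S : Set Site) ∪ (H \ ((Λ₁ ∪ Λ₂ : Finset Site) : Set Site))) b) =
        Finset.disjUnion _ _ hdj := by
      ext b
      rw [Finset.mem_disjUnion, Finset.mem_filter, Finset.mem_filter, Finset.mem_filter]
      have e1 : b ∈ bonds Λ₁ → _ := fun hb =>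
        FF2_cuts (fun x => Finset.mem_union) hS' H (FF2_far h hb)
      have e2 : b ∈ bonds Λ₂ → _ := fun hb =>
        FF2_cuts (fun x => Finset.mem_union.trans or_comm) hS' H (FF2_far h' hb)
      have e3 : b ∈ bonds (Λ₁ ∪ Λ₂) ↔ b ∈ bonds Λ₁ ∨ b ∈ bonds Λ₂ := by
        simp only [mem_bonds, Finset.mem_union]
        (clear * - e1 e2; grind)
      rw [e3]
      constructor
      · rintro ⟨hb | hb, hc⟩
        · exact Or.inl ⟨hb, (e1 hb).1 hc⟩
        · exact Or.inr ⟨hb, (e2 hb).1 hc⟩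
      · rintro (⟨hb, hc⟩ | ⟨hb, hc⟩)
        · exact ⟨Or.inl hb, (e1 hb).2 hc⟩
        · exact ⟨Or.inr hb, (e2 hb).2 hc⟩
    rw [e, Finset.card_disjUnion, ← Real.exp_add]
    congr 1
    push_cast
    ring

theorem FF2_Rt_union (β : ℝ) {Λ₁ Λ₂ : Finset Site} (h : ∀ x ∈ Λ₁, ∀ y ∈ Λ₂, ¬ Near 1 x y)
    (H : Set Site) : Rt β (Λ₁ ∪ Λ₂) H = Rt β Λ₁ H * Rt β Λ₂ H := by
  unfold Rt
  rw [← Zb_empty, ← Zb_empty, ← Zb_empty, FF2_Zb_union β h, FF2_Zb_union β h, div_mul_div_comm]

theorem Rt_prod {ι : Type} (β : ℝ) (t : Finset ι) (Λ : ι → Finset Site)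
    (h : ∀ i ∈ t, ∀ j ∈ t, i ≠ j → ∀ x ∈ Λ i, ∀ y ∈ Λ j, ¬ Near 1 x y) (H : Set Site) :
    Rt β (t.biUnion Λ) H = ∏ i ∈ t, Rt β (Λ i) H := by
  induction t using Finset.induction_on with
  | empty => rw [Finset.biUnion_empty, Finset.prod_empty, FF2_Rt_empty]
  | insert i t hi ih =>
    rw [Finset.biUnion_insert, Finset.prod_insert hi, FF2_Rt_union, ih]
    · exact fun a ha b hb =>
        h a (Finset.mem_insert_of_mem ha) b (Finset.mem_insert_of_mem hb)
    · intro x hx y hy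
      obtain ⟨j, hj, hy'⟩ := Finset.mem_biUnion.1 hy
      refine h i (Finset.mem_insert_self _ _) j (Finset.mem_insert_of_mem hj) ?_ x hx y hy'
      rintro rfl
      exact hi hj

theorem FF2_Zb_shift (β : ℝ) (c : Site) {Λ Λ' : Finset Site} (hΛ : ∀ x, x ∈ Λ' ↔ x - c ∈ Λ)
    {H H' : Set Site} (hH : ∀ x, x ∈ H' ↔ x - c ∈ H) : Zb β Λ' H' = Zb β Λ H := by
  unfold Zb
  refine Finset.sum_nbij' (fun S => S.image (· - c)) (fun S => S.image (· + c)) ?_ ?_ ?_ ?_ ?_
  · intro S hS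
    refine Finset.mem_powerset.2 fun x hx => ?_
    obtain ⟨y, hy, rfl⟩ := Finset.mem_image.1 hx
    exact (hΛ y).1 (Finset.mem_powerset.1 hS hy)
  · intro S hS
    refine Finset.mem_powerset.2 fun x hx => ?_
    obtain ⟨y, hy, rfl⟩ := Finset.mem_image.1 hx
    refine (hΛ _).2 ?_
    rw [add_sub_cancel_right]
    exact Finset.mem_powerset.1 hS hy
  · intro S _
    simp only [Finset.image_image, Function.comp_def, sub_add_cancel, Finset.image_id']
  · intro S _
    simp only [Finset.image_image, Function.comp_def, add_sub_cancel_right, Finset.image_id']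
  · intro S _
    have key : ∀ x, x ∈ (S : Set Site) ∪ (H' \ (Λ' : Set Site)) ↔
        x + -c ∈ ((S.image (· - c) : Finset Site) : Set Site) ∪ (H \ (Λ : Set Site)) := by
      intro x
      rw [← sub_eq_add_neg]
      have h1 : x - c ∈ S.image (· - c) ↔ x ∈ S := by
        rw [Finset.mem_image]
        constructor
        · rintro ⟨y, hy, e⟩
          rwa [← sub_left_injective e]
        · exact fun hx => ⟨x, hx, rfl⟩
      simp only [Set.mem_union, Set.mem_sdiff, Finset.mem_coe, h1, hΛ x, hH x]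
    have kb : ∀ b : Bond,
        b ∈ (bonds Λ').filter (fun b => Cuts ((S : Set Site) ∪ (H' \ (Λ' : Set Site))) b) ↔
        shiftB (-c) b ∈ (bonds Λ).filter (fun b =>
          Cuts (((S.image (· - c) : Finset Site) : Set Site) ∪ (H \ (Λ : Set Site))) b) := by
      intro b
      rw [Finset.mem_filter, Finset.mem_filter, mem_bonds, mem_bonds]
      unfold Cuts
      rw [tip_shiftB, key, key, hΛ, hΛ, sub_eq_add_neg, sub_eq_add_neg]
      rfl
    have hinv : ∀ b : Bond, shiftB (-c) (shiftB c b) = b := fun b => by simp [shiftB]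
    have hinv' : ∀ b : Bond, shiftB c (shiftB (-c) b) = b := fun b => by simp [shiftB]
    have hc : ((bonds Λ').filter
        (fun b => Cuts ((S : Set Site) ∪ (H' \ (Λ' : Set Site))) b)).card =
        ((bonds Λ).filter (fun b =>
          Cuts (((S.image (· - c) : Finset Site) : Set Site) ∪ (H \ (Λ : Set Site))) b)).card := by
      refine Finset.card_nbij' (shiftB (-c)) (shiftB c) ?_ ?_ ?_ ?_
      · intro b hb
        exact Finset.mem_coe.2 ((kb b).1 (Finset.mem_coe.1 hb))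
      · intro b hb
        refine Finset.mem_coe.2 ((kb _).2 ?_)
        rw [hinv]
        exact Finset.mem_coe.1 hb
      · exact fun b _ => hinv' b
      · exact fun b _ => hinv b
    rw [hc]

theorem Rt_shift (β : ℝ) (c : Site) (k : Fin 3) (L M : ℕ) (H : Set Site) :
    Rt β (tile c k L M) {x | x - c ∈ H} = Rt β (cyl k L M) H := by
  have hΛ : ∀ x, x ∈ tile c k L M ↔ x - c ∈ cyl k L M := by
    intro x
    rw [cyl_eq_tile, mem_tile, mem_tile]
    simp
  unfold Rt
  rw [← Zb_empty, ← Zb_empty,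
    FF2_Zb_shift β c hΛ (H := H) (H' := {x | x - c ∈ H}) (fun _ => Iff.rfl),
    FF2_Zb_shift β c hΛ (H := ∅) (H' := ∅) (fun _ => Iff.rfl)]

theorem Rt_compl (β : ℝ) (Λ : Finset Site) (H : Set Site) : Rt β Λ Hᶜ = Rt β Λ H := by
  unfold Rt
  rw [Zb_compl]

theorem Rt_tile_ge {β : ℝ} (hβ : 0 ≤ β) {n : E3} (hn : ‖n‖ = 1) {L M : ℕ} (hM : 2 * L + 6 ≤ M)
    (c : Site) (t : ℝ) (hc : |dot n c - t| ≤ 1) (H : Set Site)
    (hH : ∀ x ∈ tile c (axis n) (L + 1) (M + 1), 2 < |dot n x - t| → (x ∈ H ↔ t ≤ dot n x)) :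
    Rt β (cyl (axis n) L M) (hs n) * Real.exp (-(864 * β * (L + 1))) ≤
      Rt β (tile c (axis n) L M) H := by
  have hcard := shell_slab hn c L M (M + 1) hM t hc
  have hZ := Zb_change hβ (tile c (axis n) L M)
    ((tile c (axis n) (L + 1) (M + 1) \ tile c (axis n) L M).filter fun x => |dot n x - t| ≤ 2)
    (H := {x | x - c ∈ hs n}) (H' := H) (by
      rintro x hx ⟨y, hy, hn1⟩ hne
      have hx' : x ∈ tile c (axis n) (L + 1) (M + 1) := by
        rw [mem_tile] at hy ⊢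
        intro i
        have h1 := abs_le.1 (hn1 i)
        have h2 := hy i
        push_cast at h1 ⊢
        split_ifs at h2 ⊢
        · have h3 := abs_le.1 h2
          rw [abs_le]
          constructor <;> linarith only [h1, h3, h1.1, h1.2, h3.1, h3.2]
        · have h3 := abs_le.1 h2
          rw [abs_le]
          constructor <;> linarith only [h1, h3, h1.1, h1.2, h3.1, h3.2]
      refine Finset.mem_filter.2 ⟨Finset.mem_sdiff.2 ⟨hx', hx⟩, ?_⟩
      by_contra hlt
      have hlt' := not_le.1 hlt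
      refine hne ?_
      rw [hH x hx' hlt']
      change 0 ≤ dot n (x - c) ↔ _
      rw [dot_sub]
      obtain ⟨a1, a2⟩ := abs_le.1 hc
      rcases lt_abs.1 hlt' with h | h
      · exact ⟨fun _ => by linarith, fun _ => by linarith⟩
      · exact ⟨fun _ => by linarith, fun _ => by linarith⟩)
  generalize ((tile c (axis n) (L + 1) (M + 1) \ tile c (axis n) L M).filter
    fun x => |dot n x - t| ≤ 2).card = q at hcard hZ
  have hq : (q : ℝ) ≤ 72 * (L + 1) := by exact_mod_cast hcard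
  rw [← Rt_shift β c]
  unfold Rt
  rw [div_mul_eq_mul_div]
  refine div_le_div_of_nonneg_right ?_ (Z0_pos _ _).le
  calc _ ≤ Real.exp (12 * β * q) * Zb β (tile c (axis n) L M) H *
        Real.exp (-(864 * β * (L + 1))) :=
        mul_le_mul_of_nonneg_right hZ (Real.exp_pos _).le
    _ = Real.exp (12 * β * q + -(864 * β * (L + 1))) * Zb β (tile c (axis n) L M) H := by
        rw [Real.exp_add]
        ring
    _ ≤ 1 * Zb β (tile c (axis n) L M) H := by
        refine mul_le_mul_of_nonneg_right (Real.exp_le_one_iff.2 ?_) (Zb_pos _ _ _).le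
        nlinarith only [hβ, hq]
    _ = _ := one_mul _

end Pool.Agent.Work.MP_b59478_pr
end
end

-- merged part: Pool.Agent.Work.MP_b59478_pr.MU1
section
/-! The combinatorial core of the upper bound. V = cube N, s = sN N, Lam the union of the tiles Lam j,
LamV = Lam inter V, Sh the union of the shells Lp j minus Lam j.
(1) For A in BigSets let U be the endpoints of the bonds of nbhd (cut A). By avoid, Om is inside
the subsets of V missing U; by ff_dec, PL A * Z0 LamV <= Z0 V * w A * (sum of w D over D inside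
LamV missing U). For such D, cut A is clopen in cut (A symmdiff D), and w A * w D = w (A symmdiff D).
(2) With exists_roots choose rho inside cut A, s * card rho <= m0, meeting every component; cut A is
the set of bonds of cut S connected to rho, S = A symmdiff D, so (A, D) is determined by (S, rho);
at most (card (bonds V) + 1) ^ (m0 / s) choices of rho (card_small_subsets). S minus Lam equals
O = A minus Lam. So the sum is at most mult * sum over O of Zf LamV O / Z0 LamV, and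
Zf LamV O / Z0 LamV <= Zf Lam O / Z0 Lam (Zf_mono) = exp (-2 beta card T0) * product of Rt (Lam j) O,
T0 = cut O minus bonds Lam = cut A minus bonds Lam; Rt (Lam j) O <= exp (12 beta mism j) Rt (Lam j) (H j).
(3) O is determined by the mismatch set Mi inside Sh and T0: follow a ray from a point outside Lam
until it meets a point star-adjacent to Lam (it lies in a shell, where Mi gives the value) or leaves
V. T0 satisfies Anim P s with P = the bonds touching Mi union the ring bonds: a component of T0 is a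
component of cut A, or contains a bond adjacent to a bond touching some Lam j; its endpoints are in
the shell j, and either one is in Mi or H j cuts it. animals_big and card_subsets_le.
-/

set_option autoImplicit false

noncomputable section

namespace Pool.Agent.Work.MP_b59478_pr

open Classical Filter Topology MeasureTheory
open scoped symmDiff Pointwise

theorem MU1_sum_inj {α γ : Type*} (s : Finset α) (t : Finset γ) (e : α → γ)
    (he : Set.InjOn e s) (hm : ∀ x ∈ s, e x ∈ t) (f : α → ℝ) (g : γ → ℝ)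
    (hfg : ∀ x ∈ s, f x ≤ g (e x)) (hg : ∀ y ∈ t, 0 ≤ g y) :
    ∑ x ∈ s, f x ≤ ∑ y ∈ t, g y := by
  calc ∑ x ∈ s, f x ≤ ∑ x ∈ s, g (e x) := Finset.sum_le_sum hfg
    _ = ∑ y ∈ s.image e, g y := (Finset.sum_image he).symm
    _ ≤ ∑ y ∈ t, g y := by
      refine Finset.sum_le_sum_of_subset_of_nonneg ?_ fun y hy _ => hg y hy
      intro y hy
      obtain ⟨x, hx, rfl⟩ := Finset.mem_image.1 hy
      exact hm x hx

/-- `D` misses the endpoints of the bonds near the boundary of `A`. -/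
def MU1_Av (A D : Finset Site) : Prop := ∀ b ∈ nbhd (cut A), b.1 ∉ D ∧ tip b ∉ D

theorem MU1_notMem_cut {A D : Finset Site} (h : MU1_Av A D) {b : Bond} (hb : b ∈ nbhd (cut A)) :
    b ∉ cut D := by
  intro hD
  obtain ⟨h1, h2⟩ := h b hb
  exact mem_cut.1 hD ⟨fun h => absurd h h1, fun h => absurd h h2⟩

theorem MU1_disj {A D : Finset Site} (h : MU1_Av A D) : Disjoint (cut D) (cut A) :=
  Finset.disjoint_left.2 fun _ hD hA => MU1_notMem_cut h (subset_nbhd _ hA) hD

theorem MU1_clopen {A D : Finset Site} (h : MU1_Av A D) : Clopen (cut A) (cut (A ∆ D)) := by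
  rw [cut_symmDiff]
  refine ⟨fun b hb => ?_, fun b hb b' hb' hadj => ?_⟩
  · exact Finset.mem_symmDiff.2 (Or.inl ⟨hb, MU1_notMem_cut h (subset_nbhd _ hb)⟩)
  · rcases Finset.mem_symmDiff.1 hb' with h1 | h1
    · exact h1.1
    · exact absurd h1.1 (MU1_notMem_cut h (mem_nbhd.2 ⟨b, hb, hadj⟩))

theorem MU1_step1 {β : ℝ} (hβ : 0 ≤ β) {N : ℕ} {A L : Finset Site} (hA : A ∈ BigSets N)
    (hL : L ⊆ cube N) :
    PL β N A * Z0 β L ≤
      Z0 β (cube N) * ∑ D ∈ L.powerset.filter (MU1_Av A), w β (A ∆ D) := by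
  have hbig : AllBig (sN N) (cut A) := (Finset.mem_filter.1 hA).2
  have h1 : gZ0 β (cube N) (nbhd (cut A)) (sN N) ≤
      ∑ D ∈ (cube N).powerset.filter (MU1_Av A), w β D := by
    refine Finset.sum_le_sum_of_subset_of_nonneg ?_ fun D _ _ => (w_pos β D).le
    intro D hD
    obtain ⟨hV, hs, hd⟩ := Finset.mem_filter.1 hD
    exact Finset.mem_filter.2 ⟨hV, avoid hbig hs hd⟩
  have h2 := ff_dec hβ hL (MU1_Av A) fun S T hST hT b hb =>
    ⟨fun h => (hT b hb).1 (hST h), fun h => (hT b hb).2 (hST h)⟩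
  have h3 : ∑ D ∈ L.powerset.filter (MU1_Av A), w β (A ∆ D) =
      w β A * ∑ D ∈ L.powerset.filter (MU1_Av A), w β D := by
    rw [Finset.mul_sum]
    exact Finset.sum_congr rfl fun D hD => w_symmDiff β (MU1_disj (Finset.mem_filter.1 hD).2)
  rw [h3, PL]
  have hw := (w_pos β A).le
  have hz := (Z0_pos β L).le
  calc w β A * gZ0 β (cube N) (nbhd (cut A)) (sN N) * Z0 β L
      ≤ w β A * (∑ D ∈ (cube N).powerset.filter (MU1_Av A), w β D) * Z0 β L :=
        mul_le_mul_of_nonneg_right (mul_le_mul_of_nonneg_left h1 hw) hz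
    _ = w β A * ((∑ D ∈ (cube N).powerset.filter (MU1_Av A), w β D) * Z0 β L) := by ring
    _ ≤ w β A * ((∑ D ∈ L.powerset.filter (MU1_Av A), w β D) * Z0 β (cube N)) :=
        mul_le_mul_of_nonneg_left h2 hw
    _ = _ := by ring

theorem MU1_step2 (β : ℝ) {N : ℕ} (hN : 1 ≤ sN N) (Lam : Finset Site) (m0 : ℕ)
    (𝒜 : Finset (Finset Site)) (h𝒜 : ∀ A ∈ 𝒜, A ∈ BigSets N ∧ (cut A).card ≤ m0) :
    ∑ A ∈ 𝒜, ∑ D ∈ (Lam ∩ cube N).powerset.filter (MU1_Av A), w β (A ∆ D) ≤
      ((bonds (cube N)).card + 1 : ℝ) ^ (m0 / sN N) *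
        ∑ O ∈ 𝒜.image (· \ Lam), Zf β (Lam ∩ cube N) O := by
  choose ρ hρ1 hρ2 hρ3 using fun A : Finset Site => exists_roots (cut A) (sN N)
  set L := Lam ∩ cube N with hL
  set Rho := (bonds (cube N)).powerset.filter fun r => r.card ≤ m0 / sN N with hRho
  have hAV : ∀ A ∈ 𝒜, A ⊆ cube N := fun A hA =>
    Finset.mem_powerset.1 (Finset.mem_filter.1 (h𝒜 A hA).1).1
  have hrec : ∀ A ∈ 𝒜, ∀ D, MU1_Av A D → ∀ b, b ∈ cut A ↔
      ∃ r ∈ ρ A, Conn (cut (A ∆ D)) r b := by
    intro A hA D hD b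
    have hbig : AllBig (sN N) (cut A) := (Finset.mem_filter.1 (h𝒜 A hA).1).2
    constructor
    · intro hb
      obtain ⟨r, hr, hc⟩ := hρ3 A b hb (Big.card hb (hbig b hb))
      exact ⟨r, hr, hc.mono (MU1_clopen hD).1⟩
    · rintro ⟨r, hr, hc⟩
      exact ((MU1_clopen hD).conn (hρ1 A hr) hc).mem (hρ1 A hr)
  have hS : ∀ A ∈ 𝒜, ∀ D ⊆ L, A ∆ D = ((A ∆ D) ∩ L) ∪ ((A \ Lam) \ L) := by
    intro A hA D hD
    ext x
    have h1 : x ∈ D → x ∈ Lam ∧ x ∈ cube N := fun h => Finset.mem_inter.1 (hD h)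
    have h2 : x ∈ A → x ∈ cube N := fun h => hAV A hA h
    simp only [hL, Finset.mem_symmDiff, Finset.mem_union, Finset.mem_inter, Finset.mem_sdiff]
    generalize (x ∈ A) = a at h2 ⊢
    generalize (x ∈ D) = d at h1 ⊢
    generalize (x ∈ Lam) = l at h1 ⊢
    generalize (x ∈ cube N) = c at h1 h2 ⊢
    clear hrec hAV hρ1 hρ2 hρ3 h𝒜 hA hD
    by_cases ha : a <;> by_cases hd : d <;> by_cases hl : l <;> by_cases hc : c <;> simp_all
  have e1 : ∑ A ∈ 𝒜, ∑ D ∈ L.powerset.filter (MU1_Av A), w β (A ∆ D) =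
      ∑ p ∈ (𝒜 ×ˢ L.powerset).filter (fun p => MU1_Av p.1 p.2), w β (p.1 ∆ p.2) := by
    rw [Finset.sum_filter, Finset.sum_product]
    exact Finset.sum_congr rfl fun A _ => Finset.sum_filter _ _
  have e2 : ∑ y ∈ Rho ×ˢ (𝒜.image (· \ Lam)) ×ˢ L.powerset, w β (y.2.2 ∪ (y.2.1 \ L)) =
      Rho.card * ∑ O ∈ 𝒜.image (· \ Lam), Zf β L O := by
    rw [Finset.sum_product]
    simp only [Finset.sum_const, nsmul_eq_mul]
    rw [Finset.sum_product]
    rfl
  have e3 : ∑ p ∈ (𝒜 ×ˢ L.powerset).filter (fun p => MU1_Av p.1 p.2), w β (p.1 ∆ p.2) ≤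
      ∑ y ∈ Rho ×ˢ (𝒜.image (· \ Lam)) ×ˢ L.powerset, w β (y.2.2 ∪ (y.2.1 \ L)) := by
    refine MU1_sum_inj _ _ (fun p => (ρ p.1, p.1 \ Lam, (p.1 ∆ p.2) ∩ L)) ?_ ?_ _ _ ?_
      fun y _ => (w_pos β _).le
    · rintro ⟨A, D⟩ hp ⟨A', D'⟩ hp' he
      obtain ⟨hm, hav⟩ := Finset.mem_filter.1 (Finset.mem_coe.1 hp)
      obtain ⟨hm', hav'⟩ := Finset.mem_filter.1 (Finset.mem_coe.1 hp')
      obtain ⟨hA, hD⟩ := Finset.mem_product.1 hm
      obtain ⟨hA', hD'⟩ := Finset.mem_product.1 hm'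
      simp only [Prod.mk.injEq] at he hA hD hA' hD' hav hav'
      obtain ⟨he1, he2, he3⟩ := he
      have hSS : A ∆ D = A' ∆ D' := by
        rw [hS A hA D (Finset.mem_powerset.1 hD), hS A' hA' D' (Finset.mem_powerset.1 hD'),
          he2, he3]
      have hAA : A = A' := by
        refine cut_inj (Finset.ext fun b => ?_)
        rw [hrec A hA D hav b, hrec A' hA' D' hav' b, he1, hSS]
      subst hAA
      rw [symmDiff_right_inj.1 hSS]
    · rintro ⟨A, D⟩ hp
      obtain ⟨hm, -⟩ := Finset.mem_filter.1 hp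
      obtain ⟨hA, -⟩ := Finset.mem_product.1 hm
      refine Finset.mem_product.2 ⟨Finset.mem_filter.2 ⟨Finset.mem_powerset.2 ?_, ?_⟩,
        Finset.mem_product.2 ⟨Finset.mem_image_of_mem _ hA,
          Finset.mem_powerset.2 Finset.inter_subset_right⟩⟩
      · exact (hρ1 A).trans (cut_subset_bonds (hAV A hA))
      · rw [Nat.le_div_iff_mul_le hN, mul_comm]
        exact (hρ2 A).trans (h𝒜 A hA).2
    · rintro ⟨A, D⟩ hp
      obtain ⟨hm, -⟩ := Finset.mem_filter.1 hp
      obtain ⟨hA, hD⟩ := Finset.mem_product.1 hm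
      exact le_of_eq (congrArg (w β) (hS A hA D (Finset.mem_powerset.1 hD)))
  have e4 : (Rho.card : ℝ) ≤ ((bonds (cube N)).card + 1 : ℝ) ^ (m0 / sN N) := by
    exact_mod_cast card_small_subsets (bonds (cube N)) (m0 / sN N)
  have e5 : 0 ≤ ∑ O ∈ 𝒜.image (· \ Lam), Zf β L O :=
    Finset.sum_nonneg fun O _ => Finset.sum_nonneg fun S _ => (w_pos β _).le
  rw [e1]
  refine e3.trans ?_
  rw [e2]
  exact mul_le_mul_of_nonneg_right e4 e5

section Tiles

variable {ι : Type} {t : Finset ι} {Λ Lp : ι → Finset Site}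

/-- The sites of the shell `j` where `O` and `H j` disagree. -/
def MU1_mis (Λ Lp : ι → Finset Site) (H : ι → Set Site) (O : Finset Site) (j : ι) :
    Finset Site :=
  (Lp j \ Λ j).filter fun x => ¬ (x ∈ O ↔ x ∈ H j)

theorem MU1_notMem (hsub : ∀ j ∈ t, ∀ x ∈ Λ j, ∀ y, Near 1 y x → y ∈ Lp j)
    (hdis : ∀ i ∈ t, ∀ j ∈ t, i ≠ j → Disjoint (Lp i) (Lp j)) {j : ι} (hj : j ∈ t) {x : Site}
    (hx : x ∈ Lp j \ Λ j) : x ∉ t.biUnion Λ := by
  intro h
  obtain ⟨i, hi, hxi⟩ := Finset.mem_biUnion.1 h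
  obtain ⟨h1, h2⟩ := Finset.mem_sdiff.1 hx
  by_cases hij : i = j
  · exact h2 (hij ▸ hxi)
  · exact Finset.disjoint_left.1 (hdis i hi j hj hij) (hsub i hi x hxi x (Near.refl 1 x)) h1

theorem MU1_mis_sdiff (hsub : ∀ j ∈ t, ∀ x ∈ Λ j, ∀ y, Near 1 y x → y ∈ Lp j)
    (hdis : ∀ i ∈ t, ∀ j ∈ t, i ≠ j → Disjoint (Lp i) (Lp j)) (H : ι → Set Site)
    (A : Finset Site) {j : ι} (hj : j ∈ t) :
    MU1_mis Λ Lp H (A \ t.biUnion Λ) j = MU1_mis Λ Lp H A j := by
  refine Finset.filter_congr fun x hx => ?_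
  have := MU1_notMem hsub hdis hj hx
  rw [Finset.mem_sdiff]
  tauto

theorem MU1_step3 {β : ℝ} (hβ : 0 ≤ β) (hsub : ∀ j ∈ t, ∀ x ∈ Λ j, ∀ y, Near 1 y x → y ∈ Lp j)
    (hdis : ∀ i ∈ t, ∀ j ∈ t, i ≠ j → Disjoint (Lp i) (Lp j)) (H : ι → Set Site)
    (V O : Finset Site) {μ : ℝ} (hO : ((∑ j ∈ t, (MU1_mis Λ Lp H O j).card : ℕ) : ℝ) ≤ μ) :
    Zf β (t.biUnion Λ ∩ V) O ≤ Z0 β (t.biUnion Λ ∩ V) *
      (Real.exp (12 * β * μ) * ∏ j ∈ t, Rt β (Λ j) (H j)) *
        Real.exp (-(2 * β * (cut O \ bonds (t.biUnion Λ)).card)) := by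
  have h1 := Zf_mono hβ (Finset.inter_subset_left (s₁ := t.biUnion Λ) (s₂ := V)) O
  have hz := Z0_pos β (t.biUnion Λ)
  have hz' := Z0_pos β (t.biUnion Λ ∩ V)
  have h2 : Rt β (t.biUnion Λ) O = ∏ j ∈ t, Rt β (Λ j) O := by
    refine Rt_prod β t Λ (fun i hi j hj hij x hx y hy hn => ?_) _
    exact Finset.disjoint_left.1 (hdis i hi j hj hij) (hsub i hi x hx x (Near.refl 1 x))
      (hsub j hj y hy x hn)
  have h3 : ∀ j ∈ t, Rt β (Λ j) O ≤
      Real.exp (12 * β * (MU1_mis Λ Lp H O j).card) * Rt β (Λ j) (H j) := by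
    intro j hj
    have := Zb_change hβ (Λ j) (MU1_mis Λ Lp H O j) (H := (O : Set Site)) (H' := H j)
      fun x hx ⟨y, hy, hn⟩ hm =>
        Finset.mem_filter.2 ⟨Finset.mem_sdiff.2 ⟨hsub j hj y hy x hn, hx⟩, by simpa using hm⟩
    unfold Rt
    rw [← mul_div_assoc]
    exact div_le_div_of_nonneg_right this (Z0_pos β _).le
  have h4 : ∏ j ∈ t, Rt β (Λ j) O ≤ Real.exp (12 * β * μ) * ∏ j ∈ t, Rt β (Λ j) (H j) := by
    refine (Finset.prod_le_prod (fun j _ => (Rt_pos β _ _).le) h3).trans ?_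
    rw [Finset.prod_mul_distrib, ← Real.exp_sum, ← Finset.mul_sum]
    have : 0 ≤ ∏ j ∈ t, Rt β (Λ j) (H j) := Finset.prod_nonneg fun j _ => (Rt_pos β _ _).le
    push_cast at hO
    exact mul_le_mul_of_nonneg_right (Real.exp_le_exp.2
      (mul_le_mul_of_nonneg_left hO (by linarith))) this
  have h5 : Zf β (t.biUnion Λ) O = Real.exp (-(2 * β * (cut O \ bonds (t.biUnion Λ)).card)) *
      (Rt β (t.biUnion Λ) O * Z0 β (t.biUnion Λ)) := by
    rw [Zf_eq, Rt, div_mul_cancel₀ _ hz.ne']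
  rw [h5, h2] at h1
  refine le_of_mul_le_mul_right (h1.trans ?_) hz
  have he := (Real.exp_pos (-(2 * β * (cut O \ bonds (t.biUnion Λ)).card))).le
  calc _ ≤ Real.exp (-(2 * β * (cut O \ bonds (t.biUnion Λ)).card)) *
        ((Real.exp (12 * β * μ) * ∏ j ∈ t, Rt β (Λ j) (H j)) * Z0 β (t.biUnion Λ)) *
          Z0 β (t.biUnion Λ ∩ V) :=
        mul_le_mul_of_nonneg_right (mul_le_mul_of_nonneg_left
          (mul_le_mul_of_nonneg_right h4 hz.le) he) hz'.le
    _ = _ := by ring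

theorem MU1_cut_sdiff (A Lam : Finset Site) :
    cut (A \ Lam) \ bonds Lam = cut A \ bonds Lam := by
  ext b
  simp only [Finset.mem_sdiff, mem_cut, mem_bonds]
  tauto

/-- The bonds inside the shells that are cut by the reference boundary conditions. -/
def MU1_ring (t : Finset ι) (Λ Lp : ι → Finset Site) (H : ι → Set Site) : Finset Bond :=
  t.biUnion fun j => (bonds (Lp j)).filter fun b =>
    b.1 ∈ Lp j \ Λ j ∧ tip b ∈ Lp j \ Λ j ∧ Cuts (H j) b

theorem MU1_anim (hsub : ∀ j ∈ t, ∀ x ∈ Λ j, ∀ y, Near 1 y x → y ∈ Lp j) (H : ι → Set Site)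
    {s : ℕ} {A : Finset Site} (hA : AllBig s (cut A)) :
    Anim (bonds (t.biUnion (MU1_mis Λ Lp H A)) ∪ MU1_ring t Λ Lp H) s
      (cut A \ bonds (t.biUnion Λ)) := by
  intro b hb
  by_cases hex : ∃ b', Conn (cut A \ bonds (t.biUnion Λ)) b b' ∧
      ∃ b'' ∈ bonds (t.biUnion Λ), Adj b' b''
  · left
    obtain ⟨b', hc, b'', hb'', hadj⟩ := hex
    have hb' := hc.mem hb
    refine ⟨b', ?_, hb', hc.symm⟩
    obtain ⟨hcut, hnb⟩ := Finset.mem_sdiff.1 hb'
    have hj : ∃ j ∈ t, b'.1 ∈ Lp j ∧ tip b' ∈ Lp j := by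
      rcases mem_bonds.1 hb'' with h | h
      · obtain ⟨j, hj, hx⟩ := Finset.mem_biUnion.1 h
        exact ⟨j, hj, hsub j hj _ hx _ hadj.1, hsub j hj _ hx _ hadj.2.2.1⟩
      · obtain ⟨j, hj, hx⟩ := Finset.mem_biUnion.1 h
        exact ⟨j, hj, hsub j hj _ hx _ hadj.2.1, hsub j hj _ hx _ hadj.2.2.2⟩
    obtain ⟨j, hj, h1, h2⟩ := hj
    have s1 : b'.1 ∈ Lp j \ Λ j := Finset.mem_sdiff.2 ⟨h1, fun h =>
      hnb (mem_bonds.2 (Or.inl (Finset.mem_biUnion.2 ⟨j, hj, h⟩)))⟩
    have s2 : tip b' ∈ Lp j \ Λ j := Finset.mem_sdiff.2 ⟨h2, fun h =>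
      hnb (mem_bonds.2 (Or.inr (Finset.mem_biUnion.2 ⟨j, hj, h⟩)))⟩
    by_cases hH : Cuts (H j) b'
    · exact Finset.mem_union_right _ (Finset.mem_biUnion.2
        ⟨j, hj, Finset.mem_filter.2 ⟨mem_bonds.2 (Or.inl h1), s1, s2, hH⟩⟩)
    · refine Finset.mem_union_left _ (mem_bonds.2 ?_)
      have hc' := mem_cut.1 hcut
      unfold Cuts at hH
      by_cases hm : b'.1 ∈ A ↔ b'.1 ∈ H j
      · right
        refine Finset.mem_biUnion.2 ⟨j, hj, Finset.mem_filter.2 ⟨s2, ?_⟩⟩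
        (clear * - hH hc' hm; tauto)
      · left
        exact Finset.mem_biUnion.2 ⟨j, hj, Finset.mem_filter.2 ⟨s1, hm⟩⟩
  · right
    have hbA := (Finset.mem_sdiff.1 hb).1
    refine (Big.card hbA (hA b hbA)).trans (Finset.card_le_card fun v hv => ?_)
    have key : Conn (cut A \ bonds (t.biUnion Λ)) b v := by
      have hc := (mem_comp.1 hv).2
      clear hv
      induction hc with
      | refl => exact Relation.ReflTransGen.refl
      | tail _ huv ih =>
        exact ih.tail ⟨ih.mem hb, Finset.mem_sdiff.2 ⟨huv.2.1, fun h =>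
          hex ⟨_, ih, _, h, huv.2.2⟩⟩, huv.2.2⟩
    exact mem_comp.2 ⟨key.mem hb, key⟩

theorem MU1_inj (hsub : ∀ j ∈ t, ∀ x ∈ Λ j, ∀ y, Near 1 y x → y ∈ Lp j)
    (hdis : ∀ i ∈ t, ∀ j ∈ t, i ≠ j → Disjoint (Lp i) (Lp j)) (H : ι → Set Site)
    {O O' : Finset Site} (hO : Disjoint O (t.biUnion Λ)) (hO' : Disjoint O' (t.biUnion Λ))
    (h1 : t.biUnion (MU1_mis Λ Lp H O) = t.biUnion (MU1_mis Λ Lp H O'))
    (h2 : cut O \ bonds (t.biUnion Λ) = cut O' \ bonds (t.biUnion Λ)) : O = O' := by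
  have hm : ∀ (Q : Finset Site), ∀ j ∈ t, ∀ x ∈ Lp j \ Λ j,
      (x ∈ t.biUnion (MU1_mis Λ Lp H Q) ↔ ¬ (x ∈ Q ↔ x ∈ H j)) := by
    intro Q j hj x hx
    constructor
    · intro h
      obtain ⟨i, hi, hxi⟩ := Finset.mem_biUnion.1 h
      obtain ⟨hx1, hx2⟩ := Finset.mem_filter.1 hxi
      by_cases hij : i = j
      · exact hij ▸ hx2
      · exact absurd (Finset.mem_sdiff.1 hx).1
          (Finset.disjoint_left.1 (hdis i hi j hj hij) (Finset.mem_sdiff.1 hx1).1)
    · intro h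
      exact Finset.mem_biUnion.2 ⟨j, hj, Finset.mem_filter.2 ⟨hx, h⟩⟩
  have hag : ∀ j ∈ t, ∀ x ∈ Lp j, (x ∈ O ↔ x ∈ O') := by
    intro j hj x hx
    by_cases hxΛ : x ∈ Λ j
    · have : x ∈ t.biUnion Λ := Finset.mem_biUnion.2 ⟨j, hj, hxΛ⟩
      exact ⟨fun h => absurd this (Finset.disjoint_left.1 hO h),
        fun h => absurd this (Finset.disjoint_left.1 hO' h)⟩
    · have e1 := hm O j hj x (Finset.mem_sdiff.2 ⟨hx, hxΛ⟩)
      have e2 := hm O' j hj x (Finset.mem_sdiff.2 ⟨hx, hxΛ⟩)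
      rw [h1] at e1
      (clear * - e1 e2; tauto)
  refine cut_inj (Finset.ext fun b => ?_)
  by_cases hb : b ∈ bonds (t.biUnion Λ)
  · have hj : ∃ j ∈ t, b.1 ∈ Lp j ∧ tip b ∈ Lp j := by
      rcases mem_bonds.1 hb with h | h
      · obtain ⟨j, hj, hx⟩ := Finset.mem_biUnion.1 h
        exact ⟨j, hj, hsub j hj _ hx _ (Near.refl 1 _), hsub j hj _ hx _ (near_tip b).symm⟩
      · obtain ⟨j, hj, hx⟩ := Finset.mem_biUnion.1 h
        exact ⟨j, hj, hsub j hj _ hx _ (near_tip b), hsub j hj _ hx _ (Near.refl 1 _)⟩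
    obtain ⟨j, hj, e1, e2⟩ := hj
    rw [mem_cut, mem_cut, hag j hj _ e1, hag j hj _ e2]
  · have := Finset.ext_iff.1 h2 b
    simpa only [Finset.mem_sdiff, hb, not_false_eq_true, and_true] using this

theorem MU1_exp {β : ℝ} (hβ : 1000 ≤ β) (n : ℕ) :
    Real.exp (-(2 * β * n)) ≤ (1 / 486 : ℝ) ^ n := by
  have h1 : Real.exp (-(2 * β)) ≤ 1 / 486 := by
    rw [Real.exp_neg, ← one_div]
    have := Real.add_one_le_exp (2 * β)
    exact one_div_le_one_div_of_le (by norm_num) (by linarith)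
  calc Real.exp (-(2 * β * n)) = Real.exp (-(2 * β)) ^ n := by
        rw [← Real.exp_nat_mul]
        congr 1
        ring
    _ ≤ _ := pow_le_pow_left₀ (Real.exp_pos _).le h1 n

theorem MU1_two_pow {n : ℕ} {μ : ℝ} (h : (n : ℝ) ≤ μ) : (2 : ℝ) ^ (6 * n) ≤ Real.exp (6 * μ) := by
  have h1 : (2 : ℝ) ≤ Real.exp 1 := by
    have := Real.add_one_le_exp 1
    linarith
  calc (2 : ℝ) ^ (6 * n) ≤ Real.exp 1 ^ (6 * n) := pow_le_pow_left₀ (by norm_num) h1 _
    _ = Real.exp (6 * n) := by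
        rw [← Real.exp_nat_mul]
        congr 1
        push_cast
        ring
    _ ≤ _ := by gcongr

theorem MU1_step4 {β : ℝ} (hβ : 1000 ≤ β) (N : ℕ)
    (hb : 4 * (bonds (cube N)).card ≤ 2 ^ sN N) (H : ι → Set Site)
    (hsub : ∀ j ∈ t, ∀ x ∈ Λ j, ∀ y, Near 1 y x → y ∈ Lp j)
    (hdis : ∀ i ∈ t, ∀ j ∈ t, i ≠ j → Disjoint (Lp i) (Lp j)) (ring : ℕ)
    (hring : (MU1_ring t Λ Lp H).card ≤ ring) {μ q : ℝ} (hq : 0 < q) (hq1 : q ≤ 1)
    (𝒜 : Finset (Finset Site)) (h𝒜 : ∀ A ∈ 𝒜, A ∈ BigSets N ∧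
      ((∑ j ∈ t, (MU1_mis Λ Lp H A j).card : ℕ) : ℝ) ≤ μ) :
    ∑ O ∈ 𝒜.image (· \ t.biUnion Λ), Real.exp (-(2 * β * (cut O \ bonds (t.biUnion Λ)).card)) ≤
      ((1 + q) ^ (∑ j ∈ t, (Lp j \ Λ j).card) * Real.exp (-(μ * Real.log q))) *
        (Real.exp (6 * μ) * (2 * 2 ^ ring)) := by
  set Sh := t.biUnion fun j => Lp j \ Λ j with hSh
  set Ms := Sh.powerset.filter fun M => (M.card : ℝ) ≤ μ with hMs
  have e1 : ∑ O ∈ 𝒜.image (· \ t.biUnion Λ),
      Real.exp (-(2 * β * (cut O \ bonds (t.biUnion Λ)).card)) ≤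
      ∑ p ∈ (Ms ×ˢ (bonds (cube N)).powerset).filter
        (fun p => Anim (bonds p.1 ∪ MU1_ring t Λ Lp H) (sN N) p.2), (1 / 486 : ℝ) ^ p.2.card := by
    refine MU1_sum_inj _ _
      (fun O => (t.biUnion (MU1_mis Λ Lp H O), cut O \ bonds (t.biUnion Λ))) ?_ ?_ _ _
      (fun O _ => MU1_exp hβ _) fun y _ => by positivity
    · intro O hO O' hO' he
      obtain ⟨A, -, rfl⟩ := Finset.mem_image.1 (Finset.mem_coe.1 hO)
      obtain ⟨A', -, rfl⟩ := Finset.mem_image.1 (Finset.mem_coe.1 hO')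
      simp only [Prod.mk.injEq] at he
      exact MU1_inj hsub hdis H Finset.sdiff_disjoint Finset.sdiff_disjoint he.1 he.2
    · intro O hO
      obtain ⟨A, hA, rfl⟩ := Finset.mem_image.1 hO
      obtain ⟨hA1, hA2⟩ := h𝒜 A hA
      obtain ⟨hAV, hbig⟩ := Finset.mem_filter.1 hA1
      have hm : t.biUnion (MU1_mis Λ Lp H (A \ t.biUnion Λ)) = t.biUnion (MU1_mis Λ Lp H A) :=
        Finset.biUnion_congr rfl fun j hj => MU1_mis_sdiff hsub hdis H A hj
      simp only [hm, MU1_cut_sdiff]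
      refine Finset.mem_filter.2 ⟨Finset.mem_product.2 ⟨Finset.mem_filter.2
        ⟨Finset.mem_powerset.2 ?_, ?_⟩, Finset.mem_powerset.2 ?_⟩, MU1_anim hsub H hbig⟩
      · exact Finset.biUnion_mono fun j _ => Finset.filter_subset _ _
      · refine le_trans ?_ hA2
        exact_mod_cast Finset.card_biUnion_le
      · exact Finset.sdiff_subset.trans (cut_subset_bonds (Finset.mem_powerset.1 hAV))
  have e2 : ∑ p ∈ (Ms ×ˢ (bonds (cube N)).powerset).filter
        (fun p => Anim (bonds p.1 ∪ MU1_ring t Λ Lp H) (sN N) p.2), (1 / 486 : ℝ) ^ p.2.card =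
      ∑ M ∈ Ms, ∑ T ∈ (bonds (cube N)).powerset.filter
        (Anim (bonds M ∪ MU1_ring t Λ Lp H) (sN N)), (1 / 486 : ℝ) ^ T.card := by
    rw [Finset.sum_filter, Finset.sum_product]
    exact Finset.sum_congr rfl fun M _ => (Finset.sum_filter _ _).symm
  have e3 : ∀ M ∈ Ms, ∑ T ∈ (bonds (cube N)).powerset.filter
        (Anim (bonds M ∪ MU1_ring t Λ Lp H) (sN N)), (1 / 486 : ℝ) ^ T.card ≤
      Real.exp (6 * μ) * (2 * 2 ^ ring) := by
    intro M hM
    refine (animals_big (bonds M ∪ MU1_ring t Λ Lp H) (bonds (cube N)) (sN N) hb _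
      fun T hT => ⟨Finset.mem_powerset.1 (Finset.mem_filter.1 hT).1,
        (Finset.mem_filter.1 hT).2⟩).trans ?_
    have c1 : (bonds M ∪ MU1_ring t Λ Lp H).card ≤ 6 * M.card + ring :=
      (Finset.card_union_le _ _).trans (add_le_add (card_bonds_le M) hring)
    have c2 : (2 : ℝ) ^ (bonds M ∪ MU1_ring t Λ Lp H).card ≤ 2 ^ (6 * M.card) * 2 ^ ring := by
      rw [← pow_add]
      exact pow_le_pow_right₀ (by norm_num) c1
    have c3 := MU1_two_pow (Finset.mem_filter.1 hM).2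
    calc 2 * (2 : ℝ) ^ (bonds M ∪ MU1_ring t Λ Lp H).card
        ≤ 2 * (Real.exp (6 * μ) * 2 ^ ring) := by
          gcongr
          exact c2.trans (by gcongr)
      _ = _ := by ring
  have e4 : (Ms.card : ℝ) ≤
      (1 + q) ^ (∑ j ∈ t, (Lp j \ Λ j).card) * Real.exp (-(μ * Real.log q)) := by
    refine (card_subsets_le Sh hq hq1).trans ?_
    gcongr
    · linarith only [hq]
    · exact Finset.card_biUnion_le
  refine e1.trans ?_
  rw [e2]
  refine (Finset.sum_le_card_nsmul _ _ _ e3).trans ?_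
  rw [nsmul_eq_mul]
  exact mul_le_mul_of_nonneg_right e4 (by positivity)

end Tiles

theorem upper_core {ι : Type} {β : ℝ} (hβ : 1000 ≤ β) (N : ℕ) (hN : 1 ≤ sN N)
    (hb : 4 * (bonds (cube N)).card ≤ 2 ^ sN N) (t : Finset ι) (Λ Lp : ι → Finset Site)
    (H : ι → Set Site) (hsub : ∀ j ∈ t, ∀ x ∈ Λ j, ∀ y, Near 1 y x → y ∈ Lp j)
    (hdis : ∀ i ∈ t, ∀ j ∈ t, i ≠ j → Disjoint (Lp i) (Lp j)) (ring : ℕ)
    (hring : ∑ j ∈ t, ((bonds (Lp j)).filter fun b =>
      b.1 ∈ Lp j \ Λ j ∧ tip b ∈ Lp j \ Λ j ∧ Cuts (H j) b).card ≤ ring)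
    (m0 : ℕ) {μ q : ℝ} (hμ : 0 ≤ μ) (hq : 0 < q) (hq1 : q ≤ 1) (𝒜 : Finset (Finset Site))
    (h𝒜 : ∀ A ∈ 𝒜, A ∈ BigSets N ∧ (cut A).card ≤ m0 ∧
      ((∑ j ∈ t, ((Lp j \ Λ j).filter fun x => ¬ (x ∈ A ↔ x ∈ H j)).card : ℕ) : ℝ) ≤ μ) :
    ∑ A ∈ 𝒜, PL β N A ≤ Z0 β (cube N) * (((bonds (cube N)).card + 1 : ℝ) ^ (m0 / sN N) *
      ((1 + q) ^ (∑ j ∈ t, (Lp j \ Λ j).card) * Real.exp (-(μ * Real.log q))) *
      Real.exp ((12 * β + 6) * μ) * (2 * 2 ^ ring) * ∏ j ∈ t, Rt β (Λ j) (H j)) := by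
  have hβ0 : 0 ≤ β := by linarith only [hβ]
  have hz := Z0_pos β (t.biUnion Λ ∩ cube N)
  have hV := (Z0_pos β (cube N)).le
  have hP : 0 ≤ ∏ j ∈ t, Rt β (Λ j) (H j) := Finset.prod_nonneg fun j _ => (Rt_pos β _ _).le
  have s2 := MU1_step2 β hN (t.biUnion Λ) m0 𝒜 fun A hA => ⟨(h𝒜 A hA).1, (h𝒜 A hA).2.1⟩
  have s4 := MU1_step4 hβ N hb H hsub hdis ring (Finset.card_biUnion_le.trans hring) hq hq1 𝒜
    fun A hA => ⟨(h𝒜 A hA).1, (h𝒜 A hA).2.2⟩
  have s3 : ∑ O ∈ 𝒜.image (· \ t.biUnion Λ), Zf β (t.biUnion Λ ∩ cube N) O ≤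
      Z0 β (t.biUnion Λ ∩ cube N) * (Real.exp (12 * β * μ) * ∏ j ∈ t, Rt β (Λ j) (H j)) *
        ∑ O ∈ 𝒜.image (· \ t.biUnion Λ),
          Real.exp (-(2 * β * (cut O \ bonds (t.biUnion Λ)).card)) := by
    rw [Finset.mul_sum]
    refine Finset.sum_le_sum fun O hO => ?_
    obtain ⟨A, hA, rfl⟩ := Finset.mem_image.1 hO
    refine MU1_step3 hβ0 hsub hdis H _ _ ?_
    rw [Finset.sum_congr rfl fun j hj => congrArg Finset.card (MU1_mis_sdiff hsub hdis H A hj)]
    exact (h𝒜 A hA).2.2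
  have s1 : (∑ A ∈ 𝒜, PL β N A) * Z0 β (t.biUnion Λ ∩ cube N) ≤ Z0 β (cube N) *
      ∑ A ∈ 𝒜, ∑ D ∈ (t.biUnion Λ ∩ cube N).powerset.filter (MU1_Av A), w β (A ∆ D) := by
    rw [Finset.sum_mul, Finset.mul_sum]
    exact Finset.sum_le_sum fun A hA => MU1_step1 hβ0 (h𝒜 A hA).1 Finset.inter_subset_right
  refine le_of_mul_le_mul_right (s1.trans ?_) hz
  have he : Real.exp ((12 * β + 6) * μ) = Real.exp (12 * β * μ) * Real.exp (6 * μ) := by
    rw [← Real.exp_add]
    congr 1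
    ring
  calc _ ≤ Z0 β (cube N) * (((bonds (cube N)).card + 1 : ℝ) ^ (m0 / sN N) *
        (Z0 β (t.biUnion Λ ∩ cube N) * (Real.exp (12 * β * μ) * ∏ j ∈ t, Rt β (Λ j) (H j)) *
          (((1 + q) ^ (∑ j ∈ t, (Lp j \ Λ j).card) * Real.exp (-(μ * Real.log q))) *
            (Real.exp (6 * μ) * (2 * 2 ^ ring))))) := by
        refine mul_le_mul_of_nonneg_left (s2.trans (mul_le_mul_of_nonneg_left (s3.trans
          (mul_le_mul_of_nonneg_left s4 ?_)) (by positivity))) hV
        exact mul_nonneg hz.le (mul_nonneg (Real.exp_pos _).le hP)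
    _ = _ := by
        rw [he]
        ring

end Pool.Agent.Work.MP_b59478_pr
end
end

-- merged part: Pool.Agent.Work.MP_b59478_pr.SG1
section
/-! Cutting a hair. Let U be A (first case of Hair) or its complement, x0 the endpoint of b in U, and
H r the star-component of x0 in U inter ball b.1 r. lemK gives I r containing H r with cut (I r)
connected inside cut (H r); I r is inside ball b.1 r, and inside the cube (sub_box; in the first
case H r is inside A). A bond of cut (H r) not in cut A joins H r to a point of U outside the ball;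
these points are distinct (a point outside the ball has at most one neighbour in it) and lie in
H (r + 1) minus H r; let e r be their number. If card cut (I r) < 8 e r for all r in [R / 2, R) then
card (H r) ^ 2 <= card (I r) ^ 2 <= (8 e r) ^ 3 (iso), and by induction
card (H r) >= ((r - R / 2) / 100) ^ 3 (use e r >= 1 and e r >= a ^ 2 / 8 when card (H r) >= a ^ 3),
against kappa = 1 / (2 * 200 ^ 3). Lower bound on the size: since b is Big follow a chain in cut A
until its base point first leaves distance s / 2 of b.1; the endpoints in U are a star-path in H r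
(r >= s / 2 + 2); extent_le.
-/

set_option autoImplicit false

noncomputable section

namespace Pool.Agent.Work.MP_b59478_pr

open Classical Filter Topology MeasureTheory
open scoped symmDiff Pointwise

/-- The star-component of `x0` in the part of `U` in the ball of radius `r` around `c`. -/
def SG1_H (U : Site → Prop) (c x0 : Site) (r : ℕ) : Finset Site :=
  ((ball c r).filter U).filter (SConn ((ball c r).filter U) x0)

theorem SG1_mem {U : Site → Prop} {c x0 y : Site} {r : ℕ} :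
    y ∈ SG1_H U c x0 r ↔ (Near r y c ∧ U y) ∧ SConn ((ball c r).filter U) x0 y := by
  simp only [SG1_H, Finset.mem_filter, mem_ball]

theorem SG1_step {U : Site → Prop} {c x0 x y : Site} {r : ℕ} (hx : x ∈ SG1_H U c x0 r)
    (hy : Near r y c) (hU : U y) (hxy : Near 1 x y) : y ∈ SG1_H U c x0 r := by
  obtain ⟨h1, h2⟩ := SG1_mem.1 hx
  exact SG1_mem.2 ⟨⟨hy, hU⟩, h2.tail ⟨Finset.mem_filter.2 ⟨mem_ball.2 h1.1, h1.2⟩,
    Finset.mem_filter.2 ⟨mem_ball.2 hy, hU⟩, hxy⟩⟩

theorem SG1_mono {U : Site → Prop} {c x0 : Site} {r r' : ℕ} (h : r ≤ r') :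
    SG1_H U c x0 r ⊆ SG1_H U c x0 r' := by
  intro y hy
  obtain ⟨h1, h2⟩ := SG1_mem.1 hy
  refine SG1_mem.2 ⟨⟨h1.1.mono h, h1.2⟩, h2.mono (fun z hz => ?_)⟩
  obtain ⟨h3, h4⟩ := Finset.mem_filter.1 hz
  exact Finset.mem_filter.2 ⟨mem_ball.2 ((mem_ball.1 h3).mono h), h4⟩

theorem SG1_root {U : Site → Prop} {c x0 : Site} {r : ℕ} (h : Near r x0 c) (hU : U x0) :
    x0 ∈ SG1_H U c x0 r := SG1_mem.2 ⟨⟨h, hU⟩, Relation.ReflTransGen.refl⟩

theorem SG1_conn {U : Site → Prop} {c x0 : Site} {r : ℕ} {y : Site}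
    (h : SConn ((ball c r).filter U) x0 y) : SConn (SG1_H U c x0 r) x0 y := by
  induction h with
  | refl => exact Relation.ReflTransGen.refl
  | @tail a b hab hb ih =>
    exact ih.tail ⟨Finset.mem_filter.2 ⟨hb.1, hab⟩, Finset.mem_filter.2 ⟨hb.2.1, hab.tail hb⟩,
      hb.2.2⟩

theorem SG1_sub_ball {U : Site → Prop} {c x0 : Site} {r : ℕ} : SG1_H U c x0 r ⊆ ball c r :=
  fun _ hy => mem_ball.2 (SG1_mem.1 hy).1.1

/-- The new bonds inject into the next layer. -/
theorem SG1_layer {U : Site → Prop} {T : Finset Bond}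
    (hT : ∀ b : Bond, b ∈ T ↔ ¬ (U b.1 ↔ U (tip b))) (c x0 : Site) (r : ℕ) :
    (SG1_H U c x0 r).card + (cut (SG1_H U c x0 r) \ T).card ≤ (SG1_H U c x0 (r + 1)).card := by
  set H := SG1_H U c x0 r with hH
  have key : ∀ b ∈ cut H \ T,
      (b.1 ∈ H ∧ tip b ∉ H ∧ U (tip b) ∧ ¬ Near r (tip b) c) ∨
      (b.1 ∉ H ∧ tip b ∈ H ∧ U b.1 ∧ ¬ Near r b.1 c) := by
    intro b hb
    obtain ⟨h1, h2⟩ := Finset.mem_sdiff.1 hb
    rw [mem_cut] at h1
    rw [hT, not_not] at h2
    by_cases h3 : b.1 ∈ H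
    · have h4 : tip b ∉ H := fun h => h1 ⟨fun _ => h, fun _ => h3⟩
      have h5 : U (tip b) := h2.1 (SG1_mem.1 h3).1.2
      exact Or.inl ⟨h3, h4, h5, fun h => h4 (SG1_step h3 h h5 (near_tip b))⟩
    · have h4 : tip b ∈ H := by
        by_contra h
        exact h1 ⟨fun h' => absurd h' h3, fun h' => absurd h' h⟩
      have h5 : U b.1 := h2.2 (SG1_mem.1 h4).1.2
      exact Or.inr ⟨h3, h4, h5, fun h => h3 (SG1_step h4 h h5 (near_tip b).symm)⟩
  have dirA : ∀ (b : Bond) (j : Fin 3), Near r b.1 c → ¬ |tip b j - c j| ≤ r →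
      j = b.2 ∧ tip b j = c j + r + 1 := by
    intro b j h1 h2
    have h3 := abs_le.1 (h1 j)
    rw [tip_apply] at h2 ⊢
    by_cases e : j = b.2
    · rw [if_pos e] at h2 ⊢
      rw [abs_le] at h2
      exact ⟨e, by omega⟩
    · rw [if_neg e, add_zero] at h2
      exact absurd (h1 j) h2
  have dirB : ∀ (b : Bond) (j : Fin 3), Near r (tip b) c → ¬ |b.1 j - c j| ≤ r →
      j = b.2 ∧ b.1 j = c j - r - 1 := by
    intro b j h1 h2
    have h3 := h1 j
    rw [tip_apply] at h3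
    by_cases e : j = b.2
    · rw [if_pos e, abs_le] at h3
      rw [abs_le] at h2
      exact ⟨e, by omega⟩
    · rw [if_neg e, add_zero] at h3
      exact absurd h3 h2
  have hle : (cut H \ T).card ≤ (SG1_H U c x0 (r + 1) \ H).card := by
    refine Finset.card_le_card_of_injOn (fun b => if b.1 ∈ H then tip b else b.1) ?_ ?_
    · intro b hb
      rcases key b hb with ⟨h1, h2, h3, _⟩ | ⟨h1, h2, h3, _⟩
      · simp only [if_pos h1]
        refine Finset.mem_sdiff.2 ⟨SG1_step (SG1_mono (Nat.le_succ r) h1) ?_ h3 (near_tip b), h2⟩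
        exact ((near_tip b).symm.trans (SG1_mem.1 h1).1.1).mono (by omega)
      · simp only [if_neg h1]
        refine Finset.mem_sdiff.2
          ⟨SG1_step (SG1_mono (Nat.le_succ r) h2) ?_ h3 (near_tip b).symm, h1⟩
        exact ((near_tip b).trans (SG1_mem.1 h2).1.1).mono (by omega)
    · intro b hb b' hb' e
      rcases key b hb with ⟨h1, _, _, h4⟩ | ⟨h1, h2, _, h4⟩ <;>
        rcases key b' hb' with ⟨h1', _, _, h4'⟩ | ⟨h1', h2', _, h4'⟩
      · simp only [if_pos h1, if_pos h1'] at e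
        obtain ⟨j, hj⟩ := not_forall.1 h4
        have d1 := (dirA b j (SG1_mem.1 h1).1.1 hj).1
        have d2 := (dirA b' j (SG1_mem.1 h1').1.1 (e ▸ hj)).1
        have d3 : b.2 = b'.2 := d1.symm.trans d2
        refine Prod.ext ?_ d3
        unfold tip at e
        rw [d3] at e
        exact add_right_cancel e
      · simp only [if_pos h1, if_neg h1'] at e
        obtain ⟨j, hj⟩ := not_forall.1 h4
        have d1 := (dirA b j (SG1_mem.1 h1).1.1 hj).2
        have d2 := (dirB b' j (SG1_mem.1 h2').1.1 (e ▸ hj)).2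
        rw [e] at d1
        omega
      · simp only [if_neg h1, if_pos h1'] at e
        obtain ⟨j, hj⟩ := not_forall.1 h4
        have d1 := (dirB b j (SG1_mem.1 h2).1.1 hj).2
        have d2 := (dirA b' j (SG1_mem.1 h1').1.1 (e ▸ hj)).2
        rw [e] at d1
        omega
      · simp only [if_neg h1, if_neg h1'] at e
        obtain ⟨j, hj⟩ := not_forall.1 h4
        have d1 := (dirB b j (SG1_mem.1 h2).1.1 hj).1
        have d2 := (dirB b' j (SG1_mem.1 h2').1.1 (e ▸ hj)).1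
        exact Prod.ext e (d1.symm.trans d2)
  have := Finset.card_sdiff_add_card_eq_card (SG1_mono (U := U) (c := c) (x0 := x0) (Nat.le_succ r))
  rw [← hH] at this
  simp only [Nat.succ_eq_add_one] at this
  omega

theorem SG1_grow {h : ℕ → ℕ} {r0 n : ℕ}
    (hs : ∀ j < n, ∃ d, h (r0 + j) + d ≤ h (r0 + j + 1) ∧ h (r0 + j) ^ 2 < (8 * d) ^ 3) :
    n ^ 3 ≤ 1000000 * h (r0 + n) := by
  induction n with
  | zero => simp
  | succ j ih =>
    have h1 := ih (fun i hi => hs i (by omega))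
    obtain ⟨d, h2, h3⟩ := hs j (by omega)
    have hd : 1 ≤ d := by
      rcases Nat.eq_zero_or_pos d with e | e
      · rw [e] at h3; simp at h3
      · exact e
    have h4 : (j ^ 2) ^ 3 ≤ (80000 * d) ^ 3 := by
      calc (j ^ 2) ^ 3 = (j ^ 3) ^ 2 := by ring
        _ ≤ (1000000 * h (r0 + j)) ^ 2 := Nat.pow_le_pow_left h1 2
        _ = 1000000 ^ 2 * h (r0 + j) ^ 2 := by ring
        _ ≤ 1000000 ^ 2 * (8 * d) ^ 3 := Nat.mul_le_mul_left _ h3.le
        _ = (80000 * d) ^ 3 := by ring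
    have h5 : j ^ 2 ≤ 80000 * d := (Nat.pow_le_pow_iff_left (by norm_num)).1 h4
    have h6 : j ≤ j ^ 2 := Nat.le_self_pow (by norm_num) j
    have h7 : (j + 1) ^ 3 = j ^ 3 + 3 * j ^ 2 + 3 * j + 1 := by ring
    rw [← Nat.add_assoc]
    omega

/-- A big component through `b` produces a far point of the star-component. -/
theorem SG1_far {U : Site → Prop} {T : Finset Bond}
    (hT : ∀ b : Bond, b ∈ T ↔ ¬ (U b.1 ↔ U (tip b))) {b : Bond} {x0 : Site}
    (hx0 : x0 = b.1 ∨ x0 = tip b) (hU : U x0) {s r : ℕ} (hr : s / 2 + 1 ≤ r) (hb : Big s T b) :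
    ∃ y ∈ SG1_H U b.1 x0 r, ∃ i, ((s / 2 : ℕ) : ℤ) ≤ |x0 i - y i| := by
  have ends : ∀ (b' : Bond) (y : Site), (y = b'.1 ∨ y = tip b') → ∀ i,
      b'.1 i ≤ y i ∧ y i ≤ b'.1 i + 1 := by
    rintro b' y (rfl | rfl) i
    · omega
    · rw [tip_apply]; split_ifs <;> omega
  have main : ∀ b', Conn T b b' →
      (∃ y ∈ SG1_H U b.1 x0 r, ∃ i, ((s / 2 : ℕ) : ℤ) ≤ |x0 i - y i|) ∨
      (Near (s / 2) b'.1 b.1 ∧ ∃ y, (y = b'.1 ∨ y = tip b') ∧ y ∈ SG1_H U b.1 x0 r) := by
    intro b' h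
    induction h with
    | refl =>
      refine Or.inr ⟨Near.refl _ _, x0, hx0, SG1_root ?_ hU⟩
      rcases hx0 with e | e
      · rw [e]; exact Near.refl _ _
      · rw [e]; exact (near_tip b).symm.mono (by omega)
    | @tail u v _ huv ih =>
      rcases ih with ih | ⟨h1, y, hy, hyH⟩
      · exact Or.inl ih
      obtain ⟨-, hv, a1, a2, a3, a4⟩ := huv
      obtain ⟨z, hz, hzU⟩ : ∃ z, (z = v.1 ∨ z = tip v) ∧ U z := by
        rw [hT] at hv
        by_cases h : U v.1
        · exact ⟨_, Or.inl rfl, h⟩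
        · refine ⟨_, Or.inr rfl, ?_⟩
          by_contra h'
          exact hv ⟨fun h'' => absurd h'' h, fun h'' => absurd h'' h'⟩
      have n1 : Near 1 z u.1 := by
        rcases hz with e | e <;> rw [e]
        · exact a1.symm
        · exact a2.symm
      have n2 : Near 1 y z := by
        rcases hy with e | e <;> rcases hz with e' | e' <;> rw [e, e'] <;> assumption
      have hzH : z ∈ SG1_H U b.1 x0 r := SG1_step hyH ((n1.trans h1).mono (by omega)) hzU n2
      by_cases h2 : Near (s / 2) v.1 b.1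
      · exact Or.inr ⟨h2, z, hz, hzH⟩
      · obtain ⟨i, hi⟩ := not_forall.1 h2
        refine Or.inl ⟨z, hzH, i, ?_⟩
        have e1 := ends v z hz i
        have e2 := ends b x0 hx0 i
        rw [abs_le] at hi
        rw [le_abs]
        omega
  obtain ⟨b1, b2, c1, c2, hn⟩ := hb
  rcases main b1 c1 with h | ⟨h1, -⟩
  · exact h
  rcases main b2 c2 with h | ⟨h2, -⟩
  · exact h
  exact absurd ((h1.trans h2.symm).mono (by omega)) hn

theorem SG1_core {U : Site → Prop} {N s R : ℕ} {T : Finset Bond}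
    (hT : ∀ b : Bond, b ∈ T ↔ ¬ (U b.1 ↔ U (tip b))) {b : Bond} (hbT : b ∈ T) (hb : Big s T b)
    (hR : 2 * s + 4 ≤ R) {K : Finset Site} (hK : ∀ x ∈ ball b.1 R, U x → x ∈ K)
    (hcube : K ⊆ cube N) (hm : (K.card : ℝ) ≤ 1 / 16000000 * (R : ℝ) ^ 3) :
    ∃ I : Finset Site, I ⊆ cube N ∧ IsConn (cut I) ∧ 8 * (cut I \ T).card ≤ (cut I).card ∧
      s / 2 ≤ (cut I).card ∧ I.card ≤ (2 * R + 1) * (cut I).card ∧ I.card ≤ (2 * R + 1) ^ 3 := by
  obtain ⟨x0, hx0, hU⟩ : ∃ z, (z = b.1 ∨ z = tip b) ∧ U z := by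
    rw [hT] at hbT
    by_cases h : U b.1
    · exact ⟨_, Or.inl rfl, h⟩
    · refine ⟨_, Or.inr rfl, ?_⟩
      by_contra h'
      exact hbT ⟨fun h'' => absurd h'' h, fun h'' => absurd h'' h'⟩
  have hx1 : Near 1 x0 b.1 := by
    rcases hx0 with e | e
    · rw [e]; exact Near.refl _ _
    · rw [e]; exact (near_tip b).symm
  have hI : ∀ r, 1 ≤ r → ∃ I : Finset Site, Clopen (cut I) (cut (SG1_H U b.1 x0 r)) ∧
      IsConn (cut I) ∧ SG1_H U b.1 x0 r ⊆ I := by
    intro r hr
    refine lemK ⟨x0, SG1_root (hx1.mono hr) hU⟩ (fun x hx y hy => ?_)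
    exact (SG1_conn (SG1_mem.1 hx).2).symm.trans (SG1_conn (SG1_mem.1 hy).2)
  have hHR : SG1_H U b.1 x0 R ⊆ K := fun x hx => hK x (SG1_sub_ball hx) (SG1_mem.1 hx).1.2
  by_contra hcon
  have hs : ∀ j < R - R / 2, ∃ d, (SG1_H U b.1 x0 (R / 2 + j)).card + d ≤
      (SG1_H U b.1 x0 (R / 2 + j + 1)).card ∧
      (SG1_H U b.1 x0 (R / 2 + j)).card ^ 2 < (8 * d) ^ 3 := by
    intro j hj
    obtain ⟨I, c1, c2, c3⟩ := hI (R / 2 + j) (by omega)
    refine ⟨_, SG1_layer hT b.1 x0 _, ?_⟩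
    have hball : I ⊆ ball b.1 (R / 2 + j) :=
      sub_box (isBox_ball _ _) (c1.1.trans (cut_subset_bonds SG1_sub_ball))
    have hlt : (cut I).card < 8 * (cut I \ T).card := by
      by_contra hge
      refine hcon ⟨I, ?_, c2, not_lt.1 hge, ?_, ?_, ?_⟩
      · exact sub_box (isBox_cube N) (c1.1.trans (cut_subset_bonds
          ((SG1_mono (by omega)).trans (hHR.trans hcube))))
      · obtain ⟨y, hy, i, hi⟩ := SG1_far hT hx0 hU (r := R / 2 + j) (by omega) hb
        have := extent_le (c3 (SG1_root (hx1.mono (by omega)) hU))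
          ((SG1_conn (SG1_mem.1 hy).2).mono c3) i
        omega
      · exact (card_le_col hball).trans (Nat.mul_le_mul_right _ (by omega))
      · exact (Finset.card_le_card hball).trans
          (by rw [card_ball]; exact Nat.pow_le_pow_left (by omega) 3)
    have h1 : (cut I \ T).card ≤ (cut (SG1_H U b.1 x0 (R / 2 + j)) \ T).card :=
      Finset.card_le_card (Finset.sdiff_subset_sdiff c1.1 subset_rfl)
    calc (SG1_H U b.1 x0 (R / 2 + j)).card ^ 2 ≤ I.card ^ 2 :=
          Nat.pow_le_pow_left (Finset.card_le_card c3) 2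
      _ ≤ (cut I).card ^ 3 := iso I
      _ < _ := Nat.pow_lt_pow_left (by omega) (by norm_num)
  have h1 := SG1_grow (h := fun r => (SG1_H U b.1 x0 r).card) hs
  rw [show R / 2 + (R - R / 2) = R by omega] at h1
  have h2 : R ^ 3 ≤ (2 * (R - R / 2)) ^ 3 := Nat.pow_le_pow_left (by omega) 3
  have h3 := Finset.card_le_card hHR
  have h4 : R ^ 3 ≤ 8000000 * K.card := by
    rw [mul_pow] at h2
    omega
  have h5 : (R : ℝ) ^ 3 ≤ 8000000 * (K.card : ℝ) := by exact_mod_cast h4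
  have h6 : (0 : ℝ) < (R : ℝ) ^ 3 := pow_pos (by exact_mod_cast (by omega : 0 < R)) 3
  linarith only [hm, h5, h6]

theorem hair : ∃ κ : ℝ, 0 < κ ∧ ∀ (N s R : ℕ) (A : Finset Site), A ⊆ cube N →
    AllBig s (cut A) → 2 * s + 4 ≤ R → Hair N R (κ * (R : ℝ) ^ 3) A →
    ∃ I : Finset Site, I ⊆ cube N ∧ IsConn (cut I) ∧ 8 * (cut I \ cut A).card ≤ (cut I).card ∧
      s / 2 ≤ (cut I).card ∧ I.card ≤ (2 * R + 1) * (cut I).card ∧ I.card ≤ (2 * R + 1) ^ 3 := by
  refine ⟨1 / 16000000, by norm_num, fun N s R A hA hbig hR hH => ?_⟩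
  obtain ⟨b, hb, h | ⟨h1, h2⟩⟩ := hH
  · exact SG1_core (U := fun x => x ∈ A) (fun b => mem_cut) hb (hbig b hb) hR
      (fun x hx hU => Finset.mem_inter.2 ⟨hU, hx⟩) (Finset.inter_subset_left.trans hA) h
  · exact SG1_core (U := fun x => x ∉ A) (fun b => by rw [mem_cut, not_iff_not, not_iff_not])
      hb (hbig b hb) hR (fun x hx hU => Finset.mem_sdiff.2 ⟨hx, hU⟩)
      (Finset.sdiff_subset.trans h1) h2

end Pool.Agent.Work.MP_b59478_pr
end
end

-- merged part: Pool.Agent.Work.MP_b59478_pr.Tau1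
section
/-! Bounds on the interface free energy in a cylinder, k = axis n.
Rt_monoM: Rt_mono; a bond touching cyl k L M' but not cyl k L M has both endpoints with
|x k| >= M + 1 and the other coordinates at most L + 1, so hs n does not cut it.
Rt_axis: Rt_mono from the empty set (Rt of the empty set is 1); exactly (2 L + 1) ^ 2 bonds touching
the cylinder are cut (at most that many is enough).
Rt_upper (Peierls): let O = hs n inter cyl k (L + 2) (M + 2), Lam = cyl k L M. For S inside Lam put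
S' = S union (O minus Lam), let T be the union of the components of cut S' containing a bond
outside bonds Lam, T1 = T inter bonds Lam, and S'' = intr (cut S' minus T), inside Lam by sub_box.
The number of cut bonds touching Lam is card T1 + card cut S''; S is determined by (T1, S'')
(cut_inj). In each of the (2 L + 1) ^ 2 columns the top and bottom boundary values differ and S''
vanishes at both ends, so T1 has a bond in each column. T1 is rooted in P = nbhd of the bonds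
outside bonds Lam, cut by hs n, adjacent to a bond of bonds Lam; these have both endpoints in
tile 0 k (L + 1) (M + 1) minus Lam and base point in the slab, at most 3 * 72 (L + 1) by shell_slab.
Conclude with animals, log 243 <= 6.
-/

set_option autoImplicit false

noncomputable section

namespace Pool.Agent.Work.MP_b59478_pr

open Classical Filter Topology MeasureTheory
open scoped symmDiff Pointwise

theorem Tau1_sign {n : E3} (hn : ‖n‖ = 1) {L : ℕ} {x : Site}
    (hx : ∀ i, i ≠ axis n → |x i| ≤ (L : ℤ) + 1) :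
    (2 * (L : ℤ) + 3 ≤ x (axis n) → (x ∈ hs n ↔ 0 < n (axis n))) ∧
      (x (axis n) ≤ -(2 * (L : ℤ) + 3) → (x ∈ hs n ↔ n (axis n) < 0)) := by
  have hk := axis_half hn
  have hr : |∑ i ∈ Finset.univ.erase (axis n), n i * (x i : ℝ)| ≤
      2 * (|n (axis n)| * (L + 1)) := by
    refine (Finset.abs_sum_le_sum_abs _ _).trans ?_
    have h : ∀ i ∈ Finset.univ.erase (axis n), |n i * (x i : ℝ)| ≤ |n (axis n)| * (L + 1) := by
      intro i hi
      rw [abs_mul]
      have h1 : |(x i : ℝ)| ≤ L + 1 := by exact_mod_cast hx i (Finset.ne_of_mem_erase hi)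
      exact mul_le_mul (axis_ge n i) h1 (abs_nonneg _) (abs_nonneg _)
    refine (Finset.sum_le_card_nsmul _ _ _ h).trans ?_
    rw [Finset.card_erase_of_mem (Finset.mem_univ _), Finset.card_univ, Fintype.card_fin,
      nsmul_eq_mul]
    norm_num
  have hd : dot n x = n (axis n) * (x (axis n) : ℝ) +
      ∑ i ∈ Finset.univ.erase (axis n), n i * (x i : ℝ) := by
    unfold dot
    rw [Finset.add_sum_erase _ (fun i => n i * (x i : ℝ)) (Finset.mem_univ _)]
  have hm : x ∈ hs n ↔ 0 ≤ dot n x := Iff.rfl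
  rw [hm, hd]
  obtain ⟨h1, h2⟩ := abs_le.1 hr
  generalize (∑ i ∈ Finset.univ.erase (axis n), n i * (x i : ℝ)) = r at h1 h2
  generalize n (axis n) = a at h1 h2 hk
  have hL : (0 : ℝ) ≤ L := Nat.cast_nonneg L
  constructor
  · intro h
    have h' : 2 * (L : ℝ) + 3 ≤ (x (axis n) : ℝ) := by exact_mod_cast h
    rcases le_or_gt 0 a with ha | ha
    · rw [abs_of_nonneg ha] at h1 h2 hk
      exact ⟨fun _ => by linarith only [hk], fun _ => by nlinarith⟩
    · rw [abs_of_neg ha] at h1 h2 hk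
      exact ⟨fun h0 => by nlinarith only [h2, ha, h0, hk, h1, h'], fun h0 => by linarith⟩
  · intro h
    have h' : (x (axis n) : ℝ) ≤ -(2 * (L : ℝ) + 3) := by exact_mod_cast h
    rcases le_or_gt 0 a with ha | ha
    · rw [abs_of_nonneg ha] at h1 h2 hk
      exact ⟨fun h0 => by nlinarith only [h2, hk, h0, h1, h'], fun h0 => by linarith⟩
    · rw [abs_of_neg ha] at h1 h2 hk
      exact ⟨fun _ => ha, fun _ => by nlinarith only [h1, ha, hk, h', h2]⟩

theorem Tau1_mem_cyl {k : Fin 3} {L M : ℕ} {x : Site} :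
    x ∈ cyl k L M ↔ |x k| ≤ (M : ℤ) ∧ ∀ i, i ≠ k → |x i| ≤ (L : ℤ) := by
  rw [cyl_eq_tile, mem_tile]
  constructor
  · intro h
    refine ⟨by simpa using h k, fun i hi => by simpa [hi] using h i⟩
  · rintro ⟨h1, h2⟩ i
    by_cases hi : i = k
    · simpa [hi] using h1
    · simpa [hi] using h2 i hi

theorem Tau1_near_cyl {k : Fin 3} {L M : ℕ} {x y : Site} (hy : y ∈ cyl k L M) (h : Near 1 x y) :
    x ∈ cyl k (L + 1) (M + 1) := by
  rw [Tau1_mem_cyl] at hy ⊢
  refine ⟨?_, fun i hi => ?_⟩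
  · have h1 := abs_le.1 (h k)
    have h2 := abs_le.1 hy.1
    rw [abs_le]
    push_cast at h1 ⊢
    constructor <;> linarith only [h2, h1, h1.1, h1.2, h2.1, h2.2]
  · have h1 := abs_le.1 (h i)
    have h2 := abs_le.1 (hy.2 i hi)
    rw [abs_le]
    push_cast at h1 ⊢
    constructor <;> linarith [h1.1, h1.2, h2.1, h2.2]

/-- Some endpoint in `Λ` is near both endpoints. -/
theorem Tau1_end {Λ : Finset Site} {b : Bond} (hb : b ∈ bonds Λ) :
    ∃ y ∈ Λ, (y = b.1 ∨ y = tip b) ∧ Near 1 b.1 y ∧ Near 1 (tip b) y := by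
  rcases mem_bonds.1 hb with h | h
  · exact ⟨_, h, Or.inl rfl, Near.refl _ _, (near_tip b).symm⟩
  · exact ⟨_, h, Or.inr rfl, near_tip b, Near.refl _ _⟩

theorem Rt_monoM {β : ℝ} (hβ : 0 ≤ β) {n : E3} (hn : ‖n‖ = 1) {L M M' : ℕ} (hM : 2 * L + 6 ≤ M)
    (h : M ≤ M') : Rt β (cyl (axis n) L M) (hs n) ≤ Rt β (cyl (axis n) L M') (hs n) := by
  have hsub : cyl (axis n) L M ⊆ cyl (axis n) L M' := by
    intro x hx
    rw [Tau1_mem_cyl] at hx ⊢
    exact ⟨hx.1.trans (by exact_mod_cast h), hx.2⟩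
  have hmono := Rt_mono hβ hsub (hs n)
  have hemp : (bonds (cyl (axis n) L M') \ bonds (cyl (axis n) L M)).filter (Cuts (hs n)) = ∅ := by
    refine Finset.filter_eq_empty_iff.2 fun b hb hc => hc ?_
    obtain ⟨hb', hb0⟩ := Finset.mem_sdiff.1 hb
    obtain ⟨y, hy, hy', h1, h2⟩ := Tau1_end hb'
    have hy0 : y ∉ cyl (axis n) L M := by
      intro h0
      rcases hy' with rfl | rfl
      · exact hb0 (mem_bonds.2 (Or.inl h0))
      · exact hb0 (mem_bonds.2 (Or.inr h0))
    have hc1 := (Tau1_mem_cyl.1 (Tau1_near_cyl hy h1)).2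
    have hc2 := (Tau1_mem_cyl.1 (Tau1_near_cyl hy h2)).2
    push_cast at hc1 hc2
    have s1 := Tau1_sign hn hc1
    have s2 := Tau1_sign hn hc2
    have hyk : ¬ |y (axis n)| ≤ (M : ℤ) := fun h0 =>
      hy0 (Tau1_mem_cyl.2 ⟨h0, (Tau1_mem_cyl.1 hy).2⟩)
    have hM' : 2 * (L : ℤ) + 6 ≤ M := by exact_mod_cast hM
    have k1 := abs_le.1 (h1 (axis n))
    have k2 := abs_le.1 (h2 (axis n))
    push_cast at k1 k2
    rw [abs_le, not_and_or, not_le, not_le] at hyk
    rcases hyk with hyk | hyk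
    · rw [s1.2 (by linarith only [hM, k1, hyk, k1.1, k1.2]), s2.2 (by linarith [k2.1, k2.2])]
    · rw [s1.1 (by linarith [k1.1, k1.2]), s2.1 (by linarith [k2.1, k2.2])]
  rw [hemp] at hmono
  simpa using hmono

theorem Tau1_Rt_empty (β : ℝ) (H : Set Site) : Rt β ∅ H = 1 := by
  have hb : bonds ∅ = ∅ := by
    ext b
    simp [mem_bonds]
  unfold Rt Zb Z0 w
  simp [hb, cut_empty]

theorem Tau1_update_tip (b : Bond) :
    Function.update (tip b) b.2 0 = Function.update b.1 b.2 0 := by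
  funext i
  by_cases hi : i = b.2
  · rw [hi, Function.update_self, Function.update_self]
  · rw [Function.update_of_ne hi, Function.update_of_ne hi, tip_apply, if_neg hi, add_zero]

theorem Rt_axis {β : ℝ} (hβ : 0 ≤ β) (i : Fin 3) {n : E3}
    (hn : n = EuclideanSpace.single i 1 ∨ n = -EuclideanSpace.single i 1) (L M : ℕ) :
    |n (axis n)| = 1 ∧
      Real.exp (-(2 * β * (2 * (L : ℝ) + 1) ^ 2)) ≤ Rt β (cyl (axis n) L M) (hs n) := by
  have hn1 : ‖n‖ = 1 := by
    rcases hn with h | h <;> simp [h]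
  have hi : |n i| = 1 := by
    rcases hn with h | h <;> simp [h]
  have h0 : ∀ j, j ≠ i → n j = 0 := by
    intro j hj
    rcases hn with h | h <;> simp [h, hj]
  have h1 : |n (axis n)| = 1 := le_antisymm (coord_le_one hn1 _) (hi ▸ axis_ge n i)
  have hk : axis n = i := by
    by_contra hne
    rw [h0 _ hne] at h1
    simp at h1
  refine ⟨h1, ?_⟩
  rw [hk]
  have hdot : ∀ x : Site, dot n x = n i * (x i : ℝ) := by
    intro x
    unfold dot
    refine Finset.sum_eq_single i (fun j _ hj => by rw [h0 j hj, zero_mul]) (by simp)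
  obtain ⟨c, hc⟩ : ∃ c : ℤ, ∀ b : Bond, Cuts (hs n) b → b.2 = i ∧ b.1 i = c := by
    have key : ∀ b : Bond, Cuts (hs n) b →
        b.2 = i ∧ ¬ (0 ≤ n i * (b.1 i : ℝ) ↔ 0 ≤ n i * ((b.1 i : ℝ) + 1)) := by
      intro b hb
      have hb' : ¬ (0 ≤ dot n b.1 ↔ 0 ≤ dot n (tip b)) := hb
      rw [hdot, hdot, tip_apply] at hb'
      by_cases hbi : i = b.2
      · rw [if_pos hbi] at hb'
        push_cast at hb'
        exact ⟨hbi.symm, hb'⟩
      · rw [if_neg hbi, add_zero] at hb'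
        exact absurd Iff.rfl hb'
    rcases (abs_eq zero_le_one).1 hi with h | h
    · refine ⟨-1, fun b hb => ⟨(key b hb).1, ?_⟩⟩
      have h2 := (key b hb).2
      rw [h, one_mul, one_mul] at h2
      have e1 : (0 : ℝ) ≤ (b.1 i : ℝ) ↔ 0 ≤ b.1 i := by exact_mod_cast Iff.rfl
      have e2 : (0 : ℝ) ≤ (b.1 i : ℝ) + 1 ↔ 0 ≤ b.1 i + 1 := by exact_mod_cast Iff.rfl
      rw [e1, e2] at h2
      omega
    · refine ⟨0, fun b hb => ⟨(key b hb).1, ?_⟩⟩
      have h2 := (key b hb).2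
      rw [h, neg_one_mul, neg_one_mul] at h2
      have e1 : (0 : ℝ) ≤ -(b.1 i : ℝ) ↔ 0 ≤ -b.1 i := by exact_mod_cast Iff.rfl
      have e2 : (0 : ℝ) ≤ -((b.1 i : ℝ) + 1) ↔ 0 ≤ -(b.1 i + 1) := by exact_mod_cast Iff.rfl
      rw [e1, e2] at h2
      omega
  have hcard : ((bonds (cyl i L M) \ bonds ∅).filter (Cuts (hs n))).card ≤ (2 * L + 1) ^ 2 := by
    rw [← cols_tile 0 i L M, ← cyl_eq_tile]
    refine Finset.card_le_card_of_injOn (fun b => Function.update b.1 i 0) ?_ ?_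
    · intro b hb
      obtain ⟨hb1, hb2⟩ := Finset.mem_filter.1 (Finset.mem_coe.1 hb)
      refine Finset.mem_coe.2 (Finset.mem_image.2 ?_)
      rcases mem_bonds.1 (Finset.mem_sdiff.1 hb1).1 with h | h
      · exact ⟨_, h, rfl⟩
      · refine ⟨_, h, ?_⟩
        have := Tau1_update_tip b
        rwa [(hc b hb2).1] at this
    · intro b hb b' hb' h
      obtain ⟨e1, e2⟩ := hc b (Finset.mem_filter.1 (Finset.mem_coe.1 hb)).2
      obtain ⟨e1', e2'⟩ := hc b' (Finset.mem_filter.1 (Finset.mem_coe.1 hb')).2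
      refine Prod.ext (funext fun j => ?_) (e1.trans e1'.symm)
      by_cases hj : j = i
      · rw [hj, e2, e2']
      · have := congrFun h j
        simpa [Function.update_of_ne hj] using this
  have hmono := Rt_mono hβ (Finset.empty_subset (cyl i L M)) (hs n)
  rw [Tau1_Rt_empty, one_mul] at hmono
  refine le_trans (Real.exp_le_exp.2 ?_) hmono
  have hcard' : (((bonds (cyl i L M) \ bonds ∅).filter (Cuts (hs n))).card : ℝ) ≤
      (2 * (L : ℝ) + 1) ^ 2 := by exact_mod_cast hcard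
  nlinarith only [hβ, hcard']

/-! ### The Peierls estimate -/

/-- The configuration extended by the boundary condition. -/
def Tau1_ext (Λ O S : Finset Site) : Finset Site := S ∪ (O \ Λ)

/-- The components of the cut that leave `bonds Λ`. -/
def Tau1_T (Λ O S : Finset Site) : Finset Bond :=
  (cut (Tau1_ext Λ O S)).filter fun b =>
    ∃ r, r ∉ bonds Λ ∧ Conn (cut (Tau1_ext Λ O S)) r b

def Tau1_T1 (Λ O S : Finset Site) : Finset Bond := (Tau1_T Λ O S).filter fun b => b ∈ bonds Λ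

def Tau1_in (Λ O S : Finset Site) : Finset Site :=
  intr (cut (Tau1_ext Λ O S) \ Tau1_T Λ O S)

theorem Tau1_mem_ext {Λ O S : Finset Site} (hS : S ⊆ Λ) {x : Site} (hx : x ∉ Λ) :
    x ∈ Tau1_ext Λ O S ↔ x ∈ O := by
  unfold Tau1_ext
  rw [Finset.mem_union, Finset.mem_sdiff]
  exact ⟨fun h => h.elim (fun h => absurd (hS h) hx) fun h => h.1, fun h => Or.inr ⟨h, hx⟩⟩

theorem Tau1_mem_ext' {Λ O S : Finset Site} {x : Site} (hx : x ∈ Λ) :
    x ∈ Tau1_ext Λ O S ↔ x ∈ S := by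
  unfold Tau1_ext
  rw [Finset.mem_union, Finset.mem_sdiff]
  exact ⟨fun h => h.elim id fun h => absurd hx h.2, Or.inl⟩

theorem Tau1_mem_T {Λ O S : Finset Site} {b : Bond} : b ∈ Tau1_T Λ O S ↔
    b ∈ cut (Tau1_ext Λ O S) ∧ ∃ r, r ∉ bonds Λ ∧ Conn (cut (Tau1_ext Λ O S)) r b := by
  unfold Tau1_T
  rw [Finset.mem_filter]

theorem Tau1_mem_T1 {Λ O S : Finset Site} {b : Bond} :
    b ∈ Tau1_T1 Λ O S ↔ b ∈ Tau1_T Λ O S ∧ b ∈ bonds Λ := by
  unfold Tau1_T1
  rw [Finset.mem_filter]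

theorem Tau1_clopen (Λ O S : Finset Site) : Clopen (Tau1_T Λ O S) (cut (Tau1_ext Λ O S)) := by
  refine ⟨fun b hb => (Tau1_mem_T.1 hb).1, fun b hb b' hb' h => ?_⟩
  obtain ⟨h1, r, hr, hc⟩ := Tau1_mem_T.1 hb
  exact Tau1_mem_T.2 ⟨hb', r, hr, Relation.ReflTransGen.tail hc ⟨h1, hb', h⟩⟩

theorem Tau1_cut_in (Λ O S : Finset Site) :
    cut (Tau1_in Λ O S) = cut (Tau1_ext Λ O S) \ Tau1_T Λ O S :=
  cut_intr (Tau1_clopen Λ O S).sdiff

theorem Tau1_cut_in_sub (Λ O S : Finset Site) : cut (Tau1_in Λ O S) ⊆ bonds Λ := by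
  intro b hb
  rw [Tau1_cut_in, Finset.mem_sdiff] at hb
  by_contra h
  exact hb.2 (Tau1_mem_T.2 ⟨hb.1, b, h, Relation.ReflTransGen.refl⟩)

theorem Tau1_split (Λ O S : Finset Site) (b : Bond) :
    (b ∈ cut (Tau1_ext Λ O S) ∧ b ∈ bonds Λ) ↔ b ∈ Tau1_T1 Λ O S ∨ b ∈ cut (Tau1_in Λ O S) := by
  constructor
  · rintro ⟨h1, h2⟩
    by_cases h : b ∈ Tau1_T Λ O S
    · exact Or.inl (Tau1_mem_T1.2 ⟨h, h2⟩)
    · exact Or.inr (by rw [Tau1_cut_in]; exact Finset.mem_sdiff.2 ⟨h1, h⟩)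
  · rintro (h | h)
    · obtain ⟨h1, h2⟩ := Tau1_mem_T1.1 h
      exact ⟨(Tau1_mem_T.1 h1).1, h2⟩
    · refine ⟨?_, Tau1_cut_in_sub Λ O S h⟩
      rw [Tau1_cut_in] at h
      exact (Finset.mem_sdiff.1 h).1

theorem Tau1_disj (Λ O S : Finset Site) : Disjoint (Tau1_T1 Λ O S) (cut (Tau1_in Λ O S)) := by
  refine Finset.disjoint_left.2 fun b hb hb' => ?_
  rw [Tau1_cut_in] at hb'
  exact (Finset.mem_sdiff.1 hb').2 (Tau1_mem_T1.1 hb).1

theorem Tau1_inj {Λ O S S' : Finset Site} (hS : S ⊆ Λ) (hS' : S' ⊆ Λ)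
    (h1 : Tau1_T1 Λ O S = Tau1_T1 Λ O S') (h2 : Tau1_in Λ O S = Tau1_in Λ O S') : S = S' := by
  have h : Tau1_ext Λ O S = Tau1_ext Λ O S' := by
    refine cut_inj (Finset.ext fun b => ?_)
    by_cases hb : b ∈ bonds Λ
    · have e1 := Tau1_split Λ O S b
      have e2 := Tau1_split Λ O S' b
      rw [h1, h2, ← e2] at e1
      simpa [hb] using e1
    · rw [mem_bonds, not_or] at hb
      rw [mem_cut, mem_cut, Tau1_mem_ext hS hb.1, Tau1_mem_ext hS hb.2, Tau1_mem_ext hS' hb.1,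
        Tau1_mem_ext hS' hb.2]
  ext x
  by_cases hx : x ∈ Λ
  · rw [← Tau1_mem_ext' (O := O) (S := S) hx, h, Tau1_mem_ext' hx]
  · exact ⟨fun h => absurd (hS h) hx, fun h => absurd (hS' h) hx⟩

theorem Tau1_cut_symm (Λ O S : Finset Site) :
    cut (Tau1_ext Λ O S ∆ Tau1_in Λ O S) = Tau1_T Λ O S := by
  rw [cut_symmDiff, Tau1_cut_in]
  ext b
  rw [Finset.mem_symmDiff, Finset.mem_sdiff]
  have := @Tau1_mem_T Λ O S b
  (clear * - this; grind)

/-- The partition function is bounded by a sum over interfaces times the free one. -/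
theorem Tau1_Zb_le (β : ℝ) {Λ O : Finset Site} (hΛ : IsBox Λ) {H : Set Site}
    (hO : ∀ x, (∃ y ∈ Λ, Near 1 x y) → (x ∈ O ↔ x ∈ H)) :
    Zb β Λ H ≤ (∑ T ∈ Λ.powerset.image (Tau1_T1 Λ O), Real.exp (-(2 * β * T.card))) * Z0 β Λ := by
  have hterm : ∀ S ∈ Λ.powerset, Real.exp (-(2 * β *
      ((bonds Λ).filter fun b => Cuts ((S : Set Site) ∪ (H \ (Λ : Set Site))) b).card)) =
      Real.exp (-(2 * β * (Tau1_T1 Λ O S).card)) * w β (Tau1_in Λ O S) := by
    intro S hS
    have hS' := Finset.mem_powerset.1 hS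
    have hm : ∀ x, (∃ y ∈ Λ, Near 1 x y) →
        (x ∈ (S : Set Site) ∪ (H \ (Λ : Set Site)) ↔ x ∈ Tau1_ext Λ O S) := by
      intro x hx
      unfold Tau1_ext
      rw [Finset.mem_union, Finset.mem_sdiff, hO x hx]
      rfl
    have e : ((bonds Λ).filter fun b => Cuts ((S : Set Site) ∪ (H \ (Λ : Set Site))) b) =
        (Tau1_T1 Λ O S).disjUnion (cut (Tau1_in Λ O S)) (Tau1_disj Λ O S) := by
      ext b
      rw [Finset.mem_disjUnion, ← Tau1_split, Finset.mem_filter, and_comm]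
      refine and_congr_left fun hb => ?_
      obtain ⟨y, hy, -, n1, n2⟩ := Tau1_end hb
      unfold Cuts
      rw [mem_cut, hm _ ⟨y, hy, n1⟩, hm _ ⟨y, hy, n2⟩]
    rw [e, Finset.card_disjUnion, w, ← Real.exp_add]
    congr 1
    push_cast
    ring
  unfold Zb Z0
  rw [Finset.sum_congr rfl hterm, Finset.sum_mul_sum, ← Finset.sum_product']
  rw [← Finset.sum_image (s := Λ.powerset) (g := fun S => (Tau1_T1 Λ O S, Tau1_in Λ O S))
    (f := fun p : Finset Bond × Finset Site => Real.exp (-(2 * β * p.1.card)) * w β p.2)]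
  · refine Finset.sum_le_sum_of_subset_of_nonneg ?_ fun p _ _ =>
      (mul_pos (Real.exp_pos _) (w_pos _ _)).le
    intro p hp
    obtain ⟨S, hS, rfl⟩ := Finset.mem_image.1 hp
    exact Finset.mem_product.2 ⟨Finset.mem_image_of_mem _ hS,
      Finset.mem_powerset.2 (sub_box hΛ (Tau1_cut_in_sub Λ O S))⟩
  · intro S hS S' hS' h
    exact Tau1_inj (Finset.mem_powerset.1 hS) (Finset.mem_powerset.1 hS')
      (congrArg Prod.fst h) (congrArg Prod.snd h)

theorem Tau1_rooted {Λ O S : Finset Site} {Q : Finset Bond}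
    (hQ : ∀ u ∈ cut (Tau1_ext Λ O S), u ∉ bonds Λ → (∃ v ∈ bonds Λ, Adj u v) → u ∈ Q) :
    Rooted (nbhd Q) (Tau1_T1 Λ O S) := by
  intro b hb
  obtain ⟨h1, h2⟩ := Tau1_mem_T1.1 hb
  obtain ⟨-, r, hr, hc⟩ := Tau1_mem_T.1 h1
  clear hb h1
  induction hc with
  | refl => exact absurd h2 hr
  | @tail u v hu huv ih =>
    have hv : v ∈ Tau1_T1 Λ O S :=
      Tau1_mem_T1.2 ⟨Tau1_mem_T.2 ⟨huv.2.1, r, hr, Relation.ReflTransGen.tail hu huv⟩, h2⟩
    by_cases hub : u ∈ bonds Λ
    · obtain ⟨ρ, hρ, hρT, hcρ⟩ := ih hub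
      exact ⟨ρ, hρ, hρT, Relation.ReflTransGen.tail hcρ
        ⟨Tau1_mem_T1.2 ⟨Tau1_mem_T.2 ⟨huv.1, r, hr, hu⟩, hub⟩, hv, huv.2.2⟩⟩
    · exact ⟨v, mem_nbhd.2 ⟨u, hQ u huv.1 hub ⟨v, h2, huv.2.2⟩, huv.2.2⟩, hv,
        Relation.ReflTransGen.refl⟩

/-- Every column contains a bond of the interface. -/
theorem Tau1_cols {n : E3} (hn : ‖n‖ = 1) {L M : ℕ} (hM : 2 * L + 6 ≤ M) {O S : Finset Site}
    (hO : ∀ x ∈ cyl (axis n) (L + 1) (M + 1), x ∈ O ↔ x ∈ hs n) (hS : S ⊆ cyl (axis n) L M) :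
    (2 * L + 1) ^ 2 ≤ (Tau1_T1 (cyl (axis n) L M) O S).card := by
  set k := axis n with hk
  set Λ := cyl k L M with hΛ
  have hbox : IsBox Λ := by
    rw [hΛ, cyl_eq_tile]
    exact isBox_tile _ _ _ _
  have hin : Tau1_in Λ O S ⊆ Λ := sub_box hbox (Tau1_cut_in_sub Λ O S)
  rw [← cols_tile 0 k L M, ← cyl_eq_tile, ← hΛ]
  refine le_trans (Finset.card_le_card ?_)
    (Finset.card_image_le (f := fun b : Bond => Function.update b.1 k 0))
  intro u hu
  obtain ⟨z, hz, rfl⟩ := Finset.mem_image.1 hu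
  have hz' := (Tau1_mem_cyl.1 hz).2
  have hM' : 2 * (L : ℤ) + 6 ≤ M := by exact_mod_cast hM
  have hM0 : (0 : ℤ) ≤ M := Int.natCast_nonneg M
  set J := Tau1_ext Λ O S ∆ Tau1_in Λ O S with hJ
  have hoth : ∀ (t : ℤ) (i : Fin 3), i ≠ k → |Function.update z k t i| ≤ (L : ℤ) + 1 := by
    intro t i hi
    rw [Function.update_of_ne hi]
    linarith [hz' i hi]
  have hmem : ∀ t : ℤ, |t| = M + 1 →
      (Function.update z k t ∈ J ↔ Function.update z k t ∈ hs n) := by
    intro t ht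
    have h1 : Function.update z k t ∉ Λ := by
      intro h
      have := (Tau1_mem_cyl.1 h).1
      rw [Function.update_self] at this
      linarith
    have h2 : Function.update z k t ∈ cyl k (L + 1) (M + 1) := by
      refine Tau1_mem_cyl.2 ⟨?_, fun i hi => ?_⟩
      · rw [Function.update_self, ht]
        push_cast
        exact le_rfl
      · push_cast
        exact hoth t i hi
    rw [hJ, Finset.mem_symmDiff, Tau1_mem_ext hS h1, hO _ h2]
    have h3 : Function.update z k t ∉ Tau1_in Λ O S := fun h => h1 (hin h)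
    exact ⟨fun h => h.elim (·.1) (fun h => (h3 h.1).elim), fun h => Or.inl ⟨h, h3⟩⟩
  have htop : Function.update z k ((M : ℤ) + 1) ∈ J ↔ 0 < n k := by
    rw [hmem _ (abs_of_nonneg (by linarith only [hM]))]
    refine (Tau1_sign hn (hoth _)).1 ?_
    rw [← hk, Function.update_self]
    linarith
  have hbot : Function.update z k (-((M : ℤ) + 1)) ∈ J ↔ n k < 0 := by
    rw [hmem _ (by rw [abs_neg]; exact abs_of_nonneg (by linarith))]
    refine (Tau1_sign hn (hoth _)).2 ?_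
    rw [← hk, Function.update_self]
    linarith
  obtain ⟨b, hb, hbi⟩ : ∃ b : Bond, Cuts (J : Set Site) b ∧ ∀ i,
      min (Function.update z k ((M : ℤ) + 1) i) (Function.update z k (-((M : ℤ) + 1)) i) ≤ b.1 i ∧
      tip b i ≤
        max (Function.update z k ((M : ℤ) + 1) i) (Function.update z k (-((M : ℤ) + 1)) i) := by
    have hk0 := axis_half hn
    rw [← hk] at hk0
    rcases lt_trichotomy (n k) 0 with h | h | h
    · obtain ⟨b, hb, hbi⟩ := hullPath (H := (J : Set Site)) (hbot.2 h)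
        (fun h' => absurd (htop.1 h') (not_lt.2 h.le))
      exact ⟨b, hb, fun i => by rw [min_comm, max_comm]; exact hbi i⟩
    · rw [h, abs_zero] at hk0
      norm_num at hk0
    · exact hullPath (H := (J : Set Site)) (htop.2 h)
        (fun h' => absurd (hbot.1 h') (not_lt.2 h.le))
  have hco : ∀ i, i ≠ k → b.1 i = z i ∧ tip b i = z i ∧ i ≠ b.2 := by
    intro i hi
    have h1 := hbi i
    rw [Function.update_of_ne hi, Function.update_of_ne hi, min_self, max_self] at h1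
    have h2 := tip_apply b i
    by_cases h3 : i = b.2
    · rw [if_pos h3] at h2
      omega
    · rw [if_neg h3] at h2
      exact ⟨by omega, by omega, h3⟩
  have hb2 : k = b.2 := by
    by_contra h
    exact (hco b.2 (Ne.symm h)).2.2 rfl
  have hbk := hbi k
  rw [Function.update_self, Function.update_self, min_eq_right (by linarith only [hM]),
    max_eq_left (by linarith)] at hbk
  have htk := tip_apply b k
  rw [if_pos hb2] at htk
  have hbΛ : b ∈ bonds Λ := by
    rw [mem_bonds]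
    by_cases h : -(M : ℤ) ≤ b.1 k
    · refine Or.inl (Tau1_mem_cyl.2 ⟨abs_le.2 ⟨h, by omega⟩, fun i hi => ?_⟩)
      rw [(hco i hi).1]
      exact hz' i hi
    · refine Or.inr (Tau1_mem_cyl.2 ⟨abs_le.2 ⟨by omega, by omega⟩, fun i hi => ?_⟩)
      rw [(hco i hi).2.1]
      exact hz' i hi
  refine Finset.mem_image.2 ⟨b, Tau1_mem_T1.2 ⟨?_, hbΛ⟩, funext fun i => ?_⟩
  · rw [← Tau1_cut_symm, mem_cut]
    exact hb
  · by_cases hi : i = k
    · rw [hi, Function.update_self, Function.update_self]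
    · rw [Function.update_of_ne hi, Function.update_of_ne hi, (hco i hi).1]

theorem Tau1_exp : Real.exp (-6) ≤ 1 / 243 := by
  rw [Real.exp_neg, one_div]
  refine inv_anti₀ (by norm_num) ?_
  have h : (5 / 2 : ℝ) ≤ Real.exp 1 := by linarith only [Real.exp_one_gt_d9]
  have h6 : Real.exp 6 = Real.exp 1 ^ 6 := by
    rw [← Real.exp_nat_mul]
    norm_num
  rw [h6]
  calc (243 : ℝ) ≤ (5 / 2) ^ 6 := by norm_num
    _ ≤ _ := pow_le_pow_left₀ (by norm_num) h 6

theorem Rt_upper {β : ℝ} (hβ : 1000 ≤ β) {n : E3} (hn : ‖n‖ = 1) {L M : ℕ} (hM : 2 * L + 6 ≤ M) :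
    Rt β (cyl (axis n) L M) (hs n) ≤
      Real.exp (-((2 * β - 6) * (2 * (L : ℝ) + 1) ^ 2) + 20000 * (L + 1)) := by
  set Λ := cyl (axis n) L M with hΛ
  set O := (cyl (axis n) (L + 1) (M + 1)).filter fun x => x ∈ hs n with hOdef
  have hO : ∀ x ∈ cyl (axis n) (L + 1) (M + 1), x ∈ O ↔ x ∈ hs n := by
    intro x hx
    rw [hOdef, Finset.mem_filter]
    exact ⟨fun h => h.2, fun h => ⟨hx, h⟩⟩
  have hbox : IsBox Λ := by
    rw [hΛ, cyl_eq_tile]
    exact isBox_tile _ _ _ _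
  set F := (tile 0 (axis n) (L + 1) (M + 1) \ tile 0 (axis n) L M).filter
    fun x => |dot n x - 0| ≤ 2 with hF
  have hFc : F.card ≤ 72 * (L + 1) :=
    shell_slab hn 0 L M (M + 1) hM 0 (by simp [dot])
  set P := nbhd (F ×ˢ (Finset.univ : Finset (Fin 3))) with hP
  have hPc : P.card ≤ 20000 * (L + 1) := by
    refine (card_nbhd _).trans ?_
    rw [Finset.card_product, Finset.card_univ, Fintype.card_fin]
    omega
  have hroot : ∀ T ∈ Λ.powerset.image (Tau1_T1 Λ O), Rooted P T := by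
    intro T hT
    obtain ⟨S, hS, rfl⟩ := Finset.mem_image.1 hT
    have hS' := Finset.mem_powerset.1 hS
    refine Tau1_rooted ?_
    rintro u hu hub ⟨v, hv, hadj⟩
    obtain ⟨y, hy, hy', -, -⟩ := Tau1_end hv
    have hnear : Near 1 u.1 y ∧ Near 1 (tip u) y := by
      rcases hy' with rfl | rfl
      · exact ⟨hadj.1, hadj.2.2.1⟩
      · exact ⟨hadj.2.1, hadj.2.2.2⟩
    have c1 := Tau1_near_cyl hy hnear.1
    have c2 := Tau1_near_cyl hy hnear.2
    rw [mem_bonds, not_or] at hub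
    rw [mem_cut, Tau1_mem_ext hS' hub.1, Tau1_mem_ext hS' hub.2, hO _ c1, hO _ c2] at hu
    refine Finset.mem_product.2 ⟨?_, Finset.mem_univ _⟩
    rw [hF, Finset.mem_filter, Finset.mem_sdiff, ← cyl_eq_tile, ← cyl_eq_tile]
    refine ⟨⟨c1, hub.1⟩, ?_⟩
    have hu' : ¬ (0 ≤ dot n u.1 ↔ 0 ≤ dot n (tip u)) := hu
    rw [dot_tip] at hu'
    obtain ⟨a1, a2⟩ := abs_le.1 (coord_le_one hn u.2)
    rw [sub_zero, abs_le]
    constructor
    · by_contra h
      exact hu' ⟨fun h' => by linarith only [h, h', not_le.1 h], fun h' => by linarith [not_le.1 h]⟩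
    · by_contra h
      exact hu' ⟨fun _ => by linarith [not_le.1 h], fun _ => by linarith [not_le.1 h]⟩
  have hZ := Tau1_Zb_le β hbox (O := O) (H := hs n)
    (fun x ⟨y, hy, h⟩ => hO x (Tau1_near_cyl hy h))
  unfold Rt
  rw [div_le_iff₀ (Z0_pos _ _)]
  refine hZ.trans (mul_le_mul_of_nonneg_right ?_ (Z0_pos _ _).le)
  have hterm : ∀ T ∈ Λ.powerset.image (Tau1_T1 Λ O), Real.exp (-(2 * β * T.card)) ≤
      Real.exp (-((2 * β - 6) * (2 * (L : ℝ) + 1) ^ 2)) * (1 / 243 : ℝ) ^ T.card := by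
    intro T hT
    obtain ⟨S, hS, rfl⟩ := Finset.mem_image.1 hT
    have hc : (2 * (L : ℝ) + 1) ^ 2 ≤ ((Tau1_T1 Λ O S).card : ℝ) := by
      exact_mod_cast Tau1_cols hn hM hO (Finset.mem_powerset.1 hS)
    generalize (Tau1_T1 Λ O S).card = c at hc
    have e : Real.exp (-(2 * β * c)) = Real.exp (-((2 * β - 6) * c)) * Real.exp (-6) ^ c := by
      rw [← Real.exp_nat_mul, ← Real.exp_add]
      congr 1
      ring
    rw [e]
    refine mul_le_mul (Real.exp_le_exp.2 ?_) (pow_le_pow_left₀ (Real.exp_pos _).le Tau1_exp c)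
      (by positivity) (Real.exp_pos _).le
    nlinarith only [hc, hβ]
  refine (Finset.sum_le_sum hterm).trans ?_
  rw [← Finset.mul_sum, Real.exp_add]
  refine mul_le_mul_of_nonneg_left ((animals P _ hroot).trans ?_) (Real.exp_pos _).le
  have h2 : (2 : ℝ) ≤ Real.exp 1 := by linarith only [Real.exp_one_gt_d9]
  calc (2 : ℝ) ^ P.card ≤ Real.exp 1 ^ P.card := pow_le_pow_left₀ (by norm_num) h2 _
    _ = Real.exp P.card := by rw [← Real.exp_nat_mul, mul_one]
    _ ≤ _ := Real.exp_le_exp.2 (by exact_mod_cast hPc)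

end Pool.Agent.Work.MP_b59478_pr
end
end

-- merged part: Pool.Agent.Work.MP_b59478_pr.Tau2
section
/-! Subadditivity by tiling. k = axis n, q = (2 L' + 1) / (2 L + 2). Tiles indexed by pairs (a, b) in
range q: the two coordinates of the centre other than k are -L' + L + a (2 L + 2) and
-L' + L + b (2 L + 2), the k-th is the rounding that makes |dot n c| <= 1 (so |c k| <= 2 L' + 1).
The tiles are inside cyl k L' M' and not star-adjacent. Rt_mono from the union of the tiles,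
Rt_prod, Rt_tile_ge with t = 0. A bond of bonds (cyl k L' M') cut by hs n has |dot n b.1| <= 1 and
base column in [-L' - 1, L'] ^ 2; if the column belongs to the base square of a tile then b.1 is in
that tile (|b.1 k - c k| <= 2 L + 4). So the uncovered cut bonds are at most
3 * 5 * ((2 L' + 2) ^ 2 - q ^ 2 (2 L + 1) ^ 2) by slab_card.
-/

set_option autoImplicit false

noncomputable section

namespace Pool.Agent.Work.MP_b59478_pr

open Classical Filter Topology MeasureTheory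
open scoped symmDiff Pointwise

theorem Tau2_dot_single (n : E3) (k : Fin 3) (r : ℤ) : dot n (Pi.single k r) = n k * r := by
  unfold dot
  rw [Finset.sum_eq_single k]
  · simp
  · intro i _ hi
    simp [Pi.single_eq_of_ne hi]
  · simp

theorem Tau2_dot_near (n : E3) (y : Site) {R : ℝ} (h : ∀ i, i ≠ axis n → |(y i : ℝ)| ≤ R) :
    |dot n y - n (axis n) * y (axis n)| ≤ 2 * R * |n (axis n)| := by
  have h1 : dot n y - n (axis n) * y (axis n) = ∑ i ∈ Finset.univ.erase (axis n), n i * y i := by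
    unfold dot
    rw [← Finset.add_sum_erase _ _ (Finset.mem_univ (axis n))]
    ring
  rw [h1]
  calc _ ≤ ∑ i ∈ Finset.univ.erase (axis n), |n i * y i| := Finset.abs_sum_le_sum_abs _ _
    _ ≤ ∑ _i ∈ Finset.univ.erase (axis n), |n (axis n)| * R := by
        refine Finset.sum_le_sum fun i hi => ?_
        rw [abs_mul]
        exact mul_le_mul (axis_ge n i) (h i (Finset.ne_of_mem_erase hi)) (abs_nonneg _)
          (abs_nonneg _)
    _ = _ := by
        rw [Finset.sum_const, Finset.card_erase_of_mem (Finset.mem_univ _), Finset.card_univ,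
          Fintype.card_fin, nsmul_eq_mul]
        push_cast
        ring

/-- Index set of the tiles. -/
def Tau2_I (k : Fin 3) (q : ℕ) : Finset (Fin 3 → ℕ) :=
  Fintype.piFinset fun i => if i = k then {0} else Finset.range q

theorem Tau2_card_pi {α : Type} (k : Fin 3) (s t : Finset α) (hs : s.card = 1) :
    (Fintype.piFinset fun i : Fin 3 => if i = k then s else t).card = t.card ^ 2 := by
  rw [Fintype.card_piFinset, ← Finset.mul_prod_erase _ _ (Finset.mem_univ k), if_pos rfl, hs,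
    one_mul, Finset.prod_congr rfl (g := fun _ => t.card), Finset.prod_const,
    Finset.card_erase_of_mem (Finset.mem_univ _), Finset.card_univ, Fintype.card_fin]
  intro i hi
  rw [if_neg (Finset.ne_of_mem_erase hi)]

theorem Tau2_card_I (k : Fin 3) (q : ℕ) : (Tau2_I k q).card = q ^ 2 := by
  rw [Tau2_I, Tau2_card_pi k _ _ (Finset.card_singleton _), Finset.card_range]

theorem Tau2_mem_I {k : Fin 3} {q : ℕ} {a : Fin 3 → ℕ} (ha : a ∈ Tau2_I k q) :
    a k = 0 ∧ ∀ i, i ≠ k → a i < q := by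
  have h := Fintype.mem_piFinset.1 ha
  refine ⟨by simpa using h k, fun i hi => by simpa [hi] using h i⟩

theorem Tau2_ne {k : Fin 3} {q : ℕ} {a a' : Fin 3 → ℕ} (ha : a ∈ Tau2_I k q)
    (ha' : a' ∈ Tau2_I k q) (h : a ≠ a') : ∃ i, i ≠ k ∧ a i ≠ a' i := by
  by_contra hc
  push Not at hc
  apply h
  funext i
  by_cases hi : i = k
  · rw [hi, (Tau2_mem_I ha).1, (Tau2_mem_I ha').1]
  · exact hc i hi

/-- Base point of a tile. -/
def Tau2_e (k : Fin 3) (L L' : ℕ) (a : Fin 3 → ℕ) : Site :=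
  fun i => if i = k then 0 else -(L' : ℤ) + L + a i * (2 * L + 2)

/-- Centre of a tile. -/
def Tau2_c (n : E3) (L L' : ℕ) (a : Fin 3 → ℕ) : Site :=
  Tau2_e (axis n) L L' a +
    Pi.single (axis n) (round (-dot n (Tau2_e (axis n) L L' a) / n (axis n)))

theorem Tau2_c_ne (n : E3) (L L' : ℕ) (a : Fin 3 → ℕ) {i : Fin 3} (hi : i ≠ axis n) :
    Tau2_c n L L' a i = -(L' : ℤ) + L + a i * (2 * L + 2) := by
  simp [Tau2_c, Tau2_e, hi, Pi.single_eq_of_ne hi]

theorem Tau2_e_bd {k : Fin 3} {L L' q : ℕ} (hq : q = (2 * L' + 1) / (2 * L + 2))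
    {a : Fin 3 → ℕ} (ha : a ∈ Tau2_I k q) {i : Fin 3} (hi : i ≠ k) :
    0 ≤ (a i : ℤ) * (2 * L + 2) ∧ (a i : ℤ) * (2 * L + 2) + (2 * L + 2) ≤ 2 * L' + 1 := by
  refine ⟨by positivity, ?_⟩
  have h1 : (a i + 1) * (2 * L + 2) ≤ 2 * L' + 1 :=
    le_trans (Nat.mul_le_mul_right _ ((Tau2_mem_I ha).2 i hi)) (hq ▸ Nat.div_mul_le_self _ _)
  have h2 : (((a i + 1) * (2 * L + 2) : ℕ) : ℤ) ≤ ((2 * L' + 1 : ℕ) : ℤ) := by exact_mod_cast h1
  push_cast at h2
  linarith only [h1]

theorem Tau2_sep (L : ℕ) {u v : ℕ} (h : u ≠ v) :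
    (u : ℤ) * (2 * L + 2) + (2 * L + 2) ≤ v * (2 * L + 2) ∨
      (v : ℤ) * (2 * L + 2) + (2 * L + 2) ≤ u * (2 * L + 2) := by
  rcases lt_or_gt_of_ne h with h | h
  · left
    have : (u : ℤ) + 1 ≤ v := by exact_mod_cast h
    nlinarith only [h]
  · right
    have : (v : ℤ) + 1 ≤ u := by exact_mod_cast h
    nlinarith only [h]

theorem Tau2_c_dot {n : E3} (hn : ‖n‖ = 1) (L L' : ℕ) (a : Fin 3 → ℕ) :
    |dot n (Tau2_c n L L' a)| ≤ 1 := by
  have h1 := axis_half hn
  have h2 := coord_le_one hn (axis n)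
  have h0 : n (axis n) ≠ 0 := by
    intro h
    rw [h, abs_zero] at h1
    linarith
  have h3 := abs_sub_round (-dot n (Tau2_e (axis n) L L' a) / n (axis n))
  rw [Tau2_c, dot_add, Tau2_dot_single]
  have h4 : dot n (Tau2_e (axis n) L L' a) + n (axis n) *
      (round (-dot n (Tau2_e (axis n) L L' a) / n (axis n)) : ℝ) = -(n (axis n) *
      (-dot n (Tau2_e (axis n) L L' a) / n (axis n) -
        round (-dot n (Tau2_e (axis n) L L' a) / n (axis n)))) := by
    field_simp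
    ring
  rw [h4, abs_neg, abs_mul]
  nlinarith only [h2, h3, h1, abs_nonneg (n (axis n)), abs_nonneg (-dot n (Tau2_e (axis n) L L' a) / n (axis n) -
    round (-dot n (Tau2_e (axis n) L L' a) / n (axis n)))]

theorem Tau2_c_axis {n : E3} (hn : ‖n‖ = 1) {L L' q : ℕ} (hq : q = (2 * L' + 1) / (2 * L + 2))
    {a : Fin 3 → ℕ} (ha : a ∈ Tau2_I (axis n) q) :
    |Tau2_c n L L' a (axis n)| ≤ 2 * L' + 1 := by
  have h1 := axis_half hn
  have h0 : 0 < |n (axis n)| := by linarith only [h1]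
  have h2 := Tau2_dot_near n (Tau2_e (axis n) L L' a) (R := L') fun i hi => by
    have h3 := Tau2_e_bd hq ha hi
    have h4 : |Tau2_e (axis n) L L' a i| ≤ L' := by
      simp only [Tau2_e, if_neg hi]
      rw [abs_le]
      constructor <;> omega
    exact_mod_cast h4
  have h3 : Tau2_e (axis n) L L' a (axis n) = 0 := by simp [Tau2_e]
  rw [h3, Int.cast_zero, mul_zero, sub_zero] at h2
  have h4 : |-dot n (Tau2_e (axis n) L L' a) / n (axis n)| ≤ 2 * L' := by
    rw [abs_div, abs_neg, div_le_iff₀ h0]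
    exact h2
  have h5 := abs_sub_round (-dot n (Tau2_e (axis n) L L' a) / n (axis n))
  have h6 : Tau2_c n L L' a (axis n) = round (-dot n (Tau2_e (axis n) L L' a) / n (axis n)) := by
    simp [Tau2_c, h3]
  rw [h6]
  have h7 : |(round (-dot n (Tau2_e (axis n) L L' a) / n (axis n)) : ℝ)| ≤ 2 * L' + 1 := by
    rw [abs_le] at h4 h5 ⊢
    constructor <;> linarith only [h4, h5, h4.1, h4.2, h5.1, h5.2]
  exact_mod_cast h7

theorem Tau2_sub {n : E3} (hn : ‖n‖ = 1) {L M L' M' q : ℕ} (hM' : 2 * L' + 1 + M ≤ M')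
    (hq : q = (2 * L' + 1) / (2 * L + 2)) :
    (Tau2_I (axis n) q).biUnion (fun a => tile (Tau2_c n L L' a) (axis n) L M) ⊆
      cyl (axis n) L' M' := by
  intro x hx
  obtain ⟨a, ha, hx⟩ := Finset.mem_biUnion.1 hx
  rw [cyl_eq_tile, mem_tile]
  intro i
  have h1 := mem_tile.1 hx i
  rw [Pi.zero_apply, sub_zero]
  by_cases hi : i = axis n
  · have h2 := Tau2_c_axis hn hq ha
    rw [← hi] at h2
    rw [if_pos hi] at h1 ⊢
    rw [abs_le] at h1 h2 ⊢
    constructor <;> omega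
  · have h2 := Tau2_e_bd hq ha hi
    rw [if_neg hi] at h1 ⊢
    rw [Tau2_c_ne n L L' a hi] at h1
    rw [abs_le] at h1 ⊢
    constructor <;> omega

theorem Tau2_far (n : E3) (L M L' q : ℕ) : ∀ a ∈ Tau2_I (axis n) q, ∀ a' ∈ Tau2_I (axis n) q,
    a ≠ a' → ∀ x ∈ tile (Tau2_c n L L' a) (axis n) L M,
      ∀ y ∈ tile (Tau2_c n L L' a') (axis n) L M, ¬ Near 1 x y := by
  intro a ha a' ha' hne x hx y hy hxy
  obtain ⟨i, hi, hai⟩ := Tau2_ne ha ha' hne
  have h1 := mem_tile.1 hx i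
  have h2 := mem_tile.1 hy i
  have h3 := hxy i
  rw [if_neg hi, Tau2_c_ne n L L' _ hi, abs_le] at h1 h2
  rw [abs_le] at h3
  rcases Tau2_sep L hai with h | h <;> omega

/-- The base columns. -/
def Tau2_Col (k : Fin 3) (L' : ℕ) : Finset Site :=
  Fintype.piFinset fun i => if i = k then {0} else Finset.Icc (-(L' : ℤ) - 1) L'

theorem Tau2_card_free (k : Fin 3) {L L' q : ℕ} (hq : q = (2 * L' + 1) / (2 * L + 2)) :
    ((Tau2_Col k L' \ (Tau2_I k q).biUnion fun a => tile (Tau2_e k L L' a) k L 0).card : ℝ) =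
      (2 * (L' : ℝ) + 2) ^ 2 - (q : ℝ) ^ 2 * (2 * (L : ℝ) + 1) ^ 2 := by
  have h1 : ((Tau2_I k q).biUnion fun a => tile (Tau2_e k L L' a) k L 0) ⊆ Tau2_Col k L' := by
    intro x hx
    obtain ⟨a, ha, hx⟩ := Finset.mem_biUnion.1 hx
    refine Fintype.mem_piFinset.2 fun i => ?_
    have h1 := mem_tile.1 hx i
    by_cases hi : i = k
    · simp only [Tau2_e, if_pos hi] at h1 ⊢
      simpa using h1
    · have h2 := Tau2_e_bd hq ha hi
      simp only [Tau2_e, if_neg hi] at h1 ⊢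
      rw [abs_le] at h1
      rw [Finset.mem_Icc]
      constructor <;> omega
  have h2 : ((Tau2_I k q).biUnion fun a => tile (Tau2_e k L L' a) k L 0).card =
      q ^ 2 * (2 * L + 1) ^ 2 := by
    rw [Finset.card_biUnion, Finset.sum_congr rfl (g := fun _ => (2 * L + 1) ^ 2),
      Finset.sum_const, Tau2_card_I, smul_eq_mul]
    · intro a _
      rw [card_tile]
      simp
    · intro a ha a' ha' hne
      refine Finset.disjoint_left.2 fun x hx hy => ?_
      obtain ⟨i, hi, hai⟩ := Tau2_ne ha ha' hne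
      have h1 := mem_tile.1 hx i
      have h2 := mem_tile.1 hy i
      simp only [Tau2_e, if_neg hi] at h1 h2
      rw [abs_le] at h1 h2
      rcases Tau2_sep L hai with h | h <;> omega
  have h3 : (Tau2_Col k L').card = (2 * L' + 2) ^ 2 := by
    rw [Tau2_Col, Tau2_card_pi k _ _ (Finset.card_singleton _), Int.card_Icc]
    congr 1
    omega
  have h4 := Finset.card_sdiff_add_card_eq_card h1
  rw [h2, h3] at h4
  have h5 := congrArg (Nat.cast : ℕ → ℝ) h4
  push_cast at h5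
  linarith only [h5]

theorem Tau2_cut_dot {n : E3} (hn : ‖n‖ = 1) {b : Bond} (hb : Cuts (hs n) b) :
    |dot n b.1| ≤ 1 := by
  have h2 := abs_le.1 (coord_le_one hn b.2)
  have h3 := dot_tip n b
  simp only [Cuts, hs, Set.mem_ofPred_eq] at hb
  rw [abs_le]
  by_cases h4 : 0 ≤ dot n b.1
  · have h5 : ¬ 0 ≤ dot n (tip b) := fun h => hb (by simp [h, h4])
    push Not at h5
    constructor <;> linarith
  · have h5 : 0 ≤ dot n (tip b) := by
      by_contra h
      exact hb (by simp [h, h4])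
    push Not at h4
    constructor <;> linarith

theorem Tau2_count {n : E3} (hn : ‖n‖ = 1) {L M L' M' q : ℕ} (hM : 2 * L + 6 ≤ M)
    (hq : q = (2 * L' + 1) / (2 * L + 2)) :
    (((bonds (cyl (axis n) L' M') \ bonds ((Tau2_I (axis n) q).biUnion
      fun a => tile (Tau2_c n L L' a) (axis n) L M)).filter (Cuts (hs n))).card : ℝ) ≤
      15 * ((2 * (L' : ℝ) + 2) ^ 2 - (q : ℝ) ^ 2 * (2 * (L : ℝ) + 1) ^ 2) := by
  set F := Tau2_Col (axis n) L' \ (Tau2_I (axis n) q).biUnion
    fun a => tile (Tau2_e (axis n) L L' a) (axis n) L 0 with hF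
  set B := (tile 0 (axis n) (L' + 1) (M' + 1)).filter
    fun x => Function.update x (axis n) 0 ∈ F with hB
  have h1 := slab_card hn B 0 1 zero_le_one
  have h2 : (B.image fun x => Function.update x (axis n) 0) ⊆ F := by
    intro y hy
    obtain ⟨x, hx, rfl⟩ := Finset.mem_image.1 hy
    exact (Finset.mem_filter.1 hx).2
  have h3 : ((B.image fun x => Function.update x (axis n) 0).card : ℝ) ≤ F.card := by
    exact_mod_cast Finset.card_le_card h2
  have h4 : (bonds (cyl (axis n) L' M') \ bonds ((Tau2_I (axis n) q).biUnion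
      fun a => tile (Tau2_c n L L' a) (axis n) L M)).filter (Cuts (hs n)) ⊆
      (B.filter fun x => |dot n x - 0| ≤ 1) ×ˢ (Finset.univ : Finset (Fin 3)) := by
    intro b hb
    obtain ⟨hb1, hb2⟩ := Finset.mem_filter.1 hb
    obtain ⟨hb3, hb4⟩ := Finset.mem_sdiff.1 hb1
    have hd := Tau2_cut_dot hn hb2
    have hco : ∀ i, -(if i = axis n then (M' : ℤ) else (L' : ℤ)) - 1 ≤ b.1 i ∧
        b.1 i ≤ if i = axis n then (M' : ℤ) else (L' : ℤ) := by
      intro i
      rw [mem_bonds, cyl_eq_tile, mem_tile, mem_tile] at hb3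
      rcases hb3 with h | h
      · have := h i
        rw [Pi.zero_apply, sub_zero, abs_le] at this
        constructor <;> omega
      · have := h i
        rw [Pi.zero_apply, sub_zero, abs_le, tip_apply] at this
        by_cases hi : i = b.2
        · rw [if_pos hi] at this
          constructor <;> omega
        · rw [if_neg hi] at this
          constructor <;> omega
    refine Finset.mem_product.2 ⟨Finset.mem_filter.2 ⟨Finset.mem_filter.2 ⟨?_, ?_⟩,
      by rwa [sub_zero]⟩, Finset.mem_univ _⟩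
    · rw [mem_tile]
      intro i
      have := hco i
      rw [Pi.zero_apply, sub_zero, abs_le]
      split_ifs at this ⊢ <;> push_cast <;> constructor <;> omega
    · refine Finset.mem_sdiff.2 ⟨Fintype.mem_piFinset.2 fun i => ?_, fun hU => hb4 ?_⟩
      · by_cases hi : i = axis n
        · rw [if_pos hi, hi, Function.update_self]
          simp
        · have := hco i
          rw [if_neg hi] at this
          rw [if_neg hi, Function.update_of_ne hi, Finset.mem_Icc]
          exact this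
      · obtain ⟨a, ha, hx⟩ := Finset.mem_biUnion.1 hU
        refine mem_bonds.2 (Or.inl (Finset.mem_biUnion.2 ⟨a, ha, ?_⟩))
        have h5 : ∀ i, i ≠ axis n → |b.1 i - Tau2_c n L L' a i| ≤ L := by
          intro i hi
          have h6 := mem_tile.1 hx i
          rw [if_neg hi, Function.update_of_ne hi] at h6
          rw [Tau2_c_ne n L L' a hi]
          simpa only [Tau2_e, if_neg hi] using h6
        rw [mem_tile]
        intro i
        by_cases hi : i = axis n
        · rw [if_pos hi, hi]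
          have h6 := Tau2_dot_near n (b.1 - Tau2_c n L L' a) (R := L) fun i hi => by
            exact_mod_cast h5 i hi
          have h7 := Tau2_c_dot hn L L' a
          have h8 := axis_half hn
          rw [dot_sub] at h6
          have h9 : |n (axis n)| * |(((b.1 - Tau2_c n L L' a) (axis n) : ℤ) : ℝ)| ≤
              2 + 2 * L * |n (axis n)| := by
            rw [← abs_mul]
            rw [abs_le] at h6 h7 hd ⊢
            constructor <;> linarith only [hd, h6, h7, h6.1, h6.2, h7.1, h7.2, hd.1, hd.2]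
          have h10 : |(((b.1 - Tau2_c n L L' a) (axis n) : ℤ) : ℝ)| ≤ 2 * L + 4 := by
            by_contra hc
            push Not at hc
            nlinarith only [h8, h9, hc]
          have h11 : |(b.1 - Tau2_c n L L' a) (axis n)| ≤ 2 * L + 4 := by exact_mod_cast h10
          rw [Pi.sub_apply] at h11
          omega
        · rw [if_neg hi]
          exact h5 i hi
  have h5 := Finset.card_le_card h4
  rw [Finset.card_product, Finset.card_univ, Fintype.card_fin] at h5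
  have h6 := (Nat.cast_le (α := ℝ)).2 h5
  rw [← Tau2_card_free (axis n) hq, ← hF]
  push_cast at h6
  linarith only [h1, h3, h6]

theorem Rt_subadd {β : ℝ} (hβ : 0 ≤ β) {n : E3} (hn : ‖n‖ = 1) {L M L' M' q : ℕ}
    (hM : 2 * L + 6 ≤ M) (hM' : 2 * L' + 1 + M ≤ M') (hq : q = (2 * L' + 1) / (2 * L + 2)) :
    -Real.log (Rt β (cyl (axis n) L' M') (hs n)) ≤
      (q : ℝ) ^ 2 * (-Real.log (Rt β (cyl (axis n) L M) (hs n)) + 864 * β * (L + 1)) +
        30 * β * ((2 * (L' : ℝ) + 2) ^ 2 - (q : ℝ) ^ 2 * (2 * (L : ℝ) + 1) ^ 2) := by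
  have h1 := Rt_mono hβ (Tau2_sub hn hM' hq) (hs n)
  rw [Rt_prod β _ _ (Tau2_far n L M L' q)] at h1
  have h2 := Tau2_count (M' := M') hn hM hq
  have hR := Rt_pos β (cyl (axis n) L M) (hs n)
  have h3 : (Rt β (cyl (axis n) L M) (hs n) * Real.exp (-(864 * β * (L + 1)))) ^ (q ^ 2) ≤
      ∏ a ∈ Tau2_I (axis n) q, Rt β (tile (Tau2_c n L L' a) (axis n) L M) (hs n) := by
    rw [← Tau2_card_I (axis n) q, ← Finset.prod_const]
    refine Finset.prod_le_prod (fun _ _ => (mul_pos hR (Real.exp_pos _)).le) fun a _ => ?_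
    exact Rt_tile_ge hβ hn hM _ 0 (by rw [sub_zero]; exact Tau2_c_dot hn L L' a) _
      fun x _ _ => Iff.rfl
  have h4 := le_trans (mul_le_mul_of_nonneg_right h3 (Real.exp_pos _).le) h1
  have hp := pow_pos (mul_pos hR (Real.exp_pos (-(864 * β * (L + 1))))) (q ^ 2)
  have h5 := Real.log_le_log (mul_pos hp (Real.exp_pos _)) h4
  rw [Real.log_mul hp.ne' (Real.exp_pos _).ne', Real.log_pow,
    Real.log_mul hR.ne' (Real.exp_pos _).ne', Real.log_exp, Real.log_exp] at h5
  have h6 := mul_le_mul_of_nonneg_left h2 hβ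
  push_cast at h5
  linarith only [h6, h5]

end Pool.Agent.Work.MP_b59478_pr
end
end

-- merged part: Pool.Agent.Work.MP_b59478_pr.Tau3
section
/-! Existence of the surface tension. For a unit n let F L M = -log Rt (cyl k L M) (hs n). It is
antitone in M for M >= 2 L + 6 and bounded below (Rt_upper), so it converges to F L and
F L <= F L M. Passing to the limit in Rt_subadd (M' then M), dividing by (2 L' + 1) ^ 2 and letting
L' tend to infinity (q / (2 L' + 1) tends to 1 / (2 L + 2)) gives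
limsup of g <= g L + o(1), g L = F L / (2 L + 1) ^ 2; g is bounded below by Rt_upper, so g
converges. Put tau n = |n k| * lim g (by choice on unit vectors). partition_mixed and
partition_plus identify the quotient in IsTension with Rt.
wulff_facts: wulff tau lam = lam smul wulff tau 1; wulff tau 1 contains the closed cube of
half-side (2 beta - 6) / 3 (inner x n <= l1 norm of x times |n (axis n)|) and lies in boxE (2 beta);
choose lam with lam ^ 3 * vol = v; then (2 beta lam) ^ 3 <= (27/8) v (2 beta / (2 beta - 6)) ^ 3 < 1.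
-/

set_option autoImplicit false

noncomputable section

namespace Pool.Agent.Work.MP_b59478_pr

open Classical Filter Topology MeasureTheory
open scoped symmDiff Pointwise

theorem Tau3_limM (F : ℕ → ℝ) (M0 : ℕ) (B : ℝ) (h : ∀ M M', M0 ≤ M → M ≤ M' → F M' ≤ F M)
    (hB : ∀ M, M0 ≤ M → B ≤ F M) :
    ∃ l, Tendsto F atTop (𝓝 l) ∧ B ≤ l ∧ ∀ M, M0 ≤ M → l ≤ F M := by
  have ha : Antitone fun m : ℕ => F (m + M0) := fun a b hab => h _ _ (by omega) (by omega)
  have hb : BddBelow (Set.range fun m : ℕ => F (m + M0)) :=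
    ⟨B, by rintro _ ⟨m, rfl⟩; exact hB _ (by omega)⟩
  refine ⟨⨅ m : ℕ, F (m + M0), (tendsto_add_atTop_iff_nat M0).1 (tendsto_atTop_ciInf ha hb),
    le_ciInf fun m => hB _ (by omega), fun M hM => ?_⟩
  have := ciInf_le hb (M - M0)
  simpa [Nat.sub_add_cancel hM] using this

theorem Tau3_fekete (g : ℕ → ℝ) (B : ℝ) (hB : ∀ L, B ≤ g L)
    (h : ∀ ε : ℝ, 0 < ε → ∀ᶠ L : ℕ in atTop, ∀ᶠ L' : ℕ in atTop, g L' ≤ g L + ε) :
    ∃ t, Tendsto g atTop (𝓝 t) := by
  have hb : IsBoundedUnder (· ≥ ·) atTop g := isBoundedUnder_of ⟨B, hB⟩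
  have hc : IsBoundedUnder (· ≤ ·) atTop g := by
    obtain ⟨L, hL⟩ := (h 1 one_pos).exists
    exact ⟨g L + 1, hL⟩
  refine ⟨liminf g atTop, tendsto_order.2 ⟨fun a ha => eventually_lt_of_lt_liminf ha hb,
    fun a ha => ?_⟩⟩
  have he : 0 < (a - liminf g atTop) / 2 := by linarith
  have hf : ∃ᶠ L in atTop, g L < liminf g atTop + (a - liminf g atTop) / 2 :=
    frequently_lt_of_liminf_lt hc.isCoboundedUnder_ge (by linarith)
  obtain ⟨L, h1, h2⟩ := (hf.and_eventually (h _ he)).exists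
  filter_upwards [h2] with L' h3
  linarith

theorem Tau3_quot (b : ℕ) (hb : 0 < b) :
    Tendsto (fun L' : ℕ => (((2 * L' + 1) / b : ℕ) : ℝ) / (2 * (L' : ℝ) + 1)) atTop
      (𝓝 (1 / (b : ℝ))) := by
  have hb' : (0 : ℝ) < b := by exact_mod_cast hb
  have h0 : Tendsto (fun L' : ℕ => 1 / (2 * (L' : ℝ) + 1)) atTop (𝓝 0) := by
    refine tendsto_const_nhds.div_atTop ?_
    exact tendsto_atTop_add_const_right _ _
      (tendsto_natCast_atTop_atTop.const_mul_atTop (by norm_num))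
  have h1 : Tendsto (fun L' : ℕ => 1 / (b : ℝ) - 1 / (2 * (L' : ℝ) + 1)) atTop
      (𝓝 (1 / (b : ℝ))) := by simpa using h0.const_sub (1 / (b : ℝ))
  refine tendsto_of_tendsto_of_tendsto_of_le_of_le h1 tendsto_const_nhds (fun L' => ?_)
    (fun L' => ?_)
  · have ha : (0 : ℝ) < 2 * (L' : ℝ) + 1 := by positivity
    have h2 : 2 * L' + 1 < b * ((2 * L' + 1) / b + 1) := Nat.lt_mul_div_succ _ hb
    have h3 : (2 * (L' : ℝ) + 1) < b * ((((2 * L' + 1) / b : ℕ) : ℝ) + 1) := by exact_mod_cast h2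
    show 1 / (b : ℝ) - 1 / (2 * (L' : ℝ) + 1) ≤ _
    rw [sub_le_iff_le_add, ← add_div, div_le_div_iff₀ hb' ha]
    nlinarith only [h3]
  · have ha : (0 : ℝ) < 2 * (L' : ℝ) + 1 := by positivity
    have h2 : b * ((2 * L' + 1) / b) ≤ 2 * L' + 1 := Nat.mul_div_le _ _
    have h3 : b * (((2 * L' + 1) / b : ℕ) : ℝ) ≤ 2 * (L' : ℝ) + 1 := by exact_mod_cast h2
    show _ ≤ 1 / (b : ℝ)
    rw [div_le_div_iff₀ ha hb']
    nlinarith only [h3]

theorem Tau3_step {β : ℝ} (hβ : 0 ≤ β) (F : ℕ → ℝ)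
    (hB : ∀ L : ℕ, -20000 ≤ F L / (2 * (L : ℝ) + 1) ^ 2)
    (h : ∀ L L' : ℕ, F L' ≤ (((2 * L' + 1) / (2 * L + 2) : ℕ) : ℝ) ^ 2 * (F L + 864 * β * (L + 1)) +
      30 * β * ((2 * (L' : ℝ) + 2) ^ 2 -
        (((2 * L' + 1) / (2 * L + 2) : ℕ) : ℝ) ^ 2 * (2 * (L : ℝ) + 1) ^ 2))
    (ε : ℝ) (hε : 0 < ε) : ∀ᶠ L : ℕ in atTop, ∀ᶠ L' : ℕ in atTop,
      F L' / (2 * (L' : ℝ) + 1) ^ 2 ≤ F L / (2 * (L : ℝ) + 1) ^ 2 + ε := by
  have h0 : Tendsto (fun L : ℕ => (20000 + 246 * β) / ((L : ℝ) + 1)) atTop (𝓝 0) :=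
    tendsto_const_nhds.div_atTop (tendsto_atTop_add_const_right _ _ tendsto_natCast_atTop_atTop)
  have h1 : Tendsto (fun L' : ℕ => 1 / (2 * (L' : ℝ) + 1)) atTop (𝓝 0) := by
    refine tendsto_const_nhds.div_atTop ?_
    exact tendsto_atTop_add_const_right _ _
      (tendsto_natCast_atTop_atTop.const_mul_atTop (by norm_num))
  filter_upwards [h0.eventually (gt_mem_nhds hε)] with L hL
  have hq := Tau3_quot (2 * L + 2) (by omega)
  have ht := ((hq.pow 2).mul_const (F L + 864 * β * (L + 1) - 30 * β * (2 * (L : ℝ) + 1) ^ 2)).add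
    (((h1.const_add 1).pow 2).const_mul (30 * β))
  have hlt : (1 / ((2 * L + 2 : ℕ) : ℝ)) ^ 2 *
      (F L + 864 * β * (L + 1) - 30 * β * (2 * (L : ℝ) + 1) ^ 2) + 30 * β * (1 + 0) ^ 2 <
      F L / (2 * (L : ℝ) + 1) ^ 2 + ε := by
    have hb := hB L
    set g := F L / (2 * (L : ℝ) + 1) ^ 2 with hg
    have hF : F L = g * (2 * (L : ℝ) + 1) ^ 2 := by rw [hg]; field_simp
    have hl : (0 : ℝ) ≤ L := Nat.cast_nonneg L
    have e : (1 / ((2 * L + 2 : ℕ) : ℝ)) ^ 2 *
        (F L + 864 * β * (L + 1) - 30 * β * (2 * (L : ℝ) + 1) ^ 2) + 30 * β * (1 + 0) ^ 2 =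
        g + (-g * (4 * L + 3) + 864 * β * (L + 1) + 30 * β * (4 * L + 3)) / (4 * ((L : ℝ) + 1) ^ 2) := by
      rw [hF]; push_cast; field_simp; ring
    rw [e]
    have : (-g * (4 * L + 3) + 864 * β * (L + 1) + 30 * β * (4 * L + 3)) / (4 * ((L : ℝ) + 1) ^ 2) ≤
        (20000 + 246 * β) / ((L : ℝ) + 1) := by
      rw [div_le_div_iff₀ (by positivity) (by positivity)]
      have k1 : -g * (4 * L + 3) ≤ 20000 * (4 * L + 4) := by nlinarith only [hb]
      have k2 : -g * (4 * L + 3) + 864 * β * (L + 1) + 30 * β * (4 * L + 3) ≤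
          (20000 + 246 * β) * (4 * ((L : ℝ) + 1)) := by nlinarith only [hβ, k1]
      calc _ ≤ (20000 + 246 * β) * (4 * ((L : ℝ) + 1)) * ((L : ℝ) + 1) :=
            mul_le_mul_of_nonneg_right k2 (by positivity)
        _ = _ := by ring
    linarith only [hL, this]
  filter_upwards [ht.eventually (gt_mem_nhds hlt)] with L' hL'
  refine le_trans ?_ hL'.le
  have ha : (0 : ℝ) < 2 * (L' : ℝ) + 1 := by positivity
  rw [div_le_iff₀ (by positivity)]
  refine (h L L').trans (le_of_eq ?_)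
  field_simp
  ring

theorem Tau3_one {β : ℝ} (hβ : 1000 ≤ β) (n : E3) (hn : ‖n‖ = 1) : ∃ (F : ℕ → ℝ) (t : ℝ),
    (∀ L, Tendsto (fun M : ℕ => -Real.log (Rt β (cyl (axis n) L M) (hs n))) atTop (𝓝 (F L))) ∧
    (∀ L M, 2 * L + 6 ≤ M → F L ≤ -Real.log (Rt β (cyl (axis n) L M) (hs n))) ∧
    Tendsto (fun L : ℕ => F L / (2 * (L : ℝ) + 1) ^ 2) atTop (𝓝 t) ∧ 2 * β - 6 ≤ t := by
  have hβ0 : 0 ≤ β := by linarith
  have key : ∀ L : ℕ, ∃ l,
      Tendsto (fun M : ℕ => -Real.log (Rt β (cyl (axis n) L M) (hs n))) atTop (𝓝 l) ∧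
      (2 * β - 6) * (2 * (L : ℝ) + 1) ^ 2 - 20000 * (L + 1) ≤ l ∧
      ∀ M, 2 * L + 6 ≤ M → l ≤ -Real.log (Rt β (cyl (axis n) L M) (hs n)) := by
    intro L
    refine Tau3_limM _ (2 * L + 6) _ (fun M M' h1 h2 => ?_) (fun M h1 => ?_)
    · exact neg_le_neg (Real.log_le_log (Rt_pos _ _ _) (Rt_monoM hβ0 hn h1 h2))
    · have := Real.log_le_log (Rt_pos _ _ _) (Rt_upper hβ hn h1)
      rw [Real.log_exp] at this
      linarith only [this]
  choose F h1 h2 h3 using key
  have hlow : ∀ L : ℕ, 2 * β - 6 - 20000 / (2 * (L : ℝ) + 1) ≤ F L / (2 * (L : ℝ) + 1) ^ 2 := by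
    intro L
    have ha : (0 : ℝ) < 2 * (L : ℝ) + 1 := by positivity
    have hl : (0 : ℝ) ≤ L := Nat.cast_nonneg L
    rw [le_div_iff₀ (by positivity)]
    have e : (2 * β - 6 - 20000 / (2 * (L : ℝ) + 1)) * (2 * (L : ℝ) + 1) ^ 2 =
        (2 * β - 6) * (2 * (L : ℝ) + 1) ^ 2 - 20000 * (2 * (L : ℝ) + 1) := by
      field_simp
    rw [e]
    linarith only [h2 L]
  have hB : ∀ L : ℕ, -20000 ≤ F L / (2 * (L : ℝ) + 1) ^ 2 := by
    intro L
    have hl : (0 : ℝ) ≤ L := Nat.cast_nonneg L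
    have : 20000 / (2 * (L : ℝ) + 1) ≤ 20000 := div_le_self (by norm_num) (by linarith)
    linarith only [hβ, this, hlow L]
  have hsub : ∀ L L' : ℕ,
      F L' ≤ (((2 * L' + 1) / (2 * L + 2) : ℕ) : ℝ) ^ 2 * (F L + 864 * β * (L + 1)) +
      30 * β * ((2 * (L' : ℝ) + 2) ^ 2 -
        (((2 * L' + 1) / (2 * L + 2) : ℕ) : ℝ) ^ 2 * (2 * (L : ℝ) + 1) ^ 2) := by
    intro L L'
    refine ge_of_tendsto ((((h1 L).add_const (864 * β * (L + 1))).const_mul _).add_const _) ?_
    filter_upwards [eventually_ge_atTop (2 * L + 6)] with M hM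
    exact (h3 L' (2 * L' + 6 + M) (by omega)).trans (Rt_subadd hβ0 hn hM (by omega) rfl)
  obtain ⟨t, ht⟩ := Tau3_fekete _ _ hB (Tau3_step hβ0 F hB hsub)
  refine ⟨F, t, h1, h3, ht, ?_⟩
  have h0 : Tendsto (fun L : ℕ => 20000 / (2 * (L : ℝ) + 1)) atTop (𝓝 0) := by
    refine tendsto_const_nhds.div_atTop ?_
    exact tendsto_atTop_add_const_right _ _
      (tendsto_natCast_atTop_atTop.const_mul_atTop (by norm_num))
  have h4 := h0.const_sub (2 * β - 6)
  rw [sub_zero] at h4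
  exact le_of_tendsto_of_tendsto' h4 ht hlow

theorem exists_tau {β : ℝ} (hβ : 1000 ≤ β) : ∃ τ, IsTension β τ ∧ TauFacts β τ := by
  have hβ0 : 0 ≤ β := by linarith
  choose! F t h1 h2 h3 h4 using Tau3_one hβ
  have hpos : ∀ n : E3, ‖n‖ = 1 → 0 < |n (axis n)| := fun n hn => by
    linarith [axis_half hn]
  have hax : ∀ (i : Fin 3) (n : E3),
      n = EuclideanSpace.single i 1 ∨ n = -EuclideanSpace.single i 1 →
      |n (axis n)| * t n ≤ 2 * β := by
    intro i n h
    have hn : ‖n‖ = 1 := by rcases h with rfl | rfl <;> simp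
    rw [(Rt_axis hβ0 i h 0 0).1, one_mul]
    refine le_of_tendsto' (h3 n hn) fun L => ?_
    rw [div_le_iff₀ (by positivity)]
    have k := Real.log_le_log (Real.exp_pos _) (Rt_axis hβ0 i h L (2 * L + 6)).2
    rw [Real.log_exp] at k
    linarith [h2 n hn L (2 * L + 6) le_rfl]
  refine ⟨fun n => |n (axis n)| * t n, fun n hn => ?_, fun n hn => ?_, fun i => ?_,
    fun n hn δ hδ => ?_, fun n hn δ hδ => ?_⟩
  · refine ⟨fun L => |n (axis n)| * (F n L / (2 * (L : ℝ) + 1) ^ 2), fun L => ?_,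
      (h3 n hn).const_mul _⟩
    have k := (h1 n hn L).const_mul (|n (axis n)| / (2 * (L : ℝ) + 1) ^ 2)
    convert k using 2
    · rename_i M
      rw [partition_mixed, partition_plus, mul_div_mul_left _ _ (Real.exp_pos _).ne']
      unfold Rt
      ring
    · ring
  · have := mul_le_mul_of_nonneg_left (h4 n hn) (abs_nonneg (n (axis n)))
    linarith
  · exact ⟨hax i _ (Or.inl rfl), hax i _ (Or.inr rfl)⟩
  · have hp := hpos n hn
    have hlt : t n - δ / |n (axis n)| < t n := by linarith [div_pos hδ hp]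
    filter_upwards [(h3 n hn).eventually (lt_mem_nhds hlt), eventually_ge_atTop 6] with L k1 k2
    rw [← Real.log_le_iff_le_exp (Rt_pos _ _ _)]
    have k3 := h2 n hn L (3 * L) (by omega)
    rw [lt_div_iff₀ (by positivity)] at k1
    have e : (|n (axis n)| * t n - δ) * (2 * (L : ℝ) + 1) ^ 2 / |n (axis n)| =
        (t n - δ / |n (axis n)|) * (2 * (L : ℝ) + 1) ^ 2 := by field_simp
    rw [e]
    linarith only [k1, k3]
  · have hp := hpos n hn
    have hlt : t n < t n + δ / |n (axis n)| := by linarith [div_pos hδ hp]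
    filter_upwards [(h3 n hn).eventually (gt_mem_nhds hlt)] with L k1
    rw [div_lt_iff₀ (by positivity)] at k1
    filter_upwards [(h1 n hn L).eventually (gt_mem_nhds k1)] with M k2
    rw [← Real.le_log_iff_exp_le (Rt_pos _ _ _)]
    have e : (|n (axis n)| * t n + δ) * (2 * (L : ℝ) + 1) ^ 2 / |n (axis n)| =
        (t n + δ / |n (axis n)|) * (2 * (L : ℝ) + 1) ^ 2 := by field_simp
    rw [e]
    linarith only [k2]

end Pool.Agent.Work.MP_b59478_pr
end
end
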