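import Pool.Agent.Work.MP_b59478_pr.Gas4

-- merged part: Pool.Agent.Work.MP_b59478_pr.Binom
section
/-! A lower bound for binomial probabilities near the mean. Some j has probability at least
1 / (n + 1); take j maximal. The ratio of consecutive terms is (n - i) p / ((i + 1) (1 - p)), so
the maximum is within 1 of n p, and between j and k every ratio (in the direction away from the
maximum) is at least 1 - C' / sqrt n; there are at most C sqrt n + 1 steps.
Also the moments of the binomial weights.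
-/

set_option autoImplicit false

noncomputable section

namespace Pool.Agent.Work.MP_b59478_pr

open Classical Filter Topology MeasureTheory
open scoped symmDiff Pointwise

lemma Binom_chain (w : ℕ → ℝ) (N : ℕ) {a T : ℝ} (ha : 0 ≤ a) (hT : 0 ≤ T) (h0 : 0 ≤ w 0)
    (h : ∀ d < N, w (d + 1) ≤ w d ∨ ((d : ℝ) + 1 ≤ T ∧ w (d + 1) ≤ (1 + a) * w d)) :
    ∀ d ≤ N, w d ≤ Real.exp (a * T) * w 0 := by
  have key : ∀ d ≤ N, w d ≤ Real.exp (a * min (d : ℝ) T) * w 0 := by
    intro d
    induction d with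
    | zero => intro _; simp [min_eq_left hT]
    | succ d ih =>
      intro hd
      have ih' := ih (by omega)
      rcases h d (by omega) with h1 | ⟨h1, h2⟩
      · refine h1.trans (ih'.trans ?_)
        gcongr
        linarith only []
      · rw [min_eq_left (by linarith only [h1])] at ih'
        rw [min_eq_left (by push_cast; linarith)]
        push_cast
        rw [mul_add, mul_one, Real.exp_add, mul_comm (Real.exp _), mul_assoc]
        refine h2.trans ((mul_le_mul_of_nonneg_left ih' (by linarith)).trans ?_)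
        exact mul_le_mul_of_nonneg_right (by linarith [Real.add_one_le_exp a]) (by positivity)
  intro d hd
  refine (key d hd).trans ?_
  gcongr
  exact min_le_right _ _

lemma Binom_rec (n i : ℕ) (hi : i < n) (p : ℝ) :
    (n.choose (i + 1) : ℝ) * p ^ (i + 1) * (1 - p) ^ (n - (i + 1)) * (((i : ℝ) + 1) * (1 - p)) =
      (n.choose i : ℝ) * p ^ i * (1 - p) ^ (n - i) * (((n : ℝ) - i) * p) := by
  have h1 : (n.choose (i + 1) : ℝ) * ((i : ℝ) + 1) = (n.choose i : ℝ) * ((n : ℝ) - i) := by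
    have := Nat.choose_succ_right_eq n i
    rw [← Nat.cast_sub hi.le]
    exact_mod_cast this
  rw [show n - i = n - (i + 1) + 1 by omega, pow_succ, pow_succ]
  linear_combination (p ^ i * p * (1 - p) ^ (n - (i + 1)) * (1 - p)) * h1

theorem binom_local {p0 C : ℝ} (hp0 : 0 < p0) (hC : 0 ≤ C) : ∃ c : ℝ, 0 < c ∧ ∃ n0 : ℕ,
    ∀ n : ℕ, n0 ≤ n → ∀ p : ℝ, p0 ≤ p → p ≤ 1 / 2 → ∀ k : ℤ,
      |(k : ℝ) - n * p| ≤ C * Real.sqrt n → ∃ j : ℕ, (j : ℤ) = k ∧ j ≤ n ∧
        c / (n + 1) ≤ (n.choose j : ℝ) * p ^ j * (1 - p) ^ (n - j) := by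
  refine ⟨Real.exp (-(4 * C * (C + 1) / p0)), Real.exp_pos _, ⌈(2 * C / p0) ^ 2⌉₊ + 1,
    fun n hn p hp1 hp2 k hk => ?_⟩
  have hn1 : (1 : ℝ) ≤ n := by exact_mod_cast le_trans (by omega) hn
  have hn2 : (2 * C / p0) ^ 2 ≤ n := (Nat.le_ceil _).trans (by exact_mod_cast (by omega))
  obtain ⟨s, hs⟩ : ∃ s, s = Real.sqrt n := ⟨_, rfl⟩
  rw [← hs] at hk
  have hss : s * s = n := by rw [hs]; exact Real.mul_self_sqrt (by linarith only [hp0, hp1, hp2, hn1])
  have hs1 : 1 ≤ s := by rw [hs]; exact Real.one_le_sqrt.mpr hn1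
  have hs2 : 2 * C ≤ s * p0 := by
    rw [← div_le_iff₀ hp0, hs]; exact Real.le_sqrt_of_sq_le hn2
  have hp : 0 < p := by linarith only [hp0, hp1]
  have hCs : C * s ≤ n * p0 / 2 := by rw [← hss]; nlinarith only [hs2, hp0, hp1, hp2, hs1]
  rw [abs_le] at hk
  have hnp : n * p0 ≤ n * p := by gcongr
  have hnp2 : n * p ≤ n * (1 / 2) := by gcongr
  have hk0 : n * p0 / 2 ≤ (k : ℝ) := by linarith only [hk, hCs, hnp]
  have hk1 : (k : ℝ) ≤ 3 * n / 4 := by linarith only [hk, hCs, hnp, hnp2]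
  have hk0' : 0 ≤ k := by
    have : (0 : ℝ) ≤ k := le_trans (by positivity) hk0
    exact_mod_cast this
  obtain ⟨j, rfl⟩ := Int.eq_ofNat_of_zero_le hk0'
  rw [Int.cast_natCast] at hk hk0 hk1
  have hjn : j ≤ n := by
    have : (j : ℝ) ≤ n := by linarith only [hp0, hp1, hp2, hn1, hCs, hnp, hnp2, hk]
    exact_mod_cast this
  refine ⟨j, rfl, hjn, ?_⟩
  obtain ⟨w, hw⟩ : ∃ w : ℕ → ℝ, w = fun i => (n.choose i : ℝ) * p ^ i * (1 - p) ^ (n - i) :=
    ⟨_, rfl⟩
  have hq : 1 / 2 ≤ 1 - p := by linarith only [hp2]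
  have hw0 : ∀ i, 0 ≤ w i := fun i => by
    have : 0 ≤ 1 - p := by linarith only [hp0, hp1, hp2]
    rw [hw]; positivity
  have hrec : ∀ i < n, w (i + 1) * (((i : ℝ) + 1) * (1 - p)) = w i * (((n : ℝ) - i) * p) :=
    fun i hi => by rw [hw]; exact Binom_rec n i hi p
  obtain ⟨a, ha⟩ : ∃ a, a = 4 * C / (p0 * s) := ⟨_, rfl⟩
  have ha0 : 0 ≤ a := by rw [ha]; positivity
  have ha1 : a * (n * p0 / 4) = C * s := by rw [ha, ← hss]; field_simp
  have ha2 : a * (C * s + 1) ≤ 4 * C * (C + 1) / p0 := by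
    rw [ha, div_mul_eq_mul_div, div_le_div_iff₀ (by positivity) hp0]
    have : 0 ≤ C * p0 * (s - 1) := by
      have : 0 ≤ s - 1 := by linarith only [hs1]
      positivity
    nlinarith only [this]
  have hT : 0 ≤ C * s + 1 := by positivity
  have up := Binom_chain (fun d => w (j + d)) (n - j) ha0 hT (hw0 _) fun d hd => by
    have h1 := hrec (j + d) (by omega)
    have hd0 : (0 : ℝ) ≤ d := Nat.cast_nonneg d
    have hpos : 0 < (((j + d : ℕ) : ℝ) + 1) * (1 - p) := by
      have : 0 < 1 - p := by linarith only [hp0, hp1, hp2]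
      positivity
    have hw1 := hw0 (j + d)
    push_cast at h1 hpos
    by_cases hc : n * p ≤ (j : ℝ) + d
    · left
      refine le_of_mul_le_mul_right ?_ hpos
      rw [← add_assoc, h1]
      exact mul_le_mul_of_nonneg_left (by nlinarith only [hp0, hp1, hp2, hc]) hw1
    · right
      refine ⟨by linarith only [hk, hc], le_of_mul_le_mul_right ?_ hpos⟩
      rw [← add_assoc, h1, mul_comm (1 + a), mul_assoc]
      refine mul_le_mul_of_nonneg_left ?_ hw1
      have h2 : n * p0 / 4 ≤ ((j : ℝ) + d + 1) * (1 - p) := by nlinarith only [hp0, hp1, hp2, hCs, hnp, hk]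
      have h3 := mul_le_mul_of_nonneg_left h2 ha0
      nlinarith only [hp2, hk, ha1, h3]
  have down := Binom_chain (fun d => w (j - d)) j ha0 hT (hw0 _) fun d hd => by
    obtain ⟨l, hl⟩ : ∃ l, j = l + 1 + d := ⟨j - 1 - d, by omega⟩
    have h1 := hrec l (by omega)
    have hd0 : (0 : ℝ) ≤ d := Nat.cast_nonneg d
    have hl' : (j : ℝ) = l + 1 + d := by rw [hl]; push_cast; ring
    have h2 : n * p0 / 4 ≤ ((n : ℝ) - l) * p := by nlinarith only [hp0, hp1, hp2, hCs, hnp, hk, hl']
    have hpos : 0 < ((n : ℝ) - l) * p := lt_of_lt_of_le (by positivity) h2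
    have hw1 := hw0 (l + 1)
    rw [show j - (d + 1) = l by omega, show j - d = l + 1 by omega]
    by_cases hc : (l : ℝ) + 1 ≤ n * p
    · left
      refine le_of_mul_le_mul_right ?_ hpos
      rw [← h1]
      exact mul_le_mul_of_nonneg_left (by nlinarith only [hp0, hp1, hc]) hw1
    · right
      refine ⟨by linarith only [hk, hl', hc], le_of_mul_le_mul_right ?_ hpos⟩
      rw [← h1, mul_comm (1 + a), mul_assoc]
      refine mul_le_mul_of_nonneg_left ?_ hw1
      have h3 := mul_le_mul_of_nonneg_left h2 ha0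
      nlinarith only [hp0, hp1, hk, ha1, hl', h3]
  have hall : ∀ i ∈ Finset.range (n + 1), w i ≤ Real.exp (4 * C * (C + 1) / p0) * w j := by
    intro i hi
    rw [Finset.mem_range] at hi
    refine le_trans ?_ (mul_le_mul_of_nonneg_right (Real.exp_le_exp.mpr ha2) (hw0 j))
    rcases le_total j i with h | h
    · simpa [Nat.add_sub_cancel' h] using up (i - j) (by omega)
    · simpa [Nat.sub_sub_self h] using down (j - i) (by omega)
  have hsum : ∑ i ∈ Finset.range (n + 1), w i = 1 := by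
    have := add_pow p (1 - p) n
    rw [add_sub_cancel, one_pow] at this
    rw [this, hw]
    exact Finset.sum_congr rfl fun i _ => by ring
  have h1 := Finset.sum_le_card_nsmul _ _ _ hall
  rw [hsum, Finset.card_range, nsmul_eq_mul] at h1
  rw [div_le_iff₀ (by positivity), Real.exp_neg, inv_le_iff_one_le_mul₀' (Real.exp_pos _)]
  rw [hw] at h1
  push_cast at h1
  linarith only [h1]

theorem sum_powerset_card {α : Type} (F : Finset α) (g : ℕ → ℝ) :
    ∑ I ∈ F.powerset, g I.card = ∑ j ∈ Finset.range (F.card + 1), (F.card.choose j : ℝ) * g j := by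
  rw [Finset.sum_powerset]
  refine Finset.sum_congr rfl fun j _ => ?_
  rw [Finset.sum_congr rfl (g := fun _ => g j) fun I hI => by
    rw [(Finset.mem_powersetCard.mp hI).2], Finset.sum_const, Finset.card_powersetCard,
    nsmul_eq_mul]

theorem binom_zero (n : ℕ) (x : ℝ) :
    ∑ j ∈ Finset.range (n + 1), (n.choose j : ℝ) * x ^ j = (1 + x) ^ n := by
  rw [add_comm 1 x, add_pow]
  exact Finset.sum_congr rfl fun i _ => by ring

lemma Binom_pascal (n : ℕ) (x : ℝ) (f : ℕ → ℝ) :
    ∑ j ∈ Finset.range (n + 1 + 1), ((n + 1).choose j : ℝ) * x ^ j * f j =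
      ∑ j ∈ Finset.range (n + 1), (n.choose j : ℝ) * x ^ j * (f j + x * f (j + 1)) := by
  have h := Finset.sum_range_succ' (fun j => (n.choose j : ℝ) * x ^ j * f j) (n + 1)
  rw [Finset.sum_range_succ, Nat.choose_succ_self] at h
  rw [Finset.sum_range_succ']
  simp only [Nat.choose_succ_succ, Nat.cast_add, add_mul, mul_add, Finset.sum_add_distrib,
    Nat.succ_eq_add_one, Nat.choose_zero_right] at h ⊢
  rw [Finset.sum_congr rfl (g := fun j => (n.choose j : ℝ) * x ^ (j + 1) * f (j + 1))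
    (f := fun j => (n.choose j : ℝ) * x ^ j * (x * f (j + 1))) fun j _ => by ring]
  push_cast at h ⊢
  linarith

/-- Second moment about any point. -/
theorem binom_two (n : ℕ) {x : ℝ} (hx : 0 < x) (y : ℝ) :
    ∑ j ∈ Finset.range (n + 1), (n.choose j : ℝ) * x ^ j * ((j : ℝ) - y) ^ 2 =
      (1 + x) ^ n * ((n * (x / (1 + x)) - y) ^ 2 + n * (x / (1 + x)) * (1 - x / (1 + x))) := by
  induction n generalizing y with
  | zero => simp
  | succ n ih =>
    rw [Binom_pascal n x fun j => ((j : ℝ) - y) ^ 2,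
      Finset.sum_congr rfl (g := fun j => (n.choose j : ℝ) * x ^ j * ((j : ℝ) - y) ^ 2 +
        x * ((n.choose j : ℝ) * x ^ j * ((j : ℝ) - (y - 1)) ^ 2)) fun j _ => by push_cast; ring,
      Finset.sum_add_distrib, ← Finset.mul_sum, ih, ih]
    have : 1 + x ≠ 0 := by positivity
    push_cast
    field_simp
    ring

end Pool.Agent.Work.MP_b59478_pr
end
end

-- merged part: Pool.Agent.Work.MP_b59478_pr.Th2
section
/-! Lower bounds from the free sites. With fibre_sum, given D0 the set I is binomial with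
x = exp (-12 beta + 2 h) (E is disjoint from A), p = x / (1 + x) in [exp (-13 beta) / 2, 1/2], and
Mg (A symmdiff (D0 union I)) = Mg (A symmdiff D0) + 2 card I. A site of E that is not in
Free E D0 has a site of D within distance 1, which has probability at most 27 ph (gP_mem), so by
Markov card (Free E D0) >= card E / 2 with probability at least 4/5.
VA_lower: by binom_two the variance is at least the mean of 4 n p (1 - p), n = card Free.
ZM_lower: by binom_two and VA_le the conditional mean has second moment about m at most card V,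
so it is within 2 sqrt (card V) of m with probability at least 3/4; on the intersection of the two
events (probability at least 1/2) apply binom_local to k = (m - Mg (A symmdiff D0)) / 2, an integer
by parity.
-/

set_option autoImplicit false

noncomputable section

namespace Pool.Agent.Work.MP_b59478_pr

open Classical Filter Topology MeasureTheory
open scoped symmDiff Pointwise

theorem Th2_card (A D : Finset Site) :
    ((A ∆ D).card : ℝ) = A.card + ∑ x ∈ D, (if x ∈ A then (-1 : ℝ) else 1) := by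
  have h1 : ∑ x ∈ D, (if x ∈ A then (-1 : ℝ) else 1) = ((D \ A).card : ℝ) - (D ∩ A).card := by
    rw [Finset.sum_ite]
    simp only [Finset.sum_const, nsmul_eq_mul, mul_neg, mul_one]
    rw [Finset.filter_mem_eq_inter, Finset.filter_notMem_eq_sdiff]; ring
  have h2 : (A ∆ D).card = (A \ D).card + (D \ A).card := by
    rw [symmDiff_def, Finset.sup_eq_union, Finset.card_union_of_disjoint disjoint_sdiff_sdiff]
  have h3 : (A \ D).card + (A ∩ D).card = A.card := Finset.card_sdiff_add_card_inter A D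
  rw [h1, h2, ← h3, Finset.inter_comm D A]; push_cast; ring

theorem Th2_pt (β : ℝ) (V A D : Finset Site) (h : ℝ) :
    w β D * Real.exp (h * Mg V (A ∆ D)) = Real.exp (h * Mg V A) * gw β (fld A h) D := by
  have : ∑ x ∈ D, fld A h x = 2 * h * ∑ x ∈ D, (if x ∈ A then (-1 : ℝ) else 1) := by
    rw [Finset.mul_sum]
    refine Finset.sum_congr rfl fun x _ => ?_
    unfold fld; split_ifs <;> ring
  unfold gw Mg
  rw [this, Th2_card, mul_left_comm, ← Real.exp_add]
  congr 2; ring

theorem Th2_Mg {V E A D0 I : Finset Site} (hEA : Disjoint E A) (hI : I ⊆ Free E D0)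
    (hd : Disjoint D0 I) : Mg V (A ∆ (D0 ∪ I)) = Mg V (A ∆ D0) + 2 * I.card := by
  unfold Mg
  rw [Th2_card, Th2_card, Finset.sum_union hd]
  have : ∑ x ∈ I, (if x ∈ A then (-1 : ℝ) else 1) = I.card := by
    rw [Finset.card_eq_sum_ones, Nat.cast_sum]
    refine Finset.sum_congr rfl fun x hx => ?_
    have hx' : x ∈ E := (Finset.mem_filter.1 (hI hx)).1
    rw [if_neg (Finset.disjoint_left.1 hEA hx')]; simp
  rw [this]; ring

/-- Disintegration of the weighted gas along the binomial fibres. -/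
theorem Th2_fib (β : ℝ) {V E A : Finset Site} {X : Finset Bond} {s : ℕ} (hs : 1 ≤ s)
    (hE : Elig V X E) (hEA : Disjoint E A) (h : ℝ) (G : ℝ → ℝ) :
    ∑ D ∈ Om V X s, w β D * Real.exp (h * Mg V (A ∆ D)) * G (Mg V (A ∆ D)) =
      ∑ D0 ∈ (Om V X s).filter fun D => Iso E D = ∅,
        w β D0 * Real.exp (h * Mg V (A ∆ D0)) *
          ∑ j ∈ Finset.range ((Free E D0).card + 1), ((Free E D0).card.choose j : ℝ) *
            (Real.exp (-(12 * β) + 2 * h) ^ j * G (Mg V (A ∆ D0) + 2 * j)) := by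
  rw [fibre_sum hs hE]
  refine Finset.sum_congr rfl fun D0 _ => ?_
  rw [← sum_powerset_card (Free E D0)
    (fun j => Real.exp (-(12 * β) + 2 * h) ^ j * G (Mg V (A ∆ D0) + 2 * j)), Finset.mul_sum]
  refine Finset.sum_congr rfl fun I hI => ?_
  have hI' := Finset.mem_powerset.1 hI
  obtain ⟨hd, hw⟩ := fibre_w β hE hI'
  rw [hw, Th2_Mg hEA hI' hd, Real.exp_add, mul_pow, mul_add, Real.exp_add,
    ← Real.exp_nat_mul (2 * h)]
  rw [show h * (2 * (I.card : ℝ)) = (I.card : ℝ) * (2 * h) by ring]; ring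

theorem Th2_Z (β : ℝ) {V E A : Finset Site} {X : Finset Bond} {s : ℕ} (hs : 1 ≤ s)
    (hE : Elig V X E) (hEA : Disjoint E A) (h : ℝ) :
    ZA β V X s A h = ∑ D0 ∈ (Om V X s).filter fun D => Iso E D = ∅,
      w β D0 * Real.exp (h * Mg V (A ∆ D0)) *
        (1 + Real.exp (-(12 * β) + 2 * h)) ^ (Free E D0).card := by
  have := Th2_fib β hs hE hEA h (fun _ => 1)
  simp only [mul_one] at this
  unfold ZA
  rw [this]
  refine Finset.sum_congr rfl fun D0 _ => ?_
  rw [binom_zero]

theorem Th2_V (β : ℝ) {V E A : Finset Site} {X : Finset Bond} {s : ℕ} (hs : 1 ≤ s)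
    (hE : Elig V X E) (hEA : Disjoint E A) (h : ℝ) {x : ℝ}
    (hx : x = Real.exp (-(12 * β) + 2 * h)) :
    VA β V X s A h * ZA β V X s A h = ∑ D0 ∈ (Om V X s).filter fun D => Iso E D = ∅,
      w β D0 * Real.exp (h * Mg V (A ∆ D0)) * (1 + x) ^ (Free E D0).card *
        (4 * (((Free E D0).card * (x / (1 + x)) - (EA β V X s A h - Mg V (A ∆ D0)) / 2) ^ 2 +
          (Free E D0).card * (x / (1 + x)) * (1 - x / (1 + x)))) := by
  have := Th2_fib β hs hE hEA h (fun t => (t - EA β V X s A h) ^ 2)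
  unfold VA
  rw [div_mul_cancel₀ _ (ZA_pos β V X s A h).ne', this, ← hx]
  refine Finset.sum_congr rfl fun D0 _ => ?_
  have hx0 : 0 < x := hx ▸ Real.exp_pos _
  have e := binom_two (Free E D0).card hx0 ((EA β V X s A h - Mg V (A ∆ D0)) / 2)
  rw [mul_assoc _ ((1 + x) ^ _), mul_left_comm ((1 + x) ^ _) 4, ← e, Finset.mul_sum _ _ (4 : ℝ)]
  congr 1
  refine Finset.sum_congr rfl fun j _ => ?_
  ring

theorem Th2_nonfree (E D : Finset Site) :
    (E.card : ℝ) - (Free E D).card ≤ ∑ y ∈ E, ∑ z ∈ ball y 1, (if z ∈ D then (1 : ℝ) else 0) := by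
  have h1 : (E.card : ℝ) - (Free E D).card = ∑ y ∈ E, (if y ∈ Free E D then (0 : ℝ) else 1) := by
    rw [Finset.sum_ite]
    simp only [Finset.sum_const, nsmul_eq_mul, mul_zero, mul_one, zero_add]
    have hsub : Free E D ⊆ E := Finset.filter_subset _ _
    rw [Finset.filter_notMem_eq_sdiff, Finset.card_sdiff_of_subset hsub,
      Nat.cast_sub (Finset.card_le_card hsub)]
  rw [h1]
  refine Finset.sum_le_sum fun y hy => ?_
  have hnn : ∀ z ∈ ball y 1, (0 : ℝ) ≤ if z ∈ D then (1 : ℝ) else 0 := fun z _ => by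
    split_ifs <;> norm_num
  split_ifs with hf
  · exact Finset.sum_nonneg hnn
  · have : ∃ z ∈ D, Near 1 z y := by
      by_contra hc
      exact hf (Finset.mem_filter.2 ⟨hy, fun z hz hn => hc ⟨z, hz, hn⟩⟩)
    obtain ⟨z, hz, hn⟩ := this
    have := Finset.single_le_sum hnn (mem_ball.2 hn)
    rwa [if_pos hz] at this

theorem Th2_mem {β : ℝ} (hβ : 1000 ≤ β) {V : Finset Site} (hV : IsBox V) (X : Finset Bond)
    {s : ℕ} (A : Finset Site) {h : ℝ} (hh : HOk s h) (z : Site) :
    ∑ D ∈ Om V X s, w β D * Real.exp (h * Mg V (A ∆ D)) * (if z ∈ D then (1 : ℝ) else 0) ≤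
      ph * ZA β V X s A h := by
  have h1 := gP_mem (gas_fld hβ hV hh A) X z
  unfold gP at h1
  rw [div_le_iff₀ (gZ_pos β V X s _), Finset.sum_filter] at h1
  rw [ZA_eq, mul_left_comm]
  refine le_trans (le_of_eq ?_) (mul_le_mul_of_nonneg_left h1 (Real.exp_pos _).le)
  rw [Finset.mul_sum]
  refine Finset.sum_congr rfl fun D _ => ?_
  rw [Th2_pt]
  by_cases hz : z ∈ D <;> simp [hz]

theorem Th2_markov {β : ℝ} (hβ : 1000 ≤ β) {V E A : Finset Site} (hV : IsBox V)
    {X : Finset Bond} {s : ℕ} (hs : 1 ≤ s) (hE : Elig V X E) (hEA : Disjoint E A) {h : ℝ}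
    (hh : HOk s h) :
    ∑ D0 ∈ (Om V X s).filter fun D => Iso E D = ∅,
      w β D0 * Real.exp (h * Mg V (A ∆ D0)) *
        (1 + Real.exp (-(12 * β) + 2 * h)) ^ (Free E D0).card *
          ((E.card : ℝ) - (Free E D0).card) ≤ 27 / 1000 * E.card * ZA β V X s A h := by
  have h1 : ∑ D ∈ Om V X s, w β D * Real.exp (h * Mg V (A ∆ D)) *
      ((E.card : ℝ) - (Free E D).card) ≤ 27 / 1000 * E.card * ZA β V X s A h := by
    calc _ ≤ ∑ D ∈ Om V X s, w β D * Real.exp (h * Mg V (A ∆ D)) *
          ∑ y ∈ E, ∑ z ∈ ball y 1, (if z ∈ D then (1 : ℝ) else 0) :=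
          Finset.sum_le_sum fun D _ => mul_le_mul_of_nonneg_left (Th2_nonfree E D)
            (mul_pos (w_pos β D) (Real.exp_pos _)).le
      _ = ∑ y ∈ E, ∑ z ∈ ball y 1, ∑ D ∈ Om V X s,
          w β D * Real.exp (h * Mg V (A ∆ D)) * (if z ∈ D then (1 : ℝ) else 0) := by
          simp only [Finset.mul_sum]
          rw [Finset.sum_comm]
          exact Finset.sum_congr rfl fun y _ => Finset.sum_comm
      _ ≤ ∑ y ∈ E, ∑ _z ∈ ball y 1, ph * ZA β V X s A h :=
          Finset.sum_le_sum fun y _ => Finset.sum_le_sum fun z _ => Th2_mem hβ hV X A hh z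
      _ = _ := by
          simp only [Finset.sum_const, card_ball, nsmul_eq_mul, ph]
          push_cast; ring
  refine le_trans ?_ h1
  rw [fibre_sum hs hE]
  refine Finset.sum_le_sum fun D0 _ => ?_
  rw [← binom_zero, ← sum_powerset_card (Free E D0)
    (fun j => Real.exp (-(12 * β) + 2 * h) ^ j), Finset.mul_sum, Finset.sum_mul]
  refine Finset.sum_le_sum fun I hI => ?_
  have hI' := Finset.mem_powerset.1 hI
  obtain ⟨hd, hw⟩ := fibre_w β hE hI'
  have e : w β (D0 ∪ I) * Real.exp (h * Mg V (A ∆ (D0 ∪ I))) =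
      w β D0 * Real.exp (h * Mg V (A ∆ D0)) * Real.exp (-(12 * β) + 2 * h) ^ I.card := by
    rw [hw, Th2_Mg hEA hI' hd, Real.exp_add, mul_pow, mul_add, Real.exp_add,
      ← Real.exp_nat_mul (2 * h)]
    rw [show h * (2 * (I.card : ℝ)) = (I.card : ℝ) * (2 * h) by ring]; ring
  rw [e]
  refine mul_le_mul_of_nonneg_left ?_
    (mul_pos (mul_pos (w_pos β D0) (Real.exp_pos _)) (pow_pos (Real.exp_pos _) _)).le
  have : Free E (D0 ∪ I) ⊆ Free E D0 := fun y hy => by
    have := Finset.mem_filter.1 hy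
    exact Finset.mem_filter.2 ⟨this.1, fun z hz => this.2 z (Finset.mem_union_left _ hz)⟩
  have := (Nat.cast_le (α := ℝ)).2 (Finset.card_le_card this)
  linarith only [this]

theorem Th2_p {β : ℝ} (hβ : 1000 ≤ β) {s : ℕ} {h : ℝ} (hh : HOk s h) {x : ℝ}
    (hx : x = Real.exp (-(12 * β) + 2 * h)) :
    Real.exp (-(13 * β)) / 2 ≤ x / (1 + x) ∧ x / (1 + x) ≤ 1 / 2 := by
  have h1 : 2 * |h| ≤ 1 := by
    have h2 : (1 : ℝ) ≤ (2 * (s : ℝ) + 1) ^ 3 :=
      one_le_pow₀ (by have := Nat.cast_nonneg (α := ℝ) s; linarith)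
    have h3 : 0 ≤ 2 * |h| := by positivity
    unfold HOk at hh
    nlinarith only [hh, h2, h3]
  have h2 := abs_le.1 (show |h| ≤ 1 / 2 by linarith only [h1])
  have hx0 : 0 < x := hx ▸ Real.exp_pos _
  have hx1 : x ≤ 1 := hx ▸ Real.exp_le_one_iff.2 (by linarith only [hβ, h2])
  have hx2 : Real.exp (-(13 * β)) ≤ x := hx ▸ Real.exp_le_exp.2 (by linarith only [hβ, h2])
  constructor
  · rw [div_le_div_iff₀ (by norm_num) (by linarith only [hx0])]
    nlinarith only [hx2, hx0, hx1, Real.exp_pos (-(13 * β))]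
  · rw [div_le_div_iff₀ (by linarith) (by norm_num)]; linarith

theorem VA_lower {β : ℝ} (hβ : 1000 ≤ β) : ∃ c : ℝ, 0 < c ∧ ∀ (V E A : Finset Site)
    (X : Finset Bond) (s : ℕ) (h : ℝ), IsBox V → 1 ≤ s → HOk s h → Elig V X E → Disjoint E A →
    c * E.card ≤ VA β V X s A h := by
  refine ⟨Real.exp (-(13 * β)) / 2, by positivity, fun V E A X s h hV hs hh hE hEA => ?_⟩
  have hZ := ZA_pos β V X s A h
  have h1 := Th2_V β hs hE hEA h rfl
  have h2 := Th2_markov hβ hV hs hE hEA hh
  have h3 := Th2_Z β hs hE hEA h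
  obtain ⟨hp0, hp1⟩ := Th2_p hβ hh rfl
  set x := Real.exp (-(12 * β) + 2 * h) with hx
  set p := x / (1 + x) with hp
  set p0 := Real.exp (-(13 * β)) / 2 with hp0d
  have hp00 : 0 < p0 := by positivity
  have hx0 : 0 < x := Real.exp_pos _
  have h4 : ∑ D0 ∈ (Om V X s).filter fun D => Iso E D = ∅,
      w β D0 * Real.exp (h * Mg V (A ∆ D0)) * (1 + x) ^ (Free E D0).card *
        (2 * p0 * (Free E D0).card) ≤ VA β V X s A h * ZA β V X s A h := by
    rw [h1]
    refine Finset.sum_le_sum fun D0 _ => mul_le_mul_of_nonneg_left ?_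
      (mul_pos (mul_pos (w_pos β D0) (Real.exp_pos _)) (pow_pos (by linarith only [hp1, hp0, hp00, hx0]) _)).le
    have hn : (0 : ℝ) ≤ (Free E D0).card := Nat.cast_nonneg _
    have h5 : p0 / 2 ≤ p * (1 - p) := by nlinarith only [hp0, hp1, hp00]
    have h6 := mul_le_mul_of_nonneg_left h5 hn
    nlinarith only [h6, sq_nonneg ((Free E D0).card * p - (EA β V X s A h - Mg V (A ∆ D0)) / 2)]
  have h5 : ∑ D0 ∈ (Om V X s).filter fun D => Iso E D = ∅,
      w β D0 * Real.exp (h * Mg V (A ∆ D0)) * (1 + x) ^ (Free E D0).card *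
        (2 * p0 * (Free E D0).card) = 2 * p0 * (E.card * ZA β V X s A h -
        ∑ D0 ∈ (Om V X s).filter fun D => Iso E D = ∅,
          w β D0 * Real.exp (h * Mg V (A ∆ D0)) * (1 + x) ^ (Free E D0).card *
            ((E.card : ℝ) - (Free E D0).card)) := by
    rw [h3, Finset.mul_sum, ← Finset.sum_sub_distrib, Finset.mul_sum]
    exact Finset.sum_congr rfl fun D0 _ => by ring
  have hEn : (0 : ℝ) ≤ E.card * ZA β V X s A h := by (clear * - hZ; positivity)
  refine le_of_mul_le_mul_right ?_ hZ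
  rw [h5] at h4
  nlinarith only [h4, h2, hp00, hEn]

theorem ZM_lower {β : ℝ} (hβ : 1000 ≤ β) : ∃ c : ℝ, 0 < c ∧ ∃ n0 : ℕ, ∀ (V E A : Finset Site)
    (X : Finset Bond) (s : ℕ) (h : ℝ) (m : ℤ), IsBox V → 1 ≤ s → HOk s h → Elig V X E →
    Disjoint E A → n0 ≤ E.card → V.card ≤ 200 * E.card → Even (m - V.card) →
    EA β V X s A h = m →
    c / V.card * (Real.exp (-(h * m)) * ZA β V X s A h) ≤ ZM β V X s A m := by
  obtain ⟨c, hc, n1, hb⟩ := binom_local (p0 := Real.exp (-(13 * β)) / 2) (C := 20)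
    (by positivity) (by norm_num)
  refine ⟨c / 4, by positivity, 2 * n1 + 1,
    fun V E A X s h m hV hs hh hE hEA hn0 hVE hev hm => ?_⟩
  have hZ := ZA_pos β V X s A h
  have h1 := Th2_V β hs hE hEA h rfl
  have h2 := Th2_markov hβ hV hs hE hEA hh
  have h3 := Th2_Z β hs hE hEA h
  have h0 := Th2_fib β hs hE hEA h (fun t => if t = m then 1 else 0)
  have hva := VA_le hβ hV X A hh
  obtain ⟨hp0, hp1⟩ := Th2_p hβ hh rfl
  set x := Real.exp (-(12 * β) + 2 * h) with hx
  set p := x / (1 + x) with hp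
  have hx0 : 0 < x := Real.exp_pos _
  have hpp : 0 < p := lt_of_lt_of_le (by positivity) hp0
  have hEV : E.card ≤ V.card := Finset.card_le_card hE.sub
  have hE1 : (1 : ℝ) ≤ E.card := by exact_mod_cast (by omega : 1 ≤ E.card)
  have hV1 : (1 : ℝ) ≤ V.card := by exact_mod_cast (by omega : 1 ≤ V.card)
  rw [hm] at h1
  have hL : ∑ D ∈ Om V X s, w β D * Real.exp (h * Mg V (A ∆ D)) *
      (if Mg V (A ∆ D) = m then (1 : ℝ) else 0) = Real.exp (h * m) * ZM β V X s A m := by
    unfold ZM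
    rw [Finset.sum_filter, Finset.mul_sum]
    refine Finset.sum_congr rfl fun D _ => ?_
    split_ifs with hD
    · rw [hD]; ring
    · simp
  have key : ∀ D0 : Finset Site, c / (2 * V.card) * ((1 + x) ^ (Free E D0).card *
      (1 - 2 / E.card * ((E.card : ℝ) - (Free E D0).card) - 1 / V.card *
        ((Free E D0).card * p - ((m : ℝ) - Mg V (A ∆ D0)) / 2) ^ 2)) ≤
      ∑ j ∈ Finset.range ((Free E D0).card + 1), ((Free E D0).card.choose j : ℝ) *
        (x ^ j * if Mg V (A ∆ D0) + 2 * j = m then (1 : ℝ) else 0) := by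
    intro D0
    set n := (Free E D0).card with hn
    set y := ((m : ℝ) - Mg V (A ∆ D0)) / 2 with hy
    have hnE : n ≤ E.card := Finset.card_le_card (Finset.filter_subset _ _)
    have hnE' : (n : ℝ) ≤ E.card := by exact_mod_cast hnE
    have hnn : ∀ j ∈ Finset.range (n + 1), 0 ≤ (n.choose j : ℝ) *
        (x ^ j * if Mg V (A ∆ D0) + 2 * j = m then (1 : ℝ) else 0) := fun j _ => by
      split_ifs <;> (clear * - ; positivity)
    have t1 : 0 ≤ 2 / (E.card : ℝ) * ((E.card : ℝ) - n) :=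
      mul_nonneg (by (clear * - hE1; positivity)) (by linarith only [hnE'])
    have t2 : 0 ≤ 1 / (V.card : ℝ) * (n * p - y) ^ 2 := by (clear * - hV1; positivity)
    by_cases hg : 1 - 2 / E.card * ((E.card : ℝ) - n) - 1 / V.card * (n * p - y) ^ 2 ≤ 0
    · refine le_trans (mul_nonpos_of_nonneg_of_nonpos (by (clear * - hc hV1; positivity))
        (mul_nonpos_of_nonneg_of_nonpos (by positivity) hg)) (Finset.sum_nonneg hnn)
    · push Not at hg
      have g1 : (E.card : ℝ) ≤ 2 * n := by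
        have : 2 / (E.card : ℝ) * ((E.card : ℝ) - n) < 1 := by linarith only [t2, hg]
        rw [div_mul_eq_mul_div, div_lt_one (by linarith only [hp1, hpp, hE1])] at this
        linarith only [this]
      have g2 : (n * p - y) ^ 2 ≤ V.card := by
        have : 1 / (V.card : ℝ) * (n * p - y) ^ 2 < 1 := by linarith only [t1, hg]
        rw [div_mul_eq_mul_div, div_lt_one (by linarith only [hp1, hpp, hV1])] at this
        linarith only [this]
      have g3 : n1 ≤ n := by
        have : E.card ≤ 2 * n := by exact_mod_cast g1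
        omega
      obtain ⟨r, hr⟩ := hev
      have hk : ((r - (A ∆ D0).card + V.card : ℤ) : ℝ) = y := by
        have : (m : ℝ) - V.card = r + r := by exact_mod_cast hr
        rw [hy]; unfold Mg; push_cast; linarith only [this]
      have hVE' : (V.card : ℝ) ≤ 200 * E.card := by exact_mod_cast hVE
      have g4 : |y - n * p| ≤ 20 * Real.sqrt n := by
        refine abs_le_of_sq_le_sq' ?_ (by (clear * - ; positivity)) |> abs_le.2
        rw [mul_pow, Real.sq_sqrt (Nat.cast_nonneg n), show (y - n * p) ^ 2 = (n * p - y) ^ 2 by ring]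
        linarith only [g1, g2, hVE']
      obtain ⟨j, hj, hjn, hbj⟩ := hb n g3 p hp0 hp1 _ (by rw [hk]; exact g4)
      have hjy : (j : ℝ) = y := by rw [← hk, ← hj]; simp
      have hs1 := Finset.single_le_sum hnn (Finset.mem_range.2 (Nat.lt_succ_of_le hjn))
      rw [if_pos (by rw [hjy, hy]; ring), mul_one] at hs1
      refine le_trans ?_ hs1
      have e1 : (n.choose j : ℝ) * x ^ j =
          (n.choose j : ℝ) * p ^ j * (1 - p) ^ (n - j) * (1 + x) ^ n := by
        have e2 : p * (1 + x) = x := by rw [hp]; field_simp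
        have e3 : (1 - p) * (1 + x) = 1 := by rw [hp]; field_simp; ring
        have e4 : (1 + x) ^ n = (1 + x) ^ j * (1 + x) ^ (n - j) := by
          rw [← pow_add, Nat.add_sub_cancel' hjn]
        calc (n.choose j : ℝ) * x ^ j
            = (n.choose j : ℝ) * (p * (1 + x)) ^ j * ((1 - p) * (1 + x)) ^ (n - j) := by
              rw [e2, e3, one_pow, mul_one]
          _ = _ := by rw [e4, mul_pow, mul_pow]; ring
      have hEV' : (E.card : ℝ) ≤ V.card := by exact_mod_cast hEV
      have e5 : c / (2 * V.card) ≤ c / (n + 1) :=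
        div_le_div_of_nonneg_left hc.le (by (clear * - ; positivity)) (by linarith only [hV1, hnE', hEV'])
      rw [e1]
      have hxn : 0 < (1 + x) ^ n := by positivity
      refine mul_le_mul (e5.trans hbj) ?_ (mul_nonneg hxn.le hg.le) ?_
      · exact mul_le_of_le_one_right hxn.le (by linarith only [t1, t2])
      · have : 0 ≤ 1 - p := by linarith only [hp1, hpp]
        (clear * - this; positivity)
  have hsum : c / (2 * V.card) * (ZA β V X s A h - 2 / E.card *
      (∑ D0 ∈ (Om V X s).filter fun D => Iso E D = ∅,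
        w β D0 * Real.exp (h * Mg V (A ∆ D0)) * (1 + x) ^ (Free E D0).card *
          ((E.card : ℝ) - (Free E D0).card)) - 1 / V.card *
      ∑ D0 ∈ (Om V X s).filter fun D => Iso E D = ∅,
        w β D0 * Real.exp (h * Mg V (A ∆ D0)) * (1 + x) ^ (Free E D0).card *
          ((Free E D0).card * p - ((m : ℝ) - Mg V (A ∆ D0)) / 2) ^ 2) ≤
      Real.exp (h * m) * ZM β V X s A m := by
    rw [← hL, h0, h3, Finset.mul_sum, Finset.mul_sum, ← Finset.sum_sub_distrib,
      ← Finset.sum_sub_distrib, Finset.mul_sum]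
    refine Finset.sum_le_sum fun D0 _ => le_trans (le_of_eq ?_)
      (mul_le_mul_of_nonneg_left (key D0) (mul_pos (w_pos β D0) (Real.exp_pos _)).le)
    ring
  have hq : 4 * ∑ D0 ∈ (Om V X s).filter fun D => Iso E D = ∅,
        w β D0 * Real.exp (h * Mg V (A ∆ D0)) * (1 + x) ^ (Free E D0).card *
          ((Free E D0).card * p - ((m : ℝ) - Mg V (A ∆ D0)) / 2) ^ 2 ≤
      V.card * ZA β V X s A h := by
    refine le_trans ?_ (mul_le_mul_of_nonneg_right hva hZ.le)
    rw [h1, Finset.mul_sum]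
    refine Finset.sum_le_sum fun D0 _ => ?_
    rw [mul_left_comm]
    refine mul_le_mul_of_nonneg_left ?_
      (mul_pos (mul_pos (w_pos β D0) (Real.exp_pos _)) (pow_pos (by linarith only [hp1, hx0, hpp]) _)).le
    have : 0 ≤ 1 - p := by linarith only [hp1, hpp]
    have : 0 ≤ (Free E D0).card * p * (1 - p) := by (clear * - this; positivity)
    linarith only [this]
  set S1 := ∑ D0 ∈ (Om V X s).filter fun D => Iso E D = ∅,
        w β D0 * Real.exp (h * Mg V (A ∆ D0)) * (1 + x) ^ (Free E D0).card *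
          ((E.card : ℝ) - (Free E D0).card) with hS1
  set S2 := ∑ D0 ∈ (Om V X s).filter fun D => Iso E D = ∅,
        w β D0 * Real.exp (h * Mg V (A ∆ D0)) * (1 + x) ^ (Free E D0).card *
          ((Free E D0).card * p - ((m : ℝ) - Mg V (A ∆ D0)) / 2) ^ 2 with hS2
  have b1 : 2 / (E.card : ℝ) * S1 ≤ ZA β V X s A h / 4 := by
    rw [div_mul_eq_mul_div, div_le_iff₀ (by linarith only [hp1, hpp, hE1])]
    have : (0 : ℝ) ≤ E.card * ZA β V X s A h := by (clear * - hE1 hZ; positivity)
    linarith only [h2, this]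
  have b2 : 1 / (V.card : ℝ) * S2 ≤ ZA β V X s A h / 4 := by
    rw [div_mul_eq_mul_div, div_le_iff₀ (by linarith only [hp1, hpp, hV1])]
    linarith only [hq]
  have b3 : c / (2 * V.card) * (ZA β V X s A h / 2) ≤ Real.exp (h * m) * ZM β V X s A m :=
    le_trans (mul_le_mul_of_nonneg_left (by linarith only [b1, b2]) (by (clear * - hc hV1; positivity))) hsum
  have b4 := mul_le_mul_of_nonneg_left b3 (Real.exp_pos (-(h * m))).le
  rw [← mul_assoc (Real.exp _) (Real.exp _), ← Real.exp_add, neg_add_cancel, Real.exp_zero,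
    one_mul] at b4
  refine le_trans (le_of_eq ?_) b4
  field_simp
  ring

end Pool.Agent.Work.MP_b59478_pr
end
end
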