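import Pool.Agent.Work.MP_b59478_pr.Gas4
import Pool.Agent.Work.MP_b59478_pr.Th2
import Pool.Agent.Work.MP_b59478_pr.Tau3

-- merged part: Pool.Agent.Work.MP_b59478_pr.Mean
section
/-! The mean magnetization.
mean_formula: use EA_eq. For x in the cube let R be the largest radius (at most N) such that
ball x R is inside the cube, contains no base point of a bond of X and A is constant on it; by
locality (u = -x, second gas cube N, empty, constant field) the probability of x in D is within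
27 ph ^ R of nu. If R is the maximum then ball x (R + 1) contains a point of Z = base points of X,
endpoints of cut A (hullPath), or cube (N + 1) minus cube N. So the sum of ph ^ R is at most
card Z * 2 / ph by sum_ph.
exists_mag: P_N = nu beta N (2 N + 1) 0 is the full measure (Om_full); it is Cauchy by locality,
and 1 - 2 P_N is the quotient in IsMag (weight with plus boundary condition of S is a constant times
w (cube N minus S), see weight_plus and partition_plus).
-/

set_option autoImplicit false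

noncomputable section

namespace Pool.Agent.Work.MP_b59478_pr

open Classical Filter Topology MeasureTheory
open scoped symmDiff Pointwise

theorem nu_bounds {β : ℝ} (hβ : 1000 ≤ β) (N s : ℕ) {a : ℝ}
    (ha : |a| * (2 * (s : ℝ) + 1) ^ 3 ≤ 1) : 0 ≤ nu β N s a ∧ nu β N s a ≤ ph :=
  ⟨gP_nonneg _ _ _ _ _ _, gP_mem ⟨hβ, isBox_cube N, fun _ => ha⟩ _ _⟩

/-- sup-distance -/
def Mean_sd (x z : Site) : ℕ := Finset.univ.sup fun i => (x i - z i).natAbs

theorem Mean_le_sd (x z : Site) (i : Fin 3) : |x i - z i| ≤ (Mean_sd x z : ℤ) := by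
  have : (x i - z i).natAbs ≤ Mean_sd x z :=
    Finset.le_sup (f := fun i => (x i - z i).natAbs) (Finset.mem_univ i)
  rw [Int.abs_eq_natAbs]; exact_mod_cast this

theorem Mean_sd_le {R : ℕ} {x z : Site} (h : Near R x z) : Mean_sd x z ≤ R := by
  refine Finset.sup_le fun i _ => ?_
  have := h i
  rw [Int.abs_eq_natAbs] at this; exact_mod_cast this

/-- the set of defects -/
def Mean_Z (N : ℕ) (X : Finset Bond) (A : Finset Site) : Finset Site :=
  X.image Prod.fst ∪ (cut A).image Prod.fst ∪ (cube (N + 1) \ cube N)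

theorem Mean_card_Z {N : ℕ} (hN : 1 ≤ N) (X : Finset Bond) (A : Finset Site) :
    ((Mean_Z N X A).card : ℝ) ≤ 98 * (X.card + (cut A).card + (N : ℝ) ^ 2) := by
  have hsub : cube N ⊆ cube (N + 1) := by
    intro x hx
    rw [mem_cube] at hx ⊢
    intro i; have := hx i; push_cast; omega
  have h1 : (cube (N + 1) \ cube N).card + (cube N).card = (cube (N + 1)).card :=
    Finset.card_sdiff_add_card_eq_card hsub
  rw [card_cube, card_cube] at h1
  have h2 : (Mean_Z N X A).card ≤ X.card + (cut A).card + (cube (N + 1) \ cube N).card :=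
    (Finset.card_union_le _ _).trans (Nat.add_le_add_right ((Finset.card_union_le _ _).trans
      (Nat.add_le_add Finset.card_image_le Finset.card_image_le)) _)
  have h3 : (cube (N + 1) \ cube N).card ≤ 98 * N ^ 2 := by nlinarith only [hN, h1]
  have h4 : (Mean_Z N X A).card ≤ 98 * (X.card + (cut A).card + N ^ 2) := by omega
  exact_mod_cast h4

theorem Mean_ball {N R : ℕ} {x : Site} (hx : x ∈ cube N)
    (h : ∀ z ∈ cube (N + 1) \ cube N, ¬ Near R z x) {y : Site} (hy : Near R y x) :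
    y ∈ cube N := by
  by_contra hyN
  rw [mem_cube] at hx
  refine h (fun i => max (-((N : ℤ) + 1)) (min ((N : ℤ) + 1) (y i))) ?_ ?_
  · rw [Finset.mem_sdiff, mem_cube, mem_cube]
    rw [mem_cube] at hyN
    push Not at hyN
    obtain ⟨i, hi⟩ := hyN
    refine ⟨fun j => ?_, fun hh => ?_⟩
    · rw [abs_le]; push_cast; omega
    · have := hh i
      rw [abs_le] at this
      rw [lt_abs] at hi
      omega
  · intro i
    have h1 := hy i
    have h2 := hx i
    rw [abs_le] at h1 h2 ⊢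
    dsimp only
    omega

theorem Mean_const {A : Finset Site} {R : ℕ} {x y c : Site} (hx : Near R x c) (hy : Near R y c)
    (h : ∀ b ∈ cut A, ¬ Near R b.1 c) (hxA : x ∈ A) : y ∈ A := by
  by_contra hyA
  obtain ⟨b, hb, hb'⟩ := hullPath (H := (A : Set Site)) (x := x) (y := y) hxA hyA
  refine h b (mem_cut.2 hb) fun i => ?_
  have h1 := hb' i
  have h2 := hx i
  have h3 := hy i
  have h4 := tip_apply b i
  rw [abs_le] at h2 h3 ⊢
  split_ifs at h4 <;> omega

theorem Mean_local {β : ℝ} {N s : ℕ} {h : ℝ} (X : Finset Bond) (A : Finset Site) (hβ : 1000 ≤ β)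
    (hh : HOk s h) {x : Site} (hx : x ∈ cube N) {R : ℕ}
    (hZ : ∀ z ∈ Mean_Z N X A, ¬ Near R z x) :
    |(gP β (cube N) X s (fld A h) fun D => x ∈ D) - nu β N s (fld A h x)| ≤ 27 * ph ^ R := by
  have hG := gas_fld hβ (isBox_cube N) hh A
  have hG' : Gas β (cube N) s (fun _ => fld A h x) := ⟨hβ, isBox_cube N, fun _ => hG.fld x⟩
  have hb : ∀ y, Near R y x → y ∈ cube N := fun y hy =>
    Mean_ball hx (fun z hz => hZ z (Finset.mem_union_right _ hz)) hy
  have hRN : R ≤ N := by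
    have h1 := mem_cube.1 (hb (fun i => x i + R) fun i => by simp) 0
    have h2 := mem_cube.1 (hb (fun i => x i - R) fun i => by simp) 0
    rw [abs_le] at h1 h2
    omega
  have hc : ∀ b ∈ cut A, ¬ Near R b.1 x := fun b hb' => hZ _ (Finset.mem_union_left _
    (Finset.mem_union_right _ (Finset.mem_image_of_mem _ hb')))
  refine locality hG hG' X ∅ x (-x) R (Or.inl rfl) (fun y hy => ?_) (fun y hy => ?_)
    (fun b hb' => ?_) _ _ (fun D D' hD => ?_)
  · refine ⟨fun _ => mem_cube.2 fun i => ?_, fun _ => hb y hy⟩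
    have := hy i
    simp only [Pi.add_apply, Pi.neg_apply]
    rw [abs_le] at this ⊢
    omega
  · have : y ∈ A ↔ x ∈ A :=
      ⟨Mean_const hy (Near.refl R x) hc, Mean_const (Near.refl R x) hy hc⟩
    simp only [fld, this]
  · refine ⟨fun hbX => absurd hb' (hZ _ (Finset.mem_union_left _
      (Finset.mem_union_left _ (Finset.mem_image_of_mem _ hbX)))), fun h0 => by simp at h0⟩
  · simpa using hD x (Near.refl 1 x)

theorem Mean_point {β : ℝ} {N s : ℕ} {h : ℝ} (X : Finset Bond) (A : Finset Site) (hβ : 1000 ≤ β)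
    (hh : HOk s h) {x : Site} (hx : x ∈ cube N) :
    |(gP β (cube N) X s (fld A h) fun D => x ∈ D) - nu β N s (fld A h x)| ≤
      27000 * ∑ z ∈ Mean_Z N X A, ph ^ Mean_sd z x := by
  have hne : (Mean_Z N X A).Nonempty := by
    refine ⟨fun _ => (N : ℤ) + 1, Finset.mem_union_right _ ?_⟩
    rw [Finset.mem_sdiff, mem_cube, mem_cube]
    refine ⟨fun i => ?_, fun hh => ?_⟩
    · rw [abs_le]; push_cast; omega
    · have := hh 0
      rw [abs_le] at this; omega
  obtain ⟨z₀, hz₀, hmin⟩ := Finset.exists_min_image _ (fun z => Mean_sd z x) hne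
  have hph : (0 : ℝ) < ph := by unfold ph; norm_num
  have h1 : ph ^ Mean_sd z₀ x ≤ ∑ z ∈ Mean_Z N X A, ph ^ Mean_sd z x :=
    Finset.single_le_sum (f := fun z => ph ^ Mean_sd z x) (fun z _ => (pow_pos hph _).le) hz₀
  refine le_trans ?_ (mul_le_mul_of_nonneg_left h1 (by norm_num))
  rcases hD : Mean_sd z₀ x with _ | R
  · have a1 := gP_nonneg β (cube N) X s (fld A h) fun D => x ∈ D
    have a2 := gP_le_one β (cube N) X s (fld A h) fun D => x ∈ D
    have a3 : 0 ≤ nu β N s (fld A h x) := gP_nonneg _ _ _ _ _ _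
    have a4 : nu β N s (fld A h x) ≤ 1 := gP_le_one _ _ _ _ _ _
    rw [abs_le]; constructor <;> simp only [pow_zero] <;> linarith only [a1, a4, a2, a3]
  · refine (Mean_local X A hβ hh hx (R := R) fun z hz hn => ?_).trans (le_of_eq ?_)
    · have := Mean_sd_le hn
      have := hmin z hz
      omega
    · rw [pow_succ]; unfold ph; ring

theorem mean_formula : ∃ C : ℝ, 0 < C ∧ ∀ (β : ℝ) (N s : ℕ) (h : ℝ) (X : Finset Bond)
    (A : Finset Site), 1000 ≤ β → 1 ≤ N → HOk s h → A ⊆ cube N →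
    |EA β (cube N) X s A h - ((1 - 2 * nu β N s (-(2 * h))) * A.card -
      (1 - 2 * nu β N s (2 * h)) * ((cube N).card - A.card))| ≤
      C * (X.card + (cut A).card + (N : ℝ) ^ 2) := by
  refine ⟨2 * 27000 * 2 * 98, by norm_num, fun β N s h X A hβ hN hh hA => ?_⟩
  have e1 : (1 - 2 * nu β N s (-(2 * h))) * A.card -
      (1 - 2 * nu β N s (2 * h)) * ((cube N).card - A.card) =
      ∑ x ∈ cube N, (if x ∈ A then 1 else -1) * (1 - 2 * nu β N s (fld A h x)) := by
    have e2 : ∀ x ∈ cube N, (if x ∈ A then 1 else -1) * (1 - 2 * nu β N s (fld A h x)) =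
        (if x ∈ A then (2 - 2 * nu β N s (-(2 * h)) - 2 * nu β N s (2 * h)) else 0) -
          (1 - 2 * nu β N s (2 * h)) := by
      intro x _
      unfold fld
      split_ifs <;> ring
    rw [Finset.sum_congr rfl e2, Finset.sum_sub_distrib, ← Finset.sum_filter, Finset.sum_const,
      Finset.sum_const, Finset.filter_mem_eq_inter, Finset.inter_eq_right.2 hA, nsmul_eq_mul,
      nsmul_eq_mul]
    ring
  rw [e1, EA_eq β _ X s hA, ← Finset.sum_sub_distrib]
  refine (Finset.abs_sum_le_sum_abs _ _).trans ?_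
  calc _ ≤ ∑ x ∈ cube N, 2 * (27000 * ∑ z ∈ Mean_Z N X A, ph ^ Mean_sd z x) := by
        refine Finset.sum_le_sum fun x hx => ?_
        have := Mean_point X A hβ hh hx
        rw [abs_le] at this ⊢
        split_ifs <;> constructor <;> linarith only [this, this.1, this.2]
    _ = 2 * 27000 * ∑ z ∈ Mean_Z N X A, ∑ x ∈ cube N, ph ^ Mean_sd z x := by
        rw [Finset.sum_comm, Finset.mul_sum]
        exact Finset.sum_congr rfl fun x _ => by ring
    _ ≤ 2 * 27000 * ∑ z ∈ Mean_Z N X A, (2 : ℝ) := by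
        gcongr with z _
        exact sum_ph z (cube N) (fun y => Mean_sd z y) fun y _ i => Mean_le_sd z y i
    _ ≤ _ := by
        rw [Finset.sum_const, nsmul_eq_mul]
        have := Mean_card_Z hN X A
        linarith only [this]

theorem Mean_cmp {β : ℝ} (hβ : 1000 ≤ β) {N M s s' R : ℕ} (hN : R ≤ N) (hM : R ≤ M)
    (hs : 2 * R ≤ s) (hs' : 2 * R ≤ s') : |nu β N s 0 - nu β M s' 0| ≤ 27 * ph ^ R := by
  have hG : ∀ N s, Gas β (cube N) s (fun _ => 0) := fun N s =>
    ⟨hβ, isBox_cube N, fun _ => by simp⟩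
  have hc : ∀ K : ℕ, R ≤ K → ∀ y : Site, Near R y 0 → y ∈ cube K := by
    intro K hK y hy
    refine mem_cube.2 fun i => ?_
    have := hy i
    simp only [Pi.zero_apply, sub_zero] at this
    omega
  refine locality (hG N s) (hG M s') ∅ ∅ 0 0 R (Or.inr ⟨hs, hs'⟩) (fun y hy => ?_)
    (fun _ _ => rfl) (fun b _ => by simp) _ _ (fun D D' hD => ?_)
  · rw [add_zero]; exact ⟨fun _ => hc M hM y hy, fun _ => hc N hN y hy⟩
  · simpa using hD 0 (Near.refl 1 0)

theorem Mean_quot (β : ℝ) (N : ℕ) :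
    (∑ S ∈ (cube N).powerset,
      spin (cube N) (fun _ => 1) S 0 * weight β (cube N) (fun _ => 1) S) /
    partition β (cube N) (fun _ => 1) = 1 - 2 * nu β N (2 * N + 1) 0 := by
  have h0 : (0 : Site) ∈ cube N := mem_cube.2 fun i => by simp
  have e1 : nu β N (2 * N + 1) 0 =
      (∑ D ∈ (cube N).powerset, if (0 : Site) ∈ D then w β D else 0) / Z0 β (cube N) := by
    unfold nu gP gZ Z0
    rw [Om_full le_rfl, Finset.sum_filter]
    simp [gw]
  have e2 : ∑ S ∈ (cube N).powerset,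
      spin (cube N) (fun _ => 1) S 0 * weight β (cube N) (fun _ => 1) S =
      Real.exp (β * (bonds (cube N)).card) * ∑ D ∈ (cube N).powerset,
        (w β D - 2 * if (0 : Site) ∈ D then w β D else 0) := by
    rw [Finset.mul_sum]
    refine Finset.sum_nbij' (fun S => cube N \ S) (fun S => cube N \ S) ?_ ?_ ?_ ?_ ?_
    · intro S _; exact Finset.mem_powerset.2 Finset.sdiff_subset
    · intro S _; exact Finset.mem_powerset.2 Finset.sdiff_subset
    · intro S hS; exact Finset.sdiff_sdiff_eq_self (Finset.mem_powerset.1 hS)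
    · intro S hS; exact Finset.sdiff_sdiff_eq_self (Finset.mem_powerset.1 hS)
    · intro S hS
      rw [weight_plus β (Finset.mem_powerset.1 hS)]
      unfold spin
      by_cases h1 : (0 : Site) ∈ S
      · simp [h0, h1]
      · simp only [h0, h1, if_true, if_false, Finset.mem_sdiff, not_false_eq_true, and_self]
        ring
  have hZ := Z0_pos β (cube N)
  rw [e1, e2, partition_plus, mul_div_mul_left _ _ (Real.exp_pos _).ne', Finset.sum_sub_distrib,
    ← Finset.mul_sum]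
  change (Z0 β (cube N) - _) / _ = _
  field_simp

theorem exists_mag {β : ℝ} (hβ : 1000 ≤ β) : ∃ ms, IsMag β ms ∧ MagFacts β ms := by
  have hph : (0 : ℝ) < ph := by unfold ph; norm_num
  have hph1 : ph < 1 := by unfold ph; norm_num
  have hC : CauchySeq fun N : ℕ => nu β N (2 * N + 1) 0 := by
    refine cauchySeq_of_le_tendsto_0' (fun N => 27 * ph ^ N) (fun n m hnm => ?_) ?_
    · rw [Real.dist_eq]
      exact Mean_cmp hβ le_rfl hnm (by omega) (by omega)
    · simpa using (tendsto_pow_atTop_nhds_zero_of_lt_one hph.le hph1).const_mul 27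
  obtain ⟨P, hP⟩ := cauchySeq_tendsto_of_complete hC
  have hb : ∀ N : ℕ, 0 ≤ nu β N (2 * N + 1) 0 ∧ nu β N (2 * N + 1) 0 ≤ ph := fun N =>
    nu_bounds hβ N _ (by simp)
  have h0 : 0 ≤ P := ge_of_tendsto' hP fun N => (hb N).1
  have h1 : P ≤ ph := le_of_tendsto' hP fun N => (hb N).2
  refine ⟨1 - 2 * P, ?_, ?_, ?_, fun N s hs => ?_⟩
  · unfold IsMag
    simp only [Mean_quot]
    exact (hP.const_mul 2).const_sub 1
  · unfold ph at h1; linarith only [hph, hph1, h1]
  · linarith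
  · have h2 : |nu β N s 0 - P| ≤ 27 * ph ^ (s / 2) := by
      refine le_of_tendsto (hP.const_sub (nu β N s 0)).abs ?_
      filter_upwards [eventually_ge_atTop (s / 2)] with M hM
      exact Mean_cmp hβ (by omega) hM (by omega) (by omega)
    rw [abs_le] at h2 ⊢
    constructor <;> linarith only [h2, h2.1, h2.2]

end Pool.Agent.Work.MP_b59478_pr
end
end

-- merged part: Pool.Agent.Work.MP_b59478_pr.Th3
section
/-! Packaged thermodynamics in the cube.
thermo_lower: exists_elig gives E with card E >= N ^ 3 / 4. On the interval |h| <= h1 = 1 / (c sqrt N)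
(inside HOk for large N, ev_cube_sqrt) EA has derivative at least c N ^ 3, so by the intermediate
value theorem EA h = m for some h with the stated bounds; then ZM_lower.
dev_formula: mean_formula at h = 0, MagFacts.close and Ctx.near.
chernoff_dev: chernoff and logZ_upper with h = sign * eta / (54 sqrt N); by dev_formula
|m - EA 0| >= t N ^ 2 sqrt N, with the sign of v N ^ 3 - card A.
-/

set_option autoImplicit false

noncomputable section

namespace Pool.Agent.Work.MP_b59478_pr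

open Classical Filter Topology MeasureTheory
open scoped symmDiff Pointwise

theorem Th3_ivt {f f' : ℝ → ℝ} (hf : ∀ x, HasDerivAt f (f' x) x) {κ h1 y : ℝ} (hh1 : 0 ≤ h1)
    (hκ : ∀ x, |x| ≤ h1 → κ ≤ f' x) (hκ0 : 0 ≤ κ) (hy : |y - f 0| ≤ κ * h1) :
    ∃ h, |h| ≤ h1 ∧ f h = y ∧ |h| * κ ≤ |y - f 0| ∧ 0 ≤ h * (y - f 0) := by
  have hc : Continuous f := continuous_iff_continuousAt.2 fun x => (hf x).continuousAt
  have key : ∀ x ∈ Set.Icc (-h1) h1, ∀ z ∈ Set.Icc (-h1) h1, x ≤ z → κ * (z - x) ≤ f z - f x := by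
    refine (convex_Icc (-h1) h1).mul_sub_le_image_sub_of_le_deriv hc.continuousOn
      (fun x _ => (hf x).differentiableAt.differentiableWithinAt) ?_
    intro x hx
    rw [(hf x).deriv]
    exact hκ x (abs_le.2 (Set.mem_Icc.1 (interior_subset hx)))
  have h0 : (0 : ℝ) ∈ Set.Icc (-h1) h1 := ⟨by linarith, hh1⟩
  rw [abs_le] at hy
  rcases le_total 0 (y - f 0) with hd | hd
  · have h2 := key 0 h0 h1 ⟨by linarith, le_rfl⟩ hh1
    obtain ⟨h, hh, rfl⟩ := intermediate_value_Icc hh1 hc.continuousOn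
      (show y ∈ Set.Icc (f 0) (f h1) from ⟨by linarith, by linarith [hy.2]⟩)
    have h3 := key 0 h0 h ⟨by linarith [hh.1], hh.2⟩ hh.1
    refine ⟨h, by rw [abs_of_nonneg hh.1]; exact hh.2, rfl, ?_, mul_nonneg hh.1 hd⟩
    rw [abs_of_nonneg hh.1, abs_of_nonneg hd]
    linarith
  · have h2 := key (-h1) ⟨le_rfl, by linarith⟩ 0 h0 (by linarith)
    obtain ⟨h, hh, rfl⟩ := intermediate_value_Icc (show -h1 ≤ 0 by linarith) hc.continuousOn
      (show y ∈ Set.Icc (f (-h1)) (f 0) from ⟨by linarith [hy.1], by linarith⟩)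
    have h3 := key h ⟨hh.1, by linarith [hh.2]⟩ 0 h0 hh.2
    refine ⟨h, by rw [abs_of_nonpos hh.2]; linarith [hh.1], rfl, ?_,
      mul_nonneg_of_nonpos_of_nonpos hh.2 hd⟩
    rw [abs_of_nonpos hh.2, abs_of_nonpos hd]
    linarith

theorem Th3_card {N : ℕ} (hN : 1 ≤ N) : ((cube N).card : ℝ) ≤ 27 * (N : ℝ) ^ 3 := by
  have h1 : (1 : ℝ) ≤ N := by exact_mod_cast hN
  rw [card_cube]
  push_cast
  have : (2 * (N : ℝ) + 1) ^ 3 ≤ (3 * (N : ℝ)) ^ 3 := by
    gcongr
    linarith
  linarith [mul_pow (3 : ℝ) N 3]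

theorem Th3_hok {s : ℕ} {a r : ℝ} (ha : 0 ≤ a) (hr : 0 < r)
    (h : 16 * a * ((s : ℝ) + 1) ^ 3 ≤ r) : HOk s (a / r) := by
  unfold HOk
  rw [abs_of_nonneg (by positivity)]
  have h1 : (2 * (s : ℝ) + 1) ^ 3 ≤ (2 * ((s : ℝ) + 1)) ^ 3 := by
    gcongr
    linarith
  have h2 : 2 * (a / r) * (2 * (s : ℝ) + 1) ^ 3 ≤ 2 * (a / r) * (2 * ((s : ℝ) + 1)) ^ 3 := by
    gcongr
  refine h2.trans ?_
  have h3 : 2 * (a / r) * (2 * ((s : ℝ) + 1)) ^ 3 = 16 * a * ((s : ℝ) + 1) ^ 3 / r := by ring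
  rw [h3, div_le_one hr]
  exact h

theorem thermo_lower {β : ℝ} (hβ : 1000 ≤ β) : ∃ c : ℝ, 0 < c ∧ ∀ᶠ N : ℕ in atTop,
    ∀ (X : Finset Bond) (A : Finset Site) (m : ℤ), A ⊆ cube N → (A.card : ℝ) ≤ (N : ℝ) ^ 3 / 2 →
    (X.card : ℝ) ≤ (N : ℝ) ^ 3 / 100 → Even (m - (cube N).card) →
    |(m : ℝ) - EA β (cube N) X (sN N) A 0| ≤ (N : ℝ) ^ 2 * Real.sqrt N →
    ∃ h : ℝ, |h| * (c * (N : ℝ) ^ 3) ≤ |(m : ℝ) - EA β (cube N) X (sN N) A 0| ∧
      0 ≤ h * ((m : ℝ) - EA β (cube N) X (sN N) A 0) ∧ HOk (sN N) h ∧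
      c / (N : ℝ) ^ 3 * (Real.exp (-(h * m)) * ZA β (cube N) X (sN N) A h) ≤
        ZM β (cube N) X (sN N) A m := by
  obtain ⟨c1, hc1, hV⟩ := VA_lower hβ
  obtain ⟨c2, hc2, n0, hZ⟩ := ZM_lower hβ
  refine ⟨min (c1 / 4) (c2 / 27), by positivity, ?_⟩
  filter_upwards [ev_cube_sqrt (16 * (4 / c1)), tendsto_sN.eventually_ge_atTop 1,
    eventually_ge_atTop (4 * n0 + 1)] with N hcs hs1 hN X A m hA hAc hXc hev hd
  have hN1 : 1 ≤ N := by omega
  have hNr : (1 : ℝ) ≤ N := by exact_mod_cast hN1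
  have hsq : 0 < Real.sqrt N := Real.sqrt_pos.2 (by linarith only [hNr])
  have hss : Real.sqrt N * Real.sqrt N = N := Real.mul_self_sqrt (by linarith only [hNr])
  obtain ⟨E, hE, hEA, hEc⟩ := exists_elig N X A
  have hEr : (N : ℝ) ^ 3 ≤ E.card + A.card + 2 * X.card := by exact_mod_cast hEc
  have hN3 : (0 : ℝ) < (N : ℝ) ^ 3 := by positivity
  have hE4 : (N : ℝ) ^ 3 / 4 ≤ E.card := by linarith only [hAc, hXc, hEr, hN3]
  have hcard := Th3_card hN1
  have hok : HOk (sN N) (4 / c1 / Real.sqrt N) := Th3_hok (by positivity) hsq hcs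
  have hh1 : 0 ≤ 4 / c1 / Real.sqrt N := by positivity
  have hok' : ∀ x, |x| ≤ 4 / c1 / Real.sqrt N → HOk (sN N) x := fun x hx =>
    hok.mono (by rwa [abs_of_nonneg hh1])
  obtain ⟨h, hh, hm, h3, h4⟩ := Th3_ivt (hasDerivAt_EA β (cube N) X (sN N) A)
    (κ := c1 / 4 * (N : ℝ) ^ 3) (y := m) hh1 (fun x hx => by
      refine le_trans ?_ (hV (cube N) E A X (sN N) x (isBox_cube N) hs1 (hok' x hx) hE hEA)
      nlinarith only [hc1, hAc, hXc, hEr]) (by positivity) (by
      refine hd.trans (le_of_eq ?_)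
      have : (N : ℝ) ^ 3 = (N : ℝ) ^ 2 * (Real.sqrt N * Real.sqrt N) := by rw [hss]; ring
      rw [this]
      field_simp)
  refine ⟨h, le_trans ?_ h3, h4, hok' h hh, ?_⟩
  · gcongr
    exact min_le_left _ _
  · have hn0 : n0 ≤ E.card := by
      have h5 : (N : ℝ) ≤ (N : ℝ) ^ 3 := le_self_pow₀ hNr (by norm_num)
      have h6 : (4 * n0 + 1 : ℝ) ≤ N := by exact_mod_cast hN
      have h7 : (n0 : ℝ) ≤ E.card := by linarith only [hAc, hXc, hEr, hN3, h5, h6]
      exact_mod_cast h7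
    have h200 : (cube N).card ≤ 200 * E.card := by
      have : ((cube N).card : ℝ) ≤ 200 * E.card := by linarith only [hAc, hXc, hEr, hN3, hcard]
      exact_mod_cast this
    refine le_trans ?_ (hZ (cube N) E A X (sN N) h m (isBox_cube N) hs1 (hok' h hh) hE hEA hn0
      h200 hev hm)
    have hp := ZA_pos β (cube N) X (sN N) A h
    have hcp : (0 : ℝ) < (cube N).card := by
      rw [card_cube]
      positivity
    gcongr ?_ * _
    rw [div_le_div_iff₀ hN3 hcp]
    have h8 : min (c1 / 4) (c2 / 27) ≤ c2 / 27 := min_le_right _ _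
    have h9 : 0 ≤ min (c1 / 4) (c2 / 27) := by positivity
    nlinarith only [h8, hc2, hcard]

theorem Th3_ph (s : ℕ) : ph ^ (s / 2) * Real.exp s ≤ Real.exp 1 := by
  have h1 : ph * Real.exp 2 ≤ 1 := by
    have h2 : Real.exp 2 = Real.exp 1 * Real.exp 1 := by rw [← Real.exp_add]; norm_num
    have h3 := Real.exp_one_lt_d9
    have h4 := Real.exp_pos 1
    unfold ph
    nlinarith only [h2, h3, h4]
  have h0 : 0 ≤ ph := by unfold ph; norm_num
  have h5 : (s : ℝ) ≤ (s / 2 : ℕ) * 2 + 1 := by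
    have : s ≤ s / 2 * 2 + 1 := by omega
    exact_mod_cast this
  have h6 : Real.exp s ≤ Real.exp 2 ^ (s / 2) * Real.exp 1 := by
    rw [← Real.exp_nat_mul, ← Real.exp_add]
    exact Real.exp_le_exp.2 h5
  calc ph ^ (s / 2) * Real.exp s ≤ ph ^ (s / 2) * (Real.exp 2 ^ (s / 2) * Real.exp 1) := by
        gcongr
    _ = (ph * Real.exp 2) ^ (s / 2) * Real.exp 1 := by rw [mul_pow]; ring
    _ ≤ 1 * Real.exp 1 := by
        gcongr
        exact pow_le_one₀ (by positivity) h1
    _ = Real.exp 1 := one_mul _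

theorem dev_formula {β ms v lam : ℝ} {τ : E3 → ℝ} {r0 ω : ℝ} {m : ℕ → ℤ}
    (H : Ctx β ms v lam τ r0 ω m) : ∃ C : ℝ, 0 < C ∧ ∀ᶠ N : ℕ in atTop,
    ∀ (X : Finset Bond) (A : Finset Site), A ⊆ cube N →
    |(m N : ℝ) - EA β (cube N) X (sN N) A 0 - 2 * ms * (v * (N : ℝ) ^ 3 - A.card)| ≤
      C * (X.card + (cut A).card + (N : ℝ) ^ 2) := by
  obtain ⟨C, hC, hM⟩ := mean_formula
  refine ⟨C + 2, by positivity, ?_⟩
  filter_upwards [ev_poly_exp (1458 * Real.exp 1) 1 one_pos, eventually_ge_atTop 1]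
    with N hp hN X A hA
  have hNr : (1 : ℝ) ≤ N := by exact_mod_cast hN
  have hok : HOk (sN N) 0 := by simp [HOk]
  have h1 := hM β N (sN N) 0 X A H.hβ hN hok hA
  simp only [mul_zero, neg_zero] at h1
  have hs : sN N ≤ 2 * N := by
    have h2 := sN_pow_le N
    have h3 : sN N ≤ sN N ^ 8 := Nat.le_self_pow (by norm_num) _
    omega
  have h2 := H.mag.close N (sN N) hs
  have h3 := H.near N
  have hV : ((cube N).card : ℝ) = (2 * (N : ℝ) + 1) ^ 3 := by
    rw [card_cube]
    push_cast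
    ring
  rw [← hV] at h3
  have hcard := Th3_card hN
  have hAV : (A.card : ℝ) ≤ (cube N).card := by exact_mod_cast Finset.card_le_card hA
  have hA0 : (0 : ℝ) ≤ A.card := by positivity
  set μ := 1 - 2 * nu β N (sN N) 0 with hμ
  have h4 : |2 * (A.card : ℝ) - (cube N).card| ≤ 27 * (N : ℝ) ^ 3 := by
    rw [abs_le]
    constructor <;> linarith only [hcard, hAV]
  have h5 : 1458 * (N : ℝ) * ph ^ (sN N / 2) ≤ 1 := by
    have h6 := Th3_ph (sN N)
    have h0 : 0 ≤ ph ^ (sN N / 2) := by unfold ph; positivity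
    rw [pow_one, one_mul] at hp
    have h7 := mul_le_mul_of_nonneg_left hp h0
    have h8 := Real.exp_pos 1
    refine le_of_mul_le_mul_right ?_ h8
    nlinarith only [h6, h7]
  have h6 : |(μ - ms) * (2 * (A.card : ℝ) - (cube N).card)| ≤ (N : ℝ) ^ 2 := by
    rw [abs_mul]
    have h7 := mul_le_mul h2 h4 (abs_nonneg _) ((abs_nonneg _).trans h2)
    have h8 := mul_le_mul_of_nonneg_left h5 (show (0 : ℝ) ≤ (N : ℝ) ^ 2 by positivity)
    nlinarith only [h7, h8]
  have h7 : (1 : ℝ) ≤ (N : ℝ) ^ 2 := one_le_pow₀ hNr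
  have hX : (0 : ℝ) ≤ X.card := by (clear * - ; positivity)
  have hc : (0 : ℝ) ≤ (cut A).card := by (clear * - ; positivity)
  rw [abs_le] at h1 h3 h6 ⊢
  constructor <;> nlinarith only [h3, h1, h6, h7, h1.1, h1.2, h3.1, h3.2, h6.1, h6.2]

theorem chernoff_dev {β ms v lam : ℝ} {τ : E3 → ℝ} {r0 ω : ℝ} {m : ℕ → ℤ}
    (H : Ctx β ms v lam τ r0 ω m) (C0 : ℝ) {η : ℝ} (hη : 0 < η) : ∀ᶠ N : ℕ in atTop,
    ∀ (A : Finset Site) (t : ℝ), A ⊆ cube N → ((cut A).card : ℝ) ≤ C0 * (N : ℝ) ^ 2 → η ≤ t →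
    t * ((N : ℝ) ^ 2 * Real.sqrt N) ≤ |(A.card : ℝ) - v * (N : ℝ) ^ 3| →
    FM β N (m N) A ≤ Real.exp (-(η * t / 108 * (N : ℝ) ^ 2)) * PL β N A := by
  obtain ⟨C, hC, hD⟩ := dev_formula H
  filter_upwards [hD, ev_cube_sqrt (16 * (η / 54)), ev_sqrt (2 * (C * (82 * |C0| + 1)) / η),
    eventually_ge_atTop 1] with N hd hcs hsq hN A t hA hcut ht hdev
  have hNr : (1 : ℝ) ≤ N := by exact_mod_cast hN
  have hr : 0 < Real.sqrt N := Real.sqrt_pos.2 (by linarith only [hNr])
  have hss : Real.sqrt N * Real.sqrt N = N := Real.mul_self_sqrt (by linarith only [hNr])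
  have hN2 : (0 : ℝ) < (N : ℝ) ^ 2 := by positivity
  set X := nbhd (cut A) with hX
  have hXc : (X.card : ℝ) ≤ 81 * (cut A).card := by exact_mod_cast card_nbhd (cut A)
  have h1 := hd X A hA
  have hcut' : ((cut A).card : ℝ) ≤ |C0| * (N : ℝ) ^ 2 :=
    hcut.trans (mul_le_mul_of_nonneg_right (le_abs_self _) hN2.le)
  have h2 : C * (X.card + (cut A).card + (N : ℝ) ^ 2) ≤ t * ((N : ℝ) ^ 2 * Real.sqrt N) / 2 := by
    have h3 : C * (X.card + (cut A).card + (N : ℝ) ^ 2) ≤ C * (82 * |C0| + 1) * (N : ℝ) ^ 2 := by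
      rw [mul_assoc]
      gcongr
      linarith only [hXc, hcut']
    rw [div_le_iff₀ hη] at hsq
    have h4 : Real.sqrt N * η ≤ Real.sqrt N * t := by gcongr
    have h5 := mul_le_mul_of_nonneg_right (hsq.trans h4) hN2.le
    nlinarith only [h3, h5]
  set d := (m N : ℝ) - EA β (cube N) X (sN N) A 0 with hdd
  set u := t * ((N : ℝ) ^ 2 * Real.sqrt N) with hu
  have hu0 : 0 ≤ u := by
    have : 0 ≤ t := hη.le.trans ht
    positivity
  have hlo := H.mag.lo
  obtain ⟨h, hha, hhd⟩ : ∃ h : ℝ, |h| = η / 54 / Real.sqrt N ∧ η / 54 / Real.sqrt N * u ≤ h * d := by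
    have ha : 0 < η / 54 / Real.sqrt N := by positivity
    have h3 := abs_le.1 (h1.trans h2)
    rcases le_total 0 ((A.card : ℝ) - v * (N : ℝ) ^ 3) with hs | hs
    · rw [abs_of_nonneg hs] at hdev
      refine ⟨-(η / 54 / Real.sqrt N), by rw [abs_neg, abs_of_pos ha], ?_⟩
      have h4 : u ≤ -d := by nlinarith only [hdev, h2, h3, hC, hN2, hlo, hu0, h3.2]
      nlinarith only [ha, h4]
    · rw [abs_of_nonpos hs] at hdev
      refine ⟨η / 54 / Real.sqrt N, abs_of_pos ha, ?_⟩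
      have h4 : u ≤ d := by nlinarith only [hdev, h2, h3, hC, hN2, hlo, hu0, h3.1]
      nlinarith only [ha, h4]
  have hok : HOk (sN N) h :=
    (Th3_hok (by positivity) hr hcs).mono (by rw [hha, abs_of_pos (by positivity)])
  have h3 := chernoff β (cube N) X (sN N) A (m N) h
  have h4 := logZ_upper H.hβ (isBox_cube N) X A hok
  have hZ := ZA_pos β (cube N) X (sN N) A h
  have hg : 0 < gZ0 β (cube N) X (sN N) := ZA_zero β (cube N) X (sN N) A ▸ ZA_pos β _ _ _ A 0
  have h5 : η / 54 / Real.sqrt N * u = η * t / 54 * (N : ℝ) ^ 2 := by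
    rw [hu]
    field_simp
  have h6 : ((cube N).card : ℝ) * h ^ 2 ≤ η * t / 108 * (N : ℝ) ^ 2 := by
    have h7 : h ^ 2 = η ^ 2 / 2916 / N := by
      rw [← sq_abs, hha, div_pow, div_pow, sq (Real.sqrt N), hss]
      norm_num
    have h8 : ((cube N).card : ℝ) * h ^ 2 ≤ 27 * (N : ℝ) ^ 3 * h ^ 2 := by
      gcongr
      exact Th3_card hN
    have h9 : 27 * (N : ℝ) ^ 3 * h ^ 2 = η * η / 108 * (N : ℝ) ^ 2 := by
      rw [h7]
      field_simp
      ring
    have h10 : η * η / 108 * (N : ℝ) ^ 2 ≤ η * t / 108 * (N : ℝ) ^ 2 := by gcongr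
    linarith only [h8, h9, h10]
  have h7 : ZM β (cube N) X (sN N) A (m N) ≤
      Real.exp (-(η * t / 108 * (N : ℝ) ^ 2)) * gZ0 β (cube N) X (sN N) := by
    refine h3.trans ?_
    rw [← Real.exp_log hZ, ← Real.exp_log hg, ← Real.exp_add, ← Real.exp_add, Real.exp_le_exp]
    rw [hdd, mul_sub] at hhd
    linarith only [hhd, h4, h5, h6]
  unfold FM PL
  have h8 := mul_le_mul_of_nonneg_left h7 (w_pos β A).le
  linarith only [h8]

end Pool.Agent.Work.MP_b59478_pr
end
end

-- merged part: Pool.Agent.Work.MP_b59478_pr.SG2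
section
/-! Encoding after a slab map. A bond b with b.1 0 outside Sg is in cut (pull N p A) iff pjB p b is in
cut A; pjB p is injective on these bonds (p is monotone with unit steps off Sg); the bonds with
b.1 0 in Sg number at most Psi, those within 2 of Sg at most ph ^ (-2) Psi.
encode, the Anim property: let U0 be the component of b in U. If no bond of Kset is adjacent to U0,
then either a bond of U0 is in nbhd (cut I), or U0 is clopen in cut A and so has at least s bonds.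
If b0 in U0 is adjacent to pjB b', b' in cut B' with base off Sg, then the base of b' is within 2
of Sg: otherwise p is a translation near b', the preimage of b0 is in cut B, adjacent to b', hence
in cut B' (clopen in cut B), and b0 would be in Kset.
count: A is determined by (q, cut I, B, U) through cut_inj. Sum over U with animals_big
(exp (-7) <= 1/486), over c = cut I with animals_conn for each root in bonds (cube N)
(243 * 2 ^ 82 * exp (-beta) <= exp (-beta / 2)), then over B and q.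
-/

set_option autoImplicit false

noncomputable section

namespace Pool.Agent.Work.MP_b59478_pr

open Classical Filter Topology MeasureTheory
open scoped symmDiff Pointwise

theorem slab_id (N : ℕ) : Slab N id ∅ :=
  ⟨monotone_id, fun _ _ => rfl, fun _ => Iff.rfl⟩

theorem id_mem_Params (N : ℕ) : ((id, ∅) : (ℤ → ℤ) × Finset ℤ) ∈ Params N :=
  Finset.mem_insert_self _ _

theorem card_Params (N : ℕ) : (Params N).card ≤ (2 * N + 2) ^ 3 := by
  unfold Params
  refine (Finset.card_insert_le _ _).trans ?_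
  refine (Nat.add_le_add_right Finset.card_image_le 1).trans ?_
  rw [Finset.card_product, Finset.card_product, Int.card_Icc, Int.card_Icc, Finset.card_range]
  have e1 : ((N : ℤ) + 1 - -(N : ℤ)).toNat = 2 * N + 1 := by omega
  have e2 : ((N : ℤ) + 1 + 1 - -(N : ℤ)).toNat = 2 * N + 2 := by omega
  rw [e1, e2]
  have : (2 * N + 2) ^ 3 = (2 * N + 1) * ((2 * N + 2) * (2 * N + 1)) + 1 +
      (8 * N ^ 2 + 14 * N + 5) := by ring
  omega

theorem SG2_pj_id (x : Site) : pj id x = x := by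
  unfold pj
  simp

theorem SG2_pj_zero (p : ℤ → ℤ) (x : Site) : pj p x 0 = p (x 0) := by
  unfold pj
  simp

theorem SG2_pj_ne (p : ℤ → ℤ) (x : Site) {i : Fin 3} (hi : i ≠ 0) : pj p x i = x i := by
  unfold pj
  simp [hi]

theorem pull_id {N : ℕ} {A : Finset Site} (hA : A ⊆ cube N) : pull N id A = A := by
  ext x
  unfold pull
  rw [Finset.mem_filter, SG2_pj_id]
  exact ⟨fun h => h.2, fun h => ⟨hA h, h⟩⟩

theorem Kset_id (B : Finset Site) : Kset id ∅ B = cut B := by
  have : pjB id = id := by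
    funext b
    unfold pjB
    rw [SG2_pj_id]
    rfl
  unfold Kset
  rw [this]
  simp

theorem Psi_empty (B : Finset Site) : Psi ∅ B = 0 := by
  unfold Psi
  simp

theorem SG2_ph_pos : 0 < ph := by
  unfold ph
  norm_num

theorem SG2_ph_le : ph ≤ 1 := by
  unfold ph
  norm_num

theorem Psi_nonneg (Sg : Finset ℤ) (B : Finset Site) : 0 ≤ Psi Sg B :=
  Finset.sum_nonneg fun _ _ => Finset.sum_nonneg fun _ _ => pow_nonneg SG2_ph_pos.le _

theorem Psi_mono (Sg : Finset ℤ) {B B' : Finset Site} (h : cut B' ⊆ cut B) :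
    Psi Sg B' ≤ Psi Sg B :=
  Finset.sum_le_sum fun _ _ => Finset.sum_le_sum_of_subset_of_nonneg h
    fun _ _ _ => pow_nonneg SG2_ph_pos.le _

theorem pull_subset (N : ℕ) (p : ℤ → ℤ) (A : Finset Site) : pull N p A ⊆ cube N :=
  Finset.filter_subset _ _

theorem mem_pull {N : ℕ} {p : ℤ → ℤ} {Sg : Finset ℤ} (h : Slab N p Sg) {A : Finset Site}
    (hA : A ⊆ cube N) {x : Site} : x ∈ pull N p A ↔ pj p x ∈ A := by
  unfold pull
  rw [Finset.mem_filter]
  refine ⟨fun h => h.2, fun hx => ⟨?_, hx⟩⟩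
  have h1 := mem_cube.1 (hA hx)
  rw [mem_cube]
  intro i
  by_cases hi : i = 0
  · subst hi
    have := h1 0
    rw [SG2_pj_zero] at this
    exact (h.box _).2 this
  · have := h1 i
    rwa [SG2_pj_ne p x hi] at this

theorem SG2_tip {N : ℕ} {p : ℤ → ℤ} {Sg : Finset ℤ} (h : Slab N p Sg) {b : Bond}
    (hb : b.1 0 ∉ Sg) : tip (pjB p b) = pj p (tip b) := by
  funext i
  rw [tip_apply]
  by_cases hi : i = 0
  · subst hi
    rw [SG2_pj_zero, tip_apply]
    show pj p b.1 0 + (if (0 : Fin 3) = b.2 then 1 else 0) = _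
    rw [SG2_pj_zero]
    split_ifs with h2
    · exact (h.step _ hb).symm
    · simp
  · rw [SG2_pj_ne p _ hi, tip_apply]
    show pj p b.1 i + (if i = b.2 then 1 else 0) = _
    rw [SG2_pj_ne p _ hi]

theorem SG2_mem_cut {N : ℕ} {p : ℤ → ℤ} {Sg : Finset ℤ} (h : Slab N p Sg) {C : Finset Site}
    (hC : C ⊆ cube N) {b : Bond} (hb : b.1 0 ∉ Sg) :
    b ∈ cut (pull N p C) ↔ pjB p b ∈ cut C := by
  rw [mem_cut, mem_cut, mem_pull h hC, mem_pull h hC, SG2_tip h hb]
  rfl

theorem SG2_inj {N : ℕ} {p : ℤ → ℤ} {Sg : Finset ℤ} (h : Slab N p Sg) {b c : Bond}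
    (hb : b.1 0 ∉ Sg) (hc : c.1 0 ∉ Sg) (e : pjB p b = pjB p c) : b = c := by
  have e1 : pj p b.1 = pj p c.1 := congrArg Prod.fst e
  have e2 : b.2 = c.2 := (Prod.ext_iff.1 e).2
  have key : ∀ t t' : ℤ, t ∉ Sg → t < t' → p t < p t' := by
    intro t t' ht htt
    have h1 := h.step t ht
    have h2 : p (t + 1) ≤ p t' := h.mono (by omega)
    omega
  refine Prod.ext ?_ e2
  funext i
  by_cases hi : i = 0
  · subst hi
    have e3 := congrFun e1 0
    rw [SG2_pj_zero, SG2_pj_zero] at e3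
    rcases lt_trichotomy (b.1 0) (c.1 0) with h1 | h1 | h1
    · have := key _ _ hb h1
      omega
    · exact h1
    · have := key _ _ hc h1
      omega
  · have e3 := congrFun e1 i
    rwa [SG2_pj_ne p _ hi, SG2_pj_ne p _ hi] at e3

theorem SG2_near_card (Sg : Finset ℤ) (B : Finset Site) (r : ℕ) (T : Finset Bond)
    (hT : T ⊆ cut B) (hr : ∀ b ∈ T, ∃ σ ∈ Sg, |b.1 0 - σ| ≤ r) :
    (T.card : ℝ) * ph ^ r ≤ Psi Sg B := by
  unfold Psi
  rw [Finset.sum_comm]
  calc (T.card : ℝ) * ph ^ r = ∑ _b ∈ T, ph ^ r := by simp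
    _ ≤ ∑ b ∈ T, ∑ σ ∈ Sg, ph ^ (b.1 0 - σ).natAbs := by
      refine Finset.sum_le_sum fun b hb => ?_
      obtain ⟨σ, hσ, hle⟩ := hr b hb
      have h1 : (b.1 0 - σ).natAbs ≤ r := by
        rw [← Int.natCast_natAbs] at hle
        exact_mod_cast hle
      refine (pow_le_pow_of_le_one SG2_ph_pos.le SG2_ph_le h1).trans ?_
      exact Finset.single_le_sum (f := fun σ => ph ^ (b.1 0 - σ).natAbs)
        (fun _ _ => pow_nonneg SG2_ph_pos.le _) hσ
    _ ≤ ∑ b ∈ cut B, ∑ σ ∈ Sg, ph ^ (b.1 0 - σ).natAbs :=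
      Finset.sum_le_sum_of_subset_of_nonneg hT fun _ _ _ =>
        Finset.sum_nonneg fun _ _ => pow_nonneg SG2_ph_pos.le _

/-- Bonds of `cut B` whose images off the seam lie in `W`. -/
theorem SG2_count {N : ℕ} {p : ℤ → ℤ} {Sg : Finset ℤ} (h : Slab N p Sg) (B : Finset Site)
    (T W : Finset Bond) (hT : T ⊆ cut B) (hW : ∀ b ∈ T, b.1 0 ∉ Sg → pjB p b ∈ W) :
    (T.card : ℝ) ≤ W.card + Psi Sg B := by
  have h1 : ((T.filter fun b => b.1 0 ∈ Sg).card : ℝ) ≤ Psi Sg B := by
    have := SG2_near_card Sg B 0 (T.filter fun b => b.1 0 ∈ Sg)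
      ((Finset.filter_subset _ _).trans hT) (fun b hb => ⟨b.1 0, (Finset.mem_filter.1 hb).2, by simp⟩)
    simpa using this
  have h2 : (T.filter fun b => ¬ b.1 0 ∈ Sg).card ≤ W.card := by
    refine Finset.card_le_card_of_injOn (pjB p) ?_ ?_
    · intro b hb
      have := Finset.mem_filter.1 hb
      exact hW b this.1 this.2
    · intro b hb c hc e
      exact SG2_inj h (Finset.mem_filter.1 hb).2 (Finset.mem_filter.1 hc).2 e
  have h3 := Finset.card_filter_add_card_filter_not (s := T) (fun b => b.1 0 ∈ Sg)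
  have h4 : (T.card : ℝ) = ((T.filter fun b => b.1 0 ∈ Sg).card : ℝ) +
      ((T.filter fun b => ¬ b.1 0 ∈ Sg).card : ℝ) := by exact_mod_cast h3.symm
  have h5 : ((T.filter fun b => ¬ b.1 0 ∈ Sg).card : ℝ) ≤ W.card := by exact_mod_cast h2
  linarith only [h1, h4, h5]

theorem SG2_mem_Kset {p : ℤ → ℤ} {Sg : Finset ℤ} {B : Finset Site} {b : Bond} :
    b ∈ Kset p Sg B ↔ ∃ c ∈ cut B, c.1 0 ∉ Sg ∧ pjB p c = b := by
  unfold Kset
  simp only [Finset.mem_image, Finset.mem_filter, and_assoc]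

/-- Far from the seam a bond adjacent to an image is an image of an adjacent bond. -/
theorem SG2_lift {N : ℕ} {p : ℤ → ℤ} {Sg : Finset ℤ} (h : Slab N p Sg) {c r : Bond}
    (hc : ∀ σ ∈ Sg, ¬ |c.1 0 - σ| ≤ 2) (ha : Adj (pjB p c) r) :
    ∃ r' : Bond, r'.1 0 ∉ Sg ∧ pjB p r' = r ∧ Adj c r' := by
  have hn : ∀ t : ℤ, |c.1 0 - t| ≤ 2 → t ∉ Sg := fun t ht hs => hc t hs ht
  have h0 : |p (c.1 0) - r.1 0| ≤ ((1 : ℕ) : ℤ) := by
    have := ha.1 0
    rwa [show (pjB p c).1 0 = p (c.1 0) from SG2_pj_zero p c.1] at this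
  rw [abs_le] at h0
  have s1 := h.step (c.1 0) (hn _ (by simp))
  have s2 := h.step (c.1 0 - 1) (hn _ (by simp))
  rw [sub_add_cancel] at s2
  obtain ⟨u, hu⟩ : ∃ u : Site, u = Pi.single 0 (c.1 0 - p (c.1 0)) := ⟨_, rfl⟩
  have hu0 : u 0 = c.1 0 - p (c.1 0) := by rw [hu]; simp
  have hui : ∀ i : Fin 3, i ≠ 0 → u i = 0 := by
    intro i hi
    rw [hu]
    simp [hi]
  have hr0 : (shiftB u r).1 0 = r.1 0 + (c.1 0 - p (c.1 0)) := by
    rw [← hu0]
    rfl
  refine ⟨shiftB u r, ?_, ?_, ?_⟩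
  · apply hn
    rw [hr0, abs_le]
    omega
  · refine Prod.ext ?_ rfl
    funext i
    show pj p (shiftB u r).1 i = r.1 i
    by_cases hi : i = 0
    · subst hi
      rw [SG2_pj_zero, hr0]
      have : r.1 0 = p (c.1 0) - 1 ∨ r.1 0 = p (c.1 0) ∨ r.1 0 = p (c.1 0) + 1 := by omega
      rcases this with e | e | e
      · rw [show r.1 0 + (c.1 0 - p (c.1 0)) = c.1 0 - 1 by omega]
        omega
      · rw [show r.1 0 + (c.1 0 - p (c.1 0)) = c.1 0 by omega]
        omega
      · rw [show r.1 0 + (c.1 0 - p (c.1 0)) = c.1 0 + 1 by omega]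
        omega
    · rw [SG2_pj_ne p _ hi]
      show r.1 i + u i = r.1 i
      rw [hui i hi, add_zero]
  · have e : shiftB u (pjB p c) = c := by
      refine Prod.ext ?_ rfl
      funext i
      show pj p c.1 i + u i = c.1 i
      by_cases hi : i = 0
      · subst hi
        rw [SG2_pj_zero, hu0]
        omega
      · rw [SG2_pj_ne p _ hi, hui i hi, add_zero]
    have := (adj_shiftB u (pjB p c) r).2 ha
    rwa [e] at this

theorem encode {N s : ℕ} {p : ℤ → ℤ} {Sg : Finset ℤ} (h : Slab N p Sg) {A I B B' : Finset Site}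
    {U : Finset Bond} (hA : A ⊆ cube N) (hbig : AllBig s (cut A)) (hI : I ⊆ cube N)
    (hB : B = pull N p (A ∆ I)) (hB' : B' = large s B) (hU : U = cut (A ∆ I) \ Kset p Sg B') :
    Kset p Sg B' ⊆ cut (A ∆ I) ∧ Anim (Pset p Sg B' (cut I)) s U ∧
    ((cut B').card : ℝ) ≤ (Kset p Sg B').card + Psi Sg B ∧
    ((cut B \ cut B').card : ℝ) ≤ U.card + Psi Sg B ∧
    ((Pset p Sg B' (cut I)).card : ℝ) ≤ 81 * (cut I).card + 81000000 * Psi Sg B ∧
    ((cut B).card : ℝ) ≤ (cut (A ∆ I)).card + Psi Sg B := by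
  have hC : A ∆ I ⊆ cube N := by
    intro x hx
    rcases Finset.mem_symmDiff.1 hx with h1 | h1
    · exact hA h1.1
    · exact hI h1.1
  have hcl : Clopen (cut B') (cut B) := by
    rw [hB', cut_large]
    exact Lg_clopen s _
  have hmc : ∀ b : Bond, b.1 0 ∉ Sg → (b ∈ cut B ↔ pjB p b ∈ cut (A ∆ I)) := by
    intro b hb
    rw [hB]
    exact SG2_mem_cut h hC hb
  have hmU : ∀ b : Bond, b ∈ U ↔ b ∈ cut (A ∆ I) ∧ b ∉ Kset p Sg B' := by
    intro b
    rw [hU, Finset.mem_sdiff]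
  refine ⟨?_, ?_, ?_, ?_, ?_, ?_⟩
  · intro b hb
    obtain ⟨c, hc, hs, rfl⟩ := SG2_mem_Kset.1 hb
    exact (hmc c hs).1 (hcl.1 hc)
  · intro b hb
    by_cases hP : ∃ r ∈ Pset p Sg B' (cut I), r ∈ U ∧ Conn U r b
    · exact Or.inl hP
    right
    have hno : ∀ r ∈ comp U b, r ∉ Pset p Sg B' (cut I) := by
      intro r hr hr'
      obtain ⟨h1, h2⟩ := mem_comp.1 hr
      exact hP ⟨r, hr', h1, h2.symm⟩
    have hnI : ∀ r ∈ comp U b, r ∉ nbhd (cut I) := fun r hr hr' =>
      hno r hr (Finset.mem_union_left _ hr')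
    have hclo : Clopen (comp U b) (cut A) := by
      constructor
      · intro r hr
        have h1 := ((hmU r).1 (mem_comp.1 hr).1).1
        rw [cut_symmDiff] at h1
        rcases Finset.mem_symmDiff.1 h1 with h2 | h2
        · exact h2.1
        · exact absurd (subset_nbhd _ h2.1) (hnI r hr)
      · intro r hr b' hb' hadj
        obtain ⟨hrU, hconn⟩ := mem_comp.1 hr
        have h1 : b' ∉ cut I := fun h2 => hnI r hr (mem_nbhd.2 ⟨b', h2, hadj.symm⟩)
        have h2 : b' ∈ cut (A ∆ I) := by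
          rw [cut_symmDiff]
          exact Finset.mem_symmDiff.2 (Or.inl ⟨hb', h1⟩)
        have h3 : b' ∉ Kset p Sg B' := by
          intro h3
          obtain ⟨c, hc, hs, rfl⟩ := SG2_mem_Kset.1 h3
          by_cases hnear : ∃ σ ∈ Sg, |c.1 0 - σ| ≤ 2
          · refine hno r hr (Finset.mem_union_right _ (mem_nbhd.2 ⟨pjB p c, ?_, hadj.symm⟩))
            exact Finset.mem_image_of_mem _ (Finset.mem_filter.2 ⟨hc, hs, hnear⟩)
          · obtain ⟨r', e1, e2, e3⟩ := SG2_lift h (c := c) (r := r)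
              (fun σ hσ hle => hnear ⟨σ, hσ, hle⟩) hadj.symm
            have e4 : r' ∈ cut B := (hmc r' e1).2 (by rw [e2]; exact ((hmU r).1 hrU).1)
            exact ((hmU r).1 hrU).2 (SG2_mem_Kset.2 ⟨r', hcl.2 c hc r' e4 e3, e1, e2⟩)
        have h4 : b' ∈ U := (hmU b').2 ⟨h2, h3⟩
        exact mem_comp.2 ⟨h4, hconn.tail ⟨hrU, h4, hadj⟩⟩
    have hbc : b ∈ comp U b := mem_comp.2 ⟨hb, Relation.ReflTransGen.refl⟩
    have hbA : b ∈ cut A := hclo.1 hbc
    refine (Big.card hbA (hbig b hbA)).trans (Finset.card_le_card ?_)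
    intro r hr
    exact (hclo.conn hbc (mem_comp.1 hr).2).mem hbc
  · exact SG2_count h B _ _ hcl.1 fun b hb hs => SG2_mem_Kset.2 ⟨b, hb, hs, rfl⟩
  · refine SG2_count h B _ _ Finset.sdiff_subset fun b hb hs => ?_
    obtain ⟨h1, h2⟩ := Finset.mem_sdiff.1 hb
    refine (hmU _).2 ⟨(hmc b hs).1 h1, fun h3 => ?_⟩
    obtain ⟨c, hc, hcs, e⟩ := SG2_mem_Kset.1 h3
    exact h2 (SG2_inj h hcs hs e ▸ hc)
  · obtain ⟨T, hT⟩ : ∃ T, T = (cut B').filter
        fun b => b.1 0 ∉ Sg ∧ ∃ σ ∈ Sg, |b.1 0 - σ| ≤ 2 := ⟨_, rfl⟩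
    have h1 : (T.card : ℝ) * ph ^ 2 ≤ Psi Sg B := by
      refine SG2_near_card Sg B 2 T ?_ ?_
      · rw [hT]
        exact (Finset.filter_subset _ _).trans hcl.1
      · intro b hb
        rw [hT] at hb
        exact (Finset.mem_filter.1 hb).2.2
    have h2 : (Pset p Sg B' (cut I)).card ≤ 81 * (cut I).card + 81 * T.card := by
      unfold Pset
      rw [← hT]
      refine (Finset.card_union_le _ _).trans (Nat.add_le_add (card_nbhd _) ?_)
      exact (card_nbhd _).trans (Nat.mul_le_mul_left _ Finset.card_image_le)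
    have h3 : ((Pset p Sg B' (cut I)).card : ℝ) ≤ 81 * (cut I).card + 81 * T.card := by
      exact_mod_cast h2
    unfold ph at h1
    linarith only [h1, h3]
  · exact SG2_count h B _ _ subset_rfl fun b hb hs => (hmc b hs).1 hb

end Pool.Agent.Work.MP_b59478_pr
end
end

-- merged part: Pool.Agent.Work.MP_b59478_pr.SG4
section
/-! Thin hairs. q = (id, empty), B = large s (A symmdiff I), U = cut (A symmdiff I) minus cut B, n = card cut I,
c2 = cut I minus cut A. card cut (A symmdiff I) <= card cut A - 3 n / 4, so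
w A <= w B * exp (-(3/2) beta n - 2 beta card U). card I <= n ^ (3/2) (iso), and
card ((A symmdiff I) symmdiff B) <= (2 s + 1) ^ 3 card U (card_le_of_small). Let h be given by
thermo_lower for B (dev_formula bounds its hypothesis by 3 eta1 N ^ 2 sqrt N, so
|h| <= 3 eta1 / (c sqrt N), and 2 |h| card I <= n when eta1 is small in terms of L0). Then
ZM A <= exp (-h m) ZA (nbhd cut A) A h (chernoff) <= 2 ^ (81 card c2) exp (-h m) ZA (nbhd cut B) A h
(ZA_le) <= ... exp (n + card U) exp (-h m) ZA (nbhd cut B) B h (ZA_field, HOk) <= ... N ^ 3 / c * ZM B.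
-/

set_option autoImplicit false

noncomputable section

namespace Pool.Agent.Work.MP_b59478_pr

open Classical Filter Topology MeasureTheory
open scoped symmDiff Pointwise

theorem SG4_card {α : Type*} [DecidableEq α] (S T : Finset α) :
    (S ∆ T).card + T.card = S.card + 2 * (T \ S).card := by
  have h1 : (S ∆ T).card = (S \ T).card + (T \ S).card := by
    rw [symmDiff_def, Finset.sup_eq_union, Finset.card_union_of_disjoint disjoint_sdiff_sdiff]
  have h2 := Finset.card_sdiff_add_card_inter S T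
  have h3 := Finset.card_sdiff_add_card_inter T S
  rw [Finset.inter_comm] at h3
  omega

theorem SG4_tri {α : Type*} [DecidableEq α] (A I B : Finset α) :
    (A ∆ B).card ≤ I.card + ((A ∆ I) ∆ B).card := by
  refine le_trans (Finset.card_le_card ?_) (Finset.card_union_le _ _)
  intro x hx
  simp only [Finset.mem_union, Finset.mem_symmDiff] at hx ⊢
  (clear * - hx; tauto)

theorem SG4_abs {α : Type*} [DecidableEq α] (A B : Finset α) :
    |(B.card : ℝ) - A.card| ≤ (A ∆ B).card := by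
  have h1 : B.card ≤ A.card + (A ∆ B).card := by
    refine le_trans (Finset.card_le_card ?_) (Finset.card_union_le _ _)
    intro x hx
    simp only [Finset.mem_union, Finset.mem_symmDiff]
    tauto
  have h2 : A.card ≤ B.card + (A ∆ B).card := by
    refine le_trans (Finset.card_le_card ?_) (Finset.card_union_le _ _)
    intro x hx
    simp only [Finset.mem_union, Finset.mem_symmDiff]
    tauto
  have h1' : (B.card : ℝ) ≤ A.card + (A ∆ B).card := by exact_mod_cast h1
  have h2' : (A.card : ℝ) ≤ B.card + (A ∆ B).card := by exact_mod_cast h2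
  rw [abs_le]
  constructor <;> linarith only [h2', h1']

theorem SG4_sub {V A I : Finset Site} (hA : A ⊆ V) (hI : I ⊆ V) : A ∆ I ⊆ V := by
  intro x hx
  rcases Finset.mem_symmDiff.1 hx with h | h
  · exact hA h.1
  · exact hI h.1

theorem SG4_cut_large (s : ℕ) (S : Finset Site) : cut (large s S) ⊆ cut S := by
  rw [cut_large]
  exact Finset.filter_subset _ _

theorem SG4_small {V S : Finset Site} (hV : IsBox V) (hS : S ⊆ V) (s : ℕ) :
    (S ∆ large s S).card ≤ (2 * s + 1) ^ 3 * (cut S \ cut (large s S)).card := by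
  have h := symmDiff_large_mem hV hS s
  rw [Om, Finset.mem_filter] at h
  have h1 := card_le_of_small h.2.1
  rwa [cut_symmDiff_large] at h1

theorem SG4_nbhd (s : ℕ) (A I : Finset Site) :
    (nbhd (cut (large s (A ∆ I))) \ nbhd (cut A)).card ≤ 81 * (cut I \ cut A).card := by
  refine le_trans (Finset.card_le_card ?_) (card_nbhd _)
  have h1 : cut (large s (A ∆ I)) ⊆ cut A ∪ (cut I \ cut A) := by
    refine (SG4_cut_large s _).trans ?_
    rw [cut_symmDiff]
    intro b hb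
    simp only [Finset.mem_union, Finset.mem_symmDiff, Finset.mem_sdiff] at hb ⊢
    tauto
  have h2 := nbhd_mono h1
  rw [nbhd_union] at h2
  intro b hb
  rw [Finset.mem_sdiff] at hb
  rcases Finset.mem_union.1 (h2 hb.1) with h | h
  · exact absurd h hb.2
  · exact h

theorem SG4_iso {I : Finset Site} {L N : ℝ} (hL : 0 ≤ L) (h : ((cut I).card : ℝ) ≤ L * N) :
    (I.card : ℝ) ≤ (cut I).card * (Real.sqrt L * Real.sqrt N) := by
  have h1 : (I.card : ℝ) ^ 2 ≤ ((cut I).card : ℝ) ^ 3 := by exact_mod_cast iso I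
  have h0 : (0 : ℝ) ≤ (cut I).card := Nat.cast_nonneg _
  rw [← Real.sqrt_mul hL]
  have h2 : Real.sqrt (L * N) ^ 2 = L * N := Real.sq_sqrt (h0.trans h)
  refine (pow_le_pow_iff_left₀ (Nat.cast_nonneg _) (mul_nonneg h0 (Real.sqrt_nonneg _))
    two_ne_zero).1 ?_
  rw [mul_pow, h2]
  linarith [mul_le_mul_of_nonneg_left h (sq_nonneg ((cut I).card : ℝ))]

/-- The deterministic comparison of the weights. -/
theorem SG4_core {β : ℝ} (hβ : 1000 ≤ β) {N : ℕ} {m : ℤ} {A I : Finset Site} (hA : A ⊆ cube N)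
    (hI : I ⊆ cube N) (h8 : 8 * (cut I \ cut A).card ≤ (cut I).card) {h K : ℝ} (hK : 0 ≤ K)
    (hh : HOk (sN N) h) (hhI : 2 * |h| * I.card ≤ (cut I).card)
    (hlow : Real.exp (-(h * m)) * ZA β (cube N) (nbhd (cut (large (sN N) (A ∆ I)))) (sN N)
        (large (sN N) (A ∆ I)) h ≤
      K * ZM β (cube N) (nbhd (cut (large (sN N) (A ∆ I)))) (sN N) (large (sN N) (A ∆ I)) m) :
    FM β N m A ≤ K * Real.exp (-(β * (cut I).card) -
      7 * (cut (A ∆ I) \ cut (large (sN N) (A ∆ I))).card) * FM β N m (large (sN N) (A ∆ I)) := by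
  have hV := isBox_cube N
  have hA1 := SG4_sub hA hI
  have e1 := SG4_card (cut A) (cut I)
  rw [← cut_symmDiff] at e1
  have e2 := Finset.card_sdiff_add_card_eq_card (SG4_cut_large (sN N) (A ∆ I))
  have e3 := SG4_nbhd (sN N) A I
  have e4 := (SG4_tri A I (large (sN N) (A ∆ I))).trans
    (Nat.add_le_add_left (SG4_small hV hA1 (sN N)) _)
  have z1 := chernoff β (cube N) (nbhd (cut A)) (sN N) A m h
  have z2 := ZA_le hβ hV (nbhd (cut A)) (nbhd (cut (large (sN N) (A ∆ I)))) A hh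
  have z3 := ZA_field β (cube N) (nbhd (cut (large (sN N) (A ∆ I)))) (sN N) A
    (large (sN N) (A ∆ I)) h
  have z4 := ZM_nonneg β (cube N) (nbhd (cut (large (sN N) (A ∆ I)))) (sN N)
    (large (sN N) (A ∆ I)) m
  have z5 := ZA_pos β (cube N) (nbhd (cut (large (sN N) (A ∆ I)))) (sN N)
    (large (sN N) (A ∆ I)) h
  unfold FM w
  unfold HOk at hh
  set B := large (sN N) (A ∆ I)
  set u := (cut (A ∆ I) \ cut B).card
  set n := (cut I).card
  set c2 := (cut I \ cut A).card
  set k := (nbhd (cut B) \ nbhd (cut A)).card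
  set ZB := ZM β (cube N) (nbhd (cut B)) (sN N) B m
  set YB := ZA β (cube N) (nbhd (cut B)) (sN N) B h
  have e1' : ((cut A).card : ℝ) = (cut B).card + u + n - 2 * c2 := by
    have : (cut A).card + 2 * c2 = (cut B).card + u + n := by omega
    have h' : ((cut A).card : ℝ) + 2 * c2 = (cut B).card + u + n := by exact_mod_cast this
    linarith only [h']
  have e3' : (k : ℝ) ≤ 81 * c2 := by exact_mod_cast e3
  have h8' : 8 * (c2 : ℝ) ≤ n := by exact_mod_cast h8
  have e4' : ((A ∆ B).card : ℝ) ≤ I.card + (2 * (sN N : ℝ) + 1) ^ 3 * u := by exact_mod_cast e4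
  have u0 : (0 : ℝ) ≤ u := Nat.cast_nonneg _
  have c0 : (0 : ℝ) ≤ c2 := Nat.cast_nonneg _
  have a0 : 0 ≤ 2 * |h| := by (clear * - ; positivity)
  have f1 : 2 * |h| * ((A ∆ B).card : ℝ) ≤ n + u := by
    have h1 := mul_le_mul_of_nonneg_left e4' a0
    have h2 := mul_le_mul_of_nonneg_right hh u0
    linarith only [hhI, h1, h2]
  have f2 : (2 : ℝ) ^ k ≤ Real.exp k := by
    rw [← mul_one (k : ℝ), Real.exp_nat_mul]
    refine pow_le_pow_left₀ (by norm_num) ?_ k
    have := Real.add_one_le_exp 1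
    linarith only [this]
  have g1 : ZM β (cube N) (nbhd (cut A)) (sN N) A m ≤ Real.exp (k + (n + u)) * (K * ZB) := by
    refine z1.trans ?_
    have t1 : ZA β (cube N) (nbhd (cut A)) (sN N) A h ≤ Real.exp (k + (n + u)) * YB := by
      refine z2.trans ?_
      rw [Real.exp_add, mul_assoc]
      refine mul_le_mul f2 (z3.trans ?_) (ZA_pos _ _ _ _ _ _).le (Real.exp_pos _).le
      exact mul_le_mul_of_nonneg_right (Real.exp_le_exp.2 f1) z5.le
    calc Real.exp (-(h * m)) * ZA β (cube N) (nbhd (cut A)) (sN N) A h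
        ≤ Real.exp (-(h * m)) * (Real.exp (k + (n + u)) * YB) :=
          mul_le_mul_of_nonneg_left t1 (Real.exp_pos _).le
      _ = Real.exp (k + (n + u)) * (Real.exp (-(h * m)) * YB) := by ring
      _ ≤ _ := mul_le_mul_of_nonneg_left hlow (Real.exp_pos _).le
  have g2 : -(2 * β * ((cut A).card : ℝ)) + (k + (n + u)) ≤
      (-(β * n) - 7 * u) + -(2 * β * ((cut B).card : ℝ)) := by
    rw [e1']
    have h1 : 0 ≤ (β - 1000) * (n - 8 * c2) := mul_nonneg (by linarith only [hβ]) (by linarith only [h8'])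
    have h2 : 0 ≤ (β - 1000) * u := mul_nonneg (by linarith only [hβ]) u0
    have h3 : 0 ≤ (β - 1000) * c2 := mul_nonneg (by linarith only [hβ]) c0
    linarith only [e3', h8', h1, h2, h3]
  calc Real.exp (-(2 * β * ((cut A).card : ℝ))) * ZM β (cube N) (nbhd (cut A)) (sN N) A m
      ≤ Real.exp (-(2 * β * ((cut A).card : ℝ))) * (Real.exp (k + (n + u)) * (K * ZB)) :=
        mul_le_mul_of_nonneg_left g1 (Real.exp_pos _).le
    _ = Real.exp (-(2 * β * ((cut A).card : ℝ)) + (k + (n + u))) * (K * ZB) := by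
        rw [Real.exp_add (-(2 * β * ((cut A).card : ℝ)))]; ring
    _ ≤ Real.exp ((-(β * n) - 7 * u) + -(2 * β * ((cut B).card : ℝ))) * (K * ZB) :=
        mul_le_mul_of_nonneg_right (Real.exp_le_exp.2 g2) (mul_nonneg hK z4)
    _ = _ := by rw [Real.exp_add]; ring

theorem thin {β ms v lam : ℝ} {τ : E3 → ℝ} {r0 ω : ℝ} {m : ℕ → ℤ}
    (H : Ctx β ms v lam τ r0 ω m) {C0 L0 : ℝ} (hC : 0 < C0) (hL : 0 < L0) :
    ∃ η1 G : ℝ, 0 < η1 ∧ 0 < G ∧ ∀ᶠ N : ℕ in atTop, ∀ A ∈ BigSets N, ∀ I : Finset Site,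
    ((cut A).card : ℝ) ≤ C0 * (N : ℝ) ^ 2 →
    |(A.card : ℝ) - v * (N : ℝ) ^ 3| ≤ η1 * ((N : ℝ) ^ 2 * Real.sqrt N) →
    I ⊆ cube N → IsConn (cut I) → 8 * (cut I \ cut A).card ≤ (cut I).card →
    ((cut I).card : ℝ) ≤ L0 * N → Code β N (m N) (G * (N : ℝ) ^ 3) (cut I).card A := by
  obtain ⟨c, hc, evT⟩ := thermo_lower H.hβ
  obtain ⟨C, hCp, evD⟩ := dev_formula H
  have hsL : 0 < Real.sqrt L0 := Real.sqrt_pos.2 hL
  obtain ⟨η, hη, hη3, hηc⟩ : ∃ η : ℝ, 0 < η ∧ η ≤ 1 / 3 ∧ 6 * η * Real.sqrt L0 ≤ c := by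
    refine ⟨min (1 / 3) (c / (6 * Real.sqrt L0)), lt_min (by norm_num) (by positivity),
      min_le_left _ _, ?_⟩
    have h1 : min (1 / 3) (c / (6 * Real.sqrt L0)) ≤ c / (6 * Real.sqrt L0) := min_le_right _ _
    rw [le_div_iff₀ (by positivity)] at h1
    linarith
  refine ⟨η, 1 / c, hη, by positivity, ?_⟩
  filter_upwards [evT, evD, ev_cube_sqrt (40 * C0 / η), ev_sqrt (5 * C * (82 * C0 + 1) / η),
    ev_sqrt_le (show (0 : ℝ) < 1 / 5 by norm_num),
    tendsto_natCast_atTop_atTop.eventually_ge_atTop (8100 * C0),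
    tendsto_natCast_atTop_atTop.eventually_ge_atTop (5 * L0 * Real.sqrt L0 / η),
    eventually_ge_atTop 1] with N hT hD ev1 ev2 ev3 ev4 ev5 ev6
  intro A hA I hcut hvol hI hconn h8 hn
  rw [BigSets, Finset.mem_filter, Finset.mem_powerset] at hA
  obtain ⟨hA, hbig⟩ := hA
  have hV := isBox_cube N
  have hA1 := SG4_sub hA hI
  have hB : large (sN N) (A ∆ I) ⊆ cube N := large_subset hV hA1 _
  obtain ⟨-, han, -, -, hP, -⟩ := encode (slab_id N) hA hbig hI (pull_id hA1).symm rfl rfl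
  rw [Psi_empty] at hP
  have hN : (1 : ℝ) ≤ N := by exact_mod_cast ev6
  have hN0 : (0 : ℝ) < N := by linarith only [hC, ev4]
  have hs0 : 0 < Real.sqrt N := Real.sqrt_pos.2 hN0
  have hss : Real.sqrt N * Real.sqrt N = N := Real.mul_self_sqrt hN0.le
  have e1 := SG4_card (cut A) (cut I)
  rw [← cut_symmDiff] at e1
  have e2 := Finset.card_sdiff_add_card_eq_card (SG4_cut_large (sN N) (A ∆ I))
  have e4 := (SG4_tri A I (large (sN N) (A ∆ I))).trans
    (Nat.add_le_add_left (SG4_small hV hA1 (sN N)) _)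
  have e5 := SG4_abs A (large (sN N) (A ∆ I))
  have e6 := SG4_iso hL.le hn
  have e7 := card_nbhd (cut (large (sN N) (A ∆ I)))
  have hT' := hT (nbhd (cut (large (sN N) (A ∆ I)))) _ (m N) hB
  have hD' := hD (nbhd (cut (large (sN N) (A ∆ I)))) _ hB
  have core := fun (h : ℝ) => SG4_core (m := m N) H.hβ hA hI h8 (h := h)
    (K := 1 / c * (N : ℝ) ^ 3) (by positivity)
  have hcode : FM β N (m N) A ≤ 1 / c * (N : ℝ) ^ 3 * Real.exp (-(β * (cut I).card) -
      7 * (cut (A ∆ I) \ cut (large (sN N) (A ∆ I))).card) *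
      FM β N (m N) (large (sN N) (A ∆ I)) := by
    set B := large (sN N) (A ∆ I)
    set u := (cut (A ∆ I) \ cut B).card
    set n := (cut I).card
    set Q := (N : ℝ) ^ 2 * Real.sqrt N with hQ
    have hQ0 : 0 < Q := by positivity
    have hN2 : (0 : ℝ) < (N : ℝ) ^ 2 := by positivity
    have b1 : (u : ℝ) ≤ C0 * (N : ℝ) ^ 2 := by
      have : u ≤ (cut A).card := by omega
      exact le_trans (by exact_mod_cast this) hcut
    have b2 : ((cut B).card : ℝ) ≤ C0 * (N : ℝ) ^ 2 := by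
      have : (cut B).card ≤ (cut A).card := by omega
      exact le_trans (by exact_mod_cast this) hcut
    have b3 : ((nbhd (cut B)).card : ℝ) ≤ 81 * (C0 * (N : ℝ) ^ 2) := by
      have : ((nbhd (cut B)).card : ℝ) ≤ 81 * (cut B).card := by exact_mod_cast e7
      linarith only [b2, this]
    have n0 : (0 : ℝ) ≤ n := Nat.cast_nonneg _
    have b4 : (I.card : ℝ) ≤ η / 5 * Q := by
      rw [div_le_iff₀ hη] at ev5
      have h1 : (n : ℝ) * (Real.sqrt L0 * Real.sqrt N) ≤ L0 * N * (Real.sqrt L0 * Real.sqrt N) :=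
        mul_le_mul_of_nonneg_right hn (by positivity)
      have h2 := mul_le_mul_of_nonneg_right ev5 (show 0 ≤ (N : ℝ) * Real.sqrt N by positivity)
      rw [hQ]
      linarith only [e6, h1, h2]
    have b5 : (2 * (sN N : ℝ) + 1) ^ 3 * u ≤ η / 5 * Q := by
      have s0 : (0 : ℝ) ≤ sN N := Nat.cast_nonneg _
      have h1 : (2 * (sN N : ℝ) + 1) ^ 3 ≤ 8 * ((sN N : ℝ) + 1) ^ 3 := by
        have := pow_le_pow_left₀ (by (clear * - ; positivity))
          (show 2 * (sN N : ℝ) + 1 ≤ 2 * ((sN N : ℝ) + 1) by linarith only [hη, hη3]) 3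
        rw [mul_pow] at this
        linarith only [this]
      rw [div_mul_eq_mul_div, div_le_iff₀ hη] at ev1
      have h2 : (2 * (sN N : ℝ) + 1) ^ 3 * u ≤ 8 * ((sN N : ℝ) + 1) ^ 3 * (C0 * (N : ℝ) ^ 2) :=
        mul_le_mul h1 b1 (Nat.cast_nonneg _) (by positivity)
      have h3 := mul_le_mul_of_nonneg_right ev1 hN2.le
      rw [hQ]
      linarith only [h2, h3]
    have b6 : C * ((nbhd (cut B)).card + (cut B).card + (N : ℝ) ^ 2) ≤ η / 5 * Q := by
      rw [div_le_iff₀ hη] at ev2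
      have h1 : C * ((nbhd (cut B)).card + (cut B).card + (N : ℝ) ^ 2) ≤
          C * ((82 * C0 + 1) * (N : ℝ) ^ 2) := mul_le_mul_of_nonneg_left (by linarith only [b2, b3]) hCp.le
      have h3 := mul_le_mul_of_nonneg_right ev2 hN2.le
      rw [hQ]
      linarith only [h1, h3]
    have e4' : ((A ∆ B).card : ℝ) ≤ I.card + (2 * (sN N : ℝ) + 1) ^ 3 * u := by exact_mod_cast e4
    have b7 : |v * (N : ℝ) ^ 3 - B.card| ≤ 7 / 5 * η * Q := by
      rw [abs_le] at hvol e5 ⊢
      constructor <;> linarith only [e5, hvol, b4, b5, e4', hvol.1, hvol.2, e5.1, e5.2]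
    have b8 : |(m N : ℝ) - EA β (cube N) (nbhd (cut B)) (sN N) B 0| ≤ 3 * η * Q := by
      have h1 : |2 * ms * (v * (N : ℝ) ^ 3 - B.card)| ≤ 2 * (7 / 5 * η * Q) := by
        rw [abs_mul]
        refine mul_le_mul ?_ b7 (abs_nonneg _) (by norm_num)
        have := H.mag.lo
        have := H.mag.hi
        rw [abs_le]
        constructor <;> linarith
      rw [abs_le] at h1 hD' ⊢
      constructor <;> linarith only [hD', b6, h1, h1.1, h1.2, hD'.1, hD'.2]
    have b9 : Q ≤ (N : ℝ) ^ 3 / 5 := by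
      have := mul_le_mul_of_nonneg_left ev3 hN2.le
      rw [hQ]
      linarith only [this]
    have hηQ : η * Q ≤ 1 / 3 * Q := mul_le_mul_of_nonneg_right hη3 hQ0.le
    have hN3 : (0 : ℝ) < (N : ℝ) ^ 3 := by positivity
    obtain ⟨h, h1, -, h3, h4⟩ := hT' (by
        have hv := mul_le_mul_of_nonneg_right H.v_le hN3.le
        rw [abs_le] at b7
        linarith only [hQ0, b7, b9, hηQ, hv, b7.1]) (by
        have := mul_le_mul_of_nonneg_right ev4 hN2.le
        linarith only [b3, this]) (H.par N) (by linarith only [b8, hηQ])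
    refine core h h3 ?_ ?_
    · have k1 : |h| * (c * (N : ℝ) ^ 3) ≤ 3 * η * Q := h1.trans b8
      have k2 : |h| * c * Real.sqrt N ≤ 3 * η := by
        refine le_of_mul_le_mul_right ?_ hQ0
        have : |h| * c * Real.sqrt N * Q = |h| * (c * (N : ℝ) ^ 3) := by
          rw [hQ]
          calc |h| * c * Real.sqrt N * ((N : ℝ) ^ 2 * Real.sqrt N)
              = |h| * c * (N : ℝ) ^ 2 * (Real.sqrt N * Real.sqrt N) := by ring
            _ = _ := by rw [hss]; ring
        rw [this]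
        exact k1
      have k3 : 2 * |h| * (Real.sqrt L0 * Real.sqrt N) ≤ 1 := by
        refine le_of_mul_le_mul_right ?_ hc
        have := mul_le_mul_of_nonneg_right k2 hsL.le
        linarith only [hηc, this]
      have k4 := mul_le_mul_of_nonneg_left e6 (show 0 ≤ 2 * |h| by (clear * - ; positivity))
      have k5 := mul_le_mul_of_nonneg_left k3 n0
      linarith only [k4, k5]
    · have k1 := mul_le_mul_of_nonneg_left h4 (show 0 ≤ 1 / c * (N : ℝ) ^ 3 by positivity)
      refine le_trans (le_of_eq ?_) k1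
      field_simp
  refine ⟨(id, ∅), id_mem_Params N, I, large (sN N) (A ∆ I),
    cut (A ∆ I) \ Kset id ∅ (large (sN N) (A ∆ I)), hconn, cut_subset_bonds hI, le_rfl, ?_, ?_,
    Finset.sdiff_subset.trans (cut_subset_bonds hA1), han, ?_, ?_⟩
  · rw [BigSets, Finset.mem_filter, Finset.mem_powerset]
    exact ⟨hB, allBig_large _ _⟩
  · rw [Kset_id, Finset.union_sdiff_of_subset (SG4_cut_large _ _)]
  · have : ((Pset id ∅ (large (sN N) (A ∆ I)) (cut I)).card : ℝ) ≤ 82 * (cut I).card := by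
      have n0 : (0 : ℝ) ≤ (cut I).card := Nat.cast_nonneg _
      linarith only [hP]
    exact_mod_cast this
  · rw [Kset_id]
    exact hcode

end Pool.Agent.Work.MP_b59478_pr
end
end

-- merged part: Pool.Agent.Work.MP_b59478_pr.SG3A
section
/-! Layers and the cost of a slab map. -/

set_option autoImplicit false

noncomputable section

namespace Pool.Agent.Work.MP_b59478_pr

open Classical Filter Topology MeasureTheory
open scoped symmDiff Pointwise

theorem SG3_ph_pos : 0 < ph := by norm_num [ph]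

theorem SG3_ph_le : ph ≤ 1 := by norm_num [ph]

theorem SG3_sum_inj {α β : Type} {S : Finset α} {T : Finset β} (g : α → β) (f : β → ℝ)
    (hf : ∀ y, 0 ≤ f y) (hm : ∀ x ∈ S, g x ∈ T) (hi : Set.InjOn g S) :
    ∑ x ∈ S, f (g x) ≤ ∑ y ∈ T, f y := by
  rw [← Finset.sum_image hi]
  refine Finset.sum_le_sum_of_subset_of_nonneg ?_ fun y _ _ => hf y
  intro y hy
  obtain ⟨x, hx, rfl⟩ := Finset.mem_image.1 hy
  exact hm x hx

theorem SG3_geo (S : Finset ℤ) (t : ℤ) (d : ℕ) (h : ∀ σ ∈ S, d ≤ (t - σ).natAbs) :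
    ∑ σ ∈ S, ph ^ (t - σ).natAbs ≤ 3 * ph ^ d := by
  obtain ⟨M, hM⟩ : ∃ M : ℕ, ∀ σ ∈ S, (t - σ).natAbs < M :=
    ⟨S.sup (fun σ => (t - σ).natAbs) + 1, fun σ hσ =>
      Nat.lt_succ_of_le (Finset.le_sup (f := fun σ => (t - σ).natAbs) hσ)⟩
  have hg : ∑ n ∈ Finset.Ico d M, ph ^ n ≤ 3 / 2 * ph ^ d := by
    refine (geom_sum_Ico_le_of_lt_one SG3_ph_pos.le (by norm_num [ph])).trans ?_
    have := pow_pos SG3_ph_pos d
    rw [div_le_iff₀ (by norm_num [ph])]
    have h1 : (1 : ℝ) ≤ 3 / 2 * (1 - ph) := by norm_num [ph]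
    nlinarith only [this, h1]
  have key : ∀ S' : Finset ℤ, S' ⊆ S → Set.InjOn (fun σ => (t - σ).natAbs) S' →
      ∑ σ ∈ S', ph ^ (t - σ).natAbs ≤ 3 / 2 * ph ^ d := fun S' hS hi =>
    (SG3_sum_inj (T := Finset.Ico d M) (fun σ => (t - σ).natAbs) (fun n => ph ^ n)
      (fun n => (pow_pos SG3_ph_pos n).le)
      (fun σ hσ => Finset.mem_Ico.2 ⟨h σ (hS hσ), hM σ (hS hσ)⟩) hi).trans hg
  rw [← Finset.sum_filter_add_sum_filter_not S fun σ => σ ≤ t]
  have h1 := key (S.filter fun σ => σ ≤ t) (Finset.filter_subset _ _) (by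
    intro a ha b hb hab
    simp only [Finset.coe_filter, Set.mem_ofPred_eq] at ha hb hab
    omega)
  have h2 := key (S.filter fun σ => ¬ σ ≤ t) (Finset.filter_subset _ _) (by
    intro a ha b hb hab
    simp only [Finset.coe_filter, Set.mem_ofPred_eq] at ha hb hab
    omega)
  linarith only [h1, h2]

/-- The number of points of `X` in the layer `t`. -/
def SG3_lay (X : Finset Site) (t : ℤ) : ℝ := ((X.filter fun x => x 0 = t).card : ℝ)

/-- The boundary of `A` weighted by the distance to the layer `u`. -/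
def SG3_Wt (A : Finset Site) (u : ℤ) : ℝ := ∑ b ∈ cut A, ph ^ (b.1 0 - u).natAbs

theorem SG3_lay_nonneg (X : Finset Site) (t : ℤ) : 0 ≤ SG3_lay X t := Nat.cast_nonneg _

theorem SG3_Wt_nonneg (A : Finset Site) (u : ℤ) : 0 ≤ SG3_Wt A u :=
  Finset.sum_nonneg fun _ _ => (pow_pos SG3_ph_pos _).le

theorem SG3_sum_Wt (A : Finset Site) (S : Finset ℤ) :
    ∑ u ∈ S, SG3_Wt A u ≤ 3 * (cut A).card := by
  unfold SG3_Wt
  rw [Finset.sum_comm]
  refine (Finset.sum_le_sum fun b _ => SG3_geo S (b.1 0) 0 fun _ _ => Nat.zero_le _).trans ?_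
  simp [mul_comm]

theorem SG3_sum_lay (X : Finset Site) (S : Finset ℤ) :
    ∑ t ∈ S, SG3_lay X t = ((X.filter fun x => x 0 ∈ S).card : ℝ) := by
  unfold SG3_lay
  rw [← Nat.cast_sum, Finset.sum_card_fiberwise_eq_card_filter]

theorem SG3_card_eq {N : ℕ} {X : Finset Site} (hX : X ⊆ cube N) :
    (X.card : ℝ) = ∑ t ∈ Finset.Icc (-(N : ℤ)) N, SG3_lay X t := by
  rw [SG3_sum_lay, Finset.filter_true_of_mem]
  intro x hx
  exact Finset.mem_Icc.2 (abs_le.1 (mem_cube.1 (hX hx) 0))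

theorem SG3_site_ext {x y : Site} (h0 : x 0 = y 0) (h1 : x 1 = y 1) (h2 : x 2 = y 2) : x = y := by
  funext i
  fin_cases i
  exacts [h0, h1, h2]

theorem SG3_lay_le {N : ℕ} (hN : 1 ≤ N) {X : Finset Site} (hX : X ⊆ cube N) (t : ℤ) :
    SG3_lay X t ≤ 9 * (N : ℝ) ^ 2 := by
  have h : (X.filter fun x => x 0 = t).card ≤
      (Finset.Icc (-(N : ℤ)) N ×ˢ Finset.Icc (-(N : ℤ)) N).card := by
    refine Finset.card_le_card_of_injOn (fun x => (x 1, x 2)) ?_ ?_
    · intro x hx
      have := mem_cube.1 (hX (Finset.mem_filter.1 hx).1)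
      exact Finset.mem_product.2 ⟨Finset.mem_Icc.2 (abs_le.1 (this 1)),
        Finset.mem_Icc.2 (abs_le.1 (this 2))⟩
    · intro x hx y hy hxy
      exact SG3_site_ext ((Finset.mem_filter.1 hx).2.trans (Finset.mem_filter.1 hy).2.symm)
        (congrArg Prod.fst hxy) (congrArg Prod.snd hxy)
  have hc : (Finset.Icc (-(N : ℤ)) N).card = 2 * N + 1 := by
    rw [Int.card_Icc]; omega
  rw [Finset.card_product, hc] at h
  have h' : SG3_lay X t ≤ ((2 * N + 1) * (2 * N + 1) : ℕ) := Nat.cast_le.2 h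
  have hN' : (1 : ℝ) ≤ N := by exact_mod_cast hN
  push_cast at h'
  nlinarith only [hN', h']

theorem SG3_lay_ge (z : Site) (l : ℕ) (A : Finset Site) {t : ℤ} (ht : |t - z 0| ≤ l) :
    (2 * (l : ℝ) + 1) ^ 2 ≤ SG3_lay A t + SG3_lay (ball z l \ A) t := by
  have h : (Finset.Icc (z 1 - l) (z 1 + l) ×ˢ Finset.Icc (z 2 - l) (z 2 + l)).card ≤
      ((A.filter fun x => x 0 = t) ∪ ((ball z l \ A).filter fun x => x 0 = t)).card := by
    refine Finset.card_le_card_of_injOn (fun q => (![t, q.1, q.2] : Site)) ?_ ?_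
    · intro q hq
      obtain ⟨h1, h2⟩ := Finset.mem_product.1 hq
      rw [Finset.mem_Icc] at h1 h2
      have hb : (![t, q.1, q.2] : Site) ∈ ball z l := by
        rw [mem_ball]
        intro i
        fin_cases i
        · exact ht
        · exact abs_le.2 ⟨by simp; omega, by simp; omega⟩
        · exact abs_le.2 ⟨by simp; omega, by simp; omega⟩
      by_cases hA : (![t, q.1, q.2] : Site) ∈ A
      · exact Finset.mem_union_left _ (Finset.mem_filter.2 ⟨hA, rfl⟩)
      · exact Finset.mem_union_right _ (Finset.mem_filter.2 ⟨Finset.mem_sdiff.2 ⟨hb, hA⟩, rfl⟩)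
    · intro q _ q' _ h
      exact Prod.ext (congrFun h 1) (congrFun h 2)
  have hc : ∀ a : ℤ, (Finset.Icc (a - l) (a + l)).card = 2 * l + 1 := by
    intro a
    rw [Int.card_Icc]; omega
  rw [Finset.card_product, hc, hc] at h
  have h' := (Nat.cast_le (α := ℝ)).2 (h.trans (Finset.card_union_le _ _))
  push_cast at h'
  unfold SG3_lay
  nlinarith only [h']

theorem SG3_pj0 (p : ℤ → ℤ) (x : Site) : pj p x 0 = p (x 0) := by simp [pj]

theorem SG3_pj1 (p : ℤ → ℤ) (x : Site) : pj p x 1 = x 1 := by simp [pj]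

theorem SG3_pj2 (p : ℤ → ℤ) (x : Site) : pj p x 2 = x 2 := by simp [pj]

theorem SG3_lay_pull {N : ℕ} {p : ℤ → ℤ} {Sg : Finset ℤ} (h : Slab N p Sg) {A : Finset Site}
    (hA : A ⊆ cube N) (t : ℤ) : SG3_lay (pull N p A) t = SG3_lay A (p t) := by
  unfold SG3_lay
  congr 1
  refine Finset.card_nbij (pj p) ?_ ?_ ?_
  · intro x hx
    obtain ⟨h1, h2⟩ := Finset.mem_filter.1 hx
    exact Finset.mem_filter.2 ⟨(mem_pull h hA).1 h1, by rw [SG3_pj0, h2]⟩
  · intro x hx y hy hxy
    refine SG3_site_ext ((Finset.mem_filter.1 hx).2.trans (Finset.mem_filter.1 hy).2.symm) ?_ ?_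
    · rw [← SG3_pj1 p x, hxy, SG3_pj1]
    · rw [← SG3_pj2 p x, hxy, SG3_pj2]
  · intro y hy
    obtain ⟨h1, h2⟩ := Finset.mem_filter.1 hy
    have he : pj p (Function.update y 0 t) = y :=
      SG3_site_ext (by rw [SG3_pj0, h2]; simp) (by rw [SG3_pj1]; simp) (by rw [SG3_pj2]; simp)
    exact ⟨Function.update y 0 t, Finset.mem_filter.2
      ⟨(mem_pull h hA).2 (by rw [he]; exact h1), by simp⟩, he⟩

/-- The layer `j` is repeated and the layers `jd, ..., jd + k - 1` are deleted. -/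
def SG3_Ok (j jd j0 j1 : ℤ) (k : ℕ) : Prop :=
  (j < jd ∧ j0 = j ∧ j1 = jd + k) ∨ (jd + k ≤ j ∧ j0 = j - k ∧ j1 = jd)

theorem SG3_sum_pm {N k : ℕ} {j jd j0 j1 : ℤ} (h : SG3_Ok j jd j0 j1 k) (h0 : -(N : ℤ) ≤ j)
    (h1 : j ≤ N) (h2 : -(N : ℤ) ≤ jd) (h3 : jd + k ≤ N) (f : ℤ → ℝ) :
    ∑ t ∈ Finset.Icc (-(N : ℤ)) N, f (pm j0 j1 k t) =
      ∑ t ∈ Finset.Icc (-(N : ℤ)) N, f t + k * f j - ∑ i ∈ Finset.range k, f (jd + i) := by
  have hs1 : Finset.Ico j0 (j0 + k) ⊆ Finset.Icc (-(N : ℤ)) N := by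
    intro t ht
    rw [Finset.mem_Ico] at ht
    rw [Finset.mem_Icc]
    unfold SG3_Ok at h
    omega
  have hs2 : Finset.Ico jd (jd + k) ⊆ Finset.Icc (-(N : ℤ)) N := by
    intro t ht
    rw [Finset.mem_Ico] at ht
    rw [Finset.mem_Icc]
    omega
  have e1 : ∑ t ∈ Finset.Ico j0 (j0 + k), f (pm j0 j1 k t) = k * f j := by
    rw [Finset.sum_congr rfl (g := fun _ => f j), Finset.sum_const, Int.card_Ico, nsmul_eq_mul]
    · simp
    · intro t ht
      rw [Finset.mem_Ico] at ht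
      congr 1
      unfold SG3_Ok at h
      unfold pm
      split_ifs <;> omega
  have e2 : ∑ i ∈ Finset.range k, f (jd + i) = ∑ t ∈ Finset.Ico jd (jd + k), f t := by
    refine Finset.sum_nbij (fun i : ℕ => jd + i) ?_ ?_ ?_ fun _ _ => rfl
    · intro i hi
      simp only [Finset.mem_range, Finset.mem_Ico] at hi ⊢
      omega
    · intro a _ b _ hab
      simp only at hab
      omega
    · intro t ht
      simp only [Finset.coe_Ico, Set.mem_Ico] at ht
      exact ⟨(t - jd).toNat, by simp only [Finset.coe_range, Set.mem_Iio]; omega,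
        by simp only; omega⟩
  have e3 : ∑ t ∈ Finset.Icc (-(N : ℤ)) N \ Finset.Ico j0 (j0 + k), f (pm j0 j1 k t) =
      ∑ t ∈ Finset.Icc (-(N : ℤ)) N \ Finset.Ico jd (jd + k), f t := by
    unfold SG3_Ok at h
    refine Finset.sum_nbij (pm j0 j1 k) ?_ ?_ ?_ fun _ _ => rfl
    · intro t ht
      simp only [Finset.mem_sdiff, Finset.mem_Icc, Finset.mem_Ico] at ht ⊢
      unfold pm
      split_ifs <;> omega
    · intro a ha b hb hab
      simp only [Finset.coe_sdiff, Finset.coe_Icc, Finset.coe_Ico, Set.mem_sdiff, Set.mem_Icc,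
        Set.mem_Ico] at ha hb
      unfold pm at hab
      split_ifs at hab <;> omega
    · intro u hu
      simp only [Finset.coe_sdiff, Finset.coe_Icc, Finset.coe_Ico, Set.mem_sdiff, Set.mem_Icc,
        Set.mem_Ico] at hu
      refine ⟨if u < j ∧ u < jd then u else if j ≤ u ∧ jd ≤ u then u else
        if j < jd then u + k else u - k, ?_, ?_⟩
      · simp only [Finset.coe_sdiff, Finset.coe_Icc, Finset.coe_Ico, Set.mem_sdiff, Set.mem_Icc,
          Set.mem_Ico]
        split_ifs <;> omega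
      · unfold pm
        split_ifs <;> omega
  rw [← Finset.sum_sdiff hs1, e1, e3, e2, ← Finset.sum_sdiff hs2]
  ring

theorem SG3_mem_seam {j0 j1 t : ℤ} {k : ℕ} :
    t ∈ seam j0 j1 k ↔ t = j1 - 1 ∨ (j0 ≤ t ∧ t < j0 + k) := by
  simp [seam]

theorem SG3_pj_tip {p : ℤ → ℤ} {b : Bond} (h : b.2 = 0 → p (b.1 0 + 1) = p (b.1 0) + 1) :
    pj p (tip b) = tip (pjB p b) := by
  have e1 : (pjB p b).1 = pj p b.1 := rfl
  have e2 : (pjB p b).2 = b.2 := rfl
  refine SG3_site_ext ?_ ?_ ?_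
  · rw [SG3_pj0, tip_apply, tip_apply, e1, e2, SG3_pj0]
    split_ifs with h0
    · exact h h0.symm
    · simp
  · rw [SG3_pj1, tip_apply, tip_apply, e1, e2, SG3_pj1]
  · rw [SG3_pj2, tip_apply, tip_apply, e1, e2, SG3_pj2]

theorem SG3_pjB_mem {N : ℕ} {p : ℤ → ℤ} {Sg : Finset ℤ} (h : Slab N p Sg) {A : Finset Site}
    (hA : A ⊆ cube N) {b : Bond} (hb : b ∈ cut (pull N p A))
    (h0 : b.2 = 0 → p (b.1 0 + 1) = p (b.1 0) + 1) : pjB p b ∈ cut A := by
  rw [mem_cut, mem_pull h hA, mem_pull h hA, SG3_pj_tip h0] at hb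
  exact mem_cut.2 hb

theorem SG3_bond_ext {b b' : Bond} (p : ℤ → ℤ) (h0 : b.1 0 = b'.1 0) (h : pjB p b = pjB p b') :
    b = b' := by
  have h1 : pj p b.1 = pj p b'.1 := congrArg Prod.fst h
  have h2 : (pjB p b).2 = (pjB p b').2 := congrArg Prod.snd h
  refine Prod.ext (SG3_site_ext h0 ?_ ?_) h2
  · rw [← SG3_pj1 p b.1, h1, SG3_pj1]
  · rw [← SG3_pj2 p b.1, h1, SG3_pj2]

theorem SG3_ell_le (A : Finset Site) (S : Finset ℤ) :
    (((cut A).filter fun b => b.1 0 ∈ S).card : ℝ) ≤ ∑ u ∈ S, SG3_Wt A u := by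
  unfold SG3_Wt
  rw [Finset.sum_comm, Finset.card_eq_sum_ones, Nat.cast_sum]
  refine (Finset.sum_le_sum fun b hb => ?_).trans
    (Finset.sum_le_sum_of_subset_of_nonneg (Finset.filter_subset (fun b : Bond => b.1 0 ∈ S) _)
      fun b _ _ => Finset.sum_nonneg fun _ _ => (pow_pos SG3_ph_pos _).le)
  have := Finset.single_le_sum (f := fun u => ph ^ (b.1 0 - u).natAbs)
    (fun _ _ => (pow_pos SG3_ph_pos _).le) (Finset.mem_filter.1 hb).2
  simpa using this

theorem SG3_dist {k : ℕ} {j jd j0 j1 t σ : ℤ} (h : SG3_Ok j jd j0 j1 k)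
    (ht : ¬ (t = j1 - 1 ∨ (j0 ≤ t ∧ t < j0 + k))) (hσ : σ = j1 - 1 ∨ (j0 ≤ σ ∧ σ < j0 + k)) :
    min (pm j0 j1 k t - j).natAbs (min (pm j0 j1 k t - (jd - 1)).natAbs
      (pm j0 j1 k t - (jd + k)).natAbs) ≤ (t - σ).natAbs := by
  rw [min_le_iff, min_le_iff]
  push Not at ht
  obtain ⟨ht1, ht2⟩ := ht
  rcases h with ⟨a, rfl, rfl⟩ | ⟨a, rfl, rfl⟩
  · rcases lt_or_ge t j0 with h1 | h1
    · have : pm j0 (jd + k) k t = t := by unfold pm; split_ifs <;> omega
      rw [this]
      (clear * - a hσ ht1 h1 this; omega)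
    · have h2 := ht2 h1
      rcases lt_or_ge t (jd + k) with h3 | h3
      · have : pm j0 (jd + k) k t = t - k := by unfold pm; split_ifs <;> omega
        rw [this]
        omega
      · have : pm j0 (jd + k) k t = t := by unfold pm; split_ifs <;> omega
        rw [this]
        omega
  · rcases lt_or_ge t j1 with h1 | h1
    · have : pm (j - k) j1 k t = t := by unfold pm; split_ifs <;> omega
      rw [this]
      (clear * - hσ ht2 a h1 this; omega)
    · rcases lt_or_ge t (j - k) with h3 | h3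
      · have : pm (j - k) j1 k t = t + k := by unfold pm; split_ifs <;> omega
        rw [this]
        omega
      · have h2 := ht2 h3
        have : pm (j - k) j1 k t = t := by unfold pm; split_ifs <;> omega
        rw [this]
        omega

theorem SG3_Psi_le {N k : ℕ} {j jd j0 j1 : ℤ} (h : SG3_Ok j jd j0 j1 k)
    (hs : Slab N (pm j0 j1 k) (seam j0 j1 k)) {A : Finset Site} (hA : A ⊆ cube N) :
    Psi (seam j0 j1 k) (pull N (pm j0 j1 k) A) ≤
      3 * (k + 1) * SG3_Wt A j + 9 * ∑ u ∈ Finset.Icc (jd - 1) (jd + k), SG3_Wt A u := by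
  have h' := h
  unfold SG3_Ok at h
  set p := pm j0 j1 k with hp
  set B := pull N p A with hB
  set φ : Bond → ℝ := fun b => ∑ σ ∈ seam j0 j1 k, ph ^ (b.1 0 - σ).natAbs with hφ
  have hφ3 : ∀ b, φ b ≤ 3 := fun b => by
    simpa using SG3_geo (seam j0 j1 k) (b.1 0) 0 fun _ _ => Nat.zero_le _
  have hsplit : Psi (seam j0 j1 k) B =
      ∑ b ∈ (cut B).filter fun b => b.1 0 ∉ seam j0 j1 k, φ b +
        (∑ b ∈ ((cut B).filter fun b => ¬ b.1 0 ∉ seam j0 j1 k).filter
            fun b => b.1 0 = j1 - 1, φ b +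
          ∑ b ∈ ((cut B).filter fun b => ¬ b.1 0 ∉ seam j0 j1 k).filter
            fun b => ¬ b.1 0 = j1 - 1, φ b) := by
    rw [Finset.sum_filter_add_sum_filter_not, Finset.sum_filter_add_sum_filter_not, Psi,
      Finset.sum_comm]
  have hcard : ∀ S : Finset Bond, ∑ b ∈ S, φ b ≤ 3 * S.card := fun S => by
    simpa [mul_comm] using Finset.sum_le_card_nsmul S φ 3 fun b _ => hφ3 b
  have hW1 : SG3_Wt A (jd - 1) ≤ ∑ u ∈ Finset.Icc (jd - 1) (jd + k), SG3_Wt A u :=
    Finset.single_le_sum (fun u _ => SG3_Wt_nonneg A u) (Finset.mem_Icc.2 (by omega))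
  have hW2 : SG3_Wt A (jd + k) ≤ ∑ u ∈ Finset.Icc (jd - 1) (jd + k), SG3_Wt A u :=
    Finset.single_le_sum (fun u _ => SG3_Wt_nonneg A u) (Finset.mem_Icc.2 (by omega))
  have h1 : ∑ b ∈ (cut B).filter fun b => b.1 0 ∉ seam j0 j1 k, φ b ≤
      3 * (SG3_Wt A j + SG3_Wt A (jd - 1) + SG3_Wt A (jd + k)) := by
    let f : Bond → ℝ := fun b => 3 * (ph ^ (b.1 0 - j).natAbs + ph ^ (b.1 0 - (jd - 1)).natAbs +
      ph ^ (b.1 0 - (jd + k)).natAbs)
    have hf : ∀ b, 0 ≤ f b := fun b => by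
      have := SG3_ph_pos
      positivity
    have hle : ∀ b ∈ (cut B).filter fun b => b.1 0 ∉ seam j0 j1 k, φ b ≤ f (pjB p b) := by
      intro b hb
      have hb' := (Finset.mem_filter.1 hb).2
      rw [SG3_mem_seam] at hb'
      set t := b.1 0 with ht
      have hd : ∀ σ ∈ seam j0 j1 k, min (p t - j).natAbs (min (p t - (jd - 1)).natAbs
          (p t - (jd + k)).natAbs) ≤ (t - σ).natAbs := by
        intro σ hσ
        exact SG3_dist h' hb' (SG3_mem_seam.1 hσ)
      refine (SG3_geo _ t _ hd).trans ?_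
      simp only [f, pjB, SG3_pj0, ← ht]
      have a1 := pow_pos SG3_ph_pos (p t - j).natAbs
      have a2 := pow_pos SG3_ph_pos (p t - (jd - 1)).natAbs
      have a3 := pow_pos SG3_ph_pos (p t - (jd + k)).natAbs
      rcases min_choice (p t - j).natAbs (min (p t - (jd - 1)).natAbs
          (p t - (jd + k)).natAbs) with e | e
      · rw [e]; linarith only [a2, a3]
      · rcases min_choice (p t - (jd - 1)).natAbs (p t - (jd + k)).natAbs with e' | e'
        · rw [e, e']; linarith only [a1, a3]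
        · rw [e, e']; linarith only [a1, a2]
    refine (Finset.sum_le_sum hle).trans ((SG3_sum_inj (T := cut A) (pjB p) f hf ?_ ?_).trans ?_)
    · intro b hb
      obtain ⟨hb1, hb2⟩ := Finset.mem_filter.1 hb
      exact SG3_pjB_mem hs hA hb1 fun _ => hs.step _ hb2
    · intro b hb b' hb' e
      have hb2 := (Finset.mem_filter.1 hb).2
      have hb2' := (Finset.mem_filter.1 hb').2
      rw [SG3_mem_seam] at hb2 hb2'
      refine SG3_bond_ext p ?_ e
      have e0 : p (b.1 0) = p (b'.1 0) := by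
        rw [← SG3_pj0 p b.1, ← SG3_pj0 p b'.1]
        exact congrFun (congrArg Prod.fst e) 0
      rw [hp] at e0
      unfold pm at e0
      split_ifs at e0 <;> omega
    · simp only [f, SG3_Wt, ← Finset.mul_sum, Finset.sum_add_distrib, le_refl]
  have h2 : (((cut B).filter fun b => ¬ b.1 0 ∉ seam j0 j1 k).filter
      fun b => b.1 0 = j1 - 1).card ≤
      ((cut A).filter fun b => b.1 0 ∈ Finset.Icc (jd - 1) (jd + k)).card := by
    have hp1 : p (j1 - 1) = jd - 1 := by rw [hp]; unfold pm; split_ifs <;> omega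
    have hp2 : p j1 = jd + k := by rw [hp]; unfold pm; split_ifs <;> omega
    have key : ∀ b ∈ ((cut B).filter fun b => ¬ b.1 0 ∉ seam j0 j1 k).filter
        fun b => b.1 0 = j1 - 1, ∃ b' ∈ (cut A).filter
          fun b => b.1 0 ∈ Finset.Icc (jd - 1) (jd + k),
        b'.1 1 = b.1 1 ∧ b'.1 2 = b.1 2 ∧ b'.2 = b.2 := by
      intro b hb
      obtain ⟨hb, ht⟩ := Finset.mem_filter.1 hb
      have hb := (Finset.mem_filter.1 hb).1
      by_cases h0 : b.2 = 0
      · by_contra hcon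
        push Not at hcon
        have hstep : ∀ i : ℕ, i ≤ k + 1 → (Function.update b.1 0 (jd - 1) ∈ A ↔
            Function.update b.1 0 (jd - 1 + i) ∈ A) := by
          intro i hi
          induction i with
          | zero => simp
          | succ i ih =>
            rw [ih (by omega)]
            by_contra hne
            refine hcon (Function.update b.1 0 (jd - 1 + i), 0) (Finset.mem_filter.2
              ⟨mem_cut.2 ?_, Finset.mem_Icc.2 (by simp; omega)⟩) (by simp) (by simp) h0.symm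
            have : tip (Function.update b.1 0 (jd - 1 + i), 0) =
                Function.update b.1 0 (jd - 1 + (i + 1 : ℕ)) :=
              SG3_site_ext (by rw [tip_apply]; simp; ring) (by rw [tip_apply]; simp)
                (by rw [tip_apply]; simp)
            rw [this]
            exact hne
        rw [mem_cut, mem_pull hs hA, mem_pull hs hA] at hb
        apply hb
        have e1 : pj p b.1 = Function.update b.1 0 (jd - 1) := by rw [pj, ht, hp1]
        have e2 : pj p (tip b) = Function.update b.1 0 (jd - 1 + (k + 1 : ℕ)) :=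
          SG3_site_ext (by rw [SG3_pj0, tip_apply, h0, ht]; simp [hp2])
            (by rw [SG3_pj1, tip_apply, h0]; simp) (by rw [SG3_pj2, tip_apply, h0]; simp)
        rw [e1, e2]
        exact hstep (k + 1) le_rfl
      · refine ⟨pjB p b, Finset.mem_filter.2 ⟨SG3_pjB_mem hs hA hb fun e => absurd e h0, ?_⟩,
          SG3_pj1 p b.1, SG3_pj2 p b.1, rfl⟩
        simp only [pjB, SG3_pj0, ht, hp1, Finset.mem_Icc]
        omega
    choose! g hg using key
    refine Finset.card_le_card_of_injOn g (fun b hb => (hg b hb).1) ?_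
    intro b hb b' hb' e
    obtain ⟨-, a1, a2, a3⟩ := hg b hb
    obtain ⟨-, c1, c2, c3⟩ := hg b' hb'
    rw [e] at a1 a2 a3
    exact Prod.ext (SG3_site_ext ((Finset.mem_filter.1 hb).2.trans
      (Finset.mem_filter.1 hb').2.symm) (a1.symm.trans c1) (a2.symm.trans c2)) (a3.symm.trans c3)
  have h3 : (((cut B).filter fun b => ¬ b.1 0 ∉ seam j0 j1 k).filter
      fun b => ¬ b.1 0 = j1 - 1).card ≤
      (Finset.Ico j0 (j0 + k) ×ˢ (cut A).filter fun b => b.1 0 ∈ ({j} : Finset ℤ)).card := by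
    refine Finset.card_le_card_of_injOn (fun b => (b.1 0, pjB p b)) ?_ ?_
    · intro b hb
      obtain ⟨hb, ht⟩ := Finset.mem_filter.1 hb
      obtain ⟨hb, ht'⟩ := Finset.mem_filter.1 hb
      rw [not_not, SG3_mem_seam] at ht'
      have e1 : p (b.1 0) = j := by rw [hp]; unfold pm; split_ifs <;> omega
      have e2 : p (b.1 0 + 1) = j := by rw [hp]; unfold pm; split_ifs <;> omega
      have h0 : b.2 ≠ 0 := by
        intro h0
        rw [mem_cut, mem_pull hs hA, mem_pull hs hA] at hb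
        apply hb
        have : pj p (tip b) = pj p b.1 :=
          SG3_site_ext (by rw [SG3_pj0, SG3_pj0, tip_apply, h0, e1]; simpa using e2)
            (by rw [SG3_pj1, SG3_pj1, tip_apply, h0]; simp)
            (by rw [SG3_pj2, SG3_pj2, tip_apply, h0]; simp)
        rw [this]
      refine Finset.mem_product.2 ⟨Finset.mem_Ico.2 (by simp only; omega),
        Finset.mem_filter.2 ⟨SG3_pjB_mem hs hA hb fun e => absurd e h0, ?_⟩⟩
      simp only [pjB, SG3_pj0, e1, Finset.mem_singleton]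
    · intro b _ b' _ e
      exact SG3_bond_ext p (congrArg Prod.fst e) (congrArg Prod.snd e)
  have h2' := ((Nat.cast_le (α := ℝ)).2 h2).trans (SG3_ell_le A _)
  have h3' := (Nat.cast_le (α := ℝ)).2 h3
  have h4 := SG3_ell_le A {j}
  rw [Finset.sum_singleton] at h4
  rw [Finset.card_product, Int.card_Ico, Nat.cast_mul] at h3'
  have hk : (((j0 + k - j0).toNat : ℕ) : ℝ) = k := by simp
  rw [hk] at h3'
  have h5 := mul_le_mul_of_nonneg_left h4 (Nat.cast_nonneg (α := ℝ) k)
  have h6 := hcard (((cut B).filter fun b => ¬ b.1 0 ∉ seam j0 j1 k).filter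
    fun b => b.1 0 = j1 - 1)
  have h7 := hcard (((cut B).filter fun b => ¬ b.1 0 ∉ seam j0 j1 k).filter
    fun b => ¬ b.1 0 = j1 - 1)
  rw [hsplit]
  linarith only [hW1, hW2, h1, h2', h3', h5, h6, h7]

end Pool.Agent.Work.MP_b59478_pr
end
end
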