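import Pool.Agent.Work.MP_b59478_pr.Gas4
import Pool.Agent.Work.MP_b59478_pr.DG2
import Pool.Agent.Work.MP_b59478_pr.Tau3
import Pool.Agent.Work.MP_b59478_pr.SG3A

-- merged part: Pool.Agent.Work.MP_b59478_pr.LL4b
section
/-! From a frozen configuration to typical ones.
typ_half: by Om_full the measure on subsets of the cube is a gas with s = 2 N + 1, a = 0; union
bound and tail1 with d = r + 1; (2 N + 1) ^ 3 ph ^ (r + 2) <= 1/2 for large N.
typ_family: step 1, ff_union with the sets S union (A0 minus Lam), S inside Lam, against the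
typical subsets of V: intersections lie in Lam union A0, unions contain A0 minus Lam and are typical
off A0 union Lam. Step 2, ff_sdiff of these against the typical subsets T of Lam union A0: T minus S
lies in Lam and S minus T is in the final family (Typ.mono). ff_dec and the hypothesis give that
the typical subsets of Lam union A0 have at least half of the weight.
typ_close: A = large s S, D = S symmdiff A (Topo3), Z = Lam union endpoints of cut A0.
(1) If b is in cut A then ball b.1 (s + 2) meets Z. Otherwise A0 is constant on the ball; follow a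
chain in cut A from b until its base point first leaves distance s / 2; D avoids the endpoints
(avoid), so these bonds are cut by S, and the endpoints in S (if the ball is outside A0) or not in
S (inside) form a star-path in the typical set, longer than r. (2) If ball x (4 s + 10) misses Z
then A and A0 are constant on ball x (2 s + 5); if they differ, the complement of D in that ball
is inside a typical set, contradicting sea (stop the path when it first leaves distance r of y).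
-/

set_option autoImplicit false

noncomputable section

namespace Pool.Agent.Work.MP_b59478_pr

open Classical Filter Topology MeasureTheory
open scoped symmDiff Pointwise

theorem LL4b_const {A : Finset Site} {x : Site} {ρ : ℕ}
    (h : ∀ b ∈ cut A, ¬ Near ρ b.1 x) {y : Site} (hy : Near ρ y x) : y ∈ A ↔ x ∈ A := by
  have key : ∀ u v : Site, Near ρ u x → Near ρ v x → u ∈ A → v ∈ A := by
    intro u v hu hv huA
    by_contra hvA
    obtain ⟨b, hb, hh⟩ := hullPath (H := (A : Set Site)) (x := u) (y := v)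
      (Finset.mem_coe.2 huA) (fun h' => hvA (Finset.mem_coe.1 h'))
    refine h b (mem_cut.2 (by simpa [Cuts] using hb)) fun i => ?_
    have h1 := (hh i).1
    have h2 := (hh i).2
    have h3 := tip_apply b i
    have h4 := abs_le.1 (hu i)
    have h5 := abs_le.1 (hv i)
    rw [abs_le]
    split_ifs at h3 <;> constructor <;> omega
  exact ⟨key y x hy (Near.refl _ _), key x y (Near.refl _ _) hy⟩

theorem LL4b_K {S Λ A0 : Finset Site} {r ρ : ℕ}
    (h1 : Typ r (S \ (A0 ∪ Λ))) (h2 : Typ r ((A0 \ Λ) \ S)) {x : Site}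
    (hΛ : ∀ z ∈ Λ, ¬ Near ρ z x) (hA : ∀ b ∈ cut A0, ¬ Near ρ b.1 x) :
    ∃ K : Finset Site, Typ r K ∧ ∀ y, Near ρ y x → ¬ (y ∈ S ↔ x ∈ A0) → y ∈ K := by
  by_cases hx : x ∈ A0
  · refine ⟨_, h2, fun y hy hn => ?_⟩
    have h3 := (LL4b_const hA hy).2 hx
    have h4 : y ∉ Λ := fun h => hΛ y h hy
    simp only [Finset.mem_sdiff]
    tauto
  · refine ⟨_, h1, fun y hy hn => ?_⟩
    have h3 : y ∉ A0 := fun h => hx ((LL4b_const hA hy).1 h)
    have h4 : y ∉ Λ := fun h => hΛ y h hy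
    simp only [Finset.mem_sdiff, Finset.mem_union]
    tauto

theorem LL4b_end {S K : Finset Site} {P : Prop} {ρ : ℕ} {x : Site}
    (hK : ∀ y, Near ρ y x → ¬ (y ∈ S ↔ P) → y ∈ K) {b : Bond} (hb : b ∈ cut S)
    (h1 : Near ρ b.1 x) (h2 : Near ρ (tip b) x) :
    ∃ y, (y = b.1 ∨ y = tip b) ∧ y ∈ K := by
  have h := mem_cut.1 hb
  by_cases hc : b.1 ∈ S ↔ P
  · exact ⟨tip b, Or.inr rfl, hK _ h2 fun h' => h (hc.trans h'.symm)⟩
  · exact ⟨b.1, Or.inl rfl, hK _ h1 hc⟩

theorem LL4b_bond {S Λ A0 : Finset Site} {r s : ℕ} (hr : 2 * r + 2 ≤ s)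
    (h1 : Typ r (S \ (A0 ∪ Λ))) (h2 : Typ r ((A0 \ Λ) \ S)) {b : Bond}
    (hb : b ∈ cut (large s S)) (hΛ : ∀ z ∈ Λ, ¬ Near (r + 2) z b.1)
    (hA : ∀ c ∈ cut A0, ¬ Near (r + 2) c.1 b.1) : False := by
  obtain ⟨K, hK, hmem⟩ := LL4b_K h1 h2 hΛ hA
  rw [cut_large] at hb
  obtain ⟨hbS, b1, b2, c1, c2, hn⟩ := Finset.mem_filter.1 hb
  obtain ⟨y0, hy0, hy0K⟩ := LL4b_end hmem hbS (Near.refl _ _)
    ((near_tip b).symm.mono (by omega))
  have hy0b : Near 1 y0 b.1 := by
    rcases hy0 with rfl | rfl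
    · exact Near.refl _ _
    · exact (near_tip b).symm
  have inv : ∀ c, Conn (cut S) b c → ∃ y, (y = c.1 ∨ y = tip c) ∧ SConn K y0 y := by
    intro c hc
    induction hc with
    | refl => exact ⟨y0, hy0, Relation.ReflTransGen.refl⟩
    | tail _ hstep ih =>
      rename_i c c' _
      obtain ⟨y, hy, hyc⟩ := ih
      obtain ⟨-, hc', ha⟩ := hstep
      have hn1 : Near 1 y c'.1 := by
        rcases hy with rfl | rfl
        · exact ha.1
        · exact ha.2.2.1
      have hn2 : Near 1 y (tip c') := by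
        rcases hy with rfl | rfl
        · exact ha.2.1
        · exact ha.2.2.2
      have hyy : Near r y0 y := hK y0 hy0K y hyc
      obtain ⟨y', hy', hy'K⟩ := LL4b_end hmem hc'
        ((hn1.symm.trans (hyy.symm.trans hy0b)).mono (by omega))
        ((hn2.symm.trans (hyy.symm.trans hy0b)).mono (by omega))
      refine ⟨y', hy', Relation.ReflTransGen.tail hyc ⟨hyc.mem hy0K, hy'K, ?_⟩⟩
      rcases hy' with rfl | rfl
      · exact hn1
      · exact hn2
  have fin : ∀ c, Conn (cut S) b c → Near (r + 1) y0 c.1 := by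
    intro c hc
    obtain ⟨y, hy, hyc⟩ := inv c hc
    have hyy : Near r y0 y := hK y0 hy0K y hyc
    rcases hy with rfl | rfl
    · exact hyy.mono (by omega)
    · exact hyy.trans (near_tip c).symm
  exact hn (((fin b1 c1).symm.trans (fin b2 c2)).mono (by omega))

theorem LL4b_site {S Λ A0 : Finset Site} {r s : ℕ} (hr : 2 * r + 2 ≤ s)
    (h1 : Typ r (S \ (A0 ∪ Λ))) (h2 : Typ r ((A0 \ Λ) \ S)) {x : Site}
    (hΛ : ∀ z ∈ Λ, ¬ Near (4 * s + 10) z x)
    (hA : ∀ c ∈ cut A0, ¬ Near (4 * s + 10) c.1 x) : x ∈ large s S ↔ x ∈ A0 := by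
  by_contra hx
  obtain ⟨K, hK, hmem⟩ := LL4b_K h1 h2 hΛ hA
  have hc : ∀ b ∈ cut (large s S), ¬ Near (2 * s) b.1 x := fun b hb hn =>
    LL4b_bond hr h1 h2 hb (fun z hz h => hΛ z hz ((h.trans hn).mono (by omega)))
      fun c hc h => hA c hc ((h.trans hn).mono (by omega))
  have hsm : Small s (cut (S ∆ large s S)) := by
    rw [cut_symmDiff_large, cut_large]
    exact small_sdiff_Lg s _
  obtain ⟨y, z, hyx, hyD, hp, hn⟩ := sea hsm (by omega) x r
  have hin : ∀ a, Near (2 * s) a x → a ∉ S ∆ large s S → a ∈ K := by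
    intro a ha haD
    refine hmem a (ha.mono (by omega)) fun h => hx ?_
    have h3 := LL4b_const hc ha
    rw [Finset.mem_symmDiff] at haD
    (clear * - hx haD h h3; tauto)
  have hyK : y ∈ K := hin y (hyx.mono (by omega)) hyD
  have inv : ∀ a, Relation.ReflTransGen
      (fun a b => a ∉ S ∆ large s S ∧ b ∉ S ∆ large s S ∧ NN a b) y a → SConn K y a := by
    intro a ha
    induction ha with
    | refl => exact Relation.ReflTransGen.refl
    | tail _ hstep ih =>
      rename_i a a' _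
      have hya : Near r y a := hK y hyK a ih
      exact Relation.ReflTransGen.tail ih ⟨ih.mem hyK,
        hin a' ((hstep.2.2.near.symm.trans (hya.symm.trans hyx)).mono (by omega)) hstep.2.1,
        hstep.2.2.near⟩
  exact hn (hK y hyK z (inv z hp))

theorem typ_close {S Λ A0 : Finset Site} {r s : ℕ} (hr : 2 * r + 2 ≤ s)
    (h1 : Typ r (S \ (A0 ∪ Λ))) (h2 : Typ r ((A0 \ Λ) \ S)) :
    (large s S ∆ A0).card ≤ (Λ.card + 2 * (cut A0).card) * (8 * s + 21) ^ 3 := by
  have hsub : large s S ∆ A0 ⊆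
      (Λ ∪ (cut A0).image Prod.fst).biUnion fun z => ball z (4 * s + 10) := by
    intro x hx
    by_contra hn
    simp only [Finset.mem_biUnion, not_exists, not_and, mem_ball] at hn
    have := LL4b_site hr h1 h2 (x := x)
      (fun z hz h => hn z (Finset.mem_union_left _ hz) h.symm)
      fun c hc h => hn c.1 (Finset.mem_union_right _ (Finset.mem_image_of_mem _ hc)) h.symm
    rw [Finset.mem_symmDiff] at hx
    tauto
  refine (Finset.card_le_card hsub).trans ((Finset.card_biUnion_le_card_mul _ _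
    ((8 * s + 21) ^ 3) fun z _ => ?_).trans (Nat.mul_le_mul_right _ ?_))
  · rw [card_ball]
    exact le_of_eq (by ring)
  · have h3 := Finset.card_union_le Λ ((cut A0).image Prod.fst)
    have h4 : ((cut A0).image Prod.fst).card ≤ (cut A0).card := Finset.card_image_le
    omega

end Pool.Agent.Work.MP_b59478_pr
end
end

-- merged part: Pool.Agent.Work.MP_b59478_pr.LL5
section
/-! The large deviation lower bound.
ld_lower: exists_poly, exists_tiles, TauFacts.lowM for the finitely many normals (L then M large).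
With Lam the union of the tiles and A0 = latP N n t N: Zf Lam A0 / Z0 Lam is
exp (-2 beta card (cut A0 minus bonds Lam)) times the product of Rt (tile) A0 (Zf_eq, Rt_prod), and
Rt (tile) A0 = Rt (tile) of the complement >= Rt (cyl) exp (-864 beta (L + 1)) (Rt_tile_ge). With
t j >= t0 > 0 the number of tiles times (2 L + 1) ^ 2 is at most C N ^ 2, which bounds card Lam and
card cut A0 by C N ^ 2. typ_family, typ_close, card_latP, ev_cube_sqrt and sum_decomp conclude.
b1: animals_big with P empty (Big.card), exp (-2 beta) * 486 <= exp (-beta).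
total_lower: from ld_lower remove the A with card cut A > C0 N ^ 2 (b1, gZ0_le_Z0, C0 large); for the
others dev_formula gives |m - EA 0| <= 3 d N ^ 2 sqrt N, and thermo_lower, logZ_lower give
ZM >= c / N ^ 3 * exp (-9 d ^ 2 N ^ 2 / c) * gZ0.
-/

set_option autoImplicit false

noncomputable section

namespace Pool.Agent.Work.MP_b59478_pr

open Classical Filter Topology MeasureTheory
open scoped symmDiff Pointwise

theorem LL5_decomp (β : ℝ) (N : ℕ) (P : Finset Site → Prop) :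
    ∑ S ∈ (cube N).powerset.filter fun S => P (large (sN N) S), w β S =
      ∑ A ∈ (BigSets N).filter P, PL β N A := by
  have := sum_decomp β (isBox_cube N) (sN N) fun A _ => if P A then 1 else 0
  rw [Finset.sum_filter, Finset.sum_filter]
  simp only [mul_ite, mul_one, mul_zero] at this
  rw [this]
  refine Finset.sum_congr rfl fun A _ => ?_
  split_ifs <;> simp [PL, gZ0]

theorem LL5_card (A B : Finset Site) : |(A.card : ℝ) - B.card| ≤ (A ∆ B).card := by
  have h : ∀ A B : Finset Site, (A.card : ℝ) ≤ B.card + (A ∆ B).card := fun A B => by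
    exact_mod_cast (Finset.card_le_card fun x hx => by
      rw [Finset.mem_union, Finset.mem_symmDiff]; tauto).trans (Finset.card_union_le B (A ∆ B))
  have h1 := h A B
  have h2 := h B A
  rw [symmDiff_comm] at h2
  rw [abs_le]
  constructor <;> linarith

theorem LL5_ev {c η : ℝ} (hη : 0 < η) :
    ∀ᶠ L : ℕ in atTop, c * ((L : ℝ) + 1) ≤ η * (2 * (L : ℝ) + 1) ^ 2 := by
  filter_upwards [tendsto_natCast_atTop_atTop.eventually_ge_atTop (c / η)] with L hL
  rw [div_le_iff₀ hη] at hL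
  have h0 : (0 : ℝ) ≤ L := Nat.cast_nonneg L
  nlinarith only [hη, hL, h0, mul_le_mul_of_nonneg_right hL (show (0 : ℝ) ≤ L + 1 by linarith),
    mul_nonneg hη.le h0, mul_nonneg hη.le (mul_nonneg h0 h0)]

theorem ld_lower {β ms v lam : ℝ} {τ : E3 → ℝ} {r0 ω : ℝ} {m : ℕ → ℤ}
    (H : Ctx β ms v lam τ r0 ω m) {δ : ℝ} (hδ : 0 < δ) : ∀ᶠ N : ℕ in atTop,
    Z0 β (cube N) * Real.exp (-((3 * v / lam + δ) * (N : ℝ) ^ 2)) ≤
      ∑ A ∈ (BigSets N).filter fun A =>
        |(A.card : ℝ) - v * (N : ℝ) ^ 3| ≤ δ * ((N : ℝ) ^ 2 * Real.sqrt N), PL β N A := by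
  have hβ : 0 ≤ β := by linarith [H.hβ]
  have hl := H.lam_pos
  have hv := H.v_pos
  obtain ⟨ε, h1, hε⟩ : ∃ ε : ℝ, ((1 + ε) / lam + ε) * (3 * v + ε) + 2 * β * ε <
      3 * v / lam + δ / 2 ∧ 0 < ε := by
    have hc : ContinuousAt (fun ε : ℝ => ((1 + ε) / lam + ε) * (3 * v + ε) + 2 * β * ε) 0 := by
      fun_prop
    exact (((hc.eventually_lt continuousAt_const (by
      simp only [add_zero, mul_zero]
      rw [div_mul_eq_mul_div, one_mul]
      linarith)).filter_mono (nhdsWithin_le_nhds (s := Set.Ioi 0))).and self_mem_nhdsWithin).exists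
  obtain ⟨J, n, t, ω', hP, ht⟩ := exists_poly H.body hv H.vol hε
  obtain ⟨t0, h2, ht0⟩ := ((eventually_all.2 fun j => (eventually_le_nhds (hP.pos j)).filter_mono
    (nhdsWithin_le_nhds (s := Set.Ioi 0))).and self_mem_nhdsWithin).exists
  replace ht0 : 0 < t0 := ht0
  have hη : 0 < ε * t0 / 2 := by positivity
  obtain ⟨L, ⟨hL1, hL2⟩, hL3⟩ := (((exists_tiles hP hε).and (LL5_ev (c := 864 * β) hη)).and
    (eventually_all.2 fun j => H.tau.lowM (n j) (hP.unit j) _ hη)).exists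
  obtain ⟨M, hM1, hM2⟩ := ((eventually_ge_atTop (2 * L + 6)).and (eventually_all.2 hL3)).exists
  obtain ⟨C, hC0, hC⟩ := card_latP hP
  set K : ℝ := 13 * ((2 * M + 1) * ((3 * v + ε) / t0)) + 2 * ε with hK
  have hK0 : 0 ≤ K := by positivity
  filter_upwards [hL1 M hM1, typ_half H.hβ, tendsto_sN.eventually_ge_atTop 2, eventually_ge_atTop 1,
    ev_cube_sqrt ((K * 21 ^ 3 + C) / δ), ev_poly_exp_sq 4 0 (half_pos hδ)]
    with N ⟨𝒯, k1, k2, k3, k4⟩ hh hs hN hsq hex
  set A0 := latP N n t N with hA0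
  set Λ := 𝒯.biUnion fun p => tile p.2 (axis (n p.1)) L M with hΛ
  have hax : ∀ j, 0 < |n j (axis (n j))| := fun j => by linarith only [axis_half (hP.unit j)]
  have hge : ∀ j {a : ℝ}, 0 ≤ a → a ≤ a / |n j (axis (n j))| := fun j a ha =>
    (le_div_iff₀ (hax j)).2 (mul_le_of_le_one_right ha (coord_le_one (hP.unit j) _))
  have hR : Real.exp (-(((1 + ε) / lam + ε) * ((3 * v + ε) * (N : ℝ) ^ 2))) ≤
      Rt β Λ (A0 : Set Site) := by
    clear * - ε lam v N β Λ A0 J 𝒯 n L M k2 t k3 hε hl τ t0 hL2 hge ht0 ht h2 hM2 hβ ω' hP hM1 k1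
    rw [Rt_prod β 𝒯 _ k2]
    refine le_trans (Real.exp_le_exp.2 (neg_le_neg (mul_le_mul_of_nonneg_left k3 (by positivity)))) ?_
    rw [Finset.mul_sum, ← Finset.sum_neg_distrib, Real.exp_sum]
    refine Finset.prod_le_prod (fun _ _ => (Real.exp_pos _).le) fun p hp => ?_
    rw [← Rt_compl]
    refine le_trans ?_ (Rt_tile_ge hβ (hP.unit p.1) hM1 p.2 _ (k1 p hp).2.1 _ fun x hx h => ?_)
    · refine le_trans ?_ (mul_le_mul_of_nonneg_right (hM2 p.1) (Real.exp_pos _).le)
      rw [← Real.exp_add, Real.exp_le_exp, ← neg_add, neg_le_neg_iff]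
      refine (add_le_add le_rfl (hL2.trans (hge p.1 (by (clear * - hε ht0; positivity))))).trans ?_
      rw [← add_div, ← add_mul, ← mul_div_assoc, ← mul_assoc]
      gcongr
      have e1 : τ (n p.1) ≤ (1 + ε) / lam * t p.1 := by
        rw [div_mul_eq_mul_div, le_div_iff₀ hl, mul_comm]; exact ht p.1
      nlinarith only [e1, hε, mul_le_mul_of_nonneg_left (h2 p.1) hε.le]
    · rw [Set.mem_compl_iff, Finset.mem_coe, (k1 p hp).2.2 x hx, not_le]
      refine ⟨le_of_lt, fun h' => h'.lt_of_ne fun e => ?_⟩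
      rw [e, sub_self, abs_zero] at h
      linarith only [h]
  have hΛV : Λ ⊆ cube N := Finset.biUnion_subset.2 fun p hp => (k1 p hp).1
  have hf := typ_family hβ hΛV (A0 := A0) (Finset.filter_subset _ _) _ hh
  have hZ := Z0_pos β Λ
  rw [Rt, le_div_iff₀ hZ] at hR
  have hZf : Real.exp (-((3 * v / lam + δ / 2) * (N : ℝ) ^ 2)) * Z0 β Λ ≤ Zf β Λ A0 := by
    clear * - v lam δ N β Λ A0 ε k4 hβ h1 hZ hR
    rw [Zf_eq]
    refine le_trans ?_ (mul_le_mul_of_nonneg_left hR (Real.exp_pos _).le)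
    rw [← mul_assoc, ← Real.exp_add]
    gcongr
    nlinarith only [k4, hβ, h1, mul_le_mul_of_nonneg_left k4 hβ, mul_le_mul_of_nonneg_right h1.le (sq_nonneg (N : ℝ))]
  have hcΛ : (Λ.card : ℝ) ≤ (2 * M + 1) * ((3 * v + ε) / t0) * (N : ℝ) ^ 2 := by
    clear * - Λ J 𝒯 L M n t0 v ε N t h2 hge ω' hP k3 ht0
    have e1 : (Λ.card : ℝ) ≤ ∑ p ∈ 𝒯, (2 * (L : ℝ) + 1) ^ 2 * (2 * M + 1) := by
      exact_mod_cast Finset.card_biUnion_le.trans_eq (Finset.sum_congr rfl fun p _ => card_tile ..)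
    have e2 : ∑ p ∈ 𝒯, t0 * (2 * (L : ℝ) + 1) ^ 2 ≤ (3 * v + ε) * (N : ℝ) ^ 2 :=
      (Finset.sum_le_sum fun p _ => (mul_le_mul_of_nonneg_right (h2 p.1) (sq_nonneg _)).trans
        (hge p.1 (mul_nonneg (hP.pos _).le (sq_nonneg _)))).trans k3
    rw [← Finset.sum_mul] at e1
    rw [← Finset.mul_sum, ← le_div_iff₀' ht0] at e2
    refine e1.trans ((mul_le_mul_of_nonneg_right e2 (by (clear * - ; positivity))).trans_eq (by ring))
  have hcA : (Λ.card : ℝ) + 2 * (cut A0).card ≤ K * (N : ℝ) ^ 2 := by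
    clear * - A0 Λ K N M v ε t0 hK k4 hcΛ
    have e1 : ((cut A0).card : ℝ) ≤ (cut A0 \ bonds Λ).card + 6 * Λ.card := by
      exact_mod_cast Finset.card_le_card_sdiff_add_card.trans
        (Nat.add_le_add_left (card_bonds_le Λ) _)
    rw [hK]
    nlinarith only [k4, hcΛ, e1]
  rw [← LL5_decomp]
  refine le_trans ?_ (Finset.sum_le_sum_of_subset_of_nonneg (s := (cube N).powerset.filter fun S =>
    Typ (sN N / 2 - 1) (S \ (A0 ∪ Λ)) ∧ Typ (sN N / 2 - 1) ((A0 \ Λ) \ S)) (fun S hS => ?_)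
    fun S _ _ => (w_pos β S).le)
  · refine le_of_mul_le_mul_left (le_trans ?_ hf) (by (clear * - hZ; positivity))
    have hV := Z0_pos β (cube N)
    refine le_trans ?_ (mul_le_mul_of_nonneg_left hZf hV.le)
    have e : Real.exp (-((3 * v / lam + δ / 2) * (N : ℝ) ^ 2)) =
        Real.exp (δ / 2 * (N : ℝ) ^ 2) * Real.exp (-((3 * v / lam + δ) * (N : ℝ) ^ 2)) := by
      rw [← Real.exp_add]; congr 1; ring
    rw [pow_zero, mul_one] at hex
    rw [e]
    have := mul_le_mul_of_nonneg_right hex (show 0 ≤ Z0 β Λ * (Z0 β (cube N) *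
      Real.exp (-((3 * v / lam + δ) * (N : ℝ) ^ 2))) by clear * - β Λ N v lam δ hZ hV; (clear * - hZ hV; positivity))
    linarith only [this]
  · rw [Finset.mem_filter] at hS ⊢
    refine ⟨hS.1, ?_⟩
    have e1 : ((large (sN N) S ∆ A0).card : ℝ) ≤
        (Λ.card + 2 * (cut A0).card) * (8 * sN N + 21) ^ 3 := by
      exact_mod_cast typ_close (s := sN N) (by omega) hS.2.1 hS.2.2
    have e2 := LL5_card (large (sN N) S) A0
    have e3 := hC N hN N (Nat.cast_nonneg _) le_rfl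
    have e4 := abs_sub_le ((large (sN N) S).card : ℝ) A0.card (v * (N : ℝ) ^ 3)
    have s0 : (0 : ℝ) ≤ sN N := Nat.cast_nonneg _
    have e5 : (8 * (sN N : ℝ) + 21) ^ 3 ≤ 21 ^ 3 * (sN N + 1) ^ 3 := by
      clear * - N hs
      rw [← mul_pow]; gcongr; linarith only []
    have e6 := e1.trans (mul_le_mul hcA e5 (by positivity) (by (clear * - hv hε ht0 hN; positivity)))
    have e7 : (1 : ℝ) ≤ (sN N + 1) ^ 3 := one_le_pow₀ (by linarith only [])
    rw [div_mul_eq_mul_div, div_le_iff₀ hδ] at hsq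
    have e8 := mul_le_mul_of_nonneg_right hsq (sq_nonneg (N : ℝ))
    have e9 := mul_le_mul_of_nonneg_left e7 (mul_nonneg hC0.le (sq_nonneg (N : ℝ)))
    clear * - N S v δ A0 J n t C K M t0 ε e2 e3 e4 e6 e8 e9; nlinarith only [e2, e3, e4, e6, e8, e9]

theorem b1 {β : ℝ} (hβ : 1000 ≤ β) : ∀ᶠ N : ℕ in atTop, ∀ a : ℝ,
    ∑ A ∈ (BigSets N).filter fun A => a ≤ ((cut A).card : ℝ), w β A ≤
      2 * Real.exp (-(β * a)) := by
  filter_upwards [ev_bonds] with N hN a
  have h := animals_big ∅ _ _ hN (((BigSets N).filter fun A => a ≤ ((cut A).card : ℝ)).image cut)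
    (by
      intro T hT
      obtain ⟨A, hA, rfl⟩ := Finset.mem_image.1 hT
      simp only [BigSets, Finset.mem_filter, Finset.mem_powerset] at hA
      exact ⟨cut_subset_bonds hA.1.1, fun b hb => Or.inr ((hA.1.2 b hb).card hb)⟩)
  rw [Finset.sum_image fun A _ B _ => cut_inj, Finset.card_empty, pow_zero, mul_one] at h
  refine le_trans ?_ (mul_le_mul_of_nonneg_right h (Real.exp_pos _).le)
  rw [Finset.sum_mul]
  refine Finset.sum_le_sum fun A hA => ?_
  have h1 : Real.exp (-β) ≤ 1 / 486 := by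
    rw [Real.exp_neg, one_div]
    exact inv_anti₀ (by norm_num) (by linarith only [hβ, Real.add_one_le_exp β])
  have e : w β A = Real.exp (-β) ^ (cut A).card * Real.exp (-(β * (cut A).card)) := by
    rw [w, ← Real.exp_nat_mul, ← Real.exp_add]; congr 1; ring
  rw [e]
  have := (Finset.mem_filter.1 hA).2
  gcongr

theorem sum_PL (β : ℝ) (N : ℕ) : ∑ A ∈ BigSets N, PL β N A = Z0 β (cube N) := by
  simpa [Z0] using (LL5_decomp β N fun _ => True).symm

end Pool.Agent.Work.MP_b59478_pr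
end
end

-- merged part: Pool.Agent.Work.MP_b59478_pr.LL6
section
/-! The large deviation lower bound.
ld_lower: exists_poly, exists_tiles, TauFacts.lowM for the finitely many normals (L then M large).
With Lam the union of the tiles and A0 = latP N n t N: Zf Lam A0 / Z0 Lam is
exp (-2 beta card (cut A0 minus bonds Lam)) times the product of Rt (tile) A0 (Zf_eq, Rt_prod), and
Rt (tile) A0 = Rt (tile) of the complement >= Rt (cyl) exp (-864 beta (L + 1)) (Rt_tile_ge). With
t j >= t0 > 0 the number of tiles times (2 L + 1) ^ 2 is at most C N ^ 2, which bounds card Lam and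
card cut A0 by C N ^ 2. typ_family, typ_close, card_latP, ev_cube_sqrt and sum_decomp conclude.
b1: animals_big with P empty (Big.card), exp (-2 beta) * 486 <= exp (-beta).
total_lower: from ld_lower remove the A with card cut A > C0 N ^ 2 (b1, gZ0_le_Z0, C0 large); for the
others dev_formula gives |m - EA 0| <= 3 d N ^ 2 sqrt N, and thermo_lower, logZ_lower give
ZM >= c / N ^ 3 * exp (-9 d ^ 2 N ^ 2 / c) * gZ0.
-/

set_option autoImplicit false

noncomputable section

namespace Pool.Agent.Work.MP_b59478_pr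

open Classical Filter Topology MeasureTheory
open scoped symmDiff Pointwise

/-- At a fixed large part with a small boundary and nearly the right volume, fixing the
magnetization costs little. -/
theorem LL6_point {β ms v lam : ℝ} {τ : E3 → ℝ} {r0 ω : ℝ} {m : ℕ → ℤ}
    (H : Ctx β ms v lam τ r0 ω m) : ∃ c : ℝ, 0 < c ∧ ∀ d C0 : ℝ, 0 < d → d ≤ 1 / 3 → 0 < C0 →
    ∀ᶠ N : ℕ in atTop, ∀ A : Finset Site, A ⊆ cube N →
    ((cut A).card : ℝ) ≤ C0 * (N : ℝ) ^ 2 →
    |(A.card : ℝ) - v * (N : ℝ) ^ 3| ≤ d * ((N : ℝ) ^ 2 * Real.sqrt N) →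
    c / (N : ℝ) ^ 3 * Real.exp (-(9 * d ^ 2 / c * (N : ℝ) ^ 2)) * PL β N A ≤ FM β N (m N) A := by
  obtain ⟨c, hc, evT⟩ := thermo_lower H.hβ
  obtain ⟨C, hCp, evD⟩ := dev_formula H
  refine ⟨c, hc, fun d C0 hd hd3 hC0 => ?_⟩
  filter_upwards [evT, evD, ev_sqrt (C * (82 * C0 + 1) / d),
    ev_sqrt_le (show (0 : ℝ) < 1 / 5 by norm_num),
    tendsto_natCast_atTop_atTop.eventually_ge_atTop (8100 * C0),
    eventually_ge_atTop 1] with N hT hD ev2 ev3 ev4 ev6
  intro A hA hcut hvol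
  have hN : (1 : ℝ) ≤ N := by exact_mod_cast ev6
  have hN0 : (0 : ℝ) < N := by linarith only [hC0, ev4]
  have hs0 : 0 < Real.sqrt N := Real.sqrt_pos.2 hN0
  have hss : Real.sqrt N * Real.sqrt N = N := Real.mul_self_sqrt hN0.le
  have hN2 : (0 : ℝ) < (N : ℝ) ^ 2 := by positivity
  have hN3 : (0 : ℝ) < (N : ℝ) ^ 3 := by positivity
  have hT' := hT (nbhd (cut A)) A (m N) hA
  have hD' := hD (nbhd (cut A)) A hA
  have hlog := fun h : ℝ => logZ_lower β (cube N) (nbhd (cut A)) (sN N) A h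
  have hQQ : ((N : ℝ) ^ 2 * Real.sqrt N) * ((N : ℝ) ^ 2 * Real.sqrt N) =
      (N : ℝ) ^ 2 * (N : ℝ) ^ 3 := by
    calc ((N : ℝ) ^ 2 * Real.sqrt N) * ((N : ℝ) ^ 2 * Real.sqrt N)
        = (N : ℝ) ^ 4 * (Real.sqrt N * Real.sqrt N) := by ring
      _ = _ := by rw [hss]; ring
  have b3 : ((nbhd (cut A)).card : ℝ) ≤ 81 * (C0 * (N : ℝ) ^ 2) := by
    have : ((nbhd (cut A)).card : ℝ) ≤ 81 * (cut A).card := by exact_mod_cast card_nbhd (cut A)
    linarith only [hcut, this]
  have b6 : C * ((nbhd (cut A)).card + (cut A).card + (N : ℝ) ^ 2) ≤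
      d * ((N : ℝ) ^ 2 * Real.sqrt N) := by
    rw [div_le_iff₀ hd] at ev2
    have h1 : C * ((nbhd (cut A)).card + (cut A).card + (N : ℝ) ^ 2) ≤
        C * ((82 * C0 + 1) * (N : ℝ) ^ 2) := mul_le_mul_of_nonneg_left (by linarith only [hcut, b3]) hCp.le
    have h3 := mul_le_mul_of_nonneg_right ev2 hN2.le
    linarith only [h1, h3]
  have b9 : (N : ℝ) ^ 2 * Real.sqrt N ≤ (N : ℝ) ^ 3 / 5 := by
    have := mul_le_mul_of_nonneg_left ev3 hN2.le
    linarith only [this]
  set Q := (N : ℝ) ^ 2 * Real.sqrt N with hQ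
  have hQ0 : 0 < Q := by positivity
  set e := (m N : ℝ) - EA β (cube N) (nbhd (cut A)) (sN N) A 0 with he
  have b8 : |e| ≤ 3 * d * Q := by
    have h1 : |2 * ms * (v * (N : ℝ) ^ 3 - A.card)| ≤ 2 * (d * Q) := by
      rw [abs_mul, abs_sub_comm]
      refine mul_le_mul ?_ hvol (abs_nonneg _) (by norm_num)
      have := H.mag.lo
      have := H.mag.hi
      rw [abs_le]
      constructor <;> linarith
    rw [abs_le] at h1 hD' ⊢
    constructor <;> linarith only [b6, hD', h1, h1.1, h1.2, hD'.1, hD'.2]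
  have hdQ : d * Q ≤ 1 / 3 * Q := mul_le_mul_of_nonneg_right hd3 hQ0.le
  obtain ⟨h, h1, -, -, h4⟩ := hT' (by
      have hv := mul_le_mul_of_nonneg_right H.v_le hN3.le
      rw [abs_le] at hvol
      linarith only [hvol, b9, hQ0, hdQ, hv, hvol.2]) (by
      have := mul_le_mul_of_nonneg_right ev4 hN2.le
      linarith only [b3, this]) (H.par N) (by linarith only [b8, hdQ])
  have k1 : h * e ≤ 9 * d ^ 2 / c * (N : ℝ) ^ 2 := by
    have k2 : h * e ≤ |h| * |e| := by rw [← abs_mul]; exact le_abs_self _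
    have k3 : |h| * (c * (N : ℝ) ^ 3) * |e| ≤ 3 * d * Q * (3 * d * Q) :=
      mul_le_mul (h1.trans b8) b8 (abs_nonneg _) (by positivity)
    have k4 : 3 * d * Q * (3 * d * Q) = 9 * d ^ 2 / c * (N : ℝ) ^ 2 * (c * (N : ℝ) ^ 3) := by
      calc 3 * d * Q * (3 * d * Q) = 9 * d ^ 2 * (Q * Q) := by ring
        _ = _ := by rw [hQQ]; field_simp
    refine k2.trans (le_of_mul_le_mul_right ?_ (show 0 < c * (N : ℝ) ^ 3 by positivity))
    rw [← k4]
    linarith only [k3]
  have hg := gZ0_pos β (cube N) (nbhd (cut A)) (sN N)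
  have hz := ZA_pos β (cube N) (nbhd (cut A)) (sN N) A h
  have k5 : Real.exp (-(9 * d ^ 2 / c * (N : ℝ) ^ 2)) * gZ0 β (cube N) (nbhd (cut A)) (sN N) ≤
      Real.exp (-(h * m N)) * ZA β (cube N) (nbhd (cut A)) (sN N) A h := by
    rw [← Real.exp_log hg, ← Real.exp_log hz, ← Real.exp_add, ← Real.exp_add]
    refine Real.exp_le_exp.2 ?_
    have k6 := hlog h
    have k7 : h * e = h * m N - h * EA β (cube N) (nbhd (cut A)) (sN N) A 0 := by
      rw [he]; ring
    linarith only [k1, k6]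
  have k8 := (mul_le_mul_of_nonneg_left k5 (show 0 ≤ c / (N : ℝ) ^ 3 by positivity)).trans h4
  have k9 := mul_le_mul_of_nonneg_left k8 (w_pos β A).le
  unfold PL FM
  refine le_trans (le_of_eq ?_) k9
  ring

theorem total_lower {β ms v lam : ℝ} {τ : E3 → ℝ} {r0 ω : ℝ} {m : ℕ → ℤ}
    (H : Ctx β ms v lam τ r0 ω m) {δ : ℝ} (hδ : 0 < δ) : ∀ᶠ N : ℕ in atTop,
    Z0 β (cube N) * Real.exp (-((3 * v / lam + δ) * (N : ℝ) ^ 2)) ≤
      ∑ A ∈ BigSets N, FM β N (m N) A := by
  obtain ⟨c, hc, hP⟩ := LL6_point H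
  have hβ := H.hβ
  have hl := H.lam_pos
  have hv := H.v_pos
  obtain ⟨d, hd, hd3, hdδ, hdc⟩ : ∃ d : ℝ, 0 < d ∧ d ≤ 1 / 3 ∧ d ≤ δ / 4 ∧
      9 * d ^ 2 / c ≤ δ / 4 := by
    refine ⟨min (1 / 3) (min (δ / 4) (c * δ / 12)), by positivity, min_le_left _ _,
      (min_le_right _ _).trans (min_le_left _ _), ?_⟩
    have h0 : 0 < min (1 / 3) (min (δ / 4) (c * δ / 12)) := by positivity
    have h1 : min (1 / 3) (min (δ / 4) (c * δ / 12)) ≤ 1 / 3 := min_le_left _ _
    have h2 : min (1 / 3) (min (δ / 4) (c * δ / 12)) ≤ c * δ / 12 :=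
      (min_le_right _ _).trans (min_le_right _ _)
    rw [div_le_iff₀ hc]
    nlinarith only [h2, h0, h1]
  set K := 3 * v / lam + d with hK
  have hK0 : 0 < K := by positivity
  filter_upwards [hP d (K + 1) hd hd3 (by linarith only [hd, hd3, hK0]), ld_lower H hd, b1 hβ,
    ev_poly_exp_sq 4 0 one_pos, ev_poly_exp_sq (2 / c) 3 (half_pos hδ),
    eventually_ge_atTop 1] with N hA hL hB e1 e2 e3
  have hN : (1 : ℝ) ≤ N := by exact_mod_cast e3
  have hN2 : (0 : ℝ) < (N : ℝ) ^ 2 := by positivity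
  have hN3 : (0 : ℝ) < (N : ℝ) ^ 3 := by positivity
  have hZ := Z0_pos β (cube N)
  rw [← hK] at hL
  set S := (BigSets N).filter fun A =>
    |(A.card : ℝ) - v * (N : ℝ) ^ 3| ≤ d * ((N : ℝ) ^ 2 * Real.sqrt N) with hS
  have hsplit := Finset.sum_filter_add_sum_filter_not S
    (fun A => (K + 1) * (N : ℝ) ^ 2 ≤ ((cut A).card : ℝ)) (PL β N)
  have hbad : ∑ A ∈ S.filter fun A => (K + 1) * (N : ℝ) ^ 2 ≤ ((cut A).card : ℝ), PL β N A ≤
      Z0 β (cube N) * Real.exp (-(K * (N : ℝ) ^ 2)) / 2 := by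
    have h1 : ∑ A ∈ S.filter fun A => (K + 1) * (N : ℝ) ^ 2 ≤ ((cut A).card : ℝ), PL β N A ≤
        ∑ A ∈ S.filter fun A => (K + 1) * (N : ℝ) ^ 2 ≤ ((cut A).card : ℝ),
          w β A * Z0 β (cube N) :=
      Finset.sum_le_sum fun A _ => mul_le_mul_of_nonneg_left (gZ0_le_Z0 _ _ _ _) (w_pos β A).le
    rw [← Finset.sum_mul] at h1
    have h2 : ∑ A ∈ S.filter fun A => (K + 1) * (N : ℝ) ^ 2 ≤ ((cut A).card : ℝ), w β A ≤
        ∑ A ∈ (BigSets N).filter fun A => (K + 1) * (N : ℝ) ^ 2 ≤ ((cut A).card : ℝ), w β A :=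
      Finset.sum_le_sum_of_subset_of_nonneg
        (Finset.filter_subset_filter _ (Finset.filter_subset _ _)) fun A _ _ => (w_pos β A).le
    have h3 := h2.trans (hB ((K + 1) * (N : ℝ) ^ 2))
    have h4 : Real.exp (-(β * ((K + 1) * (N : ℝ) ^ 2))) * Real.exp (1 * (N : ℝ) ^ 2) ≤
        Real.exp (-(K * (N : ℝ) ^ 2)) := by
      rw [← Real.exp_add]
      refine Real.exp_le_exp.2 ?_
      have h5 : 0 ≤ (β - 1) * ((K + 1) * (N : ℝ) ^ 2) := mul_nonneg (by linarith only [hβ, hd, hd3]) (by positivity)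
      linarith only [h5]
    rw [pow_zero, mul_one] at e1
    have h5 := mul_le_mul_of_nonneg_left e1 (Real.exp_pos (-(β * ((K + 1) * (N : ℝ) ^ 2)))).le
    have h6 := mul_le_mul_of_nonneg_right
      (show _ ≤ Real.exp (-(K * (N : ℝ) ^ 2)) / 2 from h3.trans (by linarith only [h4, h5])) hZ.le
    linarith only [h1, h6]
  have hgood : c / (N : ℝ) ^ 3 * Real.exp (-(9 * d ^ 2 / c * (N : ℝ) ^ 2)) *
      ∑ A ∈ S.filter fun A => ¬ (K + 1) * (N : ℝ) ^ 2 ≤ ((cut A).card : ℝ), PL β N A ≤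
      ∑ A ∈ BigSets N, FM β N (m N) A := by
    rw [Finset.mul_sum]
    refine le_trans (Finset.sum_le_sum fun A hA' => ?_) (Finset.sum_le_sum_of_subset_of_nonneg
      ((Finset.filter_subset _ _).trans (Finset.filter_subset _ _)) fun A _ _ =>
        mul_nonneg (w_pos β A).le (ZM_nonneg _ _ _ _ _ _))
    rw [Finset.mem_filter, hS, Finset.mem_filter, BigSets, Finset.mem_filter,
      Finset.mem_powerset] at hA'
    exact hA A hA'.1.1.1 (not_le.1 hA'.2).le hA'.1.2
  refine le_trans ?_ hgood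
  have g1 : Z0 β (cube N) * Real.exp (-(K * (N : ℝ) ^ 2)) / 2 ≤
      ∑ A ∈ S.filter fun A => ¬ (K + 1) * (N : ℝ) ^ 2 ≤ ((cut A).card : ℝ), PL β N A := by
    linarith only [hL, hsplit, hbad]
  refine le_trans ?_ (mul_le_mul_of_nonneg_left g1 (by positivity))
  have g2 : Real.exp (-((3 * v / lam + δ) * (N : ℝ) ^ 2)) * Real.exp (δ / 2 * (N : ℝ) ^ 2) ≤
      Real.exp (-(9 * d ^ 2 / c * (N : ℝ) ^ 2)) * Real.exp (-(K * (N : ℝ) ^ 2)) := by
    rw [← Real.exp_add, ← Real.exp_add]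
    refine Real.exp_le_exp.2 ?_
    have g3 := mul_le_mul_of_nonneg_right hdc hN2.le
    have g4 := mul_le_mul_of_nonneg_right hdδ hN2.le
    rw [hK]
    linarith only [g3, g4]
  have g5 := (mul_le_mul_of_nonneg_left e2
    (Real.exp_pos (-((3 * v / lam + δ) * (N : ℝ) ^ 2))).le).trans g2
  have g6 := mul_le_mul_of_nonneg_left g5
    (show 0 ≤ c / (N : ℝ) ^ 3 * (Z0 β (cube N) / 2) by (clear * - hc e3 hZ; positivity))
  refine le_trans (le_of_eq ?_) (g6.trans (le_of_eq ?_))
  · field_simp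
  · ring

end Pool.Agent.Work.MP_b59478_pr
end
end
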