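import Pool.Agent.Work.MP_b59478_pr.DG2
import Pool.Agent.Work.MP_b59478_pr.Tau3
import Pool.Agent.Work.MP_b59478_pr.Gas4

-- merged part: Pool.Agent.Work.MP_b59478_pr.MU1b
section
/-! From closeness in volume to the upper bound.
good_shell: c' = rnd N c. A site x of tile c' k L1 (3 L1) with L1 + 2 <= l N, where x in A and
dot n (x - c') < 0 disagree and |dot n (x - c')| > 2, has its open unit cube, rescaled, inside
(eA symmdiff hsR) inter cylR; card_le_volume bounds their number by zeta l ^ 3 N ^ 3, slab_card the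
others by 9 (2 l N + 1) ^ 2. The shells for different L are disjoint and there are at least
rho l N / 2 values of L; pigeonhole.
upper_micro: split the family according to the vector (L j), at most (l N + 1) ^ card choices; for a
fixed vector apply upper_core with Lam j = tile c' k L (3 L), Lp j = tile c' k (L + 1) (3 L + 3),
H j the complement of c' + hs n (Rt_compl, Rt_shift, TauFacts.up3), ring <= 216 (L + 1) each
(shell_slab), shells of size at most 100 l ^ 2 N ^ 2, mu = 4 zeta card l ^ 2 N ^ 2 / rho. All errors are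
small multiples of S N ^ 2 since S >= 4 card l ^ 2 (tau n >= |n k| by TauFacts.low), or o(N ^ 2)
(ev_log). Choose rho, q, then zeta in terms of delta and beta.
-/

set_option autoImplicit false

noncomputable section

namespace Pool.Agent.Work.MP_b59478_pr

open Classical Filter Topology MeasureTheory
open scoped symmDiff Pointwise

theorem MU1b_tile_mono {c : Site} {k : Fin 3} {L M L' M' : ℕ} (hL : L ≤ L') (hM : M ≤ M') :
    tile c k L M ⊆ tile c k L' M' := by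
  intro x hx
  rw [mem_tile] at hx ⊢
  intro i
  have := hx i
  split_ifs at this ⊢ <;> omega

theorem MU1b_cube {n : E3} (hn : ‖n‖ = 1) (c : E3) {l : ℝ} {N L : ℕ} (hN : 1 ≤ N)
    (hL : (L : ℝ) + 1 ≤ l * N) (A : Finset Site) {x : Site}
    (hx : x ∈ tile (rnd N c) (axis n) L (3 * L)) (hb : ¬ (x ∈ A ↔ x - rnd N c ∉ hs n))
    (hd : 2 < |dot n (x - rnd N c)|) :
    cubeO (emb x) (1 / 2) ⊆ (N : ℝ) • ((eA N A ∆ hsR c n) ∩ cylR c (axis n) l) := by
  intro z hz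
  have hN' : (0 : ℝ) < N := by exact_mod_cast hN
  have hz' : ∀ i, |z i - (x i : ℝ)| < 1 / 2 := fun i => by
    have := hz i
    rwa [emb_apply] at this
  have hr : ∀ i, |((rnd N c i : ℤ) : ℝ) - N * c i| ≤ 1 / 2 := fun i => by
    rw [abs_sub_comm]
    exact abs_sub_round _
  have hzz : (N : ℝ) • ((N : ℝ)⁻¹ • z) = z := by
    rw [smul_smul, mul_inv_cancel₀ hN'.ne', one_smul]
  refine ⟨(N : ℝ)⁻¹ • z, ⟨?_, ?_⟩, hzz⟩
  · have he : ‖z - (N : ℝ) • c - emb (x - rnd N c)‖ ≤ 2 * 1 := by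
      apply norm_le_of_coord
      intro i
      have e : (z - (N : ℝ) • c - emb (x - rnd N c)) i =
          (z i - x i) + (((rnd N c i : ℤ) : ℝ) - N * c i) := by
        simp only [PiLp.sub_apply, PiLp.smul_apply, smul_eq_mul, emb_apply, Pi.sub_apply]
        push_cast
        ring
      rw [e]
      have := abs_add_le (z i - x i) (((rnd N c i : ℤ) : ℝ) - N * c i)
      linarith only [this, hz' i, hr i]
    have he2 : |inner ℝ (z - (N : ℝ) • c - emb (x - rnd N c)) n| ≤ 2 := by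
      have := abs_real_inner_le_norm (z - (N : ℝ) • c - emb (x - rnd N c)) n
      rw [hn] at this
      linarith only [he, this]
    rw [inner_sub_left, ← dot_eq_inner, abs_le] at he2
    have e3 : inner ℝ ((N : ℝ)⁻¹ • z - c) n = (N : ℝ)⁻¹ * inner ℝ (z - (N : ℝ) • c) n := by
      rw [← real_inner_smul_left, smul_sub, smul_smul, inv_mul_cancel₀ hN'.ne', one_smul]
    have hi : (0 : ℝ) < (N : ℝ)⁻¹ := inv_pos.2 hN'
    rw [Set.mem_symmDiff, mem_eA hN, hzz]
    rcases lt_abs.1 hd with h | h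
    · have h1 : x - rnd N c ∈ hs n := by
        show 0 ≤ dot n (x - rnd N c)
        linarith only [h]
      have h2 : x ∈ A := by tauto
      refine Or.inl ⟨⟨x, h2, fun i => (hz' i).le⟩, ?_⟩
      show ¬ inner ℝ ((N : ℝ)⁻¹ • z - c) n ≤ 0
      rw [e3, not_le]
      exact mul_pos hi (by linarith only [he2, h, he2.1])
    · have h1 : x - rnd N c ∉ hs n := by
        show ¬ 0 ≤ dot n (x - rnd N c)
        rw [not_le]
        linarith only [h]
      have h2 : x ∉ A := by tauto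
      refine Or.inr ⟨?_, not_mem_cubes h2 hz⟩
      show inner ℝ ((N : ℝ)⁻¹ • z - c) n ≤ 0
      rw [e3]
      exact mul_nonpos_of_nonneg_of_nonpos hi.le (by linarith only [he2, h, he2.2])
  · intro i
    have h1 := mem_tile.1 hx i
    have e : ((N : ℝ)⁻¹ • z) i - c i = (z i - N * c i) / N := by
      simp only [PiLp.smul_apply, smul_eq_mul]
      field_simp
    rw [e, abs_div, abs_of_pos hN', div_lt_iff₀ hN']
    have t1 := abs_sub_le (z i) (x i : ℝ) (N * c i)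
    have t2 := abs_sub_le (x i : ℝ) ((rnd N c i : ℤ) : ℝ) (N * c i)
    have hL0 : (0 : ℝ) ≤ L := Nat.cast_nonneg L
    split_ifs at h1 ⊢
    · have h2 : |(x i : ℝ) - ((rnd N c i : ℤ) : ℝ)| ≤ 3 * L := by exact_mod_cast h1
      linarith only [hL, t1, t2, h2, hz' i, hr i]
    · have h2 : |(x i : ℝ) - ((rnd N c i : ℤ) : ℝ)| ≤ L := by exact_mod_cast h1
      linarith only [hL, t1, t2, h2, hz' i, hr i]

theorem MU1b_bad {n : E3} (hn : ‖n‖ = 1) (c : E3) {l ζ : ℝ} (hl : 0 < l) (hζ : 0 < ζ) {N L : ℕ}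
    (hN : 1 ≤ N) (hL : (L : ℝ) + 1 ≤ l * N) (A : Finset Site)
    (hA : volume ((eA N A ∆ hsR c n) ∩ cylR c (axis n) l) ≤ ENNReal.ofReal (ζ * l ^ 3)) :
    (((tile (rnd N c) (axis n) L (3 * L)).filter
      fun x => ¬ (x ∈ A ↔ x - rnd N c ∉ hs n)).card : ℝ) ≤
      ζ * (l * N) ^ 3 + 9 * (2 * (L : ℝ) + 1) ^ 2 := by
  have hN' : (0 : ℝ) < N := by exact_mod_cast hN
  set C := (tile (rnd N c) (axis n) L (3 * L)).filter
    fun x => ¬ (x ∈ A ↔ x - rnd N c ∉ hs n) ∧ 2 < |dot n (x - rnd N c)| with hC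
  have h1 : (C.card : ENNReal) ≤ ENNReal.ofReal (ζ * (l * N) ^ 3) := by
    refine (card_le_volume (U := (N : ℝ) • ((eA N A ∆ hsR c n) ∩ cylR c (axis n) l))
      fun x hx => ?_).trans ?_
    · obtain ⟨a1, a2, a3⟩ := Finset.mem_filter.1 hx
      exact MU1b_cube hn c hN hL A a1 a2 a3
    · rw [volume_smul_set _ hN'.le]
      refine (mul_le_mul_right hA _).trans (le_of_eq ?_)
      rw [← ENNReal.ofReal_mul (by positivity)]
      congr 1
      ring
  have h2 : (C.card : ℝ) ≤ ζ * (l * N) ^ 3 := by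
    rw [← ENNReal.ofReal_natCast, ENNReal.ofReal_le_ofReal_iff (by positivity)] at h1
    exact h1
  have h3 := slab_card hn (tile (rnd N c) (axis n) L (3 * L)) (dot n (rnd N c)) 2 (by norm_num)
  rw [cols_tile] at h3
  push_cast at h3
  have h4 : ((tile (rnd N c) (axis n) L (3 * L)).filter
      fun x => ¬ (x ∈ A ↔ x - rnd N c ∉ hs n)) ⊆ C ∪
      (tile (rnd N c) (axis n) L (3 * L)).filter fun x => |dot n x - dot n (rnd N c)| ≤ 2 := by
    intro x hx
    obtain ⟨a1, a2⟩ := Finset.mem_filter.1 hx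
    rcases lt_or_ge 2 |dot n (x - rnd N c)| with h | h
    · exact Finset.mem_union_left _ (Finset.mem_filter.2 ⟨a1, a2, h⟩)
    · rw [dot_sub] at h
      exact Finset.mem_union_right _ (Finset.mem_filter.2 ⟨a1, h⟩)
  have h5 := (Finset.card_le_card h4).trans (Finset.card_union_le _ _)
  have h6 := (Nat.cast_le (α := ℝ)).2 h5
  push_cast at h6
  linarith only [h2, h3, h6]

theorem good_shell {n : E3} (hn : ‖n‖ = 1) (c : E3) {l ρ ζ : ℝ} (hl : 0 < l) (hρ : 0 < ρ)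
    (hρ1 : ρ < 1) (hζ : 0 < ζ) : ∀ᶠ N : ℕ in atTop, ∀ A : Finset Site,
    volume ((eA N A ∆ hsR c n) ∩ cylR c (axis n) l) ≤ ENNReal.ofReal (ζ * l ^ 3) →
    ∃ L : ℕ, (1 - ρ) * l * N ≤ L ∧ (L : ℝ) + 3 ≤ l * N ∧
      (((tile (rnd N c) (axis n) (L + 1) (3 * L + 3) \ tile (rnd N c) (axis n) L (3 * L)).filter
        fun x => ¬ (x ∈ A ↔ x - rnd N c ∉ hs n)).card : ℝ) ≤ 4 * ζ * l ^ 2 * (N : ℝ) ^ 2 / ρ := by
  have hT : Tendsto (fun N : ℕ => l * (N : ℝ)) atTop atTop :=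
    tendsto_natCast_atTop_atTop.const_mul_atTop hl
  filter_upwards [eventually_ge_atTop 1, hT.eventually_ge_atTop (8 / ρ),
    hT.eventually_ge_atTop (81 / ζ)] with N hN h8 h81 A hA
  rw [div_le_iff₀ hρ] at h8
  rw [div_le_iff₀ hζ] at h81
  have hT0 : 0 < l * N := mul_pos hl (by exact_mod_cast hN)
  have hT8 : 8 ≤ l * N := by nlinarith only [hρ1, h8, hρ]
  have hρ' : 0 ≤ (1 - ρ) * (l * N) := mul_nonneg (by linarith) hT0.le
  obtain ⟨b, hb⟩ : ∃ b : ℕ, b + 3 = ⌊l * N⌋₊ := by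
    have : 3 ≤ ⌊l * N⌋₊ := Nat.le_floor (by push_cast; linarith)
    exact ⟨⌊l * N⌋₊ - 3, by omega⟩
  have hb1 : (b : ℝ) + 3 ≤ l * N := by
    have := Nat.floor_le hT0.le
    rw [← hb] at this
    push_cast at this
    exact this
  have hb2 : l * N < b + 4 := by
    have := Nat.lt_floor_add_one (l * N)
    rw [← hb] at this
    push_cast at this
    linarith only [this]
  set a : ℕ := ⌈(1 - ρ) * (l * N)⌉₊ with ha
  have ha1 : (1 - ρ) * (l * N) ≤ a := Nat.le_ceil _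
  have ha2 : (a : ℝ) < (1 - ρ) * (l * N) + 1 := Nat.ceil_lt_add_one hρ'
  have hab : a ≤ b := by
    have : (a : ℝ) ≤ b := by nlinarith only [hρ, hρ1, h8, hb2, ha2]
    exact_mod_cast this
  have hcard : ρ * (l * N) / 2 ≤ ((Finset.Icc a b).card : ℝ) := by
    rw [Nat.card_Icc, Nat.cast_sub (by omega)]
    push_cast
    nlinarith only [h8, hb2, ha2]
  set Sh : ℕ → Finset Site := fun L =>
    (tile (rnd N c) (axis n) (L + 1) (3 * L + 3) \ tile (rnd N c) (axis n) L (3 * L)).filter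
      fun x => ¬ (x ∈ A ↔ x - rnd N c ∉ hs n) with hSh
  have hlt : ∀ L L', L < L' → Disjoint (Sh L) (Sh L') := by
    intro L L' h
    rw [Finset.disjoint_left]
    intro x hx hx'
    exact (Finset.mem_sdiff.1 (Finset.mem_filter.1 hx').1).2
      (MU1b_tile_mono (by omega) (by omega) (Finset.mem_sdiff.1 (Finset.mem_filter.1 hx).1).1)
  have hdis : ((Finset.Icc a b : Finset ℕ) : Set ℕ).PairwiseDisjoint Sh := by
    intro L _ L' _ h
    rcases lt_or_gt_of_ne h with h | h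
    · exact hlt L L' h
    · exact (hlt L' L h).symm
  have hsub : (Finset.Icc a b).biUnion Sh ⊆
      (tile (rnd N c) (axis n) (b + 1) (3 * (b + 1))).filter
        fun x => ¬ (x ∈ A ↔ x - rnd N c ∉ hs n) := by
    intro x hx
    obtain ⟨L, hL, hx⟩ := Finset.mem_biUnion.1 hx
    have hL' := (Finset.mem_Icc.1 hL).2
    obtain ⟨a1, a2⟩ := Finset.mem_filter.1 hx
    exact Finset.mem_filter.2
      ⟨MU1b_tile_mono (by omega) (by omega) (Finset.mem_sdiff.1 a1).1, a2⟩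
  have hbad := MU1b_bad hn c hl hζ (L := b + 1) hN (by push_cast; linarith only [hρ, hρ1, hb1]) A hA
  have hsum : ∑ L ∈ Finset.Icc a b, ((Sh L).card : ℝ) ≤
      ∑ _L ∈ Finset.Icc a b, 4 * ζ * l ^ 2 * (N : ℝ) ^ 2 / ρ := by
    have s1 := Finset.card_le_card hsub
    rw [Finset.card_biUnion hdis] at s1
    have s2 := (Nat.cast_le (α := ℝ)).2 s1
    push_cast at s2 hbad
    have hb0 : (0 : ℝ) ≤ b := Nat.cast_nonneg b
    have s3 : (2 * ((b : ℝ) + 1) + 1) ^ 2 ≤ (3 * (l * N)) ^ 2 :=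
      pow_le_pow_left₀ (by positivity) (by linarith only [hρ, hρ1, hT8, hb1]) 2
    have s4 : 81 * (l * N) ^ 2 ≤ l * N * ζ * (l * N) ^ 2 :=
      mul_le_mul_of_nonneg_right h81 (by positivity)
    have s5 : ρ * (l * N) / 2 * (4 * ζ * l ^ 2 * (N : ℝ) ^ 2 / ρ) = 2 * (ζ * (l * N) ^ 3) := by
      field_simp
      ring
    have s6 := mul_le_mul_of_nonneg_right hcard
      (show 0 ≤ 4 * ζ * l ^ 2 * (N : ℝ) ^ 2 / ρ by positivity)
    rw [Finset.sum_const, nsmul_eq_mul]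
    nlinarith only [s2, hbad, s3, s4, s5, s6]
  obtain ⟨L, hL, hle⟩ := Finset.exists_le_of_sum_le (Finset.nonempty_Icc.2 hab) hsum
  obtain ⟨l1, l2⟩ := Finset.mem_Icc.1 hL
  have l1' : (a : ℝ) ≤ L := by exact_mod_cast l1
  have l2' : (L : ℝ) ≤ b := by exact_mod_cast l2
  exact ⟨L, by linarith only [ha1, l1'], by linarith only [hb1, l2'], hle⟩

end Pool.Agent.Work.MP_b59478_pr
end
end

-- merged part: Pool.Agent.Work.MP_b59478_pr.MU2
section
/-! From closeness in volume to the upper bound.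
good_shell: c' = rnd N c. A site x of tile c' k L1 (3 L1) with L1 + 2 <= l N, where x in A and
dot n (x - c') < 0 disagree and |dot n (x - c')| > 2, has its open unit cube, rescaled, inside
(eA symmdiff hsR) inter cylR; card_le_volume bounds their number by zeta l ^ 3 N ^ 3, slab_card the
others by 9 (2 l N + 1) ^ 2. The shells for different L are disjoint and there are at least
rho l N / 2 values of L; pigeonhole.
upper_micro: split the family according to the vector (L j), at most (l N + 1) ^ card choices; for a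
fixed vector apply upper_core with Lam j = tile c' k L (3 L), Lp j = tile c' k (L + 1) (3 L + 3),
H j the complement of c' + hs n (Rt_compl, Rt_shift, TauFacts.up3), ring <= 216 (L + 1) each
(shell_slab), shells of size at most 100 l ^ 2 N ^ 2, mu = 4 zeta card l ^ 2 N ^ 2 / rho. All errors are
small multiples of S N ^ 2 since S >= 4 card l ^ 2 (tau n >= |n k| by TauFacts.low), or o(N ^ 2)
(ev_log). Choose rho, q, then zeta in terms of delta and beta.
-/

set_option autoImplicit false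

noncomputable section

namespace Pool.Agent.Work.MP_b59478_pr

open Classical Filter Topology MeasureTheory
open scoped symmDiff Pointwise

theorem MU2_PL_nonneg (β : ℝ) (N : ℕ) (A : Finset Site) : 0 ≤ PL β N A :=
  mul_nonneg (w_pos β A).le (Finset.sum_nonneg fun D _ => (w_pos β D).le)

theorem MU2_sub (c : Site) (k : Fin 3) (L : ℕ) {x y : Site} (hx : x ∈ tile c k L (3 * L))
    (h : Near 1 y x) : y ∈ tile c k (L + 1) (3 * L + 3) := by
  rw [mem_tile] at hx ⊢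
  intro i
  have h1 := hx i
  have h2 := h i
  have h3 : |y i - c i| ≤ |y i - x i| + |x i - c i| := abs_sub_le _ _ _
  split_ifs at h1 ⊢ <;> push_cast at h1 h2 ⊢ <;> omega

theorem MU2_shell_card (c : Site) (k : Fin 3) (L : ℕ) :
    (tile c k (L + 1) (3 * L + 3) \ tile c k L (3 * L)).card ≤ 72 * (L + 1) ^ 2 := by
  have hs : tile c k L (3 * L) ⊆ tile c k (L + 1) (3 * L + 3) := fun x hx =>
    MU2_sub c k L hx (Near.refl 1 x)
  have h := Finset.card_sdiff_add_card_eq_card hs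
  rw [card_tile, card_tile] at h
  nlinarith only [h]

theorem MU2_mem_cylR {N L : ℕ} {l : ℝ} (hN : 1 ≤ N) (hL : (L : ℝ) + 3 ≤ l * N) (c : E3) (k : Fin 3)
    {x : Site} (hx : x ∈ tile (rnd N c) k (L + 1) (3 * L + 3)) :
    (N : ℝ)⁻¹ • emb x ∈ cylR c k l := by
  intro i
  have hN' : (0 : ℝ) < N := by exact_mod_cast hN
  have h1 := mem_tile.1 hx i
  have h2 : |(N : ℝ) * c i - (rnd N c i : ℝ)| ≤ 1 / 2 := abs_sub_round _
  have h3 : ((N : ℝ)⁻¹ • emb x) i - c i = ((x i : ℝ) - N * c i) / N := by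
    rw [PiLp.smul_apply, emb_apply, smul_eq_mul]
    field_simp
  rw [h3, abs_div, abs_of_pos hN', div_lt_iff₀ hN']
  have h4 : |(x i : ℝ) - N * c i| ≤ |(x i : ℝ) - rnd N c i| + |(N : ℝ) * c i - rnd N c i| := by
    have := abs_sub_le (x i : ℝ) (rnd N c i : ℝ) (N * c i)
    rwa [abs_sub_comm (rnd N c i : ℝ)] at this
  split_ifs at h1 ⊢
  · have h5 : |(x i : ℝ) - rnd N c i| ≤ 3 * L + 3 := by exact_mod_cast h1
    linarith only [hL, h2, h4, h5]
  · have h5 : |(x i : ℝ) - rnd N c i| ≤ L + 1 := by exact_mod_cast h1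
    linarith only [hL, h2, h4, h5]

theorem MU2_ring {n : E3} (hn : ‖n‖ = 1) (c : Site) {L : ℕ} (hL : 6 ≤ L) :
    ((bonds (tile c (axis n) (L + 1) (3 * L + 3))).filter fun b =>
      b.1 ∈ tile c (axis n) (L + 1) (3 * L + 3) \ tile c (axis n) L (3 * L) ∧
      tip b ∈ tile c (axis n) (L + 1) (3 * L + 3) \ tile c (axis n) L (3 * L) ∧
      Cuts {x | x - c ∉ hs n} b).card ≤ 216 * (L + 1) := by
  have h1 := shell_slab hn c L (3 * L) (3 * L + 3) (by omega) (dot n c) (by simp)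
  refine le_trans (Finset.card_le_card (t := ((tile c (axis n) (L + 1) (3 * L + 3) \
    tile c (axis n) L (3 * L)).filter fun x => |dot n x - dot n c| ≤ 2) ×ˢ
      (Finset.univ : Finset (Fin 3))) ?_) ?_
  · intro b hb
    rw [Finset.mem_filter] at hb
    obtain ⟨-, hb1, -, hb3⟩ := hb
    refine Finset.mem_product.2 ⟨Finset.mem_filter.2 ⟨hb1, ?_⟩, Finset.mem_univ _⟩
    have h2 := abs_le.1 (coord_le_one hn b.2)
    have h3 := dot_tip n b
    simp only [Cuts, hs, Set.mem_ofPred_eq, dot_sub] at hb3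
    rw [abs_le]
    by_cases h4 : 0 ≤ dot n b.1 - dot n c
    · have h5 : ¬ 0 ≤ dot n (tip b) - dot n c := fun h => hb3 (by simp [h, h4])
      push Not at h5
      constructor <;> linarith only [h4, h2, h3, h5]
    · have h5 : 0 ≤ dot n (tip b) - dot n c := by
        by_contra h
        exact hb3 (by simp [h, h4])
      push Not at h4
      constructor <;> linarith only [h2, h3, h5, h4]
  · rw [Finset.card_product, Finset.card_univ, Fintype.card_fin]
    omega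

theorem MU2_Rt (β : ℝ) (n : E3) (c : Site) (L M : ℕ) :
    Rt β (tile c (axis n) L M) {x | x - c ∉ hs n} = Rt β (cyl (axis n) L M) (hs n) := by
  have h := Rt_compl β (tile c (axis n) L M) {x | x - c ∈ hs n}
  rw [Rt_shift] at h
  exact h

theorem MU2_split {α κ : Type} (F : Finset α) (𝓛 : Finset κ) (f : α → ℝ) (hf : ∀ a, 0 ≤ f a)
    (P : κ → α → Prop) (h : ∀ a ∈ F, ∃ L ∈ 𝓛, P L a) (B : ℝ)
    (hB : ∀ L ∈ 𝓛, ∑ a ∈ F.filter (P L), f a ≤ B) : ∑ a ∈ F, f a ≤ 𝓛.card * B := by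
  calc ∑ a ∈ F, f a ≤ ∑ a ∈ F, ∑ L ∈ 𝓛, if P L a then f a else 0 := by
        refine Finset.sum_le_sum fun a ha => ?_
        obtain ⟨L, hL, hP⟩ := h a ha
        have := Finset.single_le_sum (f := fun L => if P L a then f a else 0)
          (fun L _ => by split_ifs; exacts [hf a, le_rfl]) hL
        simpa [hP] using this
    _ = ∑ L ∈ 𝓛, ∑ a ∈ F.filter (P L), f a := by
        rw [Finset.sum_comm]
        exact Finset.sum_congr rfl fun L _ => (Finset.sum_filter _ _).symm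
    _ ≤ ∑ _L ∈ 𝓛, B := Finset.sum_le_sum hB
    _ = 𝓛.card * B := by rw [Finset.sum_const, nsmul_eq_mul]

theorem MU2_ent (C0 : ℝ) {ε : ℝ} (hε : 0 < ε) : ∀ᶠ N : ℕ in atTop,
    (((bonds (cube N)).card : ℝ) + 1) ^ (⌊C0 * (N : ℝ) ^ 2⌋₊ / sN N) ≤
      Real.exp (ε * (N : ℝ) ^ 2) := by
  filter_upwards [ev_log (9 * |C0| / ε), eventually_ge_atTop 3,
    tendsto_sN.eventually (eventually_ge_atTop 1)] with N h1 h2 h3
  have hN : (3 : ℝ) ≤ N := by exact_mod_cast h2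
  have hs : (1 : ℝ) ≤ sN N := by exact_mod_cast h3
  have hB : ((bonds (cube N)).card : ℝ) + 1 ≤ (N : ℝ) ^ 9 := by
    have h4 := card_bonds_le (cube N)
    rw [card_cube] at h4
    have h5 : ((bonds (cube N)).card : ℝ) ≤ 6 * (2 * N + 1) ^ 3 := by exact_mod_cast h4
    have h6 : (2 * (N : ℝ) + 1) ^ 3 ≤ (3 * N) ^ 3 := by gcongr; linarith only [hN]
    have h7 : (3 : ℝ) ^ 6 ≤ (N : ℝ) ^ 6 := by gcongr
    have h8 : (1 : ℝ) ≤ (N : ℝ) ^ 3 := one_le_pow₀ (by linarith only [hN])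
    calc ((bonds (cube N)).card : ℝ) + 1 ≤ 6 * (3 * N) ^ 3 + (N : ℝ) ^ 3 := by linarith only [h5, h6, h8]
      _ = 163 * (N : ℝ) ^ 3 := by ring
      _ ≤ (N : ℝ) ^ 6 * (N : ℝ) ^ 3 := by gcongr; linarith only [h7]
      _ = (N : ℝ) ^ 9 := by ring
  have hlog : 0 ≤ Real.log N := Real.log_nonneg (by linarith)
  have hj : ((⌊C0 * (N : ℝ) ^ 2⌋₊ / sN N : ℕ) : ℝ) ≤ |C0| * (N : ℝ) ^ 2 / sN N := by
    refine le_trans Nat.cast_div_le ?_
    gcongr
    refine le_trans (Nat.cast_le.2 (Nat.floor_le_floor (b := |C0| * (N : ℝ) ^ 2) ?_))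
      (Nat.floor_le (by positivity))
    gcongr
    exact le_abs_self _
  set j := ⌊C0 * (N : ℝ) ^ 2⌋₊ / sN N
  calc (((bonds (cube N)).card : ℝ) + 1) ^ j ≤ ((N : ℝ) ^ 9) ^ j := by gcongr
    _ = Real.exp (j * (9 * Real.log N)) := by
        rw [Real.exp_nat_mul, show (9 : ℝ) * Real.log N = ((9 : ℕ) : ℝ) * Real.log N by norm_num,
          Real.exp_nat_mul, Real.exp_log (by linarith only [hN])]
    _ ≤ Real.exp (ε * (N : ℝ) ^ 2) := by
        apply Real.exp_le_exp.2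
        have h9 : 9 * |C0| * Real.log N ≤ ε * sN N := by
          rw [div_mul_eq_mul_div, div_le_iff₀ hε] at h1
          linarith
        calc (j : ℝ) * (9 * Real.log N) ≤ |C0| * (N : ℝ) ^ 2 / sN N * (9 * Real.log N) := by
              gcongr
          _ = (9 * |C0| * Real.log N) * (N : ℝ) ^ 2 / sN N := by ring
          _ ≤ (ε * sN N) * (N : ℝ) ^ 2 / sN N := by gcongr
          _ = ε * (N : ℝ) ^ 2 := by field_simp

theorem MU2_lin (a : ℝ) {ε : ℝ} (hε : 0 < ε) :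
    ∀ᶠ N : ℕ in atTop, 1 + a * N ≤ ε * (N : ℝ) ^ 2 := by
  filter_upwards [tendsto_natCast_atTop_atTop.eventually_ge_atTop ((1 + |a|) / ε),
    eventually_ge_atTop 1] with N h1 h2
  have hN : (1 : ℝ) ≤ N := by exact_mod_cast h2
  rw [div_le_iff₀ hε] at h1
  have := le_abs_self a
  nlinarith only [hN, h1, this]

theorem MU2_main {β : ℝ} {τ : E3 → ℝ} (hβ : 1000 ≤ β) (hτ : TauFacts β τ) {δ : ℝ}
    (hδ : 0 < δ) (hδ1 : δ ≤ 1) : ∃ ζ : ℝ, 0 < ζ ∧ ∀ (C0 l : ℝ) (𝒞 : Finset (E3 × E3)), 0 < l →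
    (∀ p ∈ 𝒞, ‖p.2‖ = 1) →
    (∀ p ∈ 𝒞, ∀ p' ∈ 𝒞, p ≠ p' → Disjoint (cylR p.1 (axis p.2) l) (cylR p'.1 (axis p'.2) l)) →
    ∀ᶠ N : ℕ in atTop, ∑ A ∈ (BigSets N).filter fun A =>
        ((cut A).card : ℝ) ≤ C0 * (N : ℝ) ^ 2 ∧ ∀ p ∈ 𝒞,
          volume ((eA N A ∆ hsR p.1 p.2) ∩ cylR p.1 (axis p.2) l) ≤ ENNReal.ofReal (ζ * l ^ 3),
        PL β N A ≤
      Z0 β (cube N) * Real.exp (-(((1 - δ) * ∑ p ∈ 𝒞, τ p.2 * (2 * l) ^ 2 / |p.2 (axis p.2)| - δ) *
        (N : ℝ) ^ 2)) := by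
  obtain ⟨ρ, hρ⟩ : ∃ ρ : ℝ, ρ = δ / 8 := ⟨_, rfl⟩
  obtain ⟨q, hq⟩ : ∃ q : ℝ, q = δ / 100 := ⟨_, rfl⟩
  have hρ0 : 0 < ρ := by rw [hρ]; positivity
  have hρ1 : ρ ≤ 1 / 8 := by rw [hρ]; linarith only [hδ1]
  have hq0 : 0 < q := by rw [hq]; positivity
  have hq1 : q ≤ 1 := by rw [hq]; linarith only [hδ1, hq, hq0]
  obtain ⟨K, hK⟩ : ∃ K : ℝ, K = 12 * β + 6 - Real.log q := ⟨_, rfl⟩
  have hK0 : 0 < K := by
    have := Real.log_nonpos hq0.le hq1
    rw [hK]; linarith only [hβ, hδ1, hq, hq0, this]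
  refine ⟨ρ * δ / (4 * K), by positivity, fun C0 l 𝒞 hl hu hd => ?_⟩
  obtain ⟨ζ, hζ⟩ : ∃ ζ : ℝ, ζ = ρ * δ / (4 * K) := ⟨_, rfl⟩
  rw [← hζ]
  have hζ0 : 0 < ζ := by rw [hζ]; positivity
  obtain ⟨L0, hL0⟩ := eventually_atTop.1 ((Filter.eventually_all_finset 𝒞).2
    fun p hp => hτ.up3 p.2 (hu p hp) ρ hρ0)
  have hgood := (Filter.eventually_all_finset 𝒞).2
    fun p hp => good_shell (hu p hp) p.1 hl hρ0 (by linarith only [hδ1, hρ, hq, hq0]) hζ0
  have hbig : ∀ᶠ N : ℕ in atTop, ((max L0 6 : ℕ) : ℝ) ≤ (1 - ρ) * l * N :=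
    (tendsto_natCast_atTop_atTop.const_mul_atTop
      (show 0 < (1 - ρ) * l from mul_pos (by linarith only [hδ1, hρ, hq, hq0]) hl)).eventually_ge_atTop _
  filter_upwards [hgood, hbig, ev_bonds, tendsto_sN.eventually (eventually_ge_atTop 1),
    eventually_ge_atTop 1, MU2_ent C0 (half_pos hδ), MU2_lin (217 * 𝒞.card * l) (half_pos hδ)]
    with N hgood hbig hb hsN hN hent hlin
  obtain ⟨S, hS⟩ : ∃ S : ℝ, S = ∑ p ∈ 𝒞, τ p.2 * (2 * l) ^ 2 / |p.2 (axis p.2)| := ⟨_, rfl⟩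
  have hτ1 : ∀ p ∈ 𝒞, 1 ≤ τ p.2 ∧ |p.2 (axis p.2)| ≤ τ p.2 ∧ 0 < |p.2 (axis p.2)| := by
    clear * - 𝒞 β τ hτ hu δ q hβ hδ1 hq hq0
    intro p hp
    have h1 := hτ.low p.2 (hu p hp)
    have h2 := axis_half (hu p hp)
    refine ⟨?_, ?_, by linarith only [hδ1, hq, hq0, h2]⟩ <;> nlinarith only [hβ, hδ1, hq, hq0, h1, h2]
  have hSm : 4 * 𝒞.card * l ^ 2 ≤ S := by
    clear * - 𝒞 l S τ hS hτ1 hl
    rw [hS]
    calc 4 * (𝒞.card : ℝ) * l ^ 2 = ∑ _p ∈ 𝒞, (2 * l) ^ 2 := by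
          rw [Finset.sum_const, nsmul_eq_mul]; ring
      _ ≤ _ := Finset.sum_le_sum fun p hp => by
          obtain ⟨-, h2, h3⟩ := hτ1 p hp
          rw [le_div_iff₀ h3, mul_comm]
          gcongr
  have hlN : 0 ≤ l * N := by positivity
  obtain ⟨μ, hμ⟩ : ∃ μ : ℝ, μ = 𝒞.card * (4 * ζ * l ^ 2 * (N : ℝ) ^ 2 / ρ) := ⟨_, rfl⟩
  have hμ0 : 0 ≤ μ := by rw [hμ]; (clear * - hζ0 hl hN hρ0; positivity)
  have hZ := Z0_pos β (cube N)
  refine le_trans (MU2_split _
    ((Fintype.piFinset fun _ : 𝒞 => Finset.range (⌊l * N⌋₊ + 1)).filter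
      fun L => ∀ p, (1 - ρ) * l * N ≤ L p ∧ (L p : ℝ) + 3 ≤ l * N) _ (MU2_PL_nonneg β N)
    (fun L A => ∀ p : 𝒞, (((tile (rnd N p.1.1) (axis p.1.2) (L p + 1) (3 * L p + 3) \
        tile (rnd N p.1.1) (axis p.1.2) (L p) (3 * L p)).filter
        fun x => ¬ (x ∈ A ↔ x - rnd N p.1.1 ∉ hs p.1.2)).card : ℝ) ≤
          4 * ζ * l ^ 2 * (N : ℝ) ^ 2 / ρ) ?_
    (Z0 β (cube N) * Real.exp (δ / 2 * (N : ℝ) ^ 2 + q * (72 * 𝒞.card * (l * N) ^ 2) + K * μ +
      (1 + 216 * 𝒞.card * (l * N)) - (1 - ρ) ^ 3 * S * (N : ℝ) ^ 2)) ?_) ?_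
  · intro A hA
    simp only [Finset.mem_filter] at hA
    have h1 := hA.2.2
    choose L hL1 hL2 hL3 using fun p : 𝒞 => hgood p.1 p.2 A (h1 p.1 p.2)
    refine ⟨L, Finset.mem_filter.2 ⟨Fintype.mem_piFinset.2 fun p => ?_,
      fun p => ⟨hL1 p, hL2 p⟩⟩, hL3⟩
    rw [Finset.mem_range, Nat.lt_succ_iff]
    exact Nat.le_floor (by linarith only [hδ1, hq, hq0, hL2 p])
  · intro L hL
    have hL' := (Finset.mem_filter.1 hL).2
    have hL6 : ∀ p, max L0 6 ≤ L p := fun p => by exact_mod_cast hbig.trans (hL' p).1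
    refine le_trans (upper_core hβ N hsN hb (Finset.univ : Finset 𝒞)
      (fun p => tile (rnd N p.1.1) (axis p.1.2) (L p) (3 * L p))
      (fun p => tile (rnd N p.1.1) (axis p.1.2) (L p + 1) (3 * L p + 3))
      (fun p => {x | x - rnd N p.1.1 ∉ hs p.1.2})
      (fun p _ x hx y hy => MU2_sub _ _ _ hx hy) ?_ (∑ p, 216 * (L p + 1))
      (Finset.sum_le_sum fun p _ => MU2_ring (hu p.1 p.2) _ ((le_max_right _ _).trans (hL6 p)))
      ⌊C0 * (N : ℝ) ^ 2⌋₊ hμ0 hq0 hq1 _ ?_) ?_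
    · intro p _ p' _ hpp
      rw [Finset.disjoint_left]
      intro x hx hx'
      exact Set.disjoint_left.1 (hd p.1 p.2 p'.1 p'.2 fun h => hpp (Subtype.ext h))
        (MU2_mem_cylR hN (hL' p).2 _ _ hx) (MU2_mem_cylR hN (hL' p').2 _ _ hx')
    · intro A hA
      simp only [Finset.mem_filter] at hA
      refine ⟨hA.1.1, Nat.le_floor hA.1.2.1, ?_⟩
      rw [hμ, Nat.cast_sum]
      refine le_trans (Finset.sum_le_sum (g := fun _ => 4 * ζ * l ^ 2 * (N : ℝ) ^ 2 / ρ)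
        fun p _ => le_trans (Nat.cast_le.2 (Finset.card_le_card fun x hx => ?_)) (hA.2 p)) ?_
      · simp only [Finset.mem_filter] at hx ⊢
        exact hx
      rw [Finset.sum_const, nsmul_eq_mul, Finset.card_univ, Fintype.card_coe]
    · refine mul_le_mul_of_nonneg_left ?_ hZ.le
      have e1 : (1 + q) ^ (∑ p : 𝒞, (tile (rnd N p.1.1) (axis p.1.2) (L p + 1) (3 * L p + 3) \
          tile (rnd N p.1.1) (axis p.1.2) (L p) (3 * L p)).card) ≤
          Real.exp (q * (72 * 𝒞.card * (l * N) ^ 2)) := by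
        clear * - 𝒞 N L q l ρ hL' hq0 hq hδ1
        set j := ∑ p : 𝒞, (tile (rnd N p.1.1) (axis p.1.2) (L p + 1) (3 * L p + 3) \
          tile (rnd N p.1.1) (axis p.1.2) (L p) (3 * L p)).card with hj
        have h1 : (j : ℝ) ≤ 72 * 𝒞.card * (l * N) ^ 2 := by
          rw [hj, Nat.cast_sum]
          calc _ ≤ ∑ _p : 𝒞, 72 * (l * N) ^ 2 := Finset.sum_le_sum fun p _ => by
                have h2 : ((tile (rnd N p.1.1) (axis p.1.2) (L p + 1) (3 * L p + 3) \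
                    tile (rnd N p.1.1) (axis p.1.2) (L p) (3 * L p)).card : ℝ) ≤
                    72 * ((L p : ℝ) + 1) ^ 2 := by exact_mod_cast MU2_shell_card _ _ _
                refine h2.trans ?_
                gcongr
                linarith only [hδ1, hq, hq0, (hL' p).2]
            _ = _ := by
                rw [Finset.sum_const, nsmul_eq_mul, Finset.card_univ, Fintype.card_coe]; ring
        calc (1 + q) ^ j ≤ Real.exp q ^ j := by
              gcongr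
              linarith only [Real.add_one_le_exp q]
          _ = Real.exp (q * j) := by rw [← Real.exp_nat_mul, mul_comm]
          _ ≤ _ := by gcongr
      have e2 : (2 : ℝ) * 2 ^ (∑ p : 𝒞, 216 * (L p + 1)) ≤
          Real.exp (1 + 216 * 𝒞.card * (l * N)) := by
        clear * - 𝒞 L l N ρ hL' hq hq0 hδ1
        set j := ∑ p : 𝒞, 216 * (L p + 1) with hj
        have h1 : (j : ℝ) ≤ 216 * 𝒞.card * (l * N) := by
          rw [hj, Nat.cast_sum]
          calc _ ≤ ∑ _p : 𝒞, 216 * (l * N) := Finset.sum_le_sum fun p _ => by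
                push_cast
                linarith only [hδ1, hq, hq0, (hL' p).2]
            _ = _ := by
                rw [Finset.sum_const, nsmul_eq_mul, Finset.card_univ, Fintype.card_coe]; ring
        have h2 : (2 : ℝ) ≤ Real.exp 1 := by linarith only [Real.add_one_le_exp (1 : ℝ)]
        calc (2 : ℝ) * 2 ^ j ≤ Real.exp 1 * Real.exp 1 ^ j := by gcongr
          _ = Real.exp (1 + j) := by rw [← Real.exp_nat_mul, ← Real.exp_add, mul_one]
          _ ≤ _ := by gcongr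
      have e3 : ∏ p : 𝒞, Rt β (tile (rnd N p.1.1) (axis p.1.2) (L p) (3 * L p))
          {x | x - rnd N p.1.1 ∉ hs p.1.2} ≤ Real.exp (-((1 - ρ) ^ 3 * S * (N : ℝ) ^ 2)) := by
        clear * - 𝒞 β N L ρ τ l S hL0 L0 hL6 hτ1 δ hδ hρ hδ1 hl hN hL' hS hq hq0
        calc _ ≤ ∏ p : 𝒞, Real.exp (-((1 - ρ) ^ 3 *
              (τ p.1.2 * (2 * l) ^ 2 / |p.1.2 (axis p.1.2)|) * (N : ℝ) ^ 2)) := by
              refine Finset.prod_le_prod (fun p _ => (Rt_pos _ _ _).le) fun p _ => ?_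
              rw [MU2_Rt]
              refine (hL0 (L p) ((le_max_left _ _).trans (hL6 p)) p.1 p.2).trans ?_
              apply Real.exp_le_exp.2
              obtain ⟨h1, -, h3⟩ := hτ1 p.1 p.2
              rw [neg_le_neg_iff]
              have h4 : (1 - ρ) * τ p.1.2 ≤ τ p.1.2 - ρ := by nlinarith only [hδ, h1, hρ]
              have h5 : (2 * ((1 - ρ) * l * N)) ^ 2 ≤ (2 * (L p : ℝ) + 1) ^ 2 := by
                clear * - ρ l N δ hδ1 hρ hl hN L p hL' hq hq0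
                have : 0 ≤ (1 - ρ) * l * N := by
                  have : 0 ≤ 1 - ρ := by linarith only [hδ1, hρ, hq, hq0]
                  (clear * - this hl hN; positivity)
                gcongr
                linarith only [hδ1, hq, hq0, (hL' p).1]
              calc (1 - ρ) ^ 3 * (τ p.1.2 * (2 * l) ^ 2 / |p.1.2 (axis p.1.2)|) * (N : ℝ) ^ 2 =
                  (1 - ρ) * τ p.1.2 * (2 * ((1 - ρ) * l * N)) ^ 2 / |p.1.2 (axis p.1.2)| := by ring
                _ ≤ _ := by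
                  clear * - ρ τ 𝒞 p l N L h4 h5 δ hδ1 hρ h1 h3 hq hq0
                  gcongr
                  linarith only [hδ1, hρ, hq, hq0, h1]
          _ = _ := by
              rw [← Real.exp_sum, hS, Finset.mul_sum, Finset.sum_mul, ← Finset.sum_neg_distrib,
                ← Finset.sum_coe_sort 𝒞]
      have e0 : 0 ≤ ∏ p : 𝒞, Rt β (tile (rnd N p.1.1) (axis p.1.2) (L p) (3 * L p))
          {x | x - rnd N p.1.1 ∉ hs p.1.2} := Finset.prod_nonneg fun p _ => (Rt_pos _ _ _).le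
      calc _ ≤ Real.exp (δ / 2 * (N : ℝ) ^ 2) * (Real.exp (q * (72 * 𝒞.card * (l * N) ^ 2)) *
            Real.exp (-(μ * Real.log q))) * Real.exp ((12 * β + 6) * μ) *
            Real.exp (1 + 216 * 𝒞.card * (l * N)) *
            Real.exp (-((1 - ρ) ^ 3 * S * (N : ℝ) ^ 2)) := by
            clear * - N C0 q 𝒞 L μ β δ l ρ S hent e1 hq0 e2 e3 e0
            gcongr
        _ = _ := by
            simp only [← Real.exp_add]
            congr 1
            rw [hK]; ring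
  · rw [← hS, mul_left_comm]
    refine mul_le_mul_of_nonneg_left ?_ hZ.le
    have h1 : (((Fintype.piFinset fun _ : 𝒞 => Finset.range (⌊l * N⌋₊ + 1)).filter
        fun L => ∀ p, (1 - ρ) * l * N ≤ L p ∧ (L p : ℝ) + 3 ≤ l * N).card : ℝ) ≤
        Real.exp (𝒞.card * (l * N)) := by
      clear * - 𝒞 ρ l N hlN
      refine le_trans (Nat.cast_le.2 (Finset.card_filter_le _ _)) ?_
      rw [Fintype.card_piFinset, Finset.prod_const, Finset.card_range, Finset.card_univ,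
        Fintype.card_coe, Real.exp_nat_mul]
      push_cast
      gcongr
      linarith only [hlN, Real.add_one_le_exp (l * N), Nat.floor_le hlN]
    refine le_trans (mul_le_mul_of_nonneg_right h1 (Real.exp_pos _).le) ?_
    rw [← Real.exp_add]
    apply Real.exp_le_exp.2
    have hS0 : 0 ≤ S := le_trans (by (clear * - hl; positivity)) hSm
    have hN2 : (0 : ℝ) ≤ (N : ℝ) ^ 2 := by positivity
    have a1 : q * (72 * 𝒞.card * (l * N) ^ 2) ≤ 18 / 100 * δ * (S * (N : ℝ) ^ 2) := by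
      clear * - q 𝒞 l N δ S hq hSm hN hδ
      calc q * (72 * 𝒞.card * (l * N) ^ 2) = 18 / 100 * δ * (4 * 𝒞.card * l ^ 2 * (N : ℝ) ^ 2) := by
            rw [hq]; ring
        _ ≤ _ := by gcongr
    have a2 : K * μ ≤ 1 / 4 * δ * (S * (N : ℝ) ^ 2) := by
      clear * - K μ δ 𝒞 l N S ζ ρ hμ hζ hK0 hρ0 hN hl hδ hSm
      calc K * μ = 1 / 4 * δ * (4 * 𝒞.card * l ^ 2 * (N : ℝ) ^ 2) := by
            rw [hμ, hζ]; field_simp
        _ ≤ _ := by gcongr
    have a3 : (1 - 3 / 8 * δ) * (S * (N : ℝ) ^ 2) ≤ (1 - ρ) ^ 3 * (S * (N : ℝ) ^ 2) := by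
      clear * - δ ρ hρ hδ1 S N hS0 hN hq hq0
      have : 1 - 3 / 8 * δ ≤ (1 - ρ) ^ 3 := by
        have h2 : δ = 8 * ρ := by rw [hρ]; ring
        rw [h2]
        nlinarith only [hδ1, hρ, hq, hq0, mul_nonneg (sq_nonneg ρ) (show 0 ≤ 3 - ρ by linarith only [hδ1, hρ, hq, hq0])]
      gcongr
    have a4 : 0 ≤ δ * (S * (N : ℝ) ^ 2) := by (clear * - hδ hS0 hN; positivity)
    clear * - 𝒞 l N δ q K μ ρ S hlin a1 a2 a3 a4; nlinarith only [hlin, a1, a2, a3, a4]

theorem upper_micro {β : ℝ} {τ : E3 → ℝ} (hβ : 1000 ≤ β) (hτ : TauFacts β τ) {δ : ℝ}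
    (hδ : 0 < δ) : ∃ ζ : ℝ, 0 < ζ ∧ ∀ (C0 l : ℝ) (𝒞 : Finset (E3 × E3)), 0 < l →
    (∀ p ∈ 𝒞, ‖p.2‖ = 1) →
    (∀ p ∈ 𝒞, ∀ p' ∈ 𝒞, p ≠ p' → Disjoint (cylR p.1 (axis p.2) l) (cylR p'.1 (axis p'.2) l)) →
    ∀ᶠ N : ℕ in atTop, ∑ A ∈ (BigSets N).filter fun A =>
        ((cut A).card : ℝ) ≤ C0 * (N : ℝ) ^ 2 ∧ ∀ p ∈ 𝒞,
          volume ((eA N A ∆ hsR p.1 p.2) ∩ cylR p.1 (axis p.2) l) ≤ ENNReal.ofReal (ζ * l ^ 3),
        PL β N A ≤
      Z0 β (cube N) * Real.exp (-(((1 - δ) * ∑ p ∈ 𝒞, τ p.2 * (2 * l) ^ 2 / |p.2 (axis p.2)| - δ) *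
        (N : ℝ) ^ 2)) := by
  obtain ⟨ζ, hζ, h⟩ := MU2_main hβ hτ (lt_min hδ one_pos) (min_le_right δ 1)
  refine ⟨ζ, hζ, fun C0 l 𝒞 hl hu hd => ?_⟩
  filter_upwards [h C0 l 𝒞 hl hu hd] with N hN
  refine hN.trans (mul_le_mul_of_nonneg_left (Real.exp_le_exp.2 ?_) (Z0_pos β _).le)
  have hS : 0 ≤ ∑ p ∈ 𝒞, τ p.2 * (2 * l) ^ 2 / |p.2 (axis p.2)| :=
    Finset.sum_nonneg fun p hp => by
      have h1 := hτ.low p.2 (hu p hp)
      have h2 : 0 ≤ τ p.2 := le_trans (mul_nonneg (by linarith only [hβ]) (abs_nonneg _)) h1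
      (clear * - h2 hl; positivity)
  have h1 := min_le_left δ 1
  rw [neg_le_neg_iff]
  gcongr

end Pool.Agent.Work.MP_b59478_pr
end
end
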