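import Pool.Agent.Work.MP_b59478_pr.Gas4
import Pool.Agent.Work.MP_b59478_pr.DG2
import Pool.Agent.Work.MP_b59478_pr.MU2

-- merged part: Pool.Agent.Work.MP_b59478_pr.W4
section
-- merged part: Pool.Agent.Work.MP_b59478_pr.W1
section
/-! Planar Brunn-Minkowski inequality and the profile of a convex body.
bm2: see the team-store file h64_BM.lean (BM_one, BM_fun) for the one-dimensional step and the
layer-cake step: normalise the section lengths of A and B by their suprema a, b; the sections of C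
are at least a + b times the level; so vol C >= (a + b) (vol A / a + vol B / b), and Cauchy-Schwarz.
If vol A = 0 use that C contains a translate of B.
prof: the projection of W is a compact interval [alpha, alpha'] with 0 in its interior; the slices
are compact and convex, sqrt (mar W) is concave on it by bm2 applied to scaled slices, hence
continuous in the interior (ConcaveOn.continuousOn) and positive there since mar W 0 > 0.
-/

set_option autoImplicit false

noncomputable section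

namespace Pool.Agent.Work.MP_b59478_pr

open Classical Filter Topology MeasureTheory
open scoped symmDiff Pointwise
open Set Metric

theorem W1_one {S T U : Set ℝ} (hT : MeasurableSet T) (bS : Bornology.IsBounded S)
    (bT : Bornology.IsBounded T) (nS : S.Nonempty) (nT : T.Nonempty)
    (h : ∀ x ∈ S, ∀ y ∈ T, x + y ∈ U) : volume S + volume T ≤ volume U := by
  refine ENNReal.le_of_forall_pos_le_add fun δ hδ _ => ?_
  have hδ' : (0 : ℝ) < δ / 2 := by positivity
  obtain ⟨s, hs, h1⟩ := exists_lt_of_lt_csSup nS (sub_lt_self (sSup S) hδ')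
  obtain ⟨t, ht, h2⟩ := exists_lt_of_csInf_lt nT (lt_add_of_pos_right (sInf T) hδ')
  have e1 : volume ((fun z => z + -t) ⁻¹' S) = volume S := measure_preimage_add_right _ _ _
  have e2 : volume ((fun z => z + -s) ⁻¹' T) = volume T := measure_preimage_add_right _ _ _
  have m2 : MeasurableSet ((fun z => z + -s) ⁻¹' T) := (measurable_add_const _) hT
  rw [← e1, ← e2, ← measure_union_add_inter _ m2]
  refine add_le_add (measure_mono ?_) ?_
  · rintro z (hz | hz)
    · simpa using h _ hz t ht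
    · simpa using h s hs _ hz
  · refine (measure_mono (t := Icc (s + sInf T) (sSup S + t)) fun z hz => ?_).trans ?_
    · have h3 := le_csSup bS.bddAbove hz.1
      have h4 := csInf_le bT.bddBelow hz.2
      exact ⟨by linarith only [h4], by linarith only [h3]⟩
    · rw [Real.volume_Icc, ← ENNReal.ofReal_coe_nnreal]
      exact ENNReal.ofReal_le_ofReal (by linarith)

theorem W1_fun {f g h : ℝ → ℝ} (mf : Measurable f) (mg : Measurable g) (mh : Measurable h)
    (f0 : ∀ x, 0 ≤ f x) (g0 : ∀ x, 0 ≤ g x) (h0 : ∀ x, 0 ≤ h x) (f1 : ∀ x, f x ≤ 1)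
    (g1 : ∀ x, g x ≤ 1) (f2 : ∀ t < 1, ∃ x, t < f x) (g2 : ∀ t < 1, ∃ x, t < g x)
    (bf : Bornology.IsBounded {x | 0 < f x}) (bg : Bornology.IsBounded {x | 0 < g x})
    (H : ∀ t x y, 0 < t → t < f x → t < g y → t < h (x + y)) :
    (∫⁻ x, ENNReal.ofReal (f x)) + (∫⁻ x, ENNReal.ofReal (g x)) ≤ ∫⁻ x, ENNReal.ofReal (h x) := by
  rw [lintegral_eq_lintegral_meas_lt _ (Eventually.of_forall f0) mf.aemeasurable,
    lintegral_eq_lintegral_meas_lt _ (Eventually.of_forall g0) mg.aemeasurable,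
    lintegral_eq_lintegral_meas_lt _ (Eventually.of_forall h0) mh.aemeasurable,
    ← lintegral_add_left]
  · refine setLIntegral_mono' measurableSet_Ioi fun t ht => ?_
    rcases lt_or_ge t 1 with h1 | h1
    · exact W1_one (S := {x | t < f x}) (T := {x | t < g x}) (measurableSet_lt measurable_const mg)
        (bf.subset fun x hx => lt_trans (mem_Ioi.1 ht) hx)
        (bg.subset fun x hx => lt_trans (mem_Ioi.1 ht) hx)
        (f2 t h1) (g2 t h1) fun x hx y hy => H t x y ht hx hy
    · have e1 : {x | t < f x} = ∅ := eq_empty_of_forall_notMem fun x hx =>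
        absurd ((f1 x).trans h1) (not_le.2 hx)
      have e2 : {x | t < g x} = ∅ := eq_empty_of_forall_notMem fun x hx =>
        absurd ((g1 x).trans h1) (not_le.2 hx)
      simp [e1, e2]
  · exact Antitone.measurable fun s t hst => measure_mono fun x hx => lt_of_le_of_lt hst hx

theorem W1_data {S : Set (ℝ × ℝ)} (m : MeasurableSet S) (hb : Bornology.IsBounded S) :
    (Measurable fun x => volume.real (Prod.mk x ⁻¹' S)) ∧ (∀ x, volume (Prod.mk x ⁻¹' S) ≠ ⊤) ∧
      (∀ x, Bornology.IsBounded (Prod.mk x ⁻¹' S)) ∧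
      BddAbove (range fun x => volume.real (Prod.mk x ⁻¹' S)) ∧
      Bornology.IsBounded {x | 0 < volume.real (Prod.mk x ⁻¹' S)} ∧
      ∀ c : ℝ, 0 < c → ∫⁻ x, ENNReal.ofReal (volume.real (Prod.mk x ⁻¹' S) / c) =
        ENNReal.ofReal (volume.real S / c) := by
  obtain ⟨R, hR'⟩ := hb.exists_norm_le
  have hR : ∀ x y, y ∈ Prod.mk x ⁻¹' S → x ∈ Icc (-R) R ∧ y ∈ Icc (-R) R := fun x y hy =>
    ⟨abs_le.1 ((norm_fst_le (x, y)).trans (hR' _ hy)),
      abs_le.1 ((norm_snd_le (x, y)).trans (hR' _ hy))⟩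
  have m1 : Measurable fun x => volume (Prod.mk x ⁻¹' S) := measurable_measure_prodMk_left m
  have hs : ∀ x, Prod.mk x ⁻¹' S ⊆ Icc (-R) R := fun x y hy => (hR x y hy).2
  have ht : ∀ x, volume (Prod.mk x ⁻¹' S) ≠ ⊤ := fun x =>
    ne_top_of_le_ne_top measure_Icc_lt_top.ne (measure_mono (hs x))
  refine ⟨m1.ennreal_toReal, ht, fun x => (isBounded_Icc _ _).subset (hs x),
    ⟨volume.real (Icc (-R) R), ?_⟩, (isBounded_Icc (-R) R).subset fun x hx => ?_, fun c hc => ?_⟩
  · rintro _ ⟨x, rfl⟩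
    exact measureReal_mono (hs x) measure_Icc_lt_top.ne
  · obtain ⟨y, hy⟩ := nonempty_of_measureReal_ne_zero (ne_of_gt hx)
    exact (hR x y hy).1
  · have e : volume S = ∫⁻ x, volume (Prod.mk x ⁻¹' S) := by
      rw [Measure.volume_eq_prod, Measure.prod_apply m]
    simp only [ENNReal.ofReal_div_of_pos hc, ofReal_measureReal (ht _),
      ofReal_measureReal hb.measure_lt_top.ne, e]
    simp only [div_eq_mul_inv]
    rw [lintegral_mul_const _ m1]

theorem W1_pos {S : Set (ℝ × ℝ)} (m : MeasurableSet S) (hb : Bornology.IsBounded S)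
    (h : volume.real S ≠ 0) : 0 < sSup (range fun x => volume.real (Prod.mk x ⁻¹' S)) := by
  obtain ⟨-, -, -, a4, -, a6⟩ := W1_data m hb
  by_contra hc
  have h1 : ∀ x, volume.real (Prod.mk x ⁻¹' S) = 0 := fun x =>
    le_antisymm ((le_csSup a4 ⟨x, rfl⟩).trans (not_lt.1 hc)) measureReal_nonneg
  have h2 := a6 1 one_pos
  simp only [h1, div_one, ENNReal.ofReal_zero, lintegral_zero] at h2
  exact h (le_antisymm (ENNReal.ofReal_eq_zero.1 h2.symm) measureReal_nonneg)

theorem W1_tr {B C : Set (ℝ × ℝ)} (bC : Bornology.IsBounded C) (a : ℝ × ℝ)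
    (h : ∀ b ∈ B, a + b ∈ C) : √(volume.real B) ≤ √(volume.real C) := by
  refine Real.sqrt_le_sqrt (ENNReal.toReal_mono bC.measure_lt_top.ne ?_)
  rw [← measure_preimage_add volume a C]
  exact measure_mono h

theorem bm2 {A B C : Set (ℝ × ℝ)} (hA : MeasurableSet A) (hB : MeasurableSet B)
    (hC : MeasurableSet C) (bA : Bornology.IsBounded A) (bB : Bornology.IsBounded B)
    (bC : Bornology.IsBounded C) (nA : A.Nonempty) (nB : B.Nonempty)
    (h : ∀ a ∈ A, ∀ b ∈ B, a + b ∈ C) :
    Real.sqrt (volume.real A) + Real.sqrt (volume.real B) ≤ Real.sqrt (volume.real C) := by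
  by_cases zA : volume.real A = 0
  · obtain ⟨a, ha⟩ := nA
    simpa [zA] using W1_tr bC a (h a ha)
  by_cases zB : volume.real B = 0
  · obtain ⟨b, hb⟩ := nB
    simpa [zB] using W1_tr bC b fun a ha => add_comm a b ▸ h a ha b hb
  obtain ⟨a1, a2, a3, a4, a5, a6⟩ := W1_data hA bA
  obtain ⟨b1, b2, b3, b4, b5, b6⟩ := W1_data hB bB
  obtain ⟨c1, c2, -, -, -, c6⟩ := W1_data hC bC
  have hα := W1_pos hA bA zA
  have hβ := W1_pos hB bB zB
  set α := sSup (range fun x => volume.real (Prod.mk x ⁻¹' A))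
  set β := sSup (range fun x => volume.real (Prod.mk x ⁻¹' B))
  have ex : ∀ {f : ℝ → ℝ}, 0 < sSup (range f) → ∀ t < 1, ∃ x, t < f x / sSup (range f) :=
    fun {f} h t ht => by
      obtain ⟨_, ⟨x, rfl⟩, hx⟩ := exists_lt_of_lt_csSup (range_nonempty f)
        (show t * sSup (range f) < sSup (range f) by nlinarith only [h, ht])
      exact ⟨x, (lt_div_iff₀ h).2 hx⟩
  have key := W1_fun (f := fun x => volume.real (Prod.mk x ⁻¹' A) / α)
    (g := fun x => volume.real (Prod.mk x ⁻¹' B) / β)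
    (h := fun x => volume.real (Prod.mk x ⁻¹' C) / (α + β))
    (a1.div_const _) (b1.div_const _) (c1.div_const _) (fun x => by positivity)
    (fun x => by positivity) (fun x => by positivity)
    (fun x => (div_le_one hα).2 (le_csSup a4 ⟨x, rfl⟩))
    (fun x => (div_le_one hβ).2 (le_csSup b4 ⟨x, rfl⟩)) (ex hα) (ex hβ)
    (a5.subset fun x hx => (div_pos_iff_of_pos_right hα).1 hx)
    (b5.subset fun x hx => (div_pos_iff_of_pos_right hβ).1 hx) (fun t x y ht h1 h2 => by
      rw [lt_div_iff₀ hα] at h1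
      rw [lt_div_iff₀ hβ] at h2
      rw [lt_div_iff₀ (add_pos hα hβ)]
      have h3 := W1_one (T := Prod.mk y ⁻¹' B) (U := Prod.mk (x + y) ⁻¹' C)
        (measurable_prodMk_left hB) (a3 x) (b3 y)
        (nonempty_of_measureReal_ne_zero (ne_of_gt ((mul_pos ht hα).trans h1)))
        (nonempty_of_measureReal_ne_zero (ne_of_gt ((mul_pos ht hβ).trans h2)))
        fun u hu v hv => h _ hu _ hv
      have h4 := ENNReal.toReal_mono (c2 _) h3
      rw [ENNReal.toReal_add (a2 x) (b2 y)] at h4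
      simp only [Measure.real] at h1 h2 ⊢
      linarith)
  rw [a6 _ hα, b6 _ hβ, c6 _ (add_pos hα hβ), ← ENNReal.ofReal_add (by positivity) (by positivity),
    ENNReal.ofReal_le_ofReal_iff (by positivity), le_div_iff₀ (add_pos hα hβ)] at key
  refine Real.le_sqrt_of_sq_le (le_trans ?_ key)
  rw [← Real.sq_sqrt (measureReal_nonneg (μ := volume) (s := A)),
    ← Real.sq_sqrt (measureReal_nonneg (μ := volume) (s := B)), Real.sqrt_sq (Real.sqrt_nonneg _),
    Real.sqrt_sq (Real.sqrt_nonneg _)]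
  set p := √(volume.real A)
  set q := √(volume.real B)
  have e : (p ^ 2 / α + q ^ 2 / β) * (α + β) - (p + q) ^ 2 = (p * β - q * α) ^ 2 / (α * β) := by
    field_simp; ring
  have : 0 ≤ (p * β - q * α) ^ 2 / (α * β) := by positivity
  linarith only [e, this]

theorem mar_meas {S : Set (ℝ × ℝ × ℝ)} (hS : MeasurableSet S) : Measurable (mar S) :=
  (measurable_measure_prodMk_left hS).ennreal_toReal

theorem mar_bdd {S : Set (ℝ × ℝ × ℝ)} {B : ℝ} (hB : 0 ≤ B) (h : ∀ p ∈ S, ‖p‖ ≤ B) (x : ℝ) :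
    0 ≤ mar S x ∧ mar S x ≤ 4 * B ^ 2 ∧ (B < |x| → mar S x = 0) := by
  refine ⟨measureReal_nonneg, ?_, fun hx => ?_⟩
  · have h1 : Prod.mk x ⁻¹' S ⊆ Icc (-B) B ×ˢ Icc (-B) B := fun q hq =>
      ⟨abs_le.1 ((norm_fst_le q).trans ((norm_snd_le (x, q)).trans (h _ hq))),
        abs_le.1 ((norm_snd_le q).trans ((norm_snd_le (x, q)).trans (h _ hq)))⟩
    refine (measureReal_mono h1 (isCompact_Icc.prod isCompact_Icc).measure_lt_top.ne).trans_eq ?_
    rw [Measure.volume_eq_prod, measureReal_prod_prod, Real.volume_real_Icc_of_le (by linarith)]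
    ring
  · rw [mar, eq_empty_of_forall_notMem (s := Prod.mk x ⁻¹' S) fun q hq =>
      absurd ((norm_fst_le (x, q)).trans (h _ hq)) (not_le.2 hx), measureReal_empty]

theorem W1_fin {S : Set (ℝ × ℝ × ℝ)} (hb : Bornology.IsBounded S) (x : ℝ) :
    Bornology.IsBounded (Prod.mk x ⁻¹' S) :=
  hb.image_snd.subset fun q hq => ⟨(x, q), hq, rfl⟩

theorem mar_setIntegral {S : Set (ℝ × ℝ × ℝ)} (hS : MeasurableSet S) (hb : Bornology.IsBounded S)
    {U : Set ℝ} (hU : MeasurableSet U) :
    ∫ x in U, mar S x = volume.real (S ∩ {p | p.1 ∈ U}) := by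
  unfold mar Measure.real
  rw [integral_toReal (measurable_measure_prodMk_left hS).aemeasurable
    (Eventually.of_forall fun x => (W1_fin hb x).measure_lt_top), Measure.volume_eq_prod ℝ (ℝ × ℝ),
    Measure.prod_apply (s := S ∩ {p | p.1 ∈ U}) (hS.inter (measurable_fst hU)),
    ← lintegral_indicator hU]
  congr 2
  funext x
  by_cases hx : x ∈ U <;> simp [hx, preimage]

theorem mar_diff {S S' : Set (ℝ × ℝ × ℝ)} (hS : MeasurableSet S) (hS' : MeasurableSet S')
    (hb : Bornology.IsBounded S) (hb' : Bornology.IsBounded S') :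
    ∫ x, |mar S x - mar S' x| ≤ volume.real (S ∆ S') := by
  have h1 : MeasurableSet (S ∆ S') := hS.symmDiff hS'
  have h2 : Bornology.IsBounded (S ∆ S') := (hb.union hb').subset symmDiff_subset_union
  have h3 := mar_setIntegral h1 h2 MeasurableSet.univ
  simp only [Measure.restrict_univ, mem_univ, ofPred_true, inter_univ] at h3
  rw [← h3]
  refine integral_mono_of_nonneg (Eventually.of_forall fun x => abs_nonneg _)
    (integrable_toReal_of_lintegral_ne_top (measurable_measure_prodMk_left h1).aemeasurable ?_)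
    (Eventually.of_forall fun x => ?_)
  · rw [← Measure.prod_apply h1]
    exact h2.measure_lt_top.ne
  · exact abs_measureReal_sub_le_measureReal_symmDiff'
      (measurable_prodMk_left hS).nullMeasurableSet (measurable_prodMk_left hS').nullMeasurableSet
      (W1_fin hb x).measure_lt_top.ne (W1_fin hb' x).measure_lt_top.ne

theorem W1_smul (S : Set (ℝ × ℝ)) {a : ℝ} (ha : 0 ≤ a) :
    √(volume.real (a • S)) = a * √(volume.real S) := by
  rw [Measure.real, Measure.addHaar_smul, ENNReal.toReal_mul, ENNReal.toReal_ofReal (abs_nonneg _),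
    show Module.finrank ℝ (ℝ × ℝ) = 2 by simp, abs_of_nonneg (sq_nonneg a),
    Real.sqrt_mul (sq_nonneg a), Real.sqrt_sq ha, Measure.real]

theorem W1_conc {W : Set (ℝ × ℝ × ℝ)} (hc : IsCompact W) (hv : Convex ℝ W) :
    ConcaveOn ℝ (Prod.fst '' W) fun x => √(mar W x) := by
  have h1 : ∀ x, IsCompact (Prod.mk x ⁻¹' W) := fun x => Metric.isCompact_of_isClosed_isBounded
    (hc.isClosed.preimage (Continuous.prodMk_right x)) (W1_fin hc.isBounded x)
  refine ⟨hv.linear_image (LinearMap.fst ℝ ℝ (ℝ × ℝ)), ?_⟩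
  rintro _ ⟨p, hp, rfl⟩ _ ⟨q, hq, rfl⟩ a b ha hb hab
  have h := bm2 ((h1 p.1).smul a).measurableSet ((h1 q.1).smul b).measurableSet
    (h1 (a • p.1 + b • q.1)).measurableSet ((h1 p.1).smul a).isBounded ((h1 q.1).smul b).isBounded
    (h1 _).isBounded ⟨_, p.2, hp, rfl⟩ ⟨_, q.2, hq, rfl⟩ (by
      rintro _ ⟨u, hu, rfl⟩ _ ⟨v, hv', rfl⟩
      exact hv hu hv' ha hb hab)
  rwa [W1_smul _ ha, W1_smul _ hb] at h

theorem prof {W : Set (ℝ × ℝ × ℝ)} (hc : IsCompact W) (hv : Convex ℝ W)
    (h0 : W ∈ 𝓝 (0 : ℝ × ℝ × ℝ)) :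
    ∃ α α', Prof (mar W) α α' ∧ ∀ y ∈ Set.Icc α α', ∃ q, (y, q) ∈ W := by
  have h1 := W1_conc hc hv
  have h2 := eq_Icc_of_connected_compact
    (h1.1.isConnected ⟨_, 0, mem_of_mem_nhds h0, rfl⟩) (hc.image continuous_fst)
  have h3 : Prod.fst '' W ∈ 𝓝 (0 : ℝ) := isOpenMap_fst.image_mem_nhds h0
  generalize sInf (Prod.fst '' W) = α, sSup (Prod.fst '' W) = α' at h2
  rw [h2] at h1 h3
  obtain ⟨h4, h5⟩ := Icc_mem_nhds_iff.1 h3
  have h6 : 0 < √(mar W 0) := Real.sqrt_pos.2 (ENNReal.toReal_pos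
    (Measure.measure_pos_of_mem_nhds volume
      ((Continuous.prodMk_right (0 : ℝ)).continuousAt.preimage_mem_nhds h0)).ne'
    (W1_fin hc.isBounded 0).measure_lt_top.ne)
  have h7 : ∀ e ∈ Icc α α', ∀ t, 0 ≤ t → t < 1 → 0 < mar W (t * e) := fun e he t h ht => by
    have h8 := h1.2 ⟨h4.le, h5.le⟩ he (sub_pos.2 ht).le h (sub_add_cancel 1 t)
    simp only [smul_eq_mul, mul_zero, zero_add] at h8
    exact Real.sqrt_pos.1 (lt_of_lt_of_le (add_pos_of_pos_of_nonneg (mul_pos (sub_pos.2 ht) h6)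
      (mul_nonneg h (Real.sqrt_nonneg _))) h8)
  obtain ⟨R, hR⟩ := hc.isBounded.exists_norm_le
  have hR0 : 0 ≤ R := (norm_nonneg _).trans (hR 0 (mem_of_mem_nhds h0))
  refine ⟨α, α', ⟨h4.trans h5, mar_meas hc.measurableSet, ?_, fun y hy => ?_, fun y hy => ?_,
    4 * R ^ 2, fun y => ⟨(mar_bdd hR0 hR y).1, (mar_bdd hR0 hR y).2.1⟩⟩, fun y hy => ?_⟩
  · refine (((h1.subset Ioo_subset_Icc_self (convex_Ioo _ _)).continuousOn isOpen_Ioo).pow 2).congr
      fun x _ => (Real.sq_sqrt (mar_bdd hR0 hR x).1).symm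
  · rcases le_total 0 y with h | h
    · simpa [h5.ne'] using h7 α' ⟨(h4.trans h5).le, le_rfl⟩ (y / α') (div_nonneg h h5.le)
        ((div_lt_one h5).2 hy.2)
    · simpa [h4.ne] using h7 α ⟨le_rfl, (h4.trans h5).le⟩ (y / α) (div_nonneg_of_nonpos h h4.le)
        ((div_lt_one_of_neg h4).2 hy.1)
  · rw [mar, eq_empty_of_forall_notMem (s := Prod.mk y ⁻¹' W) fun q hq =>
      hy (h2 ▸ ⟨(y, q), hq, rfl⟩), measureReal_empty]
  · obtain ⟨p, hp, rfl⟩ := h2 ▸ hy
    exact ⟨p.2, hp⟩

end Pool.Agent.Work.MP_b59478_pr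
end
end

-- merged part: Pool.Agent.Work.MP_b59478_pr.W2
section
/-! slice: let s be the set of points where T is differentiable (almost every point, as T + K id is
monotone) and mar A > 0. The map x to x + t T x is injective (strictly monotone, t K <= 1/2) with
derivative 1 + t T' > 0 on s, so the integral of h = mar (A + t W) is at least the integral over s of
h (x + t T x) (1 + t T') (lintegral_image_eq_lintegral_abs_deriv_mul). The slice of A + t W at
x + t T x contains the sum of the slice of A at x and t times the slice of W at T x, so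
h >= (sqrt a + t sqrt g) ^ 2 by bm2. Expand, with T' >= -K and T' >= min T' M.
Lam_lip: |sqrt u - sqrt u'| <= eps + |u - u'| / eps, and |min T' M| <= K + M almost everywhere.
-/

set_option autoImplicit false

noncomputable section

namespace Pool.Agent.Work.MP_b59478_pr

open Classical Filter Topology MeasureTheory
open scoped symmDiff Pointwise

theorem W2_deriv_ge {T : ℝ → ℝ} {K : ℝ} (hK : 0 ≤ K) (hmono : Monotone fun x => T x + K * x)
    (x : ℝ) : -K ≤ deriv T x := by
  by_cases h : DifferentiableAt ℝ T x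
  · have h1 : HasDerivAt (fun x => T x + K * x) (deriv T x + K * 1) x :=
      h.hasDerivAt.add ((hasDerivAt_id x).const_mul K)
    have h2 := hmono.deriv_nonneg (x := x)
    rw [h1.deriv] at h2
    linarith
  · rw [deriv_zero_of_not_differentiableAt h]
    linarith

theorem W2_meas {T : ℝ → ℝ} {K : ℝ} (hmono : Monotone fun x => T x + K * x) : Measurable T := by
  have : T = fun x => (T x + K * x) - K * x := by funext x; ring
  rw [this]
  exact hmono.measurable.sub (measurable_id.const_mul K)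

theorem W2_ae_diff {T : ℝ → ℝ} {K : ℝ} (hmono : Monotone fun x => T x + K * x) :
    ∀ᵐ x, DifferentiableAt ℝ T x := by
  filter_upwards [hmono.ae_differentiableAt] with x hx
  have : T = fun x => (T x + K * x) - K * x := by funext x; ring
  rw [this]
  exact hx.sub (differentiableAt_id.const_mul K)

theorem W2_integrable {f : ℝ → ℝ} {B C : ℝ} (hf : Measurable f) (h1 : ∀ x, |f x| ≤ C)
    (h2 : ∀ x, B < |x| → f x = 0) : Integrable f := by
  have h3 : IntegrableOn f (Set.Icc (-B) B) :=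
    Measure.integrableOn_of_bounded (M := C) (by simp) hf.aestronglyMeasurable
      (Eventually.of_forall fun x => h1 x)
  refine (integrableOn_iff_integrable_of_support_subset ?_).1 h3
  intro x hx
  by_contra h
  apply hx
  apply h2
  by_contra h'
  exact h (abs_le.1 (not_lt.1 h'))

theorem W2_min_abs {d K M : ℝ} (hK : 0 ≤ K) (hM : 0 ≤ M) (h : -K ≤ d) : |min d M| ≤ K + M := by
  rw [abs_le]
  constructor
  · have : -K ≤ min d M := le_min h (by linarith)
    linarith
  · have := min_le_right d M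
    linarith

theorem W2_Lam_integrable {a g T : ℝ → ℝ} {B G K M : ℝ} (ha : Measurable a) (hg : Measurable g)
    (hG : 0 ≤ G) (h1 : ∀ x, 0 ≤ a x ∧ a x ≤ G ∧ (B < |x| → a x = 0))
    (h3 : ∀ y, 0 ≤ g y ∧ g y ≤ G) (hK : 0 ≤ K) (hM : 0 ≤ M)
    (hmono : Monotone fun x => T x + K * x) :
    Integrable fun x => 2 * Real.sqrt (a x * g (T x)) + a x * min (deriv T x) M := by
  refine W2_integrable (B := B) (C := 2 * G + G * (K + M)) ?_ (fun x => ?_) fun x hx => ?_
  · exact (((ha.mul (hg.comp (W2_meas hmono))).sqrt).const_mul 2).add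
      (ha.mul ((measurable_deriv T).min measurable_const))
  · have e1 : Real.sqrt (a x * g (T x)) ≤ G := by
      rw [Real.sqrt_le_left hG]
      have := mul_le_mul (h1 x).2.1 (h3 (T x)).2 (h3 (T x)).1 hG
      nlinarith only [this]
    have e2 : |a x * min (deriv T x) M| ≤ G * (K + M) := by
      rw [abs_mul, abs_of_nonneg (h1 x).1]
      exact mul_le_mul (h1 x).2.1 (W2_min_abs hK hM (W2_deriv_ge hK hmono x)) (abs_nonneg _) hG
    refine (abs_add_le _ _).trans (add_le_add ?_ e2)
    rw [abs_of_nonneg (by positivity)]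
    linarith
  · simp [(h1 x).2.2 hx]

theorem W2_slice_bdd {S : Set (ℝ × ℝ × ℝ)} {B : ℝ} (h : ∀ p ∈ S, ‖p‖ ≤ B) (x : ℝ) :
    Bornology.IsBounded (Prod.mk x ⁻¹' S) := by
  rw [isBounded_iff_forall_norm_le]
  exact ⟨B, fun q hq => (norm_snd_le (x, q)).trans (h _ hq)⟩

theorem W2_point {A W : Set (ℝ × ℝ × ℝ)} (hA : IsOpen A) (hW : IsCompact W) {B t : ℝ}
    (hAB : ∀ p ∈ A, ‖p‖ ≤ B) (hWB : ∀ p ∈ W, ‖p‖ ≤ B)
    (hCB : ∀ p ∈ A + t • W, ‖p‖ ≤ B + t * B) (ht : 0 < t) {x y : ℝ} (hx : 0 < mar A x)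
    (hy : ∃ q, (y, q) ∈ W) :
    (Real.sqrt (mar A x) + t * Real.sqrt (mar W y)) ^ 2 ≤ mar (A + t • W) (x + t * y) := by
  have hC : IsOpen (A + t • W) := hA.add_right
  have mA : MeasurableSet (Prod.mk x ⁻¹' A) := measurable_prodMk_left hA.measurableSet
  have mW : MeasurableSet (Prod.mk y ⁻¹' W) := measurable_prodMk_left hW.isClosed.measurableSet
  have mC : MeasurableSet (Prod.mk (x + t * y) ⁻¹' (A + t • W)) :=
    measurable_prodMk_left hC.measurableSet
  have nA : (Prod.mk x ⁻¹' A).Nonempty := by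
    rw [Set.nonempty_iff_ne_empty]
    intro h
    simp [mar, h] at hx
  have nW : (t • (Prod.mk y ⁻¹' W)).Nonempty := by
    obtain ⟨q, hq⟩ := hy
    exact ⟨t • q, q, hq, rfl⟩
  have h1 := bm2 mA (mW.const_smul₀ t) mC (W2_slice_bdd hAB x) ((W2_slice_bdd hWB y).smul₀ t)
    (W2_slice_bdd hCB _) nA nW (by
      rintro p hp _ ⟨q, hq, rfl⟩
      exact ⟨(x, p), hp, t • (y, q), ⟨(y, q), hq, rfl⟩, rfl⟩)
  have h2 : volume.real (t • (Prod.mk y ⁻¹' W)) = t ^ 2 * mar W y := by
    simp only [Measure.real, mar]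
    rw [Measure.addHaar_smul, ENNReal.toReal_mul, ENNReal.toReal_ofReal (abs_nonneg _)]
    simp [abs_of_pos ht]
  rw [h2, Real.sqrt_mul (by positivity), Real.sqrt_sq ht.le] at h1
  have h3 : 0 ≤ mar (A + t • W) (x + t * y) := measureReal_nonneg
  calc _ ≤ Real.sqrt (mar (A + t • W) (x + t * y)) ^ 2 :=
        pow_le_pow_left₀ (by positivity) h1 2
    _ = _ := Real.sq_sqrt h3

theorem slice {A W : Set (ℝ × ℝ × ℝ)} (hA : IsOpen A) (hW : IsCompact W) {B K M t : ℝ}
    (hB : 0 ≤ B) (hAB : ∀ p ∈ A, ‖p‖ ≤ B) (hWB : ∀ p ∈ W, ‖p‖ ≤ B) {T : ℝ → ℝ} (hK : 0 ≤ K)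
    (hM : 0 ≤ M) (hT : ∀ x, ∃ q, (T x, q) ∈ W) (hmono : Monotone fun x => T x + K * x)
    (ht : 0 < t) (htK : t * K ≤ 1 / 2) :
    volume.real A + t * Lam (mar A) (mar W) T M - 16 * K * t ^ 2 * B ^ 3 ≤
      volume.real (A + t • W) := by
  have hC : IsOpen (A + t • W) := hA.add_right
  have hCB : ∀ p ∈ A + t • W, ‖p‖ ≤ B + t * B := by
    rintro _ ⟨p, hp, _, ⟨q, hq, rfl⟩, rfl⟩
    refine (norm_add_le _ _).trans (add_le_add (hAB p hp) ?_)
    rw [norm_smul, Real.norm_of_nonneg ht.le]
    exact mul_le_mul_of_nonneg_left (hWB q hq) ht.le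
  have ma := mar_meas hA.measurableSet
  have mg := mar_meas hW.isClosed.measurableSet
  have mh := mar_meas hC.measurableSet
  have ba := mar_bdd hB hAB
  have bg := mar_bdd hB hWB
  have bh := mar_bdd (by positivity) hCB
  have ia : Integrable (mar A) := W2_integrable ma
    (fun x => by rw [abs_of_nonneg (ba x).1]; exact (ba x).2.1) fun x => (ba x).2.2
  have ih : Integrable (mar (A + t • W)) := W2_integrable mh
    (fun x => by rw [abs_of_nonneg (bh x).1]; exact (bh x).2.1) fun x => (bh x).2.2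
  have iL := W2_Lam_integrable ma mg (by positivity : 0 ≤ 4 * B ^ 2) ba
    (fun y => ⟨(bg y).1, (bg y).2.1⟩) hK hM hmono
  have vA : volume.real A = ∫ x, mar A x := by
    have := mar_setIntegral hA.measurableSet (isBounded_iff_forall_norm_le.2 ⟨_, hAB⟩)
      MeasurableSet.univ
    simpa using this.symm
  have vC : volume.real (A + t • W) = ∫ x, mar (A + t • W) x := by
    have := mar_setIntegral hC.measurableSet (isBounded_iff_forall_norm_le.2 ⟨_, hCB⟩)
      MeasurableSet.univ
    simpa using this.symm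
  set s : Set ℝ := {x | DifferentiableAt ℝ T x} ∩ {x | 0 < mar A x} with hs
  have ms : MeasurableSet s :=
    (measurableSet_of_differentiableAt ℝ T).inter (measurableSet_lt measurable_const ma)
  have hsub : s ⊆ Set.Icc (-B) B := by
    intro x hx
    rw [Set.mem_Icc, ← abs_le]
    by_contra h
    exact hx.2.ne' ((ba x).2.2 (not_le.1 h))
  have vs : volume s ≤ ENNReal.ofReal (2 * B) := by
    refine (measure_mono hsub).trans ?_
    rw [Real.volume_Icc]
    apply le_of_eq
    congr 1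
    ring
  have vs' : volume s ≠ ⊤ := ne_top_of_le_ne_top ENNReal.ofReal_ne_top vs
  have vs'' : volume.real s ≤ 2 * B := ENNReal.toReal_le_of_le_ofReal (by positivity) vs
  have hder : ∀ x ∈ s, HasDerivWithinAt (fun x => x + t * T x) (1 + t * deriv T x) s x :=
    fun x hx => ((hasDerivAt_id x).add (hx.1.hasDerivAt.const_mul t)).hasDerivWithinAt
  have hinj : Set.InjOn (fun x => x + t * T x) s := by
    refine (StrictMono.injective fun x y hxy => ?_).injOn
    have h1 := hmono hxy.le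
    simp only at h1 ⊢
    have h2 : t * (T x + K * x) ≤ t * (T y + K * y) := mul_le_mul_of_nonneg_left h1 ht.le
    nlinarith only [hxy, h2, htK]
  have e1 := integral_image_eq_integral_abs_deriv_smul ms hder hinj (mar (A + t • W))
  have i1 := (integrableOn_image_iff_integrableOn_abs_deriv_smul ms hder hinj
    (mar (A + t • W))).1 ih.integrableOn
  have e2 : ∫ x in (fun x => x + t * T x) '' s, mar (A + t • W) x ≤ ∫ x, mar (A + t • W) x :=
    setIntegral_le_integral ih (Eventually.of_forall fun x => (bh x).1)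
  let f : ℝ → ℝ := fun x => mar A x +
    t * (2 * Real.sqrt (mar A x * mar W (T x)) + mar A x * min (deriv T x) M)
  have i2 : Integrable f := ia.add (iL.const_mul t)
  have e3 : ∫ x, f x = volume.real A + t * Lam (mar A) (mar W) T M := by
    rw [vA, Lam, integral_add ia (iL.const_mul t), integral_const_mul]
  have e4 : ∫ x in s, f x = ∫ x, f x := by
    refine setIntegral_eq_integral_of_ae_compl_eq_zero ?_
    filter_upwards [W2_ae_diff hmono] with x hx hxs
    have : mar A x = 0 := by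
      by_contra h
      exact hxs ⟨hx, lt_of_le_of_ne (ba x).1 (Ne.symm h)⟩
    simp [f, this]
  have e5 : ∫ x in s, f x ≤ ∫ x in s, (|1 + t * deriv T x| • mar (A + t • W) (x + t * T x) +
      8 * K * t ^ 2 * B ^ 2) := by
    refine setIntegral_mono_on i2.integrableOn (i1.add (integrableOn_const vs')) ms fun x hx => ?_
    have p1 := W2_point hA hW hAB hWB hCB ht hx.2 (hT x)
    have p2 := W2_deriv_ge hK hmono x
    have p3 : -K ≤ min (deriv T x) M := le_min p2 (by linarith only [hK, hM])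
    have p4 : min (deriv T x) M ≤ deriv T x := min_le_left _ _
    set m := min (deriv T x) M with hm
    have p5 : 0 ≤ 1 + t * m := by nlinarith only [htK, ht, p3]
    have p6 : 1 + t * m ≤ 1 + t * deriv T x := by nlinarith only [ht, p4]
    rw [abs_of_nonneg (p5.trans p6), smul_eq_mul]
    have p7 : (1 + t * m) * (Real.sqrt (mar A x) + t * Real.sqrt (mar W (T x))) ^ 2 ≤
        (1 + t * deriv T x) * mar (A + t • W) (x + t * T x) :=
      mul_le_mul p6 p1 (by (clear * - ; positivity)) (p5.trans p6)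
    simp only [f]
    rw [← hm, Real.sqrt_mul (ba x).1]
    have q1 := Real.sq_sqrt (ba x).1
    have q2 := Real.sq_sqrt (bg (T x)).1
    set u := Real.sqrt (mar A x) with hu
    set v := Real.sqrt (mar W (T x)) with hv
    have u0 : 0 ≤ u := Real.sqrt_nonneg _
    have v0 : 0 ≤ v := Real.sqrt_nonneg _
    have uv : u * v ≤ 4 * B ^ 2 := by
      linarith only [(ba x).2.1, (bg (T x)).2.1, q1, q2, sq_nonneg (u - v)]
    rw [← q1]
    have r1 : 0 ≤ t ^ 2 * v ^ 2 * (1 + t * m) := by (clear * - ht p5; positivity)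
    have r2 : -(K * (4 * B ^ 2)) ≤ m * (u * v) := by
      have : 0 ≤ u * v := by (clear * - ; positivity)
      nlinarith only [hK, uv, p3, this]
    have r3 : t ^ 2 * (-(K * (4 * B ^ 2))) ≤ t ^ 2 * (m * (u * v)) :=
      mul_le_mul_of_nonneg_left r2 (by positivity)
    nlinarith only [p7, r1, r3]
  rw [integral_add i1 (integrableOn_const vs'), ← e1, setIntegral_const, smul_eq_mul] at e5
  have e6 : volume.real s * (8 * K * t ^ 2 * B ^ 2) ≤ 2 * B * (8 * K * t ^ 2 * B ^ 2) :=
    mul_le_mul_of_nonneg_right vs'' (by positivity)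
  rw [vC, ← e3, ← e4]
  nlinarith only [e2, e5, e6]

theorem W2_sqrt {u v ε : ℝ} (hu : 0 ≤ u) (hv : 0 ≤ v) (hε : 0 < ε) :
    Real.sqrt u - Real.sqrt v ≤ ε + |u - v| / ε := by
  have h0 : 0 ≤ |u - v| / ε := by positivity
  by_cases h : Real.sqrt u - Real.sqrt v ≤ ε
  · linarith
  · push Not at h
    have h1 := Real.sq_sqrt hu
    have h2 := Real.sq_sqrt hv
    have h3 := Real.sqrt_nonneg v
    have h4 : (Real.sqrt u - Real.sqrt v) * ε ≤ |u - v| := by
      refine le_trans ?_ (le_abs_self _)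
      nlinarith only [h1, h2, hε, h, h3]
    have h5 : Real.sqrt u - Real.sqrt v ≤ |u - v| / ε := (le_div_iff₀ hε).2 h4
    linarith

theorem Lam_lip {a a' g T : ℝ → ℝ} {B G K M ε : ℝ} (ha : Measurable a) (ha' : Measurable a')
    (hg : Measurable g) (hB : 0 ≤ B) (hG : 0 ≤ G)
    (h1 : ∀ x, 0 ≤ a x ∧ a x ≤ G ∧ (B < |x| → a x = 0))
    (h2 : ∀ x, 0 ≤ a' x ∧ a' x ≤ G ∧ (B < |x| → a' x = 0)) (h3 : ∀ y, 0 ≤ g y ∧ g y ≤ G)
    (hK : 0 ≤ K) (hM : 0 ≤ M) (hmono : Monotone fun x => T x + K * x) (hε : 0 < ε) :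
    Lam a g T M ≤ Lam a' g T M + 4 * B * Real.sqrt G * ε +
      (2 * Real.sqrt G / ε + K + M) * ∫ x, |a x - a' x| := by
  have i1 := W2_Lam_integrable ha hg hG h1 h3 hK hM hmono
  have i2 := W2_Lam_integrable ha' hg hG h2 h3 hK hM hmono
  have ia : Integrable a := W2_integrable ha
    (fun x => by rw [abs_of_nonneg (h1 x).1]; exact (h1 x).2.1) fun x => (h1 x).2.2
  have ia' : Integrable a' := W2_integrable ha'
    (fun x => by rw [abs_of_nonneg (h2 x).1]; exact (h2 x).2.1) fun x => (h2 x).2.2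
  have i3 : Integrable fun x => |a x - a' x| := (ia.sub ia').abs
  have i4 : Integrable ((Set.Icc (-B) B).indicator fun _ : ℝ => 2 * Real.sqrt G * ε) :=
    (integrable_indicator_iff measurableSet_Icc).2 (integrableOn_const (by simp))
  have e4 : ∫ x, (Set.Icc (-B) B).indicator (fun _ : ℝ => 2 * Real.sqrt G * ε) x =
      4 * B * Real.sqrt G * ε := by
    rw [integral_indicator measurableSet_Icc, setIntegral_const, Real.volume_real_Icc_of_le
      (by linarith), smul_eq_mul]
    ring
  have i5 : Integrable fun x => 2 * Real.sqrt (a' x * g (T x)) + a' x * min (deriv T x) M +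
      (Set.Icc (-B) B).indicator (fun _ : ℝ => 2 * Real.sqrt G * ε) x := i2.add i4
  rw [← e4, ← integral_const_mul, Lam, Lam, ← integral_add i2 i4,
    ← integral_add i5 (i3.const_mul _)]
  refine integral_mono i1 (i5.add (i3.const_mul _)) fun x => ?_
  beta_reduce
  by_cases hx : x ∈ Set.Icc (-B) B
  · simp only [Set.indicator_of_mem hx]
    rw [Real.sqrt_mul (h1 x).1, Real.sqrt_mul (h2 x).1]
    have p1 := W2_sqrt (h1 x).1 (h2 x).1 hε
    have p2 := W2_min_abs hK hM (W2_deriv_ge hK hmono x)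
    have p3 : Real.sqrt (g (T x)) ≤ Real.sqrt G := Real.sqrt_le_sqrt (h3 _).2
    have p4 : 0 ≤ Real.sqrt (g (T x)) := Real.sqrt_nonneg _
    have p5 : (a x - a' x) * min (deriv T x) M ≤ |a x - a' x| * (K + M) := by
      refine (le_abs_self _).trans ?_
      rw [abs_mul]
      exact mul_le_mul_of_nonneg_left p2 (abs_nonneg _)
    have p6 : (Real.sqrt (a x) - Real.sqrt (a' x)) * Real.sqrt (g (T x)) ≤
        (ε + |a x - a' x| / ε) * Real.sqrt G :=
      (mul_le_mul_of_nonneg_right p1 p4).trans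
        (mul_le_mul_of_nonneg_left p3 (by positivity))
    have p7 : (2 * Real.sqrt G / ε + K + M) * |a x - a' x| =
        2 * (|a x - a' x| / ε * Real.sqrt G) + |a x - a' x| * (K + M) := by ring
    rw [p7]
    nlinarith only [p5, p6]
  · have hx' : B < |x| := by
      by_contra h
      exact hx (abs_le.1 (not_lt.1 h))
    simp [Set.indicator_of_notMem hx, (h1 x).2.2 hx', (h2 x).2.2 hx']

end Pool.Agent.Work.MP_b59478_pr
end
end

-- merged part: Pool.Agent.Work.MP_b59478_pr.W3
section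
/-! Smoothing.
mollify: f = rho * 1_E with rho a normed ContDiffBump of radius eps <= 1 (convolution); the L1
distance to 1_E tends to 0 (dominated convergence with
ContDiffBump.ae_convolution_tendsto_right_of_locallyIntegrable). Take a finite net of W and a
measurable function wx with values in the net (0 off boxE 3) maximising - fderiv f x; put
H x = - fderiv f x (wx x) + eps' * norm (fderiv f x). The field phi y = integral of rho (x - y) wx x
is smooth with compact support and has values in W (Convex.integral_mem, W closed, 0 in W), and by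
Fubini the integral of - fderiv f x (wx x) equals the integral over E of dv phi.
minkowski: by uniform continuity of fderiv f, for small t and w in W,
f (x - t w) <= f x + t H x + t eps 1_box x =: G x, and G >= 0 (w = 0); so (s < f) + t W is inside
(s < G), and the layer-cake formula gives the bound by the integral of G. The integrand is antitone
in s, hence measurable.
-/

set_option autoImplicit false

noncomputable section

namespace Pool.Agent.Work.MP_b59478_pr

open Classical Filter Topology MeasureTheory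
open scoped symmDiff Pointwise

/-- The mollified indicator. -/
def W3_f (ρ : ContDiffBump (0 : E3)) (E : Set E3) (x : E3) : ℝ :=
  ∫ t, ρ.normed volume t * E.indicator 1 (x - t)

theorem W3_eq (ρ : ContDiffBump (0 : E3)) (E : Set E3) : W3_f ρ E =
    convolution (ρ.normed volume) (E.indicator 1) (ContinuousLinearMap.lsmul ℝ ℝ) volume := rfl

theorem W3_ind (E : Set E3) (x : E3) :
    0 ≤ E.indicator (1 : E3 → ℝ) x ∧ E.indicator (1 : E3 → ℝ) x ≤ 1 := by
  by_cases h : x ∈ E <;> simp [h]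

theorem W3_loc {E : Set E3} (hE : MeasurableSet E) :
    LocallyIntegrable (E.indicator (1 : E3 → ℝ)) volume :=
  (locallyIntegrable_const (1 : ℝ)).indicator hE

theorem W3_smooth (ρ : ContDiffBump (0 : E3)) {E : Set E3} (hE : MeasurableSet E) :
    ContDiff ℝ 1 (W3_f ρ E) := by
  rw [W3_eq]
  exact ρ.hasCompactSupport_normed.contDiff_convolution_left _ ρ.contDiff_normed (W3_loc hE)

theorem W3_range (ρ : ContDiffBump (0 : E3)) (E : Set E3) (x : E3) :
    0 ≤ W3_f ρ E x ∧ W3_f ρ E x ≤ 1 := by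
  refine ⟨integral_nonneg fun t => mul_nonneg (ρ.nonneg_normed t) (W3_ind E _).1, ?_⟩
  rw [← ρ.integral_normed (μ := volume)]
  refine integral_mono_of_nonneg (Eventually.of_forall fun t =>
    mul_nonneg (ρ.nonneg_normed t) (W3_ind E _).1) ρ.integrable_normed
    (Eventually.of_forall fun t => mul_le_of_le_one_right (ρ.nonneg_normed t) (W3_ind E _).2)

theorem W3_supp (ρ : ContDiffBump (0 : E3)) (hρ : ρ.rOut ≤ 1) {E : Set E3} (hEb : E ⊆ boxE 2)
    (x : E3) (hx : W3_f ρ E x ≠ 0) : x ∈ boxE 3 := by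
  by_contra h
  refine hx (integral_eq_zero_of_ae (Eventually.of_forall fun t => ?_))
  by_contra h'
  obtain ⟨h1, h2⟩ := mul_ne_zero_iff.1 h'
  have h3 : t ∈ Metric.ball (0 : E3) ρ.rOut := by
    rw [← ρ.support_normed_eq (μ := volume)]
    exact h1
  have h4 := hEb (Set.mem_of_indicator_ne_zero h2)
  refine h fun i => ?_
  have h5 := h4 i
  have h6 := abs_coord_le t i
  rw [mem_ball_zero_iff] at h3
  have h7 : x i = (x - t) i + t i := by simp
  rw [h7]
  linarith only [hρ, h3, h5, h6, abs_add_le ((x - t) i) (t i)]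

theorem W3_close {E : Set E3} (hE : MeasurableSet E) (hEb : E ⊆ boxE 2) {η : ℝ} (hη : 0 < η) :
    ∃ ρ : ContDiffBump (0 : E3), ρ.rOut ≤ 1 ∧ ∫ x, |W3_f ρ E x - E.indicator 1 x| ≤ η := by
  let ρ : ℕ → ContDiffBump (0 : E3) := fun n =>
    ⟨1 / ((n : ℝ) + 1) / 2, 1 / ((n : ℝ) + 1), by positivity, half_lt_self (by positivity)⟩
  have h1 : ∀ n, (ρ n).rOut ≤ 1 := fun n => by
    change 1 / ((n : ℝ) + 1) ≤ 1
    rw [div_le_one (by positivity)]
    linarith [Nat.cast_nonneg (α := ℝ) n]
  have h2 := ContDiffBump.ae_convolution_tendsto_right_of_locallyIntegrable (φ := ρ) (l := atTop)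
    (K := 2) (μ := volume) tendsto_one_div_add_atTop_nhds_zero_nat
    (Eventually.of_forall fun n => by
      change 1 / ((n : ℝ) + 1) ≤ 2 * (1 / ((n : ℝ) + 1) / 2)
      linarith) (W3_loc hE)
  have h3 : Tendsto (fun n => ∫ x, |W3_f (ρ n) E x - E.indicator 1 x|) atTop
      (𝓝 (∫ _ : E3, (0 : ℝ))) := by
    refine tendsto_integral_of_dominated_convergence ((boxE 3).indicator 1) (fun n => ?_) ?_
      (fun n => Eventually.of_forall fun x => ?_) ?_
    · exact (((W3_smooth (ρ n) hE).continuous.measurable.sub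
        (measurable_one.indicator hE)).abs).aestronglyMeasurable
    · rw [integrable_indicator_iff (isCompact_boxE 3).measurableSet]
      exact integrableOn_const (isCompact_boxE 3).measure_lt_top.ne
    · rw [Real.norm_eq_abs, abs_abs]
      by_cases hx : x ∈ boxE 3
      · rw [Set.indicator_of_mem hx, abs_le]
        have := W3_range (ρ n) E x
        have := W3_ind E x
        simp only [Pi.one_apply]
        constructor <;> linarith
      · have a : W3_f (ρ n) E x = 0 := by
          by_contra h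
          exact hx (W3_supp _ (h1 n) hEb x h)
        have b : x ∉ E := fun h => hx fun i => (hEb h i).trans (by norm_num)
        rw [a, Set.indicator_of_notMem hx, Set.indicator_of_notMem b]
        simp
    · filter_upwards [h2] with x hx
      have := (hx.sub_const (E.indicator 1 x)).abs
      rwa [sub_self, abs_zero] at this
  rw [integral_zero] at h3
  obtain ⟨n, hn⟩ := (h3.eventually_le_const hη).exists
  exact ⟨ρ n, h1 n, hn⟩

theorem W3_sel {W : Set E3} (hc : IsCompact W) (hv : Convex ℝ W) (h0 : (0 : E3) ∈ W)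
    {g : E3 → E3 →L[ℝ] ℝ} (hg : Continuous g) (hz : ∀ x, x ∉ boxE 3 → g x = 0) {ε : ℝ}
    (hε : 0 < ε) : ∃ w, Fld w ∧ (∀ x, w x ∈ W) ∧ ∀ x, ∀ u ∈ W, g x u ≤ g x (w x) + ε := by
  obtain ⟨R, hR0, hR⟩ := hc.isBounded.exists_pos_norm_le
  obtain ⟨w, hw⟩ := exists_contMDiffMap_forall_mem_convex_of_local_const (n := 1)
    (modelWithCornersSelf ℝ E3)
    (t := fun x => {c | c ∈ W ∧ (∀ u ∈ W, g x u ≤ g x c + ε) ∧ (x ∉ boxE 4 → c = 0)})
    (fun x a ha b hb s t hs ht hst => ⟨hv ha.1 hb.1 hs ht hst, fun u hu => by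
      have h1 := mul_le_mul_of_nonneg_left (ha.2.1 u hu) hs
      have h2 := mul_le_mul_of_nonneg_left (hb.2.1 u hu) ht
      have h3 : g x u = (s + t) * g x u := by rw [hst, one_mul]
      have h4 : ε = (s + t) * ε := by rw [hst, one_mul]
      rw [map_add, map_smul, map_smul, smul_eq_mul, smul_eq_mul]
      linarith, fun hx => by rw [ha.2.2 hx, hb.2.2 hx]; simp⟩) (fun x => by
      by_cases hx : x ∈ boxE 3
      · obtain ⟨c, hcW, hmax⟩ := hc.exists_isMaxOn ⟨0, h0⟩ (g x).continuous.continuousOn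
        refine ⟨c, ?_⟩
        have h1 : ∀ᶠ y in 𝓝 x, y ∈ cubeO 0 4 := (isOpen_cubeO 0 4).mem_nhds fun i => by
          have := hx i
          simp only [PiLp.zero_apply, sub_zero]
          linarith
        have h2 : ∀ᶠ y in 𝓝 x, dist (g y) (g x) < ε / (2 * R) :=
          Metric.tendsto_nhds.1 hg.continuousAt _ (by positivity)
        filter_upwards [h1, h2] with y hy1 hy2
        refine ⟨hcW, fun u hu => ?_, fun h => absurd (fun i => ?_) h⟩
        · have b : ∀ v ∈ W, |g y v - g x v| ≤ ε / 2 := fun v hv => by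
            have e1 := (g y - g x).le_opNorm v
            rw [dist_eq_norm] at hy2
            have e2 : ‖g y - g x‖ * ‖v‖ ≤ ε / (2 * R) * R :=
              mul_le_mul hy2.le (hR v hv) (norm_nonneg _) (by positivity)
            have e3 : ε / (2 * R) * R = ε / 2 := by field_simp
            rw [sub_apply, Real.norm_eq_abs] at e1
            linarith only [e1, e2, e3]
          have b1 := abs_le.1 (b u hu)
          have b2 := abs_le.1 (b c hcW)
          have b3 : g x u ≤ g x c := hmax hu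
          linarith only [b1, b2, b3, b1.2, b2.1]
        · have := hy1 i
          simp only [PiLp.zero_apply, sub_zero] at this
          exact this.le
      · refine ⟨0, ?_⟩
        filter_upwards [(isCompact_boxE 3).isClosed.isOpen_compl.mem_nhds hx] with y hy
        refine ⟨h0, fun u _ => ?_, fun _ => rfl⟩
        rw [hz y hy]
        simpa using hε.le)
  exact ⟨w, ⟨w.contMDiff.contDiff, HasCompactSupport.intro (isCompact_boxE 4)
    fun x hx => (hw x).2.2 hx⟩, fun x => (hw x).1, fun x => (hw x).2.1⟩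

theorem W3_parts {f : E3 → ℝ} (hf : ContDiff ℝ 1 f) {w : E3 → E3} (hw : Fld w) :
    ∫ x, -fderiv ℝ f x (w x) = ∫ x, f x * dv w x := by
  have hc : ∀ i, ContDiff ℝ 1 fun x => w x i := fun i =>
    (EuclideanSpace.proj (𝕜 := ℝ) i).contDiff.comp hw.cd
  have hs : ∀ i, HasCompactSupport fun x => f x * w x i := fun i =>
    (hw.cs.comp_left (g := fun v : E3 => v i) rfl).mul_left
  have e : ∀ x, ∑ i, fderiv ℝ (fun x => f x * w x i) x (EuclideanSpace.single i 1) =
      f x * dv w x + fderiv ℝ f x (w x) := fun x => by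
    have d := (hw.cd.differentiable one_ne_zero x).hasFDerivAt
    have e1 : ∀ i, fderiv ℝ (fun x => f x * w x i) x (EuclideanSpace.single i 1) =
        f x * fderiv ℝ w x (EuclideanSpace.single i 1) i +
          fderiv ℝ f x (w x i • EuclideanSpace.single i 1) := fun i => by
      have d2 : HasFDerivAt (fun x => w x i) _ x :=
        (EuclideanSpace.proj (𝕜 := ℝ) i).hasFDerivAt.comp x d
      rw [((hf.differentiable one_ne_zero x).hasFDerivAt.fun_mul d2).fderiv]
      simp
    have e2 : ∑ i, w x i • EuclideanSpace.single i (1 : ℝ) = w x := by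
      ext j
      simp [Finset.sum_apply, Pi.single_apply]
    rw [Finset.sum_congr rfl fun i _ => e1 i, Finset.sum_add_distrib, ← Finset.mul_sum, ← map_sum,
      e2, dv]
  have i1 : ∀ i, Integrable fun x =>
      fderiv ℝ (fun x => f x * w x i) x (EuclideanSpace.single i 1) := fun i =>
    (((hf.mul (hc i)).continuous_fderiv one_ne_zero).clm_apply
      continuous_const).integrable_of_hasCompactSupport ((hs i).fderiv_apply ℝ _)
  have i2 : Integrable fun x => fderiv ℝ f x (w x) :=
    ((hf.continuous_fderiv one_ne_zero).clm_apply hw.cd.continuous).integrable_of_hasCompactSupport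
      (hw.cs.mono fun x hx h => hx (by simp [h]))
  have z : ∫ x, ∑ i, fderiv ℝ (fun x => f x * w x i) x (EuclideanSpace.single i 1) = 0 := by
    rw [integral_finsetSum _ fun i _ => i1 i]
    exact Finset.sum_eq_zero fun i _ => integral_fderiv_zero (hf.mul (hc i)) (hs i) _
  have e3 : ∀ x, f x * dv w x = ∑ i, fderiv ℝ (fun x => f x * w x i) x
      (EuclideanSpace.single i 1) - fderiv ℝ f x (w x) := fun x => by rw [e, add_sub_cancel_right]
  simp only [e3]
  rw [integral_sub (integrable_finsetSum _ fun i _ => i1 i) i2, z, integral_neg, zero_sub]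

theorem W3_fubini (ρ : ContDiffBump (0 : E3)) {W E : Set E3} (hE : MeasurableSet E) {F0 : ℝ}
    (hF : ∀ φ, Fld φ → (∀ x, φ x ∈ W) → ∫ x in E, dv φ x ≤ F0) {w : E3 → E3} (hw : Fld w)
    (hW : ∀ x, w x ∈ W) : ∫ x, W3_f ρ E x * dv w x ≤ F0 := by
  have hi : Integrable (Function.uncurry fun x t : E3 =>
      ρ.normed volume t * E.indicator 1 (x - t) * dv w x) (volume.prod volume) := by
    have h1 := hw.integrable.mul_prod (ρ.integrable_normed (μ := volume))
    have h2 : AEStronglyMeasurable (fun z : E3 × E3 => E.indicator (1 : E3 → ℝ) (z.1 - z.2))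
        (volume.prod volume) :=
      ((measurable_one.indicator hE).comp (measurable_fst.sub measurable_snd)).aestronglyMeasurable
    refine (h1.mul_bdd (c := 1) h2 (Eventually.of_forall fun z => ?_)).congr
      (Eventually.of_forall fun z => ?_)
    · rw [Real.norm_eq_abs, abs_of_nonneg (W3_ind E _).1]
      exact (W3_ind E _).2
    · simp only [Function.uncurry]
      ring
  have h1 : ∀ t : E3, ∫ x, ρ.normed volume t * E.indicator 1 (x - t) * dv w x ≤
      ρ.normed volume t * F0 := fun t => by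
    simp only [mul_assoc]
    rw [integral_const_mul]
    refine mul_le_mul_of_nonneg_left ?_ (ρ.nonneg_normed t)
    have h2 := hF (fun y => w (y + t)) ⟨hw.cd.comp (contDiff_id.add contDiff_const),
      hw.cs.comp_homeomorph (Homeomorph.addRight t)⟩ fun y => hW _
    rw [← integral_indicator hE] at h2
    rw [← integral_add_right_eq_self _ t]
    refine le_of_eq_of_le (integral_congr_ae (Eventually.of_forall fun y => ?_)) h2
    by_cases hy : y ∈ E <;> simp [hy, dv, fderiv_comp_add_right]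
  simp only [W3_f, ← integral_mul_const]
  rw [integral_integral_swap hi]
  refine (integral_mono hi.integral_prod_right (ρ.integrable_normed.mul_const F0) h1).trans ?_
  rw [integral_mul_const, ρ.integral_normed, one_mul]

theorem mollify {W E : Set E3} (hc : IsCompact W) (hv : Convex ℝ W) (h0 : (0 : E3) ∈ W)
    (hE : MeasurableSet E) (hEb : E ⊆ boxE 2) {F0 η : ℝ}
    (hF : ∀ φ, Fld φ → (∀ x, φ x ∈ W) → ∫ x in E, dv φ x ≤ F0) (hη : 0 < η) :
    ∃ f H : E3 → ℝ, ContDiff ℝ 1 f ∧ (∀ x, 0 ≤ f x ∧ f x ≤ 1) ∧ (∀ x, f x ≠ 0 → x ∈ boxE 3) ∧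
      ∫ x, |f x - E.indicator 1 x| ≤ η ∧ Integrable H ∧
      (∀ x, ∀ u ∈ W, -fderiv ℝ f x u ≤ H x) ∧ ∫ x, H x ≤ F0 + η := by
  obtain ⟨ρ, hρ, hcl⟩ := W3_close hE hEb hη
  have hf := W3_smooth ρ hE
  have hs := W3_supp ρ hρ hEb
  have hz : ∀ x, x ∉ boxE 3 → -fderiv ℝ (W3_f ρ E) x = 0 := fun x hx => by
    have : W3_f ρ E =ᶠ[𝓝 x] fun _ => 0 := by
      filter_upwards [(isCompact_boxE 3).isClosed.isOpen_compl.mem_nhds hx] with y hy
      by_contra h
      exact hy (hs y h)
    rw [this.fderiv_eq]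
    simp
  obtain ⟨w, hw, hW, hm⟩ := W3_sel hc hv h0 (hf.continuous_fderiv one_ne_zero).neg hz
    (ε := η / 216) (by positivity)
  have i1 : Integrable fun x => -fderiv ℝ (W3_f ρ E) x (w x) :=
    (((hf.continuous_fderiv one_ne_zero).clm_apply
      hw.cd.continuous).integrable_of_hasCompactSupport
      (hw.cs.mono fun x hx h => hx (by simp [h]))).neg
  have i2 : Integrable ((boxE 3).indicator fun _ : E3 => η / 216) := by
    rw [integrable_indicator_iff (isCompact_boxE 3).measurableSet]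
    exact integrableOn_const (isCompact_boxE 3).measure_lt_top.ne
  refine ⟨W3_f ρ E, fun x => -fderiv ℝ (W3_f ρ E) x (w x) + (boxE 3).indicator (fun _ => η / 216) x,
    hf, W3_range ρ E, hs, hcl, i1.add i2, fun x u hu => ?_, ?_⟩
  · beta_reduce
    by_cases hx : x ∈ boxE 3
    · rw [Set.indicator_of_mem hx]
      exact hm x u hu
    · rw [Set.indicator_of_notMem hx, neg_eq_zero.1 (hz x hx)]
      simp
  · rw [integral_add i1 i2, W3_parts hf hw, integral_indicator_const _
      (isCompact_boxE 3).measurableSet, Measure.real, volume_boxE (by norm_num),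
      ENNReal.toReal_ofReal (by norm_num), smul_eq_mul]
    linarith only [W3_fubini ρ hE hF hw hW]

end Pool.Agent.Work.MP_b59478_pr
end
end

-- merged part: Pool.Agent.Work.MP_b59478_pr.W4
section
/-! star: fix eps, then eta; take f, H from mollify. For s in (0, 1) apply slice to Phi '' (s < f) and
Phi '' W (Phi is linear and preserves volume), then Lam_lip and mar_diff:
vol ((s < f) + t W) >= vol (s < f) + t (Lam - C eps - C' vol ((s < f) symmdiff E)) - C t ^ 2.
Integrate over s: the integral of vol (s < f) is the integral of f, that of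
vol ((s < f) symmdiff E) is the integral of |f - 1_E| (Fubini). Compare with minkowski, divide by t
and let t, eta, eps tend to 0.
exists_coord: extend n to an orthonormal basis (Orthonormal.exists_orthonormalBasis_extension_of_card_eq),
use its repr (measure preserving) and the identification of the coordinates with a triple.
-/

set_option autoImplicit false

noncomputable section

namespace Pool.Agent.Work.MP_b59478_pr

open Classical Filter Topology MeasureTheory
open scoped symmDiff Pointwise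

theorem exists_coord {n : E3} (hn : ‖n‖ = 1) : ∃ Φ : E3 ≃L[ℝ] ℝ × ℝ × ℝ,
    MeasurePreserving Φ volume volume ∧ ∀ x, (Φ x).1 = inner ℝ x n := by
  have hon : Orthonormal ℝ (({0} : Set (Fin 3)).domRestrict fun _ : Fin 3 => n) := by
    refine ⟨fun _ => hn, ?_⟩
    intro i j hij
    exact absurd (Subsingleton.elim i j) hij
  obtain ⟨b, hb⟩ := hon.exists_orthonormalBasis_extension_of_card_eq (by simp)
  have hb0 : b 0 = n := hb 0 rfl
  let L : E3 ≃ₗ[ℝ] ℝ × ℝ × ℝ :=
    { toFun := fun x => (b.repr x 0, b.repr x 1, b.repr x 2)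
      map_add' := by intro x y; simp
      map_smul' := by intro c x; simp
      invFun := fun p => b.repr.symm (WithLp.toLp 2 ![p.1, p.2.1, p.2.2])
      left_inv := by
        intro x
        apply b.repr.injective
        ext i
        fin_cases i <;> simp
      right_inv := by
        intro p
        simp }
  refine ⟨L.toContinuousLinearEquiv, ?_, ?_⟩
  · have h1 := b.measurePreserving_repr
    have h2 := PiLp.volume_preserving_ofLp (Fin 3)
    have h3 := volume_preserving_piFinSuccAbove (fun _ : Fin 3 => ℝ) 0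
    have h4 : MeasurePreserving (Prod.map (id : ℝ → ℝ) (@MeasurableEquiv.finTwoArrow ℝ _))
        volume volume := (MeasurePreserving.id volume).prod (volume_preserving_finTwoArrow ℝ)
    have h := h4.comp (h3.comp (h2.comp h1))
    convert h using 1
    rfl
  · intro x
    change b.repr x 0 = _
    rw [b.repr_apply_apply, hb0, real_inner_comm]

theorem W4_vol_image (Φ : E3 ≃L[ℝ] ℝ × ℝ × ℝ) (hΦ : MeasurePreserving Φ volume volume)
    (S : Set E3) : volume.real (Φ '' S) = volume.real S := by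
  have h := MeasurePreserving.measure_preimage_equiv (f := Φ.toHomeomorph.toMeasurableEquiv)
    hΦ (Φ '' S)
  have h2 : (Φ.toHomeomorph.toMeasurableEquiv : E3 → ℝ × ℝ × ℝ) ⁻¹' (Φ '' S) = S :=
    Set.preimage_image_eq S Φ.injective
  rw [h2] at h
  simp only [Measure.real, h]

theorem W4_meas_image (Φ : E3 ≃L[ℝ] ℝ × ℝ × ℝ) {S : Set E3} (hS : MeasurableSet S) :
    MeasurableSet (Φ '' S) :=
  (Φ.toHomeomorph.toMeasurableEquiv.measurableSet_image).2 hS

theorem W4_box_mono {r r' : ℝ} (h : r ≤ r') : boxE r ⊆ boxE r' :=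
  fun _ hx i => (hx i).trans h

/-- Layer cake on the unit interval, strict form. -/
theorem W4_layer {f : E3 → ℝ} (hf : Integrable f) (h01 : ∀ x, 0 ≤ f x ∧ f x ≤ 1) :
    ∫ s in Set.Ioo (0 : ℝ) 1, volume.real {x | s < f x} = ∫ x, f x := by
  rw [hf.integral_eq_integral_meas_lt (Eventually.of_forall fun x => (h01 x).1)]
  symm
  apply setIntegral_eq_of_subset_of_forall_sdiff_eq_zero measurableSet_Ioi Set.Ioo_subset_Ioi_self
  intro s hs
  have h1 : 1 ≤ s := by
    by_contra h
    exact hs.2 ⟨hs.1, not_le.1 h⟩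
  have : {x | s < f x} = ∅ := by
    ext x
    simp only [Set.mem_setOf_eq, Set.mem_empty_iff_false, iff_false, not_lt]
    exact (h01 x).2.trans h1
  simp [this]

/-- A majorant of the volume of the symmetric difference with the level sets. -/
theorem W4_major {f : E3 → ℝ} {E : Set E3} (hE : MeasurableSet E) (hEb : E ⊆ boxE 3)
    (hf : Continuous f) (h01 : ∀ x, 0 ≤ f x ∧ f x ≤ 1) (hs : ∀ x, f x ≠ 0 → x ∈ boxE 3) :
    ∃ h : ℝ → ℝ, IntegrableOn h (Set.Ioo 0 1) ∧
      (∀ s ∈ Set.Ioo (0 : ℝ) 1, volume.real (E ∆ {x | s < f x}) ≤ h s) ∧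
      ∫ s in Set.Ioo (0 : ℝ) 1, h s = 2 * ∫ x, |f x - E.indicator 1 x| := by
  set u : E3 → ℝ := fun x => |f x - E.indicator 1 x| with hu
  have hfin : volume (boxE 3) ≠ ⊤ := (isCompact_boxE 3).measure_lt_top.ne
  have hu0 : ∀ x, x ∉ boxE 3 → u x = 0 := by
    intro x hx
    have h1 : f x = 0 := by
      by_contra h
      exact hx (hs x h)
    have h2 : x ∉ E := fun h => hx (hEb h)
    simp [hu, h1, h2]
  have hu1 : ∀ x, u x ≤ 1 := by
    intro x
    by_cases hx : x ∈ E
    · simp only [hu, Set.indicator_of_mem hx, Pi.one_apply]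
      rw [abs_le]
      constructor <;> linarith [h01 x]
    · simp only [hu, Set.indicator_of_notMem hx, sub_zero]
      rw [abs_le]
      constructor <;> linarith [h01 x]
  have hum : Measurable u :=
    (hf.measurable.sub (measurable_const.indicator hE)).abs
  have hui : Integrable u := by
    have h1 : IntegrableOn u (boxE 3) := by
      refine Measure.integrableOn_of_bounded (M := 1) hfin hum.aestronglyMeasurable ?_
      refine Eventually.of_forall fun x => ?_
      rw [Real.norm_eq_abs, abs_of_nonneg (abs_nonneg _)]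
      exact hu1 x
    exact (integrableOn_iff_integrable_of_support_subset (fun x hx => by
      by_contra h
      exact hx (hu0 x h))).1 h1
  set p : ℝ → ℝ := fun s => volume.real ({x | s ≤ u x} ∩ boxE 3) with hp
  have hanti : Antitone p := by
    intro s s' hss
    exact measureReal_mono (Set.inter_subset_inter_left _ fun x hx => hss.trans hx)
      (measure_ne_top_of_subset Set.inter_subset_right hfin)
  have hmono : Monotone fun s => p (1 - s) := fun s s' hss => hanti (by linarith)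
  have hp1 : IntegrableOn p (Set.Ioo 0 1) :=
    ((hanti.antitoneOn _).integrableOn_isCompact isCompact_Icc).mono_set Set.Ioo_subset_Icc_self
  have hp2 : IntegrableOn (fun s => p (1 - s)) (Set.Ioo 0 1) :=
    ((hmono.monotoneOn _).integrableOn_isCompact isCompact_Icc).mono_set Set.Ioo_subset_Icc_self
  have hI : ∫ s in Set.Ioo (0 : ℝ) 1, p s = ∫ x, u x := by
    rw [hui.integral_eq_integral_Ioc_meas_le (M := 1)
      (Eventually.of_forall fun x => abs_nonneg _) (Eventually.of_forall hu1),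
      integral_Ioc_eq_integral_Ioo]
    refine setIntegral_congr_fun measurableSet_Ioo fun s hs => ?_
    simp only [hp]
    congr 1
    refine Set.inter_eq_left.2 fun x hx => ?_
    by_contra h
    have h1 := hu0 x h
    have h2 : s ≤ u x := hx
    linarith only [h1, h2, hs.1]
  have hI2 : ∫ s in Set.Ioo (0 : ℝ) 1, p (1 - s) = ∫ x, u x := by
    rw [← hI, ← integral_Ioc_eq_integral_Ioo, ← integral_Ioc_eq_integral_Ioo,
      ← intervalIntegral.integral_of_le zero_le_one, ← intervalIntegral.integral_of_le zero_le_one,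
      intervalIntegral.integral_comp_sub_left p 1]
    simp
  refine ⟨fun s => p s + p (1 - s), hp1.add hp2, ?_, ?_⟩
  · intro s hs'
    refine le_trans (measureReal_mono (s₂ := ({x | s ≤ u x} ∩ boxE 3) ∪
      ({x | 1 - s ≤ u x} ∩ boxE 3)) ?_ ?_) (measureReal_union_le _ _)
    · intro x hx
      rcases hx with ⟨h1, h2⟩ | ⟨h1, h2⟩
      · right
        refine ⟨?_, hEb h1⟩
        have h3 : f x ≤ s := not_lt.1 h2
        simp only [hu, Set.mem_setOf_eq, Set.indicator_of_mem h1, Pi.one_apply]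
        rw [abs_sub_comm]
        exact le_trans (by linarith) (le_abs_self _)
      · left
        have h3 : s < f x := h1
        refine ⟨?_, hs x (by linarith [hs'.1])⟩
        simp only [hu, Set.mem_setOf_eq, Set.indicator_of_notMem h2, sub_zero]
        exact h3.le.trans (le_abs_self _)
    · exact measure_ne_top_of_subset
        (Set.union_subset Set.inter_subset_right Set.inter_subset_right) hfin
  · rw [integral_add hp1 hp2, hI, hI2]
    ring

theorem star {W E : Set E3} (hc : IsCompact W) (hv : Convex ℝ W) (h0 : (0 : E3) ∈ W)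
    (hE : MeasurableSet E) (hEb : E ⊆ boxE 2) {F0 : ℝ}
    (hF : ∀ φ, Fld φ → (∀ x, φ x ∈ W) → ∫ x in E, dv φ x ≤ F0) (Φ : E3 ≃L[ℝ] ℝ × ℝ × ℝ)
    (hΦ : MeasurePreserving Φ volume volume) {T : ℝ → ℝ} {K M : ℝ} (hK : 0 ≤ K) (hM : 0 ≤ M)
    (hT : ∀ x, ∃ q, (T x, q) ∈ Φ '' W) (hmono : Monotone fun x => T x + K * x) :
    Lam (mar (Φ '' E)) (mar (Φ '' W)) T M ≤ F0 := by
  have hE3 : E ⊆ boxE 3 := hEb.trans (W4_box_mono (by norm_num))
  have hcW : IsCompact (Φ '' W) := hc.image Φ.continuous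
  have hc3 : IsCompact (Φ '' boxE 3) := (isCompact_boxE 3).image Φ.continuous
  obtain ⟨B, hB0, hB⟩ := (hcW.union hc3).isBounded.exists_pos_norm_le
  have hBW : ∀ p ∈ Φ '' W, ‖p‖ ≤ B := fun p hp => hB p (Or.inl hp)
  have hBS : ∀ S ⊆ boxE 3, ∀ p ∈ Φ '' S, ‖p‖ ≤ B :=
    fun S hS p hp => hB p (Or.inr (Set.image_mono hS hp))
  have hbS : ∀ S ⊆ boxE 3, Bornology.IsBounded (Φ '' S) :=
    fun S hS => hc3.isBounded.subset (Set.image_mono hS)
  set L := Lam (mar (Φ '' E)) (mar (Φ '' W)) T M with hL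
  set G : ℝ := 4 * B ^ 2 with hG
  have hG0 : 0 ≤ G := by positivity
  refine le_of_forall_pos_le_add fun δ hδ => ?_
  set c : ℝ := 4 * B * Real.sqrt G with hcdef
  have hc0 : 0 ≤ c := by positivity
  set ε : ℝ := δ / 3 / (c + 1) with hεdef
  have hε : 0 < ε := by positivity
  have hcε : c * ε ≤ δ / 3 := by
    rw [hεdef, mul_div_assoc', div_le_iff₀ (by positivity)]
    nlinarith only [hδ]
  set C : ℝ := 2 * Real.sqrt G / ε + K + M with hCdef
  have hC0 : 0 ≤ C := by positivity
  set η : ℝ := δ / 3 / (2 + 2 * C) with hηdef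
  have hη : 0 < η := by positivity
  have hCη : (2 + 2 * C) * η = δ / 3 := by
    rw [hηdef]
    field_simp
  obtain ⟨f, H, hf, h01, hs, hfE, hH, hfH, hHF⟩ := mollify hc hv h0 hE hEb hF hη
  obtain ⟨h, hhi, hh, hhI⟩ := W4_major hE hE3 hf.continuous h01 hs
  have hsub : ∀ s : ℝ, 0 ≤ s → {x | s < f x} ⊆ boxE 3 := by
    intro s hs0 x hx
    have h3 : s < f x := hx
    exact hs x (by linarith only [hs0, h3])
  have hop : ∀ s : ℝ, IsOpen {x | s < f x} := fun s => isOpen_lt continuous_const hf.continuous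
  have hfi : Integrable f := by
    refine hf.continuous.integrable_of_hasCompactSupport ?_
    exact HasCompactSupport.intro (isCompact_boxE 3) fun x hx => by
      by_contra h
      exact hx (hs x h)
  have hfin : volume (boxE 3) ≠ ⊤ := (isCompact_boxE 3).measure_lt_top.ne
  have hq : IntegrableOn (fun s : ℝ => volume.real {x | s < f x}) (Set.Ioo 0 1) := by
    refine IntegrableOn.mono_set (AntitoneOn.integrableOn_isCompact isCompact_Icc ?_)
      Set.Ioo_subset_Icc_self
    intro s hs1 s' _ hss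
    exact measureReal_mono (fun x hx => lt_of_le_of_lt hss hx)
      (measure_ne_top_of_subset (hsub s hs1.1) hfin)
  have ht1 : ∀ᶠ t in 𝓝[>] (0 : ℝ), t * K ≤ 1 / 2 := by
    have : Tendsto (fun t : ℝ => t * K) (𝓝[>] 0) (𝓝 (0 * K)) :=
      (tendsto_id.mul_const K).mono_left nhdsWithin_le_nhds
    exact this.eventually (ge_mem_nhds (by norm_num))
  have ht2 : ∀ᶠ t in 𝓝[>] (0 : ℝ), t * (16 * K * B ^ 3) ≤ δ / 3 := by
    have : Tendsto (fun t : ℝ => t * (16 * K * B ^ 3)) (𝓝[>] 0) (𝓝 (0 * (16 * K * B ^ 3))) :=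
      (tendsto_id.mul_const _).mono_left nhdsWithin_le_nhds
    exact this.eventually (ge_mem_nhds (by rw [zero_mul]; positivity))
  obtain ⟨t, ⟨⟨hmk, htK⟩, htB⟩, ht⟩ :=
    ((((minkowski hc h0 hf h01 hs hH hfH hη).and ht1).and ht2).and self_mem_nhdsWithin).exists
  have ht0 : 0 < t := ht
  have hr : IntegrableOn (fun s : ℝ => volume.real ({x | s < f x} + t • W)) (Set.Ioo 0 1) := by
    refine IntegrableOn.mono_set (AntitoneOn.integrableOn_isCompact isCompact_Icc ?_)
      Set.Ioo_subset_Icc_self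
    intro s hs1 s' _ hss
    refine measureReal_mono (Set.add_subset_add_right fun x hx => lt_of_le_of_lt hss hx) ?_
    refine measure_ne_top_of_subset (Set.add_subset_add_right (hsub s hs1.1)) ?_
    exact ((isCompact_boxE 3).add (hc.smul t)).measure_lt_top.ne
  have key : ∀ s ∈ Set.Ioo (0 : ℝ) 1,
      volume.real {x | s < f x} + (t * (L - c * ε) - 16 * K * t ^ 2 * B ^ 3) - t * C * h s ≤
        volume.real ({x | s < f x} + t • W) := by
    intro s hs1
    set A := {x | s < f x} with hA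
    have hA3 : A ⊆ boxE 3 := hsub s hs1.1.le
    have hAo : IsOpen (Φ '' A) := Φ.toHomeomorph.isOpenMap _ (hop s)
    have h1 := slice hAo hcW hB0.le (hBS A hA3) hBW hK hM hT hmono ht0 htK
    have h2 : Φ '' A + t • Φ '' W = Φ '' (A + t • W) := by
      rw [Set.image_add Φ, image_smul_set Φ]
    rw [h2, W4_vol_image Φ hΦ, W4_vol_image Φ hΦ] at h1
    have h3 := Lam_lip (a := mar (Φ '' E)) (a' := mar (Φ '' A)) (g := mar (Φ '' W)) (T := T)
      (B := B) (G := G) (K := K) (M := M) (ε := ε) (mar_meas (W4_meas_image Φ hE))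
      (mar_meas hAo.measurableSet) (mar_meas hcW.measurableSet) hB0.le hG0
      (mar_bdd hB0.le (hBS E hE3)) (mar_bdd hB0.le (hBS A hA3))
      (fun y => ⟨(mar_bdd hB0.le hBW y).1, (mar_bdd hB0.le hBW y).2.1⟩) hK hM hmono hε
    have h4 := mar_diff (W4_meas_image Φ hE) hAo.measurableSet (hbS E hE3) (hbS A hA3)
    rw [← Set.image_symmDiff Φ.injective, W4_vol_image Φ hΦ] at h4
    have h5 := mul_le_mul_of_nonneg_left (h4.trans (hh s hs1)) hC0
    have h6 : L - c * ε - C * h s ≤ Lam (mar (Φ '' A)) (mar (Φ '' W)) T M := by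
      rw [← hL, ← hcdef, ← hCdef] at h3
      linarith only [h3, h5]
    have h7 := mul_le_mul_of_nonneg_left h6 ht0.le
    nlinarith only [h1, h7]
  have hcst : IntegrableOn (fun _ : ℝ => t * (L - c * ε) - 16 * K * t ^ 2 * B ^ 3)
      (Set.Ioo (0 : ℝ) 1) := integrableOn_const (by simp)
  have hqc : IntegrableOn (fun s : ℝ => volume.real {x | s < f x} +
      (t * (L - c * ε) - 16 * K * t ^ 2 * B ^ 3)) (Set.Ioo (0 : ℝ) 1) := hq.add hcst
  have hint := setIntegral_mono_on (hqc.sub (hhi.const_mul (t * C))) hr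
    measurableSet_Ioo key
  have hval : ∫ s in Set.Ioo (0 : ℝ) 1, (volume.real {x | s < f x} +
      (t * (L - c * ε) - 16 * K * t ^ 2 * B ^ 3) - t * C * h s) =
      (∫ x, f x) + (t * (L - c * ε) - 16 * K * t ^ 2 * B ^ 3) -
        t * C * (2 * ∫ x, |f x - E.indicator 1 x|) := by
    rw [integral_sub hqc (hhi.const_mul (t * C)), integral_add hq hcst,
      integral_const_mul, hhI, W4_layer hfi h01]
    simp
  have h8 : (∫ x, f x) + (t * (L - c * ε) - 16 * K * t ^ 2 * B ^ 3) -
      t * C * (2 * ∫ x, |f x - E.indicator 1 x|) ≤ (∫ x, f x) + t * ((∫ x, H x) + η) := by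
    rw [← hval]
    exact le_trans hint hmk
  have h9 : L - c * ε - t * (16 * K * B ^ 3) - C * (2 * ∫ x, |f x - E.indicator 1 x|) ≤
      (∫ x, H x) + η := by
    refine le_of_mul_le_mul_left ?_ ht0
    nlinarith only [h8]
  have h10 := mul_le_mul_of_nonneg_left hfE hC0
  nlinarith only [hcε, hCη, hHF, htB, h9, h10]

end Pool.Agent.Work.MP_b59478_pr
end
end
end

-- merged part: Pool.Agent.Work.MP_b59478_pr.LU
section
-- merged part: Pool.Agent.Work.MP_b59478_pr.DG3
section
/-! An almost monotone set in a cube is almost a half-space, or almost trivial.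
Pair counting: for measurable A1 inside Q minus E and A2 inside Q inter E such that every difference
y - x (x in A1, y in A2) is in the cone, vol A1 * vol A2 <= (4 r) ^ 3 * 4 r * d (Fubini over
v = y - x in boxE (2 r)).
half: differences have norm at most 4 r, so inner (y - x) n >= 4 theta r suffices. Let
m0 = zeta r ^ 3 / 4, t_i = inner z n - 2 r + 4 theta r i, and i the first index with
vol ((Q minus E) inter (inner x n <= t_i)) > m0 (if none, take the last t, where the half-space
contains Q). Then E inter Q inter (inner x n >= t_i + 4 theta r) has volume at most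
256 kappa r ^ 6 / m0, and a slab of width 8 theta r meets Q in volume at most 64 theta r ^ 3
(Fubini along axis n, or a shear).
dich: average over v in cubeO ((g / 2) n) (g / 12), of volume g ^ 3 / 216; these v have norm at most
g and inner v n >= norm v / 3. For x in E inter the inner cube use x - v, for x outside E use x + v.
-/

set_option autoImplicit false

noncomputable section

namespace Pool.Agent.Work.MP_b59478_pr

open Classical Filter Topology MeasureTheory
open scoped symmDiff Pointwise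

theorem DG3_avg {A V : Set E3} (hA : MeasurableSet A) (hV : MeasurableSet V)
    (hVf : volume V ≠ ⊤) (hAf : volume A ≠ ⊤) {T : Set (E3 × E3)} (hT : MeasurableSet T)
    {a c : ℝ} (ha : 0 ≤ a) (hc : 0 ≤ c)
    (h1 : ∀ x ∈ A, ENNReal.ofReal a ≤ volume {v | v ∈ V ∧ (x, v) ∈ T})
    (h2 : ∀ v ∈ V, volume {x | x ∈ A ∧ (x, v) ∈ T} ≤ ENNReal.ofReal c) :
    volume.real A * a ≤ volume.real V * c := by
  have hS : MeasurableSet (A ×ˢ V ∩ T) := (hA.prod hV).inter hT
  have e1 : ENNReal.ofReal a * volume A ≤ (volume.prod volume) (A ×ˢ V ∩ T) := by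
    rw [Measure.prod_apply hS, ← lintegral_indicator_const hA]
    refine lintegral_mono fun x => ?_
    by_cases hx : x ∈ A
    · rw [Set.indicator_of_mem hx]
      refine (h1 x hx).trans (measure_mono fun v hv => ⟨⟨hx, hv.1⟩, hv.2⟩)
    · rw [Set.indicator_of_notMem hx]; exact zero_le
  have e2 : (volume.prod volume) (A ×ˢ V ∩ T) ≤ ENNReal.ofReal c * volume V := by
    rw [Measure.prod_apply_symm hS, ← lintegral_indicator_const hV]
    refine lintegral_mono fun v => ?_
    by_cases hv : v ∈ V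
    · rw [Set.indicator_of_mem hv]
      refine le_trans (measure_mono ?_) (h2 v hv)
      exact fun x hx => ⟨hx.1.1, hx.2⟩
    · rw [Set.indicator_of_notMem hv]
      have : (fun x => (x, v)) ⁻¹' (A ×ˢ V ∩ T) = ∅ := by
        ext x; simp [hv]
      simp [this]
  have e3 := ENNReal.toReal_mono (ENNReal.mul_ne_top ENNReal.ofReal_ne_top hVf) (e1.trans e2)
  rw [ENNReal.toReal_mul, ENNReal.toReal_mul, ENNReal.toReal_ofReal ha,
    ENNReal.toReal_ofReal hc] at e3
  simp only [Measure.real]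
  linarith

theorem DG3_fin (z : E3) (r : ℝ) : volume (cubeO z r) ≠ ⊤ := by
  rcases le_total 0 r with h | h
  · rw [volume_cubeO z h]; exact ENNReal.ofReal_ne_top
  · have : cubeO z r = ∅ := by
      ext x
      simp only [cubeO, Set.mem_setOf_eq, Set.mem_empty_iff_false, iff_false, not_forall]
      exact ⟨0, by have := abs_nonneg (x 0 - z 0); linarith⟩
    simp [this]

theorem DG3_fin' {z : E3} {r : ℝ} {S : Set E3} (h : S ⊆ cubeO z r) : volume S ≠ ⊤ :=
  ne_top_of_le_ne_top (DG3_fin z r) (measure_mono h)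

theorem DG3_real (z : E3) {r : ℝ} (hr : 0 ≤ r) : volume.real (cubeO z r) = (2 * r) ^ 3 := by
  rw [Measure.real, volume_cubeO z hr, ENNReal.toReal_ofReal (by positivity)]

theorem DG3_mono {E : Set E3} {z n : E3} {r θ d c : ℝ} (h : Mono E (cubeO z r) n θ d) {v : E3}
    (hv : θ * ‖v‖ ≤ inner ℝ v n) (hc : ‖v‖ * d ≤ c) :
    volume {x | x ∈ cubeO z r ∧ x + v ∈ cubeO z r ∧ x ∉ E ∧ x + v ∈ E} ≤ ENNReal.ofReal c := by
  have h1 := (h v hv).trans hc
  have hf : volume {x | x ∈ cubeO z r ∧ x + v ∈ cubeO z r ∧ x ∉ E ∧ x + v ∈ E} ≠ ⊤ :=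
    DG3_fin' fun x hx => hx.1
  rw [← ENNReal.ofReal_toReal hf]
  exact ENNReal.ofReal_le_ofReal h1

theorem DG3_inner (x n : E3) (hn : ‖n‖ = 1) : |inner ℝ x n| ≤ ‖x‖ := by
  simpa [hn] using abs_real_inner_le_norm x n

theorem DG3_dist {z x : E3} {r : ℝ} (hx : x ∈ cubeO z r) : ‖x - z‖ ≤ 2 * r :=
  norm_le_of_coord fun i => by simpa using (hx i).le

theorem DG3_meas_half (n : E3) (t : ℝ) : MeasurableSet {x : E3 | inner ℝ x n ≤ t} :=
  (isClosed_le (by fun_prop) continuous_const).measurableSet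

theorem DG3_meas_half' (n : E3) (t : ℝ) : MeasurableSet {x : E3 | t < inner ℝ x n} :=
  (isOpen_lt continuous_const (by fun_prop)).measurableSet

theorem DG3_slab (z n : E3) (hn : ‖n‖ = 1) {r : ℝ} (hr : 0 < r) {K : ℕ} (hK : 0 < K) (t : ℝ) :
    volume.real (cubeO z r ∩ ({x | t < inner ℝ x n} ∩ {x | inner ℝ x n ≤ t + r / K})) * K ≤
      64 * r ^ 3 := by
  set S := cubeO z r ∩ ({x | t < inner ℝ x n} ∩ {x | inner ℝ x n ≤ t + r / K}) with hSdef
  have hS : MeasurableSet S := (isOpen_cubeO z r).measurableSet.inter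
    ((DG3_meas_half' n t).inter (DG3_meas_half n _))
  have hK' : (0 : ℝ) < K := by exact_mod_cast hK
  have hw : 0 < r / K := div_pos hr hK'
  let T : ℕ → Set E3 := fun k => (fun x => x + (-(k * (r / K))) • n) ⁻¹' S
  have hTm : ∀ k, MeasurableSet (T k) := fun k => hS.preimage (by fun_prop)
  have hTv : ∀ k, volume (T k) = volume S := fun k => measure_preimage_add_right _ _ _
  have hin : ∀ (k : ℕ) (x : E3), inner ℝ (x + (-(k * (r / K))) • n) n =
      inner ℝ x n - k * (r / K) := fun k x => by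
    rw [inner_add_left, inner_smul_left, real_inner_self_eq_norm_sq, hn]
    simp [sub_eq_add_neg]
  have hdisj : Set.PairwiseDisjoint (Finset.range K : Set ℕ) T := by
    intro k _ l _ hkl
    rw [Function.onFun, Set.disjoint_left]
    intro x hk hl
    obtain ⟨-, hk1, hk2⟩ := hk
    obtain ⟨-, hl1, hl2⟩ := hl
    simp only [Set.mem_setOf_eq, hin] at hk1 hk2 hl1 hl2
    rcases lt_or_gt_of_ne hkl with h | h
    · have : (k : ℝ) + 1 ≤ l := by exact_mod_cast h
      nlinarith only [hk2, hl1, hw, this]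
    · have : (l : ℝ) + 1 ≤ k := by exact_mod_cast h
      nlinarith only [hk1, hl2, hw, this]
  have hsub : ⋃ k ∈ Finset.range K, T k ⊆ cubeO z (2 * r) := by
    intro x hx
    simp only [Set.mem_iUnion] at hx
    obtain ⟨k, hk, hx⟩ := hx
    intro i
    have h1 := hx.1 i
    have hk' : (k : ℝ) ≤ K := by exact_mod_cast (Finset.mem_range.mp hk).le
    have h2 : |n i| ≤ 1 := hn ▸ abs_coord_le n i
    have h3 : k * (r / K) ≤ r := by
      calc k * (r / K) ≤ K * (r / K) := by gcongr
        _ = r := by field_simp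
    have h4 : |(k * (r / K)) * n i| ≤ r := by
      rw [abs_mul, abs_of_nonneg (by positivity)]
      have : (0 : ℝ) ≤ k * (r / K) := by positivity
      nlinarith only [h3, h2, this, abs_nonneg (n i)]
    have h5 : (x + (-(k * (r / K))) • n) i = x i - (k * (r / K)) * n i := by
      simp [sub_eq_add_neg]
    rw [h5] at h1
    have := abs_lt.mp h1
    have := abs_le.mp h4
    rw [abs_lt]; constructor <;> linarith
  have h1 := measure_mono (μ := volume) hsub
  rw [measure_biUnion_finset hdisj (fun k _ => hTm k)] at h1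
  simp only [hTv, Finset.sum_const, Finset.card_range, nsmul_eq_mul] at h1
  have h2 := ENNReal.toReal_mono (DG3_fin z (2 * r)) h1
  rw [ENNReal.toReal_mul, ENNReal.toReal_natCast, volume_cubeO z (by positivity),
    ENNReal.toReal_ofReal (by positivity)] at h2
  simp only [Measure.real]
  nlinarith only [h2]

theorem DG3_step (P : ℕ → Prop) (h0 : ¬ P 0) {N : ℕ} (hN : P N) : ∃ i, ¬ P i ∧ P (i + 1) := by
  induction N with
  | zero => exact absurd hN h0
  | succ N ih =>
    by_cases h : P N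
    · exact ih h
    · exact ⟨N, h, hN⟩

theorem DG3_pair {E : Set E3} {z n : E3} {r θ d : ℝ} (hr : 0 < r) (hd : 0 ≤ d) (hθ : 0 ≤ θ)
    (h : Mono E (cubeO z r) n θ d) {A B : Set E3} (hA : MeasurableSet A) (hB : MeasurableSet B)
    (hAs : A ⊆ cubeO z r \ E) (hBs : B ⊆ cubeO z r ∩ E)
    (hAB : ∀ x ∈ A, ∀ y ∈ B, inner ℝ x n + 4 * θ * r ≤ inner ℝ y n) :
    volume.real A * volume.real B ≤ (4 * r) ^ 3 * (4 * r * d) := by
  let V : Set E3 := cubeO 0 (2 * r) ∩ {v | θ * ‖v‖ ≤ inner ℝ v n}
  have hV : MeasurableSet V := (isOpen_cubeO _ _).measurableSet.inter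
    (isClosed_le (by fun_prop) (by fun_prop)).measurableSet
  have hBf : volume B ≠ ⊤ := DG3_fin' fun x hx => (hBs hx).1
  have key := DG3_avg (A := A) (V := V) hA hV (DG3_fin' Set.inter_subset_left)
    (DG3_fin' fun x hx => (hAs hx).1) (T := {p | p.1 + p.2 ∈ B})
    (hB.preimage (by fun_prop)) (a := volume.real B) (c := 4 * r * d) measureReal_nonneg
    (by positivity) ?_ ?_
  · refine key.trans ?_
    have : volume.real V ≤ (4 * r) ^ 3 := by
      have h1 := measureReal_mono (μ := volume) (Set.inter_subset_left (s := cubeO 0 (2 * r))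
        (t := {v : E3 | θ * ‖v‖ ≤ inner ℝ v n})) (DG3_fin _ _)
      rw [DG3_real 0 (by positivity)] at h1
      calc volume.real V ≤ (2 * (2 * r)) ^ 3 := h1
        _ = (4 * r) ^ 3 := by ring
    gcongr
  · intro x hx
    rw [Measure.real, ENNReal.ofReal_toReal hBf, ← measure_preimage_add volume x B]
    refine measure_mono fun v hv => ⟨?_, hv⟩
    have hc : v ∈ cubeO 0 (2 * r) := fun i => by
      have h1 := abs_lt.mp ((hAs hx).1 i)
      have h2 := abs_lt.mp ((hBs hv).1 i)
      simp only [PiLp.add_apply] at h2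
      simp only [PiLp.zero_apply, sub_zero]
      rw [abs_lt]; constructor <;> linarith
    refine ⟨hc, ?_⟩
    have h3 := hAB x hx _ hv
    rw [inner_add_left] at h3
    have h4 : ‖v‖ ≤ 2 * (2 * r) := by simpa using DG3_dist hc
    show θ * ‖v‖ ≤ inner ℝ v n
    nlinarith only [h3, hθ, h4]
  · intro v hv
    have h4 : ‖v‖ ≤ 2 * (2 * r) := by simpa using DG3_dist hv.1
    refine le_trans (measure_mono fun x hx => ?_) (DG3_mono h hv.2 (by nlinarith))
    exact ⟨(hAs hx.1).1, (hBs hx.2).1, (hAs hx.1).2, (hBs hx.2).2⟩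

theorem half {ζ : ℝ} (hζ : 0 < ζ) : ∃ θ κ : ℝ, 0 < θ ∧ θ ≤ 1 / 3 ∧ 0 < κ ∧
    ∀ (E : Set E3) (z n : E3) (r d : ℝ), MeasurableSet E → 0 < r → ‖n‖ = 1 → 0 ≤ d →
    d ≤ κ * r ^ 2 → Mono E (cubeO z r) n θ d →
    ∃ t : ℝ, volume.real ((E ∆ {x | inner ℝ x n ≤ t}) ∩ cubeO z r) ≤ ζ * r ^ 3 := by
  obtain ⟨K0, hK0⟩ := exists_nat_ge (128 / ζ)
  set K := K0 + 1 with hKdef
  have hK : 0 < K := Nat.succ_pos _
  have hK1 : (1 : ℝ) ≤ K := by exact_mod_cast hK
  have hK2 : 128 ≤ ζ * K := by
    rw [div_le_iff₀ hζ] at hK0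
    have : (K : ℝ) = K0 + 1 := by simp [hKdef]
    nlinarith only [this, hK0]
  refine ⟨1 / (8 * K), ζ ^ 2 / 4096, by positivity, ?_, by positivity, ?_⟩
  · rw [div_le_div_iff₀ (by positivity) (by norm_num)]; linarith
  intro E z n r d hE hr hn hd hdκ h
  have hQ : MeasurableSet (cubeO z r) := (isOpen_cubeO z r).measurableSet
  have hr3 : 0 < r ^ 3 := by positivity
  have hbd : ∀ x ∈ cubeO z r, |inner ℝ x n - inner ℝ z n| ≤ 2 * r := fun x hx => by
    rw [← inner_sub_left]
    exact (DG3_inner _ n hn).trans (DG3_dist hx)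
  by_cases hA : volume.real (cubeO z r \ E) ≤ ζ * r ^ 3 / 4
  · refine ⟨inner ℝ z n + 2 * r, le_trans (measureReal_mono (fun x hx => ?_)
      (DG3_fin' Set.diff_subset)) (hA.trans (by nlinarith only [hζ, hr3, mul_pos hζ hr3]))⟩
    refine ⟨hx.2, fun hxE => ?_⟩
    rcases hx.1 with h1 | h1
    · refine h1.2 ?_
      have := abs_le.mp (hbd x hx.2)
      show inner ℝ x n ≤ inner ℝ z n + 2 * r
      linarith only [this]
    · exact h1.2 hxE
  push Not at hA
  set w : ℝ := r / (2 * K) with hw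
  have hw0 : 0 < w := by positivity
  set t0 : ℝ := inner ℝ z n - 3 * r with ht0
  obtain ⟨i, hi1, hi2⟩ := DG3_step (fun i : ℕ => ζ * r ^ 3 / 4 <
      volume.real ((cubeO z r \ E) ∩ {x | inner ℝ x n ≤ t0 + i * w})) (N := 10 * K) (by
    have : (cubeO z r \ E) ∩ {x | inner ℝ x n ≤ t0 + (0 : ℕ) * w} = ∅ := by
      ext x
      simp only [Set.mem_inter_iff, Set.mem_setOf_eq, Set.mem_empty_iff_false, iff_false, not_and]
      intro hx
      have := abs_le.mp (hbd x hx.1)
      push_cast
      linarith only [hr, this]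
    rw [this]
    simp only [measureReal_empty, not_lt]
    positivity) (by
    have : (cubeO z r \ E) ∩ {x | inner ℝ x n ≤ t0 + (10 * K : ℕ) * w} = cubeO z r \ E := by
      refine Set.inter_eq_left.mpr fun x hx => ?_
      have := abs_le.mp (hbd x hx.1)
      have e : ((10 * K : ℕ) : ℝ) * w = 5 * r := by
        rw [hw]; push_cast; field_simp; ring
      show inner ℝ x n ≤ t0 + (10 * K : ℕ) * w
      rw [e]; linarith only [this]
    rw [this]; exact hA)
  push Not at hi1
  set t : ℝ := t0 + i * w with ht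
  have e1 : t0 + ((i + 1 : ℕ) : ℝ) * w = t + w := by rw [ht]; push_cast; ring
  rw [e1] at hi2
  have e2 : r / K = 2 * w := by rw [hw]; field_simp
  have hslab := DG3_slab z n hn hr hK t
  set B : Set E3 := (cubeO z r ∩ E) ∩ {x | t + r / K < inner ℝ x n} with hB
  have hpair := DG3_pair hr hd (by positivity) h
    (A := (cubeO z r \ E) ∩ {x | inner ℝ x n ≤ t + w}) (B := B)
    ((hQ.diff hE).inter (DG3_meas_half n _)) ((hQ.inter hE).inter (DG3_meas_half' n _))
    Set.inter_subset_left Set.inter_subset_left (by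
      intro x hx y hy
      have h1 : inner ℝ x n ≤ t + w := hx.2
      have h2 : t + r / K < inner ℝ y n := hy.2
      have e3 : 4 * (1 / (8 * (K : ℝ))) * r = w := by rw [hw]; field_simp; ring
      rw [e3]; linarith only [e2, h1, h2])
  have hBv : volume.real B ≤ ζ * r ^ 3 / 4 := by
    have h0 : 0 ≤ volume.real B := measureReal_nonneg
    have h1 : ζ * r ^ 3 / 4 * volume.real B ≤ (4 * r) ^ 3 * (4 * r * (ζ ^ 2 / 4096 * r ^ 2)) := by
      calc ζ * r ^ 3 / 4 * volume.real B ≤ _ := mul_le_mul_of_nonneg_right hi2.le h0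
        _ ≤ _ := hpair
        _ ≤ _ := by gcongr
    have h2 : (4 * r) ^ 3 * (4 * r * (ζ ^ 2 / 4096 * r ^ 2)) =
        ζ * r ^ 3 / 4 * (ζ * r ^ 3 / 4) := by ring
    rw [h2] at h1
    exact le_of_mul_le_mul_left h1 (by positivity)
  set S : Set E3 := cubeO z r ∩ ({x | t < inner ℝ x n} ∩ {x | inner ℝ x n ≤ t + r / K}) with hS
  have hSv : volume.real S ≤ ζ * r ^ 3 / 2 := by
    have h0 : 0 ≤ volume.real S := measureReal_nonneg
    have h1 : volume.real S * 128 ≤ volume.real S * (ζ * K) := by gcongr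
    nlinarith only [h1, hζ, hslab]
  refine ⟨t, ?_⟩
  have hsub : (E ∆ {x | inner ℝ x n ≤ t}) ∩ cubeO z r ⊆
      ((cubeO z r \ E) ∩ {x | inner ℝ x n ≤ t}) ∪ (B ∪ S) := by
    rintro x ⟨h1 | h1, h2⟩
    · have h3 : t < inner ℝ x n := not_le.mp h1.2
      by_cases h4 : inner ℝ x n ≤ t + r / K
      · exact Or.inr (Or.inr ⟨h2, h3, h4⟩)
      · exact Or.inr (Or.inl ⟨⟨h2, h1.1⟩, not_le.mp h4⟩)
    · exact Or.inl ⟨⟨h2, h1.2⟩, h1.1⟩
  have hfin : volume (((cubeO z r \ E) ∩ {x | inner ℝ x n ≤ t}) ∪ (B ∪ S)) ≠ ⊤ := by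
    refine DG3_fin' (z := z) (r := r) ?_
    rintro x (h1 | h1 | h1)
    · exact h1.1.1
    · exact h1.1.1
    · exact h1.1
  calc _ ≤ _ := measureReal_mono hsub hfin
    _ ≤ _ := measureReal_union_le _ _
    _ ≤ _ := add_le_add hi1 (measureReal_union_le _ _)
    _ ≤ ζ * r ^ 3 := by linarith only [hBv, hSv]

theorem DG3_half_vol {V C : Set E3} (hVf : volume V ≠ ⊤) (hCf : volume C ≠ ⊤) {a : ℝ}
    (hV : volume.real V = 2 * a) (hC : volume.real C ≤ a) :
    ENNReal.ofReal a ≤ volume (V \ C) := by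
  have hf : volume (V \ C) ≠ ⊤ := ne_top_of_le_ne_top hVf (measure_mono Set.diff_subset)
  rw [← ENNReal.ofReal_toReal hf]
  refine ENNReal.ofReal_le_ofReal ?_
  have h1 : volume.real V ≤ volume.real (V \ C) + volume.real C := by
    refine le_trans (measureReal_mono (fun x hx => ?_) ?_) (measureReal_union_le _ _)
    · by_cases h : x ∈ C
      · exact Or.inr h
      · exact Or.inl ⟨hx, h⟩
    · exact ne_top_of_le_ne_top (ENNReal.add_ne_top.mpr ⟨hf, hCf⟩) (measure_union_le _ _)
  have : (volume (V \ C)).toReal = volume.real (V \ C) := rfl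
  linarith

theorem dich {E : Set E3} (hE : MeasurableSet E) {z n : E3} {r g d θ : ℝ} (hg : 0 < g)
    (hgr : g ≤ r) (hn : ‖n‖ = 1) (hd : 0 ≤ d) (hθ : θ ≤ 1 / 3) (h : Mono E (cubeO z r) n θ d) :
    volume.real (E ∩ cubeO z (r - g)) ≤ 2 * g * d ∨
    volume.real (cubeO z (r - g) \ E) ≤ 2 * g * d ∨
    (g ^ 3 / 432 ≤ volume.real (E ∩ cubeO z r) ∧ g ^ 3 / 432 ≤ volume.real (cubeO z r \ E)) := by
  set V : Set E3 := cubeO ((g / 2) • n) (g / 12) with hVdef
  have hV : MeasurableSet V := (isOpen_cubeO _ _).measurableSet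
  have hVv : volume.real V = 2 * (g ^ 3 / 432) := by
    rw [hVdef, DG3_real _ (by positivity)]; ring
  have hQ' : MeasurableSet (cubeO z (r - g)) := (isOpen_cubeO _ _).measurableSet
  have hvn : ∀ v ∈ V, ‖v‖ ≤ g ∧ θ * ‖v‖ ≤ inner ℝ v n := fun v hv => by
    have h1 : ‖v - (g / 2) • n‖ ≤ 2 * (g / 12) := DG3_dist hv
    have h2 : ‖(g / 2) • n‖ = g / 2 := by
      rw [norm_smul, hn, Real.norm_of_nonneg (by positivity), mul_one]
    have h3 : ‖v‖ ≤ g := by
      have := norm_add_le (v - (g / 2) • n) ((g / 2) • n)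
      rw [sub_add_cancel] at this
      linarith only [hg, h1, h2, this]
    have h4 := abs_le.mp ((DG3_inner (v - (g / 2) • n) n hn).trans h1)
    rw [inner_sub_left, inner_smul_left, real_inner_self_eq_norm_sq, hn] at h4
    simp only [conj_trivial] at h4
    refine ⟨h3, ?_⟩
    nlinarith only [h3, h4, hθ, norm_nonneg v]
  have hin : ∀ x ∈ cubeO z (r - g), x ∈ cubeO z r ∧ ∀ v ∈ V, x + v ∈ cubeO z r ∧
      x - v ∈ cubeO z r := fun x hx => by
    refine ⟨fun i => by linarith [hx i], fun v hv => ⟨fun i => ?_, fun i => ?_⟩⟩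
    all_goals
      have h1 := abs_lt.mp (hx i)
      have h2 := abs_le.mp ((abs_coord_le v i).trans (hvn v hv).1)
      simp only [PiLp.add_apply, PiLp.sub_apply]
      rw [abs_lt]; constructor <;> linarith only [h1, h2]
  have hbad : ∀ v ∈ V, volume {x | x ∈ cubeO z r ∧ x + v ∈ cubeO z r ∧ x ∉ E ∧ x + v ∈ E} ≤
      ENNReal.ofReal (g * d) := fun v hv =>
    DG3_mono h (hvn v hv).2 (by gcongr; exact (hvn v hv).1)
  have hg3 : 0 < g ^ 3 / 432 := by positivity
  have fin : ∀ {A : Set E3}, volume.real A * (g ^ 3 / 432) ≤ volume.real V * (g * d) →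
      volume.real A ≤ 2 * g * d := fun {A} hA => by
    rw [hVv] at hA
    refine le_of_mul_le_mul_right ?_ hg3
    linarith only [hA]
  by_cases h1 : volume.real (E ∩ cubeO z r) ≤ g ^ 3 / 432
  · left
    refine fin (DG3_avg (hE.inter hQ') hV (DG3_fin _ _) (DG3_fin' Set.inter_subset_right)
      (T := {p | p.1 - p.2 ∉ E}) (hE.preimage (by fun_prop)).compl hg3.le (by positivity) ?_ ?_)
    · intro y hy
      have e : volume ((fun v : E3 => y - v) ⁻¹' (E ∩ cubeO z r)) = volume (E ∩ cubeO z r) :=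
        (Measure.measurePreserving_sub_left volume y).measure_preimage
          (hE.inter (isOpen_cubeO z r).measurableSet).nullMeasurableSet
      refine le_trans (DG3_half_vol (C := (fun v : E3 => y - v) ⁻¹' (E ∩ cubeO z r))
        (DG3_fin _ _) ?_ hVv ?_) (measure_mono fun v hv => ⟨hv.1, fun hc => ?_⟩)
      · rw [e]; exact DG3_fin' Set.inter_subset_right
      · rw [Measure.real, e]; exact h1
      · exact hv.2 ⟨hc, ((hin y hy.2).2 v hv.1).2⟩
    · intro v hv
      refine le_trans ?_ (hbad v hv)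
      rw [← measure_preimage_add_right volume v]
      refine measure_mono fun x hx => ?_
      have h2 := hin _ hx.1.2
      have h3 := (h2.2 v hv).2
      have h4 : x + v - v ∉ E := hx.2
      rw [add_sub_cancel_right] at h3 h4
      exact ⟨h3, h2.1, h4, hx.1.1⟩
  by_cases h2 : volume.real (cubeO z r \ E) ≤ g ^ 3 / 432
  · right; left
    refine fin (DG3_avg (hQ'.diff hE) hV (DG3_fin _ _) (DG3_fin' Set.diff_subset)
      (T := {p | p.1 + p.2 ∈ E}) (hE.preimage (by fun_prop)) hg3.le (by positivity) ?_ ?_)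
    · intro y hy
      have e : volume ((fun v : E3 => y + v) ⁻¹' (cubeO z r \ E)) = volume (cubeO z r \ E) :=
        measure_preimage_add volume y _
      refine le_trans (DG3_half_vol (C := (fun v : E3 => y + v) ⁻¹' (cubeO z r \ E))
        (DG3_fin _ _) ?_ hVv ?_) (measure_mono fun v hv => ⟨hv.1, ?_⟩)
      · rw [e]; exact DG3_fin' Set.diff_subset
      · rw [Measure.real, e]; exact h2
      · by_contra hc
        exact hv.2 ⟨((hin y hy.1).2 v hv.1).1, hc⟩
    · intro v hv
      refine le_trans (measure_mono fun x hx => ?_) (hbad v hv)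
      have h3 := hin _ hx.1.1
      exact ⟨h3.1, (h3.2 v hv).1, hx.1.2, hx.2⟩
  · exact Or.inr (Or.inr ⟨(not_le.mp h1).le, (not_le.mp h2).le⟩)

end Pool.Agent.Work.MP_b59478_pr
end
end

-- merged part: Pool.Agent.Work.MP_b59478_pr.DG4b
section
/-! grid: with st = Real.smoothTransition let b t = st (t - 1) - st (t - (K - 2)); it is in [0, 1],
vanishes off (1, K - 1), has bounded derivative, and the sum over the integers l of b (t - l) is
K - 3. For l in Z ^ 3 let chi_l x be the product of b (x i / g - l i), centre z i = g (l i + K / 2).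
For B large the sum of chi_l over l in [-B, B] ^ 3 is (K - 3) ^ 3 on the support of phi. Group the l by
their class modulo K; the cubes of one class are disjoint; one of the K ^ 3 classes has at least the
average.
flux: k = axis n. For p orthogonal to n the half-space is invariant under translation by multiples
of p, so the integral of fderiv chi x p vanishes; so it is alpha * inner p n. For p = e_k, Fubini
along the lines in direction k gives alpha * |n k| = integral over y in the plane of the two other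
coordinates of chi (y, h y), h y the height of the plane inner x n = t. This is at most the area of
the set of y with (y, h y) in cubeO z rho, covered by the closed squares of the grid of side 2 l that
meet it; the centres are lifted to the plane; |h y - h y'| <= 2 l in a square.
-/

set_option autoImplicit false

noncomputable section

namespace Pool.Agent.Work.MP_b59478_pr

open Classical Filter Topology MeasureTheory
open scoped symmDiff Pointwise

theorem DG4b_axis (n : E3) (i : Fin 3) : |n i| ≤ |n (axis n)| := by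
  have h : |n 0| ≤ |n (axis n)| ∧ |n 1| ≤ |n (axis n)| ∧ |n 2| ≤ |n (axis n)| := by
    unfold axis
    by_cases h1 : |n 1| ≤ |n 0| ∧ |n 2| ≤ |n 0|
    · rw [if_pos h1]
      exact ⟨le_rfl, h1⟩
    · rw [if_neg h1]
      rw [not_and_or, not_le, not_le] at h1
      by_cases h2 : |n 2| ≤ |n 1|
      · rw [if_pos h2]
        exact ⟨by rcases h1 with h | h <;> linarith, le_rfl, h2⟩
      · rw [if_neg h2]
        rw [not_le] at h2
        exact ⟨by rcases h1 with h | h <;> linarith, h2.le, le_rfl⟩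
  fin_cases i
  exacts [h.1, h.2.1, h.2.2]

theorem DG4b_inner (x n : E3) : inner ℝ x n = ∑ i, x i * n i := by
  simp only [PiLp.inner_apply, RCLike.inner_apply, conj_trivial]
  exact Finset.sum_congr rfl fun i _ => mul_comm _ _

theorem DG4b_ne {n : E3} (hn : ‖n‖ = 1) : n (axis n) ≠ 0 := by
  intro h
  have : n = 0 := by
    ext i
    have := DG4b_axis n i
    rw [h, abs_zero] at this
    exact abs_nonpos_iff.mp this
  rw [this, norm_zero] at hn
  exact zero_ne_one hn

theorem DG4b_meas (n : E3) (t : ℝ) : MeasurableSet {x : E3 | inner ℝ x n ≤ t} :=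
  (isClosed_le (by fun_prop) continuous_const).measurableSet

/-- Translation of the half-space. -/
theorem DG4b_shift (χ : E3 → ℝ) (n v : E3) (t : ℝ) :
    ∫ x in {x : E3 | inner ℝ x n ≤ t}, χ (x + v) =
      ∫ x in {x : E3 | inner ℝ x n ≤ t + inner ℝ v n}, χ x := by
  rw [← integral_indicator (DG4b_meas n _), ← integral_indicator (DG4b_meas n _),
    ← integral_add_right_eq_self
      (Set.indicator {x : E3 | inner ℝ x n ≤ t + inner ℝ v n} fun x => χ x) v]
  refine integral_congr_ae (Eventually.of_forall fun x => ?_)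
  simp only [Set.indicator, Set.mem_ofPred_eq, inner_add_left, add_le_add_iff_right]

/-- Differentiation under the integral. -/
theorem DG4b_deriv {χ : E3 → ℝ} (hχ : ContDiff ℝ 1 χ) (hc : HasCompactSupport χ) (H : Set E3)
    (p : E3) : HasDerivAt (fun s : ℝ => ∫ x in H, χ (x + s • p)) (∫ x in H, fderiv ℝ χ x p) 0 := by
  have c1 : Continuous (fderiv ℝ χ) := hχ.continuous_fderiv one_ne_zero
  obtain ⟨C, hC⟩ := c1.bounded_above_of_compact_support (hc.fderiv ℝ)
  obtain ⟨R, hR⟩ := hc.isCompact.isBounded.subset_closedBall 0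
  have h := hasDerivAt_integral_of_dominated_loc_of_deriv_le (μ := volume.restrict H)
    (F := fun (s : ℝ) (x : E3) => χ (x + s • p)) (F' := fun s x => fderiv ℝ χ (x + s • p) p)
    (bound := (Metric.closedBall (0 : E3) (R + ‖p‖)).indicator fun _ => C * ‖p‖)
    (Metric.closedBall_mem_nhds (0 : ℝ) one_pos)
    (Eventually.of_forall fun s => (hχ.continuous.comp (by fun_prop)).aestronglyMeasurable)
    (by simpa using (hχ.continuous.integrable_of_hasCompactSupport hc).restrict (s := H))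
    (Continuous.aestronglyMeasurable (by fun_prop))
    (Eventually.of_forall fun x s hs => ?_)
    (Integrable.integrableOn ((integrable_indicator_iff measurableSet_closedBall).mpr
      (continuous_const.continuousOn.integrableOn_compact (isCompact_closedBall _ _))))
    (Eventually.of_forall fun x s _ => ?_)
  · simpa using h.2
  · by_cases hx : x ∈ Metric.closedBall (0 : E3) (R + ‖p‖)
    · rw [Set.indicator_of_mem hx]
      exact (ContinuousLinearMap.le_opNorm _ _).trans
        (mul_le_mul_of_nonneg_right (hC _) (norm_nonneg _))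
    · rw [Set.indicator_of_notMem hx, fderiv_of_notMem_tsupport ℝ fun h => hx ?_]
      · simp
      · have h1 := mem_closedBall_zero_iff.mp (hR h)
        have h2 : ‖s • p‖ ≤ ‖p‖ := by
          rw [norm_smul]
          exact mul_le_of_le_one_left (norm_nonneg _) (mem_closedBall_zero_iff.mp hs)
        have h3 := norm_sub_le (x + s • p) (s • p)
        rw [add_sub_cancel_right] at h3
        exact mem_closedBall_zero_iff.mpr (by linarith)
  · have h1 : HasDerivAt (fun s : ℝ => x + s • p) p s := by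
      simpa using ((hasDerivAt_id s).smul_const p).const_add x
    exact (hχ.differentiable one_ne_zero _).hasFDerivAt.comp_hasDerivAt s h1

/-- The part of a slab over a square. -/
def DG4b_col (n c : E3) (k : Fin 3) (l t s : ℝ) : Set E3 :=
  {x | (∀ i, i ≠ k → |x i - c i| ≤ l) ∧ t ≤ inner ℝ x n ∧ inner ℝ x n ≤ t + s}

theorem DG4b_vol {n : E3} {k : Fin 3} (hk : n k ≠ 0) (c : E3) {l s : ℝ} (hl : 0 ≤ l) (hs : 0 ≤ s)
    (t : ℝ) : volume (DG4b_col n c k l t s) = ENNReal.ofReal ((2 * l) ^ 2 * (s / |n k|)) := by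
  let M : Matrix (Fin 3) (Fin 3) ℝ := Matrix.updateRow 1 k fun j => n j
  have hd : LinearMap.det (Matrix.toLin' M) = n k := by
    rw [LinearMap.det_toLin']
    fin_cases k <;> simp [M, Matrix.det_fin_three, Matrix.updateRow_apply]
  have hM : ∀ (x : E3) (i : Fin 3),
      Matrix.toLin' M x.ofLp i = if i = k then inner ℝ x n else x i := by
    intro x i
    rw [Matrix.toLin'_apply, DG4b_inner]
    split_ifs with h
    · subst h
      simp [M, Matrix.mulVec, dotProduct, mul_comm]
    · simp [M, Matrix.mulVec, dotProduct, Matrix.updateRow_ne h, Matrix.one_apply]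
  have e : DG4b_col n c k l t s = WithLp.ofLp ⁻¹' (Matrix.toLin' M ⁻¹'
      Set.Icc (fun i => if i = k then t else c i - l) fun i => if i = k then t + s else c i + l) := by
    ext x
    simp only [DG4b_col, Set.mem_ofPred_eq, Set.mem_preimage, Set.mem_Icc, Pi.le_def, hM]
    constructor
    · rintro ⟨h1, h2, h3⟩
      constructor <;> intro i <;> split_ifs with h
      · exact h2
      · linarith [(abs_le.mp (h1 i h)).1]
      · exact h3
      · linarith [(abs_le.mp (h1 i h)).2]
    · rintro ⟨h1, h2⟩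
      refine ⟨fun i h => ?_, by simpa using h1 k, by simpa using h2 k⟩
      have a1 := h1 i
      have a2 := h2 i
      simp only [if_neg h] at a1 a2
      exact abs_le.mpr ⟨by linarith, by linarith⟩
  rw [e, (PiLp.volume_preserving_ofLp (Fin 3)).measure_preimage
    ((LinearMap.continuous_of_finiteDimensional _).measurable measurableSet_Icc).nullMeasurableSet,
    Measure.addHaar_preimage_linearMap _ (by rwa [hd]), hd, Real.volume_Icc_pi,
    ← ENNReal.ofReal_prod_of_nonneg, ← ENNReal.ofReal_mul (abs_nonneg _)]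
  · congr 1
    rw [abs_inv]
    fin_cases k <;> simp [Fin.prod_univ_three] <;> ring
  · intro i _
    split_ifs <;> linarith only [hs, hl]

/-- The point of the plane over the centre of a square of the grid. -/
def DG4b_ctr (n : E3) (k : Fin 3) (l t : ℝ) (m : Fin 3 → ℤ) : E3 :=
  WithLp.toLp 2 fun i => if i = k then
    (t - ∑ j ∈ Finset.univ.erase k, 2 * l * (m j + 1 / 2) * n j) / n k else 2 * l * (m i + 1 / 2)

theorem DG4b_ctr_ne (n : E3) {k i : Fin 3} (h : i ≠ k) (l t : ℝ) (m : Fin 3 → ℤ) :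
    DG4b_ctr n k l t m i = 2 * l * (m i + 1 / 2) := if_neg h

theorem DG4b_ctr_inner {n : E3} {k : Fin 3} (hk : n k ≠ 0) (l t : ℝ) (m : Fin 3 → ℤ) :
    inner ℝ (DG4b_ctr n k l t m) n = t := by
  rw [DG4b_inner, ← Finset.add_sum_erase _ _ (Finset.mem_univ k),
    Finset.sum_congr rfl fun j hj => by rw [DG4b_ctr_ne n (Finset.ne_of_mem_erase hj)]]
  have : DG4b_ctr n k l t m k =
    (t - ∑ j ∈ Finset.univ.erase k, 2 * l * (m j + 1 / 2) * n j) / n k := if_pos rfl
  rw [this, div_mul_cancel₀ _ hk]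
  ring

theorem DG4b_height {n c x : E3} {k : Fin 3} (hk : ∀ i, |n i| ≤ |n k|) {l t s : ℝ} (hl : 0 ≤ l)
    (hc : inner ℝ c n = t) (hx : x ∈ DG4b_col n c k l t s) :
    |x k - c k| * |n k| ≤ s + 2 * l * |n k| := by
  obtain ⟨h1, h2, h3⟩ := hx
  have e : (x k - c k) * n k =
      (inner ℝ x n - inner ℝ c n) - ∑ j ∈ Finset.univ.erase k, (x j - c j) * n j := by
    rw [DG4b_inner, DG4b_inner, ← Finset.sum_sub_distrib,
      ← Finset.add_sum_erase _ _ (Finset.mem_univ k)]
    simp only [sub_mul]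
    ring
  have b : |∑ j ∈ Finset.univ.erase k, (x j - c j) * n j| ≤ 2 * l * |n k| := by
    refine (Finset.abs_sum_le_sum_abs _ _).trans ((Finset.sum_le_card_nsmul _ _ (l * |n k|)
      fun j hj => ?_).trans (le_of_eq ?_))
    · rw [abs_mul]
      exact mul_le_mul (h1 j (Finset.ne_of_mem_erase hj)) (hk j) (abs_nonneg _) hl
    · rw [Finset.card_erase_of_mem (Finset.mem_univ k)]
      simp only [Finset.card_univ, Fintype.card_fin, nsmul_eq_mul]
      norm_num
      ring
  rw [← abs_mul, e, hc]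
  refine (abs_sub _ _).trans (add_le_add (abs_le.mpr ⟨?_, ?_⟩) b) <;> linarith only [h2, h3]

theorem flux {χ : E3 → ℝ} (hχ : ContDiff ℝ 1 χ) (hc : HasCompactSupport χ)
    (h01 : ∀ x, 0 ≤ χ x ∧ χ x ≤ 1) {z n : E3} {ρ g l : ℝ} (hs : ∀ x, χ x ≠ 0 → x ∈ cubeO z ρ)
    (hn : ‖n‖ = 1) (t : ℝ) (hl : 0 < l) (hg : 5 * l ≤ g) : ∃ (α : ℝ) (cs : Finset E3), 0 ≤ α ∧
    (∀ p : E3, ∫ x in {x : E3 | inner ℝ x n ≤ t}, fderiv ℝ χ x p = α * inner ℝ p n) ∧
    α * |n (axis n)| ≤ cs.card * (2 * l) ^ 2 ∧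
    (∀ c ∈ cs, inner ℝ c n = t ∧ cylR c (axis n) l ⊆ cubeO z (ρ + g)) ∧
    ∀ c ∈ cs, ∀ c' ∈ cs, c ≠ c' → Disjoint (cylR c (axis n) l) (cylR c' (axis n) l) := by
  set k := axis n with hk
  have k0 : n k ≠ 0 := DG4b_ne hn
  have k1 : 0 < |n k| := abs_pos.mpr k0
  have ki : ∀ i, |n i| ≤ |n k| := DG4b_axis n
  have iχ : Integrable χ := hχ.continuous.integrable_of_hasCompactSupport hc
  let G : ℝ → ℝ := fun u => ∫ x in {x : E3 | inner ℝ x n ≤ u}, χ x
  have dG : ∀ p : E3, HasDerivAt (fun s : ℝ => G (t + s * inner ℝ p n))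
      (∫ x in {x : E3 | inner ℝ x n ≤ t}, fderiv ℝ χ x p) 0 := fun p => by
    have := DG4b_deriv hχ hc {x : E3 | inner ℝ x n ≤ t} p
    simp only [DG4b_shift, real_inner_smul_left] at this
    exact this
  obtain ⟨α, hα⟩ : ∃ α, HasDerivAt (fun s : ℝ => G (t + s)) α 0 := by
    have := dG n
    simp only [real_inner_self_eq_norm_sq, hn, one_pow, mul_one] at this
    exact ⟨_, this⟩
  have sl := hα.tendsto_slope_zero_right
  simp only [zero_add, add_zero, smul_eq_mul] at sl
  have dif : ∀ s, 0 < s → G (t + s) - G t =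
      ∫ x in {x : E3 | inner ℝ x n ≤ t + s} \ {x : E3 | inner ℝ x n ≤ t}, χ x := fun s h =>
    (setIntegral_sdiff (DG4b_meas n t) iχ.integrableOn fun x hx => by
      simp only [Set.mem_ofPred_eq] at hx ⊢
      linarith).symm
  let F : Finset (Fin 3 → ℤ) :=
    Fintype.piFinset fun i => Finset.Icc ⌊(z i - ρ) / (2 * l)⌋ ⌊(z i + ρ) / (2 * l)⌋
  let P : (Fin 3 → ℤ) → ℝ → Prop := fun m s =>
    ∃ x ∈ cubeO z ρ, x ∈ DG4b_col n (DG4b_ctr n k l t m) k l t s
  let cs := (F.filter fun m => ∃ᶠ s in 𝓝[>] (0 : ℝ), P m s).image (DG4b_ctr n k l t)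
  refine ⟨α, cs, ?_, fun p => ?_, ?_, fun c hc => ?_, fun c hc c' hc' hne => ?_⟩
  · refine ge_of_tendsto sl (eventually_mem_nhdsWithin.mono fun s (h : 0 < s) => ?_)
    rw [dif s h]
    exact mul_nonneg (inv_nonneg.mpr h.le) (integral_nonneg fun x => (h01 x).1)
  · refine (dG p).unique ?_
    have h1 : HasDerivAt (fun s : ℝ => s * inner ℝ p n) (inner ℝ p n) 0 := by
      simpa using (hasDerivAt_id (0 : ℝ)).mul_const (inner ℝ p n)
    exact HasDerivAt.comp (h₂ := fun s : ℝ => G (t + s)) 0 (by simpa using hα) h1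
  · rw [← le_div_iff₀ k1]
    have ev : ∀ᶠ s in 𝓝[>] (0 : ℝ), ∀ m ∈ F, (¬ ∃ᶠ s in 𝓝[>] (0 : ℝ), P m s) → ¬ P m s := by
      rw [eventually_all_finset]
      intro m _
      by_cases h : ∃ᶠ s in 𝓝[>] (0 : ℝ), P m s
      · exact Eventually.of_forall fun s h' => absurd h h'
      · exact (not_frequently.mp h).mono fun s h' _ => h'
    refine le_of_tendsto sl ((ev.and eventually_mem_nhdsWithin).mono
      fun s ⟨h1, (h : 0 < s)⟩ => ?_)
    have fin : volume (⋃ c ∈ cs, DG4b_col n c k l t s) ≠ ⊤ :=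
      ((measure_biUnion_finset_le _ _).trans_lt (ENNReal.sum_lt_top.mpr fun c _ => by
        rw [DG4b_vol k0 c hl.le h.le]; exact ENNReal.ofReal_lt_top)).ne
    rw [dif s h, inv_mul_le_iff₀ h, setIntegral_eq_of_subset_of_forall_sdiff_eq_zero
      ((DG4b_meas n _).diff (DG4b_meas n _))
      (Set.inter_subset_left (t := ⋃ c ∈ cs, DG4b_col n c k l t s)) fun x hx => ?_]
    · refine (Real.le_norm_self _).trans ((norm_setIntegral_le_of_norm_le_const (C := 1)
        ((measure_mono Set.inter_subset_right).trans_lt fin.lt_top) fun x _ => ?_).trans ?_)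
      · rw [Real.norm_of_nonneg (h01 x).1]
        exact (h01 x).2
      · rw [one_mul]
        refine (measureReal_mono Set.inter_subset_right fin).trans
          ((measureReal_biUnion_finset_le _ _).trans (le_of_eq ?_))
        rw [Finset.sum_congr rfl fun c _ => by
          rw [measureReal_def, DG4b_vol k0 c hl.le h.le, ENNReal.toReal_ofReal (by positivity)]]
        rw [Finset.sum_const, nsmul_eq_mul]
        ring
    · by_contra h0
      have hx0 := hs x h0
      have l2 : 0 < 2 * l := by linarith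
      have hcol : x ∈ DG4b_col n (DG4b_ctr n k l t fun i => ⌊x i / (2 * l)⌋) k l t s := by
        refine ⟨fun i hi => ?_, (not_le.mp hx.1.2).le, hx.1.1⟩
        rw [DG4b_ctr_ne n hi]
        have a1 := (le_div_iff₀ l2).mp (Int.floor_le (x i / (2 * l)))
        have a2 := (div_lt_iff₀ l2).mp (Int.lt_floor_add_one (x i / (2 * l)))
        exact abs_le.mpr ⟨by linarith only [a1], by linarith only [a2]⟩
      have hF : (fun i => ⌊x i / (2 * l)⌋) ∈ F := by
        refine Fintype.mem_piFinset.mpr fun i => Finset.mem_Icc.mpr ⟨?_, ?_⟩ <;>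
          refine Int.floor_mono (div_le_div_of_nonneg_right ?_ l2.le)
        · linarith [(abs_lt.mp (hx0 i)).1]
        · linarith [(abs_lt.mp (hx0 i)).2]
      refine hx.2 ⟨hx.1, Set.mem_iUnion₂.mpr ⟨_, Finset.mem_image_of_mem _
        (Finset.mem_filter.mpr ⟨hF, ?_⟩), hcol⟩⟩
      by_contra h2
      exact h1 _ hF h2 ⟨x, hx0, hcol⟩
  · obtain ⟨m, hm, rfl⟩ := Finset.mem_image.mp hc
    have fr := (Finset.mem_filter.mp hm).2
    have hi := DG4b_ctr_inner k0 l t m
    refine ⟨hi, fun w hw i => ?_⟩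
    have hw' := hw i
    have tri : ∀ x : E3, |w i - z i| ≤ |w i - DG4b_ctr n k l t m i| +
        (|x i - DG4b_ctr n k l t m i| + |x i - z i|) := fun x => by
      refine (abs_sub_le _ (DG4b_ctr n k l t m i) _).trans (add_le_add le_rfl ?_)
      rw [abs_sub_comm (x i) (DG4b_ctr n k l t m i)]
      exact abs_sub_le _ _ _
    by_cases h : i = k
    · subst h
      rw [if_pos rfl] at hw'
      have e0 : 0 < (3 * l - |w k - DG4b_ctr n k l t m k|) * |n k| := mul_pos (by linarith) k1
      obtain ⟨s, ⟨x, hx, hx'⟩, hlt⟩ :=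
        (fr.and_eventually ((eventually_lt_nhds e0).filter_mono nhdsWithin_le_nhds)).exists
      have h2 := DG4b_height ki hl.le hi hx'
      have h3 : |x k - DG4b_ctr n k l t m k| ≤ 5 * l - |w k - DG4b_ctr n k l t m k| :=
        le_of_mul_le_mul_right (by linarith) k1
      linarith [tri x, hx k]
    · rw [if_neg h] at hw'
      obtain ⟨s, x, hx, hx'⟩ := fr.exists
      linarith [tri x, hx i, hx'.1 i h]
  · obtain ⟨m, -, rfl⟩ := Finset.mem_image.mp hc
    obtain ⟨m', -, rfl⟩ := Finset.mem_image.mp hc'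
    refine Set.disjoint_left.mpr fun w h1 h2 => hne ?_
    have key : ∀ i, i ≠ k → m i = m' i := fun i hi => by
      have a1 := h1 i
      have a2 := h2 i
      rw [if_neg hi, DG4b_ctr_ne n hi, abs_lt] at a1 a2
      have b1 : (m i : ℝ) < m' i + 1 := lt_of_mul_lt_mul_left (a := 2 * l) (by linarith only [a1, a2]) (by linarith only [hl])
      have b2 : (m' i : ℝ) < m i + 1 := lt_of_mul_lt_mul_left (a := 2 * l) (by linarith only [a1, a2]) (by linarith only [hl])
      have c1 : m i < m' i + 1 := by exact_mod_cast b1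
      have c2 : m' i < m i + 1 := by exact_mod_cast b2
      omega
    unfold DG4b_ctr
    congr 1
    funext i
    split_ifs with h
    · rw [Finset.sum_congr rfl fun j hj => by rw [key j (Finset.ne_of_mem_erase hj)]]
    · rw [key i h]

end Pool.Agent.Work.MP_b59478_pr
end
end

-- merged part: Pool.Agent.Work.MP_b59478_pr.DG5
section
/-! A quantitative De Giorgi theorem. Order of the constants: K with (1 - ((K-3)/K) ^ 3) |I| small,
I the integral of dv phi; r = K g / 2, l = g / 5; zeta' for half with zeta' r ^ 3 <= zeta l ^ 3 and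
small against delta; theta, kappa from half; eta for defect; finally g small (4 r <= r0 and phi
oscillates little on the cubes). With grid, the integral over E of dv (chi phi) is the integral of
fderiv chi x (phi z) plus that of dv (chi (phi - phi z)); the second terms add up to the field
sum of chi z (phi - phi z), of small norm (disjoint supports), so int_dv_le applies. For the first
terms: fderiv chi vanishes where chi vanishes (a minimum), and integrates to 0, so it is at most
norm (phi z) * Cg / g * min (vol (E inter inner cube), vol (inner cube minus E)). dich: in the first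
two cases this is at most C d. The cubes of the third kind number at most C(K) P / r ^ 2
(pair_count); those with d > kappa r ^ 2 number at most eta / (kappa r ^ 2) and contribute at most
C K r ^ 2 each; for the others replace E by the half-space of half at cost C K zeta' r ^ 2 and use
flux: alpha * inner (phi z) n <= sigma n * card cs * (2 l) ^ 2 / |n k|.
-/

set_option autoImplicit false

noncomputable section

namespace Pool.Agent.Work.MP_b59478_pr

open Classical Filter Topology MeasureTheory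
open scoped symmDiff Pointwise

theorem DG5_int_diff {f : E3 → ℝ} (hf : Integrable f) {c : ℝ} (hc : ∀ x, |f x| ≤ c)
    {Q A B : Set E3} (hQ : MeasurableSet Q) (hfin : volume Q ≠ ⊤) (h0 : ∀ x, x ∉ Q → f x = 0)
    (hA : MeasurableSet A) (hB : MeasurableSet B) :
    ∫ x in A, f x ≤ (∫ x in B, f x) + c * volume.real ((A ∆ B) ∩ Q) := by
  have hS : MeasurableSet ((A ∆ B) ∩ Q) := (hA.symmDiff hB).inter hQ
  have hSf : volume ((A ∆ B) ∩ Q) ≠ ⊤ := measure_ne_top_of_subset Set.inter_subset_right hfin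
  have hi : Integrable (((A ∆ B) ∩ Q).indicator fun _ : E3 => c) :=
    (integrable_indicator_iff hS).2 (integrableOn_const hSf)
  have h1 : c * volume.real ((A ∆ B) ∩ Q) = ∫ x, ((A ∆ B) ∩ Q).indicator (fun _ => c) x := by
    rw [integral_indicator hS]; simp [mul_comm]
  rw [← integral_indicator hA, ← integral_indicator hB, h1, ← integral_add (hf.indicator hB) hi]
  refine integral_mono (hf.indicator hA) ((hf.indicator hB).add hi) fun x => ?_
  have h2 := abs_le.1 (hc x)
  have h3 := h0 x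
  by_cases hxA : x ∈ A <;> by_cases hxB : x ∈ B <;> by_cases hxQ : x ∈ Q <;>
    simp [Set.indicator, Set.mem_symmDiff, hxA, hxB, hxQ] at h3 ⊢ <;> linarith only [h2, h3]

theorem DG5_cube_mono (z : E3) {a b : ℝ} (h : a ≤ b) : cubeO z a ⊆ cubeO z b :=
  fun _ hx i => (hx i).trans_le h

theorem DG5_cube {E : Set E3} (hE : MeasurableSet E) {χ : E3 → ℝ} (hχ : ContDiff ℝ 1 χ)
    (hc : HasCompactSupport χ) (h01 : ∀ x, 0 ≤ χ x ∧ χ x ≤ 1) {z n p : E3}
    {r g l d θ κ ζ' Cg M s : ℝ} (hs : ∀ x, χ x ≠ 0 → x ∈ cubeO z (r - g))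
    (hD : ∀ x, ‖fderiv ℝ χ x‖ ≤ Cg / g) (hCg : 0 ≤ Cg) (hp : ‖p‖ ≤ M) (hg : 0 < g) (hgr : g ≤ r)
    (hl : 0 < l) (hlg : 5 * l ≤ g) (hn : ‖n‖ = 1) (hd : 0 ≤ d) (hθ : θ ≤ 1 / 3) (hκ : 0 < κ)
    (hζ : 0 ≤ ζ') (hmono : Mono E (cubeO z r) n θ d)
    (hhalf : d ≤ κ * r ^ 2 →
      ∃ t, volume.real ((E ∆ {x | inner ℝ x n ≤ t}) ∩ cubeO z r) ≤ ζ' * r ^ 3)
    (hs0 : 0 ≤ s) (hps : inner ℝ p n ≤ s) :
    ∃ cs : Finset E3, (∀ c ∈ cs, cylR c (axis n) l ⊆ cubeO z r ∧
      volume ((E ∆ hsR c n) ∩ cylR c (axis n) l) ≤ ENNReal.ofReal (ζ' * r ^ 3)) ∧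
      (∀ c ∈ cs, ∀ c' ∈ cs, c ≠ c' → Disjoint (cylR c (axis n) l) (cylR c' (axis n) l)) ∧
      ∫ x in E, fderiv ℝ χ x p ≤ cs.card * (s * (2 * l) ^ 2 / |n (axis n)|) +
        (2 * M * Cg + 8 * M * Cg * (r / g) / κ) * d +
        M * Cg * ζ' * 432 ^ 2 * r ^ 3 / g ^ 7 *
          (volume.real (E ∩ cubeO z r) * volume.real (cubeO z r \ E)) := by
  have hM : 0 ≤ M := (norm_nonneg _).trans hp
  have hr : 0 < r := hg.trans_le hgr
  have hint : Integrable fun x => fderiv ℝ χ x p := by
    have := (fld_smul_const hχ hc p).integrable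
    rwa [show dv (fun x => χ x • p) = fun x => fderiv ℝ χ x p from
      funext fun x => dv_smul_const hχ p x] at this
  have hb : ∀ x, |fderiv ℝ χ x p| ≤ Cg / g * M := fun x =>
    ((fderiv ℝ χ x).le_opNorm p).trans (mul_le_mul (hD x) hp (norm_nonneg _) (by positivity))
  have hz : ∀ x, x ∉ cubeO z (r - g) → fderiv ℝ χ x p = 0 := by
    intro x hx
    have h0 : χ x = 0 := by
      by_contra h; exact hx (hs x h)
    have hm : IsLocalMin χ x := Eventually.of_forall fun y => by rw [h0]; exact (h01 y).1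
    rw [hm.fderiv_eq_zero]; rfl
  have hz' : ∀ x, x ∉ cubeO z r → fderiv ℝ χ x p = 0 := fun x hx =>
    hz x fun h => hx (DG5_cube_mono z (by linarith) h)
  have hfin : ∀ {a : ℝ}, 0 ≤ a → volume (cubeO z a) ≠ ⊤ := fun ha => by
    rw [volume_cubeO z ha]; exact ENNReal.ofReal_ne_top
  have hc1 : 0 ≤ 2 * M * Cg := by positivity
  have hc2 : 0 ≤ 8 * M * Cg * (r / g) / κ := by positivity
  have hc3 : 0 ≤ M * Cg * ζ' * 432 ^ 2 * r ^ 3 / g ^ 7 *
      (volume.real (E ∩ cubeO z r) * volume.real (cubeO z r \ E)) := by positivity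
  have hcb : 0 ≤ Cg / g * M := by positivity
  have triv : ∫ x in E, fderiv ℝ χ x p ≤ (2 * M * Cg + 8 * M * Cg * (r / g) / κ) * d →
      ∃ cs : Finset E3, (∀ c ∈ cs, cylR c (axis n) l ⊆ cubeO z r ∧
      volume ((E ∆ hsR c n) ∩ cylR c (axis n) l) ≤ ENNReal.ofReal (ζ' * r ^ 3)) ∧
      (∀ c ∈ cs, ∀ c' ∈ cs, c ≠ c' → Disjoint (cylR c (axis n) l) (cylR c' (axis n) l)) ∧
      ∫ x in E, fderiv ℝ χ x p ≤ cs.card * (s * (2 * l) ^ 2 / |n (axis n)|) +
        (2 * M * Cg + 8 * M * Cg * (r / g) / κ) * d +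
        M * Cg * ζ' * 432 ^ 2 * r ^ 3 / g ^ 7 *
          (volume.real (E ∩ cubeO z r) * volume.real (cubeO z r \ E)) := fun h =>
    ⟨∅, by simp, by simp, by simp only [Finset.card_empty, Nat.cast_zero, zero_mul, zero_add]; linarith only [hc3, h]⟩
  have e2 : Cg / g * M * (2 * g * d) = 2 * M * Cg * d := by field_simp
  rcases dich hE hg hgr hn hd hθ hmono with h1 | h1 | ⟨h1, h2⟩
  · refine triv ?_
    have := DG5_int_diff hint hb (isOpen_cubeO z (r - g)).measurableSet (hfin (by linarith only [hgr])) hz hE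
      MeasurableSet.empty
    have e : E ∆ (∅ : Set E3) = E := by simp [Set.symmDiff_def]
    rw [e, Measure.restrict_empty, integral_zero_measure] at this
    have h3 := mul_le_mul_of_nonneg_left h1 hcb
    nlinarith only [e2, this, h3, hc2, hd, mul_nonneg hc2 hd]
  · refine triv ?_
    have := DG5_int_diff hint hb (isOpen_cubeO z (r - g)).measurableSet (hfin (by linarith only [hgr])) hz hE
      MeasurableSet.univ
    have e : E ∆ (Set.univ : Set E3) ∩ cubeO z (r - g) = cubeO z (r - g) \ E := by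
      ext x; simp [Set.mem_symmDiff, and_comm]
    rw [e, Measure.restrict_univ, integral_fderiv_zero hχ hc] at this
    have h3 := mul_le_mul_of_nonneg_left h1 hcb
    nlinarith only [e2, this, h3, hc2, hd, mul_nonneg hc2 hd]
  by_cases hdk : d ≤ κ * r ^ 2
  swap
  · refine triv ?_
    have := DG5_int_diff hint hb (isOpen_cubeO z r).measurableSet (hfin hr.le) hz' hE
      MeasurableSet.empty
    rw [Measure.restrict_empty, integral_zero_measure] at this
    have h3 : volume.real (E ∆ ∅ ∩ cubeO z r) ≤ (2 * r) ^ 3 := by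
      refine (measureReal_mono Set.inter_subset_right (hfin hr.le)).trans ?_
      rw [Measure.real, volume_cubeO z hr.le, ENNReal.toReal_ofReal (by positivity)]
    have h4 := mul_le_mul_of_nonneg_left h3 hcb
    have h5 : Cg / g * M * (2 * r) ^ 3 = 8 * M * Cg * (r / g) / κ * (κ * r ^ 2) := by
      field_simp; ring
    have h6 := mul_le_mul_of_nonneg_left (not_le.1 hdk).le hc2
    nlinarith only [this, h4, h5, h6, hc1, hd, mul_nonneg hc1 hd]
  obtain ⟨t, ht⟩ := hhalf hdk
  obtain ⟨α, cs, hα, hfl, hcard, hcs, hdis⟩ := flux (g := g) hχ hc h01 hs hn t hl hlg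
  have hH : MeasurableSet {x : E3 | inner ℝ x n ≤ t} :=
    (isClosed_le (by fun_prop) continuous_const).measurableSet
  refine ⟨cs, fun c hcm => ?_, hdis, ?_⟩
  · have hsub : cylR c (axis n) l ⊆ cubeO z r := by simpa using (hcs c hcm).2
    refine ⟨hsub, ?_⟩
    have e : hsR c n = {x : E3 | inner ℝ x n ≤ t} := by
      ext x
      simp only [hsR, Set.mem_ofPred_eq, inner_sub_left, (hcs c hcm).1, sub_nonpos]
    rw [e]
    refine (measure_mono (Set.inter_subset_inter_right _ hsub)).trans ?_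
    rw [← ENNReal.ofReal_toReal (measure_ne_top_of_subset Set.inter_subset_right (hfin hr.le))]
    exact ENNReal.ofReal_le_ofReal ht
  · have := DG5_int_diff hint hb (isOpen_cubeO z r).measurableSet (hfin hr.le) hz' hE hH
    rw [hfl] at this
    have h3 := mul_le_mul_of_nonneg_left ht hcb
    have ha : 0 < |n (axis n)| := by linarith only [hn, axis_half hn]
    have h4 : α * inner ℝ p n ≤ cs.card * (s * (2 * l) ^ 2 / |n (axis n)|) := by
      refine (mul_le_mul_of_nonneg_left hps hα).trans ?_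
      rw [← mul_div_assoc, le_div_iff₀ ha]
      nlinarith only [hcard, hs0, mul_le_mul_of_nonneg_left hcard hs0]
    have h5 : g ^ 3 / 432 * (g ^ 3 / 432) ≤
        volume.real (E ∩ cubeO z r) * volume.real (cubeO z r \ E) :=
      mul_le_mul h1 h2 (by positivity) measureReal_nonneg
    have h6 := mul_le_mul_of_nonneg_left h5
      (show 0 ≤ M * Cg * ζ' * 432 ^ 2 * r ^ 3 / g ^ 7 by positivity)
    have h7 : M * Cg * ζ' * 432 ^ 2 * r ^ 3 / g ^ 7 * (g ^ 3 / 432 * (g ^ 3 / 432)) =
        Cg / g * M * (ζ' * r ^ 3) := by field_simp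
    nlinarith only [this, h3, h4, h6, h7, hc1, hd, hc2, mul_nonneg hc1 hd, mul_nonneg hc2 hd]

theorem DG5_K (I : ℝ) {δ : ℝ} (hδ : 0 < δ) :
    ∃ K : ℕ, 4 ≤ K ∧ I ≤ (((K : ℝ) - 3) / K) ^ 3 * I + δ := by
  obtain ⟨K, hK⟩ := exists_nat_ge (max 4 (9 * |I| / δ))
  have h4 : (4 : ℝ) ≤ K := (le_max_left _ _).trans hK
  have h5 : 9 * |I| / δ ≤ K := (le_max_right _ _).trans hK
  refine ⟨K, by exact_mod_cast h4, ?_⟩
  have hK0 : (0 : ℝ) < K := by linarith
  obtain ⟨u, hu⟩ : ∃ u : ℝ, u = 3 / K := ⟨_, rfl⟩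
  have hu0 : 0 ≤ u := by rw [hu]; positivity
  have hu1 : u ≤ 1 := by rw [hu, div_le_one hK0]; linarith
  have e : ((K : ℝ) - 3) / K = 1 - u := by rw [hu]; field_simp
  rw [e]
  have h6 : 3 * u * |I| ≤ δ := by
    rw [div_le_iff₀ hδ] at h5
    have : 3 * u * |I| = 9 * |I| / K := by rw [hu]; ring
    rw [this, div_le_iff₀ hK0]; linarith
  have h7 : 0 ≤ 1 - (1 - u) ^ 3 := by nlinarith only [hu0, hu1, mul_nonneg hu0 hu0, sq_nonneg (u - 1)]
  have h8 : 1 - (1 - u) ^ 3 ≤ 3 * u := by nlinarith only [hu1, mul_nonneg hu0 hu0]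
  have h9 := mul_le_mul_of_nonneg_left (le_abs_self I) h7
  have h10 := mul_le_mul_of_nonneg_right h8 (abs_nonneg I)
  nlinarith only [h6, h9, h10]

theorem DG5_split {P ω r : ℝ} (hP : 0 ≤ P) {E : Set E3} (h : InK P E) {φ : E3 → E3} (hφ : Fld φ)
    (t : Finset E3) (χ : E3 → E3 → ℝ) (hω : 0 ≤ ω)
    (hdis : ∀ i ∈ t, ∀ j ∈ t, i ≠ j → Disjoint (cubeO i r) (cubeO j r))
    (hχ : ∀ z, ContDiff ℝ 1 (χ z)) (hc : ∀ z, HasCompactSupport (χ z))
    (h01 : ∀ z x, 0 ≤ χ z x ∧ χ z x ≤ 1) (hs : ∀ z x, χ z x ≠ 0 → x ∈ cubeO z r)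
    (hosc : ∀ z, ∀ x ∈ cubeO z r, ‖φ x - φ z‖ ≤ ω) :
    ∑ z ∈ t, ∫ x in E, dv (fun x => χ z x • φ x) x ≤
      (∑ z ∈ t, ∫ x in E, fderiv ℝ (χ z) x (φ z)) + 3 * P * ω := by
  have hF : ∀ z, Fld fun x => χ z x • φ x - χ z x • φ z := fun z =>
    (hφ.smul (hχ z)).sub (fld_smul_const (hχ z) (hc z) (φ z))
  have h1 : ∀ z, ∫ x in E, dv (fun x => χ z x • φ x) x =
      (∫ x in E, fderiv ℝ (χ z) x (φ z)) + ∫ x in E, dv (fun x => χ z x • φ x - χ z x • φ z) x := by
    intro z
    have e : ∀ x, dv (fun x => χ z x • φ x - χ z x • φ z) x =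
        dv (fun x => χ z x • φ x) x - dv (fun x => χ z x • φ z) x :=
      dv_sub (hφ.smul (hχ z)) (fld_smul_const (hχ z) (hc z) (φ z))
    simp_rw [e]
    rw [integral_sub (hφ.smul (hχ z)).integrable.integrableOn
      (fld_smul_const (hχ z) (hc z) (φ z)).integrable.integrableOn]
    simp_rw [dv_smul_const (hχ z)]
    ring
  simp_rw [h1]
  rw [Finset.sum_add_distrib]
  gcongr
  rw [← integral_finsetSum _ fun z _ => (hF z).integrable.integrableOn]
  simp_rw [← dv_sum t fun z _ => hF z]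
  refine int_dv_le hP h (Fld.sum t fun z _ => hF z) fun x => ?_
  by_cases hx : ∃ z ∈ t, χ z x ≠ 0
  · obtain ⟨z, hz, hzx⟩ := hx
    rw [Finset.sum_eq_single_of_mem z hz]
    · rw [← smul_sub, norm_smul, Real.norm_of_nonneg (h01 z x).1]
      have := hosc z x (hs z x hzx)
      nlinarith only [hω, this, (h01 z x).1, (h01 z x).2, norm_nonneg (φ x - φ z)]
    · intro y hy hyz
      have : χ y x = 0 := by
        by_contra h0
        exact Set.disjoint_left.1 (hdis y hy z hz hyz) (hs y x h0) (hs z x hzx)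
      simp [this]
  · push Not at hx
    rw [Finset.sum_eq_zero fun z hz => by simp [hx z hz]]
    simpa using hω

theorem dg {P δ ζ : ℝ} (hP : 0 ≤ P) {E : Set E3} (h : InK P E) (σ : E3 → ℝ)
    (hσ : ∀ n, ‖n‖ = 1 → 0 ≤ σ n) {φ : E3 → E3} (hφ : Fld φ)
    (hφσ : ∀ x n, ‖n‖ = 1 → inner ℝ (φ x) n ≤ σ n) (hδ : 0 < δ) (hζ : 0 < ζ) :
    ∃ (l : ℝ) (𝒞 : Finset (E3 × E3)), 0 < l ∧ (∀ p ∈ 𝒞, ‖p.2‖ = 1) ∧
    (∀ p ∈ 𝒞, ∀ p' ∈ 𝒞, p ≠ p' → Disjoint (cylR p.1 (axis p.2) l) (cylR p'.1 (axis p'.2) l)) ∧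
    (∀ p ∈ 𝒞, volume ((E ∆ hsR p.1 p.2) ∩ cylR p.1 (axis p.2) l) ≤ ENNReal.ofReal (ζ * l ^ 3)) ∧
    ∫ x in E, dv φ x ≤ ∑ p ∈ 𝒞, σ p.2 * (2 * l) ^ 2 / |p.2 (axis p.2)| + δ := by
  obtain ⟨Cg, hCg, hgrid⟩ := grid
  obtain ⟨M, hM⟩ := hφ.cs.exists_bound_of_continuous hφ.cd.continuous
  have hM0 : 0 ≤ M := (norm_nonneg _).trans (hM 0)
  obtain ⟨K, hK4, hK⟩ := DG5_K (∫ x in E, dv φ x) (show 0 < δ / 4 by positivity)
  have hK0 : (4 : ℝ) ≤ K := by exact_mod_cast hK4
  obtain ⟨B, hB⟩ : ∃ B : ℝ, B = M * Cg * 432 ^ 2 * 768 * P * ((K : ℝ) / 2) ^ 7 := ⟨_, rfl⟩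
  have hB0 : 0 ≤ B := by rw [hB]; positivity
  obtain ⟨ζ', hζ', hζ1, hζ2⟩ : ∃ ζ' : ℝ, 0 < ζ' ∧ ζ' * (5 * (K : ℝ) / 2) ^ 3 ≤ ζ ∧
      ζ' * B ≤ δ / 4 := by
    refine ⟨min (ζ / (5 * (K : ℝ) / 2) ^ 3) (δ / 4 / (B + 1)), by positivity, ?_, ?_⟩
    · exact (le_div_iff₀ (by positivity)).1 (min_le_left _ _)
    · have h1 := (le_div_iff₀ (show 0 < B + 1 by positivity)).1
        (min_le_right (ζ / (5 * (K : ℝ) / 2) ^ 3) (δ / 4 / (B + 1)))
      have h2 : 0 < min (ζ / (5 * (K : ℝ) / 2) ^ 3) (δ / 4 / (B + 1)) := by positivity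
      nlinarith only [h1, h2]
  obtain ⟨θ, κ, hθ, hθ3, hκ, hhalf⟩ := half hζ'
  obtain ⟨c1, hc1⟩ : ∃ c1 : ℝ, c1 = 2 * M * Cg + 8 * M * Cg * ((K : ℝ) / 2) / κ := ⟨_, rfl⟩
  have hc10 : 0 ≤ c1 := by rw [hc1]; positivity
  obtain ⟨r0, hr0, hdef⟩ := defect (η := δ / 4 / (c1 + 1)) hP h hθ (by linarith only [hθ, hθ3]) (by positivity)
  have huc : UniformContinuous φ := hφ.cs.uniformContinuous_of_continuous hφ.cd.continuous
  obtain ⟨ρ, hρ, hosc⟩ := Metric.uniformContinuous_iff.1 huc (δ / 4 / (3 * P + 1)) (by positivity)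
  obtain ⟨g, hg, hg1, hg2⟩ : ∃ g : ℝ, 0 < g ∧ 4 * (K * g / 2) ≤ r0 ∧ 2 * (K * g / 2) < ρ := by
    have hm : 0 < min r0 ρ := lt_min hr0 hρ
    have e : (K : ℝ) * (min r0 ρ / (4 * K)) / 2 = min r0 ρ / 8 := by field_simp; ring
    refine ⟨min r0 ρ / (4 * K), by positivity, ?_, ?_⟩ <;> rw [e]
    · linarith only [hr0, min_le_left r0 ρ]
    · linarith only [hρ, min_le_right r0 ρ]
  obtain ⟨t, χ, hdis, hχ, hsum⟩ := hgrid K E φ g hK4 h.meas hφ hg
  obtain ⟨r, hr⟩ : ∃ r : ℝ, r = K * g / 2 := ⟨_, rfl⟩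
  rw [← hr] at hdis hχ hg1 hg2
  have hgr : g ≤ r := by rw [hr]; nlinarith only [hg, hK0]
  have hr0' : 0 < r := hg.trans_le hgr
  have hrg : r / g = K / 2 := by rw [hr]; field_simp
  have hdiam : ∀ j : E3, ∀ x ∈ cubeO j r, ∀ y ∈ cubeO j r, ∀ i, |x i - y i| ≤ 2 * r := by
    intro j x hx y hy i
    have h1 := abs_lt.1 (hx i)
    have h2 := abs_lt.1 (hy i)
    rw [abs_le]; constructor <;> linarith only [h1, h2]
  obtain ⟨n, d, hnd, hdsum, hmono⟩ := hdef t (fun z => cubeO z r) (fun j _ =>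
    ⟨isOpen_cubeO j r, convex_cubeO j r, fun x hx y hy =>
      (norm_le_of_coord (r := 2 * r) fun i => by simpa using hdiam j x hx y hy i).trans
        (by linarith only [hg1])⟩) hdis
  have hcube : ∀ z ∈ t, ∃ cs : Finset E3, (∀ c ∈ cs, cylR c (axis (n z)) (g / 5) ⊆ cubeO z r ∧
      volume ((E ∆ hsR c (n z)) ∩ cylR c (axis (n z)) (g / 5)) ≤ ENNReal.ofReal (ζ' * r ^ 3)) ∧
      (∀ c ∈ cs, ∀ c' ∈ cs, c ≠ c' →
        Disjoint (cylR c (axis (n z)) (g / 5)) (cylR c' (axis (n z)) (g / 5))) ∧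
      ∫ x in E, fderiv ℝ (χ z) x (φ z) ≤
        cs.card * (σ (n z) * (2 * (g / 5)) ^ 2 / |n z (axis (n z))|) +
        (2 * M * Cg + 8 * M * Cg * (r / g) / κ) * d z +
        M * Cg * ζ' * 432 ^ 2 * r ^ 3 / g ^ 7 *
          (volume.real (E ∩ cubeO z r) * volume.real (cubeO z r \ E)) := fun z hz =>
    DG5_cube h.meas (hχ z).1 (hχ z).2.1 (hχ z).2.2.1 (hχ z).2.2.2.1 (hχ z).2.2.2.2 hCg.le (hM z)
      hg hgr (by positivity) (by linarith only []) (hnd z).1 (hnd z).2 hθ3 hκ hζ'.le (hmono z hz)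
      (fun hd => hhalf E z (n z) r (d z) h.meas hr0' (hnd z).1 (hnd z).2 hd (hmono z hz))
      (hσ _ (hnd z).1) (hφσ z _ (hnd z).1)
  choose! cs hcs1 hcs2 hcs3 using hcube
  have hself : ∀ (c : E3) (k : Fin 3), c ∈ cylR c k (g / 5) := by
    intro c k i
    simp only [sub_self, abs_zero]
    split_ifs <;> positivity
  refine ⟨g / 5, t.biUnion fun z => (cs z).image fun c => (c, n z), by positivity, ?_, ?_, ?_, ?_⟩
  · intro p hp
    obtain ⟨z, -, hp⟩ := Finset.mem_biUnion.1 hp
    obtain ⟨c, -, rfl⟩ := Finset.mem_image.1 hp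
    exact (hnd z).1
  · intro p hp p' hp' hne
    obtain ⟨z, hz, hp⟩ := Finset.mem_biUnion.1 hp
    obtain ⟨c, hc, rfl⟩ := Finset.mem_image.1 hp
    obtain ⟨z', hz', hp'⟩ := Finset.mem_biUnion.1 hp'
    obtain ⟨c', hc', rfl⟩ := Finset.mem_image.1 hp'
    by_cases hzz : z = z'
    · subst hzz
      exact hcs2 z hz c hc c' hc' fun e => hne (by rw [e])
    · exact (hdis z hz z' hz' hzz).mono (hcs1 z hz c hc).1 (hcs1 z' hz' c' hc').1
  · intro p hp
    obtain ⟨z, hz, hp⟩ := Finset.mem_biUnion.1 hp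
    obtain ⟨c, hc, rfl⟩ := Finset.mem_image.1 hp
    refine (hcs1 z hz c hc).2.trans (ENNReal.ofReal_le_ofReal ?_)
    have e : ζ' * r ^ 3 = ζ' * (5 * (K : ℝ) / 2) ^ 3 * (g / 5) ^ 3 := by rw [hr]; ring
    rw [e]
    exact mul_le_mul_of_nonneg_right hζ1 (by positivity)
  · rw [Finset.sum_biUnion]
    swap
    · intro z hz z' hz' hzz
      refine Finset.disjoint_left.2 fun p hp hp' => ?_
      obtain ⟨c, hc, rfl⟩ := Finset.mem_image.1 hp
      obtain ⟨c', hc', e⟩ := Finset.mem_image.1 hp'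
      obtain ⟨rfl, -⟩ := Prod.mk.inj e
      exact Set.disjoint_left.1 (hdis z hz z' hz' hzz) ((hcs1 z hz c' hc).1 (hself _ _))
        ((hcs1 z' hz' c' hc').1 (hself _ _))
    have e1 : ∀ z ∈ t, ∑ p ∈ (cs z).image fun c => (c, n z),
        σ p.2 * (2 * (g / 5)) ^ 2 / |p.2 (axis p.2)| =
        (cs z).card * (σ (n z) * (2 * (g / 5)) ^ 2 / |n z (axis (n z))|) := by
      intro z _
      rw [Finset.sum_image fun a _ b _ e => (Prod.mk.inj e).1]
      simp
    rw [Finset.sum_congr rfl e1]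
    have h1 := DG5_split (ω := δ / 4 / (3 * P + 1)) (r := r) hP h hφ t χ (by positivity) hdis
      (fun z => (hχ z).1) (fun z => (hχ z).2.1) (fun z => (hχ z).2.2.1)
      (fun z x hx => DG5_cube_mono z (by linarith only [hg]) ((hχ z).2.2.2.1 x hx))
      (fun z x hx => by
        rw [← dist_eq_norm]
        refine (hosc ?_).le
        rw [dist_eq_norm]
        exact (norm_le_of_coord (r := r) fun i => by simpa using (hx i).le).trans_lt hg2)
    have h2 := Finset.sum_le_sum hcs3
    rw [Finset.sum_add_distrib, Finset.sum_add_distrib, ← Finset.mul_sum, ← Finset.mul_sum, hrg,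
      ← hc1] at h2
    have h3 := pair_count hP h t (fun z => cubeO z r) hr0'
      (fun j _ => (isOpen_cubeO j r).measurableSet) (fun j _ => hdiam j) hdis
    have h4 := mul_le_mul_of_nonneg_left h3
      (show 0 ≤ M * Cg * ζ' * 432 ^ 2 * r ^ 3 / g ^ 7 by positivity)
    have h5 : M * Cg * ζ' * 432 ^ 2 * r ^ 3 / g ^ 7 * (768 * P * r ^ 4) = ζ' * B := by
      rw [hB, ← hrg]; field_simp
    have h6 : c1 * ∑ z ∈ t, d z ≤ δ / 4 := by
      refine (mul_le_mul_of_nonneg_left hdsum hc10).trans ?_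
      rw [← mul_div_assoc, div_le_iff₀ (by positivity)]
      nlinarith only [hδ]
    have h7 : 3 * P * (δ / 4 / (3 * P + 1)) ≤ δ / 4 := by
      rw [← mul_div_assoc, div_le_iff₀ (by positivity)]
      nlinarith only [hδ]
    linarith only [hK, hζ2, hsum, h1, h2, h4, h5, h6, h7]

end Pool.Agent.Work.MP_b59478_pr
end
end

-- merged part: Pool.Agent.Work.MP_b59478_pr.W6a
section
/-! The Wulff theorem with uniqueness.
cramer: the constant c(n) is determined by the barycentres: integrating the identity against the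
two image measures gives c(n) * vol = inner (integral over W of x - integral over E of x) n. Let y be
the difference of the barycentres; the restrictions of volume to E and to y + W have the same
one-dimensional images, hence the same characteristic function (Measure.ext_of_charFun).
wulff_thm: by contradiction with F0 = 3 v - delta, resp. F0 = 3 v: star, prof, one_dim,
mar_setIntegral.
-/

set_option autoImplicit false

noncomputable section

namespace Pool.Agent.Work.MP_b59478_pr

open Classical Filter Topology MeasureTheory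
open scoped symmDiff Pointwise

theorem W6a_int {E : Set E3} (hE : MeasurableSet E) (bE : Bornology.IsBounded E) :
    Integrable (fun x : E3 => x) (volume.restrict E) := by
  obtain ⟨R, hR⟩ := bE.exists_norm_le
  exact Measure.integrableOn_of_bounded (M := R) bE.measure_lt_top.ne
    measurable_id.aestronglyMeasurable (ae_restrict_of_forall_mem hE hR)

theorem W6a_null {E F : Set E3} (hF : MeasurableSet F)
    (h : volume.restrict E = volume.restrict F) : volume (E \ F) = 0 := by
  have := congrArg (fun μ : Measure E3 => μ Fᶜ) h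
  simp only [Measure.restrict_apply hF.compl, Set.compl_inter_self, measure_empty] at this
  rwa [Set.inter_comm] at this

theorem cramer {E W : Set E3} (hE : MeasurableSet E) (hW : MeasurableSet W)
    (bE : Bornology.IsBounded E) (bW : Bornology.IsBounded W) (hpos : volume W ≠ 0)
    (h : ∀ n : E3, ‖n‖ = 1 → ∃ c : ℝ, ∀ U : Set ℝ, MeasurableSet U →
      volume (E ∩ {x | inner ℝ x n ∈ U}) = volume (W ∩ {x | inner ℝ x n - c ∈ U})) :
    ∃ y : E3, volume (E ∆ (y +ᵥ W)) = 0 := by
  have fE : IsFiniteMeasure (volume.restrict E) := isFiniteMeasure_restrict.2 bE.measure_lt_top.ne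
  have fW : IsFiniteMeasure (volume.restrict W) := isFiniteMeasure_restrict.2 bW.measure_lt_top.ne
  have hV : 0 < volume.real W := ENNReal.toReal_pos hpos bW.measure_lt_top.ne
  have m1 : ∀ n : E3, Measurable fun x : E3 => inner ℝ x n := fun n => by fun_prop
  obtain ⟨y, hy⟩ : ∃ y : E3, y = (volume.real W)⁻¹ • ((∫ x in E, x) - ∫ x in W, x) := ⟨_, rfl⟩
  have key : ∀ n : E3, ‖n‖ = 1 → (volume.restrict E).map (fun x => inner ℝ x n) =
      (volume.restrict W).map fun x => inner ℝ (y + x) n := fun n hn => by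
    obtain ⟨c, hc⟩ := h n hn
    have m2 : Measurable fun x : E3 => inner ℝ x n - c := (m1 n).sub_const c
    have e : (volume.restrict E).map (fun x => inner ℝ x n) =
        (volume.restrict W).map fun x => inner ℝ x n - c := Measure.ext fun U hU => by
      rw [Measure.map_apply (m1 n) hU, Measure.map_apply m2 hU, Measure.restrict_apply (m1 n hU),
        Measure.restrict_apply (m2 hU), Set.inter_comm, Set.inter_comm _ W]
      exact hc U hU
    have e1 := congrArg (fun μ : Measure ℝ => ∫ t, t ∂μ) e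
    rw [integral_map (m1 n).aemeasurable measurable_id'.aestronglyMeasurable,
      integral_map m2.aemeasurable measurable_id'.aestronglyMeasurable,
      integral_sub ((W6a_int hW bW).inner_const n) (integrable_const c)] at e1
    simp only [real_inner_comm n] at e1
    rw [integral_inner (W6a_int hE bE), integral_inner (W6a_int hW bW), integral_const,
      measureReal_restrict_apply_univ, smul_eq_mul] at e1
    have e2 : inner ℝ y n = -c := by
      rw [hy, real_inner_smul_left, real_inner_comm, inner_sub_right, e1]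
      field_simp
      ring
    rw [e]
    congr 1
    funext x
    rw [inner_add_left, e2]
    ring
  have m3 : Measurable fun x : E3 => y + x := measurable_const_add y
  have hW' : MeasurableSet (y +ᵥ W) := hW.const_vadd y
  have e3 : (volume.restrict W).map (fun x => y + x) = volume.restrict (y +ᵥ W) := by
    have := Measure.restrict_map (μ := volume) m3 hW'
    rw [map_add_left_eq_self] at this
    rw [this]
    congr 2
    ext x
    exact (Set.vadd_mem_vadd_set_iff (a := y)).symm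
  have e4 : volume.restrict E = (volume.restrict W).map fun x => y + x := by
    refine Measure.ext_of_charFun (funext fun t => ?_)
    obtain ⟨r, n, hn, rfl⟩ : ∃ (r : ℝ) (n : E3), ‖n‖ = 1 ∧ t = r • n := by
      by_cases ht : t = 0
      · exact ⟨0, EuclideanSpace.single 0 1, by simp, by simp [ht]⟩
      · exact ⟨‖t‖, ‖t‖⁻¹ • t, norm_smul_inv_norm ht, by
          rw [smul_smul, mul_inv_cancel₀ (norm_ne_zero_iff.2 ht), one_smul]⟩
    have c1 : Continuous fun s : ℝ => Complex.exp ((r * s : ℝ) * Complex.I) := by fun_prop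
    have e5 := congrArg (fun μ : Measure ℝ => ∫ s, Complex.exp ((r * s : ℝ) * Complex.I) ∂μ)
      (key n hn)
    rw [integral_map (m1 n).aemeasurable c1.aestronglyMeasurable,
      integral_map (φ := fun x => inner ℝ (y + x) n) ((m1 n).comp m3).aemeasurable
        c1.aestronglyMeasurable] at e5
    rw [charFun_apply, charFun_apply, integral_map m3.aemeasurable (by fun_prop)]
    simpa only [real_inner_smul_right] using e5
  rw [e3] at e4
  refine ⟨y, ?_⟩
  rw [Set.symmDiff_def]
  exact measure_union_null (W6a_null hW' e4) (W6a_null hE e4.symm)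

end Pool.Agent.Work.MP_b59478_pr
end
end

-- merged part: Pool.Agent.Work.MP_b59478_pr.W6
section
/-! The Wulff theorem with uniqueness.
cramer: the constant c(n) is determined by the barycentres: integrating the identity against the
two image measures gives c(n) * vol = inner (integral over W of x - integral over E of x) n. Let y be
the difference of the barycentres; the restrictions of volume to E and to y + W have the same
one-dimensional images, hence the same characteristic function (Measure.ext_of_charFun).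
wulff_thm: by contradiction with F0 = 3 v - delta, resp. F0 = 3 v: star, prof, one_dim,
mar_setIntegral.
-/

set_option autoImplicit false

noncomputable section

namespace Pool.Agent.Work.MP_b59478_pr

open Classical Filter Topology MeasureTheory
open scoped symmDiff Pointwise

theorem W6_slab {n : E3} (Φ : E3 ≃L[ℝ] ℝ × ℝ × ℝ) (hΦ : MeasurePreserving Φ volume volume)
    (hn : ∀ x, (Φ x).1 = inner ℝ x n) {S : Set E3} (hS : MeasurableSet S)
    (hb : Bornology.IsBounded (Φ '' S)) {U : Set ℝ} (hU : MeasurableSet U) :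
    ∫ x in U, mar (Φ '' S) x = volume.real (S ∩ {x | inner ℝ x n ∈ U}) := by
  rw [mar_setIntegral (W4_meas_image Φ hS) hb hU, ← W4_vol_image Φ hΦ (S ∩ _)]
  congr 1
  ext p
  constructor
  · rintro ⟨⟨x, hx, rfl⟩, hp⟩
    exact ⟨x, ⟨hx, by rw [Set.mem_ofPred_eq, ← hn]; exact hp⟩, rfl⟩
  · rintro ⟨x, ⟨hx, hp⟩, rfl⟩
    exact ⟨⟨x, hx, rfl⟩, by rw [Set.mem_ofPred_eq, hn]; exact hp⟩

theorem W6_key {W E : Set E3} {r0 ω v F0 : ℝ} (hb : Body W r0 ω) (hv : 0 < v)
    (hW : volume W = ENNReal.ofReal v) (hE : MeasurableSet E) (hEb : E ⊆ boxE 2)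
    (hEv : volume E = ENNReal.ofReal v)
    (hF : ∀ φ, Fld φ → (∀ x, φ x ∈ W) → ∫ x in E, dv φ x ≤ F0) {n : E3} (hn : ‖n‖ = 1) :
    3 * v ≤ F0 ∧ (F0 ≤ 3 * v → ∃ c : ℝ, ∀ U : Set ℝ, MeasurableSet U →
      volume (E ∩ {x | inner ℝ x n ∈ U}) = volume (W ∩ {x | inner ℝ x n - c ∈ U})) := by
  obtain ⟨Φ, hΦ, hΦn⟩ := exists_coord hn
  have hWm : MeasurableSet W := hb.cpt.isClosed.measurableSet
  have h0 : (0 : E3) ∈ W := hb.ball (Metric.mem_closedBall_self hb.r0_pos.le)
  have hcW : IsCompact (Φ '' W) := hb.cpt.image Φ.continuous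
  have hbE : Bornology.IsBounded (Φ '' E) :=
    ((isCompact_boxE 2).image Φ.continuous).isBounded.subset (Set.image_mono hEb)
  have hnh : Φ '' W ∈ 𝓝 (0 : ℝ × ℝ × ℝ) := by
    have h1 : W ∈ 𝓝 (0 : E3) :=
      mem_of_superset (Metric.closedBall_mem_nhds 0 hb.r0_pos) hb.ball
    have h2 := Φ.toHomeomorph.isOpenMap.image_mem_nhds h1
    simpa using h2
  obtain ⟨α, α', hprof, hsl⟩ := prof hcW
    (hb.cvx.linear_image (Φ : E3 →ₗ[ℝ] ℝ × ℝ × ℝ)) hnh
  obtain ⟨B, hB0, hB⟩ := hbE.exists_pos_norm_le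
  have hav : ∫ x, mar (Φ '' E) x = v := by
    have := W6_slab Φ hΦ hΦn hE hbE MeasurableSet.univ
    simpa [Measure.real, hEv, hv.le] using this
  have hgv : ∫ x, mar (Φ '' W) x = v := by
    have := W6_slab Φ hΦ hΦn hWm hcW.isBounded MeasurableSet.univ
    simpa [Measure.real, hW, hv.le] using this
  obtain ⟨h1, h2⟩ := one_dim (F0 := F0) (B := max (4 * B ^ 2) B) hprof
    (mar_meas (W4_meas_image Φ hE))
    (fun x => ⟨(mar_bdd hB0.le hB x).1, (mar_bdd hB0.le hB x).2.1.trans (le_max_left _ _),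
      fun hx => (mar_bdd hB0.le hB x).2.2 ((le_max_right _ _).trans_lt hx)⟩) hav hgv
    (fun T K M hK hM hT hm => star hb.cpt hb.cvx h0 hE hEb hF Φ hΦ hK hM
      (fun x => hsl _ (hT x)) hm)
  refine ⟨h1, fun h => ?_⟩
  obtain ⟨c, hc⟩ := h2 h
  refine ⟨c, fun U hU => ?_⟩
  have hU' : MeasurableSet {y : ℝ | y - c ∈ U} := (measurable_id.sub_const c) hU
  have e1 := W6_slab Φ hΦ hΦn hE hbE hU
  have e2 := W6_slab Φ hΦ hΦn hWm hcW.isBounded hU'
  have e3 : ∫ x in U, mar (Φ '' E) x = ∫ x in {y : ℝ | y - c ∈ U}, mar (Φ '' W) x := by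
    rw [← integral_indicator hU, ← integral_indicator hU',
      ← integral_add_right_eq_self (Set.indicator {y : ℝ | y - c ∈ U} (mar (Φ '' W))) c]
    refine integral_congr_ae ?_
    filter_upwards [hc] with x hx
    by_cases hxU : x ∈ U
    · rw [Set.indicator_of_mem hxU, Set.indicator_of_mem (by simpa using hxU), hx]
    · rw [Set.indicator_of_notMem hxU, Set.indicator_of_notMem (by simpa using hxU)]
  have f1 : volume (E ∩ {x | inner ℝ x n ∈ U}) ≠ ⊤ :=
    ne_top_of_le_ne_top (by rw [hEv]; exact ENNReal.ofReal_ne_top)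
      (measure_mono Set.inter_subset_left)
  have f2 : volume (W ∩ {x | inner ℝ x n - c ∈ U}) ≠ ⊤ :=
    ne_top_of_le_ne_top (by rw [hW]; exact ENNReal.ofReal_ne_top)
      (measure_mono Set.inter_subset_left)
  rw [← ENNReal.toReal_eq_toReal_iff' f1 f2]
  rw [e1, e2] at e3
  exact e3

theorem wulff_thm {W E : Set E3} {r0 ω v : ℝ} (hb : Body W r0 ω) (hv : 0 < v)
    (hW : volume W = ENNReal.ofReal v) (hE : MeasurableSet E) (hEb : E ⊆ boxE 2)
    (hEv : volume E = ENNReal.ofReal v) :
    (∀ δ : ℝ, 0 < δ → ∃ φ, Fld φ ∧ (∀ x, φ x ∈ W) ∧ 3 * v - δ < ∫ x in E, dv φ x) ∧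
    ((∀ y : E3, volume (E ∆ (y +ᵥ W)) ≠ 0) →
      ∃ φ, Fld φ ∧ (∀ x, φ x ∈ W) ∧ 3 * v < ∫ x in E, dv φ x) := by
  constructor
  · intro δ hδ
    by_contra h
    push Not at h
    have h1 := (W6_key hb hv hW hE hEb hEv h (n := EuclideanSpace.single 0 1) (by simp)).1
    linarith
  · intro hy
    by_contra h
    push Not at h
    obtain ⟨y, hy0⟩ := cramer hE hb.cpt.isClosed.measurableSet
      ((isCompact_boxE 2).isBounded.subset hEb) hb.cpt.isBounded
      (by rw [hW]; simpa using hv)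
      (fun n hn => (W6_key hb hv hW hE hEb hEv h hn).2 le_rfl)
    exact hy y hy0

end Pool.Agent.Work.MP_b59478_pr
end
end

-- merged part: Pool.Agent.Work.MP_b59478_pr.Cont2
section
/-! Lattice sets as subsets of space.
volume_cubes: the open cubes are disjoint, the closed ones have the same volume.
inK_eA: for 0 <= h <= 1 the set (h e_i + cubes A) minus cubes A is covered by one slab of volume h
for each cut bond in direction i leaving A, and the reverse difference by one for each bond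
entering; general h by the triangle inequality for symmetric differences (h = m * (h / m)), and
negative h by translation invariance; rescale.
frontier_cubes: if all lattice points whose closed cube contains z are in F then z is interior;
otherwise use hullPath between two lattice points whose cubes contain z.
-/

set_option autoImplicit false

noncomputable section

namespace Pool.Agent.Work.MP_b59478_pr

open Classical Filter Topology MeasureTheory
open scoped symmDiff Pointwise

theorem Cont2_cross {A : Finset Site} {u v : E3} {i : Fin 3} (h : ∀ j, j ≠ i → u j = v j)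
    (hu : u ∈ cubes A) (hv : v ∉ cubes A) : ∃ b ∈ cut A, (∀ j, j ≠ i → |u j - b.1 j| ≤ 1 / 2) ∧
      min (u i) (v i) ≤ b.1 i + 1 / 2 ∧ (b.1 i : ℝ) + 1 / 2 ≤ max (u i) (v i) := by
  obtain ⟨y, hyA, hy⟩ := hu
  have hxA : Function.update y i (round (v i)) ∉ A := by
    intro hx
    refine hv ⟨_, hx, fun j => ?_⟩
    by_cases hj : j = i
    · subst hj
      rw [Function.update_self]
      exact abs_sub_round _
    · rw [Function.update_of_ne hj, ← h j hj]
      exact hy j
  obtain ⟨b, hb, hh⟩ := hullPath (H := (A : Set Site)) (Finset.mem_coe.2 hyA)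
    (fun h' => hxA (Finset.mem_coe.1 h'))
  have hoff : ∀ j, j ≠ i → b.1 j = y j ∧ j ≠ b.2 := by
    intro j hj
    have h1 := hh j
    have h2 := tip_apply b j
    rw [Function.update_of_ne hj, min_self, max_self] at h1
    split_ifs at h2 with h3
    · omega
    · exact ⟨by omega, h3⟩
  have hb2 : i = b.2 := by
    by_contra h3
    exact (hoff b.2 fun h4 => h3 h4.symm).2 rfl
  refine ⟨b, mem_cut.2 (by simpa [Cuts] using hb), fun j hj => ?_, ?_⟩
  · rw [(hoff j hj).1]
    exact hy j
  · have h1 := hh i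
    have h2 := tip_apply b i
    rw [if_pos hb2] at h2
    rw [Function.update_self, h2] at h1
    have h3 := abs_le.1 (hy i)
    have h4 := abs_le.1 (abs_sub_round (v i))
    have h5 : min ((y i : ℤ) : ℝ) (round (v i) : ℤ) ≤ (b.1 i : ℝ) := by exact_mod_cast h1.1
    have h6 : (b.1 i : ℝ) + 1 ≤ max ((y i : ℤ) : ℝ) (round (v i) : ℤ) := by exact_mod_cast h1.2
    rcases le_total ((y i : ℤ) : ℝ) (round (v i) : ℤ) with h7 | h7
    · rw [min_eq_left h7] at h5
      rw [max_eq_right h7] at h6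
      exact ⟨(min_le_left _ _).trans (by linarith only [h3, h5]), le_trans (by linarith only [h4, h6]) (le_max_right _ _)⟩
    · rw [min_eq_right h7] at h5
      rw [max_eq_left h7] at h6
      exact ⟨(min_le_right _ _).trans (by linarith only [h4, h5]), le_trans (by linarith only [h3, h6]) (le_max_left _ _)⟩

theorem inK_eA {N : ℕ} (hN : 1 ≤ N) {A : Finset Site} (hA : A ⊆ cube N) {P : ℝ}
    (hP : ((cut A).card : ℝ) ≤ P * (N : ℝ) ^ 2) : InK P (eA N A) := by
  have hN0 : (0 : ℝ) < N := by exact_mod_cast hN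
  have hN1 : (1 : ℝ) ≤ N := by exact_mod_cast hN
  refine ⟨((isCompact_cubes A).smul _).isClosed.measurableSet, fun z hz j => ?_, fun i h => ?_⟩
  · obtain ⟨y, hy, hz⟩ := (mem_eA hN).1 hz
    have h1 : |((y j : ℤ) : ℝ)| ≤ N := by exact_mod_cast mem_cube.1 (hA hy) j
    have h2 := hz j
    simp only [PiLp.smul_apply, smul_eq_mul] at h2
    have h3 : |(N : ℝ) * z j| ≤ N * 2 := by
      have := abs_add_le ((N : ℝ) * z j - y j) (y j)
      rw [sub_add_cancel] at this
      linarith only [hN0, hN1, h1, h2, this]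
    rw [abs_mul, abs_of_pos hN0] at h3
    exact le_of_mul_le_mul_left h3 hN0
  · let lo : Bond → Fin 3 → ℝ := fun b j =>
      if j = i then ((b.1 i : ℝ) + 1 / 2) / N + min 0 h else ((b.1 j : ℝ) - 1 / 2) / N
    let hi : Bond → Fin 3 → ℝ := fun b j =>
      if j = i then ((b.1 i : ℝ) + 1 / 2) / N + max 0 h else ((b.1 j : ℝ) + 1 / 2) / N
    have hsub : eA N A ∆ (EuclideanSpace.single i h +ᵥ eA N A) ⊆
        ⋃ b ∈ cut A, {x : E3 | ∀ j, lo b j ≤ x j ∧ x j ≤ hi b j} := by
      intro z hz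
      have hoff : ∀ j, j ≠ i → ((N : ℝ) • z) j =
          ((N : ℝ) • (-EuclideanSpace.single i h +ᵥ z : E3)) j := by
        intro j hj
        simp [hj]
      have hon : ((N : ℝ) • (-EuclideanSpace.single i h +ᵥ z : E3)) i = N * z i - N * h := by
        simp
        ring
      have hon' : ((N : ℝ) • z) i = N * z i := by simp
      have key : ∃ b ∈ cut A, (∀ j, j ≠ i → |(N : ℝ) * z j - b.1 j| ≤ 1 / 2) ∧
          min (N * z i) (N * z i - N * h) ≤ (b.1 i : ℝ) + 1 / 2 ∧
          (b.1 i : ℝ) + 1 / 2 ≤ max (N * z i) (N * z i - N * h) := by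
        rw [Set.mem_symmDiff, Set.mem_vadd_set_iff_neg_vadd_mem, mem_eA hN, mem_eA hN] at hz
        rcases hz with ⟨h1, h2⟩ | ⟨h1, h2⟩
        · obtain ⟨b, hb, h3, h4⟩ := Cont2_cross hoff h1 h2
          rw [hon, hon'] at h4
          exact ⟨b, hb, fun j hj => by simpa using h3 j hj, h4⟩
        · obtain ⟨b, hb, h3, h4⟩ := Cont2_cross (fun j hj => (hoff j hj).symm) h1 h2
          rw [hon, hon', min_comm, max_comm] at h4
          refine ⟨b, hb, fun j hj => ?_, h4⟩
          have := h3 j hj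
          rw [← hoff j hj] at this
          simpa using this
      obtain ⟨b, hb, h1, h2, h3⟩ := key
      refine Set.mem_biUnion (Finset.mem_coe.2 hb) fun j => ?_
      by_cases hj : j = i
      · subst hj
        simp only [lo, hi, if_true]
        rw [← le_sub_iff_add_le, div_le_iff₀ hN0, ← sub_le_iff_le_add, le_div_iff₀ hN0]
        rcases le_total 0 h with h4 | h4
        · have h5 : 0 ≤ (N : ℝ) * h := mul_nonneg hN0.le h4
          rw [min_eq_right (by linarith only [h5])] at h2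
          rw [max_eq_left (by linarith only [h5])] at h3
          rw [min_eq_left h4, max_eq_right h4]
          constructor <;> linarith only [h3, h2]
        · have h5 : (N : ℝ) * h ≤ 0 := mul_nonpos_of_nonneg_of_nonpos hN0.le h4
          rw [min_eq_left (by linarith only [h5])] at h2
          rw [max_eq_right (by linarith only [h5])] at h3
          rw [min_eq_right h4, max_eq_left h4]
          constructor <;> linarith only [h3, h2]
      · simp only [lo, hi, if_neg hj]
        have h4 := abs_le.1 (h1 j hj)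
        rw [div_le_iff₀ hN0, le_div_iff₀ hN0]
        constructor <;> linarith only [h4]
    have hvol : ∀ b : Bond, volume {x : E3 | ∀ j, lo b j ≤ x j ∧ x j ≤ hi b j} =
        ENNReal.ofReal (|h| / (N : ℝ) ^ 2) := by
      intro b
      have hd : ∀ j, hi b j - lo b j = if j = i then |h| else 1 / N := by
        intro j
        simp only [lo, hi]
        split_ifs
        · rw [add_sub_add_left_eq_sub, max_sub_min_eq_abs, sub_zero]
        · ring
      rw [volume_box, ← ENNReal.ofReal_prod_of_nonneg fun j _ => by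
        rw [hd]
        split_ifs <;> positivity]
      congr 1
      simp only [hd]
      rw [Fin.prod_univ_three]
      fin_cases i <;> simp <;> ring
    refine (measure_mono hsub).trans ((measure_biUnion_finset_le _ _).trans ?_)
    simp only [hvol, Finset.sum_const, nsmul_eq_mul]
    rw [← ENNReal.ofReal_natCast, ← ENNReal.ofReal_mul (Nat.cast_nonneg _)]
    refine ENNReal.ofReal_le_ofReal ?_
    rw [← mul_div_assoc, div_le_iff₀ (by positivity)]
    nlinarith only [hP, abs_nonneg h]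

end Pool.Agent.Work.MP_b59478_pr
end
end

-- merged part: Pool.Agent.Work.MP_b59478_pr.LU
section
/-! The large deviation upper bound.
local_upper: upper_micro gives zeta; dg with sigma = lam * tau and zeta / 2 gives the cylinders;
eta = zeta l ^ 3 / 2.
ld_upper: for E with InK C0 E choose eta E: if vol E differs from v, half of the difference; if
vol E = v (second part: and E is within eps / 2 of no translate of W), the eta of local_upper for the
field of wulff_thm; otherwise eps / 2. finite_cover, inK_eA, volume_eA; kappa below the finitely many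
volume gaps, delta below the finitely many gains; the number of sets is absorbed by
ev_poly_exp_sq.
-/

set_option autoImplicit false

noncomputable section

namespace Pool.Agent.Work.MP_b59478_pr

open Classical Filter Topology MeasureTheory
open scoped symmDiff Pointwise

theorem LU_PL_nonneg (β : ℝ) (N : ℕ) (A : Finset Site) : 0 ≤ PL β N A :=
  mul_nonneg (Real.exp_pos _).le (gZ0_pos _ _ _ _).le

theorem LU_Z0_nonneg (β : ℝ) (Λ : Finset Site) : 0 ≤ Z0 β Λ :=
  Finset.sum_nonneg fun _ _ => (Real.exp_pos _).le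

theorem LU_mono (β : ℝ) (N : ℕ) {P Q : Finset Site → Prop}
    {_ : DecidablePred P} {_ : DecidablePred Q}
    (h : ∀ A ∈ BigSets N, P A → Q A) :
    ∑ A ∈ (BigSets N).filter P, PL β N A ≤ ∑ A ∈ (BigSets N).filter Q, PL β N A := by
  refine Finset.sum_le_sum_of_subset_of_nonneg (fun A hA => ?_) fun A _ _ => LU_PL_nonneg β N A
  rw [Finset.mem_filter] at hA ⊢
  exact ⟨hA.1, h A hA.1 hA.2⟩

theorem LU_exp (β : ℝ) (N : ℕ) {a b : ℝ} (h : a ≤ b) :
    Z0 β (cube N) * Real.exp (-(b * (N : ℝ) ^ 2)) ≤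
      Z0 β (cube N) * Real.exp (-(a * (N : ℝ) ^ 2)) := by
  refine mul_le_mul_of_nonneg_left (Real.exp_le_exp.2 ?_) (LU_Z0_nonneg _ _)
  have : a * (N : ℝ) ^ 2 ≤ b * (N : ℝ) ^ 2 := mul_le_mul_of_nonneg_right h (by positivity)
  linarith

theorem LU_empty (β : ℝ) (N : ℕ) {P : Finset Site → Prop} {_ : DecidablePred P}
    (h : ∀ A ∈ BigSets N, ¬ P A) (a : ℝ) :
    ∑ A ∈ (BigSets N).filter P, PL β N A ≤ Z0 β (cube N) * Real.exp a := by
  rw [Finset.filter_false_of_mem h, Finset.sum_empty]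
  exact mul_nonneg (LU_Z0_nonneg _ _) (Real.exp_pos _).le

theorem LU_min {ι : Type} (t : Finset ι) (f : ι → ℝ) (h : ∀ i ∈ t, 0 < f i) :
    ∃ c : ℝ, 0 < c ∧ ∀ i ∈ t, c ≤ f i := by
  induction t using Finset.induction_on with
  | empty => exact ⟨1, one_pos, by simp⟩
  | insert a s _ ih =>
    obtain ⟨c, hc, hs⟩ := ih fun i hi => h i (Finset.mem_insert_of_mem hi)
    refine ⟨min c (f a), lt_min hc (h a (Finset.mem_insert_self _ _)), fun i hi => ?_⟩
    rcases Finset.mem_insert.1 hi with rfl | hi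
    · exact min_le_right _ _
    · exact (min_le_left _ _).trans (hs i hi)

/-- From local bounds to the global bound, by compactness. -/
theorem LU_cover (β v a : ℝ) {C0 : ℝ} (hC : 0 ≤ C0) (R : ℕ → Finset Site → Prop)
    (hloc : ∀ E, InK C0 E → ∃ η κ δ : ℝ, 0 < η ∧ 0 < κ ∧ 0 < δ ∧ ∀ᶠ N : ℕ in atTop,
      ∑ A ∈ (BigSets N).filter fun A => ((cut A).card : ℝ) ≤ C0 * (N : ℝ) ^ 2 ∧
        |(A.card : ℝ) - v * (N : ℝ) ^ 3| ≤ κ * (N : ℝ) ^ 3 ∧ R N A ∧
        volume (eA N A ∆ E) < ENNReal.ofReal η, PL β N A ≤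
      Z0 β (cube N) * Real.exp (-((a + δ) * (N : ℝ) ^ 2))) :
    ∃ δ κ : ℝ, 0 < δ ∧ 0 < κ ∧ ∀ᶠ N : ℕ in atTop,
      ∑ A ∈ (BigSets N).filter fun A => ((cut A).card : ℝ) ≤ C0 * (N : ℝ) ^ 2 ∧
        |(A.card : ℝ) - v * (N : ℝ) ^ 3| ≤ κ * (N : ℝ) ^ 3 ∧ R N A, PL β N A ≤
      Z0 β (cube N) * Real.exp (-((a + δ) * (N : ℝ) ^ 2)) := by
  choose! η κ δ hη hκ hδ hev using hloc
  obtain ⟨𝓕, h𝓕, hcov⟩ := finite_cover hC η hη
  obtain ⟨κ0, hκ0, hκ1⟩ := LU_min 𝓕 κ fun E hE => hκ E (h𝓕 E hE)
  obtain ⟨δ0, hδ0, hδ1⟩ := LU_min 𝓕 δ fun E hE => hδ E (h𝓕 E hE)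
  refine ⟨δ0 / 2, κ0, half_pos hδ0, hκ0, ?_⟩
  have hall := (Filter.eventually_all_finset 𝓕).2 fun E hE => hev E (h𝓕 E hE)
  filter_upwards [hall, ev_poly_exp_sq (𝓕.card : ℝ) 0 (half_pos hδ0), eventually_ge_atTop 1]
    with N hN hcard hN1
  set P : Set E3 → Finset Site → Prop := fun E A => ((cut A).card : ℝ) ≤ C0 * (N : ℝ) ^ 2 ∧
    |(A.card : ℝ) - v * (N : ℝ) ^ 3| ≤ κ E * (N : ℝ) ^ 3 ∧ R N A ∧
    volume (eA N A ∆ E) < ENNReal.ofReal (η E) with hP
  calc _ ≤ ∑ A ∈ BigSets N, ∑ E ∈ 𝓕, if P E A then PL β N A else 0 := by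
        rw [Finset.sum_filter]
        refine Finset.sum_le_sum fun A hA => ?_
        have hnn : ∀ E ∈ 𝓕, 0 ≤ if P E A then PL β N A else 0 := fun E _ => by
          split_ifs
          · exact LU_PL_nonneg β N A
          · exact le_rfl
        split_ifs with h
        · have hA' : A ⊆ cube N := Finset.mem_powerset.1 (Finset.mem_filter.1 hA).1
          obtain ⟨E, hE, hE'⟩ := hcov _ (inK_eA hN1 hA' h.1)
          have hPE : P E A := ⟨h.1, h.2.1.trans
            (mul_le_mul_of_nonneg_right (hκ1 E hE) (by positivity)), h.2.2, hE'⟩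
          refine le_trans ?_ (Finset.single_le_sum hnn hE)
          rw [if_pos hPE]
        · exact Finset.sum_nonneg hnn
    _ = ∑ E ∈ 𝓕, ∑ A ∈ (BigSets N).filter (P E), PL β N A := by
        rw [Finset.sum_comm]
        exact Finset.sum_congr rfl fun E _ => (Finset.sum_filter _ _).symm
    _ ≤ ∑ E ∈ 𝓕, Z0 β (cube N) * Real.exp (-((a + δ0) * (N : ℝ) ^ 2)) := by
        refine Finset.sum_le_sum fun E hE => ?_
        refine le_trans ?_ ((hN E hE).trans (LU_exp β N (by linarith only [hδ1 E hE])))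
        exact LU_mono β N fun A _ h => h
    _ = Z0 β (cube N) * (𝓕.card * Real.exp (-((a + δ0) * (N : ℝ) ^ 2))) := by
        rw [Finset.sum_const, nsmul_eq_mul]
        ring
    _ ≤ Z0 β (cube N) * (Real.exp (δ0 / 2 * (N : ℝ) ^ 2) *
          Real.exp (-((a + δ0) * (N : ℝ) ^ 2))) := by
        refine mul_le_mul_of_nonneg_left
          (mul_le_mul_of_nonneg_right ?_ (Real.exp_pos _).le) (LU_Z0_nonneg _ _)
        simpa using hcard
    _ = _ := by
        rw [← Real.exp_add]
        congr 2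
        ring

/-- Sets of the wrong volume are not approached. -/
theorem LU_gap (β v a : ℝ) {C0 : ℝ} (R : ℕ → Finset Site → Prop) {E : Set E3}
    (hE : InK C0 E) (hne : volume E ≠ ENNReal.ofReal v) :
    ∃ η κ δ : ℝ, 0 < η ∧ 0 < κ ∧ 0 < δ ∧ ∀ᶠ N : ℕ in atTop,
      ∑ A ∈ (BigSets N).filter fun A => ((cut A).card : ℝ) ≤ C0 * (N : ℝ) ^ 2 ∧
        |(A.card : ℝ) - v * (N : ℝ) ^ 3| ≤ κ * (N : ℝ) ^ 3 ∧ R N A ∧
        volume (eA N A ∆ E) < ENNReal.ofReal η, PL β N A ≤
      Z0 β (cube N) * Real.exp (-((a + δ) * (N : ℝ) ^ 2)) := by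
  have hg : 0 < |volume.real E - v| := by
    rw [abs_pos, sub_ne_zero]
    intro h
    apply hne
    rw [← h, measureReal_def, ENNReal.ofReal_toReal hE.finite]
  refine ⟨|volume.real E - v| / 2, |volume.real E - v| / 2, 1, half_pos hg, half_pos hg, one_pos, ?_⟩
  filter_upwards [eventually_ge_atTop 1] with N hN1
  refine LU_empty β N (fun A hA h => ?_) _
  have hA' : A ⊆ cube N := Finset.mem_powerset.1 (Finset.mem_filter.1 hA).1
  have hK := inK_eA hN1 hA' h.1
  have hN0 : (0 : ℝ) < (N : ℝ) ^ 3 := by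
    have : (0 : ℝ) < N := by exact_mod_cast hN1
    positivity
  have h1 := abs_measureReal_sub_le_measureReal_symmDiff' (μ := volume)
    hK.meas.nullMeasurableSet hE.meas.nullMeasurableSet hK.finite hE.finite
  have h2 : volume.real (eA N A ∆ E) < |volume.real E - v| / 2 :=
    ENNReal.toReal_lt_of_lt_ofReal h.2.2.2
  have h3 : volume.real (eA N A) = A.card / (N : ℝ) ^ 3 := by
    rw [measureReal_def, volume_eA hN1, ENNReal.toReal_ofReal (by (clear * - hN1; positivity))]
  have h4 : |(A.card : ℝ) / (N : ℝ) ^ 3 - v| ≤ |volume.real E - v| / 2 := by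
    have e : (A.card : ℝ) / (N : ℝ) ^ 3 - v = ((A.card : ℝ) - v * (N : ℝ) ^ 3) / (N : ℝ) ^ 3 := by
      field_simp
    rw [e, abs_div, abs_of_pos hN0, div_le_iff₀ hN0]
    exact h.2.1
  rw [h3] at h1
  have h5 := abs_sub_le (volume.real E) ((A.card : ℝ) / (N : ℝ) ^ 3) v
  rw [abs_sub_comm (volume.real E) ((A.card : ℝ) / (N : ℝ) ^ 3)] at h5
  linarith only [h1, h2, h4, h5]

theorem local_upper {β ms v lam : ℝ} {τ : E3 → ℝ} {r0 ω : ℝ} {m : ℕ → ℤ}
    (H : Ctx β ms v lam τ r0 ω m) {C0 δ : ℝ} (hC : 0 ≤ C0) (hδ : 0 < δ) {E : Set E3}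
    (hE : InK C0 E) {φ : E3 → E3} (hφ : Fld φ) (hW : ∀ x, φ x ∈ wulff τ lam) :
    ∃ η : ℝ, 0 < η ∧ ∀ᶠ N : ℕ in atTop, ∑ A ∈ (BigSets N).filter fun A =>
        ((cut A).card : ℝ) ≤ C0 * (N : ℝ) ^ 2 ∧ volume (eA N A ∆ E) < ENNReal.ofReal η, PL β N A ≤
      Z0 β (cube N) * Real.exp (-(((∫ x in E, dv φ x) / lam - δ) * (N : ℝ) ^ 2)) := by
  have hl := H.lam_pos
  set I : ℝ := ∫ x in E, dv φ x with hI
  have hJ : 0 < |I| / lam + 1 := by positivity
  set d : ℝ := min 1 (δ / 2 / (|I| / lam + 1)) with hd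
  have hd0 : 0 < d := lt_min one_pos (by positivity)
  have hd1 : d ≤ 1 := min_le_left _ _
  have hd2 : d * (|I| / lam + 1) ≤ δ / 2 := (le_div_iff₀ hJ).1 (min_le_right _ _)
  obtain ⟨ζ, hζ, hmic⟩ := upper_micro H.hβ H.tau hd0
  have hτ : ∀ n : E3, ‖n‖ = 1 → 0 ≤ τ n := fun n hn =>
    le_trans (mul_nonneg (by linarith only [H.hβ]) (abs_nonneg _)) (H.tau.low n hn)
  obtain ⟨l, 𝒞, hl0, hu, hdis, hcl, hint⟩ := dg (δ := lam * δ / 2) (ζ := ζ / 2) hC hE
    (fun n => lam * τ n) (fun n hn => mul_nonneg hl.le (hτ n hn)) hφ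
    (fun x n hn => hW x n hn) (by positivity) (half_pos hζ)
  refine ⟨ζ / 2 * l ^ 3, by positivity, ?_⟩
  filter_upwards [hmic C0 l 𝒞 hl0 hu hdis] with N hN
  set S : ℝ := ∑ p ∈ 𝒞, τ p.2 * (2 * l) ^ 2 / |p.2 (axis p.2)| with hS
  have hS1 : I ≤ lam * S + lam * δ / 2 := by
    rw [hS, Finset.mul_sum]
    refine hint.trans (le_of_eq ?_)
    congr 1
    exact Finset.sum_congr rfl fun p _ => by ring
  have hS2 : I / lam - δ / 2 ≤ S := by
    rw [sub_le_iff_le_add, div_le_iff₀ hl]
    linarith only [hS1]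
  have hS3 : I / lam - δ ≤ (1 - d) * S - d := by
    have h1 : (1 - d) * (I / lam - δ / 2) ≤ (1 - d) * S :=
      mul_le_mul_of_nonneg_left hS2 (by linarith only [hd1])
    have h2 : d * (I / lam) ≤ d * (|I| / lam) :=
      mul_le_mul_of_nonneg_left (div_le_div_of_nonneg_right (le_abs_self I) hl.le) hd0.le
    have h3 : 0 ≤ d * (δ / 2) := by (clear * - hδ hl; positivity)
    nlinarith only [hd2, h1, h2, h3]
  refine le_trans (LU_mono β N fun A _ h => ⟨h.1, fun p hp => ?_⟩) (hN.trans (LU_exp β N hS3))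
  have hsub : (eA N A ∆ hsR p.1 p.2) ∩ cylR p.1 (axis p.2) l ⊆
      eA N A ∆ E ∪ (E ∆ hsR p.1 p.2) ∩ cylR p.1 (axis p.2) l := by
    rintro x ⟨hx, hx'⟩
    rcases symmDiff_triangle (eA N A) E (hsR p.1 p.2) hx with h1 | h1
    · exact Or.inl h1
    · exact Or.inr ⟨h1, hx'⟩
  refine (measure_mono hsub).trans ((measure_union_le _ _).trans ?_)
  refine (add_le_add h.2.le (hcl p hp)).trans (le_of_eq ?_)
  rw [← ENNReal.ofReal_add (by positivity) (by positivity)]
  congr 1
  ring

theorem ld_upper1 {β ms v lam : ℝ} {τ : E3 → ℝ} {r0 ω : ℝ} {m : ℕ → ℤ}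
    (H : Ctx β ms v lam τ r0 ω m) {C0 δ : ℝ} (hC : 0 ≤ C0) (hδ : 0 < δ) :
    ∃ κ : ℝ, 0 < κ ∧ ∀ᶠ N : ℕ in atTop, ∑ A ∈ (BigSets N).filter fun A =>
        ((cut A).card : ℝ) ≤ C0 * (N : ℝ) ^ 2 ∧
        |(A.card : ℝ) - v * (N : ℝ) ^ 3| ≤ κ * (N : ℝ) ^ 3, PL β N A ≤
      Z0 β (cube N) * Real.exp (-((3 * v / lam - δ) * (N : ℝ) ^ 2)) := by
  have hl := H.lam_pos
  obtain ⟨d, κ, hd, hκ, hev⟩ := LU_cover β v (3 * v / lam - δ) hC (fun _ _ => True) fun E hE => by
    by_cases hv : volume E = ENNReal.ofReal v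
    · obtain ⟨φ, hφ, hW, hI⟩ := (wulff_thm H.body H.v_pos H.vol hE.meas hE.sub hv).1
        (lam * δ / 4) (by positivity)
      obtain ⟨η, hη, hN⟩ := local_upper H (δ := δ / 4) hC (by positivity) hE hφ hW
      refine ⟨η, 1, δ / 2, hη, one_pos, half_pos hδ, ?_⟩
      filter_upwards [hN] with N hN
      refine le_trans (LU_mono β N fun A _ h => ⟨h.1, h.2.2.2⟩) (hN.trans (LU_exp β N ?_))
      have : 3 * v / lam - δ / 4 ≤ (∫ x in E, dv φ x) / lam := by
        rw [le_div_iff₀ hl, sub_mul, div_mul_cancel₀ _ hl.ne']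
        linarith only [hI]
      linarith only [this]
    · exact LU_gap β v _ _ hE hv
  refine ⟨κ, hκ, ?_⟩
  filter_upwards [hev] with N hN
  exact le_trans (LU_mono β N fun A _ h => ⟨h.1, h.2, trivial⟩)
    (hN.trans (LU_exp β N (by linarith only [hd])))

theorem ld_upper2 {β ms v lam : ℝ} {τ : E3 → ℝ} {r0 ω : ℝ} {m : ℕ → ℤ}
    (H : Ctx β ms v lam τ r0 ω m) {C0 ε : ℝ} (hC : 0 ≤ C0) (hε : 0 < ε) :
    ∃ δ κ : ℝ, 0 < δ ∧ 0 < κ ∧ ∀ᶠ N : ℕ in atTop, ∑ A ∈ (BigSets N).filter fun A =>
        ((cut A).card : ℝ) ≤ C0 * (N : ℝ) ^ 2 ∧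
        |(A.card : ℝ) - v * (N : ℝ) ^ 3| ≤ κ * (N : ℝ) ^ 3 ∧
        ∀ y : E3, ENNReal.ofReal ε < volume (eA N A ∆ (y +ᵥ wulff τ lam)), PL β N A ≤
      Z0 β (cube N) * Real.exp (-((3 * v / lam + δ) * (N : ℝ) ^ 2)) := by
  have hl := H.lam_pos
  obtain ⟨d, κ, hd, hκ, hev⟩ := LU_cover β v (3 * v / lam) hC
    (fun N A => ∀ y : E3, ENNReal.ofReal ε < volume (eA N A ∆ (y +ᵥ wulff τ lam))) fun E hE => by
    by_cases hv : volume E = ENNReal.ofReal v
    · by_cases hy : ∀ y : E3, volume (E ∆ (y +ᵥ wulff τ lam)) ≠ 0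
      · obtain ⟨φ, hφ, hW, hI⟩ := (wulff_thm H.body H.v_pos H.vol hE.meas hE.sub hv).2 hy
        have hg : 0 < (∫ x in E, dv φ x) / lam - 3 * v / lam :=
          sub_pos.2 (div_lt_div_of_pos_right hI hl)
        obtain ⟨η, hη, hN⟩ := local_upper H hC (half_pos hg) hE hφ hW
        refine ⟨η, 1, _, hη, one_pos, half_pos hg, ?_⟩
        filter_upwards [hN] with N hN
        exact le_trans (LU_mono β N fun A _ h => ⟨h.1, h.2.2.2⟩)
          (hN.trans (LU_exp β N (by linarith only [])))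
      · push Not at hy
        obtain ⟨y, hy⟩ := hy
        refine ⟨ε, 1, 1, hε, one_pos, one_pos, Eventually.of_forall fun N => ?_⟩
        refine LU_empty β N (fun A _ h => ?_) _
        have h1 := measure_symmDiff_le (μ := volume) (eA N A) E (y +ᵥ wulff τ lam)
        rw [hy, add_zero] at h1
        exact lt_irrefl _ (((h.2.2.1 y).trans_le h1).trans h.2.2.2)
    · exact LU_gap β v _ _ hE hv
  refine ⟨d, κ, hd, hκ, ?_⟩
  filter_upwards [hev] with N hN
  exact le_trans (LU_mono β N fun A _ h => h) hN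

end Pool.Agent.Work.MP_b59478_pr
end
end
end
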