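import Pool.Agent.Work.MP_b59478_pr.SG3A
import Pool.Agent.Work.MP_b59478_pr.Gas4
import Pool.Agent.Work.MP_b59478_pr.Tau3

-- merged part: Pool.Agent.Work.MP_b59478_pr.SG3
section
/-! Choice of the slab map. Let a t be the number of points of A in layer t, ell t the number of bonds
of cut A with base in layer t, Wt u the sum over t of ell t * ph ^ |t - u| (the sum of Wt over all u is
at most 2 C N ^ 2). l = floor (c N), alpha = (2 l + 1) ^ 2; on the rich interval a t >= alpha - dev t,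
on the poor one a t <= dev t, with the sum of dev at most 2 eta0 N ^ 3. K = ceiling of 2 |T| / alpha.
If T >= 0 repeat a layer j of the rich interval and delete layers jd, ..., jd + k - 1 of a block of
length K in the poor interval; if T < 0 exchange the roles. By Markov choose j with
dev j <= alpha / 4 and Wt j <= C' N, and a block (among at least l / (2 K) disjoint ones) with total
dev at most alpha K / 4 and the sum of Wt over [jd - 1, jd + K] at most C' (K + 1) N. For k <= K take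
(j0, j1) = (j, jd + k) if j < jd and (j - k, jd) otherwise; card pull = card A + k a j - the sum of the
deleted layers changes by at most 9 N ^ 2 per step and by at least alpha K / 2 >= |T| in total, so
some k is within 9 N ^ 2 of the target. Psi: for a layer t at distance d from the nearest seam,
ph ^ d <= ph ^ |p t - u| for some u in {j, jd - 1, jd + k}; every value of p other than j is taken
at most once; the vertical bonds at the seam j1 - 1 are at most those of the deleted layers and of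
layer jd - 1; the sum over the seams of ph ^ |t - sigma| is at most 3 ph ^ d.
-/

set_option autoImplicit false

noncomputable section

namespace Pool.Agent.Work.MP_b59478_pr

open Classical Filter Topology MeasureTheory
open scoped symmDiff Pointwise

theorem slab_pm {N k : ℕ} {j0 j1 : ℤ} (h0 : -(N : ℤ) ≤ j0) (h1 : j0 + k ≤ N) (h2 : -(N : ℤ) ≤ j1)
    (h3 : j1 ≤ N + 1) :
    Slab N (pm j0 j1 k) (seam j0 j1 k) ∧ (pm j0 j1 k, seam j0 j1 k) ∈ Params N := by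
  refine ⟨⟨fun a b hab => ?_, fun t ht => ?_, fun t => ?_⟩, ?_⟩
  · unfold pm
    split_ifs <;> omega
  · rw [SG3_mem_seam] at ht
    unfold pm
    split_ifs <;> omega
  · rw [abs_le, abs_le]
    unfold pm
    split_ifs <;> omega
  · refine Finset.mem_insert_of_mem (Finset.mem_image.2 ⟨(j0, j1, k), ?_, rfl⟩)
    simp only [Finset.mem_product, Finset.mem_Icc, Finset.mem_range]
    omega

theorem SG3_ivt (D : ℕ → ℝ) {K : ℕ} {T M : ℝ} (h0 : D 0 = 0) (hT : 0 ≤ T) (hK : T ≤ D K)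
    (hM : 0 ≤ M) (hs : ∀ k, D (k + 1) - D k ≤ M) : ∃ k ≤ K, |D k - T| ≤ M := by
  have hex : ∃ k, T ≤ D k := ⟨K, hK⟩
  refine ⟨Nat.find hex, Nat.find_min' hex hK, ?_⟩
  have h1 := Nat.find_spec hex
  rw [abs_of_nonneg (by linarith)]
  rcases h : Nat.find hex with _ | k
  · rw [h0]; linarith
  · have h2 := Nat.find_min hex (m := k) (by omega)
    have h3 := hs k
    push Not at h2
    linarith

theorem SG3_core {N K : ℕ} (hN : 1 ≤ N) {A : Finset Site} (hA : A ⊆ cube N) {j jd : ℤ} {T : ℝ}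
    (hj0 : -(N : ℤ) ≤ j) (hj1 : j ≤ N) (hd0 : -(N : ℤ) ≤ jd) (hd1 : jd + K ≤ N)
    (hsep : j < jd ∨ jd + K ≤ j)
    (hT : (0 ≤ T ∧ T ≤ K * SG3_lay A j - ∑ i ∈ Finset.range K, SG3_lay A (jd + i)) ∨
      (T ≤ 0 ∧ K * SG3_lay A j - ∑ i ∈ Finset.range K, SG3_lay A (jd + i) ≤ T)) :
    ∃ q ∈ Params N, Slab N q.1 q.2 ∧ q.2.Nonempty ∧
      |((pull N q.1 A).card : ℝ) - A.card - T| ≤ 9 * (N : ℝ) ^ 2 ∧
      Psi q.2 (pull N q.1 A) ≤ 3 * (K + 1) * SG3_Wt A j +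
        9 * ∑ i ∈ Finset.Icc (-1 : ℤ) K, SG3_Wt A (jd + i) := by
  set D : ℕ → ℝ := fun k => k * SG3_lay A j - ∑ i ∈ Finset.range k, SG3_lay A (jd + i) with hD
  have hD0 : D 0 = 0 := by simp [hD]
  have hDs : ∀ k, D (k + 1) - D k = SG3_lay A j - SG3_lay A (jd + k) := fun k => by
    simp only [hD, Finset.sum_range_succ]
    push_cast
    ring
  have hM : (0 : ℝ) ≤ 9 * (N : ℝ) ^ 2 := by positivity
  obtain ⟨k, hk, hkT⟩ : ∃ k ≤ K, |D k - T| ≤ 9 * (N : ℝ) ^ 2 := by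
    rcases hT with ⟨h1, h2⟩ | ⟨h1, h2⟩
    · refine SG3_ivt D hD0 h1 h2 hM fun k => ?_
      have := SG3_lay_le hN hA j
      have := SG3_lay_nonneg A (jd + k)
      rw [hDs]
      linarith
    · obtain ⟨k, hk, h⟩ := SG3_ivt (fun k => -D k) (K := K) (T := -T) (by simp [hD0])
        (by linarith) (by simp only [hD]; linarith) hM fun k => by
          have := SG3_lay_le hN hA (jd + k)
          have := SG3_lay_nonneg A j
          have := hDs k
          linarith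
      refine ⟨k, hk, ?_⟩
      rw [← abs_neg]
      convert h using 2
      ring
  obtain ⟨j0, j1, hok, a0, a1, a2, a3⟩ : ∃ j0 j1 : ℤ, SG3_Ok j jd j0 j1 k ∧ -(N : ℤ) ≤ j0 ∧
      j0 + k ≤ N ∧ -(N : ℤ) ≤ j1 ∧ j1 ≤ N + 1 := by
    rcases hsep with h | h
    · exact ⟨j, jd + k, Or.inl ⟨h, rfl, rfl⟩, by omega, by omega, by omega, by omega⟩
    · exact ⟨j - k, jd, Or.inr ⟨by omega, rfl, rfl⟩, by omega, by omega, by omega, by omega⟩
  obtain ⟨hs, hp⟩ := slab_pm a0 a1 a2 a3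
  refine ⟨_, hp, hs, Finset.insert_nonempty _ _, ?_, (SG3_Psi_le hok hs hA).trans ?_⟩
  · rw [SG3_card_eq (pull_subset N _ A), Finset.sum_congr rfl fun t _ => SG3_lay_pull hs hA t,
      SG3_sum_pm hok hj0 hj1 hd0 (by omega), ← SG3_card_eq hA]
    convert hkT using 2
    simp only [hD]
    ring
  · have h1 : ∑ u ∈ Finset.Icc (jd - 1) (jd + k), SG3_Wt A u ≤
        ∑ i ∈ Finset.Icc (-1 : ℤ) K, SG3_Wt A (jd + i) := by
      refine le_trans (le_of_eq ?_) (SG3_sum_inj (S := Finset.Icc (jd - 1) (jd + k))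
        (fun u => u - jd) (fun i => SG3_Wt A (jd + i)) (fun _ => SG3_Wt_nonneg A _) ?_ ?_)
      · simp
      · intro u hu
        rw [Finset.mem_Icc] at hu ⊢
        omega
      · intro a _ b _ h
        simp only at h
        omega
    have h2 : (k : ℝ) ≤ K := by exact_mod_cast hk
    have h3 := mul_le_mul_of_nonneg_right h2 (SG3_Wt_nonneg A j)
    linarith only [h1, h3]

theorem SG3_pick (f g : ℤ → ℝ) {S : Finset ℤ} (hS : S.Nonempty) (hf : ∀ u, 0 ≤ f u)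
    (hg : ∀ u, 0 ≤ g u) {a b : ℝ} (ha : 0 < a) (hb : 0 < b)
    (h1 : ∑ u ∈ S, f u ≤ a * S.card / 2) (h2 : ∑ u ∈ S, g u ≤ b * S.card / 2) :
    ∃ u ∈ S, f u ≤ a ∧ g u ≤ b := by
  obtain ⟨u, hu, h⟩ := Finset.exists_le_of_sum_le (f := fun u => b * f u + a * g u)
    (g := fun _ => a * b) hS (by
      rw [Finset.sum_add_distrib, ← Finset.mul_sum, ← Finset.mul_sum, Finset.sum_const,
        nsmul_eq_mul]
      nlinarith only [h1, hb, h2, ha, mul_le_mul_of_nonneg_left h1 hb.le, mul_le_mul_of_nonneg_left h2 ha.le])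
  refine ⟨u, hu, ?_, ?_⟩
  · have := mul_nonneg ha.le (hg u)
    exact le_of_mul_le_mul_left (by linarith) hb
  · have := mul_nonneg hb.le (hf u)
    exact le_of_mul_le_mul_left (by linarith) ha

theorem SG3_pick1 {A : Finset Site} {l : ℕ} (hl : 1 ≤ l) (dev : ℤ → ℝ) (hdev : ∀ u, 0 ≤ dev u)
    (i : ℤ) {W : ℝ} (hW0 : 0 < W) (hW : 3 * ((cut A).card : ℝ) ≤ W)
    (h : ∑ u ∈ Finset.Icc i (i + l), dev u ≤ (l : ℝ) ^ 3 / 8) :
    ∃ j, i ≤ j ∧ j ≤ i + l ∧ dev j ≤ (2 * (l : ℝ) + 1) ^ 2 / 4 ∧ SG3_Wt A j ≤ 2 * (W / l) := by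
  have hl' : (1 : ℝ) ≤ l := by exact_mod_cast hl
  have hc : ((Finset.Icc i (i + l)).card : ℝ) = l + 1 := by
    have : (Finset.Icc i (i + l)).card = l + 1 := by rw [Int.card_Icc]; omega
    rw [this]; push_cast; ring
  have hWl : W / l * l = W := by field_simp
  have hWp : 0 < W / l := by positivity
  obtain ⟨j, hj, h1, h2⟩ := SG3_pick dev (SG3_Wt A) (S := Finset.Icc i (i + l))
    ⟨i, Finset.mem_Icc.2 (by omega)⟩ hdev (SG3_Wt_nonneg A) (a := (2 * (l : ℝ) + 1) ^ 2 / 4)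
    (b := 2 * (W / l)) (by positivity) (by positivity)
    (h.trans (by rw [hc]; nlinarith only [hl', pow_pos (by linarith only [hl'] : (0 : ℝ) < l) 3, sq_nonneg (l : ℝ)]))
    ((SG3_sum_Wt A _).trans (hW.trans (by rw [hc]; nlinarith only [hWl, hWp])))
  rw [Finset.mem_Icc] at hj
  exact ⟨j, hj.1, hj.2, h1, h2⟩

theorem SG3_pick2 {A : Finset Site} {l K : ℕ} (hK1 : 1 ≤ K) (hK : 2 * K ≤ l) (dev : ℤ → ℝ)
    (hdev : ∀ u, 0 ≤ dev u) (i : ℤ) {W : ℝ} (hW0 : 0 < W) (hW : 3 * ((cut A).card : ℝ) ≤ W)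
    (h : ∑ u ∈ Finset.Icc i (i + l), dev u ≤ (l : ℝ) ^ 3 / 8) :
    ∃ jd, i ≤ jd ∧ jd + K ≤ i + l ∧
      ∑ n ∈ Finset.range K, dev (jd + n) ≤ (2 * (l : ℝ) + 1) ^ 2 * K / 4 ∧
      ∑ n ∈ Finset.Icc (-1 : ℤ) K, SG3_Wt A (jd + n) ≤ 4 * (K + 2) * (W / l) := by
  have hl' : (1 : ℝ) ≤ l := by exact_mod_cast (by omega : 1 ≤ l)
  have hK' : (1 : ℝ) ≤ K := by exact_mod_cast hK1
  have hc : (l : ℝ) / 2 ≤ ((Finset.Icc i (i + l - K)).card : ℝ) := by
    have : l ≤ (Finset.Icc i (i + l - K)).card * 2 := by rw [Int.card_Icc]; omega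
    rw [div_le_iff₀ (by norm_num)]
    exact_mod_cast this
  have hWl : W / l * l = W := by field_simp
  have hWp : 0 < W / l := by positivity
  have e1 : ∑ u ∈ Finset.Icc i (i + l - K), ∑ n ∈ Finset.range K, dev (u + n) ≤
      K * ((l : ℝ) ^ 3 / 8) := by
    rw [Finset.sum_comm]
    refine (Finset.sum_le_card_nsmul _ _ ((l : ℝ) ^ 3 / 8) fun n hn => ?_).trans (by simp)
    rw [Finset.mem_range] at hn
    refine (SG3_sum_inj (fun u : ℤ => u + n) dev hdev ?_ ?_).trans h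
    · intro u hu
      rw [Finset.mem_Icc] at hu ⊢
      omega
    · intro a _ b _ hab
      simp only at hab
      omega
  have e2 : ∑ u ∈ Finset.Icc i (i + l - K), ∑ n ∈ Finset.Icc (-1 : ℤ) K, SG3_Wt A (u + n) ≤
      (K + 2) * W := by
    rw [Finset.sum_comm]
    refine (Finset.sum_le_card_nsmul _ _ W fun n _ => ?_).trans ?_
    · refine (SG3_sum_inj (T := (Finset.Icc i (i + l - K)).image fun u => u + n) (fun u => u + n)
        (SG3_Wt A) (SG3_Wt_nonneg A) (fun u hu => Finset.mem_image_of_mem _ hu) ?_).trans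
        ((SG3_sum_Wt A _).trans hW)
      intro a _ b _ hab
      simp only at hab
      omega
    · have : (Finset.Icc (-1 : ℤ) K).card = K + 2 := by rw [Int.card_Icc]; omega
      rw [this, nsmul_eq_mul]
      push_cast
      exact le_rfl
  obtain ⟨jd, hj, h1, h2⟩ := SG3_pick (fun u => ∑ n ∈ Finset.range K, dev (u + n))
    (fun u => ∑ n ∈ Finset.Icc (-1 : ℤ) K, SG3_Wt A (u + n)) (S := Finset.Icc i (i + l - K))
    ⟨i, Finset.mem_Icc.2 (by omega)⟩ (fun _ => Finset.sum_nonneg fun _ _ => hdev _)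
    (fun _ => Finset.sum_nonneg fun _ _ => SG3_Wt_nonneg A _)
    (a := (2 * (l : ℝ) + 1) ^ 2 * K / 4) (b := 4 * (K + 2) * (W / l)) (by positivity)
    (by positivity) (e1.trans (by
      have h3 := mul_le_mul_of_nonneg_left hc
        (by positivity : 0 ≤ (2 * (l : ℝ) + 1) ^ 2 * K / 4)
      have h4 : (l : ℝ) ^ 3 / 8 ≤ (2 * (l : ℝ) + 1) ^ 2 * l / 16 := by
        nlinarith only [hl', pow_pos (by linarith only [hl'] : (0 : ℝ) < l) 3, sq_nonneg (l : ℝ)]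
      nlinarith only [h3, h4, hK', mul_le_mul_of_nonneg_left h4 (by linarith only [hK'] : (0 : ℝ) ≤ K)]))
    (e2.trans (by
      have h3 := mul_le_mul_of_nonneg_left hc
        (by positivity : 0 ≤ 4 * ((K : ℝ) + 2) * (W / l))
      have h4 : 4 * ((K : ℝ) + 2) * (W / l) * (l / 2) = 2 * ((K + 2) * W) := by
        field_simp
        ring
      linarith only [h3, h4]))
  rw [Finset.mem_Icc] at hj
  exact ⟨jd, hj.1, by omega, h1, h2⟩

theorem SG3_main {N l K : ℕ} (hN : 1 ≤ N) (hK1 : 1 ≤ K) (hK : 2 * K ≤ l) {A : Finset Site}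
    (hA : A ⊆ cube N) {T W η : ℝ} (hW0 : 0 < W) (hW : 3 * ((cut A).card : ℝ) ≤ W)
    (hη : η ≤ (l : ℝ) ^ 3 / 8) (hR : RichPoor N l η A)
    (hT : 2 * |T| ≤ (2 * (l : ℝ) + 1) ^ 2 * K) :
    ∃ q ∈ Params N, Slab N q.1 q.2 ∧ q.2.Nonempty ∧
      |((pull N q.1 A).card : ℝ) - A.card - T| ≤ 9 * (N : ℝ) ^ 2 ∧
      Psi q.2 (pull N q.1 A) ≤ 78 * (K + 1) * (W / l) := by
  obtain ⟨z, jp, hb, hr, p0, p1, hp, hsep⟩ := hR
  have hl : 1 ≤ l := by omega
  have hl' : (1 : ℝ) ≤ l := by exact_mod_cast hl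
  have hK' : (1 : ℝ) ≤ K := by exact_mod_cast hK1
  have hWp : 0 < W / l := by positivity
  have z1 : z 0 ≤ N := (abs_le.1 (mem_cube.1 (hb (mem_ball.2 fun i => by simp)) 0)).2
  have z0 : -(N : ℤ) ≤ z 0 - l := by
    have hm : Function.update z 0 (z 0 - l) ∈ ball z l := mem_ball.2 fun i => by
      by_cases hi : i = 0
      · subst hi; simp
      · simp [Function.update_of_ne hi]
    simpa using (abs_le.1 (mem_cube.1 (hb hm) 0)).1
  have hrich : ∑ u ∈ Finset.Icc (z 0 - l) (z 0 - l + l), SG3_lay (ball z l \ A) u ≤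
      (l : ℝ) ^ 3 / 8 := by
    rw [SG3_sum_lay]
    exact ((Nat.cast_le.2 (Finset.card_filter_le _ _)).trans hr).trans hη
  have hpoor : ∑ u ∈ Finset.Icc jp (jp + l), SG3_lay A u ≤ (l : ℝ) ^ 3 / 8 := by
    rw [SG3_sum_lay]
    simp only [Finset.mem_Icc]
    exact hp.trans hη
  have fin : ∀ x y : ℝ, x ≤ 2 * (W / l) → y ≤ 4 * (K + 2) * (W / l) →
      3 * (K + 1) * x + 9 * y ≤ 78 * (K + 1) * (W / l) := fun x y hx hy => by
    have h1 := mul_le_mul_of_nonneg_left hx (by positivity : 0 ≤ 3 * ((K : ℝ) + 1))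
    nlinarith only [hy, h1, hK', hWp, mul_nonneg (by linarith only [hK'] : (0 : ℝ) ≤ K) hWp.le]
  rcases le_total 0 T with h0 | h0
  · obtain ⟨j, j0, j1, j2, j3⟩ := SG3_pick1 hl _ (SG3_lay_nonneg _) _ hW0 hW hrich
    obtain ⟨jd, d0, d1, d2, d3⟩ := SG3_pick2 hK1 hK _ (SG3_lay_nonneg _) _ hW0 hW hpoor
    obtain ⟨q, hq, a1, a2, a3, a4⟩ := SG3_core (K := K) hN hA (j := j) (jd := jd) (T := T)
      (by omega) (by omega) (by omega) (by omega) (by omega) (Or.inl ⟨h0, by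
        have h1 := SG3_lay_ge z l A (t := j) (abs_le.2 ⟨by omega, by omega⟩)
        have h2 := mul_le_mul_of_nonneg_left (show 3 / 4 * (2 * (l : ℝ) + 1) ^ 2 ≤ SG3_lay A j by
          linarith only [j2, h1]) (by linarith only [hK'] : (0 : ℝ) ≤ K)
        rw [abs_of_nonneg h0] at hT
        linarith only [hT, d2, h2]⟩)
    exact ⟨q, hq, a1, a2, a3, a4.trans (fin _ _ j3 d3)⟩
  · obtain ⟨j, j0, j1, j2, j3⟩ := SG3_pick1 hl _ (SG3_lay_nonneg _) _ hW0 hW hpoor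
    obtain ⟨jd, d0, d1, d2, d3⟩ := SG3_pick2 hK1 hK _ (SG3_lay_nonneg _) _ hW0 hW hrich
    obtain ⟨q, hq, a1, a2, a3, a4⟩ := SG3_core (K := K) hN hA (j := j) (jd := jd) (T := T)
      (by omega) (by omega) (by omega) (by omega) (by omega) (Or.inr ⟨h0, by
        have h1 : ∑ n ∈ Finset.range K, (2 * (l : ℝ) + 1) ^ 2 ≤ ∑ n ∈ Finset.range K,
            (SG3_lay A (jd + n) + SG3_lay (ball z l \ A) (jd + n)) :=
          Finset.sum_le_sum fun n hn => by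
            rw [Finset.mem_range] at hn
            exact SG3_lay_ge z l A (abs_le.2 ⟨by omega, by omega⟩)
        rw [Finset.sum_add_distrib, Finset.sum_const, Finset.card_range, nsmul_eq_mul] at h1
        have h2 := mul_le_mul_of_nonneg_left j2 (by linarith only [hK'] : (0 : ℝ) ≤ K)
        rw [abs_of_nonpos h0] at hT
        linarith only [hT, d2, h1, h2]⟩)
    exact ⟨q, hq, a1, a2, a3, a4.trans (fin _ _ j3 d3)⟩

theorem exists_slab {c C : ℝ} (hc : 0 < c) (hC : 0 < C) : ∃ η0 C' : ℝ, 0 < η0 ∧ 0 < C' ∧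
    ∀ᶠ N : ℕ in atTop, ∀ (A : Finset Site) (T : ℝ), A ⊆ cube N →
    ((cut A).card : ℝ) ≤ C * (N : ℝ) ^ 2 → RichPoor N ⌊c * N⌋₊ (η0 * (N : ℝ) ^ 3) A →
    |T| ≤ η0 * (N : ℝ) ^ 3 → ∃ q ∈ Params N, Slab N q.1 q.2 ∧ q.2.Nonempty ∧
      |((pull N q.1 A).card : ℝ) - A.card - T| ≤ 9 * (N : ℝ) ^ 2 ∧
      Psi q.2 (pull N q.1 A) ≤ C' * (N + |T| / N) := by
  refine ⟨c ^ 3 / 64, 936 * (C / c) * (1 + 1 / c ^ 2), by positivity, by positivity, ?_⟩
  have hev : ∀ᶠ N : ℕ in atTop, 3 ≤ c * N :=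
    (tendsto_natCast_atTop_atTop.const_mul_atTop hc).eventually_ge_atTop 3
  filter_upwards [hev, eventually_ge_atTop 1] with N h3 hN A T hA hcut hR hT
  set l := ⌊c * N⌋₊ with hl
  have hN' : (1 : ℝ) ≤ N := by exact_mod_cast hN
  have hl3 : 3 ≤ l := Nat.le_floor (by exact_mod_cast h3)
  have hl3' : (3 : ℝ) ≤ l := by exact_mod_cast hl3
  have hl2 : c * N / 2 ≤ l := by
    have := Nat.lt_floor_add_one (c * N)
    rw [← hl] at this
    linarith only [hl3', this]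
  have hη : c ^ 3 / 64 * (N : ℝ) ^ 3 ≤ (l : ℝ) ^ 3 / 8 := by
    have := pow_le_pow_left₀ (by positivity) hl2 3
    have e : (c * N / 2) ^ 3 = 8 * (c ^ 3 / 64 * (N : ℝ) ^ 3) := by ring
    linarith only [this]
  set α : ℝ := (2 * (l : ℝ) + 1) ^ 2 with hα
  have hα0 : 0 < α := by positivity
  have hα1 : 4 * (l : ℝ) ^ 2 ≤ α := by rw [hα]; nlinarith only [hl3']
  have hx0 : 0 ≤ 2 * |T| / α := by positivity
  have hK1 := Nat.lt_floor_add_one (2 * |T| / α)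
  have hK2 := Nat.floor_le hx0
  set K0 := ⌊2 * |T| / α⌋₊ with hK0
  have hx1 : 2 * |T| / α ≤ l / 16 := by
    rw [div_le_iff₀ hα0]
    nlinarith only [hT, hl3', hη, mul_le_mul_of_nonneg_left hα1 (by linarith only [hl3'] : (0 : ℝ) ≤ l)]
  have hx2 : 2 * |T| / α ≤ 2 * (|T| / N) / (c ^ 2 * N) := by
    clear * - c N α l hl3' hc hN hl2 T
    have h1 : (c * N) ^ 2 ≤ α := by
      nlinarith only [hl3', hc, hN, hl2, pow_le_pow_left₀ (by positivity) hl2 2]
    refine (div_le_div_of_nonneg_left (by positivity) (by positivity) h1).trans (le_of_eq ?_)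
    field_simp
  obtain ⟨q, hq, a1, a2, a3, a4⟩ := SG3_main (K := K0 + 1) (l := l) hN (by omega)
    (by
      have : (2 * ((K0 + 1 : ℕ) : ℝ)) ≤ l := by push_cast; linarith only [hl3', hK2, hx1]
      exact_mod_cast this) hA (T := T) (W := 3 * (C * (N : ℝ) ^ 2)) (by positivity) (by linarith only [hcut])
    hη hR (by
      rw [div_lt_iff₀ hα0] at hK1
      push_cast
      linarith only [hK1])
  refine ⟨q, hq, a1, a2, a3, a4.trans ?_⟩
  have hWl : 3 * (C * (N : ℝ) ^ 2) / l ≤ 6 * (C / c) * N := by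
    refine (div_le_div_of_nonneg_left (by positivity) (by positivity) hl2).trans (le_of_eq ?_)
    field_simp
    ring
  have hKK : ((K0 + 1 : ℕ) : ℝ) + 1 ≤ 2 + 2 * (|T| / N) / (c ^ 2 * N) := by
    push_cast
    linarith only [hK2, hx2]
  have hy : 0 ≤ |T| / N := by positivity
  calc 78 * (((K0 + 1 : ℕ) : ℝ) + 1) * (3 * (C * (N : ℝ) ^ 2) / l)
      ≤ 78 * (2 + 2 * (|T| / N) / (c ^ 2 * N)) * (6 * (C / c) * N) := by clear * - K0 T N c C l hKK hWl hC hN hl3 hc; gcongr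
    _ = 936 * (C / c) * (N + 1 / c ^ 2 * (|T| / N)) := by
      field_simp
      ring
    _ ≤ 936 * (C / c) * ((1 + 1 / c ^ 2) * (N + |T| / N)) := by
      clear * - c N hc hN C T hy hC
      have : 0 ≤ 1 / c ^ 2 * N := by positivity
      gcongr
      linarith only [hy, this]
    _ = _ := by ring

end Pool.Agent.Work.MP_b59478_pr
end
end

-- merged part: Pool.Agent.Work.MP_b59478_pr.SG5A
section
/-! Auxiliary lemmas for thick hairs. -/

set_option autoImplicit false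

noncomputable section

namespace Pool.Agent.Work.MP_b59478_pr

open Classical Filter Topology MeasureTheory
open scoped symmDiff Pointwise

theorem SG5_card (A I : Finset Site) (h : 8 * (cut I \ cut A).card ≤ (cut I).card) :
    4 * (cut (A ∆ I)).card + 3 * (cut I).card ≤ 4 * (cut A).card ∧
      7 * (cut I).card ≤ 8 * (cut A).card := by
  have h1 := Finset.card_sdiff_add_card_inter (cut A) (cut I)
  have h2 := Finset.card_sdiff_add_card_inter (cut I) (cut A)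
  have h3 : (cut (A ∆ I)).card ≤ (cut A \ cut I).card + (cut I \ cut A).card := by
    rw [cut_symmDiff, symmDiff_def]
    exact Finset.card_union_le _ _
  rw [Finset.inter_comm] at h2
  omega

theorem SG5_symm_sub {V A I : Finset Site} (hA : A ⊆ V) (hI : I ⊆ V) : A ∆ I ⊆ V := by
  intro x hx
  rw [Finset.mem_symmDiff] at hx
  rcases hx with hx | hx
  · exact hA hx.1
  · exact hI hx.1

theorem SG5_abs_card (A B : Finset Site) : |(A.card : ℝ) - B.card| ≤ (A ∆ B).card := by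
  have h1 : A.card ≤ B.card + (A ∆ B).card := by
    refine (Finset.card_le_card fun x hx => ?_).trans (Finset.card_union_le B (A ∆ B))
    rw [Finset.mem_union, Finset.mem_symmDiff]
    tauto
  have h2 : B.card ≤ A.card + (A ∆ B).card := by
    refine (Finset.card_le_card fun x hx => ?_).trans (Finset.card_union_le A (A ∆ B))
    rw [Finset.mem_union, Finset.mem_symmDiff]
    tauto
  have h1' : (A.card : ℝ) ≤ B.card + (A ∆ B).card := by exact_mod_cast h1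
  have h2' : (B.card : ℝ) ≤ A.card + (A ∆ B).card := by exact_mod_cast h2
  rw [abs_le]
  constructor <;> linarith only [h2', h1']

theorem SG5_rich {N l : ℕ} {η η' : ℝ} {A I : Finset Site} (h : RichPoor N l η A)
    (hI : η + I.card ≤ η') : RichPoor N l η' (A ∆ I) := by
  obtain ⟨z, j, h1, h2, h3, h4, h5, h6⟩ := h
  refine ⟨z, j, h1, ?_, h3, h4, ?_, h6⟩
  · have : (ball z l \ (A ∆ I)).card ≤ (ball z l \ A).card + I.card := by
      refine (Finset.card_le_card fun x hx => ?_).trans (Finset.card_union_le _ _)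
      rw [Finset.mem_sdiff, Finset.mem_symmDiff] at hx
      rw [Finset.mem_union, Finset.mem_sdiff]
      (clear * - h6 hx; tauto)
    have : ((ball z l \ (A ∆ I)).card : ℝ) ≤ (ball z l \ A).card + I.card := by exact_mod_cast this
    linarith only [hI, h2, this]
  · have : ((A ∆ I).filter fun x => j ≤ x 0 ∧ x 0 ≤ j + l).card ≤
        (A.filter fun x => j ≤ x 0 ∧ x 0 ≤ j + l).card + I.card := by
      refine (Finset.card_le_card fun x hx => ?_).trans (Finset.card_union_le _ _)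
      rw [Finset.mem_filter, Finset.mem_symmDiff] at hx
      rw [Finset.mem_union, Finset.mem_filter]
      (clear * - h6 hx; tauto)
    have : (((A ∆ I).filter fun x => j ≤ x 0 ∧ x 0 ≤ j + l).card : ℝ) ≤
        (A.filter fun x => j ≤ x 0 ∧ x 0 ≤ j + l).card + I.card := by exact_mod_cast this
    linarith only [hI, h5, this]

theorem SG5_real_diff {E E' p q a b V e e' sg K M : ℝ} (hs : sg = 1 ∨ sg = -1)
    (hp : 0 ≤ p ∧ p ≤ ph) (hq : 0 ≤ q ∧ q ≤ ph)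
    (h1 : |E - ((1 - 2 * p) * a - (1 - 2 * q) * (V - a))| ≤ e)
    (h2 : |E' - ((1 - 2 * p) * b - (1 - 2 * q) * (V - b))| ≤ e') (he : e + e' ≤ K)
    (h3 : K ≤ sg * (b - a)) (h4 : sg * (b - a) ≤ M) :
    sg * (E - E') ≤ 0 ∧ |E - E'| ≤ 2 * M + K := by
  unfold ph at hp hq
  have hK : 0 ≤ K :=
    (add_nonneg ((abs_nonneg _).trans h1) ((abs_nonneg _).trans h2)).trans he
  rw [abs_le] at h1 h2 ⊢
  obtain ⟨h1, h1'⟩ := h1
  obtain ⟨h2, h2'⟩ := h2
  have hd : 0 ≤ sg * (b - a) := hK.trans h3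
  have h5 : sg * (b - a) ≤ (2 - 2 * p - 2 * q) * (sg * (b - a)) :=
    le_mul_of_one_le_left hd (by linarith only [hp, hq, hp.2, hq.2])
  have h6 : (2 - 2 * p - 2 * q) * (sg * (b - a)) ≤ 2 * (sg * (b - a)) :=
    mul_le_mul_of_nonneg_right (by linarith [hp.1, hq.1]) hd
  rcases hs with rfl | rfl
  · refine ⟨?_, ?_, ?_⟩ <;> nlinarith only [he, h1', h2, h3, h5, h1, h2', h4, h6, hK]
  · refine ⟨?_, ?_, ?_⟩ <;> nlinarith only [he, h1, h2', h3, h5, hK, h4, h1', h2, h6]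

theorem SG5_real_term {h d sg DA D' c K Y W Nr : ℝ} (hs : sg = 1 ∨ sg = -1) (hc : 0 < c)
    (hN : 0 < Nr) (hK : 0 ≤ K) (hW : 0 ≤ W) (h1 : sg * d ≤ 0) (h2 : |d| ≤ K * Nr ^ 2)
    (h3 : 0 ≤ sg * DA) (h4 : 0 ≤ h * D') (h5 : |h| * (c * Nr ^ 3) ≤ |D'|)
    (h6 : |DA - D'| ≤ K * Nr ^ 2 + 2 * Y) (h7 : 2 * K * Y ≤ c * Nr * W) :
    h * d ≤ K ^ 2 / c * Nr + W := by
  have hs2 : sg * sg = 1 := by rcases hs with rfl | rfl <;> norm_num
  have hsa : |sg| = 1 := by rcases hs with rfl | rfl <;> norm_num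
  by_cases hh : 0 ≤ sg * h
  · have : h * d = (sg * h) * (sg * d) := by
      calc h * d = (sg * sg) * (h * d) := by rw [hs2, one_mul]
        _ = _ := by ring
    have h8 : (sg * h) * (sg * d) ≤ 0 := mul_nonpos_of_nonneg_of_nonpos hh h1
    have h9 : 0 ≤ K ^ 2 / c * Nr := by positivity
    linarith only [hW, this, h8, h9]
  · push Not at hh
    have h8 : sg * D' ≤ 0 := by
      by_contra h9
      push Not at h9
      have : (sg * h) * (sg * D') < 0 := mul_neg_of_neg_of_pos hh h9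
      have e : (sg * h) * (sg * D') = h * D' := by
        calc (sg * h) * (sg * D') = (sg * sg) * (h * D') := by ring
          _ = _ := by rw [hs2, one_mul]
      linarith
    have h9 : |D'| ≤ K * Nr ^ 2 + 2 * Y := by
      have e1 : |D'| = -(sg * D') := by
        rw [← abs_of_nonpos h8, abs_mul, hsa, one_mul]
      have e2 : sg * (DA - D') ≤ |DA - D'| := by
        refine (le_abs_self _).trans ?_
        rw [abs_mul, hsa, one_mul]
      nlinarith only [h3, h6, e1, e2]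
    have h10 : h * d ≤ |h| * (K * Nr ^ 2) := by
      refine (le_abs_self _).trans ?_
      rw [abs_mul]
      exact mul_le_mul_of_nonneg_left h2 (abs_nonneg _)
    have hcN : 0 < c * Nr := mul_pos hc hN
    refine h10.trans (le_of_mul_le_mul_left ?_ hcN)
    have h11 : c * Nr * (|h| * (K * Nr ^ 2)) = K * (|h| * (c * Nr ^ 3)) := by ring
    have h12 : c * Nr * (K ^ 2 / c * Nr + W) = K * (K * Nr ^ 2) + c * Nr * W := by
      field_simp
    have h13 : K * (|h| * (c * Nr ^ 3)) ≤ K * (K * Nr ^ 2 + 2 * Y) :=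
      mul_le_mul_of_nonneg_left (h5.trans h9) hK
    rw [h11, h12]
    nlinarith only [h7, h13]

theorem SG5_gas {β : ℝ} (hβ : 1000 ≤ β) (N s : ℕ) {A I : Finset Site} {K : Finset Bond}
    (hK : K ⊆ cut (A ∆ I)) :
    Real.log (gZ0 β (cube N) (nbhd (cut A)) s) ≤
      Real.log (gZ0 β (cube N) (nbhd K) s) + 81 * (cut I \ cut A).card := by
  have hG : Gas β (cube N) s fun _ => 0 := ⟨hβ, isBox_cube N, fun _ => by simp⟩
  have h1 := gZ_le hG (nbhd (cut A)) (nbhd K)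
  rw [gZ_zero, gZ_zero] at h1
  have h2 : (nbhd K \ nbhd (cut A)).card ≤ 81 * (cut I \ cut A).card := by
    refine (Finset.card_le_card fun b hb => ?_).trans (card_nbhd _)
    rw [Finset.mem_sdiff] at hb
    have h3 : K ⊆ cut A ∪ (cut I \ cut A) := by
      intro b hb
      have := hK hb
      rw [cut_symmDiff, Finset.mem_symmDiff] at this
      rw [Finset.mem_union, Finset.mem_sdiff]
      tauto
    have h4 := nbhd_mono h3 hb.1
    rw [nbhd_union, Finset.mem_union] at h4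
    exact h4.resolve_left hb.2
  have h3 := Real.log_le_log (gZ0_pos _ _ _ _) h1
  rw [Real.log_mul (by positivity) (gZ0_pos _ _ _ _).ne', Real.log_pow] at h3
  have h4 : Real.log 2 ≤ 1 := by linarith only [Real.log_two_lt_d9]
  have h5 : ((nbhd K \ nbhd (cut A)).card : ℝ) ≤ 81 * (cut I \ cut A).card := by exact_mod_cast h2
  have h6 : ((nbhd K \ nbhd (cut A)).card : ℝ) * Real.log 2 ≤ (nbhd K \ nbhd (cut A)).card :=
    mul_le_of_le_one_right (Nat.cast_nonneg _) h4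
  linarith

theorem SG5_real_final {β a b x y c Nr ZM ZM' Z Z' e : ℝ} (hc : 0 < c) (hN : 0 < Nr)
    (hZ : 0 < Z) (hZ' : 0 < Z') (h1 : ZM ≤ Real.exp e * Z) (h2 : Real.log Z ≤ Real.log Z' + x)
    (h3 : c / Nr ^ 3 * (Real.exp e * Z') ≤ ZM') (h4 : -(2 * β * a) + x ≤ y + -(2 * β * b)) :
    Real.exp (-(2 * β * a)) * ZM ≤
      1 / c * Nr ^ 3 * Real.exp y * (Real.exp (-(2 * β * b)) * ZM') := by
  have h5 : Z ≤ Real.exp x * Z' := by
    rw [← Real.exp_log hZ, ← Real.exp_log hZ', ← Real.exp_add, Real.exp_le_exp]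
    linarith
  have h6 : Real.exp e * Z' ≤ 1 / c * Nr ^ 3 * ZM' := by
    have := mul_le_mul_of_nonneg_left h3 (show 0 ≤ 1 / c * Nr ^ 3 by positivity)
    refine le_trans (le_of_eq ?_) this
    field_simp
  have h7 : Real.exp (-(2 * β * a)) * Real.exp x ≤ Real.exp y * Real.exp (-(2 * β * b)) := by
    rw [← Real.exp_add, ← Real.exp_add, Real.exp_le_exp]
    exact h4
  calc Real.exp (-(2 * β * a)) * ZM ≤ Real.exp (-(2 * β * a)) * (Real.exp e * (Real.exp x * Z')) :=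
        mul_le_mul_of_nonneg_left (h1.trans (mul_le_mul_of_nonneg_left h5 (Real.exp_pos _).le))
          (Real.exp_pos _).le
    _ = (Real.exp (-(2 * β * a)) * Real.exp x) * (Real.exp e * Z') := by ring
    _ ≤ (Real.exp y * Real.exp (-(2 * β * b))) * (1 / c * Nr ^ 3 * ZM') :=
        mul_le_mul h7 h6 (by positivity) (by positivity)
    _ = _ := by ring

theorem SG5_large {N s : ℕ} {B : Finset Site} (hB : B ⊆ cube N) :
    ((B ∆ large s B).card : ℝ) ≤ (2 * (s : ℝ) + 1) ^ 3 * (cut B \ cut (large s B)).card := by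
  have h1 := symmDiff_large_mem (isBox_cube N) hB s
  have h2 := card_le_of_small (Finset.mem_filter.1 h1).2.1
  rw [cut_symmDiff_large] at h2
  exact_mod_cast h2

theorem SG5_hok_zero (s : ℕ) : HOk s 0 := by simp [HOk]

theorem SG5_nu {β : ℝ} (hβ : 1000 ≤ β) (N : ℕ) {s : ℕ} {t : ℝ} (ht : HOk s t) :
    (0 ≤ nu β N s (-(2 * t)) ∧ nu β N s (-(2 * t)) ≤ ph) ∧
      (0 ≤ nu β N s (2 * t) ∧ nu β N s (2 * t) ≤ ph) := by
  unfold HOk at ht
  refine ⟨nu_bounds hβ N s ?_, nu_bounds hβ N s ?_⟩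
  · rwa [abs_neg, abs_mul, abs_two]
  · rwa [abs_mul, abs_two]

/-- The comparison of the two partition functions at the field `h`. -/
theorem SG5_logZ {β : ℝ} {N s : ℕ} {X X' : Finset Bond} {A B B' : Finset Site} {m h sg c K W x : ℝ}
    (hs : sg = 1 ∨ sg = -1) (hc : 0 < c) (hN : 0 < (N : ℝ)) (hK : 0 ≤ K) (hW : 0 ≤ W)
    (hh : HOk s h)
    (hd : ∀ t, HOk s t → sg * (EA β (cube N) X s A t - EA β (cube N) X' s B t) ≤ 0 ∧
      |EA β (cube N) X s A t - EA β (cube N) X' s B t| ≤ K * (N : ℝ) ^ 2)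
    (h3 : 0 ≤ sg * (m - EA β (cube N) X s A 0)) (h4 : 0 ≤ h * (m - EA β (cube N) X' s B' 0))
    (h5 : |h| * (c * (N : ℝ) ^ 3) ≤ |m - EA β (cube N) X' s B' 0|)
    (h6 : ((B ∆ B').card : ℝ) ≤ (2 * (s : ℝ) + 1) ^ 3 * W)
    (h7 : 2 * K * (2 * (s : ℝ) + 1) ^ 3 ≤ c * N)
    (h8 : Real.log (gZ0 β (cube N) X s) ≤ Real.log (gZ0 β (cube N) X' s) + x) :
    Real.log (ZA β (cube N) X s A h) ≤
      Real.log (ZA β (cube N) X' s B' h) + (x + K ^ 2 / c * N + 2 * W) := by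
  obtain ⟨t, ht, he⟩ := logZ_mvt β (cube N) X X' s A B h
  have ht' : |t| ≤ |h| := by
    have := Set.abs_sub_left_of_mem_uIcc ht
    simpa using this
  obtain ⟨h1, h2⟩ := hd t (hh.mono ht')
  have h9 : |(m - EA β (cube N) X s A 0) - (m - EA β (cube N) X' s B' 0)| ≤
      K * (N : ℝ) ^ 2 + 2 * (B ∆ B').card := by
    have e1 := (hd 0 (SG5_hok_zero s)).2
    have e2 := EA_zero_diff β (cube N) X' s B B'
    rw [abs_le] at e1 e2 ⊢
    constructor <;> linarith only [e1, e2, e1.1, e1.2, e2.1, e2.2]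
  have h10 : 2 * K * (B ∆ B').card ≤ c * N * W := by
    calc 2 * K * (B ∆ B').card ≤ 2 * K * ((2 * (s : ℝ) + 1) ^ 3 * W) :=
          mul_le_mul_of_nonneg_left h6 (by positivity)
      _ = 2 * K * (2 * (s : ℝ) + 1) ^ 3 * W := by ring
      _ ≤ c * N * W := mul_le_mul_of_nonneg_right h7 hW
  have h11 := SG5_real_term hs hc hN hK hW h1 h2 h3 h4 h5 h9 h10
  have h12 := Real.log_le_log (ZA_pos _ _ _ _ _ _) (ZA_field β (cube N) X' s B B' h)
  rw [Real.log_mul (Real.exp_pos _).ne' (ZA_pos _ _ _ _ _ _).ne', Real.log_exp] at h12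
  have h13 : 2 * |h| * (B ∆ B').card ≤ W := by
    calc 2 * |h| * (B ∆ B').card ≤ 2 * |h| * ((2 * (s : ℝ) + 1) ^ 3 * W) :=
          mul_le_mul_of_nonneg_left h6 (by positivity)
      _ = 2 * |h| * (2 * (s : ℝ) + 1) ^ 3 * W := by ring
      _ ≤ 1 * W := mul_le_mul_of_nonneg_right hh hW
      _ = W := one_mul W
  linarith only [h8, he, h11, h12, h13]

theorem SG5_cube (s : ℕ) : (2 * (s : ℝ) + 1) ^ 3 ≤ 8 * ((s : ℝ) + 1) ^ 3 := by
  calc (2 * (s : ℝ) + 1) ^ 3 ≤ (2 * ((s : ℝ) + 1)) ^ 3 :=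
        pow_le_pow_left₀ (by positivity) (by linarith) 3
    _ = _ := by ring

theorem SG5_psi {P C' C5 M K Nr n T i : ℝ} (hC' : 0 < C') (hM : 0 < M) (hK : 0 ≤ K)
    (hN : 0 < Nr) (h1 : P ≤ C' * (Nr + |T| / Nr)) (h2 : |T| ≤ (C5 + 9) * Nr ^ 2 + i)
    (h3 : i ≤ 1 / (2 * M * C') * Nr * n) (h4 : (2 * M * C' * (C5 + 10) + K) * Nr ≤ n) :
    M * P ≤ n := by
  have h5 : |T| / Nr ≤ (C5 + 9) * Nr + 1 / (2 * M * C') * n := by
    rw [div_le_iff₀ hN]
    nlinarith only [h2, h3]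
  have h6 : M * P ≤ M * (C' * (Nr + ((C5 + 9) * Nr + 1 / (2 * M * C') * n))) :=
    mul_le_mul_of_nonneg_left (h1.trans (mul_le_mul_of_nonneg_left (by linarith only [h5]) hC'.le)) hM.le
  have h7 : M * (C' * (Nr + ((C5 + 9) * Nr + 1 / (2 * M * C') * n))) =
      M * C' * (C5 + 10) * Nr + n / 2 := by
    field_simp
    ring
  have h8 : 0 ≤ K * Nr := by positivity
  nlinarith only [h4, h6, h7, h8]

end Pool.Agent.Work.MP_b59478_pr
end
end

-- merged part: Pool.Agent.Work.MP_b59478_pr.SG5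
section
/-! Thick hairs. s = sN N, A1 = A symmdiff I, n = card cut I <= 2 C0 N ^ 2, sg the sign of
DA = m - EA (nbhd cut A) A 0. Let C5 N ^ 2 bound the errors of mean_formula for (nbhd cut A, A) and
(nbhd cut B', B) when the cuts have at most 3 C0 N ^ 2 bonds. exists_slab for A1 (RichPoor with
2 eta0) and T = sg (C5 + 9) N ^ 2 + card A - card A1 gives q, B = pull A1 with
sg (card B - card A) in [C5 N ^ 2, (C5 + 18) N ^ 2] and Psi <= C' ((C5 + 10) N + eps0 n), which is a small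
multiple of n when L0 is large and eps0 small. B' = large s B, U as in encode, X = nbhd cut A,
X' = nbhd cut B'. Energy: w A <= w B' exp (-(3/2) beta n - 2 beta card U + 2 beta Psi).
Let h be given by thermo_lower for (X', B'). By mean_formula, for all admissible t,
sg (EA X A t - EA X' B t) <= 0 and |EA X A t - EA X' B t| <= C6 N ^ 2. In logZ_mvt the last term is
<= 0 if sg h >= 0; otherwise sg D' <= 0 <= sg DA with D' = m - EA X' B' 0, so
|D'| <= C6 N ^ 2 + 2 (2 s + 1) ^ 3 (card U + Psi) (EA_zero_diff) and the term is at most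
C N + card U + Psi. log gZ0 X <= log gZ0 (nbhd Kset) + 81 n / 8 (gZ_le, Kset inside cut A union c2),
then slab_compare; ZA X' B h <= exp (card U + Psi) ZA X' B' h (ZA_field).
-/

set_option autoImplicit false

noncomputable section

namespace Pool.Agent.Work.MP_b59478_pr

open Classical Filter Topology MeasureTheory
open scoped symmDiff Pointwise

theorem thick {β ms v lam : ℝ} {τ : E3 → ℝ} {r0 ω : ℝ} {m : ℕ → ℤ}
    (H : Ctx β ms v lam τ r0 ω m) {C0 c : ℝ} (hC : 0 < C0) (hc : 0 < c) :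
    ∃ ε0 η0 L0 G : ℝ, 0 < ε0 ∧ 0 < η0 ∧ 0 < L0 ∧ 0 < G ∧ ∀ᶠ N : ℕ in atTop,
    ∀ A ∈ BigSets N, ∀ I : Finset Site, ((cut A).card : ℝ) ≤ C0 * (N : ℝ) ^ 2 →
    |(A.card : ℝ) - v * (N : ℝ) ^ 3| ≤ (N : ℝ) ^ 2 * Real.sqrt N / 10 →
    RichPoor N ⌊c * N⌋₊ (η0 * (N : ℝ) ^ 3) A →
    I ⊆ cube N → IsConn (cut I) → 8 * (cut I \ cut A).card ≤ (cut I).card →
    L0 * N ≤ ((cut I).card : ℝ) → (I.card : ℝ) ≤ ε0 * N * (cut I).card →
    (I.card : ℝ) ≤ η0 * (N : ℝ) ^ 3 → Code β N (m N) (G * (N : ℝ) ^ 3) (cut I).card A := by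
  have hβ := H.hβ
  obtain ⟨ηs, C', hηs, hC', ev1⟩ := exists_slab hc hC
  obtain ⟨ct, hct, ev2⟩ := thermo_lower hβ
  obtain ⟨Cd, hCd, ev3⟩ := dev_formula H
  obtain ⟨Cm, hCm, hmean⟩ := mean_formula
  obtain ⟨Cs, hCs, hslab⟩ := slab_compare
  obtain ⟨C5, hC5⟩ : ∃ C5, C5 = 2 * Cm * (164 * C0 + 1) := ⟨_, rfl⟩
  have hC5p : 0 < C5 := by rw [hC5]; positivity
  obtain ⟨C6, hC6⟩ : ∃ C6, C6 = 3 * C5 + 36 := ⟨_, rfl⟩
  have hC6p : 0 < C6 := by rw [hC6]; positivity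
  obtain ⟨M, hM⟩ : ∃ M, M = 81000000 + Cs + 2 := ⟨_, rfl⟩
  have hMp : 0 < M := by rw [hM]; positivity
  refine ⟨1 / (2 * M * C'), ηs / 2, 2 * M * C' * (C5 + 10) + C6 ^ 2 / ct, 1 / ct, by positivity,
    by positivity, by positivity, by positivity, ?_⟩
  filter_upwards [ev1, ev2, ev3, eventually_ge_atTop 1, ev_sqrt (2 * (C5 + 9) / ηs),
    ev_cube_sqrt (160 * C0), ev_sqrt (2 * (2 * (C5 + 18) + Cd * (164 * C0 + 1))),
    ev_sqrt (16200 * C0), ev_sqrt_le (show (0 : ℝ) < 1 / 2 by norm_num),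
    ev_cube_sqrt (16 * C6 / ct)] with N hN1 hN2 hN3 hN4 hN5 hN6 hN7 hN8 hN9 hN10
  intro A hA I hcA hvA hRP hI hconn h8 hL hIε hIη
  obtain ⟨hAV, hbig⟩ := Finset.mem_filter.1 hA
  rw [Finset.mem_powerset] at hAV
  have hNp : (0 : ℝ) < N := by exact_mod_cast hN4
  have hN2p : (0 : ℝ) < (N : ℝ) ^ 2 := by positivity
  obtain ⟨r, hr⟩ : ∃ r, r = Real.sqrt N := ⟨_, rfl⟩
  rw [← hr] at hN2 hN5 hN6 hN7 hN8 hN9 hN10 hvA
  obtain ⟨n, hn⟩ : ∃ n : ℝ, n = (cut I).card := ⟨_, rfl⟩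
  have hn0 : 0 ≤ n := by rw [hn]; (clear * - ; positivity)
  obtain ⟨k1, k2⟩ := SG5_card A I h8
  obtain k1' : 4 * ((cut (A ∆ I)).card : ℝ) + 3 * n ≤ 4 * (cut A).card := by
    rw [hn]; exact_mod_cast k1
  have k2' : 7 * n ≤ 8 * (cut A).card := by rw [hn]; exact_mod_cast k2
  have k3 : 8 * ((cut I \ cut A).card : ℝ) ≤ n := by rw [hn]; exact_mod_cast h8
  rw [← hn] at hL hIε
  have hA1V : A ∆ I ⊆ cube N := SG5_symm_sub hAV hI
  obtain hc1 : ((cut (A ∆ I)).card : ℝ) ≤ C0 * (N : ℝ) ^ 2 := by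
    linarith only [k1', hn0, hcA]
  obtain ⟨sg, hsg, hsgD⟩ : ∃ sg : ℝ, (sg = 1 ∨ sg = -1) ∧
      0 ≤ sg * ((m N : ℝ) - EA β (cube N) (nbhd (cut A)) (sN N) A 0) := by
    rcases le_total 0 ((m N : ℝ) - EA β (cube N) (nbhd (cut A)) (sN N) A 0) with h | h
    · exact ⟨1, Or.inl rfl, by linarith only [h]⟩
    · exact ⟨-1, Or.inr rfl, by linarith only [h]⟩
  obtain hT : |sg * ((C5 + 9) * (N : ℝ) ^ 2) + A.card - (A ∆ I).card| ≤
      (C5 + 9) * (N : ℝ) ^ 2 + I.card := by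
    have e1 := SG5_abs_card A (A ∆ I)
    rw [symmDiff_symmDiff_cancel_left] at e1
    have e2 : 0 ≤ (C5 + 9) * (N : ℝ) ^ 2 := by positivity
    rw [abs_le] at e1 ⊢
    rcases hsg with rfl | rfl <;> constructor <;> linarith only [e1.1, e1.2, e2]
  obtain hT2 : (C5 + 9) * (N : ℝ) ^ 2 ≤ ηs / 2 * (N : ℝ) ^ 3 := by
    rw [div_le_iff₀ hηs] at hN5
    have e1 : r * ηs ≤ N * ηs :=
      mul_le_mul_of_nonneg_right (by linarith only [hN9, hNp]) hηs.le
    calc (C5 + 9) * (N : ℝ) ^ 2 ≤ (N * ηs / 2) * (N : ℝ) ^ 2 :=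
          mul_le_mul_of_nonneg_right (by linarith only [e1, hN5]) hN2p.le
      _ = _ := by ring
  obtain ⟨q, hq, hSl, hne, hvol, hPsi⟩ := hN1 (A ∆ I)
    (sg * ((C5 + 9) * (N : ℝ) ^ 2) + A.card - (A ∆ I).card) hA1V hc1
    (SG5_rich hRP (by linarith only [hIη])) (by linarith only [hT, hT2, hIη])
  obtain ⟨B, hB⟩ : ∃ B, B = pull N q.1 (A ∆ I) := ⟨_, rfl⟩
  obtain ⟨B', hB'⟩ : ∃ B', B' = large (sN N) B := ⟨_, rfl⟩
  obtain ⟨U, hU⟩ : ∃ U, U = cut (A ∆ I) \ Kset q.1 q.2 B' := ⟨_, rfl⟩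
  obtain ⟨e1, e2, e3, e4, e5, e6⟩ := encode hSl hAV hbig hI hB hB' hU
  rw [← hB] at hvol hPsi
  have hBV : B ⊆ cube N := hB ▸ pull_subset _ _ _
  have hB'V : B' ⊆ cube N := hB' ▸ large_subset (isBox_cube N) hBV _
  obtain hcut : cut B' ⊆ cut B := by
    rw [hB', cut_large]
    exact Finset.filter_subset _ _
  have hPm := Psi_mono q.2 hcut
  obtain ⟨P, hP⟩ : ∃ P, P = Psi q.2 B := ⟨_, rfl⟩
  have hP0 : 0 ≤ P := hP ▸ Psi_nonneg _ _
  rw [← hP] at e3 e4 e5 e6 hPsi hPm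
  rw [← hn] at e5
  have hMP : M * P ≤ n := SG5_psi hC' hMp (by positivity) hNp hPsi hT hIε hL
  have hCsP : 0 ≤ Cs * P := by positivity
  obtain hMP' : 81000000 * P + Cs * P + 2 * P ≤ n := by
    rw [hM] at hMP; linarith only [hMP]
  obtain hUc : ((cut (A ∆ I)).card : ℝ) = (Kset q.1 q.2 B').card + U.card := by
    have := Finset.card_sdiff_add_card_eq_card e1
    rw [← hU] at this
    rw [← this]
    push_cast
    ring
  obtain ⟨u, hu⟩ : ∃ u : ℝ, u = U.card := ⟨_, rfl⟩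
  have hu0 : 0 ≤ u := by rw [hu]; (clear * - ; positivity)
  rw [← hu] at hUc e4
  have hK0 : (0 : ℝ) ≤ (Kset q.1 q.2 B').card := Nat.cast_nonneg _
  obtain hcB : ((cut B).card : ℝ) ≤ 2 * C0 * (N : ℝ) ^ 2 := by
    linarith only [e6, hc1, hMP', hCsP, hP0, k2', hcA, hn0]
  have hcB' : ((cut B').card : ℝ) ≤ (cut B).card := by exact_mod_cast Finset.card_le_card hcut
  have hX : ((nbhd (cut A)).card : ℝ) ≤ 81 * (cut A).card := by exact_mod_cast card_nbhd _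
  have hX' : ((nbhd (cut B')).card : ℝ) ≤ 81 * (cut B').card := by exact_mod_cast card_nbhd _
  obtain hBB : ((B ∆ B').card : ℝ) ≤ (2 * (sN N : ℝ) + 1) ^ 3 * (u + P) := by
    have := SG5_large (s := sN N) hBV
    rw [← hB'] at this
    exact this.trans (mul_le_mul_of_nonneg_left e4 (by (clear * - ; positivity)))
  obtain hBB2 : ((B ∆ B').card : ℝ) ≤ (N : ℝ) ^ 2 * r / 10 := by
    clear * - B B' N C0 r u P hBB A I q Cs n hUc hc1 hMP' hCsP k2' hcA hu0 hP0 hN6 hN4 hK0 hn0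
    calc ((B ∆ B').card : ℝ) ≤ (2 * (sN N : ℝ) + 1) ^ 3 * (u + P) := hBB
      _ ≤ 8 * ((sN N : ℝ) + 1) ^ 3 * (2 * C0 * (N : ℝ) ^ 2) :=
          mul_le_mul (SG5_cube _)
            (by linarith only [hUc, hK0, hc1, hMP', hCsP, hP0, k2', hcA, hn0])
            (by positivity) (by positivity)
      _ = (N : ℝ) ^ 2 * (160 * C0 * ((sN N : ℝ) + 1) ^ 3) / 10 := by ring
      _ ≤ (N : ℝ) ^ 2 * r / 10 := by clear * - N C0 r hN6 hN4; gcongr
  obtain hv1 : C5 * (N : ℝ) ^ 2 ≤ sg * ((B.card : ℝ) - A.card) ∧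
      sg * ((B.card : ℝ) - A.card) ≤ (C5 + 18) * (N : ℝ) ^ 2 := by
    rw [abs_le] at hvol
    rcases hsg with rfl | rfl <;> constructor <;> linarith only [hvol.1, hvol.2]
  obtain hv2 : |(B.card : ℝ) - A.card| ≤ (C5 + 18) * (N : ℝ) ^ 2 := by
    have : 0 ≤ C5 * (N : ℝ) ^ 2 := by positivity
    rw [abs_le]
    rcases hsg with rfl | rfl <;> constructor <;> linarith only [hv1.1, hv1.2, this]
  obtain hsm : (2 * (C5 + 18) + Cd * (164 * C0 + 1)) * (N : ℝ) ^ 2 ≤ (N : ℝ) ^ 2 * r / 2 := by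
    calc _ ≤ (r / 2) * (N : ℝ) ^ 2 := mul_le_mul_of_nonneg_right (by linarith only [hN7]) hN2p.le
      _ = _ := by ring
  have hCdp : 0 ≤ Cd * (164 * C0 + 1) * (N : ℝ) ^ 2 := by positivity
  obtain hrN : (N : ℝ) ^ 2 * r ≤ (N : ℝ) ^ 3 / 2 := by
    calc (N : ℝ) ^ 2 * r ≤ (N : ℝ) ^ 2 * (1 / 2 * N) := mul_le_mul_of_nonneg_left hN9 hN2p.le
      _ = _ := by ring
  obtain hv3 : |v * (N : ℝ) ^ 3 - B'.card| ≤ (N : ℝ) ^ 2 * r / 5 + (C5 + 18) * (N : ℝ) ^ 2 := by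
    clear * - B B' N r hBB2 v C5 A hv2 hvA
    have := (SG5_abs_card B B').trans hBB2
    rw [abs_le] at this hv2 hvA ⊢
    constructor <;> linarith only [this.1, this.2, hv2.1, hv2.2, hvA.1, hvA.2]
  obtain t1 : (B'.card : ℝ) ≤ (N : ℝ) ^ 3 / 2 := by
    clear * - v N β ms lam τ r0 ω m H hN4 r hr B' C5 Cd C0 hv3 hsm hCdp hrN
    have e : v * (N : ℝ) ^ 3 ≤ 0.26 * (N : ℝ) ^ 3 :=
      mul_le_mul_of_nonneg_right H.v_le (by positivity)
    have d6 : 0 ≤ (N : ℝ) ^ 2 * r := by rw [hr]; positivity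
    linarith only [(abs_le.1 hv3).1, e, hsm, hCdp, hrN, d6]
  obtain t2 : ((nbhd (cut B')).card : ℝ) ≤ (N : ℝ) ^ 3 / 100 := by
    obtain e : 16200 * C0 * (N : ℝ) ^ 2 ≤ (N : ℝ) ^ 2 * r := by
      rw [mul_comm ((N : ℝ) ^ 2)]
      exact mul_le_mul_of_nonneg_right hN8 hN2p.le
    have : (0 : ℝ) ≤ (N : ℝ) ^ 3 := by positivity
    linarith only [this, e, hX', hcB', hcB, hrN]
  obtain t3 : |(m N : ℝ) - EA β (cube N) (nbhd (cut B')) (sN N) B' 0| ≤ (N : ℝ) ^ 2 * r := by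
    clear * - m N β B' ms v Cd hN3 hB'V C0 B hX' hcB' hcB hCd lam τ r0 ω H r C5 hv3 hr hN4 hsm
    have d1 := hN3 (nbhd (cut B')) B' hB'V
    have d2 : Cd * (((nbhd (cut B')).card : ℝ) + (cut B').card + (N : ℝ) ^ 2) ≤
        Cd * ((164 * C0 + 1) * (N : ℝ) ^ 2) :=
      mul_le_mul_of_nonneg_left (by linarith only [hX', hcB', hcB]) hCd.le
    obtain d3 : |2 * ms * (v * (N : ℝ) ^ 3 - B'.card)| ≤ 2 * |v * (N : ℝ) ^ 3 - B'.card| := by
      rw [abs_mul]
      refine mul_le_mul_of_nonneg_right ?_ (abs_nonneg _)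
      rw [abs_le]
      constructor <;> linarith only [H.mag.lo, H.mag.hi]
    have d4 := abs_le.1 (d1.trans d2)
    have d5 := abs_le.1 (d3.trans (mul_le_mul_of_nonneg_left hv3 zero_le_two))
    have d6 : 0 ≤ (N : ℝ) ^ 2 * r := by rw [hr]; positivity
    rw [abs_le]
    constructor <;> linarith only [d4.1, d4.2, d5.1, d5.2, d6, hsm]
  obtain ⟨h, hh1, hh2, hh3, hh4⟩ := hN2 (nbhd (cut B')) B' (m N) hB'V t1 t2 (H.par N) t3
  obtain hd : ∀ t, HOk (sN N) t → sg * (EA β (cube N) (nbhd (cut A)) (sN N) A t -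
      EA β (cube N) (nbhd (cut B')) (sN N) B t) ≤ 0 ∧ |EA β (cube N) (nbhd (cut A)) (sN N) A t -
      EA β (cube N) (nbhd (cut B')) (sN N) B t| ≤ C6 * (N : ℝ) ^ 2 := by
    clear * - N β sg A B' B C6 hβ Cm hmean hN4 hAV hBV C0 hC hX hcA hCm hX' hcB' hcB C5 hsg hC5 hv1
      hC6
    intro t ht
    obtain ⟨n1, n2⟩ := SG5_nu hβ N ht
    have m1 := hmean β N (sN N) t (nbhd (cut A)) A hβ hN4 ht hAV
    have m2 := hmean β N (sN N) t (nbhd (cut B')) B hβ hN4 ht hBV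
    have hC0 : 0 ≤ C0 * (N : ℝ) ^ 2 := by positivity
    have m3 : Cm * (((nbhd (cut A)).card : ℝ) + (cut A).card + (N : ℝ) ^ 2) ≤
        Cm * ((164 * C0 + 1) * (N : ℝ) ^ 2) :=
      mul_le_mul_of_nonneg_left (by linarith only [hX, hcA, hC0]) hCm.le
    have m4 : Cm * (((nbhd (cut B')).card : ℝ) + (cut B).card + (N : ℝ) ^ 2) ≤
        Cm * ((164 * C0 + 1) * (N : ℝ) ^ 2) :=
      mul_le_mul_of_nonneg_left (by linarith only [hX', hcB', hcB]) hCm.le
    have m5 := SG5_real_diff hsg n1 n2 (m1.trans m3) (m2.trans m4)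
      (K := C5 * (N : ℝ) ^ 2) (le_of_eq (by rw [hC5]; ring)) hv1.1 hv1.2
    refine ⟨m5.1, m5.2.trans (le_of_eq ?_)⟩
    rw [hC6]
    ring
  obtain h7 : 2 * C6 * (2 * (sN N : ℝ) + 1) ^ 3 ≤ ct * N := by
    clear * - ct C6 N hct hC6p r hN10 hN9 hNp
    obtain e : ct * (16 * C6 / ct * ((sN N : ℝ) + 1) ^ 3) = 16 * C6 * ((sN N : ℝ) + 1) ^ 3 := by
      field_simp
    have e' : ct * (16 * C6 / ct * ((sN N : ℝ) + 1) ^ 3) ≤ ct * N :=
      mul_le_mul_of_nonneg_left (by linarith only [hN10, hN9, hNp]) hct.le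
    have e'' : 2 * C6 * (2 * (sN N : ℝ) + 1) ^ 3 ≤ 2 * C6 * (8 * ((sN N : ℝ) + 1) ^ 3) :=
      mul_le_mul_of_nonneg_left (SG5_cube _) (by positivity)
    linarith only [e, e', e'']
  obtain hg : Real.log (gZ0 β (cube N) (nbhd (cut A)) (sN N)) ≤
      Real.log (gZ0 β (cube N) (nbhd (cut B')) (sN N)) + (81 / 8 * n + Cs * P) := by
    have g1 := SG5_gas hβ N (sN N) e1
    have g2 := hslab β N (sN N) q.1 q.2 B' hβ hSl hne
    have g3 : Cs * Psi q.2 B' ≤ Cs * P := mul_le_mul_of_nonneg_left hPm hCs.le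
    linarith only [g1, g2, g3, k3]
  have hZ := SG5_logZ hsg hct hNp hC6p.le (add_nonneg hu0 hP0) hh3 hd hsgD hh2 hh1 hBB h7 hg
  refine ⟨q, hq, I, B', U, hconn, cut_subset_bonds hI, le_rfl, ?_, ?_, ?_, e2, ?_, ?_⟩
  · exact Finset.mem_filter.2 ⟨Finset.mem_powerset.2 hB'V, hB' ▸ allBig_large _ _⟩
  · rw [hU, Finset.union_sdiff_of_subset e1]
  · rw [hU]
    exact Finset.sdiff_subset.trans (cut_subset_bonds hA1V)
  · have : ((Pset q.1 q.2 B' (cut I)).card : ℝ) ≤ 82 * (cut I).card := by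
      rw [← hn]; linarith only [e5, hMP', hCsP, hP0]
    exact_mod_cast this
  · rw [← hn, ← hu]
    refine SG5_real_final hct hNp (ZA_pos _ _ _ _ _ _) (ZA_pos _ _ _ _ _ _)
      (chernoff β (cube N) (nbhd (cut A)) (sN N) A (m N) h) hZ hh4 ?_
    obtain f1 : C6 ^ 2 / ct * N ≤ n := by
      have : 0 ≤ 2 * M * C' * (C5 + 10) * N := by positivity
      linarith only [this, hL]
    have f2 : 2 * β * (((cut B').card : ℝ) - P + u + 3 / 4 * n) ≤ 2 * β * (cut A).card :=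
      mul_le_mul_of_nonneg_left (by linarith only [e3, hUc, k1']) (by linarith only [hβ])
    have f3 : β * (10 * P) ≤ β * n :=
      mul_le_mul_of_nonneg_left (by linarith only [hMP', hCsP, hP0]) (by linarith only [hβ])
    have f4 : 1000 * n ≤ β * n := mul_le_mul_of_nonneg_right hβ hn0
    have f5 : 1000 * u ≤ β * u := mul_le_mul_of_nonneg_right hβ hu0
    linarith only [f1, f2, f3, f4, f5, hMP', hP0, hu0, hn0]

end Pool.Agent.Work.MP_b59478_pr
end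
end

-- merged part: Pool.Agent.Work.MP_b59478_pr.SG6
section
/-! No hairs: hair with R = floor (eps N), then thin or thick, then count with n0 = sN N / 2 and
ev_poly_exp.
-/

set_option autoImplicit false

noncomputable section

namespace Pool.Agent.Work.MP_b59478_pr

open Classical Filter Topology MeasureTheory
open scoped symmDiff Pointwise

theorem SG6_FM (β : ℝ) (N : ℕ) (m : ℤ) (A : Finset Site) : 0 ≤ FM β N m A :=
  mul_nonneg (w_pos β A).le (ZM_nonneg β _ _ _ A m)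

theorem SG6_code {β : ℝ} {N : ℕ} {m : ℤ} {G G' : ℝ} {n n' : ℕ} {A : Finset Site}
    (h : Code β N m G n A) (hG : G ≤ G') (hn : n' ≤ n) : Code β N m G' n' A := by
  obtain ⟨q, hq, I, B, U, h1, h2, h3, h4, h5, h6, h7, h8, h9⟩ := h
  refine ⟨q, hq, I, B, U, h1, h2, hn.trans h3, h4, h5, h6, h7, h8, h9.trans ?_⟩
  exact mul_le_mul_of_nonneg_right (mul_le_mul_of_nonneg_right hG (Real.exp_pos _).le)
    (SG6_FM β N m B)

theorem SG6_hair {N R : ℕ} {η η' : ℝ} {A : Finset Site} (h : Hair N R η A) (hη : η ≤ η') :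
    Hair N R η' A := by
  obtain ⟨b, hb, h | ⟨h1, h2⟩⟩ := h
  · exact ⟨b, hb, Or.inl (h.trans hη)⟩
  · exact ⟨b, hb, Or.inr ⟨h1, h2.trans hη⟩⟩

theorem SG6_rich {N l : ℕ} {η η' : ℝ} {A : Finset Site} (h : RichPoor N l η A) (hη : η ≤ η') :
    RichPoor N l η' A := by
  obtain ⟨z, j, h1, h2, h3, h4, h5, h6⟩ := h
  exact ⟨z, j, h1, h2.trans hη, h3, h4, h5.trans hη, h6⟩

theorem SG6_small {β G θ : ℝ} (hβ : 1000 ≤ β) (hG : 0 < G) (hθ : 0 < θ) :
    ∀ᶠ N : ℕ in atTop, G * (N : ℝ) ^ 3 * (Params N).card * (bonds (cube N)).card * 4 *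
      Real.exp (-(β / 2 * (sN N / 2 : ℕ))) ≤ θ := by
  filter_upwards [ev_poly_exp (G * 64 * 162 * 4 / θ) 9 one_pos, eventually_ge_atTop 1,
    tendsto_sN.eventually_ge_atTop 2] with N h1 hN hs
  have hN' : (1 : ℝ) ≤ N := by exact_mod_cast hN
  have h2 : ((Params N).card : ℝ) ≤ 64 * (N : ℝ) ^ 3 := by
    have : ((Params N).card : ℝ) ≤ (2 * (N : ℝ) + 2) ^ 3 := by exact_mod_cast card_Params N
    refine this.trans ?_
    calc (2 * (N : ℝ) + 2) ^ 3 ≤ (4 * N) ^ 3 := by gcongr; linarith only [hN']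
      _ = _ := by ring
  have h3 : ((bonds (cube N)).card : ℝ) ≤ 162 * (N : ℝ) ^ 3 := by
    have := card_bonds_le (cube N)
    rw [card_cube] at this
    have h4 : ((bonds (cube N)).card : ℝ) ≤ 6 * (2 * (N : ℝ) + 1) ^ 3 := by exact_mod_cast this
    refine h4.trans ?_
    calc 6 * (2 * (N : ℝ) + 1) ^ 3 ≤ 6 * (3 * N) ^ 3 := by gcongr; linarith only [hN']
      _ = _ := by ring
  have h4 : (sN N : ℝ) ≤ β / 2 * (sN N / 2 : ℕ) := by
    have : sN N ≤ 3 * (sN N / 2) := by omega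
    have h5 : (sN N : ℝ) ≤ 3 * ((sN N / 2 : ℕ) : ℝ) := by exact_mod_cast this
    have h6 : (0 : ℝ) ≤ ((sN N / 2 : ℕ) : ℝ) := Nat.cast_nonneg _
    nlinarith only [h5, hβ]
  rw [one_mul, div_mul_eq_mul_div, div_le_iff₀ hθ] at h1
  calc _ ≤ G * (N : ℝ) ^ 3 * (64 * (N : ℝ) ^ 3) * (162 * (N : ℝ) ^ 3) * 4 *
        Real.exp (-(sN N : ℝ)) := by gcongr
    _ = G * 64 * 162 * 4 * (N : ℝ) ^ 9 * Real.exp (-(sN N : ℝ)) := by ring
    _ ≤ Real.exp (sN N) * θ * Real.exp (-(sN N : ℝ)) := by gcongr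
    _ = θ := by rw [mul_right_comm, ← Real.exp_add, add_neg_cancel, Real.exp_zero, one_mul]

theorem b5 {β ms v lam : ℝ} {τ : E3 → ℝ} {r0 ω : ℝ} {m : ℕ → ℤ}
    (H : Ctx β ms v lam τ r0 ω m) {C0 c : ℝ} (hC : 0 < C0) (hc : 0 < c) :
    ∃ ε0 : ℝ, 0 < ε0 ∧ ∀ ε : ℝ, 0 < ε → ε ≤ ε0 → ∃ η η1 : ℝ, 0 < η ∧ 0 < η1 ∧
    ∀ θ : ℝ, 0 < θ → ∀ᶠ N : ℕ in atTop, ∑ A ∈ (BigSets N).filter fun A =>
        ((cut A).card : ℝ) ≤ C0 * (N : ℝ) ^ 2 ∧
        |(A.card : ℝ) - v * (N : ℝ) ^ 3| ≤ η1 * ((N : ℝ) ^ 2 * Real.sqrt N) ∧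
        RichPoor N ⌊c * N⌋₊ (η * (N : ℝ) ^ 3) A ∧ Hair N ⌊ε * N⌋₊ (η * (N : ℝ) ^ 3) A,
        FM β N (m N) A ≤ θ * ∑ B ∈ BigSets N, FM β N (m N) B := by
  obtain ⟨κ, hκ, hhair⟩ := hair
  obtain ⟨e0, η0, L0, G1, he0, hη0, hL0, hG1, hthick⟩ := thick H hC hc
  obtain ⟨η2, G2, hη2, hG2, hthin⟩ := thin H hC hL0
  refine ⟨min (e0 / 3) (min 1 (η0 / 27)), by positivity, fun ε hε hε0 => ?_⟩
  have hε1 : ε ≤ e0 / 3 := hε0.trans (min_le_left _ _)
  have hε2 : ε ≤ 1 := hε0.trans ((min_le_right _ _).trans (min_le_left _ _))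
  have hε3 : ε ≤ η0 / 27 := hε0.trans ((min_le_right _ _).trans (min_le_right _ _))
  refine ⟨min η0 (κ * ε ^ 3 / 8), min η2 (1 / 10), by positivity, by positivity, fun θ hθ => ?_⟩
  have hbig : ∀ᶠ N : ℕ in atTop, 2 ≤ ε * N :=
    (tendsto_natCast_atTop_atTop.const_mul_atTop hε).eventually_ge_atTop 2
  filter_upwards [hthick, hthin, hbig, ev_bonds, ev_cube_sqrt 4, ev_sqrt_le (half_pos hε),
    SG6_small H.hβ (add_pos hG1 hG2) hθ, tendsto_sN.eventually_ge_atTop 2]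
    with N h1 h2 h3 h4 h5 h6 h7 h8
  have hN0 : (0 : ℝ) ≤ N := Nat.cast_nonneg N
  set R := ⌊ε * N⌋₊ with hR
  have hR1 : (R : ℝ) ≤ ε * N := Nat.floor_le (by linarith only [h3])
  have hR2 : ε * N / 2 ≤ R := by
    have := Nat.lt_floor_add_one (ε * N)
    linarith only [h3, this]
  have hR3 : 2 * sN N + 4 ≤ R := by
    have h9 : (1 : ℝ) ≤ (sN N : ℝ) + 1 := by linarith only [Nat.cast_nonneg (α := ℝ) (sN N)]
    have h10 : (sN N : ℝ) + 1 ≤ ((sN N : ℝ) + 1) ^ 3 := le_self_pow₀ h9 (by norm_num)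
    have : 2 * (sN N : ℝ) + 4 ≤ R := by linarith only [h5, h6, hR2, h10]
    exact_mod_cast this
  have hR4 : 2 * (R : ℝ) + 1 ≤ 3 * ε * N := by linarith only [h3, hR1]
  refine (count H.hβ (G := (G1 + G2) * (N : ℝ) ^ 3) (by positivity) (m N) (n0 := sN N / 2)
    (by omega) h4 _ fun A hA => ?_).trans (mul_le_mul_of_nonneg_right h7
      (Finset.sum_nonneg fun B _ => SG6_FM β N (m N) B))
  obtain ⟨hA, a1, a2, a3, a4⟩ := Finset.mem_filter.1 hA
  obtain ⟨hA1, hA2⟩ := Finset.mem_filter.1 hA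
  obtain ⟨I, i1, i2, i3, i4, i5, i6⟩ := hhair N (sN N) R A (Finset.mem_powerset.1 hA1) hA2 hR3
    (SG6_hair a4 (by
      clear * - η0 κ ε N R h3 hR2 hκ
      calc _ ≤ κ * ε ^ 3 / 8 * (N : ℝ) ^ 3 := by gcongr; exact min_le_right _ _
        _ = κ * (ε * N / 2) ^ 3 := by ring
        _ ≤ _ := by gcongr))
  have hq : 0 ≤ (N : ℝ) ^ 2 * Real.sqrt N := by (clear * - ; positivity)
  rcases le_total ((cut I).card : ℝ) (L0 * N) with hl | hl
  · refine SG6_code (h2 A hA I a1 (a2.trans ?_) i1 i2 i3 hl) ?_ i4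
    · clear * - N η2; gcongr; exact min_le_left _ _
    · clear * - N G2 G1 hG1; gcongr; linarith only [hG1]
  · refine SG6_code (h1 A hA I a1 (a2.trans ?_) (SG6_rich a3 ?_) i1 i2 i3 hl ?_ ?_) ?_ i4
    · have := mul_le_mul_of_nonneg_right (min_le_right η2 (1 / 10)) hq
      linarith only [this]
    · clear * - N η0 κ ε; gcongr; exact min_le_left _ _
    · have : (I.card : ℝ) ≤ (2 * (R : ℝ) + 1) * (cut I).card := by exact_mod_cast i5
      refine this.trans (mul_le_mul_of_nonneg_right (hR4.trans ?_) (Nat.cast_nonneg _))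
      exact mul_le_mul_of_nonneg_right (by linarith only [hε1]) hN0
    · have : (I.card : ℝ) ≤ (2 * (R : ℝ) + 1) ^ 3 := by exact_mod_cast i6
      have h11 : ε ^ 3 ≤ ε := pow_le_of_le_one hε.le hε2 (by norm_num)
      calc _ ≤ (2 * (R : ℝ) + 1) ^ 3 := this
        _ ≤ (3 * ε * N) ^ 3 := pow_le_pow_left₀ (by positivity) hR4 3
        _ = 27 * ε ^ 3 * (N : ℝ) ^ 3 := by ring
        _ ≤ _ := mul_le_mul_of_nonneg_right (by linarith only [hε3, h11]) (by positivity)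
    · clear * - N G1 G2 hG2; gcongr; linarith only [hG2]

end Pool.Agent.Work.MP_b59478_pr
end
end
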