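import Pool.Agent.Work.MP_b59478_pr.DG2
import Pool.Agent.Work.MP_b59478_pr.Gas4
import Pool.Agent.Work.MP_b59478_pr.LL6
import Pool.Agent.Work.MP_b59478_pr.LU
import Pool.Agent.Work.MP_b59478_pr.SG6
import Pool.Agent.Work.MP_b59478_pr.Tau3

-- merged part: Pool.Agent.Work.MP_b59478_pr.FT3
section
-- merged part: Pool.Agent.Work.MP_b59478_pr.FT1
section
/-! The filled body of a lattice set. Let V be a cube containing C and F the sites of V not joined to a
site outside V by a nearest-neighbour path avoiding C. A point z outside cubes C is joined inside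
the complement of cubes C to the centre of any closed cube containing it (segment), centres of
neighbouring sites outside C are joined by a segment, and from outside V there is an unbounded ray.
Conversely the lattice points whose closed cube contains z are all outside C and form a
nearest-neighbour connected box, so they are all in F or all outside F; the two sets of such z are
open (only finitely many cubes come near z), so the component of a point of cubes F stays in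
cubes F. IsConn: for T = comp (cut F) b, I = intr T is inside V, empty outside F and constant on F
(every site of F is joined to C inside F along a ray), so I = F.
-/

set_option autoImplicit false

noncomputable section

namespace Pool.Agent.Work.MP_b59478_pr

open Classical Filter Topology MeasureTheory
open scoped symmDiff Pointwise

/-- `x` is outside `C` and joined to the outside of the cube by a path avoiding `C`. -/
def FT1_Esc (C : Finset Site) (R : ℕ) (x : Site) : Prop :=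
  x ∉ C ∧ ∃ y, y ∉ cube R ∧ Relation.ReflTransGen (fun a b => a ∉ C ∧ b ∉ C ∧ NN a b) x y

def FT1_F (C : Finset Site) (R : ℕ) : Finset Site := (cube R).filter fun x => ¬ FT1_Esc C R x

theorem FT1_nn_tip (b : Bond) : NN b.1 (tip b) := NN_iff.mpr ⟨b.2, Or.inl rfl⟩

theorem FT1_exists_R (C : Finset Site) : ∃ R : ℕ, C ⊆ cube R := by
  refine ⟨C.sup fun x => Finset.univ.sup fun i => (x i).natAbs, fun x hx => mem_cube.mpr fun i => ?_⟩
  rw [← Int.natCast_natAbs]
  exact_mod_cast (Finset.le_sup (f := fun i => (x i).natAbs) (Finset.mem_univ i)).trans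
    (Finset.le_sup (f := fun x : Site => Finset.univ.sup fun i => (x i).natAbs) hx)

theorem FT1_mem {C : Finset Site} {R : ℕ} (h : C ⊆ cube R) {x : Site} :
    x ∈ FT1_F C R ↔ ¬ FT1_Esc C R x := by
  rw [FT1_F, Finset.mem_filter]
  refine ⟨fun k => k.2, fun k => ⟨?_, k⟩⟩
  by_contra hx
  exact k ⟨fun m => hx (h m), x, hx, .refl⟩

theorem FT1_sub {C : Finset Site} {R : ℕ} (h : C ⊆ cube R) : C ⊆ FT1_F C R := fun _ hx =>
  (FT1_mem h).mpr fun k => k.1 hx

theorem FT1_esc_step {C : Finset Site} {R : ℕ} {x y : Site} (hx : x ∉ C) (hn : NN x y)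
    (hy : FT1_Esc C R y) : FT1_Esc C R x := by
  obtain ⟨h1, u, h2, h3⟩ := hy
  exact ⟨hx, u, h2, Relation.ReflTransGen.head ⟨hx, h1, hn⟩ h3⟩

theorem FT1_step {C : Finset Site} {R : ℕ} (h : C ⊆ cube R) {x y : Site} (hx : x ∉ C)
    (hy : y ∉ C) (hn : NN x y) : x ∈ FT1_F C R ↔ y ∈ FT1_F C R := by
  rw [FT1_mem h, FT1_mem h]
  exact not_congr ⟨FT1_esc_step hy hn.symm, FT1_esc_step hx hn⟩

theorem FT1_cut {C : Finset Site} {R : ℕ} (h : C ⊆ cube R) : cut (FT1_F C R) ⊆ cut C := by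
  intro b hb
  rw [mem_cut] at hb ⊢
  intro k
  by_cases h1 : b.1 ∈ C
  · exact hb (iff_of_true (FT1_sub h h1) (FT1_sub h (k.mp h1)))
  · exact hb (FT1_step h h1 (fun m => h1 (k.mpr m)) (FT1_nn_tip b))

/-- Neighbours on the same side of `F` are on the same side of `I`. -/
theorem FT1_same {F I : Finset Site} (h : cut I ⊆ cut F) {x y : Site} (hn : NN x y)
    (k : x ∈ F ↔ y ∈ F) : x ∈ I ↔ y ∈ I := by
  by_contra hc
  obtain ⟨i, rfl | rfl⟩ := NN_iff.mp hn
  · exact mem_cut.mp (h ((mem_cut (b := (x, i))).mpr hc)) k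
  · exact mem_cut.mp (h ((mem_cut (b := (y, i))).mpr fun m => hc (Iff.symm m))) k.symm

theorem FT1_isConn {C : Finset Site} {R : ℕ} (h : C ⊆ cube R)
    (hC : ∀ x ∈ C, ∀ y ∈ C, Relation.ReflTransGen (fun a b => a ∈ C ∧ b ∈ C ∧ NN a b) x y) :
    IsConn (cut (FT1_F C R)) := by
  intro b hb
  suffices e : comp (cut (FT1_F C R)) b = cut (FT1_F C R) by
    have := comp_isConn hb
    rw [e] at this
    exact this b hb
  have hcl := comp_clopen (cut (FT1_F C R)) b
  have hI := cut_intr hcl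
  have hbT : b ∈ comp (cut (FT1_F C R)) b := mem_comp.mpr ⟨hb, Relation.ReflTransGen.refl⟩
  generalize comp (cut (FT1_F C R)) b = T at hcl hI hbT
  generalize intr T = I at hI
  have hsub : cut I ⊆ cut (FT1_F C R) := hI ▸ hcl.1
  have hbox : I ⊆ cube R :=
    sub_box (isBox_cube R) (hsub.trans (cut_subset_bonds (Finset.filter_subset _ _)))
  have hIF : I ⊆ FT1_F C R := by
    intro x hx
    rw [FT1_mem h]
    rintro ⟨h1, u, h2, h3⟩
    induction h3 using Relation.ReflTransGen.head_induction_on with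
    | refl => exact h2 (hbox hx)
    | head k _ ih => exact ih ((FT1_same hsub k.2.2 (FT1_step h k.1 k.2.1 k.2.2)).mp hx) k.2.1
  have hCI : ∀ x ∈ C, ∀ y ∈ C, x ∈ I → y ∈ I := by
    intro x hx y hy hxI
    have := hC x hx y hy
    clear hy
    induction this with
    | refl => exact hxI
    | tail _ k ih =>
      exact (FT1_same hsub k.2.2 (iff_of_true (FT1_sub h k.1) (FT1_sub h k.2.1))).mp ih
  set J := (FT1_F C R).filter fun y => ¬ (y ∈ I ↔ ∃ c ∈ C, c ∈ I) with hJ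
  have hJC : ∀ y ∈ J, y ∉ C := by
    intro y hy m
    refine (Finset.mem_filter.mp hy).2 ⟨fun k => ⟨y, m, k⟩, ?_⟩
    rintro ⟨c, h1, h2⟩
    exact hCI c h1 y m h2
  have hJs : ∀ x y, NN x y → x ∈ J → y ∈ J := by
    intro x y hn hx
    have h1 := Finset.mem_filter.mp hx
    have h2 : y ∈ FT1_F C R := by
      by_cases m : y ∈ C
      · exact FT1_sub h m
      · exact (FT1_step h (hJC x hx) m hn).mp h1.1
    refine Finset.mem_filter.mpr ⟨h2, ?_⟩
    rw [← FT1_same hsub hn (iff_of_true h1.1 h2)]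
    exact h1.2
  have hJ0 : J = ∅ := by
    refine cut_inj ?_
    rw [cut_empty]
    refine Finset.eq_empty_of_forall_notMem fun c hc => mem_cut.mp hc ?_
    exact ⟨hJs _ _ (FT1_nn_tip c), hJs _ _ (FT1_nn_tip c).symm⟩
  have key : ∀ y ∈ FT1_F C R, (y ∈ I ↔ ∃ c ∈ C, c ∈ I) := by
    intro y hy
    by_contra m
    have : y ∈ J := Finset.mem_filter.mpr ⟨hy, m⟩
    rw [hJ0] at this
    simp at this
  by_cases hP : ∃ c ∈ C, c ∈ I
  · rw [← hI]
    congr 1
    exact Finset.Subset.antisymm hIF fun y hy => (key y hy).mpr hP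
  · have : I = ∅ := Finset.eq_empty_of_forall_notMem fun y hy => hP ((key y (hIF hy)).mp hy)
    rw [this, cut_empty] at hI
    rw [← hI] at hbT
    simp at hbT

theorem FT1_cubes_mono {C F : Finset Site} (h : C ⊆ F) : cubes C ⊆ cubes F := by
  rintro z ⟨x, hx, k⟩
  exact ⟨x, h hx, k⟩

theorem FT1_round (z : E3) (i : Fin 3) : |z i - ((round (z i) : ℤ) : ℝ)| ≤ 1 / 2 :=
  abs_sub_round (z i)

/-- Two lattice points whose closed cubes share a point outside `cubes C`. -/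
theorem FT1_share {C F : Finset Site} (h : cut F ⊆ cut C) {z : E3} (hz : z ∉ cubes C)
    {x y : Site} (hx : ∀ i, |z i - (x i : ℝ)| ≤ 1 / 2) (hy : ∀ i, |z i - (y i : ℝ)| ≤ 1 / 2)
    (hF : x ∈ F) : y ∈ F := by
  by_contra hc
  obtain ⟨b, hb, kb⟩ := hullPath (H := (F : Set Site)) (x := x) (y := y) hF hc
  have hb' := mem_cut.mp (h (mem_cut.mpr hb))
  have mid : ∀ u : Site, (∀ i, min (x i) (y i) ≤ u i ∧ u i ≤ max (x i) (y i)) → u ∉ C := by
    intro u hu m
    refine hz ⟨u, m, fun i => ?_⟩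
    have a := abs_le.mp (hx i)
    have c := abs_le.mp (hy i)
    have d : ((min (x i) (y i) : ℤ) : ℝ) ≤ u i := by exact_mod_cast (hu i).1
    have e : (u i : ℝ) ≤ ((max (x i) (y i) : ℤ) : ℝ) := by exact_mod_cast (hu i).2
    push_cast at d e
    rw [min_le_iff] at d
    rw [le_max_iff] at e
    rw [abs_le]
    constructor
    · rcases e with e | e <;> linarith only [a, e, c, a.1, c.1]
    · rcases d with d | d <;> linarith only [a, d, c, a.2, c.2]
  have t : ∀ i, b.1 i ≤ tip b i := fun i => by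
    rw [tip_apply]
    split_ifs <;> omega
  refine hb' (iff_of_false (mid _ fun i => ?_) (mid _ fun i => ?_))
  · exact ⟨(kb i).1, (t i).trans (kb i).2⟩
  · exact ⟨(kb i).1.trans (t i), (kb i).2⟩

theorem FT1_bounded {C F : Finset Site} {R : ℕ} (hR : F ⊆ cube R)
    (h : cut F ⊆ cut C) {z : E3} (hz : z ∉ cubes C) (hF : z ∈ cubes F) :
    Bornology.IsBounded (connectedComponentIn (cubes C)ᶜ z) := by
  set G := cube (R + 1) \ F with hG
  set W : Set E3 := (cubes G)ᶜ ∩ cubeO 0 ((R : ℝ) + 1) with hW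
  have hWo : IsOpen W := (isCompact_cubes G).isClosed.isOpen_compl.inter (isOpen_cubeO _ _)
  have hWF : W ⊆ cubes F := by
    rintro p ⟨h1, h2⟩
    refine ⟨fun i => round (p i), ?_, FT1_round p⟩
    by_contra m
    refine h1 ⟨fun i => round (p i), Finset.mem_sdiff.mpr ⟨mem_cube.mpr fun i => ?_, m⟩,
      FT1_round p⟩
    have a := abs_lt.mp (h2 i)
    have c := abs_le.mp (FT1_round p i)
    simp only [PiLp.zero_apply, sub_zero] at a
    have d : ((round (p i) : ℤ) : ℝ) < (((R + 2 : ℕ) : ℤ) : ℝ) := by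
      push_cast
      linarith only [c, a, a.2, c.1]
    have e : ((-((R + 2 : ℕ) : ℤ) : ℤ) : ℝ) < ((round (p i) : ℤ) : ℝ) := by
      push_cast
      linarith only [c, a, a.1, c.2]
    have d' := Int.cast_lt.mp d
    have e' := Int.cast_lt.mp e
    rw [abs_le]
    push_cast at d' e' ⊢
    omega
  have hFW : ∀ p, p ∉ cubes C → p ∈ cubes F → p ∈ W := by
    rintro p hp ⟨x, hx, k⟩
    refine ⟨?_, fun i => ?_⟩
    · rintro ⟨y, hy, k'⟩
      exact (Finset.mem_sdiff.mp hy).2 (FT1_share h hp k k' hx)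
    · have a := abs_le.mp (k i)
      have c : |(x i : ℝ)| ≤ R := by exact_mod_cast mem_cube.mp (hR hx) i
      have c' := abs_le.mp c
      simp only [PiLp.zero_apply, sub_zero]
      rw [abs_lt]
      constructor <;> linarith only [a, c', a.1, a.2, c'.1, c'.2]
  refine (isCompact_cubes F).isBounded.subset (Set.Subset.trans ?_ hWF)
  refine isPreconnected_connectedComponentIn.subset_left_of_subset_union hWo
    (isCompact_cubes F).isClosed.isOpen_compl ?_ ?_ ⟨z, mem_connectedComponentIn hz, hFW z hz hF⟩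
  · exact Set.disjoint_left.mpr fun p h1 h2 => h2 (hWF h1)
  · intro p hp
    by_cases m : p ∈ cubes F
    · exact Or.inl (hFW p (connectedComponentIn_subset _ _ hp) m)
    · exact Or.inr m

theorem FT1_seg {U : Set E3} {z p q : E3} (hp : p ∈ connectedComponentIn U z)
    (h : segment ℝ p q ⊆ U) : q ∈ connectedComponentIn U z := by
  rw [connectedComponentIn_eq hp]
  exact (convex_segment p q).isPreconnected.subset_connectedComponentIn (left_mem_segment ℝ p q) h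
    (right_mem_segment ℝ p q)

theorem FT1_seg_centre {C : Finset Site} {z : E3} (hz : z ∉ cubes C) {x : Site} (hx : x ∉ C)
    (k : ∀ i, |z i - (x i : ℝ)| ≤ 1 / 2) : segment ℝ z (emb x) ⊆ (cubes C)ᶜ := by
  rintro p ⟨a, b, ha, hb, hab, rfl⟩
  rcases hb.eq_or_lt with rfl | hb'
  · have : a = 1 := by linarith
    subst this
    simpa using hz
  · refine not_mem_cubes hx fun i => ?_
    have e : (a • z + b • emb x) i - emb x i = a * (z i - (x i : ℝ)) := by
      simp only [PiLp.add_apply, PiLp.smul_apply, smul_eq_mul, emb_apply]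
      have : b = 1 - a := by linarith
      rw [this]
      ring
    rw [e, abs_mul, abs_of_nonneg ha]
    have := k i
    have := abs_nonneg (z i - (x i : ℝ))
    nlinarith

theorem FT1_seg_tip {C : Finset Site} {b : Bond} (hx : b.1 ∉ C) (hy : tip b ∉ C) :
    segment ℝ (emb b.1) (emb (tip b)) ⊆ (cubes C)ᶜ := by
  rintro p ⟨s, t, hs, ht, hst, rfl⟩ ⟨u, hu, k⟩
  have c : ∀ i, b.1 i ≤ u i ∧ u i ≤ tip b i := by
    intro i
    have a := abs_le.mp (k i)
    simp only [PiLp.add_apply, PiLp.smul_apply, smul_eq_mul, emb_apply] at a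
    have le : (b.1 i : ℝ) ≤ (tip b i : ℝ) := by
      rw [tip_apply]
      split_ifs <;> simp
    have e1 : s * (b.1 i : ℝ) + t * (tip b i : ℝ) = b.1 i + t * ((tip b i : ℝ) - b.1 i) := by
      rw [show s = 1 - t by linarith only [hst]]
      ring
    have e2 : s * (b.1 i : ℝ) + t * (tip b i : ℝ) = tip b i - s * ((tip b i : ℝ) - b.1 i) := by
      rw [show s = 1 - t by linarith only [hst]]
      ring
    have p1 := mul_nonneg ht (sub_nonneg.mpr le)
    have p2 := mul_nonneg hs (sub_nonneg.mpr le)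
    have d : ((b.1 i - 1 : ℤ) : ℝ) < u i := by
      push_cast
      linarith only [a, e1, p1, a.2]
    have e : (u i : ℝ) < ((tip b i + 1 : ℤ) : ℝ) := by
      push_cast
      linarith only [a, e2, p2, a.1]
    have d' := Int.cast_lt.mp d
    have e' := Int.cast_lt.mp e
    omega
  by_cases m : u b.2 = b.1 b.2
  · refine hx ((funext fun i => ?_ : u = b.1) ▸ hu)
    have := c i
    rw [tip_apply] at this
    split_ifs at this with e
    · rw [e, m]
    · omega
  · refine hy ((funext fun i => ?_ : u = tip b) ▸ hu)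
    have := c i
    rw [tip_apply] at this ⊢
    split_ifs at this ⊢ with e
    · subst e
      omega
    · omega

theorem FT1_comp_step {C : Finset Site} {z : E3} {x y : Site} (hx : x ∉ C) (hy : y ∉ C)
    (hn : NN x y) (h : emb x ∈ connectedComponentIn (cubes C)ᶜ z) :
    emb y ∈ connectedComponentIn (cubes C)ᶜ z := by
  refine FT1_seg h ?_
  obtain ⟨i, rfl | rfl⟩ := NN_iff.mp hn
  · exact FT1_seg_tip (b := (x, i)) hx hy
  · rw [segment_symm]
    exact FT1_seg_tip (b := (y, i)) hy hx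

theorem FT1_unbounded {C : Finset Site} {R : ℕ} (h : C ⊆ cube R) {z : E3} (hz : z ∉ cubes C)
    (hb : Bornology.IsBounded (connectedComponentIn (cubes C)ᶜ z)) : z ∈ cubes (FT1_F C R) := by
  refine ⟨fun i => round (z i), ?_, FT1_round z⟩
  rw [FT1_mem h]
  rintro ⟨h1, y, h2, h3⟩
  have h4 : emb y ∈ connectedComponentIn (cubes C)ᶜ z := by
    clear h2
    induction h3 with
    | refl => exact FT1_seg (mem_connectedComponentIn hz) (FT1_seg_centre hz h1 (FT1_round z))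
    | tail _ k ih => exact FT1_comp_step k.1 k.2.1 k.2.2 ih
  obtain ⟨r, hr⟩ := hb.exists_norm_le
  obtain ⟨M, hM⟩ := exists_nat_ge r
  set I := (cube M).filter fun u => emb u ∈ connectedComponentIn (cubes C)ᶜ z with hI
  have mI : ∀ u, u ∈ I ↔ emb u ∈ connectedComponentIn (cubes C)ᶜ z := by
    intro u
    rw [hI, Finset.mem_filter]
    refine ⟨fun k => k.2, fun k => ⟨mem_cube.mpr fun i => ?_, k⟩⟩
    have a := ((abs_coord_le (emb u) i).trans (hr _ k)).trans hM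
    rw [emb_apply] at a
    have c : ((|u i| : ℤ) : ℝ) ≤ ((M : ℤ) : ℝ) := by
      push_cast
      exact a
    exact Int.cast_le.mp c
  have nc : ∀ b ∈ cut I, b.1 ∈ cube R ∨ tip b ∈ cube R := by
    intro b hb'
    by_contra m
    push Not at m
    have m1 : b.1 ∉ C := fun k => m.1 (h k)
    have m2 : tip b ∉ C := fun k => m.2 (h k)
    refine mem_cut.mp hb' ?_
    rw [mI, mI]
    exact ⟨FT1_comp_step m1 m2 (FT1_nn_tip b), FT1_comp_step m2 m1 (FT1_nn_tip b).symm⟩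
  exact h2 (sub_box (isBox_cube R) (fun b hb' => mem_bonds.mpr (nc b hb')) ((mI y).mpr h4))

theorem fill_cubes (C : Finset Site) : ∃ F : Finset Site, C ⊆ F ∧ fill (cubes C) = cubes F ∧
    cut F ⊆ cut C ∧ ((∀ x ∈ C, ∀ y ∈ C,
      Relation.ReflTransGen (fun a b => a ∈ C ∧ b ∈ C ∧ NN a b) x y) → IsConn (cut F)) := by
  obtain ⟨R, h⟩ := FT1_exists_R C
  refine ⟨FT1_F C R, FT1_sub h, Set.Subset.antisymm ?_ ?_, FT1_cut h, FT1_isConn h⟩
  · rintro z (hz | ⟨hz, hb⟩)
    · exact FT1_cubes_mono (FT1_sub h) hz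
    · exact FT1_unbounded h hz hb
  · intro z hz
    by_cases m : z ∈ cubes C
    · exact Or.inl m
    · exact Or.inr ⟨m, FT1_bounded (Finset.filter_subset _ _) (FT1_cut h) m hz⟩

theorem FT1_path_mem {S : Finset Site} {x y : Site} (hx : x ∈ S)
    (h : Relation.ReflTransGen (fun a b => a ∈ S ∧ b ∈ S ∧ NN a b) x y) : y ∈ S := by
  induction h with
  | refl => exact hx
  | tail _ k _ => exact k.2.1

theorem FT1_path_symm {S : Finset Site} {x y : Site}
    (h : Relation.ReflTransGen (fun a b => a ∈ S ∧ b ∈ S ∧ NN a b) x y) :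
    Relation.ReflTransGen (fun a b => a ∈ S ∧ b ∈ S ∧ NN a b) y x := by
  induction h with
  | refl => exact .refl
  | tail _ k ih => exact Relation.ReflTransGen.head ⟨k.2.1, k.1, k.2.2.symm⟩ ih

theorem exists_cluster {S : Finset Site} {x : Site} (hx : x ∈ S) :
    ∃ C, IsCluster S C ∧ ∀ y, y ∈ C ↔
      Relation.ReflTransGen (fun a b => a ∈ S ∧ b ∈ S ∧ NN a b) x y := by
  have e : ∀ y, y ∈ S.filter (Relation.ReflTransGen (fun a b => a ∈ S ∧ b ∈ S ∧ NN a b) x) ↔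
      Relation.ReflTransGen (fun a b => a ∈ S ∧ b ∈ S ∧ NN a b) x y := fun y => by
    rw [Finset.mem_filter]
    exact ⟨fun k => k.2, fun k => ⟨FT1_path_mem hx k, k⟩⟩
  exact ⟨_, ⟨x, hx, e⟩, e⟩

theorem IsCluster.spec {S C : Finset Site} (h : IsCluster S C) : C ⊆ S ∧ cut C ⊆ cut S ∧
    ∀ x ∈ C, ∀ y ∈ C, Relation.ReflTransGen (fun a b => a ∈ C ∧ b ∈ C ∧ NN a b) x y := by
  obtain ⟨o, ho, e⟩ := h
  have hs : C ⊆ S := fun y hy => FT1_path_mem ho ((e y).mp hy)
  have st : ∀ u v, NN u v → u ∈ C → v ∈ S → v ∈ C := fun u v hn hu hv =>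
    (e v).mpr (Relation.ReflTransGen.tail ((e u).mp hu) ⟨hs hu, hv, hn⟩)
  have pth : ∀ y, Relation.ReflTransGen (fun a b => a ∈ S ∧ b ∈ S ∧ NN a b) o y →
      Relation.ReflTransGen (fun a b => a ∈ C ∧ b ∈ C ∧ NN a b) o y := by
    intro y hy
    induction hy with
    | refl => exact .refl
    | tail k1 k ih =>
      exact Relation.ReflTransGen.tail ih
        ⟨(e _).mpr k1, (e _).mpr (Relation.ReflTransGen.tail k1 k), k.2.2⟩
  refine ⟨hs, fun b hb => ?_, fun x hx y hy => ?_⟩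
  · rw [mem_cut] at hb ⊢
    intro k
    exact hb ⟨fun m => st _ _ (FT1_nn_tip b) m (k.mp (hs m)),
      fun m => st _ _ (FT1_nn_tip b).symm m (k.mpr (hs m))⟩
  · exact (FT1_path_symm (pth x ((e x).mp hx))).trans (pth y ((e y).mp hy))

/-- A connected boundary inside `cut S` around two far points is made of large contours. -/
theorem cut_subset_Lg {S F : Finset Site} {s : ℕ} (hc : IsConn (cut F)) (hF : cut F ⊆ cut S)
    {x y : Site} (hx : x ∈ F) (hy : y ∈ F) (hxy : ¬ Near s x y) : cut F ⊆ Lg s (cut S) := by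
  intro b hb
  refine Finset.mem_filter.mpr ⟨hF hb, ?_⟩
  by_contra m
  refine hxy fun i => ?_
  have := near_of_isConn (s := s) (I := F) (fun b1 h1 b2 h2 => by
    by_contra k
    exact m ⟨b1, b2, (hc b hb b1 h1).mono hF, (hc b hb b2 h2).mono hF, k⟩) hx hy i
  omega

end Pool.Agent.Work.MP_b59478_pr
end
end

-- merged part: Pool.Agent.Work.MP_b59478_pr.FT2
section
/-! Sets whose frontier is in a thin shell around the boundary of a convex body.
shell_dich: y + (1 - rho) W is convex, hence preconnected, and is covered by the open sets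
interior G and the complement of G. shell_out: if z - y is not in (1 + rho) W the ray
y + t (z - y), t >= 1, is preconnected, misses the frontier and is unbounded.
shell_haus: a point z of the frontier has (z - y) / (1 + rho) in W and (z - y) / (1 - rho) not in W,
so the segment between them meets frontier W; for w in frontier W, y + (1 - rho) w is in G and
y + (1 + 2 rho) w is not ((1 + 2 rho) w in (1 + rho) W would put w in the interior), so the segment
meets frontier G. Points of W have norm at most 2.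
-/

set_option autoImplicit false

noncomputable section

namespace Pool.Agent.Work.MP_b59478_pr

open Classical Filter Topology MeasureTheory
open scoped symmDiff Pointwise

theorem FT2_add {W : Set E3} (hW : Convex ℝ W) {a b : ℝ} (ha : 0 ≤ a) (hb : 0 ≤ b) {u v : E3}
    (hu : u ∈ a • W) (hv : v ∈ b • W) : u + v ∈ (a + b) • W := by
  rw [hW.add_smul ha hb]
  exact Set.add_mem_add hu hv

theorem FT2_ball {W : Set E3} {r0 ω : ℝ} (hb : Body W r0 ω) {a : ℝ} (ha : 0 < a) {d : E3}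
    (hd : ‖d‖ ≤ a * r0) : d ∈ a • W := by
  refine ⟨a⁻¹ • d, hb.ball ?_, by simp [smul_smul, mul_inv_cancel₀ ha.ne']⟩
  rw [mem_closedBall_zero_iff, norm_smul, norm_inv, Real.norm_of_nonneg ha.le,
    inv_mul_le_iff₀ ha]
  exact hd

theorem FT2_zero {W : Set E3} {r0 ω : ℝ} (hb : Body W r0 ω) (a : ℝ) : (0 : E3) ∈ a • W :=
  ⟨0, hb.ball (Metric.mem_closedBall_self hb.r0_pos.le), smul_zero a⟩

theorem FT2_mono {W : Set E3} {r0 ω : ℝ} (hb : Body W r0 ω) {a b : ℝ} (ha : 0 ≤ a) (hab : a ≤ b)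
    {u : E3} (hu : u ∈ a • W) : u ∈ b • W := by
  have := FT2_add hb.cvx ha (sub_nonneg.2 hab) hu (FT2_zero hb (b - a))
  rwa [add_zero, add_sub_cancel] at this

theorem FT2_norm {W : Set E3} {r0 ω : ℝ} (hb : Body W r0 ω) {u : E3} (hu : u ∈ W) : ‖u‖ ≤ 2 := by
  have := norm_le_of_coord (hb.sub hu)
  have := hb.ω_lt
  linarith

theorem FT2_cross {S G : Set E3} (hS : IsPreconnected S) {a b : E3} (ha : a ∈ S) (hb : b ∈ S)
    (haG : a ∈ G) (hbG : b ∉ G) : ∃ z ∈ S, z ∈ frontier G := by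
  by_contra hc
  have h1 : S ⊆ interior G ∪ interior Gᶜ := by
    rw [← compl_frontier_eq_union_interior]
    exact fun z hz hf => hc ⟨z, hz, hf⟩
  rcases hS.subset_or_subset isOpen_interior isOpen_interior
    (disjoint_compl_right.mono interior_subset interior_subset) h1 with h2 | h2
  · exact hbG (interior_subset (h2 hb))
  · exact interior_subset (h2 ha) haG

theorem FT2_line {G : Set E3} (y u : E3) {a b : ℝ} (haG : y + a • u ∈ G) (hbG : y + b • u ∉ G) :
    ∃ t ∈ Set.uIcc a b, y + t • u ∈ frontier G := by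
  have hc : Continuous fun t : ℝ => y + t • u := by fun_prop
  obtain ⟨z, ⟨t, ht, rfl⟩, hz⟩ := FT2_cross (isPreconnected_uIcc.image _ hc.continuousOn)
    ⟨a, Set.left_mem_uIcc, rfl⟩ ⟨b, Set.right_mem_uIcc, rfl⟩ haG hbG
  exact ⟨t, ht, hz⟩

theorem Shell.near {W : Set E3} {r0 ω ρ : ℝ} (hb : Body W r0 ω) (hρ : 0 < ρ) (hρ1 : 2 * ρ < 1)
    {y z z' : E3} (h : Shell W ρ y z) (hz : ‖z' - z‖ ≤ ρ * r0) : Shell W (2 * ρ) y z' := by
  constructor
  · have := FT2_add hb.cvx (by linarith) hρ.le h.1 (FT2_ball hb hρ hz)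
    rwa [show z - y + (z' - z) = z' - y by abel, show 1 + ρ + ρ = 1 + 2 * ρ by ring] at this
  · intro hc
    have := FT2_add hb.cvx (by linarith) hρ.le hc
      (FT2_ball hb hρ (d := z - z') (by rwa [norm_sub_rev]))
    rw [show z' - y + (z - z') = z - y by abel, show 1 - 2 * ρ + ρ = 1 - ρ by ring] at this
    exact h.2 this

theorem shell_dich {W G : Set E3} {r0 ω ρ : ℝ} (hb : Body W r0 ω) (hG : IsClosed G) {y : E3}
    (h : ∀ z ∈ frontier G, Shell W ρ y z) :
    (∀ z, z - y ∈ (1 - ρ) • W → z ∈ G) ∨ ∀ z, z - y ∈ (1 - ρ) • W → z ∉ G := by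
  by_contra hc
  push Not at hc
  obtain ⟨⟨b, hb1, hb2⟩, a, ha1, ha2⟩ := hc
  have hS : Convex ℝ {z : E3 | z - y ∈ (1 - ρ) • W} := by
    have := (hb.cvx.smul (1 - ρ)).translate_preimage_left (-y)
    simpa [sub_eq_add_neg, Set.preimage] using this
  obtain ⟨z, hz, hf⟩ := FT2_cross hS.isPreconnected ha1 hb1 ha2 hb2
  exact (h z hf).2 hz

theorem shell_out {W G : Set E3} {r0 ω ρ : ℝ} (hb : Body W r0 ω) (hρ : 0 < ρ) (hG : IsCompact G)
    {y : E3} (h : ∀ z ∈ frontier G, Shell W ρ y z) : ∀ z ∈ G, z - y ∈ (1 + ρ) • W := by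
  intro z hz
  by_contra hc
  have h0 : 0 < ‖z - y‖ := norm_pos_iff.2 fun e => hc (e ▸ FT2_zero hb _)
  obtain ⟨R, hR⟩ := hG.isBounded.subset_closedBall y
  have hz' := hR hz
  rw [mem_closedBall_iff_norm] at hz'
  have hT : 1 ≤ (R + 1) / ‖z - y‖ := by rw [le_div_iff₀ h0]; linarith
  obtain ⟨t, ht, hf⟩ := FT2_line (G := G) y (z - y) (a := 1) (b := (R + 1) / ‖z - y‖)
    (by simpa using hz) (fun hm => by
      have := hR hm
      rw [mem_closedBall_iff_norm, add_sub_cancel_left, norm_smul,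
        Real.norm_of_nonneg (by linarith only [hT]), div_mul_cancel₀ _ h0.ne'] at this
      linarith)
  rw [Set.uIcc_of_le hT] at ht
  have ht0 : 0 < t := by linarith [ht.1]
  obtain ⟨u, hu, hu'⟩ := (h _ hf).1
  simp only [add_sub_cancel_left] at hu'
  refine hc (FT2_mono hb (a := t⁻¹ * (1 + ρ)) (by positivity) ?_ ⟨u, hu, ?_⟩)
  · exact mul_le_of_le_one_left (by linarith) (inv_le_one_of_one_le₀ ht.1)
  · simp only
    rw [mul_smul, hu', smul_smul, inv_mul_cancel₀ ht0.ne', one_smul]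

theorem shell_haus {W G : Set E3} {r0 ω ρ : ℝ} (hb : Body W r0 ω) (hρ : 0 < ρ) (hρ1 : ρ ≤ 1 / 10)
    (hG : IsCompact G) {y : E3} (h : ∀ z ∈ frontier G, Shell W ρ y z)
    (hin : ∀ z, z - y ∈ (1 - ρ) • W → z ∈ G) :
    Metric.hausdorffEDist (frontier G) (y +ᵥ frontier W) ≤ ENNReal.ofReal (6 * ρ) := by
  refine Metric.hausdorffEDist_le_of_mem_edist ?_ ?_
  · intro z hz
    obtain ⟨⟨u, hu, hu'⟩, h2⟩ := h z hz
    simp only at hu'
    obtain ⟨t, ht, hf⟩ := FT2_line (G := W) 0 u (a := 1) (b := (1 + ρ) / (1 - ρ))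
      (by simpa using hu) (fun hm => h2 ⟨_, hm, by
        simp only
        rw [zero_add, smul_smul, mul_div_cancel₀ _ (by linarith only [hρ, hρ1]), hu']⟩)
    have h3 : (1 : ℝ) ≤ (1 + ρ) / (1 - ρ) := by rw [le_div_iff₀ (by linarith)]; linarith
    have h4 : (1 + ρ) / (1 - ρ) ≤ 1 + 3 * ρ := by rw [div_le_iff₀ (by linarith)]; nlinarith only [hρ, hρ1]
    rw [Set.uIcc_of_le h3] at ht
    refine ⟨y +ᵥ (0 + t • u), Set.vadd_mem_vadd_set hf, ?_⟩
    rw [edist_dist, dist_eq_norm]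
    refine ENNReal.ofReal_le_ofReal ?_
    have e : z - (y +ᵥ (0 + t • u)) = (1 + ρ - t) • u := by
      rw [vadd_eq_add, zero_add, sub_smul, hu']; abel
    rw [e, norm_smul, Real.norm_eq_abs]
    have h5 : |1 + ρ - t| ≤ 3 * ρ := abs_le.2 ⟨by linarith only [hρ, h4, ht.2], by linarith only [hρ, ht.1]⟩
    nlinarith only [hρ, hρ1, h5, FT2_norm hb hu, norm_nonneg u, abs_nonneg (1 + ρ - t)]
  · rintro _ ⟨u, hu, rfl⟩
    have huW : u ∈ W := hb.cpt.isClosed.frontier_subset hu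
    obtain ⟨t, ht, hf⟩ := FT2_line (G := G) y u (a := 1 - ρ) (b := 1 + 2 * ρ)
      (hin _ ⟨u, huW, by simp⟩) (fun hm => by
        obtain ⟨u', hu1, hu2⟩ := shell_out hb hρ hG h _ hm
        simp only [add_sub_cancel_left] at hu2
        have h1 : (0 : ℝ) < 1 + 2 * ρ := by linarith
        have h2 : u ∈ ((1 + ρ) / (1 + 2 * ρ)) • W := ⟨u', hu1, by
          simp only
          rw [div_eq_inv_mul, mul_smul, hu2, smul_smul, inv_mul_cancel₀ h1.ne', one_smul]⟩
        refine hu.2 (mem_interior_iff_mem_nhds.2 (Filter.mem_of_superset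
          (Metric.closedBall_mem_nhds u (ε := ρ / (1 + 2 * ρ) * r0)
            (mul_pos (by positivity) hb.r0_pos)) fun v hv => ?_))
        rw [mem_closedBall_iff_norm] at hv
        have h3 := FT2_add hb.cvx (by positivity) (by positivity) h2
          (FT2_ball hb (by positivity) hv)
        rwa [show (1 + ρ) / (1 + 2 * ρ) + ρ / (1 + 2 * ρ) = 1 by field_simp; ring, one_smul,
          add_sub_cancel] at h3)
    rw [Set.uIcc_of_le (by linarith)] at ht
    refine ⟨_, hf, ?_⟩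
    rw [edist_dist, dist_eq_norm]
    refine ENNReal.ofReal_le_ofReal ?_
    have e : (y +ᵥ u) - (y + t • u) = (1 - t) • u := by
      rw [vadd_eq_add, sub_smul, one_smul]; abel
    simp only
    rw [e, norm_smul, Real.norm_eq_abs]
    have h5 : |1 - t| ≤ 3 * ρ := abs_le.2 ⟨by linarith only [hρ, ht.2], by linarith [ht.1]⟩
    nlinarith only [hρ, hρ1, h5, FT2_norm hb huW, norm_nonneg u, abs_nonneg (1 - t)]

end Pool.Agent.Work.MP_b59478_pr
end
end

-- merged part: Pool.Agent.Work.MP_b59478_pr.FT3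
section
/-! The interface is near the Wulff surface. A = large s S, D = S symmdiff A. For every finite F with
cut F inside cut A the frontier of eA N F is in Shell (2 rho) (frontier_cubes, Shell.near). For F = A
shell_dich and the volume hypothesis give that y + (1 - 2 rho) W is inside eA N A, so
ball x (2 s + 5) is inside A, x = rnd N y. sea gives y0 outside D near x with a long path outside D,
which starts inside A, hence inside S; the cluster C of y0 has two points at distance more than s,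
so its filled set F has cut F inside cut A (cut_subset_Lg), contains y0, and eA N F contains
y + (1 - 2 rho) W. So the maximiser has a filled set F' of at least (1 - 2 rho) ^ 3 v N ^ 3 points, more
than (2 s + 1) ^ 3, so again cut F' is inside cut A; the second alternative of shell_dich would put
eA N F' in the shell, of volume ((1 + 2 rho) ^ 3 - (1 - 2 rho) ^ 3) v, too small. shell_haus concludes
(the frontier commutes with the scaling).
-/

set_option autoImplicit false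

noncomputable section

namespace Pool.Agent.Work.MP_b59478_pr

open Classical Filter Topology MeasureTheory
open scoped symmDiff Pointwise

theorem FT3_frontier {N : ℕ} (hN : 1 ≤ N) (U : Set E3) :
    frontier ((N : ℝ)⁻¹ • U) = (N : ℝ)⁻¹ • frontier U :=
  ((Homeomorph.smulOfNeZero ((N : ℝ)⁻¹) (by positivity)).image_frontier U).symm

theorem FT3_cpt (N : ℕ) (F : Finset Site) : IsCompact (eA N F) := (isCompact_cubes F).smul _

theorem FT3_shell {W : Set E3} {r0 ω ρ : ℝ} (hb : Body W r0 ω) (hρ : 0 < ρ) (hρ1 : 2 * ρ < 1)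
    {N : ℕ} (hN : 1 ≤ N) (h3 : 3 ≤ ρ * r0 * N) {F : Finset Site} {y : E3}
    (h : ∀ b ∈ cut F, Shell W ρ y ((N : ℝ)⁻¹ • emb b.1)) :
    ∀ z ∈ frontier (eA N F), Shell W (2 * ρ) y z := by
  intro z hz
  rw [eA, FT3_frontier hN] at hz
  obtain ⟨z', hz', rfl⟩ := hz
  obtain ⟨b, hb1, hb2⟩ := frontier_cubes hz'
  refine (h b hb1).near hb hρ hρ1 ?_
  have hN' : (0 : ℝ) < N := by exact_mod_cast hN
  have h1 : ‖z' - emb b.1‖ ≤ 2 * (3 / 2) := norm_le_of_coord fun i => by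
    rw [PiLp.sub_apply, emb_apply]
    exact hb2 i
  beta_reduce
  rw [← smul_sub, norm_smul, Real.norm_eq_abs, abs_of_pos (inv_pos.2 hN'), inv_mul_le_iff₀ hN']
  linarith only [h3, h1]

theorem FT3_vol {W : Set E3} {v : ℝ} (hvol : volume W = ENNReal.ofReal v) (y : E3) {a : ℝ}
    (ha : 0 ≤ a) : volume {z : E3 | z - y ∈ a • W} = ENNReal.ofReal (a ^ 3 * v) := by
  have := measure_preimage_add_right (volume : Measure E3) (-y) (a • W)
  rw [volume_smul_set a ha, hvol, ← ENNReal.ofReal_mul (by positivity)] at this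
  rw [← this]
  simp only [sub_eq_add_neg]
  rfl

theorem FT3_in {W : Set E3} {r0 ω a : ℝ} (hb : Body W r0 ω) (ha : 0 < a) {N R : ℕ} (hN : 1 ≤ N)
    (hR : 2 * (R : ℝ) + 1 ≤ a * r0 * N) {y : E3} {u : Site} (hu : Near R u (rnd N y)) :
    (N : ℝ)⁻¹ • emb u - y ∈ a • W := by
  have hN' : (0 : ℝ) < N := by exact_mod_cast hN
  have h1 : ‖emb u - (N : ℝ) • y‖ ≤ 2 * (R + 1 / 2) := norm_le_of_coord fun i => by
    rw [PiLp.sub_apply, emb_apply, PiLp.smul_apply, smul_eq_mul]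
    have h2 : |(u i : ℝ) - (round ((N : ℝ) * y i) : ℤ)| ≤ R := by exact_mod_cast hu i
    have h3 := abs_sub_round ((N : ℝ) * y i)
    rw [abs_sub_comm] at h3
    linarith only [h2, h3, abs_sub_le (u i : ℝ) (round ((N : ℝ) * y i) : ℤ) (N * y i)]
  rw [Set.mem_smul_set_iff_inv_smul_mem₀ ha.ne']
  refine hb.ball ?_
  have e : (N : ℝ)⁻¹ • emb u - y = (N : ℝ)⁻¹ • (emb u - (N : ℝ) • y) := by
    rw [smul_sub, smul_smul, inv_mul_cancel₀ hN'.ne', one_smul]
  rw [mem_closedBall_zero_iff, e, norm_smul, norm_smul, Real.norm_eq_abs, Real.norm_eq_abs,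
    abs_of_pos (inv_pos.2 hN'), abs_of_pos (inv_pos.2 ha), inv_mul_le_iff₀ ha, inv_mul_le_iff₀ hN']
  linarith only [hR, h1]

theorem FT3_mem {N : ℕ} (hN : 1 ≤ N) {F : Finset Site} {u : Site} :
    (N : ℝ)⁻¹ • emb u ∈ eA N F ↔ u ∈ F := by
  have hN' : (0 : ℝ) < N := by exact_mod_cast hN
  rw [mem_eA hN, smul_smul, mul_inv_cancel₀ hN'.ne', one_smul, emb_mem_cubes]

theorem FT3_path {S D : Finset Site} {s : ℕ} {y z : Site}
    (hS : ∀ u, Near (s + 1) y u → u ∉ D → u ∈ S)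
    (h : Relation.ReflTransGen (fun a b => a ∉ D ∧ b ∉ D ∧ NN a b) y z) :
    (∃ u, Relation.ReflTransGen (fun a b => a ∈ S ∧ b ∈ S ∧ NN a b) y u ∧ ¬ Near s y u) ∨
      Relation.ReflTransGen (fun a b => a ∈ S ∧ b ∈ S ∧ NN a b) y z ∧ Near s y z := by
  induction h with
  | refl => exact Or.inr ⟨.refl, Near.refl _ _⟩
  | @tail a b _ k ih =>
    rcases ih with ih | ih
    · exact Or.inl ih
    · have p := ih.1.tail ⟨hS a (ih.2.mono (Nat.le_succ s)) k.1,
        hS b (ih.2.trans k.2.2.near) k.2.1, k.2.2⟩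
      by_cases hb : Near s y b
      · exact Or.inr ⟨p, hb⟩
      · exact Or.inl ⟨b, p, hb⟩

theorem FT3_fill {S C : Finset Site} (hC : IsCluster S C) : ∃ F : Finset Site, C ⊆ F ∧
    fill (cubes C) = cubes F ∧ ∀ s, ∀ x ∈ F, ∀ y ∈ F, ¬ Near s x y → cut F ⊆ cut (large s S) := by
  obtain ⟨F, h1, h2, h3, h4⟩ := fill_cubes C
  refine ⟨F, h1, h2, fun s x hx y hy h => ?_⟩
  rw [cut_large]
  exact cut_subset_Lg (h4 hC.spec.2.2) (h3.trans hC.spec.2.1) hx hy h

theorem final_topo {W : Set E3} {r0 ω v ε : ℝ} (hb : Body W r0 ω) (hv : 0 < v)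
    (hvol : volume W = ENNReal.ofReal v) (hε : 0 < ε) : ∃ ρ η : ℝ, 0 < ρ ∧ ρ < 1 ∧ 0 < η ∧
    ∀ᶠ N : ℕ in atTop, ∀ (S : Finset Site) (y : E3), S ⊆ cube N →
    volume (eA N (large (sN N) S) ∆ (y +ᵥ W)) ≤ ENNReal.ofReal η →
    (∀ b ∈ cut (large (sN N) S), Shell W ρ y ((N : ℝ)⁻¹ • emb b.1)) → ¬ Far N W ε S := by
  obtain ⟨ρ, hρ, hρ1, hρ2⟩ : ∃ ρ : ℝ, 0 < ρ ∧ ρ ≤ 1 / 20 ∧ ρ ≤ ε / 12 :=
    ⟨min (1 / 20) (ε / 12), by positivity, min_le_left _ _, min_le_right _ _⟩
  have hr := hb.r0_pos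
  have hW0 : (0 : E3) ∈ W := hb.ball (Metric.mem_closedBall_self hr.le)
  refine ⟨ρ, v / 2, hρ, by linarith only [hρ, hρ1], by positivity, ?_⟩
  filter_upwards [eventually_ge_atTop 1, tendsto_sN.eventually_ge_atTop 1, ev_cube_sqrt 8,
    ev_sqrt_le (mul_pos hρ hr), ev_sqrt_le (half_pos hv)] with N hN hs e1 e2 e3 S y hS hd hsh hfar
  generalize sN N = s at *
  have hN' : (1 : ℝ) ≤ N := by exact_mod_cast hN
  have s0 : (0 : ℝ) ≤ s := Nat.cast_nonneg s
  have c1 : (s : ℝ) + 1 ≤ (s + 1) ^ 3 := le_self_pow₀ (by linarith only []) (by norm_num)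
  have c2 : 3 ≤ ρ * r0 * N := by linarith only [hρ, hρ1, e2, e1, c1]
  have c3 : 2 * ((s + 1 + s : ℕ) : ℝ) + 1 ≤ (1 - 2 * ρ) * r0 * N := by
    have : ρ * r0 * N ≤ (1 - 2 * ρ) * r0 * N := by gcongr; linarith only [hρ, hρ1]
    push_cast
    linarith only [hρ, hρ1, e2, e1, c1, this]
  have c4 : (0.9 : ℝ) ^ 3 ≤ (1 - 2 * ρ) ^ 3 := by gcongr; linarith only [hρ1]
  have c5 : (1 + 2 * ρ) ^ 3 ≤ (1.1 : ℝ) ^ 3 := by gcongr; linarith only [hρ1]
  have hsh' : ∀ F, cut F ⊆ cut (large s S) → ∀ z ∈ frontier (eA N F), Shell W (2 * ρ) y z :=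
    fun F hF => FT3_shell hb hρ (by linarith only [hρ, hρ1]) hN c2 fun b h => hsh b (hF h)
  have vin := FT3_vol hvol y (a := 1 - 2 * ρ) (by linarith only [hρ, hρ1])
  have vout := FT3_vol hvol y (a := 1 + 2 * ρ) (by linarith only [hρ, hρ1])
  have hA : ∀ z, z - y ∈ (1 - 2 * ρ) • W → z ∈ eA N (large s S) := by
    refine (shell_dich hb (FT3_cpt N _).isClosed (hsh' _ Finset.Subset.rfl)).resolve_right
      fun h => ?_
    have h1 : {z : E3 | z - y ∈ (1 - 2 * ρ) • W} ⊆ eA N (large s S) ∆ (y +ᵥ W) := fun z hz => by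
      refine Or.inr ⟨?_, h z hz⟩
      obtain ⟨u, hu, e⟩ := hz
      refine ⟨z - y, ?_, by simp⟩
      rw [← e]
      exact hb.cvx.smul_mem_of_zero_mem hW0 hu ⟨by linarith only [hρ, hρ1], by linarith only [hρ]⟩
    have h2 := (measure_mono h1).trans hd
    rw [vin, ENNReal.ofReal_le_ofReal_iff (by positivity)] at h2
    nlinarith only [h2, hv, hρ, hρ1, c4]
  have hD : Small s (cut (S ∆ large s S)) :=
    (Finset.mem_filter.1 (symmDiff_large_mem (isBox_cube N) hS s)).2.1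
  obtain ⟨y0, z, n1, n2, n3, n4⟩ := sea hD hs (rnd N y) s
  have hin : ∀ u, Near (s + 1) y0 u → (N : ℝ)⁻¹ • emb u - y ∈ (1 - 2 * ρ) • W := fun u hu =>
    FT3_in hb (by linarith only [hρ, hρ1]) hN c3 (hu.symm.trans n1)
  have hSu : ∀ u, Near (s + 1) y0 u → u ∉ S ∆ large s S → u ∈ S := fun u hu h => by
    by_contra h'
    exact h (Finset.mem_symmDiff.2 (Or.inr ⟨(FT3_mem hN).1 (hA _ (hin u hu)), h'⟩))
  obtain ⟨u, p1, p2⟩ := (FT3_path hSu n3).resolve_right fun h => n4 h.2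
  obtain ⟨C, hC, hC'⟩ := exists_cluster (hSu y0 (Near.refl _ _) n2)
  obtain ⟨F, f1, f2, f3⟩ := FT3_fill hC
  have y1 : y0 ∈ F := f1 ((hC' _).2 .refl)
  have f4 := hsh' F (f3 s y0 y1 u (f1 ((hC' _).2 p1)) p2)
  have f5 : ∀ z, z - y ∈ (1 - 2 * ρ) • W → z ∈ eA N F :=
    (shell_dich hb (FT3_cpt N _).isClosed f4).resolve_right fun h =>
      h _ (hin y0 (Near.refl _ _)) ((FT3_mem hN).2 y1)
  obtain ⟨C', hC1, hC2, hC3⟩ := hfar
  obtain ⟨G, -, g2, g3⟩ := FT3_fill hC1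
  have g4 := hC2 C hC
  rw [f2, g2, volume_cubes, volume_cubes, Nat.cast_le] at g4
  have g5 : ENNReal.ofReal ((1 - 2 * ρ) ^ 3 * v) ≤ volume (eA N G) := by
    rw [← vin]
    refine (measure_mono f5).trans ?_
    rw [volume_eA hN, volume_eA hN]
    gcongr
  have g6 : (2 * s + 1) ^ 3 < G.card := by
    rw [volume_eA hN, ENNReal.ofReal_le_ofReal_iff (by (clear * - hN; positivity)),
      le_div_iff₀ (by positivity)] at g5
    have a1 : (N : ℝ) ≤ N ^ 3 := le_self_pow₀ hN' (by norm_num)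
    have a2 : (2 * (s : ℝ) + 1) ^ 3 < (2 * (s + 1)) ^ 3 := by gcongr; linarith only [hρ, hρ1]
    have a3 : v / 2 * N ≤ (1 - 2 * ρ) ^ 3 * v * N ^ 3 := by
      refine mul_le_mul (by nlinarith only [hv, hρ, hρ1, c4]) a1 (by linarith only [hρ, hρ1, hN']) ?_
      nlinarith only [hv, hρ, hρ1, c4]
    have a4 : (2 * (s : ℝ) + 1) ^ 3 < G.card := by
      rw [mul_pow] at a2
      linarith only [e3, e1, g5, a2, a3]
    exact_mod_cast a4
  obtain ⟨p, hp⟩ := Finset.card_pos.1 (Nat.zero_lt_of_lt g6)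
  obtain ⟨q, hq, hpq⟩ : ∃ q ∈ G, ¬ Near s q p := by
    by_contra h
    push Not at h
    have := Finset.card_le_card (s := G) (t := ball p s) fun q hq => mem_ball.2 (h q hq)
    rw [card_ball] at this
    omega
  have g7 := hsh' G (g3 s q hq p hp hpq)
  have g8 : ∀ z, z - y ∈ (1 - 2 * ρ) • W → z ∈ eA N G := by
    refine (shell_dich hb (FT3_cpt N _).isClosed g7).resolve_right fun h => ?_
    have h1 : {z : E3 | z - y ∈ (1 - 2 * ρ) • W} ∪ eA N G ⊆ {z : E3 | z - y ∈ (1 + 2 * ρ) • W} :=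
      Set.union_subset (fun z hz => shell_out hb (by linarith only [hρ]) (FT3_cpt N F) f4 z (f5 z hz))
        (shell_out hb (by linarith only [hρ]) (FT3_cpt N G) g7)
    have h2 := measure_mono (μ := volume) h1
    have h0 : Disjoint {z : E3 | z - y ∈ (1 - 2 * ρ) • W} (eA N G) :=
      Set.disjoint_left.2 fun z hz => h z hz
    rw [measure_union h0 (FT3_cpt N G).measurableSet, vin, vout] at h2
    have h3 := (add_le_add le_rfl g5).trans h2
    have h4 : 0 ≤ (1 - 2 * ρ) ^ 3 * v := by nlinarith only [hv, hρ, hρ1, c4]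
    rw [← ENNReal.ofReal_add h4 h4, ENNReal.ofReal_le_ofReal_iff (by positivity)] at h3
    nlinarith only [h3, hv, hρ, hρ1, c4, c5]
  have g9 := shell_haus hb (by linarith only [hρ]) (by linarith only [hρ1]) (FT3_cpt N G) g7 g8
  rw [eA, FT3_frontier hN, ← g2] at g9
  exact absurd (hC3.trans_le ((iInf_le _ y).trans (g9.trans
    (ENNReal.ofReal_le_ofReal (by linarith only [hρ2]))))) (lt_irrefl _)

end Pool.Agent.Work.MP_b59478_pr
end
end
end

-- merged part: Pool.Agent.Work.MP_b59478_pr.Main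
section
-- merged part: Pool.Agent.Work.MP_b59478_pr.Geo
section
/-! From closeness in volume to RichPoor and Hair. A site x whose rescaled open cube is inside y + W
and which is not in A, or whose rescaled open cube misses y + W and which is in A, contributes
N ^ (-3) to the volume of the symmetric difference (card_le_volume). If the rescaled cubes of
ball z (2 R) are inside y + W and ball z R is not inside cube N, with z at distance at most 1 from
the cube or not, then at least R ^ 3 sites of ball z (2 R) are outside the cube, hence outside A;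
this is excluded when eta' is small.
rich_poor: z = rnd N y, c <= r0 / 10 and c <= (1 - omega) / 4; the poor slab is at the left end of
the cube if y 0 >= 0 and at the right end otherwise.
hair_of_not_shell: if u - y is in (1 - rho) W then the ball of radius rho r0 around u is in y + W
(convexity); if u - y is not in (1 + rho) W then that ball misses y + W. eps1 = rho r0 / 10.
-/

set_option autoImplicit false

noncomputable section

namespace Pool.Agent.Work.MP_b59478_pr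

open Classical Filter Topology MeasureTheory
open scoped symmDiff Pointwise

theorem Geo_count {N : ℕ} (hN : (0 : ℝ) < N) {S : Set E3} {η : ℝ} (hη : 0 ≤ η)
    (hS : volume S ≤ ENNReal.ofReal η) {C : Finset Site}
    (h : ∀ x ∈ C, ∀ u ∈ cubeO (emb x) (1 / 2), (N : ℝ)⁻¹ • u ∈ S) :
    (C.card : ℝ) ≤ η * (N : ℝ) ^ 3 := by
  have h1 : (C.card : ENNReal) ≤ volume ((N : ℝ) • S) :=
    card_le_volume fun x hx u hu => ⟨_, h x hx u hu, smul_inv_smul₀ hN.ne' u⟩
  rw [volume_smul_set _ hN.le] at h1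
  have h2 := h1.trans (mul_le_mul_right hS _)
  rw [← ENNReal.ofReal_mul (by positivity), ← ENNReal.ofReal_natCast,
    ENNReal.ofReal_le_ofReal_iff (by positivity)] at h2
  linarith

theorem Geo_out {N : ℕ} (hN : (0 : ℝ) < N) {A : Finset Site} {U : Set E3} {η : ℝ} (hη : 0 ≤ η)
    (hS : volume (eA N A ∆ U) ≤ ENNReal.ofReal η) {C : Finset Site} (hA : ∀ x ∈ C, x ∉ A)
    (h : ∀ x ∈ C, ∀ u ∈ cubeO (emb x) (1 / 2), (N : ℝ)⁻¹ • u ∈ U) :
    (C.card : ℝ) ≤ η * (N : ℝ) ^ 3 := by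
  refine Geo_count hN hη hS fun x hx u hu => Set.mem_symmDiff.2 (Or.inr ⟨h x hx u hu, ?_⟩)
  rw [mem_eA (by exact_mod_cast hN), smul_inv_smul₀ hN.ne']
  exact not_mem_cubes (hA x hx) hu

theorem Geo_in {N : ℕ} (hN : (0 : ℝ) < N) {A : Finset Site} {U : Set E3} {η : ℝ} (hη : 0 ≤ η)
    (hS : volume (eA N A ∆ U) ≤ ENNReal.ofReal η) {C : Finset Site} (hA : ∀ x ∈ C, x ∈ A)
    (h : ∀ x ∈ C, ∀ u ∈ cubeO (emb x) (1 / 2), (N : ℝ)⁻¹ • u ∉ U) :
    (C.card : ℝ) ≤ η * (N : ℝ) ^ 3 := by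
  refine Geo_count hN hη hS fun x hx u hu => Set.mem_symmDiff.2 (Or.inl ⟨?_, h x hx u hu⟩)
  rw [mem_eA (by exact_mod_cast hN), smul_inv_smul₀ hN.ne']
  exact ⟨x, hA x hx, fun i => (hu i).le⟩

theorem Geo_card (a : Site) (R : ℕ) :
    (Fintype.piFinset fun j => Finset.Icc (a j) (a j + R)).card = (R + 1) ^ 3 := by
  rw [Fintype.card_piFinset]
  have : ∀ j, (Finset.Icc (a j) (a j + R)).card = R + 1 := fun j => by
    rw [Int.card_Icc]
    omega
  simp [this]

theorem Geo_box {N : ℕ} (hN : (0 : ℝ) < N) {A : Finset Site} (hA : A ⊆ cube N) {U : Set E3}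
    {η : ℝ} (hη : 0 ≤ η) (hS : volume (eA N A ∆ U) ≤ ENNReal.ofReal η) {z : Site} {R : ℕ}
    (hR : η * (N : ℝ) ^ 3 < ((R : ℝ) + 1) ^ 3)
    (h : ∀ x ∈ ball z (R + R), ∀ u ∈ cubeO (emb x) (1 / 2), (N : ℝ)⁻¹ • u ∈ U) :
    ball z R ⊆ cube N := by
  intro x hx
  by_contra hc
  rw [mem_cube] at hc
  push Not at hc
  obtain ⟨i, hi⟩ := hc
  have key : ∀ a : Site, (∀ p : Site, (∀ j, a j ≤ p j ∧ p j ≤ a j + R) →
      Near R p x ∧ (N : ℤ) < |p i|) → False := by
    intro a ha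
    have hm : ∀ p ∈ Fintype.piFinset fun j => Finset.Icc (a j) (a j + R),
        Near R p x ∧ (N : ℤ) < |p i| := fun p hp =>
      ha p fun j => Finset.mem_Icc.1 (Fintype.mem_piFinset.1 hp j)
    have h1 := Geo_out hN hη hS (C := Fintype.piFinset fun j => Finset.Icc (a j) (a j + R))
      (fun p hp hpA => (mem_cube.1 (hA hpA) i).not_gt (hm p hp).2)
      fun p hp => h p (mem_ball.2 ((hm p hp).1.trans (mem_ball.1 hx)))
    rw [Geo_card] at h1
    push_cast at h1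
    linarith
  rcases lt_abs.1 hi with h1 | h1
  · refine key x fun p hp => ⟨fun j => ?_, ?_⟩
    · have := hp j
      rw [abs_le]
      omega
    · have := hp i
      rw [lt_abs]
      omega
  · refine key (fun j => x j - R) fun p hp => ⟨fun j => ?_, ?_⟩
    · have := hp j
      rw [abs_le]
      omega
    · have := hp i
      rw [lt_abs]
      omega

theorem Geo_near {N : ℕ} (hN : (0 : ℝ) < N) {z x : Site} {r : ℕ} (hx : x ∈ ball z r) {u p : E3}
    (hu : u ∈ cubeO (emb x) (1 / 2)) (hp : ∀ i, |(N : ℝ) * p i - z i| ≤ 1 / 2) {t : ℝ}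
    (ht : (r : ℝ) + 1 ≤ t * N) : ‖(N : ℝ)⁻¹ • u - p‖ ≤ 2 * t := by
  refine norm_le_of_coord fun i => ?_
  have h1 : |u i - (x i : ℝ)| < 1 / 2 := hu i
  have h2 : |(x i : ℝ) - z i| ≤ r := by exact_mod_cast mem_ball.1 hx i
  have h3 := hp i
  have e : ((N : ℝ)⁻¹ • u - p) i = (u i - N * p i) / N := by
    simp only [PiLp.sub_apply, PiLp.smul_apply, smul_eq_mul]
    field_simp
  rw [e, abs_div, abs_of_pos hN, div_le_iff₀ hN]
  rw [abs_lt] at h1
  rw [abs_le] at h2 h3 ⊢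
  constructor <;> linarith only [ht, h1, h2, h3]

theorem Geo_mem {W : Set E3} {y q : E3} : q ∈ y +ᵥ W ↔ q - y ∈ W := by
  rw [Set.mem_vadd_set_iff_neg_vadd_mem, vadd_eq_add, neg_add_eq_sub]

theorem Geo_ev {c : ℝ} (hc : 0 < c) : ∀ᶠ N : ℕ in atTop, (0 : ℝ) < N ∧ 1 ≤ c * N := by
  filter_upwards [tendsto_natCast_atTop_atTop.eventually_ge_atTop (1 / c)] with N hN
  exact ⟨(one_div_pos.2 hc).trans_le hN, by rwa [div_le_iff₀' hc] at hN⟩

theorem Geo_cube {c η : ℝ} (hc : 0 < c) (hη : η ≤ c ^ 3) (N : ℕ) :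
    η * (N : ℝ) ^ 3 < ((⌊c * N⌋₊ : ℝ) + 1) ^ 3 := by
  calc η * (N : ℝ) ^ 3 ≤ c ^ 3 * (N : ℝ) ^ 3 := by gcongr
    _ = (c * N) ^ 3 := by ring
    _ < _ := pow_lt_pow_left₀ (Nat.lt_floor_add_one _) (by positivity) (by norm_num)

theorem rich_poor {W : Set E3} {r0 ω : ℝ} (hb : Body W r0 ω) : ∃ c : ℝ, 0 < c ∧
    ∀ η : ℝ, 0 < η → ∃ η' : ℝ, 0 < η' ∧ ∀ᶠ N : ℕ in atTop, ∀ (A : Finset Site) (y : E3),
    A ⊆ cube N → volume (eA N A ∆ (y +ᵥ W)) ≤ ENNReal.ofReal η' →
    RichPoor N ⌊c * N⌋₊ (η * (N : ℝ) ^ 3) A := by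
  have hr := hb.r0_pos
  have hω := hb.ω_lt
  have hω0 : 0 ≤ ω := (abs_nonneg _).trans
    (hb.sub (hb.ball (Metric.mem_closedBall_self hr.le)) 0)
  obtain ⟨c, hc, hc1, hc2⟩ : ∃ c : ℝ, 0 < c ∧ c ≤ r0 / 10 ∧ c ≤ (1 - ω) / 4 :=
    ⟨min (r0 / 10) ((1 - ω) / 4), lt_min (by linarith only [hr]) (by linarith), min_le_left _ _,
      min_le_right _ _⟩
  refine ⟨c, hc, fun η hη => ⟨min η (c ^ 3), lt_min hη (by positivity), ?_⟩⟩
  filter_upwards [Geo_ev hc] with N ⟨hN, hcN⟩ A y hA hS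
  have h0 : 0 ≤ min η (c ^ 3) := le_min hη.le (by positivity)
  have hle : min η (c ^ 3) * (N : ℝ) ^ 3 ≤ η * (N : ℝ) ^ 3 :=
    mul_le_mul_of_nonneg_right (min_le_left _ _) (by positivity)
  have hl : (⌊c * N⌋₊ : ℝ) ≤ c * N := Nat.floor_le (by positivity)
  have hR := Geo_cube hc (min_le_right η _) N
  generalize ⌊c * N⌋₊ = l at *
  have hz : ∀ i, |(N : ℝ) * y i - rnd N y i| ≤ 1 / 2 := fun i => abs_sub_round _
  have hin : ∀ x ∈ ball (rnd N y) (l + l), ∀ u ∈ cubeO (emb x) (1 / 2),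
      (N : ℝ)⁻¹ • u ∈ y +ᵥ W := fun x hx u hu => by
    refine Geo_mem.2 (hb.ball (mem_closedBall_zero_iff.2 ?_))
    refine (Geo_near hN hx hu hz (t := 3 * c) ?_).trans (by linarith only [hc, hc1])
    push_cast
    linarith only [hcN, hl]
  have hcN4 : 4 * (c * N) ≤ (1 - ω) * N := by nlinarith only [hc2]
  have hωN : 0 ≤ ω * N := by positivity
  have hlN : 2 * (l : ℤ) < N := by
    have : 2 * (l : ℝ) < N := by linarith only [hω0, hc, hc2, hcN, hl, hcN4, hωN]
    exact_mod_cast this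
  have hcoord : ∀ u : E3, (N : ℝ)⁻¹ • u ∈ y +ᵥ W → |u 0 - N * y 0| ≤ ω * N := fun u hu => by
    have h1 := hb.sub (Geo_mem.1 hu) 0
    have e : ((N : ℝ)⁻¹ • u - y) 0 = (u 0 - N * y 0) / N := by
      simp only [PiLp.sub_apply, PiLp.smul_apply, smul_eq_mul]
      field_simp
    rwa [e, abs_div, abs_of_pos hN, div_le_iff₀ hN] at h1
  have h1 := Geo_box hN hA h0 hS hR hin
  have h2 : ((ball (rnd N y) l \ A).card : ℝ) ≤ η * (N : ℝ) ^ 3 :=
    (Geo_out hN h0 hS (fun x hx => (Finset.mem_sdiff.1 hx).2) fun x hx =>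
      hin x (mem_ball.2 ((mem_ball.1 (Finset.mem_sdiff.1 hx).1).mono (by omega)))).trans hle
  have hz0 := abs_le.1 (hz 0)
  rcases le_total 0 (y 0) with hy | hy
  · have hy' : 0 ≤ (N : ℝ) * y 0 := by positivity
    have hz1 : -1 < rnd N y 0 := by
      have : (-1 : ℝ) < rnd N y 0 := by linarith only [hω0, hc, hc2, hz0, hy']
      exact_mod_cast this
    refine ⟨rnd N y, -(N : ℤ), h1, h2, le_rfl, by omega, ?_, Or.inl (by omega)⟩
    refine (Geo_in hN h0 hS (fun x hx => (Finset.mem_filter.1 hx).1) fun x hx u hu hW => ?_).trans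
      hle
    have h3 : (x 0 : ℝ) ≤ -(N : ℝ) + l := by exact_mod_cast (Finset.mem_filter.1 hx).2.2
    have h4 : |u 0 - (x 0 : ℝ)| < 1 / 2 := hu 0
    have h5 := abs_le.1 (hcoord u hW)
    have h6 := abs_lt.1 h4
    linarith only [hω0, hc, hc2, hcN, hl, hcN4, hy', h3, h5, h6]
  · have hy' : (N : ℝ) * y 0 ≤ 0 := mul_nonpos_of_nonneg_of_nonpos hN.le hy
    have hz1 : rnd N y 0 < 1 := by
      have : (rnd N y 0 : ℝ) < 1 := by linarith only [hω0, hc, hc2, hz0, hy']
      exact_mod_cast this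
    refine ⟨rnd N y, (N : ℤ) - l, h1, h2, by omega, by omega, ?_, Or.inr (by omega)⟩
    refine (Geo_in hN h0 hS (fun x hx => (Finset.mem_filter.1 hx).1) fun x hx u hu hW => ?_).trans
      hle
    have h3 : (N : ℝ) - l ≤ (x 0 : ℝ) := by exact_mod_cast (Finset.mem_filter.1 hx).2.1
    have h4 : |u 0 - (x 0 : ℝ)| < 1 / 2 := hu 0
    have h5 := abs_le.1 (hcoord u hW)
    have h6 := abs_lt.1 h4
    linarith only [hω0, hc, hc2, hcN, hl, hcN4, hy', h3, h5, h6]

theorem Geo_scale {W : Set E3} {r0 ω ρ : ℝ} (hb : Body W r0 ω) (hρ : 0 < ρ) {d : E3}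
    (hd : ‖d‖ ≤ ρ * r0) : ρ⁻¹ • d ∈ W := by
  refine hb.ball (mem_closedBall_zero_iff.2 ?_)
  rw [norm_smul, Real.norm_eq_abs, abs_of_pos (inv_pos.2 hρ), inv_mul_le_iff₀ hρ]
  exact hd

theorem hair_of_not_shell {W : Set E3} {r0 ω ρ : ℝ} (hb : Body W r0 ω) (hρ : 0 < ρ) (hρ1 : ρ < 1) :
    ∃ ε1 : ℝ, 0 < ε1 ∧ ∀ ε η : ℝ, 0 < ε → ε ≤ ε1 → 0 < η → ∃ η' : ℝ, 0 < η' ∧
    ∀ᶠ N : ℕ in atTop, ∀ (A : Finset Site) (y : E3), A ⊆ cube N →
    volume (eA N A ∆ (y +ᵥ W)) ≤ ENNReal.ofReal η' →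
    (∃ b ∈ cut A, ¬ Shell W ρ y ((N : ℝ)⁻¹ • emb b.1)) →
    Hair N ⌊ε * N⌋₊ (η * (N : ℝ) ^ 3) A := by
  have hr := hb.r0_pos
  refine ⟨ρ * r0 / 10, by positivity, fun c η hc hc1 hη =>
    ⟨min η (c ^ 3), lt_min hη (by positivity), ?_⟩⟩
  filter_upwards [Geo_ev hc] with N ⟨hN, hcN⟩ A y hA hS ⟨b, hbA, hsh⟩
  have h0 : 0 ≤ min η (c ^ 3) := le_min hη.le (by positivity)
  have hle : min η (c ^ 3) * (N : ℝ) ^ 3 ≤ η * (N : ℝ) ^ 3 :=
    mul_le_mul_of_nonneg_right (min_le_left _ _) (by positivity)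
  have hl : (⌊c * N⌋₊ : ℝ) ≤ c * N := Nat.floor_le (by positivity)
  have hR := Geo_cube hc (min_le_right η _) N
  generalize ⌊c * N⌋₊ = l at *
  have hz : ∀ i, |(N : ℝ) * ((N : ℝ)⁻¹ • emb b.1) i - b.1 i| ≤ 1 / 2 := fun i => by
    rw [PiLp.smul_apply, smul_eq_mul, mul_inv_cancel_left₀ hN.ne', emb_apply, sub_self, abs_zero]
    norm_num
  generalize (N : ℝ)⁻¹ • emb b.1 = p at hsh hz
  have hnear : ∀ x ∈ ball b.1 (l + l), ∀ u ∈ cubeO (emb x) (1 / 2),
      ‖(N : ℝ)⁻¹ • u - p‖ ≤ ρ * r0 := fun x hx u hu => by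
    refine (Geo_near hN hx hu hz (t := 3 * c) ?_).trans (by linarith only [hc, hc1])
    push_cast
    linarith only [hcN, hl]
  have hsub : ∀ x ∈ ball b.1 l, x ∈ ball b.1 (l + l) := fun x hx =>
    mem_ball.2 ((mem_ball.1 hx).mono (by omega))
  refine ⟨b, hbA, ?_⟩
  by_cases hin : p - y ∈ (1 - ρ) • W
  · obtain ⟨w, hw, e⟩ := hin
    have hin : ∀ x ∈ ball b.1 (l + l), ∀ u ∈ cubeO (emb x) (1 / 2),
        (N : ℝ)⁻¹ • u ∈ y +ᵥ W := fun x hx u hu => by
      have h1 := hb.cvx hw (Geo_scale hb hρ (hnear x hx u hu)) (a := 1 - ρ) (b := ρ)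
        (by linarith only [hρ1]) hρ.le (by ring)
      rw [smul_inv_smul₀ hρ.ne'] at h1
      rw [Geo_mem]
      convert h1 using 1
      rw [show (1 - ρ) • w = p - y from e]
      abel
    exact Or.inr ⟨Geo_box hN hA h0 hS hR hin,
      (Geo_out hN h0 hS (fun x hx => (Finset.mem_sdiff.1 hx).2) fun x hx =>
        hin x (hsub x (Finset.mem_sdiff.1 hx).1)).trans hle⟩
  · refine Or.inl ((Geo_in hN h0 hS (fun x hx => (Finset.mem_inter.1 hx).1)
      fun x hx u hu hW => hsh ⟨?_, hin⟩).trans hle)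
    have h2 := hnear x (hsub x (Finset.mem_inter.1 hx).2) u hu
    rw [← norm_neg] at h2
    have hρ' : 0 < 1 + ρ := by linarith only [hρ, hρ1]
    have h1 := hb.cvx (Geo_mem.1 hW) (Geo_scale hb hρ h2) (a := (1 + ρ)⁻¹) (b := (1 + ρ)⁻¹ * ρ)
      (by positivity) (by positivity) (by field_simp)
    rw [mul_smul, smul_inv_smul₀ hρ.ne', ← smul_add] at h1
    refine ⟨_, h1, ?_⟩
    change (1 + ρ) • _ = _
    rw [smul_inv_smul₀ hρ'.ne']
    abel

end Pool.Agent.Work.MP_b59478_pr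
end
end

-- merged part: Pool.Agent.Work.MP_b59478_pr.Main
section
/-! Assembly.
-/

set_option autoImplicit false

set_option maxHeartbeats 400000

noncomputable section

namespace Pool.Agent.Work.MP_b59478_pr

open Classical Filter Topology MeasureTheory
open scoped symmDiff Pointwise

theorem Main_sum_FM (β : ℝ) (N : ℕ) (m : ℤ) (P : Finset Site → Prop) [DecidablePred P]
    [DecidablePred fun S => mag N S = m ∧ P (large (sN N) S)] :
    ∑ S ∈ (cube N).powerset.filter fun S => mag N S = m ∧ P (large (sN N) S), w β S =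
      ∑ A ∈ (BigSets N).filter P, FM β N m A := by
  have h := sum_decomp β (isBox_cube N) (sN N)
    (fun A S => if Mg (cube N) S = m ∧ P A then 1 else 0)
  have e1 : ∑ S ∈ (cube N).powerset.filter fun S => mag N S = m ∧ P (large (sN N) S), w β S =
      ∑ S ∈ (cube N).powerset, w β S *
        (if Mg (cube N) S = m ∧ P (large (sN N) S) then 1 else 0) := by
    rw [Finset.sum_filter]
    refine Finset.sum_congr rfl fun S hS => ?_
    have hm := mag_eq (Finset.mem_powerset.1 hS)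
    have : (mag N S = m) ↔ Mg (cube N) S = m := by
      rw [← hm]; exact Int.cast_inj.symm
    simp only [this]
    split_ifs <;> simp
  rw [e1, h, Finset.sum_filter (s := BigSets N)]
  refine Finset.sum_congr rfl fun A _ => ?_
  by_cases hP : P A
  · simp only [hP, and_true, if_true, FM, ZM, Finset.sum_filter]
    congr 1
    refine Finset.sum_congr rfl fun D _ => ?_
    split_ifs <;> simp
  · simp [hP]

theorem Main_FM_nonneg (β : ℝ) (N : ℕ) (m : ℤ) (A : Finset Site) : 0 ≤ FM β N m A :=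
  mul_nonneg (w_pos _ _).le (ZM_nonneg _ _ _ _ _ _)

theorem Main_PL_nonneg (β : ℝ) (N : ℕ) (A : Finset Site) : 0 ≤ PL β N A :=
  mul_nonneg (w_pos _ _).le (gZ0_pos _ _ _ _).le

theorem Main_FM_le_PL (β : ℝ) (N : ℕ) (m : ℤ) (A : Finset Site) : FM β N m A ≤ PL β N A :=
  mul_le_mul_of_nonneg_left (ZM_le_gZ0 _ _ _ _ _ _) (w_pos _ _).le

theorem Main_sum_or {t t1 t2 : Finset (Finset Site)} {f : Finset Site → ℝ} (hf : ∀ A, 0 ≤ f A)
    (h : t ⊆ t1 ∪ t2) : ∑ A ∈ t, f A ≤ ∑ A ∈ t1, f A + ∑ A ∈ t2, f A := by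
  refine (Finset.sum_le_sum_of_subset_of_nonneg h fun A _ _ => hf A).trans ?_
  rw [← Finset.sum_union_inter]
  exact le_add_of_nonneg_right (Finset.sum_nonneg fun A _ => hf A)

theorem Main_condProb (β : ℝ) (N : ℕ) (m : ℤ) (Ev : Finset Site → Prop) :
    condProb β N m Ev =
      (∑ S ∈ (cube N).powerset.filter fun S => mag N S = m ∧ Ev S, w β S) /
        ∑ A ∈ BigSets N, FM β N m A := by
  have e : ∀ t : Finset (Finset Site), t ⊆ (cube N).powerset →
      ∑ S ∈ t, weight β (cube N) (fun _ => -1) S =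
        Real.exp (β * (bonds (cube N)).card) * ∑ S ∈ t, w β S := by
    intro t ht
    rw [Finset.mul_sum]
    exact Finset.sum_congr rfl fun S hS => weight_minus β (Finset.mem_powerset.1 (ht hS))
  have h := Main_sum_FM β N m (fun _ => True)
  simp only [and_true, Finset.filter_true] at h
  unfold condProb
  rw [e _ (Finset.filter_subset _ _), e _ (Finset.filter_subset _ _),
    mul_div_mul_left _ _ (Real.exp_pos _).ne', ← h]

theorem Main_key {z Z θ δ n2 I0 x : ℝ} (hz : 0 < z) (hθ : 0 < θ)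
    (hsm : 20 / θ ≤ Real.exp (δ * n2)) (hLB : z * Real.exp (-((I0 + δ) * n2)) ≤ Z)
    (hx : (I0 + 2 * δ) * n2 ≤ x) : z * Real.exp (-x) ≤ θ / 20 * Z := by
  have h1 : Real.exp (-x) ≤ Real.exp (-(δ * n2)) * Real.exp (-((I0 + δ) * n2)) := by
    rw [← Real.exp_add]; exact Real.exp_le_exp.2 (by linarith)
  have h2 : Real.exp (-(δ * n2)) ≤ θ / 20 := by
    rw [Real.exp_neg, inv_le_comm₀ (Real.exp_pos _) (by positivity)]
    simpa using hsm
  calc z * Real.exp (-x) ≤ z * (θ / 20 * Real.exp (-((I0 + δ) * n2))) := by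
        gcongr
        exact h1.trans (by gcongr)
    _ = θ / 20 * (z * Real.exp (-((I0 + δ) * n2))) := by ring
    _ ≤ θ / 20 * Z := by gcongr

theorem Main_ar2 {I0 δ η κ r n2 : ℝ} (hδ : δ ≤ 1) (hη : 0 < η) (hκ : 0 < κ) (hn : 0 ≤ n2)
    (h : (I0 + 2) * 108 / (η * κ) ≤ r) : (I0 + 2 * δ) * n2 ≤ η * (κ * r) / 108 * n2 := by
  gcongr
  rw [div_le_iff₀ (by positivity)] at h
  rw [le_div_iff₀ (by norm_num)]
  nlinarith only [hδ, h]

theorem main_ctx {β ms v lam : ℝ} {τ : E3 → ℝ} {r0 ω : ℝ} {m : ℕ → ℤ}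
    (H : Ctx β ms v lam τ r0 ω m) {ε : ℝ} (hε : 0 < ε) :
    Tendsto (fun N => condProb β N (m N) (Far N (wulff τ lam) ε)) atTop (𝓝 0) := by
  obtain ⟨ρ, ηF, hρ, hρ1, hηF, hFT⟩ := final_topo H.body H.v_pos H.vol hε
  obtain ⟨c, hc, hRP⟩ := rich_poor H.body
  obtain ⟨ε1, hε1, hHS⟩ := hair_of_not_shell H.body hρ hρ1
  have hβ : (0 : ℝ) < β := by linarith [H.hβ]
  obtain ⟨I0, hI0⟩ : ∃ I0, I0 = 3 * v / lam := ⟨_, rfl⟩
  have hI0p : 0 < I0 := by rw [hI0]; have := H.v_pos; have := H.lam_pos; positivity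
  obtain ⟨C0, hC0⟩ : ∃ C0, C0 = (I0 + 2) / β := ⟨_, rfl⟩
  have hC0p : 0 < C0 := by rw [hC0]; positivity
  have hβC : β * C0 = I0 + 2 := by rw [hC0]; field_simp
  obtain ⟨ε0, hε0, hb5⟩ := b5 H hC0p hc
  obtain ⟨η, η1, hη, hη1, hb5'⟩ := hb5 (min ε0 ε1) (lt_min hε0 hε1) (min_le_left _ _)
  obtain ⟨ηa, hηa, hRP'⟩ := hRP η hη
  obtain ⟨ηb, hηb, hHS'⟩ := hHS (min ε0 ε1) η (lt_min hε0 hε1) (min_le_right _ _) hη
  obtain ⟨η2, hη2, h2F, h2a, h2b⟩ : ∃ η2 : ℝ, 0 < η2 ∧ η2 ≤ ηF ∧ η2 ≤ ηa ∧ η2 ≤ ηb :=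
    ⟨min ηF (min ηa ηb), lt_min hηF (lt_min hηa hηb), min_le_left _ _,
      (min_le_right _ _).trans (min_le_left _ _), (min_le_right _ _).trans (min_le_right _ _)⟩
  obtain ⟨δ4, κ4, hδ4, hκ4, hU2⟩ := ld_upper2 H hC0p.le hη2
  obtain ⟨δ, hδ, hδa, hδb, hδc⟩ : ∃ δ : ℝ, 0 < δ ∧ 2 * δ ≤ δ4 ∧ 3 * δ ≤ η1 * η1 / 108 ∧ δ ≤ 1 :=
    ⟨min (δ4 / 2) (min (η1 * η1 / 324) 1), by positivity,
      by linarith only [min_le_left (δ4 / 2) (min (η1 * η1 / 324) 1)],
      by linarith only [min_le_right (δ4 / 2) (min (η1 * η1 / 324) 1), min_le_left (η1 * η1 / 324) 1],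
      (min_le_right _ _).trans (min_le_right _ _)⟩
  obtain ⟨κ3, hκ3, hU1⟩ := ld_upper1 H hC0p.le hδ
  obtain ⟨κ, hκ, hκa, hκb⟩ : ∃ κ : ℝ, 0 < κ ∧ κ ≤ κ3 ∧ κ ≤ κ4 :=
    ⟨min κ3 κ4, lt_min hκ3 hκ4, min_le_left _ _, min_le_right _ _⟩
  rw [← hI0] at hU1 hU2
  have hLB := total_lower H hδ
  rw [← hI0] at hLB
  refine tendsto_order.2 ⟨fun a ha => Eventually.of_forall fun N => lt_of_lt_of_le ha ?_,
    fun θ hθ => ?_⟩
  · rw [Main_condProb]
    exact div_nonneg (Finset.sum_nonneg fun S _ => (w_pos _ _).le)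
      (Finset.sum_nonneg fun A _ => Main_FM_nonneg _ _ _ _)
  have hθ' : 0 < θ / 4 := by positivity
  filter_upwards [hFT, hRP', hHS', hU1, hU2, hLB, hb5' (θ / 4) hθ', b1 H.hβ,
    chernoff_dev H C0 hη1, ev_poly_exp_sq (20 / θ) 0 hδ, ev_sqrt (η1 / κ),
    ev_sqrt ((I0 + 2) * 108 / (η1 * κ))] with N hFT hRP hHS hU1 hU2 hLB hb5 hb1 hch hsm hs1 hs2
  set Z := ∑ A ∈ BigSets N, FM β N (m N) A with hZ
  set n2 : ℝ := (N : ℝ) ^ 2 with hn2
  have hn20 : 0 ≤ n2 := by (clear * - ; positivity)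
  have hZ0 := Z0_pos β (cube N)
  have hZp : 0 < Z := lt_of_lt_of_le (mul_pos hZ0 (Real.exp_pos _)) hLB
  have hsq : Real.sqrt N * Real.sqrt N = N := Real.mul_self_sqrt (Nat.cast_nonneg N)
  have key : ∀ x : ℝ, (I0 + 2 * δ) * n2 ≤ x → Z0 β (cube N) * Real.exp (-x) ≤ θ / 20 * Z :=
    fun x hx => Main_key hZ0 hθ (by simpa using hsm) hLB hx
  have hsub : ∀ A ∈ BigSets N, A ⊆ cube N := fun A hA =>
    Finset.mem_powerset.1 (Finset.mem_filter.1 hA).1
  let P1 : Finset Site → Prop := fun A => C0 * n2 ≤ ((cut A).card : ℝ)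
  let P2 : Finset Site → Prop := fun A => ((cut A).card : ℝ) ≤ C0 * n2 ∧
    κ * (N : ℝ) ^ 3 ≤ |(A.card : ℝ) - v * (N : ℝ) ^ 3|
  let P3 : Finset Site → Prop := fun A => ((cut A).card : ℝ) ≤ C0 * n2 ∧
    |(A.card : ℝ) - v * (N : ℝ) ^ 3| ≤ κ3 * (N : ℝ) ^ 3 ∧
    η1 * (n2 * Real.sqrt N) ≤ |(A.card : ℝ) - v * (N : ℝ) ^ 3|
  let P4 : Finset Site → Prop := fun A => ((cut A).card : ℝ) ≤ C0 * n2 ∧
    |(A.card : ℝ) - v * (N : ℝ) ^ 3| ≤ κ4 * (N : ℝ) ^ 3 ∧
    ∀ y : E3, ENNReal.ofReal η2 < volume (eA N A ∆ (y +ᵥ wulff τ lam))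
  let P5 : Finset Site → Prop := fun A => ((cut A).card : ℝ) ≤ C0 * n2 ∧
    |(A.card : ℝ) - v * (N : ℝ) ^ 3| ≤ η1 * (n2 * Real.sqrt N) ∧
    RichPoor N ⌊c * N⌋₊ (η * (N : ℝ) ^ 3) A ∧ Hair N ⌊min ε0 ε1 * N⌋₊ (η * (N : ℝ) ^ 3) A
  have hN3 : (0 : ℝ) ≤ (N : ℝ) ^ 3 := by (clear * - ; positivity)
  have hbad : ∀ S ⊆ cube N, Far N (wulff τ lam) ε S →
      P1 (large (sN N) S) ∨ P2 (large (sN N) S) ∨ P3 (large (sN N) S) ∨ P4 (large (sN N) S) ∨
        P5 (large (sN N) S) := by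
    intro S hS hF
    have hA := large_subset (isBox_cube N) hS (sN N)
    by_cases h1 : P1 (large (sN N) S)
    · exact Or.inl h1
    have h1' : ((cut (large (sN N) S)).card : ℝ) ≤ C0 * n2 := (not_le.1 h1).le
    rcases le_total (κ * (N : ℝ) ^ 3) |((large (sN N) S).card : ℝ) - v * (N : ℝ) ^ 3| with h2 | h2
    · exact Or.inr (Or.inl ⟨h1', h2⟩)
    rcases le_total (η1 * (n2 * Real.sqrt N))
      |((large (sN N) S).card : ℝ) - v * (N : ℝ) ^ 3| with h3 | h3
    · exact Or.inr (Or.inr (Or.inl ⟨h1', h2.trans (mul_le_mul_of_nonneg_right hκa hN3), h3⟩))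
    by_cases h4 : ∀ y : E3,
        ENNReal.ofReal η2 < volume (eA N (large (sN N) S) ∆ (y +ᵥ wulff τ lam))
    · exact Or.inr (Or.inr (Or.inr (Or.inl ⟨h1', h2.trans (mul_le_mul_of_nonneg_right hκb hN3), h4⟩)))
    push Not at h4
    obtain ⟨y, hy⟩ := h4
    refine Or.inr (Or.inr (Or.inr (Or.inr ⟨h1', h3,
      hRP _ y hA (hy.trans (ENNReal.ofReal_le_ofReal h2a)),
      hHS _ y hA (hy.trans (ENNReal.ofReal_le_ofReal h2b)) ?_⟩)))
    by_contra hcon
    push Not at hcon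
    exact hFT S y hS (hy.trans (ENNReal.ofReal_le_ofReal h2F)) hcon hF
  have f0 := Main_FM_nonneg β N (m N)
  have b1' : ∑ A ∈ (BigSets N).filter P1, FM β N (m N) A ≤ 2 * (θ / 20 * Z) := by
    calc ∑ A ∈ (BigSets N).filter P1, FM β N (m N) A
        ≤ ∑ A ∈ (BigSets N).filter P1, w β A * Z0 β (cube N) :=
          Finset.sum_le_sum fun A _ => mul_le_mul_of_nonneg_left
            ((ZM_le_gZ0 _ _ _ _ _ _).trans (gZ0_le_Z0 _ _ _ _)) (w_pos _ _).le
      _ = (∑ A ∈ (BigSets N).filter P1, w β A) * Z0 β (cube N) := (Finset.sum_mul _ _ _).symm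
      _ ≤ 2 * Real.exp (-(β * (C0 * n2))) * Z0 β (cube N) :=
          mul_le_mul_of_nonneg_right (hb1 _) hZ0.le
      _ = 2 * (Z0 β (cube N) * Real.exp (-(β * (C0 * n2)))) := by ring
      _ ≤ _ := by
          refine mul_le_mul_of_nonneg_left (key _ ?_) (by norm_num)
          rw [← mul_assoc, hβC]
          exact mul_le_mul_of_nonneg_right (by linarith only [hδc]) hn20
  have b2' : ∑ A ∈ (BigSets N).filter P2, FM β N (m N) A ≤ θ / 20 * Z := by
    have ht : η1 ≤ κ * Real.sqrt N := by rwa [div_le_iff₀' hκ] at hs1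
    calc ∑ A ∈ (BigSets N).filter P2, FM β N (m N) A
        ≤ ∑ A ∈ (BigSets N).filter P2,
            Real.exp (-(η1 * (κ * Real.sqrt N) / 108 * n2)) * PL β N A := by
          refine Finset.sum_le_sum fun A hA => ?_
          obtain ⟨hA, h1, h2⟩ := Finset.mem_filter.1 hA
          refine hch A _ (hsub A hA) h1 ht (le_trans (le_of_eq ?_) h2)
          calc κ * Real.sqrt N * (n2 * Real.sqrt N)
              = κ * (n2 * (Real.sqrt N * Real.sqrt N)) := by ring
            _ = κ * (N : ℝ) ^ 3 := by rw [hsq, hn2]; ring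
      _ ≤ ∑ A ∈ BigSets N, Real.exp (-(η1 * (κ * Real.sqrt N) / 108 * n2)) * PL β N A :=
          Finset.sum_le_sum_of_subset_of_nonneg (Finset.filter_subset _ _) fun A _ _ =>
            mul_nonneg (Real.exp_pos _).le (Main_PL_nonneg _ _ _)
      _ = Z0 β (cube N) * Real.exp (-(η1 * (κ * Real.sqrt N) / 108 * n2)) := by
          rw [← Finset.mul_sum, sum_PL, mul_comm]
      _ ≤ _ := key _ (Main_ar2 hδc hη1 hκ hn20 hs2)
  have b3' : ∑ A ∈ (BigSets N).filter P3, FM β N (m N) A ≤ θ / 20 * Z := by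
    calc ∑ A ∈ (BigSets N).filter P3, FM β N (m N) A
        ≤ ∑ A ∈ (BigSets N).filter P3, Real.exp (-(η1 * η1 / 108 * n2)) * PL β N A := by
          refine Finset.sum_le_sum fun A hA => ?_
          obtain ⟨hA, h1, _, h3⟩ := Finset.mem_filter.1 hA
          exact hch A _ (hsub A hA) h1 le_rfl h3
      _ = Real.exp (-(η1 * η1 / 108 * n2)) * ∑ A ∈ (BigSets N).filter P3, PL β N A := by
          rw [Finset.mul_sum]
      _ ≤ Real.exp (-(η1 * η1 / 108 * n2)) *
            (Z0 β (cube N) * Real.exp (-((I0 - δ) * n2))) := by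
          refine mul_le_mul_of_nonneg_left ?_ (Real.exp_pos _).le
          refine le_trans (Finset.sum_le_sum_of_subset_of_nonneg ?_ fun A _ _ =>
            Main_PL_nonneg _ _ _) hU1
          intro A hA
          obtain ⟨hA, h1, h2, _⟩ := Finset.mem_filter.1 hA
          exact Finset.mem_filter.2 ⟨hA, h1, h2⟩
      _ = Z0 β (cube N) * Real.exp (-(η1 * η1 / 108 * n2 + (I0 - δ) * n2)) := by
          rw [neg_add, Real.exp_add]; ring
      _ ≤ _ := by
          refine key _ ?_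
          rw [← add_mul]
          exact mul_le_mul_of_nonneg_right (by linarith only [hδb]) hn20
  have b4' : ∑ A ∈ (BigSets N).filter P4, FM β N (m N) A ≤ θ / 20 * Z := by
    calc ∑ A ∈ (BigSets N).filter P4, FM β N (m N) A
        ≤ ∑ A ∈ (BigSets N).filter P4, PL β N A :=
          Finset.sum_le_sum fun A _ => Main_FM_le_PL _ _ _ _
      _ ≤ Z0 β (cube N) * Real.exp (-((I0 + δ4) * n2)) := hU2
      _ ≤ _ := key _ (mul_le_mul_of_nonneg_right (by linarith only [hδa]) hn20)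
  have b5' : ∑ A ∈ (BigSets N).filter P5, FM β N (m N) A ≤ θ / 4 * Z := hb5
  rw [Main_condProb, div_lt_iff₀ hZp]
  obtain ⟨t1, ht1⟩ : ∃ t, t = (BigSets N).filter P1 := ⟨_, rfl⟩
  obtain ⟨t2, ht2⟩ : ∃ t, t = (BigSets N).filter P2 := ⟨_, rfl⟩
  obtain ⟨t3, ht3⟩ : ∃ t, t = (BigSets N).filter P3 := ⟨_, rfl⟩
  obtain ⟨t4, ht4⟩ : ∃ t, t = (BigSets N).filter P4 := ⟨_, rfl⟩
  obtain ⟨t5, ht5⟩ : ∃ t, t = (BigSets N).filter P5 := ⟨_, rfl⟩
  rw [← ht1] at b1'
  rw [← ht2] at b2'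
  rw [← ht3] at b3'
  rw [← ht4] at b4'
  rw [← ht5] at b5'
  have hmem : ∀ S ⊆ cube N, Far N (wulff τ lam) ε S →
      large (sN N) S ∈ t1 ∪ (t2 ∪ (t3 ∪ (t4 ∪ t5))) := by
    intro S hS hF
    have hA : large (sN N) S ∈ BigSets N := Finset.mem_filter.2
      ⟨Finset.mem_powerset.2 (large_subset (isBox_cube N) hS (sN N)), allBig_large _ _⟩
    simp only [Finset.mem_union]
    rw [ht1, ht2, ht3, ht4, ht5]
    simp only [Finset.mem_filter, hA, true_and]
    exact hbad S hS hF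
  generalize Far N (wulff τ lam) ε = Ev at hmem
  calc ∑ S ∈ (cube N).powerset.filter fun S => mag N S = m N ∧ Ev S, w β S
      ≤ ∑ S ∈ (cube N).powerset.filter fun S => mag N S = m N ∧
          large (sN N) S ∈ t1 ∪ (t2 ∪ (t3 ∪ (t4 ∪ t5))), w β S := by
        refine Finset.sum_le_sum_of_subset_of_nonneg ?_ fun S _ _ => (w_pos _ _).le
        intro S hS
        obtain ⟨hS, h1, h2⟩ := Finset.mem_filter.1 hS
        exact Finset.mem_filter.2 ⟨hS, h1, hmem S (Finset.mem_powerset.1 hS) h2⟩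
    _ = ∑ A ∈ (BigSets N).filter fun A => A ∈ t1 ∪ (t2 ∪ (t3 ∪ (t4 ∪ t5))), FM β N (m N) A :=
        Main_sum_FM β N (m N) (fun A => A ∈ t1 ∪ (t2 ∪ (t3 ∪ (t4 ∪ t5))))
    _ ≤ 2 * (θ / 20 * Z) + (θ / 20 * Z + (θ / 20 * Z + (θ / 20 * Z + θ / 4 * Z))) := by
        refine (Main_sum_or f0 fun A hA => (Finset.mem_filter.1 hA).2).trans (add_le_add b1' ?_)
        refine (Main_sum_or f0 subset_rfl).trans (add_le_add b2' ?_)
        refine (Main_sum_or f0 subset_rfl).trans (add_le_add b3' ?_)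
        exact (Main_sum_or f0 subset_rfl).trans (add_le_add b4' b5')
    _ < θ * Z := by linarith only [mul_pos hθ hZp]

theorem Main_nearest {N : ℕ} {t : ℝ} {m : ℤ} (h : IsNearest N t m)
    (ht : |t| ≤ ((cube N).card : ℝ)) : Even (m - (cube N).card) ∧ |(m : ℝ) - t| ≤ 1 := by
  obtain ⟨⟨S, hS, hm⟩, h2⟩ := h
  constructor
  · have e := mag_eq hS
    rw [hm, Mg] at e
    have : m = 2 * (S.card : ℤ) - (cube N).card := by exact_mod_cast e
    exact ⟨(S.card : ℤ) - (cube N).card, by rw [this]; ring⟩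
  · obtain ⟨h3, h4⟩ := abs_le.1 ht
    set n : ℝ := ((cube N).card : ℝ) with hn
    have h5 : 0 ≤ (t + n + 1) / 2 := by linarith
    have h6 := Nat.floor_le h5
    have h7 := Nat.lt_floor_add_one ((t + n + 1) / 2)
    have h8 : ⌊(t + n + 1) / 2⌋₊ ≤ (cube N).card := by
      have : ((⌊(t + n + 1) / 2⌋₊ : ℕ) : ℝ) < ((cube N).card + 1 : ℕ) := by
        push_cast; linarith only [h4, h6]
      exact Nat.lt_succ_iff.1 (by exact_mod_cast this)
    obtain ⟨T, hT, hc⟩ := Finset.exists_subset_card_eq h8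
    refine (h2 T hT).trans ?_
    rw [mag_eq hT, Mg, hc, abs_le]
    constructor <;> linarith only [h7, h6]

theorem main (b : ℝ) (hb : 0 < b) (hb' : b < 1 / 2) : ∃ β0 : ℝ, ∀ β : ℝ, β0 ≤ β →
    ∃ (ms : ℝ) (τ : E3 → ℝ) (lam : ℝ), 0 < ms ∧ IsMag β ms ∧ IsTension β τ ∧ 0 < lam ∧
      volume (wulff τ lam) = ENNReal.ofReal (b / (2 * ms)) ∧
      ∀ m : ℕ → ℤ, (∀ N, IsNearest N (-ms * (2 * (N : ℝ) + 1) ^ 3 + b * (N : ℝ) ^ 3) (m N)) →
        ∀ ε : ℝ, 0 < ε →
          Tendsto (fun N => condProb β N (m N) (Far N (wulff τ lam) ε)) atTop (𝓝 0) := by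
  refine ⟨1000, fun β hβ => ?_⟩
  obtain ⟨ms, hms, hM⟩ := exists_mag hβ
  obtain ⟨τ, hτ, hT⟩ := exists_tau hβ
  have h1 := hM.lo
  have h2 := hM.hi
  have hms0 : 0 < ms := by linarith only [hb, hb', h1]
  have hv : 0 < b / (2 * ms) := by positivity
  have hv' : b / (2 * ms) ≤ 0.26 := by
    rw [div_le_iff₀ (by positivity)]; linarith only [hb, hb', h1]
  obtain ⟨lam, hlam, hvol, r0, ω, hB⟩ := wulff_facts hβ hT hv hv'
  refine ⟨ms, τ, lam, hms0, hms, hτ, hlam, hvol, fun m hm ε hε => ?_⟩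
  have hn : ∀ N, Even (m N - (cube N).card) ∧
      |(m N : ℝ) - (-ms * (2 * (N : ℝ) + 1) ^ 3 + b * (N : ℝ) ^ 3)| ≤ 1 := by
    intro N
    refine Main_nearest (hm N) ?_
    rw [card_cube]
    push_cast
    have hN : (0 : ℝ) ≤ N := Nat.cast_nonneg N
    have h3 : (N : ℝ) ^ 3 ≤ (2 * (N : ℝ) + 1) ^ 3 := by gcongr; linarith only [hv, hv']
    have h4 : (0 : ℝ) ≤ (N : ℝ) ^ 3 := by positivity
    rw [abs_le]
    constructor <;> nlinarith only [hb, h4, hb', h2, h3, hv', hv, h1]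
  refine main_ctx (ms := ms) (r0 := r0) (ω := ω)
    ⟨hβ, hM, hT, hv, hv', hlam, hvol, hB, fun N => (hn N).1, fun N => ?_⟩ hε
  have e : ms * (2 * (b / (2 * ms)) * (N : ℝ) ^ 3 - (2 * (N : ℝ) + 1) ^ 3) =
      -ms * (2 * (N : ℝ) + 1) ^ 3 + b * (N : ℝ) ^ 3 := by field_simp; ring
  rw [e]
  exact (hn N).2

end Pool.Agent.Work.MP_b59478_pr
end
end
end
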